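import Pool.Agent.H53.Sey.Star

/-!
# Graph toolkit D: vertices of degree 2 (job SEYG-D)

`W` is a set of vertices of degree 2: `w ∈ W` has exactly the edges `k₀ w`, `k₁ w`, which join `w`
to `n₀ w ≠ n₁ w`, both outside `W`. For a choice `c : V → Bool` contract the edges `kc w`,
`w ∈ W` (`kc w = k₁ w` if `c w`, else `k₀ w`): by `GRep.conQ` with `π w = nc w` for `w ∈ W` and
`π x = x` otherwise, the graph of the contraction is the graph on `U \ W` in which the other edge of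
`w` joins `n₀ w` and `n₁ w`. It has no 2-vertex-cut if `G.VC _ W` holds: given `(P, Q)` put
`w ∈ W` into `P` if `n₀ w, n₁ w ∈ P` and into `Q` otherwise. So `U3` gives `|T_c| ≤ 2` if the
contraction is graphic.
-/

set_option autoImplicit false

namespace Pool.Agent.H53.Sey

open Pool.Agent.H63.Sey
open scoped symmDiff

universe u v w

variable {α : Type u} [DecidableEq α] {V : Type v} [DecidableEq V]

/-- the data of a set `W` of vertices of degree 2 -/
structure Deg2 (G : Gr α V) (E : Finset α) (W : Finset V) (k₀ k₁ : V → α) (n₀ n₁ : V → V) :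
    Prop where
  WU : W ⊆ G.U
  star : ∀ w ∈ W, G.star E w = {k₀ w, k₁ w}
  ne : ∀ w ∈ W, k₀ w ≠ k₁ w
  jn₀ : ∀ w ∈ W, G.Jn (k₀ w) w (n₀ w)
  jn₁ : ∀ w ∈ W, G.Jn (k₁ w) w (n₁ w)
  nn : ∀ w ∈ W, n₀ w ≠ n₁ w
  nW₀ : ∀ w ∈ W, n₀ w ∉ W
  nW₁ : ∀ w ∈ W, n₁ w ∉ W

/-- the retraction onto `U \ W` given by the choice `c` -/
def ret (W : Finset V) (n₀ n₁ : V → V) (c : V → Bool) (x : V) : V :=
  if x ∈ W then (if c x then n₁ x else n₀ x) else x

/-- the contracted edges -/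
def cset (W : Finset V) (k₀ k₁ : V → α) (c : V → Bool) : Finset α :=
  W.image fun w => if c w then k₁ w else k₀ w

/-- the image of `T` -/
def retT (U W : Finset V) (n₀ n₁ : V → V) (c : V → Bool) (T : Finset V) : Finset V :=
  (U \ W).filter fun x => Odd (T.filter fun t => ret W n₀ n₁ c t = x).card

section helpers

variable {G : Gr α V} {E : Finset α} {W : Finset V} {k₀ k₁ : V → α} {n₀ n₁ : V → V}

/-- contracted edge at `w` -/
private def kc (k₀ k₁ : V → α) (c : V → Bool) (w : V) : α := if c w then k₁ w else k₀ w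

/-- the other edge at `w` -/
private def oc (k₀ k₁ : V → α) (c : V → Bool) (w : V) : α := if c w then k₀ w else k₁ w

private def nc (n₀ n₁ : V → V) (c : V → Bool) (w : V) : V := if c w then n₁ w else n₀ w

private def mc (n₀ n₁ : V → V) (c : V → Bool) (w : V) : V := if c w then n₀ w else n₁ w

omit [DecidableEq V] in
private lemma mem_cset {W : Finset V} {k₀ k₁ : V → α} {c : V → Bool} {a : α} :
    a ∈ cset W k₀ k₁ c ↔ ∃ w ∈ W, kc k₀ k₁ c w = a := by
  unfold cset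
  rw [Finset.mem_image]
  rfl

private lemma ret_of_mem {W : Finset V} {n₀ n₁ : V → V} {c : V → Bool} {x : V} (hx : x ∈ W) :
    ret W n₀ n₁ c x = nc n₀ n₁ c x := if_pos hx

private lemma ret_of_notMem {W : Finset V} {n₀ n₁ : V → V} {c : V → Bool} {x : V} (hx : x ∉ W) :
    ret W n₀ n₁ c x = x := if_neg hx

private lemma Deg2.star' (hd : Deg2 G E W k₀ k₁ n₀ n₁) (c : V → Bool) {w : V} (hw : w ∈ W) :
    G.star E w = {kc k₀ k₁ c w, oc k₀ k₁ c w} := by
  rw [hd.star w hw]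
  unfold kc oc
  by_cases h : c w
  · simp only [h, if_true]
    exact Finset.pair_comm _ _
  · simp only [h]
    rfl

private lemma Deg2.kc_mem (hd : Deg2 G E W k₀ k₁ n₀ n₁) (c : V → Bool) {w : V} (hw : w ∈ W) :
    kc k₀ k₁ c w ∈ E := by
  have h : kc k₀ k₁ c w ∈ G.star E w := by
    rw [hd.star' c hw]
    exact Finset.mem_insert_self _ _
  exact (Gr.mem_star.1 h).1

private lemma Deg2.oc_mem (hd : Deg2 G E W k₀ k₁ n₀ n₁) (c : V → Bool) {w : V} (hw : w ∈ W) :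
    oc k₀ k₁ c w ∈ E := by
  have h : oc k₀ k₁ c w ∈ G.star E w := by
    rw [hd.star' c hw]
    exact Finset.mem_insert_of_mem (Finset.mem_singleton_self _)
  exact (Gr.mem_star.1 h).1

private lemma Deg2.kjn (hd : Deg2 G E W k₀ k₁ n₀ n₁) (c : V → Bool) {w : V} (hw : w ∈ W) :
    G.Jn (kc k₀ k₁ c w) w (nc n₀ n₁ c w) := by
  unfold kc nc
  by_cases h : c w
  · simp only [h, if_true]
    exact hd.jn₁ w hw
  · simp only [h]
    exact hd.jn₀ w hw

private lemma Deg2.ojn (hd : Deg2 G E W k₀ k₁ n₀ n₁) (c : V → Bool) {w : V} (hw : w ∈ W) :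
    G.Jn (oc k₀ k₁ c w) w (mc n₀ n₁ c w) := by
  unfold oc mc
  by_cases h : c w
  · simp only [h, if_true]
    exact hd.jn₀ w hw
  · simp only [h]
    exact hd.jn₁ w hw

private lemma Deg2.ncW (hd : Deg2 G E W k₀ k₁ n₀ n₁) (c : V → Bool) {w : V} (hw : w ∈ W) :
    nc n₀ n₁ c w ∉ W := by
  unfold nc
  split_ifs
  · exact hd.nW₁ w hw
  · exact hd.nW₀ w hw

private lemma Deg2.mcW (hd : Deg2 G E W k₀ k₁ n₀ n₁) (c : V → Bool) {w : V} (hw : w ∈ W) :
    mc n₀ n₁ c w ∉ W := by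
  unfold mc
  split_ifs
  · exact hd.nW₀ w hw
  · exact hd.nW₁ w hw

private lemma Deg2.nmc (hd : Deg2 G E W k₀ k₁ n₀ n₁) (c : V → Bool) {w : V} (hw : w ∈ W) :
    nc n₀ n₁ c w ≠ mc n₀ n₁ c w := by
  unfold nc mc
  split_ifs
  · exact (hd.nn w hw).symm
  · exact hd.nn w hw

private lemma Deg2.koc (hd : Deg2 G E W k₀ k₁ n₀ n₁) (c : V → Bool) {w : V} (hw : w ∈ W) :
    kc k₀ k₁ c w ≠ oc k₀ k₁ c w := by
  unfold kc oc
  split_ifs
  · exact (hd.ne w hw).symm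
  · exact hd.ne w hw

private lemma Deg2.ncU (hd : Deg2 G E W k₀ k₁ n₀ n₁) (hon : G.On E) (c : V → Bool) {w : V}
    (hw : w ∈ W) : nc n₀ n₁ c w ∈ G.U := (hon.jn_mem (hd.kc_mem c hw) (hd.kjn c hw)).2.1

/-- an edge with exactly one end in `W` -/
private lemma jn_unique {a : α} {w y w' y' : V} {W : Finset V} (h : G.Jn a w y) (hy : y ∉ W)
    (h' : G.Jn a w' y') (hw' : w' ∈ W) : w' = w ∧ y' = y := by
  rcases h.ends h' with ⟨h1, h2⟩ | ⟨h1, h2⟩
  · exact ⟨h1.symm, h2.symm⟩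
  · exact absurd (h2 ▸ hw') hy

private lemma Deg2.kc_inj (hd : Deg2 G E W k₀ k₁ n₀ n₁) (c : V → Bool) {w w' : V} (hw : w ∈ W)
    (hw' : w' ∈ W) (h : kc k₀ k₁ c w = kc k₀ k₁ c w') : w = w' :=
  (jn_unique (hd.kjn c hw') (hd.ncW c hw') (h ▸ hd.kjn c hw) hw).1

private lemma Deg2.oc_inj (hd : Deg2 G E W k₀ k₁ n₀ n₁) (c : V → Bool) {w w' : V} (hw : w ∈ W)
    (hw' : w' ∈ W) (h : oc k₀ k₁ c w = oc k₀ k₁ c w') : w = w' :=
  (jn_unique (hd.ojn c hw') (hd.mcW c hw') (h ▸ hd.ojn c hw) hw).1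

private lemma Deg2.oc_notMem (hd : Deg2 G E W k₀ k₁ n₀ n₁) (c : V → Bool) {w : V} (hw : w ∈ W) :
    oc k₀ k₁ c w ∉ cset W k₀ k₁ c := by
  rw [mem_cset]
  rintro ⟨w', hw', h⟩
  have h1 := (jn_unique (hd.ojn c hw) (hd.mcW c hw) (h ▸ hd.kjn c hw') hw').1
  subst h1
  exact hd.koc c hw' h

/-- the uncontracted edges with an end in `W` -/
private lemma Deg2.eq_oc (hd : Deg2 G E W k₀ k₁ n₀ n₁) (c : V → Bool) {a : α}
    (ha : a ∈ E \ cset W k₀ k₁ c) {w y : V} (hw : w ∈ W) (hj : G.Jn a w y) :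
    a = oc k₀ k₁ c w ∧ y = mc n₀ n₁ c w := by
  rw [Finset.mem_sdiff] at ha
  have h1 : a ∈ G.star E w := Gr.mem_star_iff_jn.2 ⟨ha.1, y, hj⟩
  rw [hd.star' c hw, Finset.mem_insert, Finset.mem_singleton] at h1
  rcases h1 with h1 | h1
  · exact absurd (mem_cset.2 ⟨w, hw, h1.symm⟩) ha.2
  · refine ⟨h1, ?_⟩
    exact (jn_unique (hd.ojn c hw) (hd.mcW c hw) (h1 ▸ hj) hw).2

/-- the ends of the uncontracted edges -/
private lemma Deg2.cases (hd : Deg2 G E W k₀ k₁ n₀ n₁) (c : V → Bool) {a : α}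
    (ha : a ∈ E \ cset W k₀ k₁ c) :
    (G.f a ∉ W ∧ G.g a ∉ W) ∨
    ∃ w ∈ W, a = oc k₀ k₁ c w ∧ ((G.f a = w ∧ G.g a = mc n₀ n₁ c w) ∨
      (G.g a = w ∧ G.f a = mc n₀ n₁ c w)) := by
  by_cases hf : G.f a ∈ W
  · obtain ⟨h1, h2⟩ := hd.eq_oc c ha hf (Gr.jn_self a)
    exact Or.inr ⟨G.f a, hf, h1, Or.inl ⟨rfl, h2⟩⟩
  · by_cases hg : G.g a ∈ W
    · obtain ⟨h1, h2⟩ := hd.eq_oc c ha hg (Gr.jn_self a).symm
      exact Or.inr ⟨G.g a, hg, h1, Or.inr ⟨rfl, h2⟩⟩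
    · exact Or.inl ⟨hf, hg⟩

private lemma Deg2.ret_ne (hd : Deg2 G E W k₀ k₁ n₀ n₁) (hon : G.On E) (c : V → Bool) {a : α}
    (ha : a ∈ E \ cset W k₀ k₁ c) : ret W n₀ n₁ c (G.f a) ≠ ret W n₀ n₁ c (G.g a) := by
  rcases hd.cases c ha with ⟨h1, h2⟩ | ⟨w, hw, -, ⟨h1, h2⟩ | ⟨h1, h2⟩⟩
  · rw [ret_of_notMem h1, ret_of_notMem h2]
    exact (hon a (Finset.mem_sdiff.1 ha).1).2.2
  · rw [h1, h2, ret_of_mem hw, ret_of_notMem (hd.mcW c hw)]
    exact hd.nmc c hw
  · rw [h1, h2, ret_of_mem hw, ret_of_notMem (hd.mcW c hw)]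
    exact (hd.nmc c hw).symm

private lemma Deg2.ret_mem (hd : Deg2 G E W k₀ k₁ n₀ n₁) (hon : G.On E) (c : V → Bool) {x : V}
    (hx : x ∈ G.U) : ret W n₀ n₁ c x ∈ G.U \ W := by
  rw [Finset.mem_sdiff]
  by_cases h : x ∈ W
  · rw [ret_of_mem h]
    exact ⟨hd.ncU hon c h, hd.ncW c h⟩
  · rw [ret_of_notMem h]
    exact ⟨hx, h⟩

private lemma Deg2.image_ret (hd : Deg2 G E W k₀ k₁ n₀ n₁) (hon : G.On E) (c : V → Bool) :
    G.U.image (ret W n₀ n₁ c) = G.U \ W := by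
  ext x
  rw [Finset.mem_image]
  constructor
  · rintro ⟨y, hy, rfl⟩
    exact hd.ret_mem hon c hy
  · intro hx
    exact ⟨x, (Finset.mem_sdiff.1 hx).1, ret_of_notMem (Finset.mem_sdiff.1 hx).2⟩

private lemma Deg2.ret_eq (hd : Deg2 G E W k₀ k₁ n₀ n₁) (c : V → Bool) {a : α}
    (ha : a ∈ cset W k₀ k₁ c) : ret W n₀ n₁ c (G.f a) = ret W n₀ n₁ c (G.g a) := by
  obtain ⟨w, hw, rfl⟩ := mem_cset.1 ha
  rcases hd.kjn c hw with ⟨h1, h2⟩ | ⟨h1, h2⟩
  · rw [h1, h2, ret_of_mem hw, ret_of_notMem (hd.ncW c hw)]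
  · rw [h1, h2, ret_of_mem hw, ret_of_notMem (hd.ncW c hw)]

private lemma Deg2.const (hd : Deg2 G E W k₀ k₁ n₀ n₁) (c : V → Bool) (φ : V → ZMod 2)
    (h : ∀ a ∈ cset W k₀ k₁ c, φ (G.f a) = φ (G.g a)) (x : V) :
    φ (ret W n₀ n₁ c x) = φ x := by
  by_cases hx : x ∈ W
  · rw [ret_of_mem hx]
    have h1 := h _ (mem_cset.2 ⟨x, hx, rfl⟩)
    rcases hd.kjn c hx with ⟨h2, h3⟩ | ⟨h2, h3⟩
    · rw [h2, h3] at h1
      exact h1.symm
    · rw [h2, h3] at h1
      exact h1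
  · rw [ret_of_notMem hx]

end helpers

/-- existence of the data: in a simple graph where the vertices of `W` have degree 2 and are
pairwise nonadjacent -/
lemma exists_deg2 {G : Gr α V} {E : Finset α} (hon : G.On E) (hs : G.Simple E) {W : Finset V}
    (hW : W ⊆ G.U) (hd : ∀ w ∈ W, (G.star E w).card = 2)
    (hn : ∀ w ∈ W, ∀ w' ∈ W, ¬ G.Adj E w w') [Nonempty α] :
    ∃ (k₀ k₁ : V → α) (n₀ n₁ : V → V), Deg2 G E W k₀ k₁ n₀ n₁ := by
  classical
  have key : ∀ w : V, ∃ (a b : α) (x y : V), w ∈ W → G.star E w = {a, b} ∧ a ≠ b ∧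
      G.Jn a w x ∧ G.Jn b w y ∧ x ≠ y ∧ x ∉ W ∧ y ∉ W := by
    intro w
    by_cases hw : w ∈ W
    · obtain ⟨a, b, hab, hst⟩ := Finset.card_eq_two.1 (hd w hw)
      have ha : a ∈ G.star E w := by
        rw [hst]
        exact Finset.mem_insert_self _ _
      have hb : b ∈ G.star E w := by
        rw [hst]
        exact Finset.mem_insert_of_mem (Finset.mem_singleton_self _)
      obtain ⟨haE, x, hx⟩ := Gr.mem_star_iff_jn.1 ha
      obtain ⟨hbE, y, hy⟩ := Gr.mem_star_iff_jn.1 hb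
      refine ⟨a, b, x, y, fun _ => ⟨hst, hab, hx, hy, ?_, ?_, ?_⟩⟩
      · intro hxy
        subst hxy
        exact hab (hs a haE b hbE _ _ hx hy)
      · exact fun h => hn w hw x h ⟨a, haE, hx⟩
      · exact fun h => hn w hw y h ⟨b, hbE, hy⟩
    · exact ⟨Classical.arbitrary α, Classical.arbitrary α, w, w, fun h => absurd h hw⟩
  choose k₀ k₁ n₀ n₁ h using key
  exact ⟨k₀, k₁, n₀, n₁, hW, fun w hw => (h w hw).1, fun w hw => (h w hw).2.1,
    fun w hw => (h w hw).2.2.1, fun w hw => (h w hw).2.2.2.1, fun w hw => (h w hw).2.2.2.2.1,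
    fun w hw => (h w hw).2.2.2.2.2.1, fun w hw => (h w hw).2.2.2.2.2.2⟩

/-- the contracted graph -/
lemma Deg2.gRep_con {M : BM α} {e : α} {G : Gr α V} {T : Finset V} (h : GRep M e G T)
    {W : Finset V} {k₀ k₁ : V → α} {n₀ n₁ : V → V} (hd : Deg2 G (M.E \ {e}) W k₀ k₁ n₀ n₁)
    (c : V → Bool) :
    GRep (M.con (cset W k₀ k₁ c)) e
      ⟨G.U \ W, fun a => ret W n₀ n₁ c (G.f a), fun a => ret W n₀ n₁ c (G.g a)⟩
      (retT G.U W n₀ n₁ c T) := by
  have hr := h.conQ (F := cset W k₀ k₁ c) ?_ (ret W n₀ n₁ c) ?_ ?_ ?_ ?_ ?_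
  · rw [hd.image_ret h.on c] at hr
    exact hr
  · intro he
    obtain ⟨w, hw, hk⟩ := mem_cset.1 he
    have h1 := hd.kc_mem c hw
    rw [hk, Finset.mem_sdiff] at h1
    exact h1.2 (Finset.mem_singleton_self _)
  · exact fun x hx => (Finset.mem_sdiff.1 (hd.ret_mem h.on c hx)).1
  · exact fun x hx => ret_of_notMem (Finset.mem_sdiff.1 (hd.ret_mem h.on c hx)).2
  · exact fun a ha _ => hd.ret_eq c ha
  · intro φ hφ x _
    refine hd.const c φ (fun a ha => hφ a ha ?_) x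
    obtain ⟨w, hw, hk⟩ := mem_cset.1 ha
    have h1 := hd.kc_mem c hw
    rw [hk, Finset.mem_sdiff] at h1
    exact h1.1
  · exact fun a ha => hd.ret_ne h.on c ha

lemma Deg2.rp_con {N : BM α} {G : Gr α V} (h : Rp N G)
    {W : Finset V} {k₀ k₁ : V → α} {n₀ n₁ : V → V} (hd : Deg2 G N.E W k₀ k₁ n₀ n₁)
    (c : V → Bool) :
    Rp (N.con (cset W k₀ k₁ c))
      ⟨G.U \ W, fun a => ret W n₀ n₁ c (G.f a), fun a => ret W n₀ n₁ c (G.g a)⟩ := by
  have hr := h.conQ (F := cset W k₀ k₁ c) (ret W n₀ n₁ c) ?_ ?_ ?_ ?_ ?_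
  · rw [hd.image_ret h.on c] at hr
    exact hr
  · exact fun x hx => (Finset.mem_sdiff.1 (hd.ret_mem h.on c hx)).1
  · exact fun x hx => ret_of_notMem (Finset.mem_sdiff.1 (hd.ret_mem h.on c hx)).2
  · exact fun a ha _ => hd.ret_eq c ha
  · intro φ hφ x _
    refine hd.const c φ (fun a ha => hφ a ha ?_) x
    obtain ⟨w, hw, hk⟩ := mem_cset.1 ha
    exact hk ▸ hd.kc_mem c hw
  · exact fun a ha => hd.ret_ne h.on c ha

lemma Deg2.vc_con {G : Gr α V} {E : Finset α} (hon : G.On E) {W : Finset V} {k₀ k₁ : V → α}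
    {n₀ n₁ : V → V} (hd : Deg2 G E W k₀ k₁ n₀ n₁) (hvc : G.VC E W) (c : V → Bool) :
    Gr.VC ⟨G.U \ W, fun a => ret W n₀ n₁ c (G.f a), fun a => ret W n₀ n₁ c (G.g a)⟩
      (E \ cset W k₀ k₁ c) ∅ := by
  intro P Q hPQ hcard hside
  replace hPQ : P ∪ Q = G.U \ W := hPQ
  replace hside : ∀ a ∈ E \ cset W k₀ k₁ c,
    (ret W n₀ n₁ c (G.f a) ∈ P ∧ ret W n₀ n₁ c (G.g a) ∈ P) ∨
      (ret W n₀ n₁ c (G.f a) ∈ Q ∧ ret W n₀ n₁ c (G.g a) ∈ Q) := hside
  have hPW : ∀ x ∈ P, x ∈ G.U ∧ x ∉ W := fun x hx =>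
    Finset.mem_sdiff.1 (hPQ ▸ Finset.mem_union_left _ hx)
  have hQW : ∀ x ∈ Q, x ∈ G.U ∧ x ∉ W := fun x hx =>
    Finset.mem_sdiff.1 (hPQ ▸ Finset.mem_union_right _ hx)
  have hW2 : ∀ w ∈ W, ¬ (nc n₀ n₁ c w ∈ P ∧ mc n₀ n₁ c w ∈ P) →
      nc n₀ n₁ c w ∈ Q ∧ mc n₀ n₁ c w ∈ Q := by
    intro w hw hno
    have ho : oc k₀ k₁ c w ∈ E \ cset W k₀ k₁ c :=
      Finset.mem_sdiff.2 ⟨hd.oc_mem c hw, hd.oc_notMem c hw⟩
    rcases hd.ojn c hw with ⟨h1, h2⟩ | ⟨h1, h2⟩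
    · have h3 := hside _ ho
      rw [h1, h2, ret_of_mem hw, ret_of_notMem (hd.mcW c hw)] at h3
      exact h3.resolve_left hno
    · have h3 := hside _ ho
      rw [h1, h2, ret_of_mem hw, ret_of_notMem (hd.mcW c hw)] at h3
      rcases h3 with h3 | h3
      · exact absurd ⟨h3.2, h3.1⟩ hno
      · exact ⟨h3.2, h3.1⟩
  set WP : Finset V := W.filter fun w => nc n₀ n₁ c w ∈ P ∧ mc n₀ n₁ c w ∈ P with hWP
  have memWP : ∀ w, w ∈ WP ↔ w ∈ W ∧ (nc n₀ n₁ c w ∈ P ∧ mc n₀ n₁ c w ∈ P) := fun w =>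
    Finset.mem_filter
  have key := hvc (P ∪ WP) (Q ∪ (W \ WP)) ?_ ?_ ?_
  · have hsub : ∀ x, x ∈ P \ Q → x ∈ (P ∪ WP) \ (Q ∪ (W \ WP)) := by
      intro x hx
      rw [Finset.mem_sdiff] at hx
      rw [Finset.mem_sdiff, Finset.mem_union, Finset.mem_union, Finset.mem_sdiff]
      refine ⟨Or.inl hx.1, ?_⟩
      rintro (h | h)
      · exact hx.2 h
      · exact (hPW x hx.1).2 h.1
    have hsub' : ∀ x, x ∈ Q \ P → x ∈ (Q ∪ (W \ WP)) \ (P ∪ WP) := by
      intro x hx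
      rw [Finset.mem_sdiff] at hx
      rw [Finset.mem_sdiff, Finset.mem_union, Finset.mem_union]
      refine ⟨Or.inl hx.1, ?_⟩
      rintro (h | h)
      · exact hx.2 h
      · exact (hQW x hx.1).2 ((memWP x).1 h).1
    rcases key with key | key
    · left
      intro x hx
      exact absurd (key (hsub x hx)) (hPW x (Finset.mem_sdiff.1 hx).1).2
    · right
      intro x hx
      exact absurd (key (hsub' x hx)) (hQW x (Finset.mem_sdiff.1 hx).1).2
  · ext x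
    constructor
    · intro hx
      rw [Finset.mem_union, Finset.mem_union, Finset.mem_union, Finset.mem_sdiff] at hx
      rcases hx with (hx | hx) | (hx | hx)
      · exact (hPW x hx).1
      · exact hd.WU ((memWP x).1 hx).1
      · exact (hQW x hx).1
      · exact hd.WU hx.1
    · intro hx
      rw [Finset.mem_union, Finset.mem_union, Finset.mem_union, Finset.mem_sdiff]
      by_cases hxW : x ∈ W
      · by_cases hxP : x ∈ WP
        · exact Or.inl (Or.inr hxP)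
        · exact Or.inr (Or.inr ⟨hxW, hxP⟩)
      · have h1 : x ∈ P ∪ Q := hPQ ▸ Finset.mem_sdiff.2 ⟨hx, hxW⟩
        rcases Finset.mem_union.1 h1 with h1 | h1
        · exact Or.inl (Or.inl h1)
        · exact Or.inr (Or.inl h1)
  · refine le_trans (Finset.card_le_card fun x hx => ?_) hcard
    rw [Finset.mem_inter, Finset.mem_union, Finset.mem_union, Finset.mem_sdiff] at hx
    rw [Finset.mem_inter]
    rcases hx with ⟨h1 | h1, h2 | h2⟩
    · exact ⟨h1, h2⟩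
    · exact absurd h2.1 (hPW x h1).2
    · exact absurd ((memWP x).1 h1).1 (hQW x h2).2
    · exact absurd h1 h2.2
  · have hend : ∀ w ∈ W, ∀ y, (y = nc n₀ n₁ c w ∨ y = mc n₀ n₁ c w) →
        (w ∈ P ∪ WP ∧ y ∈ P ∪ WP) ∨ (w ∈ Q ∪ (W \ WP) ∧ y ∈ Q ∪ (W \ WP)) := by
      intro w hw y hy
      by_cases hwP : nc n₀ n₁ c w ∈ P ∧ mc n₀ n₁ c w ∈ P
      · left
        refine ⟨Finset.mem_union_right _ ((memWP w).2 ⟨hw, hwP⟩), Finset.mem_union_left _ ?_⟩
        rcases hy with rfl | rfl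
        · exact hwP.1
        · exact hwP.2
      · right
        have h1 := hW2 w hw hwP
        refine ⟨Finset.mem_union_right _ (Finset.mem_sdiff.2 ⟨hw, fun h => hwP
          ((memWP w).1 h).2⟩), Finset.mem_union_left _ ?_⟩
        rcases hy with rfl | rfl
        · exact h1.1
        · exact h1.2
    intro a ha
    by_cases haF : a ∈ cset W k₀ k₁ c
    · obtain ⟨w, hw, rfl⟩ := mem_cset.1 haF
      rcases hd.kjn c hw with ⟨h1, h2⟩ | ⟨h1, h2⟩
      · rw [h1, h2]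
        exact hend w hw _ (Or.inl rfl)
      · rw [h1, h2]
        rcases hend w hw _ (Or.inl rfl) with h3 | h3
        · exact Or.inl h3.symm
        · exact Or.inr h3.symm
    · have haE : a ∈ E \ cset W k₀ k₁ c := Finset.mem_sdiff.2 ⟨ha, haF⟩
      rcases hd.cases c haE with ⟨h1, h2⟩ | ⟨w, hw, -, ⟨h1, h2⟩ | ⟨h1, h2⟩⟩
      · have h3 := hside a haE
        rw [ret_of_notMem h1, ret_of_notMem h2] at h3
        rcases h3 with h3 | h3
        · exact Or.inl ⟨Finset.mem_union_left _ h3.1, Finset.mem_union_left _ h3.2⟩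
        · exact Or.inr ⟨Finset.mem_union_left _ h3.1, Finset.mem_union_left _ h3.2⟩
      · rw [h1, h2]
        exact hend w hw _ (Or.inr rfl)
      · rw [h1, h2]
        rcases hend w hw _ (Or.inr rfl) with h3 | h3
        · exact Or.inl h3.symm
        · exact Or.inr h3.symm

lemma Deg2.star_con {G : Gr α V} {E : Finset α} (hon : G.On E) {W : Finset V} {k₀ k₁ : V → α}
    {n₀ n₁ : V → V} (hd : Deg2 G E W k₀ k₁ n₀ n₁) (c : V → Bool) {x : V} (hx : x ∈ G.U \ W) :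
    (Gr.star ⟨G.U \ W, fun a => ret W n₀ n₁ c (G.f a), fun a => ret W n₀ n₁ c (G.g a)⟩
      (E \ cset W k₀ k₁ c) x).card = (G.star E x).card := by
  have _ := hon
  rw [Finset.mem_sdiff] at hx
  set Wx : Finset V := W.filter fun w => nc n₀ n₁ c w = x with hWx
  have memWx : ∀ w, w ∈ Wx ↔ w ∈ W ∧ nc n₀ n₁ c w = x := fun w => Finset.mem_filter
  have e1 : Gr.star ⟨G.U \ W, fun a => ret W n₀ n₁ c (G.f a), fun a => ret W n₀ n₁ c (G.g a)⟩
      (E \ cset W k₀ k₁ c) x =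
      (G.star E x \ cset W k₀ k₁ c) ∪ Wx.image (oc k₀ k₁ c) := by
    ext a
    rw [Gr.mem_star, Finset.mem_union, Finset.mem_sdiff (s := G.star E x), Gr.mem_star,
      Finset.mem_image]
    show (a ∈ E \ cset W k₀ k₁ c ∧ (ret W n₀ n₁ c (G.f a) = x ∨ ret W n₀ n₁ c (G.g a) = x)) ↔ _
    constructor
    · rintro ⟨ha, hax⟩
      have ha' := Finset.mem_sdiff.1 ha
      rcases hd.cases c ha with ⟨h1, h2⟩ | ⟨w, hw, h0, ⟨h1, h2⟩ | ⟨h1, h2⟩⟩
      · rw [ret_of_notMem h1, ret_of_notMem h2] at hax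
        exact Or.inl ⟨⟨ha'.1, hax⟩, ha'.2⟩
      · rw [h1, h2, ret_of_mem hw, ret_of_notMem (hd.mcW c hw)] at hax
        rcases hax with hax | hax
        · exact Or.inr ⟨w, (memWx w).2 ⟨hw, hax⟩, h0.symm⟩
        · exact Or.inl ⟨⟨ha'.1, Or.inr (h2.trans hax)⟩, ha'.2⟩
      · rw [h1, h2, ret_of_mem hw, ret_of_notMem (hd.mcW c hw)] at hax
        rcases hax with hax | hax
        · exact Or.inl ⟨⟨ha'.1, Or.inl (h2.trans hax)⟩, ha'.2⟩
        · exact Or.inr ⟨w, (memWx w).2 ⟨hw, hax⟩, h0.symm⟩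
    · rintro (⟨⟨haE, hax⟩, haF⟩ | ⟨w, hw, rfl⟩)
      · refine ⟨Finset.mem_sdiff.2 ⟨haE, haF⟩, ?_⟩
        rcases hax with hax | hax
        · left
          rw [hax]
          exact ret_of_notMem hx.2
        · right
          rw [hax]
          exact ret_of_notMem hx.2
      · rw [memWx] at hw
        refine ⟨Finset.mem_sdiff.2 ⟨hd.oc_mem c hw.1, hd.oc_notMem c hw.1⟩, ?_⟩
        rcases hd.ojn c hw.1 with ⟨h1, h2⟩ | ⟨h1, h2⟩
        · left
          rw [h1, ret_of_mem hw.1]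
          exact hw.2
        · right
          rw [h2, ret_of_mem hw.1]
          exact hw.2
  have e2 : G.star E x = (G.star E x \ cset W k₀ k₁ c) ∪ Wx.image (kc k₀ k₁ c) := by
    ext a
    rw [Finset.mem_union, Finset.mem_sdiff, Finset.mem_image]
    constructor
    · intro ha
      by_cases haF : a ∈ cset W k₀ k₁ c
      · right
        obtain ⟨w, hw, rfl⟩ := mem_cset.1 haF
        refine ⟨w, (memWx w).2 ⟨hw, ?_⟩, rfl⟩
        obtain ⟨-, y, hy⟩ := Gr.mem_star_iff_jn.1 ha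
        rcases (hd.kjn c hw).ends hy with ⟨h1, -⟩ | ⟨-, h2⟩
        · exact absurd (h1 ▸ hw) hx.2
        · exact h2
      · exact Or.inl ⟨ha, haF⟩
    · rintro (ha | ⟨w, hw, rfl⟩)
      · exact ha.1
      · rw [memWx] at hw
        refine Gr.mem_star_iff_jn.2 ⟨hd.kc_mem c hw.1, w, ?_⟩
        rw [← hw.2]
        exact (hd.kjn c hw.1).symm
  have d1 : Disjoint (G.star E x \ cset W k₀ k₁ c) (Wx.image (oc k₀ k₁ c)) := by
    rw [Finset.disjoint_left]
    intro a ha hb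
    obtain ⟨w, hw, rfl⟩ := Finset.mem_image.1 hb
    rw [memWx] at hw
    obtain ⟨-, y, hy⟩ := Gr.mem_star_iff_jn.1 (Finset.mem_sdiff.1 ha).1
    rcases (hd.ojn c hw.1).ends hy with ⟨h1, -⟩ | ⟨-, h2⟩
    · exact hx.2 (h1 ▸ hw.1)
    · exact hd.nmc c hw.1 (hw.2.trans h2.symm)
  have d2 : Disjoint (G.star E x \ cset W k₀ k₁ c) (Wx.image (kc k₀ k₁ c)) := by
    rw [Finset.disjoint_left]
    intro a ha hb
    obtain ⟨w, hw, rfl⟩ := Finset.mem_image.1 hb
    rw [memWx] at hw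
    exact (Finset.mem_sdiff.1 ha).2 (mem_cset.2 ⟨w, hw.1, rfl⟩)
  rw [e1, Finset.card_union_of_disjoint d1]
  conv_rhs => rw [e2]
  rw [Finset.card_union_of_disjoint d2,
    Finset.card_image_of_injOn (s := Wx) (f := oc k₀ k₁ c),
    Finset.card_image_of_injOn (s := Wx) (f := kc k₀ k₁ c)]
  · intro w hw w' hw' h
    exact hd.kc_inj c ((memWx w).1 (Finset.mem_coe.1 hw)).1 ((memWx w').1 (Finset.mem_coe.1 hw')).1 h
  · intro w hw w' hw' h
    exact hd.oc_inj c ((memWx w).1 (Finset.mem_coe.1 hw)).1 ((memWx w').1 (Finset.mem_coe.1 hw')).1 h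

/-- the coset condition -/
theorem coset {M : BM α} {e : α} {G : Gr α V} {T : Finset V} (h : GRep M e G T)
    {W : Finset V} {k₀ k₁ : V → α} {n₀ n₁ : V → V} (hd : Deg2 G (M.E \ {e}) W k₀ k₁ n₀ n₁)
    (hvc : G.VC (M.E \ {e}) W) (hne : ∀ x ∈ G.U \ W, (G.star (M.E \ {e}) x).Nonempty)
    (c : V → Bool) (hg : Graphic (M.con (cset W k₀ k₁ c))) :
    (retT G.U W n₀ n₁ c T).card ≤ 2 := by
  have hE : (M.con (cset W k₀ k₁ c)).E \ {e} = (M.E \ {e}) \ cset W k₀ k₁ c := by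
    rw [LM.con_E]
    ext a
    simp only [Finset.mem_sdiff]
    tauto
  refine U3 (hd.gRep_con h c) ?_ ?_ hg
  · rw [hE]
    exact hd.vc_con h.on hvc c
  · intro x hx
    rw [hE]
    have h1 := hd.star_con h.on c (x := x) hx
    rw [← Finset.card_pos, h1]
    exact Finset.card_pos.2 (hne x hx)

/-- a series extension does not change cographicness (dually: adding an element parallel to an
existing one, `Pool.Agent.H87.Sey.graphic_of_parallel`) -/
lemma cographic_of_con_series {N : BM α} {a b : α} (hab : a ≠ b) (hb : b ∈ N.E)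
    (hs : ind {a, b} ∈ N.D) (h : Cographic (N.con {a})) : Cographic N := by
  have ha : a ∈ N.E := by
    by_contra ha
    have h1 := N.supp _ hs a ha
    rw [ind_apply, if_pos (Finset.mem_insert_self _ _)] at h1
    exact one_ne_zero h1
  unfold Cographic at h ⊢
  rw [LM.dual_con] at h
  refine Pool.Agent.H87.Sey.graphic_of_parallel hab (b := b) hb (fun y hy => ?_) h
  have h1 := ((LM.mem_dual N).1 hy).2 _ hs
  have hsub : ({a, b} : Finset α) ⊆ N.E := by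
    intro c hc
    rw [Finset.mem_insert, Finset.mem_singleton] at hc
    rcases hc with rfl | rfl
    · exact ha
    · exact hb
  have h2 : ∑ c ∈ N.E, ind {a, b} c * y c = ∑ c ∈ ({a, b} : Finset α), y c := by
    simp only [ind_apply, ite_mul, one_mul, zero_mul]
    rw [← Finset.sum_filter]
    congr 1
    ext c
    rw [Finset.mem_filter]
    exact ⟨fun h' => h'.2, fun h' => ⟨hsub h', h'⟩⟩
  rw [h2, Finset.sum_pair hab] at h1
  exact CharTwo.add_eq_zero.1 h1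

lemma Deg2.cographic_of_con {N : BM α} {G : Gr α V} (h : Rp N G)
    {W : Finset V} {k₀ k₁ : V → α} {n₀ n₁ : V → V} (hd : Deg2 G N.E W k₀ k₁ n₀ n₁)
    (c : V → Bool) (hc : Cographic (N.con (cset W k₀ k₁ c))) : Cographic N := by
  have key : ∀ S : Finset V, S ⊆ W → Cographic (N.con (cset S k₀ k₁ c)) → Cographic N := by
    intro S
    induction S using Finset.induction_on with
    | empty =>
      intro _ hS
      have h1 : cset (∅ : Finset V) k₀ k₁ c = ∅ := rfl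
      rw [h1, LM.con_empty] at hS
      exact hS
    | insert w S hwS ih =>
      intro hS hcS
      have hw : w ∈ W := hS (Finset.mem_insert_self _ _)
      have hSW : S ⊆ W := fun x hx => hS (Finset.mem_insert_of_mem hx)
      apply ih hSW
      have h1 : cset (insert w S) k₀ k₁ c = cset S k₀ k₁ c ∪ {kc k₀ k₁ c w} := by
        unfold cset
        rw [Finset.image_insert, Finset.union_comm, Finset.insert_eq]
        rfl
      rw [h1, ← LM.con_con] at hcS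
      have hmono : ∀ a, a ∈ cset S k₀ k₁ c → a ∈ cset W k₀ k₁ c := fun a ha => by
        obtain ⟨w', hw', hk⟩ := mem_cset.1 ha
        exact mem_cset.2 ⟨w', hSW hw', hk⟩
      refine cographic_of_con_series (hd.koc c hw) ?_ ?_ hcS
      · rw [LM.con_E, Finset.mem_sdiff]
        exact ⟨hd.oc_mem c hw, fun ho => hd.oc_notMem c hw (hmono _ ho)⟩
      · rw [LM.mem_con]
        constructor
        · rw [← hd.star' c hw]
          exact h.star_mem w
        · intro a ha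
          rw [ind_apply, if_neg]
          intro ha'
          rw [Finset.mem_insert, Finset.mem_singleton] at ha'
          obtain ⟨w', hw', hk⟩ := mem_cset.1 ha
          rcases ha' with h2 | h2
          · have h3 := hd.kc_inj c (hSW hw') hw (hk.trans h2)
            exact hwS (h3 ▸ hw')
          · exact hd.oc_notMem c hw (h2 ▸ hmono _ ha)
  exact key W (Finset.Subset.refl _) hc

end Pool.Agent.H53.Sey
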