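import Pool.Agent.H53.Sey.PatA

/-!
# Graph toolkit F2: patterns at an edge of a graft, existence (job SEYG-F2)

Standing assumption `G3 M e G T` (3-connected simple graph, `e` = `T`-join element), `|T| ≥ 4`.

`pat_con`: `f` joins `x` and `y`. `GRep.conQ` with `π y = x`, `π z = z` otherwise: `M.con {f}` is the
graft with graph `G/f` on `U \ {y}`; no loops since `G` is simple; its set `T'` is `T` if `x, y ∉ T`,
`T ∆ {x, y}` otherwise. All vertices have degree `≥ 3` in `G/f` (the new one `deg x + deg y - 2`), so
`vc_of_good` and `U3` give `|T'| ≤ 2`. So `x, y ∈ T` and `|T| = 4`.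

`pat_del`: `f` joins `w` and `p`. Let `W` be the set of those of `w, p` that have degree 3 in `G`.
In `M.del {f}` (graft `G \ f`, same `T`, `GRep.del`) they have degree 2, all other vertices have
degree `≥ 3`; they are nonadjacent in `G \ f` (simple graph), `exists_deg2`; `vc_of_good` gives
`VC _ W` and `coset` gives `|T_c| ≤ 2` for all choices `c`, where `T_c = (T \ W) ∆ ∆_{w ∈ W ∩ T} {c w}`
(a contracted vertex outside `T` has no influence). `W ∩ T = ∅` contradicts `|T| ≥ 4`. If `W ∩ T =
{w}` then `finset_coset_one` gives `C1`. If `W ∩ T = {w, p}`, `N(w) = {p, u, v}`, `N(p) = {w, s,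
t}`: if `{u, v} = {s, t}` then `VC` (`{u, v}` separates `{w, p}`) gives `U = {w, p, u, v} = T`,
which is `C1` with `q = p`; otherwise `finset_coset_two`: `T \ {w, p}` is `{u, v}` (`C1` with
`q = p`), `{s, t}` (`C1` at `p` with `q = w`) or `{u, v} ∆ {s, t}` (`C2`).
-/

set_option autoImplicit false

namespace Pool.Agent.H53.Sey

open Pool.Agent.H63.Sey
open scoped symmDiff

universe u v w

variable {α : Type u} [DecidableEq α] {V : Type v} [DecidableEq V]

variable {M : BM α} {e : α} {G : Gr α V} {T : Finset V}

theorem pat_con (h : G3 M e G T) {f : α} (hf : f ∈ M.E \ {e}) {x y : V} (hj : G.Jn f x y)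
    (hgood : Good ((M.del {e}).con {f})) (hg : Graphic (M.con {f})) (hT : 4 ≤ T.card) :
    T.card = 4 ∧ x ∈ T ∧ y ∈ T := by
  have hon := h.rep.on
  obtain ⟨hxU, hyU, hxy⟩ := hon.jn_mem hf hj
  have hfe : f ≠ e := by
    have := (Finset.mem_sdiff.1 hf).2
    simpa using this
  let π : V → V := fun z => if z = y then x else z
  have hπy : π y = x := if_pos rfl
  have hπ : ∀ {z : V}, z ≠ y → π z = z := fun hz => if_neg hz
  have hrep : GRep (M.con {f}) e ⟨G.U.image π, fun a => π (G.f a), fun a => π (G.g a)⟩
      ((G.U.image π).filter fun x => Odd (T.filter fun t => π t = x).card) := by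
    refine h.rep.conQ (F := {f}) (by simpa using hfe.symm) π ?_ ?_ ?_ ?_ ?_
    · intro z hz
      by_cases h1 : z = y
      · rw [h1, hπy]
        exact hxU
      · rw [hπ h1]
        exact hz
    · intro z _
      by_cases h1 : z = y
      · rw [h1, hπy, hπ hxy]
      · rw [hπ h1, hπ h1]
    · intro z hz _
      rw [Finset.mem_singleton] at hz
      subst hz
      rcases hj with ⟨h1, h2⟩ | ⟨h1, h2⟩
      · rw [h1, h2, hπy, hπ hxy]
      · rw [h1, h2, hπy, hπ hxy]
    · intro φ hφ z _
      by_cases h1 : z = y
      · have h2 := hφ f (Finset.mem_singleton_self f) (Finset.mem_sdiff.1 hf).1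
        rw [h1, hπy]
        rcases hj with ⟨h3, h4⟩ | ⟨h3, h4⟩
        · rw [h3, h4] at h2
          exact h2
        · rw [h3, h4] at h2
          exact h2.symm
      · rw [hπ h1]
    · intro z hz h1
      rw [Finset.mem_sdiff, Finset.mem_singleton] at hz
      obtain ⟨-, -, h2⟩ := hon z hz.1
      by_cases h3 : G.f z = y
      · rw [h3, hπy] at h1
        have h4 : G.g z ≠ y := fun h4 => h2 (h3.trans h4.symm)
        rw [hπ h4] at h1
        exact hz.2 (patA_par h hz.1 hf (Or.inr ⟨h3, h1.symm⟩) hj)
      · rw [hπ h3] at h1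
        by_cases h4 : G.g z = y
        · rw [h4, hπy] at h1
          exact hz.2 (patA_par h hz.1 hf (Or.inl ⟨h1, h4⟩) hj)
        · rw [hπ h4] at h1
          exact h2 h1
  have hUim : ∀ z, z ∈ G.U.image π ↔ z ∈ G.U ∧ z ≠ y := by
    intro z
    rw [Finset.mem_image]
    constructor
    · rintro ⟨z', hz', rfl⟩
      by_cases h1 : z' = y
      · rw [h1, hπy]
        exact ⟨hxU, hxy⟩
      · rw [hπ h1]
        exact ⟨hz', h1⟩
    · rintro ⟨h1, h2⟩
      exact ⟨z, h1, hπ h2⟩
  have hrp : Rp ((M.del {e}).con {f})
      ⟨G.U.image π, fun a => π (G.f a), fun a => π (G.g a)⟩ := by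
    have h1 := hrep.del_rp
    have hdisj : Disjoint ({f} : Finset α) {e} := by
      rw [Finset.disjoint_singleton]
      exact hfe
    rwa [LM.con_del M hdisj] at h1
  have hEE : ((M.del {e}).con {f}).E = (M.E \ {e}) \ {f} := rfl
  have hEE' : (M.con {f}).E \ {e} = (M.E \ {e}) \ {f} := patA_sdiff _ _ _
  -- degrees
  have hsub : ∀ z, z ≠ y → G.star (M.E \ {e}) z \ {f} ⊆
      Gr.star ⟨G.U.image π, fun a => π (G.f a), fun a => π (G.g a)⟩ ((M.E \ {e}) \ {f}) z := by
    intro z hz k hk
    rw [Finset.mem_sdiff, Gr.mem_star] at hk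
    refine Gr.mem_star.2 ⟨Finset.mem_sdiff.2 ⟨hk.1.1, hk.2⟩, ?_⟩
    show π (G.f k) = z ∨ π (G.g k) = z
    rcases hk.1.2 with h2 | h2
    · left
      rw [h2, hπ hz]
    · right
      rw [h2, hπ hz]
  have hdeg : ∀ z ∈ G.U.image π, 3 ≤
      (Gr.star ⟨G.U.image π, fun a => π (G.f a), fun a => π (G.g a)⟩
        ((M.E \ {e}) \ {f}) z).card := by
    intro z hz
    obtain ⟨hzU, hzy⟩ := (hUim z).1 hz
    by_cases hzx : z = x
    · subst hzx
      have hsub2 : G.star (M.E \ {e}) y \ {f} ⊆
          Gr.star ⟨G.U.image π, fun a => π (G.f a), fun a => π (G.g a)⟩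
            ((M.E \ {e}) \ {f}) z := by
        intro k hk
        rw [Finset.mem_sdiff, Gr.mem_star] at hk
        refine Gr.mem_star.2 ⟨Finset.mem_sdiff.2 ⟨hk.1.1, hk.2⟩, ?_⟩
        show π (G.f k) = z ∨ π (G.g k) = z
        rcases hk.1.2 with h2 | h2
        · left
          rw [h2, hπy]
        · right
          rw [h2, hπy]
      have hdisj : Disjoint (G.star (M.E \ {e}) z \ {f}) (G.star (M.E \ {e}) y \ {f}) := by
        rw [Finset.disjoint_left]
        intro k hk hk'
        rw [Finset.mem_sdiff, Finset.mem_singleton, Gr.mem_star] at hk hk'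
        apply hk.2
        apply patA_par h hk.1.1 hf (x := z) (y := y) ?_ hj
        rcases hk.1.2 with h2 | h2
        · rcases hk'.1.2 with h3 | h3
          · exact absurd (h2.symm.trans h3) hxy
          · exact Or.inl ⟨h2, h3⟩
        · rcases hk'.1.2 with h3 | h3
          · exact Or.inr ⟨h3, h2⟩
          · exact absurd (h2.symm.trans h3) hxy
      have h1 := Finset.card_le_card (Finset.union_subset (hsub z hzy) hsub2)
      rw [Finset.card_union_of_disjoint hdisj] at h1
      have h2 := h.deg z hzU
      have h3 := h.deg y hyU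
      have h4 : ∀ A : Finset α, A.card ≤ (A \ {f}).card + 1 := by
        intro A
        have := Finset.le_card_sdiff ({f} : Finset α) A
        rw [Finset.card_singleton] at this
        omega
      have h5 := h4 (G.star (M.E \ {e}) z)
      have h6 := h4 (G.star (M.E \ {e}) y)
      omega
    · have h1 := Finset.card_le_card (hsub z hzy)
      have h2 : G.star (M.E \ {e}) z \ {f} = G.star (M.E \ {e}) z := by
        rw [Finset.sdiff_singleton_eq_erase, Finset.erase_eq_of_notMem]
        rw [Gr.mem_star]
        rintro ⟨-, h3⟩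
        rcases hj with ⟨h4, h5⟩ | ⟨h4, h5⟩
        · rw [h4, h5] at h3
          rcases h3 with h3 | h3
          · exact hzx h3.symm
          · exact hzy h3.symm
        · rw [h4, h5] at h3
          rcases h3 with h3 | h3
          · exact hzy h3.symm
          · exact hzx h3.symm
      rw [h2] at h1
      exact (h.deg z hzU).trans h1
  have hvc := vc_of_good hrp hgood ∅ (by
    intro z hz _
    rw [hEE]
    exact hdeg z hz)
  rw [hEE] at hvc
  have hcard := U3 hrep (by rw [hEE']; exact hvc) (by
    intro z hz
    rw [hEE']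
    have := hdeg z hz
    exact Finset.card_pos.1 (by omega)) hg
  -- the set T'
  set T' : Finset V := (G.U.image π).filter fun x => Odd (T.filter fun t => π t = x).card with hT'
  have hsubT : T \ {x, y} ⊆ T' := by
    intro z hz
    rw [Finset.mem_sdiff] at hz
    simp only [Finset.mem_insert, Finset.mem_singleton, not_or] at hz
    obtain ⟨hzT, hzx, hzy⟩ := hz
    rw [hT', Finset.mem_filter]
    refine ⟨(hUim z).2 ⟨h.rep.TU hzT, hzy⟩, ?_⟩
    have h1 : (T.filter fun t => π t = z) = {z} := by
      ext t
      rw [Finset.mem_filter, Finset.mem_singleton]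
      constructor
      · rintro ⟨h2, h3⟩
        by_cases h4 : t = y
        · rw [h4, hπy] at h3
          exact absurd h3.symm hzx
        · rwa [hπ h4] at h3
      · rintro rfl
        exact ⟨hzT, hπ hzy⟩
    rw [h1, Finset.card_singleton]
    exact odd_one
  have hxT' : ¬ (x ∈ T ↔ y ∈ T) → x ∈ T' := by
    intro hne
    rw [hT', Finset.mem_filter]
    refine ⟨(hUim x).2 ⟨hxU, hxy⟩, ?_⟩
    have h1 : (T.filter fun t => π t = x).card = 1 := by
      rw [Finset.card_eq_one]
      by_cases h2 : x ∈ T
      · have h3 : y ∉ T := fun h3 => hne ⟨fun _ => h3, fun _ => h2⟩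
        refine ⟨x, ?_⟩
        ext t
        rw [Finset.mem_filter, Finset.mem_singleton]
        constructor
        · rintro ⟨h4, h5⟩
          have h6 : t ≠ y := fun h6 => h3 (h6 ▸ h4)
          rwa [hπ h6] at h5
        · rintro rfl
          exact ⟨h2, hπ hxy⟩
      · have h3 : y ∈ T := by
          by_contra h3
          exact hne ⟨fun h4 => absurd h4 h2, fun h4 => absurd h4 h3⟩
        refine ⟨y, ?_⟩
        ext t
        rw [Finset.mem_filter, Finset.mem_singleton]
        constructor
        · rintro ⟨h4, h5⟩
          by_contra h6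
          rw [hπ h6] at h5
          exact h2 (h5 ▸ h4)
        · rintro rfl
          exact ⟨h3, hπy⟩
    rw [h1]
    exact odd_one
  have hc1 := Finset.card_le_card hsubT
  have hc2 : T.card ≤ (T \ {x, y}).card + (T ∩ {x, y}).card := by
    rw [Finset.card_sdiff_add_card_inter]
  by_cases hx : x ∈ T
  · by_cases hy : y ∈ T
    · refine ⟨?_, hx, hy⟩
      have h1 : (T ∩ {x, y}).card ≤ 2 :=
        (Finset.card_le_card Finset.inter_subset_right).trans Finset.card_le_two
      omega
    · exfalso
      have h1 : insert x (T \ {x, y}) ⊆ T' :=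
        Finset.insert_subset (hxT' fun h2 => hy (h2.1 hx)) hsubT
      have h2 := Finset.card_le_card h1
      rw [Finset.card_insert_of_notMem (by simp)] at h2
      have h3 : (T ∩ {x, y}).card ≤ 1 := by
        rw [Finset.card_le_one]
        intro a ha b hb
        simp only [Finset.mem_inter, Finset.mem_insert, Finset.mem_singleton] at ha hb
        have ha' : a = x := ha.2.resolve_right fun h4 => hy (h4 ▸ ha.1)
        have hb' : b = x := hb.2.resolve_right fun h4 => hy (h4 ▸ hb.1)
        rw [ha', hb']
      omega
  · exfalso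
    by_cases hy : y ∈ T
    · have h1 : insert x (T \ {x, y}) ⊆ T' :=
        Finset.insert_subset (hxT' fun h2 => hx (h2.2 hy)) hsubT
      have h2 := Finset.card_le_card h1
      rw [Finset.card_insert_of_notMem (by simp)] at h2
      have h3 : (T ∩ {x, y}).card ≤ 1 := by
        rw [Finset.card_le_one]
        intro a ha b hb
        simp only [Finset.mem_inter, Finset.mem_insert, Finset.mem_singleton] at ha hb
        have ha' : a = y := ha.2.resolve_left fun h4 => hx (h4 ▸ ha.1)
        have hb' : b = y := hb.2.resolve_left fun h4 => hx (h4 ▸ hb.1)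
        rw [ha', hb']
      omega
    · have h3 : (T ∩ {x, y}).card = 0 := by
        rw [Finset.card_eq_zero]
        ext a
        simp only [Finset.mem_inter, Finset.mem_insert, Finset.mem_singleton,
          Finset.notMem_empty, iff_false]
        rintro ⟨h4, rfl | rfl⟩
        · exact hx h4
        · exact hy h4
      omega

/-! ### auxiliary lemmas for `pat_del` -/

lemma patB_fib {W : Finset V} {n₀ n₁ : V → V} {c : V → Bool} {T : Finset V} {x : V}
    (hx : x ∉ W) : (T.filter fun t => ret W n₀ n₁ c t = x).card =
      (if x ∈ T then 1 else 0) +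
        ((T ∩ W).filter fun t => (if c t then n₁ t else n₀ t) = x).card := by
  have h1 : (T.filter fun t => ret W n₀ n₁ c t = x) =
      ((T \ W).filter fun t => t = x) ∪
        ((T ∩ W).filter fun t => (if c t then n₁ t else n₀ t) = x) := by
    ext t
    rw [Finset.mem_filter, Finset.mem_union, Finset.mem_filter, Finset.mem_filter,
      Finset.mem_sdiff, Finset.mem_inter]
    unfold ret
    by_cases ht : t ∈ W
    · rw [if_pos ht]
      constructor
      · rintro ⟨h2, h3⟩
        exact Or.inr ⟨⟨h2, ht⟩, h3⟩
      · rintro (h2 | h2)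
        · exact absurd ht h2.1.2
        · exact ⟨h2.1.1, h2.2⟩
    · rw [if_neg ht]
      constructor
      · rintro ⟨h2, h3⟩
        exact Or.inl ⟨⟨h2, ht⟩, h3⟩
      · rintro (h2 | h2)
        · exact ⟨h2.1.1, h2.2⟩
        · exact absurd h2.1.2 ht
  rw [h1, Finset.card_union_of_disjoint]
  · congr 1
    by_cases hxT : x ∈ T
    · rw [if_pos hxT, Finset.card_eq_one]
      refine ⟨x, ?_⟩
      ext t
      rw [Finset.mem_filter, Finset.mem_singleton]
      constructor
      · rintro ⟨-, h3⟩
        exact h3
      · rintro rfl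
        exact ⟨Finset.mem_sdiff.2 ⟨hxT, hx⟩, rfl⟩
    · rw [if_neg hxT, Finset.card_eq_zero, Finset.filter_eq_empty_iff]
      rintro t ht rfl
      exact hxT (Finset.mem_sdiff.1 ht).1
  · rw [Finset.disjoint_left]
    intro t ht ht'
    exact (Finset.mem_sdiff.1 (Finset.mem_filter.1 ht).1).2
      (Finset.mem_inter.1 (Finset.mem_filter.1 ht').1).2

lemma patB_one {U W : Finset V} {n₀ n₁ : V → V} {c : V → Bool} {T : Finset V} {w : V}
    (hTU : T ⊆ U) (hW : T ∩ W = {w}) (hn : (if c w then n₁ w else n₀ w) ∈ U \ W) :
    retT U W n₀ n₁ c T = (T.erase w) ∆ {if c w then n₁ w else n₀ w} := by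
  have hwm : w ∈ T ∩ W := by rw [hW]; simp
  rw [Finset.mem_inter] at hwm
  ext x
  rw [fcs_mem, Finset.mem_erase]
  unfold retT
  rw [Finset.mem_filter]
  by_cases hx : x ∈ U \ W
  · have hxW := (Finset.mem_sdiff.1 hx).2
    have hxw : x ≠ w := fun h1 => hxW (h1 ▸ hwm.2)
    rw [patB_fib hxW, hW]
    by_cases h1 : (if c w then n₁ w else n₀ w) = x
    · have h2 : (Finset.filter (fun t => (if c t then n₁ t else n₀ t) = x) {w}) = {w} := by
        rw [Finset.filter_eq_self]
        intro t ht
        rw [Finset.mem_singleton] at ht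
        rw [ht]
        exact h1
      rw [h2, Finset.card_singleton, h1]
      by_cases h3 : x ∈ T
      · rw [if_pos h3]
        constructor
        · rintro ⟨-, h4⟩
          exact absurd h4 (by decide)
        · rintro (h4 | h4)
          · exact absurd rfl h4.2
          · exact absurd ⟨hxw, h3⟩ h4.2
      · rw [if_neg h3]
        constructor
        · intro _
          exact Or.inr ⟨rfl, fun h4 => h3 h4.2⟩
        · intro _
          exact ⟨hx, by decide⟩
    · have h2 : (Finset.filter (fun t => (if c t then n₁ t else n₀ t) = x) {w}) = ∅ := by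
        rw [Finset.filter_eq_empty_iff]
        intro t ht
        rw [Finset.mem_singleton] at ht
        rw [ht]
        exact h1
      rw [h2, Finset.card_empty]
      by_cases h3 : x ∈ T
      · rw [if_pos h3]
        constructor
        · intro _
          exact Or.inl ⟨⟨hxw, h3⟩, fun h4 => h1 h4.symm⟩
        · intro _
          exact ⟨hx, by decide⟩
      · rw [if_neg h3]
        constructor
        · rintro ⟨-, h4⟩
          exact absurd h4 (by decide)
        · rintro (h4 | h4)
          · exact absurd h4.1.2 h3
          · exact absurd h4.1.symm h1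
  · constructor
    · rintro ⟨h1, -⟩
      exact absurd h1 hx
    · rintro (h1 | h1)
      · exfalso
        apply hx
        rw [Finset.mem_sdiff]
        refine ⟨hTU h1.1.2, fun h2 => h1.1.1 ?_⟩
        have h3 : x ∈ T ∩ W := Finset.mem_inter.2 ⟨h1.1.2, h2⟩
        rw [hW] at h3
        simpa using h3
      · rw [h1.1] at hx
        exact absurd hn hx

lemma patB_two {U W : Finset V} {n₀ n₁ : V → V} {c : V → Bool} {T : Finset V} {w p : V}
    (hTU : T ⊆ U) (hwp : w ≠ p) (hW : T ∩ W = {w, p})
    (hn : (if c w then n₁ w else n₀ w) ∈ U \ W)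
    (hn' : (if c p then n₁ p else n₀ p) ∈ U \ W) :
    retT U W n₀ n₁ c T =
      (T \ {w, p}) ∆ {if c w then n₁ w else n₀ w} ∆ {if c p then n₁ p else n₀ p} := by
  have hwm : w ∈ T ∩ W := by rw [hW]; simp
  have hpm : p ∈ T ∩ W := by rw [hW]; simp
  rw [Finset.mem_inter] at hwm hpm
  ext x
  rw [fcs_mem, fcs_mem, Finset.mem_sdiff]
  unfold retT
  rw [Finset.mem_filter]
  by_cases hx : x ∈ U \ W
  · have hxW := (Finset.mem_sdiff.1 hx).2
    have hxw : x ≠ w := fun h1 => hxW (h1 ▸ hwm.2)
    have hxp : x ≠ p := fun h1 => hxW (h1 ▸ hpm.2)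
    have hxwp : x ∉ ({w, p} : Finset V) := by
      simp only [Finset.mem_insert, Finset.mem_singleton, not_or]
      exact ⟨hxw, hxp⟩
    rw [patB_fib hxW, hW]
    have h2 : (Finset.filter (fun t => (if c t then n₁ t else n₀ t) = x) {w, p}).card =
        (if (if c w then n₁ w else n₀ w) = x then 1 else 0) +
        (if (if c p then n₁ p else n₀ p) = x then 1 else 0) := by
      rw [Finset.card_filter, Finset.sum_pair hwp]
    rw [h2]
    generalize hA : (if c w then n₁ w else n₀ w) = A
    generalize hB : (if c p then n₁ p else n₀ p) = B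
    by_cases h3 : x ∈ T <;> by_cases h4 : A = x <;> by_cases h5 : B = x
    · subst h4
      simp [h3, h5, hx, hxwp]
      decide
    · have h5' : ¬ x = B := fun h => h5 h.symm
      subst h4
      simp [h3, h5, h5', hx, hxwp]
    · have h4' : ¬ x = A := fun h => h4 h.symm
      subst h5
      simp [h3, h4, h4', hx, hxwp]
    · have h4' : ¬ x = A := fun h => h4 h.symm
      have h5' : ¬ x = B := fun h => h5 h.symm
      simp [h3, h4, h5, h4', h5', hx, hxwp]
    · subst h4
      simp [h3, h5, hx, hxwp]
    · have h5' : ¬ x = B := fun h => h5 h.symm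
      subst h4
      simp [h3, h5, h5', hx, hxwp]
    · have h4' : ¬ x = A := fun h => h4 h.symm
      subst h5
      simp [h3, h4, h4', hx, hxwp]
    · have h4' : ¬ x = A := fun h => h4 h.symm
      have h5' : ¬ x = B := fun h => h5 h.symm
      simp [h3, h4, h5, h4', h5', hx, hxwp]
  · have hTx : ¬ (x ∈ T ∧ x ∉ ({w, p} : Finset V)) := by
      rintro ⟨h1, h2⟩
      apply hx
      rw [Finset.mem_sdiff]
      refine ⟨hTU h1, fun h3 => h2 ?_⟩
      have h4 : x ∈ T ∩ W := Finset.mem_inter.2 ⟨h1, h3⟩
      rwa [hW] at h4
    have hA : ¬ x = (if c w then n₁ w else n₀ w) := fun h1 => hx (h1 ▸ hn)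
    have hB : ¬ x = (if c p then n₁ p else n₀ p) := fun h1 => hx (h1 ▸ hn')
    constructor
    · rintro ⟨h1, -⟩
      exact absurd h1 hx
    · rintro (⟨h1 | h1, -⟩ | h1)
      · exact absurd h1.1 hTx
      · exact absurd h1.1 hA
      · exact absurd h1.1 hB

/-- the pattern `C1` from the data of a vertex of degree 2 in `G \ f` -/
lemma patB_C1 {f : α} (hf : f ∈ M.E \ {e}) {w p u v q : V} {a b : α}
    (hj : G.Jn f w p) (hstar : G.star ((M.E \ {e}) \ {f}) w = {a, b}) (ha : G.Jn a w u)
    (hb : G.Jn b w v) (h3 : (G.star (M.E \ {e}) w).card = 3) (hT : T = {w, u, v, q})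
    (hT4 : T.card = 4) : C1 M e G T f a b w p u v q where
  jf := hj
  ja := ha
  jb := hb
  star := by
    have h1 : G.star (M.E \ {e}) w = insert f (G.star ((M.E \ {e}) \ {f}) w) := by
      ext z
      rw [Finset.mem_insert, Gr.mem_star, Gr.mem_star, Finset.mem_sdiff (a := z) (t := {f}),
        Finset.mem_singleton]
      constructor
      · rintro ⟨h2, h3⟩
        by_cases h4 : z = f
        · exact Or.inl h4
        · exact Or.inr ⟨⟨h2, h4⟩, h3⟩
      · rintro (rfl | h2)
        · refine ⟨hf, ?_⟩
          rcases hj with ⟨h4, -⟩ | ⟨-, h4⟩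
          · exact Or.inl h4
          · exact Or.inr h4
        · exact ⟨h2.1.1, h2.2⟩
    rw [h1, hstar]
  star_card := h3
  T_eq := hT
  T_card := hT4

theorem pat_del (h : G3 M e G T) {f : α} (hf : f ∈ M.E \ {e})
    (hgood : Good ((M.del {e}).del {f})) (hg : Graphic (M.del {f})) (hT : 4 ≤ T.card) :
    (∃ a b w p u v q, C1 M e G T f a b w p u v q) ∨
      ∃ a b c d w p u v s t, C2 M e G T f a b c d w p u v s t := by
  have hon := h.rep.on
  have hfe : f ≠ e := by
    have := (Finset.mem_sdiff.1 hf).2
    simpa using this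
  obtain ⟨w, p, hj⟩ : ∃ w p, G.Jn f w p := ⟨_, _, Gr.jn_self f⟩
  obtain ⟨hwU, hpU, hwp⟩ := hon.jn_mem hf hj
  have hrep : GRep (M.del {f}) e G T := h.rep.del (by simpa using hfe.symm)
  have hE : (M.del {f}).E \ {e} = (M.E \ {e}) \ {f} := patA_sdiff _ _ _
  -- stars
  have hstar_ne : ∀ z, z ≠ w → z ≠ p →
      G.star ((M.E \ {e}) \ {f}) z = G.star (M.E \ {e}) z := by
    intro z hzw hzp
    ext k
    rw [Gr.mem_star, Gr.mem_star, Finset.mem_sdiff (a := k) (t := {f}), Finset.mem_singleton]
    constructor
    · rintro ⟨h1, h2⟩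
      exact ⟨h1.1, h2⟩
    · rintro ⟨h1, h2⟩
      refine ⟨⟨h1, ?_⟩, h2⟩
      rintro rfl
      rcases hj with ⟨h3, h4⟩ | ⟨h3, h4⟩
      · rw [h3, h4] at h2
        rcases h2 with h2 | h2
        · exact hzw h2.symm
        · exact hzp h2.symm
      · rw [h3, h4] at h2
        rcases h2 with h2 | h2
        · exact hzp h2.symm
        · exact hzw h2.symm
  have hstar_wp : ∀ z, z = w ∨ z = p →
      (G.star ((M.E \ {e}) \ {f}) z).card + 1 = (G.star (M.E \ {e}) z).card := by
    intro z hz
    have hfz : f ∈ G.star (M.E \ {e}) z := by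
      rw [Gr.mem_star]
      refine ⟨hf, ?_⟩
      rcases hz with rfl | rfl
      · rcases hj with ⟨h3, h4⟩ | ⟨h3, h4⟩
        · exact Or.inl h3
        · exact Or.inr h4
      · rcases hj with ⟨h3, h4⟩ | ⟨h3, h4⟩
        · exact Or.inr h4
        · exact Or.inl h3
    have h1 : G.star ((M.E \ {e}) \ {f}) z = (G.star (M.E \ {e}) z).erase f := by
      ext k
      rw [Finset.mem_erase, Gr.mem_star, Gr.mem_star, Finset.mem_sdiff (a := k) (t := {f}),
        Finset.mem_singleton]
      constructor
      · rintro ⟨h2, h3⟩
        exact ⟨h2.2, h2.1, h3⟩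
      · rintro ⟨h2, h3, h4⟩
        exact ⟨⟨h3, h2⟩, h4⟩
    rw [h1, Finset.card_erase_of_mem hfz]
    have := Finset.card_pos.2 ⟨f, hfz⟩
    omega
  -- the vertices of degree 2
  set W : Finset V := ({w, p} : Finset V).filter fun z => (G.star (M.E \ {e}) z).card = 3 with hW
  have hWm : ∀ z, z ∈ W ↔ (z = w ∨ z = p) ∧ (G.star (M.E \ {e}) z).card = 3 := by
    intro z
    rw [hW, Finset.mem_filter]
    simp only [Finset.mem_insert, Finset.mem_singleton]
  have hWU : W ⊆ G.U := by
    intro z hz
    rcases ((hWm z).1 hz).1 with rfl | rfl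
    · exact hwU
    · exact hpU
  have hdegW : ∀ z ∈ W, (G.star ((M.E \ {e}) \ {f}) z).card = 2 := by
    intro z hz
    obtain ⟨h1, h2⟩ := (hWm z).1 hz
    have := hstar_wp z h1
    omega
  have hdegN : ∀ z ∈ G.U, z ∉ W → 3 ≤ (G.star ((M.E \ {e}) \ {f}) z).card := by
    intro z hz hzW
    have h1 := h.deg z hz
    by_cases h2 : z = w ∨ z = p
    · have h3 := hstar_wp z h2
      have h4 : (G.star (M.E \ {e}) z).card ≠ 3 := fun h4 => hzW ((hWm z).2 ⟨h2, h4⟩)
      omega
    · rw [not_or] at h2
      rw [hstar_ne z h2.1 h2.2]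
      exact h1
  have hon1 : G.On ((M.E \ {e}) \ {f}) := hon.mono Finset.sdiff_subset
  have hsimp : G.Simple ((M.E \ {e}) \ {f}) := fun a ha b hb x y h1 h2 =>
    h.simple a (Finset.mem_sdiff.1 ha).1 b (Finset.mem_sdiff.1 hb).1 x y h1 h2
  have hnadj : ¬ G.Adj ((M.E \ {e}) \ {f}) w p := by
    rintro ⟨k, hk, hkj⟩
    rw [Finset.mem_sdiff, Finset.mem_singleton] at hk
    exact hk.2 (patA_par h hk.1 hf hkj hj)
  have hnadjW : ∀ z ∈ W, ∀ z' ∈ W, ¬ G.Adj ((M.E \ {e}) \ {f}) z z' := by
    intro z hz z' hz' hadj
    obtain ⟨-, -, hne⟩ := hon1.adj_mem hadj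
    rcases ((hWm z).1 hz).1 with rfl | rfl
    · rcases ((hWm z').1 hz').1 with rfl | rfl
      · exact hne rfl
      · exact hnadj hadj
    · rcases ((hWm z').1 hz').1 with rfl | rfl
      · exact hnadj hadj.symm
      · exact hne rfl
  have hvc : G.VC ((M.E \ {e}) \ {f}) W := by
    have hrp : Rp ((M.del {e}).del {f}) G := (h.rep.del_rp).del {f}
    exact vc_of_good hrp hgood W hdegN
  have : Nonempty α := ⟨f⟩
  obtain ⟨k₀, k₁, n₀, n₁, hd⟩ := exists_deg2 hon1 hsimp hWU hdegW hnadjW
  have hd' := hd
  rw [← hE] at hd' hvc
  have hcos : ∀ c : V → Bool, (retT G.U W n₀ n₁ c T).card ≤ 2 := by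
    intro c
    refine coset hrep hd' hvc ?_ c (Pool.Agent.H87.Sey.graphic_con hg _)
    intro z hz
    rw [hE]
    have h1 := hdegN z (Finset.mem_sdiff.1 hz).1 (Finset.mem_sdiff.1 hz).2
    exact Finset.card_pos.1 (by omega)
  -- the neighbours
  have hnU : ∀ z ∈ W, ∀ b : Bool, (if b then n₁ z else n₀ z) ∈ G.U \ W := by
    intro z hz b
    have hk₀ : k₀ z ∈ (M.E \ {e}) \ {f} := (Gr.mem_star.1 (by
      rw [hd.star z hz]; simp : k₀ z ∈ G.star ((M.E \ {e}) \ {f}) z)).1
    have hk₁ : k₁ z ∈ (M.E \ {e}) \ {f} := (Gr.mem_star.1 (by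
      rw [hd.star z hz]; simp : k₁ z ∈ G.star ((M.E \ {e}) \ {f}) z)).1
    rw [Finset.mem_sdiff]
    cases b with
    | true => exact ⟨(hon1.jn_mem hk₁ (hd.jn₁ z hz)).2.1, hd.nW₁ z hz⟩
    | false => exact ⟨(hon1.jn_mem hk₀ (hd.jn₀ z hz)).2.1, hd.nW₀ z hz⟩
  have hTU := h.rep.TU
  have heven := h.rep.even
  -- one vertex
  have hone : ∀ w' p' : V, G.Jn f w' p' → w' ∈ W → T ∩ W = {w'} →
      ∃ a b w p u v q, C1 M e G T f a b w p u v q := by
    intro w' p' hj' hw'W hTW
    have hw'T : w' ∈ T := by
      have : w' ∈ T ∩ W := by rw [hTW]; simp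
      exact (Finset.mem_inter.1 this).1
    have hc : (T.erase w').card + 1 = T.card := Finset.card_erase_add_one hw'T
    have h1 := finset_coset_one (T := T.erase w') (x := n₀ w') (y := n₁ w') (hd.nn w' hw'W)
      (by
        rw [← hc] at heven
        rcases Nat.even_or_odd (T.erase w').card with h2 | h2
        · exact absurd heven (by rw [Nat.even_add_one]; exact not_not.2 h2)
        · exact h2)
      (by
        have h2 := hcos fun _ => false
        rw [patB_one hTU hTW (hnU w' hw'W _)] at h2
        simpa using h2)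
      (by
        have h2 := hcos fun _ => true
        rw [patB_one hTU hTW (hnU w' hw'W _)] at h2
        simpa using h2)
    rcases h1 with h1 | ⟨z, hzx, hzy, h1⟩
    · omega
    · refine ⟨k₀ w', k₁ w', w', p', n₀ w', n₁ w', z, patB_C1 hf hj' (hd.star w' hw'W)
        (hd.jn₀ w' hw'W) (hd.jn₁ w' hw'W) ((hWm w').1 hw'W).2 ?_ ?_⟩
      · rw [← h1, Finset.insert_erase hw'T]
      · rw [← hc, h1, Finset.card_eq_three.2 ⟨n₀ w', n₁ w', z, hd.nn w' hw'W, hzx.symm,
          hzy.symm, rfl⟩]
  by_cases hwW : w ∈ T ∩ W
  · by_cases hpW : p ∈ T ∩ W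
    · -- both
      have hTW : T ∩ W = {w, p} := by
        apply Finset.Subset.antisymm
        · intro z hz
          rcases ((hWm z).1 (Finset.mem_inter.1 hz).2).1 with rfl | rfl <;> simp
        · intro z hz
          simp only [Finset.mem_insert, Finset.mem_singleton] at hz
          rcases hz with rfl | rfl
          · exact hwW
          · exact hpW
      obtain ⟨hwT, hwW'⟩ := Finset.mem_inter.1 hwW
      obtain ⟨hpT, hpW'⟩ := Finset.mem_inter.1 hpW
      have hsubT : ({w, p} : Finset V) ⊆ T := by
        intro z hz
        simp only [Finset.mem_insert, Finset.mem_singleton] at hz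
        rcases hz with rfl | rfl
        · exact hwT
        · exact hpT
      have hc : (T \ {w, p}).card + 2 = T.card := by
        have h1 := Finset.card_sdiff_add_card_eq_card hsubT
        rw [Finset.card_pair hwp] at h1
        exact h1
      have hTeq : T = {w, p} ∪ (T \ {w, p}) := by
        rw [Finset.union_sdiff_of_subset hsubT]
      have hcc : ∀ b b' : Bool, ((T \ {w, p}) ∆ {if b then n₁ w else n₀ w} ∆
          {if b' then n₁ p else n₀ p}).card ≤ 2 := by
        intro b b'
        have h2 := hcos fun z => if z = w then b else b'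
        rw [patB_two hTU hwp hTW (hnU w hwW' _) (hnU p hpW' _)] at h2
        rwa [if_pos rfl, if_neg hwp.symm] at h2
      have hC1w : ∀ q, T = {w, n₀ w, n₁ w, q} → T.card = 4 →
          ∃ a b w p u v q, C1 M e G T f a b w p u v q := fun q h1 h2 =>
        ⟨k₀ w, k₁ w, w, p, n₀ w, n₁ w, q, patB_C1 hf hj (hd.star w hwW') (hd.jn₀ w hwW')
          (hd.jn₁ w hwW') ((hWm w).1 hwW').2 h1 h2⟩
      by_cases hN : ({n₀ w, n₁ w} : Finset V) = {n₀ p, n₁ p}
      · -- a small graph
        left
        have hstarw : G.star ((M.E \ {e}) \ {f}) w = {k₀ w, k₁ w} := hd.star w hwW'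
        have hstarp : G.star ((M.E \ {e}) \ {f}) p = {k₀ p, k₁ p} := hd.star p hpW'
        have hmemw : ∀ k ∈ M.E \ {e}, ∀ y, G.Jn k w y → y = p ∨ y = n₀ w ∨ y = n₁ w := by
          intro k hk y hkj
          by_cases hkf : k = f
          · subst hkf
            rcases hkj.ends hj with ⟨-, h1⟩ | ⟨h1, -⟩
            · exact Or.inl h1
            · exact absurd h1 hwp
          · have h1 : k ∈ G.star ((M.E \ {e}) \ {f}) w := Gr.mem_star_iff_jn.2
              ⟨Finset.mem_sdiff.2 ⟨hk, by simpa using hkf⟩, y, hkj⟩
            rw [hstarw] at h1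
            simp only [Finset.mem_insert, Finset.mem_singleton] at h1
            rcases h1 with rfl | rfl
            · rcases hkj.ends (hd.jn₀ w hwW') with ⟨-, h2⟩ | ⟨h2, h3⟩
              · exact Or.inr (Or.inl h2)
              · exact Or.inr (Or.inl (h3.trans h2))
            · rcases hkj.ends (hd.jn₁ w hwW') with ⟨-, h2⟩ | ⟨h2, h3⟩
              · exact Or.inr (Or.inr h2)
              · exact Or.inr (Or.inr (h3.trans h2))
        have hmemp : ∀ k ∈ M.E \ {e}, ∀ y, G.Jn k p y → y = w ∨ y = n₀ w ∨ y = n₁ w := by
          intro k hk y hkj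
          have hgoal : y = w ∨ y = n₀ p ∨ y = n₁ p := by
            by_cases hkf : k = f
            · subst hkf
              rcases hkj.ends hj.symm with ⟨-, h1⟩ | ⟨h1, -⟩
              · exact Or.inl h1
              · exact absurd h1 hwp.symm
            · have h1 : k ∈ G.star ((M.E \ {e}) \ {f}) p := Gr.mem_star_iff_jn.2
                ⟨Finset.mem_sdiff.2 ⟨hk, by simpa using hkf⟩, y, hkj⟩
              rw [hstarp] at h1
              simp only [Finset.mem_insert, Finset.mem_singleton] at h1
              rcases h1 with rfl | rfl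
              · rcases hkj.ends (hd.jn₀ p hpW') with ⟨-, h2⟩ | ⟨h2, h3⟩
                · exact Or.inr (Or.inl h2)
                · exact Or.inr (Or.inl (h3.trans h2))
              · rcases hkj.ends (hd.jn₁ p hpW') with ⟨-, h2⟩ | ⟨h2, h3⟩
                · exact Or.inr (Or.inr h2)
                · exact Or.inr (Or.inr (h3.trans h2))
          rcases hgoal with h1 | h1
          · exact Or.inl h1
          · right
            have h2 : y ∈ ({n₀ p, n₁ p} : Finset V) := by
              simp only [Finset.mem_insert, Finset.mem_singleton]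
              exact h1
            rw [← hN] at h2
            simpa using h2
        have hnw0 := hnU w hwW' false
        have hnw1 := hnU w hwW' true
        simp only [Bool.false_eq_true, if_false, if_true] at hnw0 hnw1
        have hPU : ({w, p, n₀ w, n₁ w} : Finset V) ⊆ G.U := by
          intro z hz
          simp only [Finset.mem_insert, Finset.mem_singleton] at hz
          rcases hz with rfl | rfl | rfl | rfl
          · exact hwU
          · exact hpU
          · exact (Finset.mem_sdiff.1 hnw0).1
          · exact (Finset.mem_sdiff.1 hnw1).1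
        have hv := h.vc {w, p, n₀ w, n₁ w} (G.U \ {w, p}) (by
            ext z
            rw [Finset.mem_union, Finset.mem_sdiff]
            constructor
            · rintro (h2 | h2)
              · exact hPU h2
              · exact h2.1
            · intro h2
              by_cases h3 : z ∈ ({w, p} : Finset V)
              · left
                simp only [Finset.mem_insert, Finset.mem_singleton] at h3 ⊢
                rcases h3 with h3 | h3
                · exact Or.inl h3
                · exact Or.inr (Or.inl h3)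
              · exact Or.inr ⟨h2, h3⟩) (by
            have h2 : ({w, p, n₀ w, n₁ w} : Finset V) ∩ (G.U \ {w, p}) ⊆ {n₀ w, n₁ w} := by
              intro z hz
              rw [Finset.mem_inter, Finset.mem_sdiff] at hz
              simp only [Finset.mem_insert, Finset.mem_singleton, not_or] at hz ⊢
              rcases hz.1 with h3 | h3 | h3
              · exact absurd h3 hz.2.2.1
              · exact absurd h3 hz.2.2.2
              · exact h3
            exact (Finset.card_le_card h2).trans Finset.card_le_two) (by
            intro k hk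
            obtain ⟨h2, h3, h4⟩ := hon k hk
            have hcase : ∀ x y : V, G.Jn k x y → x = w ∨ x = p →
                (G.f k ∈ ({w, p, n₀ w, n₁ w} : Finset V) ∧
                  G.g k ∈ ({w, p, n₀ w, n₁ w} : Finset V)) := by
              intro x y hkj hx
              have hy : x ∈ ({w, p, n₀ w, n₁ w} : Finset V) ∧
                  y ∈ ({w, p, n₀ w, n₁ w} : Finset V) := by
                simp only [Finset.mem_insert, Finset.mem_singleton]
                rcases hx with rfl | rfl
                · rcases hmemw k hk y hkj with h5 | h5 | h5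
                  · exact ⟨Or.inl rfl, Or.inr (Or.inl h5)⟩
                  · exact ⟨Or.inl rfl, Or.inr (Or.inr (Or.inl h5))⟩
                  · exact ⟨Or.inl rfl, Or.inr (Or.inr (Or.inr h5))⟩
                · rcases hmemp k hk y hkj with h5 | h5 | h5
                  · exact ⟨Or.inr (Or.inl rfl), Or.inl h5⟩
                  · exact ⟨Or.inr (Or.inl rfl), Or.inr (Or.inr (Or.inl h5))⟩
                  · exact ⟨Or.inr (Or.inl rfl), Or.inr (Or.inr (Or.inr h5))⟩
              rcases hkj with ⟨h5, h6⟩ | ⟨h5, h6⟩
              · rw [h5, h6]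
                exact hy
              · rw [h5, h6]
                exact hy.symm
            by_cases h5 : G.f k = w ∨ G.f k = p
            · exact Or.inl (hcase _ _ (Gr.jn_self k) h5)
            · by_cases h6 : G.g k = w ∨ G.g k = p
              · exact Or.inl (hcase _ _ (Gr.jn_self k).symm h6)
              · right
                rw [Finset.mem_sdiff, Finset.mem_sdiff]
                simp only [Finset.mem_insert, Finset.mem_singleton]
                exact ⟨⟨h2, h5⟩, ⟨h3, h6⟩⟩)
        have hUsub : T ⊆ {w, p, n₀ w, n₁ w} := by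
          rcases hv with h2 | h2
          · exfalso
            have h3 : w ∈ ({w, p, n₀ w, n₁ w} : Finset V) \ (G.U \ {w, p}) := by
              rw [Finset.mem_sdiff, Finset.mem_sdiff]
              simp
            exact Finset.notMem_empty w (h2 h3)
          · intro z hz
            by_contra h3
            have h4 : z ∈ (G.U \ {w, p}) \ {w, p, n₀ w, n₁ w} := by
              rw [Finset.mem_sdiff, Finset.mem_sdiff]
              refine ⟨⟨hTU hz, fun h5 => h3 ?_⟩, h3⟩
              simp only [Finset.mem_insert, Finset.mem_singleton] at h5 ⊢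
              rcases h5 with h5 | h5
              · exact Or.inl h5
              · exact Or.inr (Or.inl h5)
            exact Finset.notMem_empty z (h2 h4)
        have hc4 : ({w, p, n₀ w, n₁ w} : Finset V).card ≤ 4 := Finset.card_le_four
        have hTe : T = {w, p, n₀ w, n₁ w} := Finset.eq_of_subset_of_card_le hUsub (by omega)
        refine hC1w p ?_ ?_
        · rw [hTe]
          ext z
          simp only [Finset.mem_insert, Finset.mem_singleton]
          constructor
          · rintro (h2 | h2 | h2 | h2)
            · exact Or.inl h2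
            · exact Or.inr (Or.inr (Or.inr h2))
            · exact Or.inr (Or.inl h2)
            · exact Or.inr (Or.inr (Or.inl h2))
          · rintro (h2 | h2 | h2 | h2)
            · exact Or.inl h2
            · exact Or.inr (Or.inr (Or.inl h2))
            · exact Or.inr (Or.inr (Or.inr h2))
            · exact Or.inr (Or.inl h2)
        · have := Finset.card_le_card hUsub
          omega
      · have h1 := finset_coset_two (T := T \ {w, p}) (x := n₀ w) (y := n₁ w) (x' := n₀ p)
          (y' := n₁ p) (hd.nn w hwW') (hd.nn p hpW') hN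
          (by
            rw [← hc] at heven
            rcases heven with ⟨r, hr⟩
            exact ⟨r - 1, by omega⟩)
          (by simpa using hcc false false) (by simpa using hcc false true)
          (by simpa using hcc true false) (by simpa using hcc true true)
        rcases h1 with h1 | h1 | h1 | h1
        · rw [h1, Finset.card_empty] at hc
          omega
        · left
          refine hC1w p ?_ ?_
          · conv_lhs => rw [hTeq, h1]
            ext z
            simp only [Finset.mem_union, Finset.mem_insert, Finset.mem_singleton]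
            constructor
            · rintro ((h2 | h2) | h2 | h2)
              · exact Or.inl h2
              · exact Or.inr (Or.inr (Or.inr h2))
              · exact Or.inr (Or.inl h2)
              · exact Or.inr (Or.inr (Or.inl h2))
            · rintro (h2 | h2 | h2 | h2)
              · exact Or.inl (Or.inl h2)
              · exact Or.inr (Or.inl h2)
              · exact Or.inr (Or.inr h2)
              · exact Or.inl (Or.inr h2)
          · rw [h1, Finset.card_pair (hd.nn w hwW')] at hc
            omega
        · left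
          refine ⟨k₀ p, k₁ p, p, w, n₀ p, n₁ p, w, patB_C1 hf hj.symm (hd.star p hpW')
            (hd.jn₀ p hpW') (hd.jn₁ p hpW') ((hWm p).1 hpW').2 ?_ ?_⟩
          · conv_lhs => rw [hTeq, h1]
            ext z
            simp only [Finset.mem_union, Finset.mem_insert, Finset.mem_singleton]
            constructor
            · rintro ((h2 | h2) | h2 | h2)
              · exact Or.inr (Or.inr (Or.inr h2))
              · exact Or.inl h2
              · exact Or.inr (Or.inl h2)
              · exact Or.inr (Or.inr (Or.inl h2))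
            · rintro (h2 | h2 | h2 | h2)
              · exact Or.inl (Or.inr h2)
              · exact Or.inr (Or.inl h2)
              · exact Or.inr (Or.inr h2)
              · exact Or.inl (Or.inl h2)
          · rw [h1, Finset.card_pair (hd.nn p hpW')] at hc
            omega
        · right
          have hst : ∀ {z z' : V}, G.Jn f z z' → z ∈ W →
              G.star (M.E \ {e}) z = {f, k₀ z, k₁ z} := by
            intro z z' hjz hz
            have h2 : G.star (M.E \ {e}) z = insert f (G.star ((M.E \ {e}) \ {f}) z) := by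
              ext k
              rw [Finset.mem_insert, Gr.mem_star, Gr.mem_star,
                Finset.mem_sdiff (a := k) (t := {f}), Finset.mem_singleton]
              constructor
              · rintro ⟨h2, h3⟩
                by_cases h4 : k = f
                · exact Or.inl h4
                · exact Or.inr ⟨⟨h2, h4⟩, h3⟩
              · rintro (rfl | h2)
                · refine ⟨hf, ?_⟩
                  rcases hjz with ⟨h4, -⟩ | ⟨-, h4⟩
                  · exact Or.inl h4
                  · exact Or.inr h4
                · exact ⟨h2.1.1, h2.2⟩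
            rw [h2, hd.star z hz]
          exact ⟨k₀ w, k₁ w, k₀ p, k₁ p, w, p, n₀ w, n₁ w, n₀ p, n₁ p,
            { jf := hj
              ja := hd.jn₀ w hwW'
              jb := hd.jn₁ w hwW'
              jc := hd.jn₀ p hpW'
              jd := hd.jn₁ p hpW'
              star := hst hj hwW'
              star_card := ((hWm w).1 hwW').2
              star' := hst hj.symm hpW'
              star_card' := ((hWm p).1 hpW').2
              T_eq := by rw [← h1]; exact hTeq
              ne := hN }⟩
    · left
      refine hone w p hj (Finset.mem_inter.1 hwW).2 ?_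
      apply Finset.Subset.antisymm
      · intro z hz
        rcases ((hWm z).1 (Finset.mem_inter.1 hz).2).1 with rfl | rfl
        · simp
        · exact absurd hz hpW
      · intro z hz
        rw [Finset.mem_singleton] at hz
        rw [hz]
        exact hwW
  · by_cases hpW : p ∈ T ∩ W
    · left
      refine hone p w hj.symm (Finset.mem_inter.1 hpW).2 ?_
      apply Finset.Subset.antisymm
      · intro z hz
        rcases ((hWm z).1 (Finset.mem_inter.1 hz).2).1 with rfl | rfl
        · exact absurd hz hwW
        · simp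
      · intro z hz
        rw [Finset.mem_singleton] at hz
        rw [hz]
        exact hpW
    · exfalso
      have hTW : T ∩ W = ∅ := by
        rw [Finset.eq_empty_iff_forall_notMem]
        intro z hz
        rcases ((hWm z).1 (Finset.mem_inter.1 hz).2).1 with rfl | rfl
        · exact hwW hz
        · exact hpW hz
      have h1 : T ⊆ retT G.U W n₀ n₁ (fun _ => false) T := by
        intro z hz
        have hzW : z ∉ W := fun h2 => by
          have h3 : z ∈ T ∩ W := Finset.mem_inter.2 ⟨hz, h2⟩
          rw [hTW] at h3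
          exact Finset.notMem_empty z h3
        unfold retT
        rw [Finset.mem_filter]
        refine ⟨Finset.mem_sdiff.2 ⟨hTU hz, hzW⟩, ?_⟩
        rw [patB_fib hzW, hTW, if_pos hz]
        simp
      have h2 := Finset.card_le_card h1
      have h3 := hcos fun _ => false
      omega

end Pool.Agent.H53.Sey
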