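import Pool.Agent.H53.Sey.Star

/-!
# Graph toolkit G1: the Kuratowski graphs (job SEYG-G1)

* `IsK33 G E`: `U = A ∪ B`, `|A| = |B| = 3`, disjoint, simple, and two vertices are adjacent iff
  they are in different classes. `IsK5 G E`: five vertices, simple, any two adjacent.
* `IsK33.vc`, `IsK5.vc`: no 2-vertex-cuts: if `x ∈ P \ Q` and `y ∈ Q \ P` then `x, y` are not
  adjacent and all common neighbours are in `P ∩ Q`; in `K5` any two vertices are adjacent; in `K33`
  `x, y` are in the same class and have three common neighbours.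
* `star_card_eq`: the edges at `x` correspond to the neighbours (`Simple`); degrees; number of edges
  (half of the sum of the degrees, `sum_star_card`).
* `IsK33.not_cographic`: suppose `N.dual` is graphic; it has no loops (a loop of `N.dual` would be a
  cocycle of size 1 of `N`), `exists_rp` gives a representation `G'` of `N.dual` without isolated
  vertices. Its stars are nonzero members of `N.dual.D`, i.e. cycles of `N`; a cycle of `K33` has at
  least four edges (a nonempty set of edges meeting every star in an even number of edges), of `K5`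
  at least three. The space `N.dual.D` has dimension `|E| - rk N` (`4` for `K33`, `6` for `K5`) and
  is spanned by the stars with one relation, so `|G'.U| ≥ dim + 1` (`= 5` resp. `7`), and
  `2 |E| = ∑ degrees ≥ 4 * 5 > 18` resp. `≥ 3 * 7 > 20`. Contradiction.
* `KurMinor.not_rigid`: `(N.con {f})` resp. `(N.del {f})` has the Kuratowski minor.
-/

set_option autoImplicit false

namespace Pool.Agent.H53.Sey

open Pool.Agent.H63.Sey

universe u v w

variable {α : Type u} [DecidableEq α] {V : Type v} [DecidableEq V] {V' : Type w} [DecidableEq V']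

/-- `K_{3,3}` -/
def IsK33 (G : Gr α V) (E : Finset α) : Prop :=
  G.On E ∧ G.Simple E ∧ ∃ A B : Finset V, A ∪ B = G.U ∧ Disjoint A B ∧ A.card = 3 ∧ B.card = 3 ∧
    ∀ x ∈ G.U, ∀ y ∈ G.U, G.Adj E x y ↔ ((x ∈ A ∧ y ∈ B) ∨ (x ∈ B ∧ y ∈ A))

/-- `K_5` -/
def IsK5 (G : Gr α V) (E : Finset α) : Prop :=
  G.On E ∧ G.Simple E ∧ G.U.card = 5 ∧ ∀ x ∈ G.U, ∀ y ∈ G.U, x ≠ y → G.Adj E x y

private lemma ka_sep {G : Gr α V} {E : Finset α} {P Q : Finset V}
    (hPQ : ∀ a ∈ E, (G.f a ∈ P ∧ G.g a ∈ P) ∨ (G.f a ∈ Q ∧ G.g a ∈ Q)) {x y : V}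
    (h : G.Adj E x y) (hx : x ∉ Q) : y ∈ P := by
  obtain ⟨a, ha, hj⟩ := h
  rcases hPQ a ha with ⟨h1, h2⟩ | ⟨h1, h2⟩
  · rcases hj with ⟨h3, h4⟩ | ⟨h3, h4⟩
    · rwa [← h4]
    · rwa [← h3]
  · exfalso
    rcases hj with ⟨h3, h4⟩ | ⟨h3, h4⟩
    · exact hx (h3 ▸ h1)
    · exact hx (h4 ▸ h2)

private lemma ka_vc {G : Gr α V} {E : Finset α}
    (h : ∀ x ∈ G.U, ∀ y ∈ G.U, x ≠ y → G.Adj E x y ∨
      ∃ B : Finset V, 3 ≤ B.card ∧ ∀ z ∈ B, G.Adj E x z ∧ G.Adj E y z) : G.VC E ∅ := by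
  intro P Q hPQ hc hE
  by_contra hcon
  push Not at hcon
  obtain ⟨h1, h2⟩ := hcon
  rw [Finset.subset_empty] at h1 h2
  obtain ⟨x, hx⟩ := Finset.nonempty_iff_ne_empty.2 h1
  obtain ⟨y, hy⟩ := Finset.nonempty_iff_ne_empty.2 h2
  rw [Finset.mem_sdiff] at hx hy
  have hxU : x ∈ G.U := hPQ ▸ Finset.mem_union_left _ hx.1
  have hyU : y ∈ G.U := hPQ ▸ Finset.mem_union_right _ hy.1
  have hE' : ∀ a ∈ E, (G.f a ∈ Q ∧ G.g a ∈ Q) ∨ (G.f a ∈ P ∧ G.g a ∈ P) :=
    fun a ha => (hE a ha).symm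
  rcases h x hxU y hyU (by rintro rfl; exact hx.2 hy.1) with h3 | ⟨B, hB, h3⟩
  · exact hy.2 (ka_sep hE h3 hx.2)
  · have h4 : B ⊆ P ∩ Q := by
      intro z hz
      exact Finset.mem_inter.2 ⟨ka_sep hE (h3 z hz).1 hx.2, ka_sep hE' (h3 z hz).2 hy.2⟩
    have := Finset.card_le_card h4
    omega

lemma IsK33.vc {G : Gr α V} {E : Finset α} (h : IsK33 G E) : G.VC E ∅ := by
  obtain ⟨hon, -, A, B, hU, hd, hA, hB, hadj⟩ := h
  have hAU : A ⊆ G.U := hU ▸ Finset.subset_union_left
  have hBU : B ⊆ G.U := hU ▸ Finset.subset_union_right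
  refine ka_vc fun x hx y hy hxy => ?_
  have hx' : x ∈ A ∪ B := hU ▸ hx
  have hy' : y ∈ A ∪ B := hU ▸ hy
  rw [Finset.mem_union] at hx' hy'
  rcases hx' with h1 | h1 <;> rcases hy' with h2 | h2
  · refine Or.inr ⟨B, hB.ge, fun z hz => ?_⟩
    exact ⟨(hadj x hx z (hBU hz)).2 (Or.inl ⟨h1, hz⟩), (hadj y hy z (hBU hz)).2 (Or.inl ⟨h2, hz⟩)⟩
  · exact Or.inl ((hadj x hx y hy).2 (Or.inl ⟨h1, h2⟩))
  · exact Or.inl ((hadj x hx y hy).2 (Or.inr ⟨h1, h2⟩))
  · refine Or.inr ⟨A, hA.ge, fun z hz => ?_⟩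
    exact ⟨(hadj x hx z (hAU hz)).2 (Or.inr ⟨h1, hz⟩), (hadj y hy z (hAU hz)).2 (Or.inr ⟨h2, hz⟩)⟩

lemma IsK5.vc {G : Gr α V} {E : Finset α} (h : IsK5 G E) : G.VC E ∅ :=
  ka_vc fun x hx y hy hxy => Or.inl (h.2.2.2 x hx y hy hxy)

/-- the degree in a simple graph is the number of neighbours -/
lemma star_card_eq {G : Gr α V} {E : Finset α} (hon : G.On E) (hs : G.Simple E) {x : V} :
    (G.star E x).card = (G.U.filter fun y => ∃ a ∈ E, (G.f a = x ∧ G.g a = y) ∨
      (G.f a = y ∧ G.g a = x)).card := by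
  refine Finset.card_bij (fun a _ => if G.f a = x then G.g a else G.f a) ?_ ?_ ?_
  · intro a ha
    rw [Gr.mem_star] at ha
    obtain ⟨haE, hx⟩ := ha
    obtain ⟨h1, h2, h3⟩ := hon a haE
    rw [Finset.mem_filter]
    by_cases hf : G.f a = x
    · simp only [hf, if_true]
      exact ⟨h2, a, haE, Or.inl ⟨hf, rfl⟩⟩
    · simp only [hf, if_false]
      exact ⟨h1, a, haE, Or.inr ⟨rfl, hx.resolve_left hf⟩⟩
  · intro a ha b hb hab
    rw [Gr.mem_star] at ha hb
    have key : ∀ c ∈ E, (G.f c = x ∨ G.g c = x) →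
        G.Jn c x (if G.f c = x then G.g c else G.f c) := by
      intro c hc hcx
      by_cases hf : G.f c = x
      · simp only [hf, if_true]
        exact Or.inl ⟨hf, rfl⟩
      · simp only [hf, if_false]
        exact Or.inr ⟨rfl, hcx.resolve_left hf⟩
    have h1 := key a ha.1 ha.2
    have h2 := key b hb.1 hb.2
    rw [← hab] at h2
    exact hs a ha.1 b hb.1 _ _ h1 h2
  · intro y hy
    rw [Finset.mem_filter] at hy
    obtain ⟨hyU, a, ha, h⟩ := hy
    obtain ⟨h1, h2, h3⟩ := hon a ha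
    refine ⟨a, ?_, ?_⟩
    · rw [Gr.mem_star]
      rcases h with ⟨h4, h5⟩ | ⟨h4, h5⟩
      · exact ⟨ha, Or.inl h4⟩
      · exact ⟨ha, Or.inr h5⟩
    · rcases h with ⟨h4, h5⟩ | ⟨h4, h5⟩
      · simp only [h4, if_true]
        exact h5
      · have : G.f a ≠ x := by rw [← h5]; exact h3
        simp only [this, if_false]
        exact h4

lemma IsK33.deg {G : Gr α V} {E : Finset α} (h : IsK33 G E) {x : V} (hx : x ∈ G.U) :
    (G.star E x).card = 3 := by
  obtain ⟨hon, hs, A, B, hU, hd, hA, hB, hadj⟩ := h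
  have hAU : A ⊆ G.U := hU ▸ Finset.subset_union_left
  have hBU : B ⊆ G.U := hU ▸ Finset.subset_union_right
  rw [star_card_eq hon hs]
  have h0 : ∀ y, (∃ a ∈ E, (G.f a = x ∧ G.g a = y) ∨ (G.f a = y ∧ G.g a = x)) ↔ G.Adj E x y :=
    fun y => Iff.rfl
  have hx' : x ∈ A ∪ B := hU ▸ hx
  rw [Finset.mem_union] at hx'
  rcases hx' with h1 | h1
  · rw [← hB]
    congr 1
    ext y
    rw [Finset.mem_filter, h0]
    constructor
    · rintro ⟨hy, hxy⟩
      rcases (hadj x hx y hy).1 hxy with ⟨_, h2⟩ | ⟨h2, _⟩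
      · exact h2
      · exact absurd h2 (Finset.disjoint_left.1 hd h1)
    · intro hy
      exact ⟨hBU hy, (hadj x hx y (hBU hy)).2 (Or.inl ⟨h1, hy⟩)⟩
  · rw [← hA]
    congr 1
    ext y
    rw [Finset.mem_filter, h0]
    constructor
    · rintro ⟨hy, hxy⟩
      rcases (hadj x hx y hy).1 hxy with ⟨h2, _⟩ | ⟨_, h2⟩
      · exact absurd h1 (Finset.disjoint_left.1 hd h2)
      · exact h2
    · intro hy
      exact ⟨hAU hy, (hadj x hx y (hAU hy)).2 (Or.inr ⟨h1, hy⟩)⟩

lemma IsK5.deg {G : Gr α V} {E : Finset α} (h : IsK5 G E) {x : V} (hx : x ∈ G.U) :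
    (G.star E x).card = 4 := by
  obtain ⟨hon, hs, hU, hadj⟩ := h
  rw [star_card_eq hon hs]
  have h0 : ∀ y, (∃ a ∈ E, (G.f a = x ∧ G.g a = y) ∨ (G.f a = y ∧ G.g a = x)) ↔ G.Adj E x y :=
    fun y => Iff.rfl
  have h1 : (G.U.filter fun y => ∃ a ∈ E, (G.f a = x ∧ G.g a = y) ∨
      (G.f a = y ∧ G.g a = x)) = G.U.erase x := by
    ext y
    rw [Finset.mem_filter, Finset.mem_erase, h0]
    constructor
    · rintro ⟨hy, hxy⟩
      exact ⟨(hon.adj_mem hxy).2.2.symm, hy⟩
    · rintro ⟨hne, hy⟩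
      exact ⟨hy, hadj x hx y hy hne.symm⟩
  rw [h1, Finset.card_erase_of_mem hx, hU]

lemma sum_star_card {G : Gr α V} {E : Finset α} (hon : G.On E) :
    ∑ x ∈ G.U, (G.star E x).card = 2 * E.card := by
  have h1 : ∀ x ∈ G.U, (G.star E x).card = ∑ a ∈ E, if G.f a = x ∨ G.g a = x then 1 else 0 := by
    intro x _
    unfold Gr.star
    rw [Finset.card_filter]
  rw [Finset.sum_congr rfl h1, Finset.sum_comm]
  have h2 : ∀ a ∈ E, (∑ x ∈ G.U, if G.f a = x ∨ G.g a = x then 1 else 0) = 2 := by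
    intro a ha
    obtain ⟨h1, h2, h3⟩ := hon a ha
    rw [← Finset.card_filter]
    have : G.U.filter (fun x => G.f a = x ∨ G.g a = x) = {G.f a, G.g a} := by
      ext x
      rw [Finset.mem_filter, Finset.mem_insert, Finset.mem_singleton]
      constructor
      · rintro ⟨_, h | h⟩
        · exact Or.inl h.symm
        · exact Or.inr h.symm
      · rintro (h | h)
        · exact ⟨h ▸ h1, Or.inl h.symm⟩
        · exact ⟨h ▸ h2, Or.inr h.symm⟩
    rw [this, Finset.card_pair h3]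
  rw [Finset.sum_congr rfl h2, Finset.sum_const, smul_eq_mul, mul_comm]

private lemma IsK33.card_U {G : Gr α V} {E : Finset α} (h : IsK33 G E) : G.U.card = 6 := by
  obtain ⟨hon, hs, A, B, hU, hd, hA, hB, hadj⟩ := h
  rw [← hU, Finset.card_union_of_disjoint hd, hA, hB]

lemma IsK33.card {G : Gr α V} {E : Finset α} (h : IsK33 G E) : E.card = 9 := by
  have h1 := sum_star_card h.1
  rw [Finset.sum_congr rfl (fun x hx => h.deg hx), Finset.sum_const, h.card_U, smul_eq_mul] at h1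
  omega

lemma IsK5.card {G : Gr α V} {E : Finset α} (h : IsK5 G E) : E.card = 10 := by
  have h1 := sum_star_card h.1
  rw [Finset.sum_congr rfl (fun x hx => h.deg hx), Finset.sum_const, h.2.2.1, smul_eq_mul] at h1
  omega

/-- extension by zero of labellings -/
private def kaExt (U : Finset V) : (U → ZMod 2) →ₗ[ZMod 2] (V → ZMod 2) where
  toFun φ := fun v => if h : v ∈ U then φ ⟨v, h⟩ else 0
  map_add' φ ψ := by ext v; by_cases h : v ∈ U <;> simp [h]
  map_smul' c φ := by ext v; by_cases h : v ∈ U <;> simp [h]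

private lemma kaExt_apply {U : Finset V} {φ : U → ZMod 2} {v : V} (h : v ∈ U) :
    kaExt U φ v = φ ⟨v, h⟩ := by
  simp [kaExt, h]

private lemma ka_range {N : BM α} {G : Gr α V} (h : Rp N G) :
    LinearMap.range ((cob N.E G.f G.g).comp (kaExt G.U)) = N.D := by
  ext x
  constructor
  · rintro ⟨φ, rfl⟩
    rw [h.mem]
    exact ⟨kaExt G.U φ, fun a => rfl⟩
  · intro hx
    obtain ⟨φ, hφ⟩ := h.mem.1 hx
    refine ⟨fun v => φ v.1, ?_⟩
    ext a
    rw [hφ a, LinearMap.comp_apply, cob_apply]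
    by_cases ha : a ∈ N.E
    · obtain ⟨h1, h2, _⟩ := h.on a ha
      rw [if_pos ha, if_pos ha, kaExt_apply h1, kaExt_apply h2]
    · rw [if_neg ha, if_neg ha]

private lemma ka_one_mem {N : BM α} {G : Gr α V} (h : Rp N G) :
    (fun _ => 1 : G.U → ZMod 2) ∈ LinearMap.ker ((cob N.E G.f G.g).comp (kaExt G.U)) := by
  rw [LinearMap.mem_ker]
  ext a
  rw [LinearMap.comp_apply, cob_apply]
  by_cases ha : a ∈ N.E
  · obtain ⟨h1, h2, _⟩ := h.on a ha
    rw [if_pos ha, kaExt_apply h1, kaExt_apply h2]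
    exact CharTwo.add_self_eq_zero _
  · rw [if_neg ha]; rfl

private lemma ka_finrank {N : BM α} {G : Gr α V} (h : Rp N G) :
    N.rk N.E + Module.finrank (ZMod 2)
      (LinearMap.ker ((cob N.E G.f G.g).comp (kaExt G.U))) = G.U.card := by
  have h1 := LinearMap.finrank_range_add_finrank_ker ((cob N.E G.f G.g).comp (kaExt G.U))
  rw [ka_range h] at h1
  rw [N.rk_E, h1]
  simp

/-- `dim D + 1 ≤ |U|` -/
lemma Rp.rk_lt {N : BM α} {G : Gr α V} (h : Rp N G) (hU : G.U.Nonempty) :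
    N.rk N.E + 1 ≤ G.U.card := by
  have h1 := ka_finrank h
  have h2 : 1 ≤ Module.finrank (ZMod 2)
      (LinearMap.ker ((cob N.E G.f G.g).comp (kaExt G.U))) := by
    obtain ⟨u, hu⟩ := hU
    refine Module.finrank_pos_iff_exists_ne_zero.2 ⟨⟨_, ka_one_mem h⟩, ?_⟩
    intro h3
    have h4 := congrArg Subtype.val h3
    have h5 := congrFun h4 ⟨u, hu⟩
    exact one_ne_zero h5
  omega

/-- the rank of a graph without 2-vertex-cuts (connected) -/
lemma Rp.rk_of_vc {N : BM α} {G : Gr α V} (h : Rp N G) (hvc : G.VC N.E ∅) (hU : G.U.Nonempty) :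
    N.rk N.E + 1 = G.U.card := by
  have h1 := ka_finrank h
  have h0 := h.rk_lt hU
  have h2 : Module.finrank (ZMod 2)
      (LinearMap.ker ((cob N.E G.f G.g).comp (kaExt G.U))) ≤ 1 := by
    rw [finrank_le_one_iff]
    refine ⟨⟨_, ka_one_mem h⟩, ?_⟩
    rintro ⟨φ, hφ⟩
    rw [LinearMap.mem_ker] at hφ
    have h3 : ∀ a ∈ N.E, kaExt G.U φ (G.f a) = kaExt G.U φ (G.g a) := by
      intro a ha
      have h4 := congrFun hφ a
      rw [LinearMap.comp_apply, cob_apply, if_pos ha] at h4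
      exact CharTwo.add_eq_zero.1 h4
    have h5 := hvc (G.U.filter fun v => kaExt G.U φ v = 1) (G.U.filter fun v => kaExt G.U φ v = 0)
      (by
        ext v
        rw [Finset.mem_union, Finset.mem_filter, Finset.mem_filter]
        constructor
        · rintro (h | h) <;> exact h.1
        · intro hv
          rcases zmod2_cases (kaExt G.U φ v) with h6 | h6
          · exact Or.inr ⟨hv, h6⟩
          · exact Or.inl ⟨hv, h6⟩)
      (by
        have : (G.U.filter fun v => kaExt G.U φ v = 1) ∩ (G.U.filter fun v => kaExt G.U φ v = 0)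
            = ∅ := by
          ext v
          rw [Finset.mem_inter, Finset.mem_filter, Finset.mem_filter]
          constructor
          · rintro ⟨⟨_, h6⟩, _, h7⟩
            rw [h6] at h7
            exact absurd h7 one_ne_zero
          · intro h; simp at h
        rw [this]; simp)
      (by
        intro a ha
        obtain ⟨h6, h7, _⟩ := h.on a ha
        have h8 := h3 a ha
        rcases zmod2_cases (kaExt G.U φ (G.f a)) with h9 | h9
        · right
          simp only [Finset.mem_filter]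
          exact ⟨⟨h6, h9⟩, h7, by rw [← h8, h9]⟩
        · left
          simp only [Finset.mem_filter]
          exact ⟨⟨h6, h9⟩, h7, by rw [← h8, h9]⟩)
    rcases h5 with h5 | h5
    · refine ⟨0, ?_⟩
      apply Subtype.ext
      ext v
      simp only [zero_smul]
      rcases zmod2_cases (φ v) with h6 | h6
      · rw [h6]; rfl
      · exfalso
        have h7 : v.1 ∈ (G.U.filter fun v => kaExt G.U φ v = 1) \
            (G.U.filter fun v => kaExt G.U φ v = 0) := by
          rw [Finset.mem_sdiff, Finset.mem_filter, Finset.mem_filter, kaExt_apply v.2]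
          exact ⟨⟨v.2, h6⟩, fun h8 => by rw [h6] at h8; exact absurd h8.2 one_ne_zero⟩
        have := h5 h7
        simp at this
    · refine ⟨1, ?_⟩
      apply Subtype.ext
      ext v
      simp only [one_smul]
      rcases zmod2_cases (φ v) with h6 | h6
      · exfalso
        have h7 : v.1 ∈ (G.U.filter fun v => kaExt G.U φ v = 0) \
            (G.U.filter fun v => kaExt G.U φ v = 1) := by
          rw [Finset.mem_sdiff, Finset.mem_filter, Finset.mem_filter, kaExt_apply v.2]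
          exact ⟨⟨v.2, h6⟩, fun h8 => by rw [h6] at h8; exact absurd h8.2 zero_ne_one⟩
        have := h5 h7
        simp at this
      · exact h6.symm
  omega

lemma IsK33.rk {N : BM α} {G : Gr α V} (h : Rp N G) (hk : IsK33 G N.E) : N.rk N.E = 5 := by
  have h1 := hk.card_U
  have h2 := h.rk_of_vc hk.vc (Finset.card_pos.1 (by omega))
  omega

lemma IsK5.rk {N : BM α} {G : Gr α V} (h : Rp N G) (hk : IsK5 G N.E) : N.rk N.E = 4 := by
  have h1 := hk.2.2.1
  have h2 := h.rk_of_vc hk.vc (Finset.card_pos.1 (by omega))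
  omega

private lemma ka_noloop {N : BM α} {G : Gr α V} (h : Rp N G) (hvc : G.VC N.E ∅)
    (hdeg : ∀ x ∈ G.U, 2 ≤ (G.star N.E x).card) : ∀ a ∈ N.dual.E, ∃ x ∈ N.dual.D, x a ≠ 0 := by
  intro a ha
  have haE : a ∈ N.E := ha
  by_contra hcon
  push Not at hcon
  have h1 : ind {a} ∈ N.D := by
    rw [← N.dual_dual, LM.mem_dual]
    refine ⟨fun b hb => ?_, fun x hx => ?_⟩
    · rw [ind_apply, if_neg]
      rw [Finset.mem_singleton]
      rintro rfl
      exact hb haE
    · apply Finset.sum_eq_zero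
      intro b _
      rw [ind_apply]
      split_ifs with h2
      · rw [Finset.mem_singleton.1 h2, hcon x hx, zero_mul]
      · rw [mul_zero]
  obtain ⟨φ, hφ⟩ := h.mem.1 h1
  obtain ⟨hfa, hga, hfg⟩ := h.on a haE
  have hne : φ (G.f a) ≠ φ (G.g a) := by
    intro h2
    have h3 := hφ a
    rw [if_pos haE, h2, CharTwo.add_self_eq_zero, ind_apply, if_pos (Finset.mem_singleton_self a)]
      at h3
    exact one_ne_zero h3
  have heq : ∀ b ∈ N.E, b ≠ a → φ (G.f b) = φ (G.g b) := by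
    intro b hb hba
    have h3 := hφ b
    rw [if_pos hb, ind_apply, if_neg (by rw [Finset.mem_singleton]; exact hba)] at h3
    exact CharTwo.add_eq_zero.1 h3.symm
  have htwo : ∀ v, φ v = φ (G.f a) ∨ φ v = φ (G.g a) := by
    intro v
    rcases zmod2_cases (φ v) with h2 | h2 <;> rcases zmod2_cases (φ (G.f a)) with h3 | h3 <;>
      rcases zmod2_cases (φ (G.g a)) with h4 | h4 <;> rw [h2, h3, h4] <;> first
        | exact Or.inl rfl | exact Or.inr rfl | exact absurd (h3.trans h4.symm) hne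
  have h5 := hvc (G.U.filter fun v => φ v = φ (G.f a))
    ((G.U.filter fun v => φ v = φ (G.g a)) ∪ {G.f a})
    (by
      ext v
      simp only [Finset.mem_union, Finset.mem_filter, Finset.mem_singleton]
      constructor
      · rintro (h | h | h)
        · exact h.1
        · exact h.1
        · exact h ▸ hfa
      · intro hv
        rcases htwo v with h6 | h6
        · exact Or.inl ⟨hv, h6⟩
        · exact Or.inr (Or.inl ⟨hv, h6⟩))
    (by
      have : (G.U.filter fun v => φ v = φ (G.f a)) ∩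
          ((G.U.filter fun v => φ v = φ (G.g a)) ∪ {G.f a}) ⊆ {G.f a} := by
        intro v
        simp only [Finset.mem_union, Finset.mem_filter, Finset.mem_singleton, Finset.mem_inter]
        rintro ⟨⟨_, h6⟩, ⟨_, h7⟩ | h7⟩
        · exact absurd (h6.symm.trans h7) hne
        · exact h7
      have := Finset.card_le_card this
      rw [Finset.card_singleton] at this
      omega)
    (by
      intro b hb
      simp only [Finset.mem_union, Finset.mem_filter, Finset.mem_singleton]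
      obtain ⟨h6, h7, _⟩ := h.on b hb
      by_cases hba : b = a
      · subst hba
        exact Or.inr ⟨Or.inr rfl, Or.inl ⟨h7, rfl⟩⟩
      · have h8 := heq b hb hba
        rcases htwo (G.f b) with h9 | h9
        · exact Or.inl ⟨⟨h6, h9⟩, h7, by rw [← h8, h9]⟩
        · exact Or.inr ⟨Or.inl ⟨h6, h9⟩, Or.inl ⟨h7, by rw [← h8, h9]⟩⟩)
  rcases h5 with h5 | h5
  · -- `P ⊆ {f a}`
    have hP : ∀ v ∈ G.U, φ v = φ (G.f a) → v = G.f a := by
      intro v hv hφv
      by_contra hva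
      have h6 : v ∈ (G.U.filter fun v => φ v = φ (G.f a)) \
          ((G.U.filter fun v => φ v = φ (G.g a)) ∪ {G.f a}) := by
        simp only [Finset.mem_union, Finset.mem_filter, Finset.mem_singleton, Finset.mem_sdiff]
        refine ⟨⟨hv, hφv⟩, ?_⟩
        rintro (⟨_, h7⟩ | h7)
        · exact hne (hφv.symm.trans h7)
        · exact hva h7
      have := h5 h6
      simp at this
    have h6 := hdeg _ hfa
    obtain ⟨b, hb, hba⟩ := Finset.exists_mem_ne (by omega : 1 < (G.star N.E (G.f a)).card) a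
    rw [Gr.mem_star] at hb
    obtain ⟨hbE, hb⟩ := hb
    obtain ⟨h7, h8, h9⟩ := h.on b hbE
    have h10 := heq b hbE hba
    rcases hb with hb | hb
    · rw [hb] at h10
      exact h9 (by rw [hP _ h8 h10.symm, hb])
    · rw [hb] at h10
      exact h9 (by rw [hP _ h7 h10, hb])
  · have h6 : G.g a ∈ ((G.U.filter fun v => φ v = φ (G.g a)) ∪ {G.f a}) \
        (G.U.filter fun v => φ v = φ (G.f a)) := by
      simp only [Finset.mem_union, Finset.mem_filter, Finset.mem_singleton, Finset.mem_sdiff]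
      exact ⟨Or.inl ⟨hga, trivial⟩, fun h7 => hne h7.2.symm⟩
    have := h5 h6
    simp at this

private lemma ka_even {N : BM α} {G : Gr α V} (h : Rp N G) {Z : Finset α} (hZ : Z ⊆ N.E)
    (hZD : ind Z ∈ N.dual.D) {a : α} (ha : a ∈ Z) {x : V} (hx : G.f a = x ∨ G.g a = x) :
    ∃ b ∈ Z, b ≠ a ∧ (G.f b = x ∨ G.g b = x) := by
  by_contra hcon
  push Not at hcon
  have h1 := ((LM.mem_dual N).1 hZD).2 _ (h.star_mem x)
  rw [Finset.sum_eq_single a] at h1
  · rw [ind_apply, ind_apply, if_pos ha, if_pos (Gr.mem_star.2 ⟨hZ ha, hx⟩), mul_one] at h1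
    exact one_ne_zero h1
  · intro b _ hba
    rw [ind_apply, ind_apply]
    by_cases hbZ : b ∈ Z
    · rw [if_neg, zero_mul]
      intro hb
      rw [Gr.mem_star] at hb
      obtain ⟨h2, h3⟩ := hcon b hbZ hba
      rcases hb.2 with h4 | h4
      · exact h2 h4
      · exact h3 h4
    · rw [if_neg hbZ, mul_zero]
  · intro h2
    exact absurd (hZ ha) h2

private lemma ka_jn {G : Gr α V} {a : α} {x : V} (hx : G.f a = x ∨ G.g a = x) :
    ∃ y, G.Jn a x y := by
  rcases hx with h | h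
  · exact ⟨G.g a, Or.inl ⟨h, rfl⟩⟩
  · exact ⟨G.f a, Or.inr ⟨rfl, h⟩⟩

private lemma ka_jn2 {G : Gr α V} {a : α} {x y : V} (hx : G.f a = x ∨ G.g a = x)
    (hy : G.f a = y ∨ G.g a = y) (hxy : x ≠ y) : G.Jn a x y := by
  rcases hx with h | h <;> rcases hy with h' | h'
  · exact absurd (h.symm.trans h') hxy
  · exact Or.inl ⟨h, h'⟩
  · exact Or.inr ⟨h', h⟩
  · exact absurd (h.symm.trans h') hxy

private lemma ka_jn_end {G : Gr α V} {a : α} {x y : V} (h : G.Jn a x y) :
    G.f a = y ∨ G.g a = y := by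
  rcases h with ⟨_, h⟩ | ⟨h, _⟩
  · exact Or.inr h
  · exact Or.inl h

/-- three edges of a cycle -/
private lemma ka_three {N : BM α} {G : Gr α V} (h : Rp N G) (hs : G.Simple N.E) {Z : Finset α}
    (hZ : Z ⊆ N.E) (hZD : ind Z ∈ N.dual.D) (hne : Z.Nonempty) :
    ∃ a ∈ Z, ∃ b ∈ Z, ∃ c ∈ Z, ∃ y, a ≠ b ∧ a ≠ c ∧ b ≠ c ∧ G.Jn b (G.f a) y ∧ y ≠ G.g a ∧
      y ≠ G.f a ∧ (G.f c = G.g a ∨ G.g c = G.g a) := by
  obtain ⟨a, ha⟩ := hne
  obtain ⟨h1, h2, h3⟩ := h.on a (hZ ha)
  obtain ⟨b, hb, hba, hbx⟩ := ka_even h hZ hZD ha (Or.inl rfl)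
  obtain ⟨c, hc, hca, hcx⟩ := ka_even h hZ hZD ha (Or.inr rfl)
  obtain ⟨y, hy⟩ := ka_jn hbx
  have h4 : y ≠ G.g a := by
    intro h4
    rw [h4] at hy
    exact hba (hs b (hZ hb) a (hZ ha) _ _ hy (Or.inl ⟨rfl, rfl⟩))
  have h5 : y ≠ G.f a := (h.on.jn_mem (hZ hb) hy).2.2.symm
  refine ⟨a, ha, b, hb, c, hc, y, hba.symm, hca.symm, ?_, hy, h4, h5, hcx⟩
  rintro rfl
  exact hba (hs b (hZ hb) a (hZ ha) _ _ (ka_jn2 hbx hcx h3) (Or.inl ⟨rfl, rfl⟩))

private lemma ka_cycle5 {N : BM α} {G : Gr α V} (h : Rp N G) (hs : G.Simple N.E) {Z : Finset α}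
    (hZ : Z ⊆ N.E) (hZD : ind Z ∈ N.dual.D) (hne : Z.Nonempty) : 3 ≤ Z.card := by
  obtain ⟨a, ha, b, hb, c, hc, y, hab, hac, hbc, -⟩ := ka_three h hs hZ hZD hne
  have h1 : ({a, b, c} : Finset α) ⊆ Z := by
    intro d hd
    simp only [Finset.mem_insert, Finset.mem_singleton] at hd
    rcases hd with rfl | rfl | rfl <;> assumption
  have h2 : ({a, b, c} : Finset α).card = 3 := by
    rw [Finset.card_insert_of_notMem, Finset.card_pair hbc]
    simp [hab, hac]
  rw [← h2]
  exact Finset.card_le_card h1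

private lemma ka_cycle33 {N : BM α} {G : Gr α V} (h : Rp N G) (hk : IsK33 G N.E) {Z : Finset α}
    (hZ : Z ⊆ N.E) (hZD : ind Z ∈ N.dual.D) (hne : Z.Nonempty) : 4 ≤ Z.card := by
  obtain ⟨hon, hs, A, B, hU, hd, hA, hB, hadj⟩ := hk
  obtain ⟨a, ha, b, hb, c, hc, y, hab, hac, hbc, hjb, hya, hyf, hcx⟩ := ka_three h hs hZ hZD hne
  obtain ⟨d, hd', hdb, hdy⟩ := ka_even h hZ hZD hb (ka_jn_end hjb)
  obtain ⟨h1, h2, h3⟩ := h.on a (hZ ha)
  have hyU : y ∈ G.U := (h.on.jn_mem (hZ hb) hjb).2.1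
  have had : a ≠ d := by
    rintro rfl
    rcases hdy with h4 | h4
    · exact hyf h4.symm
    · exact hya h4.symm
  have hcd : c ≠ d := by
    rintro rfl
    have h4 : G.Adj N.E (G.g a) y := ⟨c, hZ hc, ka_jn2 hcx hdy hya.symm⟩
    have h5 : G.Adj N.E (G.f a) y := ⟨b, hZ hb, hjb⟩
    have h6 : G.Adj N.E (G.f a) (G.g a) := ⟨a, hZ ha, Or.inl ⟨rfl, rfl⟩⟩
    have h4' := (hadj _ h2 _ hyU).1 h4
    have h5' := (hadj _ h1 _ hyU).1 h5
    have h6' := (hadj _ h1 _ h2).1 h6
    have hdis : ∀ v, v ∈ A → v ∈ B → False := fun v hv hv' => Finset.disjoint_left.1 hd hv hv'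
    rcases h4' with h4' | h4' <;> rcases h5' with h5' | h5' <;> rcases h6' with h6' | h6' <;>
      first
        | exact hdis _ h4'.1 h6'.2
        | exact hdis _ h6'.2 h4'.1
        | exact hdis _ h4'.2 h5'.2
        | exact hdis _ h5'.2 h4'.2
        | exact hdis _ h5'.1 h6'.1
        | exact hdis _ h6'.1 h5'.1
  have h7 : ({a, b, c, d} : Finset α) ⊆ Z := by
    intro e he
    simp only [Finset.mem_insert, Finset.mem_singleton] at he
    rcases he with rfl | rfl | rfl | rfl <;> assumption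
  have h8 : ({a, b, c, d} : Finset α).card = 4 := by
    rw [Finset.card_insert_of_notMem, Finset.card_insert_of_notMem, Finset.card_pair hcd]
    · simp [hbc, hdb.symm]
    · simp [hab, hac, had]
  rw [← h8]
  exact Finset.card_le_card h7

private lemma ka_not_cographic {N : BM α} {G : Gr α V} (h : Rp N G) (hvc : G.VC N.E ∅)
    (hdeg : ∀ x ∈ G.U, 2 ≤ (G.star N.E x).card) (hE : N.E.Nonempty) (m : ℕ)
    (hm : ∀ Z : Finset α, Z ⊆ N.E → ind Z ∈ N.dual.D → Z.Nonempty → m ≤ Z.card)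
    (hcard : 2 * N.E.card < m * (N.E.card - N.rk N.E + 1)) : ¬ Cographic N := by
  intro hc
  obtain ⟨n, G', hR', hne'⟩ := exists_rp (N := N.dual) hc (ka_noloop h hvc hdeg)
  obtain ⟨a, ha⟩ := hE
  have hU : G'.U.Nonempty := ⟨_, (hR'.on a ha).1⟩
  have h1 := hR'.rk_lt hU
  have h2 := N.rk_dual N.E (Finset.Subset.refl _)
  rw [Finset.sdiff_self, LM.rk_empty] at h2
  have h3 : N.dual.rk N.dual.E = N.dual.rk N.E := rfl
  have h4 := sum_star_card hR'.on
  have h5 : G'.U.card * m ≤ ∑ x ∈ G'.U, (G'.star N.dual.E x).card := by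
    rw [← smul_eq_mul]
    apply Finset.card_nsmul_le_sum
    intro x hx
    exact hm _ (Finset.filter_subset _ _) (hR'.star_mem x) (hne' x hx)
  have h6 : N.dual.E.card = N.E.card := rfl
  rw [h4, h6] at h5
  have h7 : N.E.card - N.rk N.E + 1 ≤ G'.U.card := by omega
  have h8 : m * (N.E.card - N.rk N.E + 1) ≤ G'.U.card * m := by
    rw [mul_comm]
    exact Nat.mul_le_mul_right m h7
  omega

lemma IsK33.not_cographic {N : BM α} {G : Gr α V} (h : Rp N G) (hk : IsK33 G N.E) :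
    ¬ Cographic N := by
  refine ka_not_cographic h hk.vc (fun x hx => by rw [hk.deg hx]; omega)
    (Finset.card_pos.1 (by rw [hk.card]; omega)) 4
    (fun Z hZ hZD hne => ka_cycle33 h hk hZ hZD hne) ?_
  rw [hk.card, hk.rk h]
  norm_num

lemma IsK5.not_cographic {N : BM α} {G : Gr α V} (h : Rp N G) (hk : IsK5 G N.E) :
    ¬ Cographic N := by
  refine ka_not_cographic h hk.vc (fun x hx => by rw [hk.deg hx]; omega)
    (Finset.card_pos.1 (by rw [hk.card]; omega)) 3
    (fun Z hZ hZD hne => ka_cycle5 h hk.2.1 hZ hZD hne) ?_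
  rw [hk.card, hk.rk h]
  norm_num

/-- the matroid has a minor `N` (contract `C`, delete `D`) with cycle matroid `K33` or `K5` -/
def KurMinor (N : BM α) (C D : Finset α) : Prop :=
  Disjoint C D ∧ C ⊆ N.E ∧ D ⊆ N.E ∧ ∃ (n : ℕ) (G : Gr α (Fin n)),
    Rp ((N.con C).del D) G ∧ (IsK33 G ((N.con C).del D).E ∨ IsK5 G ((N.con C).del D).E)

/-- `N \ f` and `N / f` are both cographic -/
def Rigid (N : BM α) (f : α) : Prop := Cographic (N.del {f}) ∧ Cographic (N.con {f})

private lemma ka_kur {N : BM α} {C D : Finset α} (h : KurMinor N C D) :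
    ¬ Cographic ((N.con C).del D) := by
  obtain ⟨_, _, _, n, G, hR, h33 | h5⟩ := h
  · exact h33.not_cographic hR
  · exact h5.not_cographic hR

/-- `K33` and `K5` are not cographic, so rigid elements are neither contracted nor deleted in a
Kuratowski minor (`Cographic` is minor closed) -/
lemma KurMinor.not_rigid {N : BM α} {C D : Finset α} (h : KurMinor N C D) {f : α}
    (hf : f ∈ C ∪ D) : ¬ Rigid N f := by
  intro hr
  have hn := ka_kur h
  have hCD := h.1
  apply hn
  rw [Finset.mem_union] at hf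
  rcases hf with hf | hf
  · have h1 : N.con C = (N.con {f}).con C := by
      rw [LM.con_con]
      congr 1
      exact (Finset.union_eq_right.2 (Finset.singleton_subset_iff.2 hf)).symm
    rw [h1]
    exact Pool.Agent.H87.Sey.cographic_minor hr.2 ⟨C, D, hCD, rfl⟩
  · have hfC : f ∉ C := fun h' => Finset.disjoint_left.1 hCD h' hf
    have h1 : (N.con C).del D = ((N.del {f}).con C).del D := by
      rw [← LM.con_del _ (Finset.disjoint_singleton_right.2 hfC), LM.del_del]
      congr 1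
      exact (Finset.union_eq_right.2 (Finset.singleton_subset_iff.2 hf)).symm
    rw [h1]
    exact Pool.Agent.H87.Sey.cographic_minor hr.1 ⟨C, D, hCD, rfl⟩

lemma KurMinor.not_cographic {N : BM α} {C D : Finset α} (h : KurMinor N C D) :
    ¬ Cographic N := by
  intro hc
  exact ka_kur h (Pool.Agent.H87.Sey.cographic_minor hc ⟨C, D, h.1, rfl⟩)

end Pool.Agent.H53.Sey
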