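import Pool.Agent.H53.Sey.KurB
import Pool.Agent.H53.Sey.PatB
import Pool.Agent.H87.Sey.Pl
import Pool.Agent.H87.Sey.TutD
import Pool.Agent.H63.Sey.FinC

/-!
# Facts proved elsewhere (helper87: `pl_del`, `pl_con`, `tutte`; helper63: `r10_dual`)
-/

set_option autoImplicit false

namespace Pool.Agent.H53.Sey

open Pool.Agent.H63.Sey

universe u v w

variable {α : Type u} [DecidableEq α]

/-- (Pl): `K` 3-connected, `K / f` cographic, `K \ f` not cographic, then `K \ f` is good -/
theorem pl_del {K : BM α} (h : K.Conn3) {f : α} (hf : f ∈ K.E) (hc : Cographic (K.con {f}))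
    (hn : ¬ Cographic (K.del {f})) : Good (K.del {f}) :=
  Pool.Agent.H87.Sey.pl_del Pool.Agent.H87.Sey.sumClosed_cographic h hf hc hn

/-- (Pl), the other form -/
theorem pl_con {K : BM α} (h : K.Conn3) {f : α} (hf : f ∈ K.E) (hc : Cographic (K.del {f}))
    (hn : ¬ Cographic (K.con {f})) : Good (K.con {f}) :=
  Pool.Agent.H87.Sey.pl_con Pool.Agent.H87.Sey.sumClosed_cographic h hf hc hn

/-- Tutte's theorem for regular matroids -/
theorem tutte {M : BM α} (hM : Regular M) (h : ¬ Graphic M) : HasK33s M ∨ HasK5s M :=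
  Pool.Agent.H87.Sey.tutte' hM h

theorem tutte_dual {M : BM α} (hM : Regular M) (h : ¬ Cographic M) : HasK33 M ∨ HasK5 M := by
  rcases tutte (M := M.dual) hM.dual h with ⟨ι, hι, h1⟩ | ⟨ι, hι, h1⟩
  · refine Or.inl ⟨ι, hι, ?_⟩
    have h2 := h1.dual
    rwa [← k33_dual hι, LM.dual_dual, LM.dual_dual] at h2
  · refine Or.inr ⟨ι, hι, ?_⟩
    have h2 := h1.dual
    rwa [LM.dual_dual, LM.dual_dual] at h2

theorem r10_dual {M : BM α} (h : IsR10 M.dual) : IsR10 M := by
  have h1 := isR10_dual h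
  rwa [LM.dual_dual] at h1

end Pool.Agent.H53.Sey
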