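import Mathlib

/-!
# Finite set combinatorics of the coset condition (job SEYG-D2)

All sets of the form `T ∆ {c} ∆ {c'} ∆ ...` have an even number of elements, so they are empty or have
two elements; two of them differ by a sum (symmetric difference) of some of the given pairs.
* `finset_coset_one`: `|T| ≤ 3`; if `|T| = 3` then `|T ∆ {x}| ≤ 2` forces `x ∈ T`.
* `finset_coset_two`: let `X = T ∆ {x} ∆ {x'}`; `X`, `X ∆ {x, y}`, `X ∆ {x', y'}`, `X ∆ {x, y} ∆ {x', y'}`
  all have at most two elements. Distinguish whether the pairs are disjoint or share a vertex.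
* `finset_coset_three`: if the three pairs do not form a triangle, they are linearly independent
  (a forest with three edges), and one of the eight sets has at least four elements. If they form a
  triangle `{p, q, r}` then the eight sets contain `X ∆ Z` for all even subsets `Z` of `{p, q, r}`,
  so `X ⊆ {p, q, r}`, so `T ⊆ {p, q, r}`.
All three statements have been checked by computer for `T` inside a set with 8 elements. One way to
prove them: `T` has at most 5 elements, so everything happens in a finite set with at most 11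
elements; case distinctions on equalities and memberships, `Finset.card` of explicit sets.

The proofs below: `|T ∆ {c}|` is `|T| - 1` or `|T| + 1`. For two pairs, a set `T` with two elements
which is neither of the pairs misses an element `c` of the first and an element `c'` of the second,
so `c = c'` (otherwise `|T ∆ {c} ∆ {c'}| = 4`) and `T` is the symmetric difference of the pairs; a set
with four elements must contain `c ≠ c'`. For three pairs, apply the result for two pairs to
`T ∆ {x''}` and `T ∆ {y''}`: both are in the span of the first two pairs, and so is `{x'', y''}`.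
-/

set_option autoImplicit false

namespace Pool.Agent.H53.Sey

open scoped symmDiff

universe v

variable {V : Type v} [DecidableEq V]

lemma fcs_mem {A : Finset V} {c d : V} :
    d ∈ A ∆ {c} ↔ (d ∈ A ∧ d ≠ c) ∨ (d = c ∧ d ∉ A) := by
  simp [Finset.mem_symmDiff]

lemma fcs_card_in {A : Finset V} {c : V} (h : c ∈ A) : (A ∆ {c}).card + 1 = A.card := by
  have h1 : A ∆ {c} = A.erase c := by
    ext d
    rw [fcs_mem, Finset.mem_erase]
    constructor
    · rintro (⟨h1, h2⟩ | ⟨h1, h2⟩)
      · exact ⟨h2, h1⟩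
      · exact absurd (h1 ▸ h) h2
    · rintro ⟨h1, h2⟩
      exact Or.inl ⟨h2, h1⟩
  rw [h1, Finset.card_erase_add_one h]

lemma fcs_card_out {A : Finset V} {c : V} (h : c ∉ A) : (A ∆ {c}).card = A.card + 1 := by
  have h1 : A ∆ {c} = insert c A := by
    ext d
    rw [fcs_mem, Finset.mem_insert]
    constructor
    · rintro (⟨h1, h2⟩ | ⟨h1, h2⟩)
      · exact Or.inr h1
      · exact Or.inl h1
    · rintro (h1 | h1)
      · exact Or.inr ⟨h1, h1 ▸ h⟩
      · exact Or.inl ⟨h1, fun h2 => h (h2 ▸ h1)⟩
  rw [h1, Finset.card_insert_of_notMem h]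

lemma fcs_even {A : Finset V} {c : V} : Even (A ∆ {c}).card ↔ Odd A.card := by
  by_cases h : c ∈ A
  · have := fcs_card_in h
    rw [← this]
    exact ⟨fun h => h.add_one, fun h => by
      rcases Nat.even_or_odd (A ∆ {c}).card with h' | h'
      · exact h'
      · exact absurd h'.add_one (by simpa using h)⟩
  · have := fcs_card_out h
    rw [this]
    exact ⟨fun h => by
      rcases Nat.even_or_odd A.card with h' | h'
      · exact absurd h'.add_one (by simpa using h)
      · exact h', fun h => h.add_one⟩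

lemma fcs_two_out {T : Finset V} {c c' : V} (hne : c ≠ c') (h : c ∉ T) (h' : c' ∉ T) :
    (T ∆ {c} ∆ {c'}).card = T.card + 2 := by
  have h1 : c' ∉ T ∆ {c} := by
    rw [fcs_mem]
    rintro (⟨h1, h2⟩ | ⟨h1, h2⟩)
    · exact h' h1
    · exact hne h1.symm
  rw [fcs_card_out h1, fcs_card_out h]

lemma fcs_eq_card {T : Finset V} {c : V} : (T ∆ {c} ∆ {c}).card = T.card := by
  rw [symmDiff_assoc, symmDiff_self]
  congr 1
  exact symmDiff_bot T

lemma fcs_lower {T : Finset V} {c c' : V} : T.card ≤ (T ∆ {c} ∆ {c'}).card + 2 := by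
  have h1 : T.card ≤ (T ∆ {c}).card + 1 := by
    by_cases h : c ∈ T
    · exact (fcs_card_in h).ge
    · rw [fcs_card_out h]; omega
  have h2 : (T ∆ {c}).card ≤ (T ∆ {c} ∆ {c'}).card + 1 := by
    by_cases h : c' ∈ T ∆ {c}
    · exact (fcs_card_in h).ge
    · rw [fcs_card_out h]; omega
  omega

lemma fcs_four {T : Finset V} {c c' : V} (hT : T.card = 4) (h : (T ∆ {c} ∆ {c'}).card ≤ 2) :
    c ∈ T ∧ c' ∈ T ∧ c ≠ c' := by
  have hne : c ≠ c' := by
    rintro rfl
    rw [fcs_eq_card] at h
    omega
  have hc : c ∈ T := by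
    by_contra hc
    have h1 := fcs_card_out hc
    by_cases h2 : c' ∈ T ∆ {c}
    · have := fcs_card_in h2
      omega
    · have := fcs_card_out h2
      omega
  refine ⟨hc, ?_, hne⟩
  by_contra hc'
  have h1 := fcs_card_in hc
  have h2 : c' ∉ T ∆ {c} := by
    rw [fcs_mem]
    rintro (⟨h1, h2⟩ | ⟨h1, h2⟩)
    · exact hc' h1
    · exact hne h1.symm
  have := fcs_card_out h2
  omega

lemma finset_coset_one {T : Finset V} {x y : V} (hxy : x ≠ y) (hodd : Odd T.card)
    (h1 : (T ∆ {x}).card ≤ 2) (h2 : (T ∆ {y}).card ≤ 2) :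
    T.card = 1 ∨ ∃ z, z ≠ x ∧ z ≠ y ∧ T = {x, y, z} := by
  by_cases h0 : T.card = 1
  · exact Or.inl h0
  right
  have h3 : 3 ≤ T.card := by
    obtain ⟨k, hk⟩ := hodd
    omega
  have hx : x ∈ T := by
    by_contra hx
    have := fcs_card_out hx
    omega
  have hy : y ∈ T := by
    by_contra hy
    have := fcs_card_out hy
    omega
  have hc : T.card = 3 := by
    have := fcs_card_in hx
    omega
  have hye : y ∈ T.erase x := Finset.mem_erase.2 ⟨hxy.symm, hy⟩
  have hc2 : ((T.erase x).erase y).card = 1 := by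
    rw [Finset.card_erase_of_mem hye, Finset.card_erase_of_mem hx, hc]
  obtain ⟨z, hz⟩ := Finset.card_eq_one.1 hc2
  have hzm : z ∈ (T.erase x).erase y := by
    rw [hz]
    exact Finset.mem_singleton_self z
  have hzy : z ≠ y := (Finset.mem_erase.1 hzm).1
  have hzx : z ≠ x := (Finset.mem_erase.1 (Finset.mem_erase.1 hzm).2).1
  refine ⟨z, hzx, hzy, ?_⟩
  rw [← Finset.insert_erase hx, ← Finset.insert_erase hye, hz]

lemma finset_coset_two {T : Finset V} {x y x' y' : V} (hxy : x ≠ y) (hxy' : x' ≠ y')
    (hN : ({x, y} : Finset V) ≠ {x', y'}) (heven : Even T.card)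
    (h1 : (T ∆ {x} ∆ {x'}).card ≤ 2) (h2 : (T ∆ {x} ∆ {y'}).card ≤ 2)
    (h3 : (T ∆ {y} ∆ {x'}).card ≤ 2) (h4 : (T ∆ {y} ∆ {y'}).card ≤ 2) :
    T = ∅ ∨ T = {x, y} ∨ T = {x', y'} ∨ T = {x, y} ∆ {x', y'} := by
  have hall : ∀ c ∈ ({x, y} : Finset V), ∀ c' ∈ ({x', y'} : Finset V), (T ∆ {c} ∆ {c'}).card ≤ 2 := by
    intro c hc c' hc'
    simp only [Finset.mem_insert, Finset.mem_singleton] at hc hc'
    rcases hc with rfl | rfl <;> rcases hc' with rfl | rfl <;> assumption
  have hle : T.card ≤ 4 := by
    have := fcs_lower (T := T) (c := x) (c' := x')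
    omega
  obtain ⟨k, hk⟩ := heven
  have hcases : T.card = 0 ∨ T.card = 2 ∨ T.card = 4 := by omega
  rcases hcases with h0 | h0 | h0
  · exact Or.inl (Finset.card_eq_zero.1 h0)
  · right
    by_cases ha : T = {x, y}
    · exact Or.inl ha
    right
    by_cases hb : T = {x', y'}
    · exact Or.inl hb
    right
    -- an element of the first pair outside `T`
    have hca : ({x, y} : Finset V).card = 2 := Finset.card_pair hxy
    have hcb : ({x', y'} : Finset V).card = 2 := Finset.card_pair hxy'
    have hna : ∃ c ∈ ({x, y} : Finset V), c ∉ T := by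
      by_contra hcon
      push Not at hcon
      exact ha (Finset.eq_of_subset_of_card_le hcon (by omega)).symm
    have hnb : ∃ c ∈ ({x', y'} : Finset V), c ∉ T := by
      by_contra hcon
      push Not at hcon
      exact hb (Finset.eq_of_subset_of_card_le hcon (by omega)).symm
    have key : ∀ c ∈ ({x, y} : Finset V), ∀ c' ∈ ({x', y'} : Finset V), c ∉ T → c' ∉ T → c = c' := by
      intro c hc c' hc' h h'
      by_contra hne
      have h5 := fcs_two_out hne h h'
      have h6 := hall c hc c' hc'
      omega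
    obtain ⟨p, hpa, hpT⟩ := hna
    obtain ⟨p', hpb, hpT'⟩ := hnb
    have hpp : p = p' := key p hpa p' hpb hpT hpT'
    subst hpp
    -- every element of the pairs other than `p` is in `T`
    have hin : ∀ c ∈ ({x, y} : Finset V), c ≠ p → c ∈ T := by
      intro c hc hcp
      by_contra h
      exact hcp (key c hc p hpb h hpT)
    have hin' : ∀ c ∈ ({x', y'} : Finset V), c ≠ p → c ∈ T := by
      intro c hc hcp
      by_contra h
      exact hcp (key p hpa c hc hpT h).symm
    have hcard : (({x, y} : Finset V) ∆ {x', y'}).card = 2 := by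
      obtain ⟨q, hq⟩ : ∃ q, ({x, y} : Finset V) = {p, q} ∧ q ≠ p := by
        simp only [Finset.mem_insert, Finset.mem_singleton] at hpa
        rcases hpa with rfl | rfl
        · exact ⟨y, rfl, hxy.symm⟩
        · exact ⟨x, Finset.pair_comm _ _, hxy⟩
      obtain ⟨r, hr⟩ : ∃ q, ({x', y'} : Finset V) = {p, q} ∧ q ≠ p := by
        simp only [Finset.mem_insert, Finset.mem_singleton] at hpb
        rcases hpb with rfl | rfl
        · exact ⟨y', rfl, hxy'.symm⟩
        · exact ⟨x', Finset.pair_comm _ _, hxy'⟩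
      have hqr : q ≠ r := by
        rintro rfl
        exact hN (hq.1.trans hr.1.symm)
      have h7 : (({x, y} : Finset V) ∆ {x', y'}) = {q, r} := by
        rw [hq.1, hr.1]
        ext d
        have hqp := hq.2
        have hrp := hr.2
        simp only [Finset.mem_symmDiff, Finset.mem_insert, Finset.mem_singleton]
        constructor
        · rintro (⟨h5 | h5, h6⟩ | ⟨h5 | h5, h6⟩)
          · exact absurd (Or.inl h5) h6
          · exact Or.inl h5
          · exact absurd (Or.inl h5) h6
          · exact Or.inr h5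
        · rintro (rfl | rfl)
          · left
            exact ⟨Or.inr rfl, by rintro (h | h) <;> [exact hqp h; exact hqr h]⟩
          · right
            exact ⟨Or.inr rfl, by rintro (h | h) <;> [exact hrp h; exact hqr h.symm]⟩
      rw [h7, Finset.card_pair hqr]
    refine (Finset.eq_of_subset_of_card_le ?_ (by omega)).symm
    intro d hd
    rw [Finset.mem_symmDiff] at hd
    rcases hd with ⟨hd1, hd2⟩ | ⟨hd1, hd2⟩
    · exact hin d hd1 (fun h => hd2 (h ▸ hpb))
    · exact hin' d hd1 (fun h => hd2 (h ▸ hpa))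
  · right; right; right
    have hdisj : Disjoint ({x, y} : Finset V) {x', y'} := by
      rw [Finset.disjoint_left]
      intro c hc hc'
      exact (fcs_four h0 (hall c hc c hc')).2.2 rfl
    have hsub : ({x, y} : Finset V) ∪ {x', y'} ⊆ T := by
      intro c hc
      rw [Finset.mem_union] at hc
      rcases hc with hc | hc
      · exact (fcs_four h0 (hall c hc x' (by simp))).1
      · exact (fcs_four h0 (hall x (by simp) c hc)).2.1
    have hcard : (({x, y} : Finset V) ∪ {x', y'}).card = 4 := by
      rw [Finset.card_union_of_disjoint hdisj, Finset.card_pair hxy, Finset.card_pair hxy']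
    rw [← Finset.eq_of_subset_of_card_le hsub (by omega)]
    exact hdisj.symmDiff_eq_sup.symm

lemma fcs_span {P Q A B : Finset V} (hP : P = ∅ ∨ P = A ∨ P = B ∨ P = A ∆ B)
    (hQ : Q = ∅ ∨ Q = A ∨ Q = B ∨ Q = A ∆ B) :
    P ∆ Q = ∅ ∨ P ∆ Q = A ∨ P ∆ Q = B ∨ P ∆ Q = A ∆ B := by
  have hb : ∀ X : Finset V, X ∆ ∅ = X := fun X => symmDiff_bot X
  have hb' : ∀ X : Finset V, ∅ ∆ X = X := fun X => bot_symmDiff X
  have hs : ∀ X : Finset V, X ∆ X = ∅ := fun X => symmDiff_self X
  have h1 : ∀ X Y : Finset V, X ∆ (X ∆ Y) = Y := fun X Y => by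
    rw [← symmDiff_assoc, hs, hb']
  have h2 : ∀ X Y : Finset V, Y ∆ (X ∆ Y) = X := fun X Y => by
    rw [symmDiff_comm X Y, h1]
  rcases hP with rfl | rfl | rfl | rfl <;> rcases hQ with rfl | rfl | rfl | rfl
  · left; exact hs _
  · right; left; exact hb' _
  · right; right; left; exact hb' _
  · right; right; right; exact hb' _
  · right; left; exact hb _
  · left; exact hs _
  · right; right; right; rfl
  · right; right; left; exact h1 _ _
  · right; right; left; exact hb _
  · right; right; right; exact symmDiff_comm _ _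
  · left; exact hs _
  · right; left; exact h2 _ _
  · right; right; right; exact hb _
  · right; right; left; rw [symmDiff_comm, h1]
  · right; left; rw [symmDiff_comm, h2]
  · left; exact hs _

/-- the condition for three edges: they form a triangle (used in the proof that no triad passes
through `e`) -/
lemma finset_coset_three {T : Finset V} {x y x' y' x'' y'' : V} (hxy : x ≠ y) (hxy' : x' ≠ y')
    (hxy'' : x'' ≠ y'') (hN : ({x, y} : Finset V) ≠ {x', y'}) (hN' : ({x, y} : Finset V) ≠ {x'', y''})
    (hN'' : ({x', y'} : Finset V) ≠ {x'', y''}) (hodd : Odd T.card)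
    (h : ∀ c ∈ ({x, y} : Finset V), ∀ c' ∈ ({x', y'} : Finset V), ∀ c'' ∈ ({x'', y''} : Finset V),
      (T ∆ {c} ∆ {c'} ∆ {c''}).card ≤ 2) :
    ∃ p q r, p ≠ q ∧ p ≠ r ∧ q ≠ r ∧ ({x, y} : Finset V) ∪ {x', y'} ∪ {x'', y''} = {p, q, r} ∧
      T ⊆ {p, q, r} := by
  have hre : ∀ c c' c'' : V, T ∆ {c''} ∆ {c} ∆ {c'} = T ∆ {c} ∆ {c'} ∆ {c''} := by
    intro c c' c''
    rw [symmDiff_assoc (T ∆ {c''}), symmDiff_assoc T {c''},
      symmDiff_comm ({c''} : Finset V) (({c} : Finset V) ∆ {c'}), ← symmDiff_assoc,
      ← symmDiff_assoc]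
  have key : ∀ c'' ∈ ({x'', y''} : Finset V), T ∆ {c''} = ∅ ∨ T ∆ {c''} = {x, y} ∨
      T ∆ {c''} = {x', y'} ∨ T ∆ {c''} = {x, y} ∆ {x', y'} := by
    intro c'' hc''
    refine finset_coset_two hxy hxy' hN (fcs_even.2 hodd) ?_ ?_ ?_ ?_ <;>
    · rw [hre]
      exact h _ (by simp) _ (by simp) _ hc''
  have kx := key x'' (by simp)
  have ky := key y'' (by simp)
  have hpair : (T ∆ {x''}) ∆ (T ∆ {y''}) = {x'', y''} := by
    have h1 : (T ∆ {x''}) ∆ (T ∆ {y''}) = {x''} ∆ {y''} := by
      rw [symmDiff_comm T {x''}, symmDiff_assoc, ← symmDiff_assoc T T, symmDiff_self]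
      exact congrArg _ (bot_symmDiff _)
    rw [h1]
    ext d
    simp only [Finset.mem_symmDiff, Finset.mem_insert, Finset.mem_singleton]
    constructor
    · rintro (⟨h1, _⟩ | ⟨h1, _⟩)
      · exact Or.inl h1
      · exact Or.inr h1
    · rintro (rfl | rfl)
      · exact Or.inl ⟨rfl, hxy''⟩
      · exact Or.inr ⟨rfl, fun h => hxy'' h.symm⟩
  have hsp := fcs_span kx ky
  rw [hpair] at hsp
  have hc : ({x'', y''} : Finset V) = {x, y} ∆ {x', y'} := by
    rcases hsp with h1 | h1 | h1 | h1
    · exact absurd h1 (Finset.insert_ne_empty _ _)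
    · exact absurd h1.symm hN'
    · exact absurd h1.symm hN''
    · exact h1
  -- the pairs share an element
  have hca : ({x, y} : Finset V).card = 2 := Finset.card_pair hxy
  have hcb : ({x', y'} : Finset V).card = 2 := Finset.card_pair hxy'
  have hcc : ({x'', y''} : Finset V).card = 2 := Finset.card_pair hxy''
  obtain ⟨p, hpa, hpb⟩ : ∃ p, p ∈ ({x, y} : Finset V) ∧ p ∈ ({x', y'} : Finset V) := by
    by_contra hcon
    push Not at hcon
    have hdisj : Disjoint ({x, y} : Finset V) {x', y'} := Finset.disjoint_left.2 hcon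
    have h1 : ({x, y} : Finset V) ∆ {x', y'} = {x, y} ∪ {x', y'} := hdisj.symmDiff_eq_sup
    rw [h1] at hc
    have h2 := congrArg Finset.card hc
    rw [Finset.card_union_of_disjoint hdisj] at h2
    omega
  obtain ⟨q, hq, hqp⟩ : ∃ q, ({x, y} : Finset V) = {p, q} ∧ q ≠ p := by
    simp only [Finset.mem_insert, Finset.mem_singleton] at hpa
    rcases hpa with rfl | rfl
    · exact ⟨y, rfl, hxy.symm⟩
    · exact ⟨x, Finset.pair_comm _ _, hxy⟩
  obtain ⟨r, hr, hrp⟩ : ∃ q, ({x', y'} : Finset V) = {p, q} ∧ q ≠ p := by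
    simp only [Finset.mem_insert, Finset.mem_singleton] at hpb
    rcases hpb with rfl | rfl
    · exact ⟨y', rfl, hxy'.symm⟩
    · exact ⟨x', Finset.pair_comm _ _, hxy'⟩
  have hqr : q ≠ r := by
    rintro rfl
    exact hN (hq.trans hr.symm)
  have hsubs : ∀ d, d ∈ ({x, y} : Finset V) ∨ d ∈ ({x', y'} : Finset V) → d ∈ ({p, q, r} : Finset V) := by
    intro d hd
    rw [hq, hr] at hd
    simp only [Finset.mem_insert, Finset.mem_singleton] at hd ⊢
    rcases hd with (h1 | h1) | (h1 | h1)
    · exact Or.inl h1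
    · exact Or.inr (Or.inl h1)
    · exact Or.inl h1
    · exact Or.inr (Or.inr h1)
  have hsubc : ∀ d, d ∈ ({x'', y''} : Finset V) → d ∈ ({p, q, r} : Finset V) := by
    intro d hd
    rw [hc, Finset.mem_symmDiff] at hd
    rcases hd with hd | hd
    · exact hsubs d (Or.inl hd.1)
    · exact hsubs d (Or.inr hd.1)
  refine ⟨p, q, r, hqp.symm, hrp.symm, hqr, ?_, ?_⟩
  · ext d
    rw [Finset.mem_union, Finset.mem_union]
    constructor
    · rintro (hd | hd)
      · exact hsubs d hd
      · exact hsubc d hd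
    · intro hd
      left
      rw [hq, hr]
      simp only [Finset.mem_insert, Finset.mem_singleton] at hd ⊢
      rcases hd with h1 | h1 | h1
      · exact Or.inl (Or.inl h1)
      · exact Or.inl (Or.inr h1)
      · exact Or.inr (Or.inr h1)
  · have hspan : ∀ d, d ∈ T ∆ {x''} → d ∈ ({p, q, r} : Finset V) := by
      intro d hd
      rcases kx with h1 | h1 | h1 | h1
      · rw [h1] at hd
        exact absurd hd (Finset.notMem_empty d)
      · rw [h1] at hd
        exact hsubs d (Or.inl hd)
      · rw [h1] at hd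
        exact hsubs d (Or.inr hd)
      · rw [h1, Finset.mem_symmDiff] at hd
        rcases hd with hd | hd
        · exact hsubs d (Or.inl hd.1)
        · exact hsubs d (Or.inr hd.1)
    intro d hd
    by_cases hdx : d = x''
    · exact hsubc d (by rw [hdx]; simp)
    · exact hspan d (fcs_mem.2 (Or.inl ⟨hd, hdx⟩))

end Pool.Agent.H53.Sey
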