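import Pool.Agent.H63.Sey.Conn
import Pool.Agent.H63.Sey.Conc
import Pool.Agent.H87.Sey.GraphBasic
import Pool.Agent.H87.Sey.Stars

/-!
# Graph toolkit for Seymour's decomposition theorem: graphs, grafts, vertex separations

A graph is given by a finite vertex set `U` (inside a type `V`) and the ends `f a`, `g a` of the
labels `a : α`; its edge set `E : Finset α` is always supplied separately (it is the ground set of
the matroid). `GRep M e G T`: `M` is the graft matroid with graph `G` (edge set `M.E \ {e}`) and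
`e` is the `T`-join element: the cocycles of `M` are the vectors `G.vec M.E e T φ`,
`φ : V → ZMod 2`, with value `φ(f a) + φ(g a)` at an edge and `∑ t ∈ T, φ t` at `e`.
-/

set_option autoImplicit false

namespace Pool.Agent.H53.Sey

open Pool.Agent.H63.Sey

universe u v w

variable {α : Type u} [DecidableEq α] {V : Type v} [DecidableEq V]

/-- indicator vector over `GF(2)` -/
def ind (S : Finset α) : α → ZMod 2 := fun a => if a ∈ S then 1 else 0

@[simp] lemma ind_apply (S : Finset α) (a : α) : ind S a = if a ∈ S then 1 else 0 := rfl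

/-- `N` is 3-connected up to sets of two elements (and up to 1-separations with a side of at most
two elements; usually only applied to connected matroids) -/
def Good {K : Type} [Field K] (N : LM K α) : Prop :=
  ∀ X ⊆ N.E, N.lam X ≤ 1 → X.card ≤ 2 ∨ (N.E \ X).card ≤ 2

/-- a graph: finite vertex set `U`, ends `f a`, `g a` of the label `a` -/
structure Gr (α : Type u) (V : Type v) where
  U : Finset V
  f : α → V
  g : α → V

namespace Gr

variable (G : Gr α V)

/-- the edges in `E` have their (different) ends in `U` -/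
def On (E : Finset α) : Prop := ∀ a ∈ E, G.f a ∈ G.U ∧ G.g a ∈ G.U ∧ G.f a ≠ G.g a

/-- the label `a` joins `x` and `y` -/
def Jn (a : α) (x y : V) : Prop := (G.f a = x ∧ G.g a = y) ∨ (G.f a = y ∧ G.g a = x)

/-- the edges at the vertex `x` -/
def star (E : Finset α) (x : V) : Finset α := E.filter fun a => G.f a = x ∨ G.g a = x

/-- no two parallel edges -/
def Simple (E : Finset α) : Prop :=
  ∀ a ∈ E, ∀ b ∈ E, ∀ x y, G.Jn a x y → G.Jn b x y → a = b

/-- `x` and `y` are adjacent -/
def Adj (E : Finset α) (x y : V) : Prop := ∃ a ∈ E, G.Jn a x y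

/-- the graph with edge set `E` has no vertex cut with at most two vertices, except those which
cut off only vertices of `W`: if `P ∪ Q` is the vertex set, `|P ∩ Q| ≤ 2` and every edge is inside
`P` or inside `Q`, then `P \ Q ⊆ W` or `Q \ P ⊆ W` -/
def VC (E : Finset α) (W : Finset V) : Prop :=
  ∀ P Q : Finset V, P ∪ Q = G.U → (P ∩ Q).card ≤ 2 →
    (∀ a ∈ E, (G.f a ∈ P ∧ G.g a ∈ P) ∨ (G.f a ∈ Q ∧ G.g a ∈ Q)) → P \ Q ⊆ W ∨ Q \ P ⊆ W

/-- `S` induces a connected subgraph (no cut) -/
def Cn (E : Finset α) (S : Finset V) : Prop :=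
  S.Nonempty ∧ ∀ R ⊆ S, R.Nonempty → R ≠ S → ∃ x ∈ R, ∃ y ∈ S \ R, G.Adj E x y

/-- the cocycle of the graft belonging to a vertex labelling -/
def vec (E : Finset α) (e : α) (T : Finset V) (φ : V → ZMod 2) : α → ZMod 2 :=
  fun a => if a = e then ∑ t ∈ T, φ t else if a ∈ E then φ (G.f a) + φ (G.g a) else 0

end Gr

/-- `G` represents the matroid `N` (all of whose elements are edges of `G`, no loops) -/
structure Rp (N : BM α) (G : Gr α V) : Prop where
  on : G.On N.E
  eq : N = cyc N.E G.f G.g

/-- `(G, T)` represents `M`, `e` being the `T`-join element -/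
structure GRep (M : BM α) (e : α) (G : Gr α V) (T : Finset V) : Prop where
  he : e ∈ M.E
  on : G.On (M.E \ {e})
  TU : T ⊆ G.U
  even : Even T.card
  mem : ∀ x : α → ZMod 2, x ∈ M.D ↔ ∃ φ : V → ZMod 2, x = G.vec M.E e T φ

/-- a 3-connected simple graft -/
structure G3 (M : BM α) (e : α) (G : Gr α V) (T : Finset V) : Prop where
  rep : GRep M e G T
  vc : G.VC (M.E \ {e}) ∅
  deg : ∀ x ∈ G.U, 3 ≤ (G.star (M.E \ {e}) x).card
  simple : G.Simple (M.E \ {e})

end Pool.Agent.H53.Sey
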