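import Pool.Agent.H53.Sey.Gr

/-!
# Graph toolkit A1: graphs, connected sets, vertex cuts (job SEYG-A1)

All statements are elementary finite set combinatorics.
* `Cn.insert`, `Cn.union`: a cut `(R, S \ R)` of the union either splits one of the two connected
  sets or separates them; in the second case use the common vertex or the edge.
* `exists_component`: among the connected sets `S ⊆ X` with `x ∈ S` (`{x}` is one) take one with the
  maximal number of elements; an edge to `z ∈ X \ S` would allow `insert z S` (`Cn.insert`).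
* `VC.cn_sdiff`: a cut `R` of `U \ Z` gives `P = R ∪ Z`, `Q = U \ R`.
-/

set_option autoImplicit false

namespace Pool.Agent.H53.Sey

open Pool.Agent.H63.Sey

universe u v w

variable {α : Type u} [DecidableEq α] {V : Type v} [DecidableEq V] {V' : Type w} [DecidableEq V']

lemma zmod2_cases (x : ZMod 2) : x = 0 ∨ x = 1 := by
  revert x; decide

namespace Gr

variable {G : Gr α V} {E : Finset α}

lemma Jn.symm {a : α} {x y : V} (h : G.Jn a x y) : G.Jn a y x := by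
  exact Or.symm h

lemma jn_self (a : α) : G.Jn a (G.f a) (G.g a) := by
  exact Or.inl ⟨rfl, rfl⟩

/-- the ends are determined up to order -/
lemma Jn.ends {a : α} {x y x' y' : V} (h : G.Jn a x y) (h' : G.Jn a x' y') :
    (x = x' ∧ y = y') ∨ (x = y' ∧ y = x') := by
  rcases h with ⟨h1, h2⟩ | ⟨h1, h2⟩
  · rcases h' with ⟨h3, h4⟩ | ⟨h3, h4⟩
    · exact Or.inl ⟨h1.symm.trans h3, h2.symm.trans h4⟩
    · exact Or.inr ⟨h1.symm.trans h3, h2.symm.trans h4⟩
  · rcases h' with ⟨h3, h4⟩ | ⟨h3, h4⟩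
    · exact Or.inr ⟨h2.symm.trans h4, h1.symm.trans h3⟩
    · exact Or.inl ⟨h2.symm.trans h4, h1.symm.trans h3⟩

lemma mem_star {a : α} {x : V} : a ∈ G.star E x ↔ a ∈ E ∧ (G.f a = x ∨ G.g a = x) := by
  exact Finset.mem_filter

lemma mem_star_iff_jn {a : α} {x : V} : a ∈ G.star E x ↔ a ∈ E ∧ ∃ y, G.Jn a x y := by
  rw [mem_star]
  constructor
  · rintro ⟨ha, h | h⟩
    · exact ⟨ha, G.g a, Or.inl ⟨h, rfl⟩⟩
    · exact ⟨ha, G.f a, Or.inr ⟨rfl, h⟩⟩
  · rintro ⟨ha, y, h | h⟩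
    · exact ⟨ha, Or.inl h.1⟩
    · exact ⟨ha, Or.inr h.2⟩

lemma Adj.symm {x y : V} (h : G.Adj E x y) : G.Adj E y x := by
  obtain ⟨a, ha, h⟩ := h
  exact ⟨a, ha, h.symm⟩

lemma On.adj_mem (h : G.On E) {x y : V} (hxy : G.Adj E x y) : x ∈ G.U ∧ y ∈ G.U ∧ x ≠ y := by
  obtain ⟨a, ha, hj⟩ := hxy
  obtain ⟨h1, h2, h3⟩ := h a ha
  rcases hj with ⟨h4, h5⟩ | ⟨h4, h5⟩
  · rw [h4] at h1 h3
    rw [h5] at h2 h3
    exact ⟨h1, h2, h3⟩
  · rw [h4] at h1 h3
    rw [h5] at h2 h3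
    exact ⟨h2, h1, h3.symm⟩

lemma On.jn_mem (h : G.On E) {a : α} (ha : a ∈ E) {x y : V} (hxy : G.Jn a x y) :
    x ∈ G.U ∧ y ∈ G.U ∧ x ≠ y := by
  exact h.adj_mem ⟨a, ha, hxy⟩

lemma On.mono (h : G.On E) {E' : Finset α} (hE : E' ⊆ E) : G.On E' := by
  exact fun a ha => h a (hE ha)

lemma Cn.single (E : Finset α) (x : V) : G.Cn E {x} := by
  refine ⟨Finset.singleton_nonempty x, fun R hR hne hneq => ?_⟩
  rcases Finset.subset_singleton_iff.1 hR with h | h
  · rw [h] at hne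
    exact absurd hne Finset.not_nonempty_empty
  · exact absurd h hneq

/-- add a vertex adjacent to a connected set -/
lemma Cn.insert {S : Finset V} (h : G.Cn E S) {x y : V} (hy : y ∈ S) (hxy : G.Adj E x y) :
    G.Cn E (insert x S) := by
  obtain ⟨_, h2⟩ := h
  refine ⟨⟨x, Finset.mem_insert_self x S⟩, fun R hR hne hneq => ?_⟩
  by_cases h3 : (R ∩ S).Nonempty
  · by_cases h4 : R ∩ S = S
    · have hSR : S ⊆ R := Finset.inter_eq_right.1 h4
      have hxR : x ∉ R := fun hxR => hneq (Finset.Subset.antisymm hR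
        (Finset.insert_subset hxR hSR))
      exact ⟨y, hSR hy, x, Finset.mem_sdiff.2 ⟨Finset.mem_insert_self x S, hxR⟩, hxy.symm⟩
    · obtain ⟨a, ha, b, hb, hab⟩ := h2 (R ∩ S) Finset.inter_subset_right h3 h4
      rw [Finset.mem_sdiff] at hb
      refine ⟨a, (Finset.mem_inter.1 ha).1, b, Finset.mem_sdiff.2
        ⟨Finset.mem_insert_of_mem hb.1, fun hbR => hb.2 (Finset.mem_inter.2 ⟨hbR, hb.1⟩)⟩, hab⟩
  · rw [Finset.not_nonempty_iff_eq_empty] at h3
    have hyR : y ∉ R := fun hyR => by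
      have h5 := Finset.mem_inter.2 ⟨hyR, hy⟩
      rw [h3] at h5
      exact Finset.notMem_empty y h5
    obtain ⟨z, hz⟩ := hne
    have hzx : z = x := by
      rcases Finset.mem_insert.1 (hR hz) with h5 | h5
      · exact h5
      · have h6 := Finset.mem_inter.2 ⟨hz, h5⟩
        rw [h3] at h6
        exact absurd h6 (Finset.notMem_empty z)
    rw [hzx] at hz
    exact ⟨x, hz, y, Finset.mem_sdiff.2 ⟨Finset.mem_insert_of_mem hy, hyR⟩, hxy⟩

/-- two connected sets with a common vertex or an edge between them -/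
lemma Cn.union {S S' : Finset V} (h : G.Cn E S) (h' : G.Cn E S') {x y : V} (hx : x ∈ S)
    (hy : y ∈ S') (hxy : x = y ∨ G.Adj E x y) : G.Cn E (S ∪ S') := by
  obtain ⟨h1, h2⟩ := h
  obtain ⟨_, h2'⟩ := h'
  refine ⟨h1.mono Finset.subset_union_left, fun R hR hne hneq => ?_⟩
  by_cases h3 : (R ∩ S).Nonempty ∧ R ∩ S ≠ S
  · obtain ⟨a, ha, b, hb, hab⟩ := h2 (R ∩ S) Finset.inter_subset_right h3.1 h3.2
    rw [Finset.mem_sdiff] at hb
    exact ⟨a, (Finset.mem_inter.1 ha).1, b, Finset.mem_sdiff.2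
      ⟨Finset.mem_union_left _ hb.1, fun hbR => hb.2 (Finset.mem_inter.2 ⟨hbR, hb.1⟩)⟩, hab⟩
  by_cases h3' : (R ∩ S').Nonempty ∧ R ∩ S' ≠ S'
  · obtain ⟨a, ha, b, hb, hab⟩ := h2' (R ∩ S') Finset.inter_subset_right h3'.1 h3'.2
    rw [Finset.mem_sdiff] at hb
    exact ⟨a, (Finset.mem_inter.1 ha).1, b, Finset.mem_sdiff.2
      ⟨Finset.mem_union_right _ hb.1, fun hbR => hb.2 (Finset.mem_inter.2 ⟨hbR, hb.1⟩)⟩, hab⟩
  have h4 : ∀ T : Finset V, ¬ ((R ∩ T).Nonempty ∧ R ∩ T ≠ T) → (∀ z ∈ T, z ∉ R) ∨ T ⊆ R := by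
    intro T hT
    by_cases h5 : (R ∩ T).Nonempty
    · right
      have h6 : R ∩ T = T := by
        by_contra h7
        exact hT ⟨h5, h7⟩
      exact Finset.inter_eq_right.1 h6
    · left
      intro z hz hzR
      exact h5 ⟨z, Finset.mem_inter.2 ⟨hzR, hz⟩⟩
  rcases h4 S h3 with h5 | h5
  · rcases h4 S' h3' with h6 | h6
    · obtain ⟨z, hz⟩ := hne
      rcases Finset.mem_union.1 (hR hz) with h7 | h7
      · exact absurd hz (h5 z h7)
      · exact absurd hz (h6 z h7)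
    · rcases hxy with rfl | hxy
      · exact absurd (h6 hy) (h5 x hx)
      · exact ⟨y, h6 hy, x, Finset.mem_sdiff.2 ⟨Finset.mem_union_left _ hx, h5 x hx⟩, hxy.symm⟩
  · rcases h4 S' h3' with h6 | h6
    · rcases hxy with rfl | hxy
      · exact absurd (h5 hx) (h6 x hy)
      · exact ⟨x, h5 hx, y, Finset.mem_sdiff.2 ⟨Finset.mem_union_right _ hy, h6 y hy⟩, hxy⟩
    · exact absurd (Finset.Subset.antisymm hR (Finset.union_subset h5 h6)) hneq

lemma Cn.mono {S : Finset V} (h : G.Cn E S) {E' : Finset α} (hE : E ⊆ E') : G.Cn E' S := by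
  refine ⟨h.1, fun R hR hne hneq => ?_⟩
  obtain ⟨x, hx, y, hy, a, ha, haj⟩ := h.2 R hR hne hneq
  exact ⟨x, hx, y, hy, a, hE ha, haj⟩

/-- the connected component of `x` inside `X`: a connected set `S ∋ x`, `S ⊆ X`, without edges to
the rest of `X` (take a connected subset of `X` containing `x` with the maximal number of
elements) -/
lemma exists_component (X : Finset V) {x : V} (hx : x ∈ X) :
    ∃ S ⊆ X, x ∈ S ∧ G.Cn E S ∧ ∀ y ∈ S, ∀ z ∈ X \ S, ¬ G.Adj E y z := by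
  classical
  obtain ⟨S, hS, hmax⟩ := (X.powerset.filter fun S => x ∈ S ∧ G.Cn E S).exists_max_image
    Finset.card ⟨{x}, by
      rw [Finset.mem_filter, Finset.mem_powerset]
      exact ⟨Finset.singleton_subset_iff.2 hx, Finset.mem_singleton_self x, Cn.single E x⟩⟩
  rw [Finset.mem_filter, Finset.mem_powerset] at hS
  obtain ⟨hSX, hxS, hcn⟩ := hS
  refine ⟨S, hSX, hxS, hcn, fun y hy z hz hyz => ?_⟩
  rw [Finset.mem_sdiff] at hz
  have h1 := hmax (insert z S) (by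
    rw [Finset.mem_filter, Finset.mem_powerset]
    exact ⟨Finset.insert_subset hz.1 hSX, Finset.mem_insert_of_mem hxS, hcn.insert hy hyz.symm⟩)
  rw [Finset.card_insert_of_notMem hz.2] at h1
  omega

lemma VC.mono {W W' : Finset V} (h : G.VC E W) (hW : W ⊆ W') : G.VC E W' := by
  intro P Q h1 h2 h3
  exact (h P Q h1 h2 h3).imp (fun h4 => h4.trans hW) (fun h4 => h4.trans hW)

/-- more edges keep `VC` -/
lemma VC.mono_edges {W : Finset V} {E' : Finset α} (h : G.VC E W) (hE : E ⊆ E') :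
    G.VC E' W := by
  exact fun P Q h1 h2 h3 => h P Q h1 h2 fun a ha => h3 a (hE ha)

/-- in a graph without 2-vertex-cuts deleting at most two vertices keeps it connected -/
lemma VC.cn_sdiff (h : G.VC E ∅) (hon : G.On E) {Z : Finset V} (hZ : Z ⊆ G.U) (hZ2 : Z.card ≤ 2)
    (hne : (G.U \ Z).Nonempty) : G.Cn E (G.U \ Z) := by
  refine ⟨hne, fun R hR hRne hRneq => ?_⟩
  by_contra hcon
  push Not at hcon
  have hRU : ∀ z ∈ R, z ∈ G.U ∧ z ∉ Z := fun z hz => Finset.mem_sdiff.1 (hR hz)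
  have h1 : (R ∪ Z) ∪ (G.U \ R) = G.U := by
    ext z
    simp only [Finset.mem_union, Finset.mem_sdiff]
    constructor
    · rintro ((h1 | h1) | h1)
      · exact (hRU z h1).1
      · exact hZ h1
      · exact h1.1
    · intro h1
      by_cases h2 : z ∈ R
      · exact Or.inl (Or.inl h2)
      · exact Or.inr ⟨h1, h2⟩
  have h2 : (R ∪ Z) ∩ (G.U \ R) ⊆ Z := by
    intro z hz
    simp only [Finset.mem_union, Finset.mem_sdiff, Finset.mem_inter] at hz
    exact hz.1.resolve_left hz.2.2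
  have h3 : ∀ a ∈ E, (G.f a ∈ R ∪ Z ∧ G.g a ∈ R ∪ Z) ∨ (G.f a ∈ G.U \ R ∧ G.g a ∈ G.U \ R) := by
    intro a ha
    obtain ⟨hf, hg, _⟩ := hon a ha
    by_cases h4 : G.f a ∈ R
    · left
      refine ⟨Finset.mem_union_left _ h4, ?_⟩
      by_contra h5
      rw [Finset.mem_union, not_or] at h5
      exact hcon (G.f a) h4 (G.g a) (Finset.mem_sdiff.2 ⟨Finset.mem_sdiff.2 ⟨hg, h5.2⟩, h5.1⟩)
        ⟨a, ha, jn_self a⟩
    · by_cases h5 : G.g a ∈ R
      · left
        refine ⟨?_, Finset.mem_union_left _ h5⟩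
        by_contra h6
        rw [Finset.mem_union, not_or] at h6
        exact hcon (G.g a) h5 (G.f a) (Finset.mem_sdiff.2 ⟨Finset.mem_sdiff.2 ⟨hf, h6.2⟩, h6.1⟩)
          ⟨a, ha, (jn_self a).symm⟩
      · right
        exact ⟨Finset.mem_sdiff.2 ⟨hf, h4⟩, Finset.mem_sdiff.2 ⟨hg, h5⟩⟩
  rcases h (R ∪ Z) (G.U \ R) h1 ((Finset.card_le_card h2).trans hZ2) h3 with h4 | h4
  · obtain ⟨z, hz⟩ := hRne
    have h5 : z ∈ (R ∪ Z) \ (G.U \ R) := by
      simp only [Finset.mem_union, Finset.mem_sdiff]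
      exact ⟨Or.inl hz, fun h6 => h6.2 hz⟩
    exact Finset.notMem_empty z (h4 h5)
  · have h5 : ¬ (G.U \ Z ⊆ R) := fun h6 => hRneq (Finset.Subset.antisymm hR h6)
    rw [Finset.not_subset] at h5
    obtain ⟨z, hz, hzR⟩ := h5
    rw [Finset.mem_sdiff] at hz
    have h6 : z ∈ (G.U \ R) \ (R ∪ Z) := by
      simp only [Finset.mem_union, Finset.mem_sdiff, not_or]
      exact ⟨⟨hz.1, hzR⟩, hzR, hz.2⟩
    exact Finset.notMem_empty z (h4 h6)

end Gr

end Pool.Agent.H53.Sey
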