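import Pool.Agent.H53.Sey.GrA

/-!
# Graph toolkit A2: representations of matroids by graphs and grafts (job SEYG-A2)

All statements are unfoldings of the definitions (`cyc`, `GRep.mem`, `Gr.vec`).
* `Rp.mem`: unfold `cyc`.
* `cut_mem`: take `φ = 1_S`. In characteristic 2, `φ (f a) + φ (g a) = 1` iff exactly one end is
  in `S`; for `Rp.mem_iff_cut` take `S = {x ∈ U : φ x = 1}`.
* `GRep.del_rp`: `mem_del`: a vector of `(M.del {e}).D` is a vector of `M.D` with the coordinate
  `e` replaced by `0`.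
* `GRep.star_mem`, `GRep.cut_mem`: take `φ = 1_x`, `φ = 1_S`; the `e`-coordinate is `|T ∩ S|` mod 2.
* `GRep.del`: deletion of an edge `h ≠ e` does not change the graft.
* `GRep.conQ` (contraction of edges as a quotient of the vertex set): `F ⊆ M.E \ {e}` is a set of
  edges, `π : V → V` maps `U` to `U`, every edge in `F` has ends with the same image, and every
  labelling `φ` that is constant on each edge of `F` satisfies `φ = φ ∘ π` on `U`. Then
  `M.con F` has the graph with vertex set `π U` and ends `π ∘ f`, `π ∘ g`, and the new set `T` is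
  `{x ∈ π U : |{t ∈ T : π t = x}| odd}`. `hπ2` says `π` is idempotent on `U` (it follows from the
  third condition in the applications, but is convenient). Proof: `x ∈ (M.con F).D` iff `x ∈ M.D`
  and `x = 0` on `F` (`mem_con`), i.e. `x = vec φ` with `φ` constant on the edges of `F`; replace
  `φ` by `φ ∘ π` (same values on `U`). Conversely `vec' φ = vec (φ ∘ π)`:
  `∑ t ∈ T, φ (π t) = ∑ x ∈ π U, |{t : π t = x}| φ x`. Parity of the new `T`: sum of all
  fibre sizes is `|T|`.
-/

set_option autoImplicit false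

namespace Pool.Agent.H53.Sey

open Pool.Agent.H63.Sey

universe u v w

variable {α : Type u} [DecidableEq α] {V : Type v} [DecidableEq V] {V' : Type w} [DecidableEq V']

/-- a graph on any vertex type: the edges have finitely many ends -/
lemma graphic_of_mem' {M : BM α} {f g : α → V}
    (h : ∀ x : α → ZMod 2, x ∈ M.D ↔
      ∃ φ : V → ZMod 2, ∀ a, x a = if a ∈ M.E then φ (f a) + φ (g a) else 0) : Graphic M := by
  classical
  let U : Finset V := M.E.image f ∪ M.E.image g
  have hf : ∀ a ∈ M.E, f a ∈ U := fun a ha =>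
    Finset.mem_union_left _ (Finset.mem_image_of_mem _ ha)
  have hg : ∀ a ∈ M.E, g a ∈ U := fun a ha =>
    Finset.mem_union_right _ (Finset.mem_image_of_mem _ ha)
  let r : V → Option U := fun v => if hv : v ∈ U then some ⟨v, hv⟩ else none
  have hr : ∀ v (hv : v ∈ U), r v = some ⟨v, hv⟩ := fun v hv => dif_pos hv
  refine Pool.Agent.H87.Sey.graphic_of_fintype (V := Option U) (f := fun a => r (f a))
    (g := fun a => r (g a)) fun x => ?_
  rw [h]
  constructor
  · rintro ⟨φ, hφ⟩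
    refine ⟨fun o => o.elim 0 fun v => φ v.1, fun a => ?_⟩
    rw [hφ a]
    by_cases ha : a ∈ M.E
    · simp only [ha, if_true, hr _ (hf a ha), hr _ (hg a ha), Option.elim]
    · simp [ha]
  · rintro ⟨φ, hφ⟩
    exact ⟨fun v => φ (r v), hφ⟩

lemma ind_self (S : V → Prop) [DecidablePred S] (x y : V) :
    (if S x then (1 : ZMod 2) else 0) + (if S y then 1 else 0) =
      if ¬ (S x ↔ S y) then 1 else 0 := by
  by_cases hx : S x <;> by_cases hy : S y <;> simp [hx, hy, CharTwo.add_self_eq_zero]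

/-- sum over the odd fibres -/
lemma sum_odd_fibres {T U : Finset V} (hTU : T ⊆ U) (π : V → V) (φ : V → ZMod 2) :
    ∑ x ∈ (U.image π).filter (fun x => Odd (T.filter fun t => π t = x).card), φ x =
      ∑ t ∈ T, φ (π t) := by
  have hmap : ∀ t ∈ T, π t ∈ U.image π := fun t ht => Finset.mem_image_of_mem _ (hTU ht)
  rw [← Finset.sum_fiberwise_of_maps_to hmap, Finset.sum_filter]
  refine Finset.sum_congr rfl fun x _ => ?_
  have h1 : ∑ t ∈ T.filter (fun t => π t = x), φ (π t) =
      ((T.filter fun t => π t = x).card : ZMod 2) * φ x := by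
    rw [Finset.sum_congr rfl (g := fun _ => φ x) (fun t ht => by
      rw [(Finset.mem_filter.1 ht).2]), Finset.sum_const, nsmul_eq_mul]
  rw [h1]
  split_ifs with ho
  · rw [(ZMod.natCast_eq_one_iff_odd.2 ho), one_mul]
  · rw [(ZMod.natCast_eq_zero_iff_even.2 (Nat.not_odd_iff_even.1 ho)), zero_mul]

section Rp

variable {N : BM α} {G : Gr α V}

lemma Rp.mem (h : Rp N G) {x : α → ZMod 2} :
    x ∈ N.D ↔ ∃ φ : V → ZMod 2, ∀ a, x a = if a ∈ N.E then φ (G.f a) + φ (G.g a) else 0 := by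
  conv_lhs => rw [h.eq]
  exact Pool.Agent.H87.Sey.mem_cyc

/-- converse -/
lemma Rp.of_mem (on : G.On N.E) (h : ∀ x : α → ZMod 2, x ∈ N.D ↔
    ∃ φ : V → ZMod 2, ∀ a, x a = if a ∈ N.E then φ (G.f a) + φ (G.g a) else 0) : Rp N G := by
  refine ⟨on, Pool.Agent.H87.Sey.LM_ext' rfl fun x => ?_⟩
  rw [h, Pool.Agent.H87.Sey.mem_cyc]

lemma Rp.cut_mem (h : Rp N G) (S : Finset V) :
    ind (N.E.filter fun a => ¬ (G.f a ∈ S ↔ G.g a ∈ S)) ∈ N.D := by
  rw [h.mem]
  refine ⟨fun v => if v ∈ S then 1 else 0, fun a => ?_⟩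
  simp only [ind_apply, Finset.mem_filter]
  rw [ind_self (fun v => v ∈ S)]
  by_cases ha : a ∈ N.E
  · simp only [ha, true_and, if_true]
  · simp [ha]

lemma Rp.mem_iff_cut (h : Rp N G) {x : α → ZMod 2} :
    x ∈ N.D ↔ ∃ S ⊆ G.U, x = ind (N.E.filter fun a => ¬ (G.f a ∈ S ↔ G.g a ∈ S)) := by
  constructor
  · intro hx
    obtain ⟨φ, hφ⟩ := h.mem.1 hx
    refine ⟨G.U.filter fun v => φ v = 1, Finset.filter_subset _ _, ?_⟩
    ext a
    rw [hφ a]
    simp only [ind_apply]
    by_cases ha : a ∈ N.E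
    · obtain ⟨h1, h2, -⟩ := h.on a ha
      simp only [ha, true_and, if_true, Finset.mem_filter, h1, h2]
      rcases zmod2_cases (φ (G.f a)) with h3 | h3 <;> rcases zmod2_cases (φ (G.g a)) with h4 | h4 <;>
        simp [h3, h4, CharTwo.add_self_eq_zero]
    · simp [ha]
  · rintro ⟨S, -, rfl⟩
    exact h.cut_mem S

lemma star_eq_cut {E : Finset α} (on : G.On E) (x : V) :
    G.star E x = E.filter fun a => ¬ (G.f a ∈ ({x} : Finset V) ↔ G.g a ∈ ({x} : Finset V)) := by
  ext a
  rw [Gr.star, Finset.mem_filter, Finset.mem_filter]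
  refine and_congr_right fun ha => ?_
  obtain ⟨-, -, h3⟩ := on a ha
  rw [Finset.mem_singleton, Finset.mem_singleton]
  constructor
  · rintro (h | h) h'
    · exact h3 (h.trans (h'.1 h).symm)
    · exact h3 ((h'.2 h).trans h.symm)
  · intro h
    by_contra h'
    rw [not_or] at h'
    exact h ⟨fun h4 => absurd h4 h'.1, fun h4 => absurd h4 h'.2⟩

lemma Rp.star_mem (h : Rp N G) (x : V) : ind (G.star N.E x) ∈ N.D := by
  rw [star_eq_cut h.on]
  exact h.cut_mem {x}

lemma Rp.graphic (h : Rp N G) : Graphic N :=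
  graphic_of_mem' (f := G.f) (g := G.g) fun _ => h.mem

lemma Rp.del (h : Rp N G) (X : Finset α) : Rp (N.del X) G := by
  refine Rp.of_mem (h.on.mono Finset.sdiff_subset) fun x => ?_
  rw [LM.mem_del]
  constructor
  · rintro ⟨h0, y, hy, hxy⟩
    obtain ⟨φ, hφ⟩ := h.mem.1 hy
    refine ⟨φ, fun a => ?_⟩
    by_cases ha : a ∈ X
    · simp [ha, h0 a ha]
    · rw [hxy a ha, hφ a]
      simp [ha]
  · rintro ⟨φ, hφ⟩
    refine ⟨fun a ha => ?_, fun a => if a ∈ N.E then φ (G.f a) + φ (G.g a) else 0,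
      h.mem.2 ⟨φ, fun a => rfl⟩, fun a ha => ?_⟩
    · rw [hφ a]
      simp [ha]
    · rw [hφ a]
      simp [ha]

/-- a graphic matroid without loops has a representation all of whose vertices have an edge -/
lemma exists_rp (h : Graphic N) (hl : ∀ a ∈ N.E, ∃ x ∈ N.D, x a ≠ 0) :
    ∃ (n : ℕ) (G : Gr α (Fin n)), Rp N G ∧ ∀ x ∈ G.U, (G.star N.E x).Nonempty := by
  classical
  obtain ⟨n, f, g, hN⟩ := Pool.Agent.H87.Sey.graphic_exists_mem h
  refine ⟨n, ⟨Finset.univ.filter fun x => ∃ a ∈ N.E, f a = x ∨ g a = x, f, g⟩,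
    Rp.of_mem (fun a ha => ⟨?_, ?_, fun hfg => ?_⟩) hN, fun x hx => ?_⟩
  · exact Finset.mem_filter.2 ⟨Finset.mem_univ _, a, ha, Or.inl rfl⟩
  · exact Finset.mem_filter.2 ⟨Finset.mem_univ _, a, ha, Or.inr rfl⟩
  · obtain ⟨x, hx, hxa⟩ := hl a ha
    obtain ⟨φ, hφ⟩ := (hN x).1 hx
    apply hxa
    have hfg' : f a = g a := hfg
    rw [hφ a, if_pos ha, hfg', CharTwo.add_self_eq_zero]
  · obtain ⟨-, a, ha, h1⟩ := Finset.mem_filter.1 hx
    exact ⟨a, Finset.mem_filter.2 ⟨ha, h1⟩⟩

end Rp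

section GRep

variable {M : BM α} {e : α} {G : Gr α V} {T : Finset V}

lemma GRep.del_rp (h : GRep M e G T) : Rp (M.del {e}) G := by
  refine Rp.of_mem h.on fun x => ?_
  rw [LM.mem_del]
  constructor
  · rintro ⟨h0, y, hy, hxy⟩
    obtain ⟨φ, rfl⟩ := (h.mem y).1 hy
    refine ⟨φ, fun a => ?_⟩
    by_cases ha : a = e
    · subst ha
      simp [h0 a (Finset.mem_singleton_self a)]
    · rw [hxy a (by simpa using ha)]
      simp [Gr.vec, ha]
  · rintro ⟨φ, hφ⟩
    refine ⟨fun a ha => ?_, G.vec M.E e T φ, (h.mem _).2 ⟨φ, rfl⟩, fun a ha => ?_⟩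
    · rw [hφ a]
      simp [Finset.mem_singleton.1 ha]
    · rw [hφ a]
      have ha' : a ≠ e := by simpa using ha
      simp [Gr.vec, ha']

lemma sum_ind_eq (T S : Finset V) :
    ∑ t ∈ T, (if t ∈ S then (1 : ZMod 2) else 0) = if Odd (T ∩ S).card then 1 else 0 := by
  rw [← Finset.sum_filter, Finset.sum_const, nsmul_eq_mul, mul_one, Finset.filter_mem_eq_inter]
  split_ifs with ho
  · exact ZMod.natCast_eq_one_iff_odd.2 ho
  · exact ZMod.natCast_eq_zero_iff_even.2 (Nat.not_odd_iff_even.1 ho)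

lemma GRep.cut_mem (h : GRep M e G T) (S : Finset V) :
    ind (((M.E \ {e}).filter fun a => ¬ (G.f a ∈ S ↔ G.g a ∈ S)) ∪
      if Odd (T ∩ S).card then {e} else ∅) ∈ M.D := by
  rw [h.mem]
  refine ⟨fun v => if v ∈ S then 1 else 0, ?_⟩
  ext a
  simp only [ind_apply, Finset.mem_union, Finset.mem_filter, Gr.vec]
  by_cases hae : a = e
  · subst hae
    rw [if_pos rfl, sum_ind_eq]
    by_cases ho : Odd (T ∩ S).card
    · simp [ho]
    · simp [ho]
  · rw [if_neg hae, ind_self (fun v => v ∈ S)]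
    have h1 : a ∉ (if Odd (T ∩ S).card then ({e} : Finset α) else ∅) := by
      split_ifs <;> simp [hae]
    by_cases haE : a ∈ M.E
    · have h2 : a ∈ M.E \ {e} := Finset.mem_sdiff.2 ⟨haE, by simpa using hae⟩
      simp only [haE, h2, true_and, if_true, h1, or_false]
    · have h2 : a ∉ M.E \ {e} := fun h3 => haE (Finset.mem_sdiff.1 h3).1
      simp only [haE, h2, false_and, h1, or_false, if_false]

lemma GRep.star_mem (h : GRep M e G T) (x : V) :
    ind (G.star (M.E \ {e}) x ∪ if x ∈ T then {e} else ∅) ∈ M.D := by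
  have h1 := h.cut_mem {x}
  rw [← star_eq_cut h.on] at h1
  have h2 : Odd (T ∩ {x}).card ↔ x ∈ T := by
    by_cases hx : x ∈ T
    · simp [Finset.inter_singleton_of_mem hx, hx]
    · simp [Finset.inter_singleton_of_notMem hx, hx]
  by_cases hx : x ∈ T
  · rw [if_pos hx]
    rwa [if_pos (h2.2 hx)] at h1
  · rw [if_neg hx]
    rwa [if_neg (fun h3 => hx (h2.1 h3))] at h1

lemma GRep.del (h : GRep M e G T) {X : Finset α} (he : e ∉ X) : GRep (M.del X) e G T := by
  refine ⟨Finset.mem_sdiff.2 ⟨h.he, he⟩, h.on.mono ?_, h.TU, h.even, fun x => ?_⟩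
  · exact Finset.sdiff_subset_sdiff Finset.sdiff_subset (Finset.Subset.refl _)
  · rw [LM.mem_del]
    constructor
    · rintro ⟨h0, y, hy, hxy⟩
      obtain ⟨φ, rfl⟩ := (h.mem y).1 hy
      refine ⟨φ, ?_⟩
      ext a
      by_cases ha : a ∈ X
      · have hae : a ≠ e := fun h1 => he (h1 ▸ ha)
        simp [h0 a ha, Gr.vec, hae, ha]
      · rw [hxy a ha]
        by_cases hae : a = e <;> simp [Gr.vec, hae, ha]
    · rintro ⟨φ, rfl⟩
      refine ⟨fun a ha => ?_, G.vec M.E e T φ, (h.mem _).2 ⟨φ, rfl⟩, fun a ha => ?_⟩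
      · have hae : a ≠ e := fun h1 => he (h1 ▸ ha)
        simp [Gr.vec, hae, ha]
      · by_cases hae : a = e <;> simp [Gr.vec, hae, ha]

/-- contraction of a set of edges as a quotient of the vertex set -/
lemma GRep.conQ (h : GRep M e G T) {F : Finset α} (he : e ∉ F) (π : V → V)
    (hπU : ∀ x ∈ G.U, π x ∈ G.U) (hπ2 : ∀ x ∈ G.U, π (π x) = π x)
    (hF : ∀ a ∈ F, a ∈ M.E → π (G.f a) = π (G.g a))
    (hc : ∀ φ : V → ZMod 2, (∀ a ∈ F, a ∈ M.E → φ (G.f a) = φ (G.g a)) →
      ∀ x ∈ G.U, φ (π x) = φ x)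
    (hl : ∀ a ∈ (M.E \ {e}) \ F, π (G.f a) ≠ π (G.g a)) :
    GRep (M.con F) e ⟨G.U.image π, fun a => π (G.f a), fun a => π (G.g a)⟩
      ((G.U.image π).filter fun x => Odd (T.filter fun t => π t = x).card) := by
  have hne : ∀ a ∈ F, a ≠ e := fun a ha h1 => he (h1 ▸ ha)
  refine ⟨Finset.mem_sdiff.2 ⟨h.he, he⟩, fun a ha => ?_, Finset.filter_subset _ _, ?_,
    fun x => ?_⟩
  · have ha1 : a ∈ M.E ∧ a ∉ F ∧ a ≠ e := by simpa [and_assoc] using ha
    have ha2 : a ∈ M.E \ {e} := by simp [ha1.1, ha1.2.2]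
    obtain ⟨h1, h2, -⟩ := h.on a ha2
    exact ⟨Finset.mem_image_of_mem _ h1, Finset.mem_image_of_mem _ h2,
      hl a (Finset.mem_sdiff.2 ⟨ha2, ha1.2.1⟩)⟩
  · have h1 := sum_odd_fibres h.TU π (fun _ => 1)
    simp only [Finset.sum_const, nsmul_eq_mul, mul_one] at h1
    rw [ZMod.natCast_eq_zero_iff_even.2 h.even] at h1
    exact ZMod.natCast_eq_zero_iff_even.1 h1
  · rw [LM.mem_con]
    constructor
    · rintro ⟨hx, h0⟩
      obtain ⟨φ, rfl⟩ := (h.mem x).1 hx
      have hφ : ∀ x ∈ G.U, φ (π x) = φ x := by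
        refine hc φ fun a ha haE => ?_
        have h1 := h0 a ha
        rw [Gr.vec, if_neg (hne a ha), if_pos haE] at h1
        exact CharTwo.add_eq_zero.1 h1
      refine ⟨φ, ?_⟩
      ext a
      by_cases hae : a = e
      · simp only [Gr.vec, hae, if_true]
        rw [sum_odd_fibres h.TU π φ]
        exact Finset.sum_congr rfl fun t ht => (hφ t (h.TU ht)).symm
      · by_cases haF : a ∈ F
        · rw [h0 a haF]
          simp [Gr.vec, hae, haF]
        · by_cases haE : a ∈ M.E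
          · obtain ⟨h1, h2, -⟩ := h.on a (by simp [haE, hae])
            simp [Gr.vec, hae, haF, haE, hφ _ h1, hφ _ h2]
          · simp [Gr.vec, hae, haE]
    · rintro ⟨φ, rfl⟩
      refine ⟨(h.mem _).2 ⟨fun v => φ (π v), ?_⟩, fun a ha => ?_⟩
      · ext a
        by_cases hae : a = e
        · simp only [Gr.vec, hae, if_true]
          exact sum_odd_fibres h.TU π φ
        · by_cases haE : a ∈ M.E
          · by_cases haF : a ∈ F
            · simp [Gr.vec, hae, haF, haE, hF a haF haE, CharTwo.add_self_eq_zero]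
            · simp [Gr.vec, hae, haF, haE]
          · simp [Gr.vec, hae, haE]
      · simp [Gr.vec, hne a ha, ha]

/-- the same for graph representations -/
lemma Rp.conQ {N : BM α} (h : Rp N G) {F : Finset α} (π : V → V)
    (hπU : ∀ x ∈ G.U, π x ∈ G.U) (hπ2 : ∀ x ∈ G.U, π (π x) = π x)
    (hF : ∀ a ∈ F, a ∈ N.E → π (G.f a) = π (G.g a))
    (hc : ∀ φ : V → ZMod 2, (∀ a ∈ F, a ∈ N.E → φ (G.f a) = φ (G.g a)) →
      ∀ x ∈ G.U, φ (π x) = φ x)
    (hl : ∀ a ∈ N.E \ F, π (G.f a) ≠ π (G.g a)) :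
    Rp (N.con F) ⟨G.U.image π, fun a => π (G.f a), fun a => π (G.g a)⟩ := by
  refine Rp.of_mem (fun a ha => ?_) fun x => ?_
  · have ha1 := Finset.mem_sdiff.1 ha
    obtain ⟨h1, h2, -⟩ := h.on a ha1.1
    exact ⟨Finset.mem_image_of_mem _ h1, Finset.mem_image_of_mem _ h2, hl a ha⟩
  · rw [LM.mem_con]
    constructor
    · rintro ⟨hx, h0⟩
      obtain ⟨φ, hφx⟩ := h.mem.1 hx
      have hφ : ∀ x ∈ G.U, φ (π x) = φ x := by
        refine hc φ fun a ha haE => ?_
        have h1 := h0 a ha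
        rw [hφx a, if_pos haE] at h1
        exact CharTwo.add_eq_zero.1 h1
      refine ⟨φ, fun a => ?_⟩
      by_cases haF : a ∈ F
      · rw [h0 a haF]
        simp [haF]
      · rw [hφx a]
        by_cases haE : a ∈ N.E
        · obtain ⟨h1, h2, -⟩ := h.on a haE
          simp [haF, haE, hφ _ h1, hφ _ h2]
        · simp [haE]
    · rintro ⟨φ, hφx⟩
      have h0 : ∀ a ∈ F, x a = 0 := fun a ha => by
        rw [hφx a]
        simp [ha]
      refine ⟨h.mem.2 ⟨fun v => φ (π v), fun a => ?_⟩, h0⟩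
      by_cases haE : a ∈ N.E
      · by_cases haF : a ∈ F
        · rw [h0 a haF]
          simp [haE, hF a haF haE, CharTwo.add_self_eq_zero]
        · rw [hφx a]
          simp [haF, haE]
      · rw [hφx a]
        simp [haE]

/-- existence of a graft representation: `M \ e` graphic without loops, `e` not a coloop -/
lemma exists_gRep (h : Graphic (M.del {e})) (he : e ∈ M.E) (hc : ind {e} ∉ M.D)
    (hl : ∀ a ∈ M.E \ {e}, ∃ x ∈ M.D, x a ≠ 0) :
    ∃ (n : ℕ) (G : Gr α (Fin n)) (T : Finset (Fin n)), GRep M e G T ∧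
      ∀ x ∈ G.U, (G.star (M.E \ {e}) x).Nonempty := by
  classical
  have hl' : ∀ a ∈ (M.del {e}).E, ∃ x ∈ (M.del {e}).D, x a ≠ 0 := by
    intro a ha
    obtain ⟨x, hx, hxa⟩ := hl a ha
    have hae : a ≠ e := by
      have := (Finset.mem_sdiff.1 ha).2
      simpa using this
    refine ⟨fun b => if b = e then 0 else x b, LM.mem_del M |>.2 ⟨fun b hb => ?_, x, hx,
      fun b hb => ?_⟩, ?_⟩
    · simp [Finset.mem_singleton.1 hb]
    · exact if_neg (by simpa using hb)
    · simpa [hae] using hxa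
  obtain ⟨n, G, hG, hst⟩ := exists_rp h hl'
  -- unique lifts
  have huniq : ∀ y ∈ M.D, (∀ a, a ≠ e → y a = 0) → y = 0 := by
    intro y hy h0
    ext a
    by_cases hae : a = e
    · subst hae
      rcases zmod2_cases (y a) with h1 | h1
      · exact h1
      · exfalso
        apply hc
        have : y = ind {a} := by
          ext b
          by_cases hb : b = a
          · subst hb
            simp [h1]
          · simp [hb, h0 b hb]
        rwa [← this]
    · exact h0 a hae
  have hlift : ∀ φ : Fin n → ZMod 2, ∃ y ∈ M.D, ∀ a, a ≠ e →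
      y a = if a ∈ M.E then φ (G.f a) + φ (G.g a) else 0 := by
    intro φ
    have h1 : (fun a => if a ∈ (M.del {e}).E then φ (G.f a) + φ (G.g a) else 0) ∈
      (M.del {e}).D := hG.mem.2 ⟨φ, fun a => rfl⟩
    obtain ⟨-, y, hy, hxy⟩ := (LM.mem_del M).1 h1
    refine ⟨y, hy, fun a ha => ?_⟩
    rw [← hxy a (by simpa using ha)]
    simp [ha]
  choose y hy hya using hlift
  have huniq' : ∀ (φ : Fin n → ZMod 2) (z : α → ZMod 2), z ∈ M.D →
      (∀ a, a ≠ e → z a = if a ∈ M.E then φ (G.f a) + φ (G.g a) else 0) → z = y φ := by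
    intro φ z hz hza
    have h1 : z - y φ = 0 := by
      refine huniq _ (M.D.sub_mem hz (hy φ)) fun a ha => ?_
      rw [Pi.sub_apply, hza a ha, hya φ a ha, sub_self]
    exact sub_eq_zero.1 h1
  let l : (Fin n → ZMod 2) →ₗ[ZMod 2] ZMod 2 :=
    { toFun := fun φ => y φ e
      map_add' := fun φ ψ => by
        have h1 : y φ + y ψ = y (φ + ψ) := by
          refine huniq' _ _ (M.D.add_mem (hy φ) (hy ψ)) fun a ha => ?_
          rw [Pi.add_apply, hya φ a ha, hya ψ a ha]
          by_cases haE : a ∈ M.E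
          · simp only [haE, if_true, Pi.add_apply]
            ring
          · simp [haE]
        rw [← h1, Pi.add_apply]
      map_smul' := fun c φ => by
        have h1 : c • y φ = y (c • φ) := by
          refine huniq' _ _ (M.D.smul_mem c (hy φ)) fun a ha => ?_
          rw [Pi.smul_apply, hya φ a ha]
          by_cases haE : a ∈ M.E
          · simp only [haE, if_true, Pi.smul_apply, smul_eq_mul]
            ring
          · simp [haE]
        rw [← h1, Pi.smul_apply, RingHom.id_apply] }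
  have hl1 : ∀ φ, l φ = y φ e := fun φ => rfl
  let T : Finset (Fin n) := Finset.univ.filter fun t => l (fun j => if t = j then 1 else 0) = 1
  have hT : ∀ φ : Fin n → ZMod 2, y φ e = ∑ t ∈ T, φ t := by
    intro φ
    rw [← hl1, LinearMap.pi_apply_eq_sum_univ l φ, Finset.sum_filter]
    refine Finset.sum_congr rfl fun t _ => ?_
    rcases zmod2_cases (l (fun j => if t = j then 1 else 0)) with h1 | h1
    · simp [h1]
    · simp [h1]
  have hzero : ∀ φ : Fin n → ZMod 2, (∀ a ∈ M.E, a ≠ e → φ (G.f a) = φ (G.g a)) →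
      y φ e = 0 := by
    intro φ hφ
    have h1 : (0 : α → ZMod 2) = y φ := by
      refine huniq' _ _ (M.D.zero_mem) fun a ha => ?_
      by_cases haE : a ∈ M.E
      · simp [haE, hφ a haE ha, CharTwo.add_self_eq_zero]
      · simp [haE]
    rw [← h1, Pi.zero_apply]
  refine ⟨n, G, T, ⟨he, hG.on, fun t ht => ?_, ?_, fun x => ?_⟩, hst⟩
  · by_contra htU
    have h1 : l (fun j => if t = j then 1 else 0) = 1 := (Finset.mem_filter.1 ht).2
    rw [hl1, hzero] at h1
    · exact zero_ne_one h1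
    · intro a haE hae
      obtain ⟨h2, h3, -⟩ := hG.on a (Finset.mem_sdiff.2 ⟨haE, by simpa using hae⟩)
      have h4 : t ≠ G.f a := fun h5 => htU (h5 ▸ h2)
      have h5 : t ≠ G.g a := fun h6 => htU (h6 ▸ h3)
      simp [h4, h5]
  · have h1 := hT (fun _ => 1)
    rw [hzero _ (fun _ _ _ => rfl)] at h1
    simp only [Finset.sum_const, nsmul_eq_mul, mul_one] at h1
    exact ZMod.natCast_eq_zero_iff_even.1 h1.symm
  · have hvec : ∀ φ : Fin n → ZMod 2, G.vec M.E e T φ = y φ := by
      intro φ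
      ext a
      by_cases hae : a = e
      · rw [Gr.vec, if_pos hae, hae, hT φ]
      · rw [Gr.vec, if_neg hae, hya φ a hae]
    constructor
    · intro hx
      have h1 : (fun b => if b = e then 0 else x b) ∈ (M.del {e}).D := by
        refine (LM.mem_del M).2 ⟨fun b hb => ?_, x, hx, fun b hb => ?_⟩
        · simp [Finset.mem_singleton.1 hb]
        · exact if_neg (by simpa using hb)
      obtain ⟨φ, hφ⟩ := hG.mem.1 h1
      refine ⟨φ, ?_⟩
      rw [hvec]
      refine huniq' φ x hx fun a ha => ?_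
      have h2 := hφ a
      simpa [ha] using h2
    · rintro ⟨φ, rfl⟩
      rw [hvec]
      exact hy φ

/-- `e` joins two vertices: `|T| ≤ 2` makes `M` graphic -/
lemma GRep.graphic_of_card_le_two (h : GRep M e G T) (hT : T.card ≤ 2) : Graphic M := by
  have key : ∃ s t : V, ∀ φ : V → ZMod 2, ∑ z ∈ T, φ z = φ s + φ t := by
    have h1 : T.card = 0 ∨ T.card = 2 := by
      have := h.even
      rcases this with ⟨k, hk⟩
      omega
    rcases h1 with h1 | h1
    · rw [Finset.card_eq_zero] at h1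
      refine ⟨G.f e, G.f e, fun φ => ?_⟩
      rw [h1, Finset.sum_empty, CharTwo.add_self_eq_zero]
    · obtain ⟨s, t, hst, rfl⟩ := Finset.card_eq_two.1 h1
      exact ⟨s, t, fun φ => Finset.sum_pair hst⟩
  obtain ⟨s, t, hst⟩ := key
  refine graphic_of_mem' (f := fun a => if a = e then s else G.f a)
    (g := fun a => if a = e then t else G.g a) fun x => ?_
  rw [h.mem]
  have hv : ∀ φ : V → ZMod 2, ∀ a, G.vec M.E e T φ a =
      if a ∈ M.E then φ (if a = e then s else G.f a) + φ (if a = e then t else G.g a) else 0 := by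
    intro φ a
    by_cases hae : a = e
    · simp [Gr.vec, hae, h.he, hst]
    · simp [Gr.vec, hae]
  constructor
  · rintro ⟨φ, rfl⟩
    exact ⟨φ, hv φ⟩
  · rintro ⟨φ, hφ⟩
    refine ⟨φ, ?_⟩
    ext a
    rw [hφ a, hv φ a]

/-- change of representation at a vertex `q`: replace the graph by another one with the same
vectors. `ψ` is an automorphism of the labellings (`ψ φ x = φ x` for `x ≠ q` and
`ψ φ q = φ q + ∑ x ∈ Z, φ x` with `Z` of even size, `q ∉ Z`); the hypothesis compares the vectors of the two grafts. -/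
lemma GRep.swap {e' : α} {G' : Gr α V} {T' : Finset V} (h : GRep M e G T) (q : V) (Z : Finset V)
    (hq : q ∉ Z) (he' : e' ∈ M.E) (on' : G'.On (M.E \ {e'})) (TU' : T' ⊆ G'.U)
    (even' : Even T'.card)
    (hv : ∀ φ : V → ZMod 2, G'.vec M.E e' T' φ =
      G.vec M.E e T (fun x => if x = q then φ q + ∑ z ∈ Z, φ z else φ x)) :
    GRep M e' G' T' := by
  have hinv : ∀ φ : V → ZMod 2, (fun x => if x = q then
      (fun x => if x = q then φ q + ∑ z ∈ Z, φ z else φ x) q +
        ∑ z ∈ Z, (fun x => if x = q then φ q + ∑ z ∈ Z, φ z else φ x) z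
      else (fun x => if x = q then φ q + ∑ z ∈ Z, φ z else φ x) x) = φ := by
    intro φ
    have h1 : ∑ z ∈ Z, (if z = q then φ q + ∑ z ∈ Z, φ z else φ z) = ∑ z ∈ Z, φ z := by
      refine Finset.sum_congr rfl fun z hz => ?_
      have hzq : z ≠ q := fun h2 => hq (h2 ▸ hz)
      rw [if_neg hzq]
    ext x
    by_cases hx : x = q
    · subst hx
      simp only [if_true]
      rw [h1, add_assoc, CharTwo.add_self_eq_zero, add_zero]
    · simp only [hx, if_false]
  refine ⟨he', on', TU', even', fun x => ?_⟩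
  rw [h.mem]
  constructor
  · rintro ⟨φ, rfl⟩
    refine ⟨fun x => if x = q then φ q + ∑ z ∈ Z, φ z else φ x, ?_⟩
    rw [hv, hinv]
  · rintro ⟨φ, rfl⟩
    exact ⟨_, hv φ⟩

end GRep

end Pool.Agent.H53.Sey
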