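import Pool.Agent.H53.Sey.KerDef

/-!
# S1, part H2: the kernel structure for `K5` (job SEYS-H2)

`W = U \ {x, x', y, y'}`; by `adjW`, `ex`, `uni`, `inj`: `W` is a clique, `|W| = 5 - #classes` (classes =
sets of elements of `T = {x, x', y, y'}` with the same `κ`), and every `w ∈ W` is adjacent to
exactly one element of every class. `N(t)` = neighbours of `t` in `W`, nonempty (`Ker.nbW`); the sets `N(t)` of the
elements of one class partition `W`. Up to the symmetries `swapx`, `swapy`, `swapxy` (a class with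
`x, x'` contains `y` or `y'`, `clx`, `cly`):
 * four classes: `x, x'` would be adjacent in `K5`, hence in `G` (`ex`).
 * `{x, y}, {x'}, {y'}`: `|W| = 2`, `N(x) = {w₁}`, `N(y) = {w₂}`, `N(x') = N(y') = W`:
   `S0 = {x, w₁, x'}`, `S1 = {y, w₂, y'}`.
 * `{x, y, x'}, {y'}`: `|W| = 3`, `N(x) = {w₁}`, `N(x') = {w₂}`, `N(y) = {w₃}`, `N(y') = W`:
   `S0 = {x, w₁, w₂, x'}`, `S1 = {y, w₃, y'}`.
 * `{x, y}, {x', y'}`: `|W| = 3`, `N(x) ⊔ N(y) = W = N(x') ⊔ N(y')`. If `w ∈ N(x) ∩ N(x')`: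
   `S0 = {x, w, x'}`, `S1 = {y, y'} ∪ (W \ {w})`. If `w ∈ N(y) ∩ N(y')` symmetric. Otherwise
   `N(x) = N(y')`, `N(y) = N(x')`; one of them is a single vertex `w`: `KerSmall` (with `s = x`,
   `t = y'` or `s = x'`, `t = y`; `Ker.nb_eq`).
 * one class: `|W| = 4`, `N(t)` four different single vertices: `S0 = {x, w₁, w₂, x'}`,
   `S1 = {y, w₃, w₄, y'}`.
-/

set_option autoImplicit false

namespace Pool.Agent.H53.Sey

open Pool.Agent.H63.Sey

universe u v w

variable {α : Type u} [DecidableEq α] {V : Type v} [DecidableEq V]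

/-! ## Symmetries of the two outcomes -/

lemma KerSmall.swapx {G : Gr α V} {E : Finset α} {x x' y y' : V} (h : KerSmall G E x' x y y') :
    KerSmall G E x x' y y' := by
  obtain ⟨s, hs, t, ht, w, hw, h1, h2⟩ := h
  refine ⟨s, ?_, t, ht, w, hw, h1, ?_⟩
  · simp only [Finset.mem_insert, Finset.mem_singleton] at hs ⊢
    tauto
  · intro z hz
    have := h2 z hz
    tauto

lemma KerSmall.swapy {G : Gr α V} {E : Finset α} {x x' y y' : V} (h : KerSmall G E x x' y' y) :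
    KerSmall G E x x' y y' := by
  obtain ⟨s, hs, t, ht, w, hw, h1, h2⟩ := h
  refine ⟨s, hs, t, ?_, w, hw, ?_, h2⟩
  · simp only [Finset.mem_insert, Finset.mem_singleton] at ht ⊢
    tauto
  · intro z hz
    have := h1 z hz
    tauto

lemma KerSmall.swapxy {G : Gr α V} {E : Finset α} {x x' y y' : V} (h : KerSmall G E y y' x x') :
    KerSmall G E x x' y y' := by
  obtain ⟨s, hs, t, ht, w, hw, h1, h2⟩ := h
  exact ⟨t, ht, s, hs, w, hw, h2, h1⟩

/-- one of the two outcomes -/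
def KerOut (G : Gr α V) (E : Finset α) (x x' y y' : V) : Prop :=
  Lk G E x x' y y' ∨ KerSmall G E x x' y y'

lemma KerOut.swapx {G : Gr α V} {E : Finset α} {x x' y y' : V} (h : KerOut G E x' x y y') :
    KerOut G E x x' y y' := by
  rcases h with h | h
  · exact Or.inl h.swap
  · exact Or.inr h.swapx

lemma KerOut.swapy {G : Gr α V} {E : Finset α} {x x' y y' : V} (h : KerOut G E x x' y' y) :
    KerOut G E x x' y y' := by
  rcases h with h | h
  · exact Or.inl h.symm.swap.symm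
  · exact Or.inr h.swapy

lemma KerOut.swapxy {G : Gr α V} {E : Finset α} {x x' y y' : V} (h : KerOut G E y y' x x') :
    KerOut G E x x' y y' := by
  rcases h with h | h
  · exact Or.inl h.symm
  · exact Or.inr h.swapxy

/-! ## General facts -/

namespace Ker

variable {K : Type} {r : K → K → Prop} {G : Gr α V} {E : Finset α} {x x' y y' : V} {κ : V → K}

/-- `w` is a vertex outside `T` -/
def IsW (G : Gr α V) (x x' y y' w : V) : Prop :=
  w ∈ G.U ∧ w ∉ ({x, x', y, y'} : Finset V)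

lemma IsW.ne {G : Gr α V} {x x' y y' w : V} (h : IsW G x x' y y' w) :
    w ≠ x ∧ w ≠ x' ∧ w ≠ y ∧ w ≠ y' := by
  have := h.2
  simp only [Finset.mem_insert, Finset.mem_singleton, not_or] at this
  exact this

lemma IsW.mk' {G : Gr α V} {x x' y y' w : V} (h : w ∈ G.U) (h1 : w ≠ x) (h2 : w ≠ x')
    (h3 : w ≠ y) (h4 : w ≠ y') : IsW G x x' y y' w := by
  refine ⟨h, ?_⟩
  simp only [Finset.mem_insert, Finset.mem_singleton, not_or]
  exact ⟨h1, h2, h3, h4⟩

lemma nb_x (h : Ker r G E x x' y y' κ) : ∃ w, IsW G x x' y y' w ∧ G.Adj E x w := by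
  obtain ⟨w, hw, hw', ha⟩ := h.nbW
  exact ⟨w, ⟨hw, hw'⟩, ha⟩

lemma nb_x' (h : Ker r G E x x' y y' κ) : ∃ w, IsW G x x' y y' w ∧ G.Adj E x' w := by
  obtain ⟨w, hw, ha⟩ := h.swapx.nb_x
  obtain ⟨h1, h2, h3, h4⟩ := hw.ne
  exact ⟨w, IsW.mk' hw.1 h2 h1 h3 h4, ha⟩

lemma nb_y (h : Ker r G E x x' y y' κ) : ∃ w, IsW G x x' y y' w ∧ G.Adj E y w := by
  obtain ⟨w, hw, ha⟩ := h.swapxy.nb_x
  obtain ⟨h1, h2, h3, h4⟩ := hw.ne
  exact ⟨w, IsW.mk' hw.1 h3 h4 h1 h2, ha⟩

lemma nb_y' (h : Ker r G E x x' y y' κ) : ∃ w, IsW G x x' y y' w ∧ G.Adj E y' w := by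
  obtain ⟨w, hw, ha⟩ := h.swapxy.swapx.nb_x
  obtain ⟨h1, h2, h3, h4⟩ := hw.ne
  exact ⟨w, IsW.mk' hw.1 h3 h4 h2 h1, ha⟩

/-- different vertices outside `T` have different values, also different from those of `T` -/
lemma inj' (h : Ker r G E x x' y y' κ) {w z : V} (hw : IsW G x x' y y' w) (hz : z ∈ G.U)
    (hne : w ≠ z) : κ w ≠ κ z := fun he => hne (h.inj w hw.1 hw.2 z hz he)

lemma ne_T (h : Ker r G E x x' y y' κ) {w : V} (hw : IsW G x x' y y' w) :
    κ w ≠ κ x ∧ κ w ≠ κ x' ∧ κ w ≠ κ y ∧ κ w ≠ κ y' := by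
  obtain ⟨h1, h2, h3, h4⟩ := hw.ne
  exact ⟨h.inj' hw h.mx h1, h.inj' hw h.mx' h2, h.inj' hw h.my h3, h.inj' hw h.my' h4⟩

/-- a vertex with the value of a vertex of `T` is in `T` -/
lemma mem_T (h : Ker r G E x x' y y' κ) {z t : V} (hz : z ∈ G.U) (ht : t ∈ G.U)
    (htT : t = x ∨ t = x' ∨ t = y ∨ t = y') (he : κ z = κ t) : z = x ∨ z = x' ∨ z = y ∨ z = y' := by
  by_contra hcon
  simp only [not_or] at hcon
  have hw : IsW G x x' y y' z := IsW.mk' hz hcon.1 hcon.2.1 hcon.2.2.1 hcon.2.2.2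
  have := h.inj z hz hw.2 t ht he
  rcases htT with h1 | h1 | h1 | h1 <;> subst h1 <;> simp_all

/-- two vertices outside `T` with related values are adjacent -/
lemma adjWW (h : Ker r G E x x' y y' κ) {w w' : V} (hw : IsW G x x' y y' w)
    (hw' : IsW G x x' y y' w') (hr : r (κ w) (κ w')) : G.Adj E w w' := by
  obtain ⟨z, hz, z', hz', e1, e2, ha⟩ := h.ex _ _ hr
  have h1 := h.inj w hw.1 hw.2 z hz e1.symm
  have h2 := h.inj w' hw'.1 hw'.2 z' hz' e2.symm
  rw [h1, h2]; exact ha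

/-- a vertex outside `T` is adjacent to a vertex in every related class -/
lemma adjWT (h : Ker r G E x x' y y' κ) {w t : V} (hw : IsW G x x' y y' w) (ht : t ∈ G.U)
    (htT : t = x ∨ t = x' ∨ t = y ∨ t = y') (hr : r (κ w) (κ t)) :
    ∃ z, (z = x ∨ z = x' ∨ z = y ∨ z = y') ∧ κ z = κ t ∧ G.Adj E w z := by
  obtain ⟨z, hz, z', hz', e1, e2, ha⟩ := h.ex _ _ hr
  have h1 := h.inj w hw.1 hw.2 z hz e1.symm
  refine ⟨z', h.mem_T hz' ht htT e2, e2, ?_⟩
  rw [h1]; exact ha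

/-- the neighbours outside `T` of two vertices of a class are disjoint -/
lemma uni' (h : Ker r G E x x' y y' κ) {a b t t' : V} (ha : IsW G x x' y y' a) (ht : t ∈ G.U)
    (ht' : t' ∈ G.U) (he : κ t = κ t') (hne : t ≠ t') (h1 : G.Adj E t a) (h2 : G.Adj E t' b) :
    a ≠ b := by
  rintro rfl
  exact hne (h.uni a ha.1 ha.2 t ht t' ht' he h1.symm h2.symm)

end Ker

/-! ## The case `K5` -/

section five

variable {G : Gr α V} {E : Finset α} {x x' y y' : V} {κ : V → Fin 5}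

open Ker

/-- the basic linkage -/
lemma Ker.lk5 (h : Ker (fun c c' => c ≠ c') G E x x' y y' κ) {a a' b b' : V}
    (ha : IsW G x x' y y' a) (ha' : IsW G x x' y y' a') (hb : IsW G x x' y y' b)
    (hb' : IsW G x x' y y' b') (hxa : G.Adj E x a) (hxa' : G.Adj E x' a') (hyb : G.Adj E y b)
    (hyb' : G.Adj E y' b') (h1 : a ≠ b) (h2 : a ≠ b') (h3 : a' ≠ b) (h4 : a' ≠ b') :
    Lk G E x x' y y' := by
  have key : ∀ {s s' c c' : V}, IsW G x x' y y' c → IsW G x x' y y' c' → G.Adj E s c →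
      G.Adj E s' c' → G.Cn E {s', c', c, s} := by
    intro s s' c c' hc hc' hsc hsc'
    have e1 : G.Cn E {s} := Gr.Cn.single E s
    have e2 : G.Cn E {c, s} := e1.insert (Finset.mem_singleton_self s) hsc.symm
    have e3 : G.Cn E {c', c, s} := by
      by_cases hcc : c' = c
      · rw [hcc, Finset.insert_eq_of_mem (Finset.mem_insert_self c {s})]
        exact e2
      · exact e2.insert (Finset.mem_insert_self c {s}) (h.adjWW hc' hc (h.inj' hc' hc.1 hcc))
    exact e3.insert (Finset.mem_insert_self c' {c, s}) hsc'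
  obtain ⟨a1, a2, a3, a4⟩ := ha.ne
  obtain ⟨a1', a2', a3', a4'⟩ := ha'.ne
  obtain ⟨b1, b2, b3, b4⟩ := hb.ne
  obtain ⟨b1', b2', b3', b4'⟩ := hb'.ne
  obtain ⟨d1, d2, d3, d4, d5, d6⟩ := h.dist
  refine ⟨{x', a', a, x}, {y', b', b, y}, ?_, ?_, ?_, key ha ha' hxa hxa', key hb hb' hyb hyb',
    by simp, by simp, by simp, by simp⟩
  · intro z hz
    simp only [Finset.mem_insert, Finset.mem_singleton] at hz
    rcases hz with rfl | rfl | rfl | rfl
    · exact h.mx'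
    · exact ha'.1
    · exact ha.1
    · exact h.mx
  · intro z hz
    simp only [Finset.mem_insert, Finset.mem_singleton] at hz
    rcases hz with rfl | rfl | rfl | rfl
    · exact h.my'
    · exact hb'.1
    · exact hb.1
    · exact h.my
  · rw [Finset.disjoint_left]
    intro z hz hz'
    simp only [Finset.mem_insert, Finset.mem_singleton] at hz hz'
    rcases hz with rfl | rfl | rfl | rfl <;> rcases hz' with hz' | hz' | hz' | hz' <;>
      simp_all [eq_comm]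

/-- classes `{x, y}`, `{x'}`, `{y'}` -/
lemma Ker.five_b (h : Ker (fun c c' => c ≠ c') G E x x' y y' κ) (hxy : κ x = κ y)
    (h1 : κ x' ≠ κ x) (h2 : κ y' ≠ κ x) (h3 : κ x' ≠ κ y') : Lk G E x x' y y' := by
  obtain ⟨a, ha, hxa⟩ := h.nb_x
  obtain ⟨b, hb, hyb⟩ := h.nb_y
  obtain ⟨d1, d2, d3, d4, d5, d6⟩ := h.dist
  have hab : a ≠ b := h.uni' ha h.mx h.my hxy d2 hxa hyb
  have hxa' : G.Adj E x' a := by
    obtain ⟨z, hz, e, hadj⟩ := h.adjWT ha h.mx' (by simp) (h.ne_T ha).2.1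
    rcases hz with rfl | rfl | rfl | rfl
    · exact absurd e.symm h1
    · exact hadj.symm
    · exact absurd (e.symm.trans hxy.symm) h1
    · exact absurd e.symm h3
  have hyb' : G.Adj E y' b := by
    obtain ⟨z, hz, e, hadj⟩ := h.adjWT hb h.my' (by simp) (h.ne_T hb).2.2.2
    rcases hz with rfl | rfl | rfl | rfl
    · exact absurd e.symm h2
    · exact absurd e h3
    · exact absurd (e.symm.trans hxy.symm) h2
    · exact hadj.symm
  exact h.lk5 ha ha hb hb hxa hxa' hyb hyb' hab hab hab hab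

/-- a class with `x, x', y` -/
lemma Ker.five_a (h : Ker (fun c c' => c ≠ c') G E x x' y y' κ) (hxy : κ x = κ y)
    (hxx : κ x = κ x') : Lk G E x x' y y' := by
  obtain ⟨a, ha, hxa⟩ := h.nb_x
  obtain ⟨a', ha', hxa'⟩ := h.nb_x'
  obtain ⟨b, hb, hyb⟩ := h.nb_y
  obtain ⟨d1, d2, d3, d4, d5, d6⟩ := h.dist
  have hab : a ≠ b := h.uni' ha h.mx h.my hxy d2 hxa hyb
  have hab' : a' ≠ b := h.uni' ha' h.mx' h.my (hxx.symm.trans hxy) d4 hxa' hyb
  by_cases hxy' : κ x = κ y'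
  · obtain ⟨b', hb', hyb'⟩ := h.nb_y'
    exact h.lk5 ha ha' hb hb' hxa hxa' hyb hyb' hab (h.uni' ha h.mx h.my' hxy' d3 hxa hyb') hab'
      (h.uni' ha' h.mx' h.my' (hxx.symm.trans hxy') d5 hxa' hyb')
  · have hyb' : G.Adj E y' b := by
      obtain ⟨z, hz, e, hadj⟩ := h.adjWT hb h.my' (by simp) (h.ne_T hb).2.2.2
      rcases hz with rfl | rfl | rfl | rfl
      · exact absurd e hxy'
      · exact absurd (hxx.trans e) hxy'
      · exact absurd (hxy.trans e) hxy'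
      · exact hadj.symm
    exact h.lk5 ha ha' hb hb hxa hxa' hyb hyb' hab hab hab' hab'

/-- classes `{x, y}`, `{x', y'}` -/
lemma Ker.five_c (h : Ker (fun c c' => c ≠ c') G E x x' y y' κ) (hxy : κ x = κ y)
    (hxy' : κ x' = κ y') (hxx : κ x ≠ κ x') : KerOut G E x x' y y' := by
  obtain ⟨d1, d2, d3, d4, d5, d6⟩ := h.dist
  -- neighbours in the two classes
  have hcl : ∀ w, IsW G x x' y y' w → G.Adj E x w ∨ G.Adj E y w := by
    intro w hw
    obtain ⟨z, hz, e, hadj⟩ := h.adjWT hw h.mx (by simp) (h.ne_T hw).1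
    rcases hz with rfl | rfl | rfl | rfl
    · exact Or.inl hadj.symm
    · exact absurd e.symm hxx
    · exact Or.inr hadj.symm
    · exact absurd (e.symm.trans hxy'.symm) hxx
  have hcl' : ∀ w, IsW G x x' y y' w → G.Adj E x' w ∨ G.Adj E y' w := by
    intro w hw
    obtain ⟨z, hz, e, hadj⟩ := h.adjWT hw h.mx' (by simp) (h.ne_T hw).2.1
    rcases hz with rfl | rfl | rfl | rfl
    · exact absurd e hxx
    · exact Or.inl hadj.symm
    · exact absurd (hxy.trans e) hxx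
    · exact Or.inr hadj.symm
  by_cases hc1 : ∃ w, IsW G x x' y y' w ∧ G.Adj E x w ∧ G.Adj E x' w
  · obtain ⟨w, hw, h1, h2⟩ := hc1
    obtain ⟨b, hb, hyb⟩ := h.nb_y
    obtain ⟨b', hb', hyb'⟩ := h.nb_y'
    have e1 : w ≠ b := h.uni' hw h.mx h.my hxy d2 h1 hyb
    have e2 : w ≠ b' := h.uni' hw h.mx' h.my' hxy' d5 h2 hyb'
    exact Or.inl (h.lk5 hw hw hb hb' h1 h2 hyb hyb' e1 e2 e1 e2)
  by_cases hc2 : ∃ w, IsW G x x' y y' w ∧ G.Adj E y w ∧ G.Adj E y' w
  · obtain ⟨w, hw, h1, h2⟩ := hc2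
    obtain ⟨a, ha, hxa⟩ := h.nb_x
    obtain ⟨a', ha', hxa'⟩ := h.nb_x'
    have e1 : a ≠ w := h.uni' ha h.mx h.my hxy d2 hxa h1
    have e2 : a' ≠ w := h.uni' ha' h.mx' h.my' hxy' d5 hxa' h2
    exact Or.inl (h.lk5 ha ha' hw hw hxa hxa' h1 h2 e1 e1 e2 e2)
  right
  have hxy2 : ∀ w, IsW G x x' y y' w → (G.Adj E x w ↔ G.Adj E y' w) := by
    intro w hw
    constructor
    · intro hx
      rcases hcl' w hw with h1 | h1
      · exact absurd ⟨w, hw, hx, h1⟩ hc1
      · exact h1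
    · intro hx
      rcases hcl w hw with h1 | h1
      · exact h1
      · exact absurd ⟨w, hw, h1, hx⟩ hc2
  have hyx2 : ∀ w, IsW G x x' y y' w → (G.Adj E y w ↔ G.Adj E x' w) := by
    intro w hw
    constructor
    · intro hx
      rcases hcl' w hw with h1 | h1
      · exact h1
      · exact absurd ⟨w, hw, hx, h1⟩ hc2
    · intro hx
      rcases hcl w hw with h1 | h1
      · exact absurd ⟨w, hw, h1, hx⟩ hc1
      · exact h1
  -- one of the two sets is a single vertex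
  obtain ⟨a, ha, hxa⟩ := h.nb_x
  obtain ⟨b, hb, hyb⟩ := h.nb_y
  by_cases hs1 : ∀ z, IsW G x x' y y' z → G.Adj E x z → z = a
  · -- `s = x`, `t = y'`
    have e1 := (h.nb_eq (w := a) (fun z hz hz' hadj => hs1 z ⟨hz, hz'⟩ hadj)).2.2.2
    have e2 := (h.swapxy.swapx.nb_eq (w := a) (fun z hz hz' hadj => by
      have hz2 : IsW G x x' y y' z := by
        have : IsW G y' y x x' z := ⟨hz, hz'⟩
        obtain ⟨g1, g2, g3, g4⟩ := this.ne
        exact IsW.mk' hz g3 g4 g2 g1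
      exact hs1 z hz2 ((hxy2 z hz2).2 hadj))).2.2.2
    exact ⟨x, by simp, y', by simp, a, ha.1, e1, e2⟩
  by_cases hs2 : ∀ z, IsW G x x' y y' z → G.Adj E y z → z = b
  · -- `s = x'`, `t = y`
    have e1 := (h.swapx.nb_eq (w := b) (fun z hz hz' hadj => by
      have hz2 : IsW G x x' y y' z := by
        have : IsW G x' x y y' z := ⟨hz, hz'⟩
        obtain ⟨g1, g2, g3, g4⟩ := this.ne
        exact IsW.mk' hz g2 g1 g3 g4
      exact hs2 z hz2 ((hyx2 z hz2).2 hadj))).2.2.2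
    have e2 := (h.swapxy.nb_eq (w := b) (fun z hz hz' hadj => by
      have hz2 : IsW G x x' y y' z := by
        have : IsW G y y' x x' z := ⟨hz, hz'⟩
        obtain ⟨g1, g2, g3, g4⟩ := this.ne
        exact IsW.mk' hz g3 g4 g1 g2
      exact hs2 z hz2 hadj)).2.2.2
    exact ⟨x', by simp, y, by simp, b, hb.1, e1, e2⟩
  exfalso
  push Not at hs1 hs2
  obtain ⟨a2, ha2, hxa2, hne⟩ := hs1
  obtain ⟨b2, hb2, hyb2, hne'⟩ := hs2
  have f1 : a ≠ b := h.uni' ha h.mx h.my hxy d2 hxa hyb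
  have f2 : a ≠ b2 := h.uni' ha h.mx h.my hxy d2 hxa hyb2
  have f3 : a2 ≠ b := h.uni' ha2 h.mx h.my hxy d2 hxa2 hyb
  have f4 : a2 ≠ b2 := h.uni' ha2 h.mx h.my hxy d2 hxa2 hyb2
  have k1 := h.inj' ha hb.1 f1
  have k2 := h.inj' ha hb2.1 f2
  have k3 := h.inj' ha2 hb.1 f3
  have k4 := h.inj' ha2 hb2.1 f4
  have k5 := h.inj' ha2 ha.1 hne
  have k6 := h.inj' hb2 hb.1 hne'
  obtain ⟨l1, l2, -, -⟩ := h.ne_T ha
  obtain ⟨l3, l4, -, -⟩ := h.ne_T ha2
  obtain ⟨l5, l6, -, -⟩ := h.ne_T hb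
  obtain ⟨l7, l8, -, -⟩ := h.ne_T hb2
  have p1 := (κ a).isLt
  have p2 := (κ a2).isLt
  have p3 := (κ b).isLt
  have p4 := (κ b2).isLt
  have p5 := (κ x).isLt
  have p6 := (κ x').isLt
  rw [Ne, Fin.ext_iff] at k1 k2 k3 k4 k5 k6 l1 l2 l3 l4 l5 l6 l7 l8 hxx
  omega

end five

theorem ker_five {G : Gr α V} {E : Finset α} {x x' y y' : V} {κ : V → Fin 5}
    (h : Ker (fun c c' => c ≠ c') G E x x' y y' κ) :
    Lk G E x x' y y' ∨ KerSmall G E x x' y y' := by
  change KerOut G E x x' y y'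
  by_cases hxx : κ x = κ x'
  · rcases h.clx hxx with h1 | h1
    · exact Or.inl (h.five_a h1 hxx)
    · exact KerOut.swapy (Or.inl (h.swapy.five_a h1 hxx))
  by_cases hyy : κ y = κ y'
  · rcases h.cly hyy with h1 | h1
    · exact KerOut.swapxy (Or.inl (h.swapxy.five_a h1 hyy))
    · exact KerOut.swapxy (KerOut.swapy (Or.inl (h.swapxy.swapy.five_a h1 hyy)))
  by_cases h1 : κ x = κ y
  · by_cases h2 : κ x' = κ y'
    · exact h.five_c h1 h2 hxx
    · exact Or.inl (h.five_b h1 (Ne.symm hxx) (fun e => hyy (h1.symm.trans e.symm)) h2)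
  by_cases h2 : κ x = κ y'
  · apply KerOut.swapy
    by_cases h3 : κ x' = κ y
    · exact h.swapy.five_c h2 h3 hxx
    · exact Or.inl (h.swapy.five_b h2 (Ne.symm hxx) (fun e => h1 e.symm) h3)
  by_cases h3 : κ x' = κ y
  · apply KerOut.swapx
    exact Or.inl (h.swapx.five_b h3 hxx (fun e => hyy (h3.symm.trans e.symm)) h2)
  by_cases h4 : κ x' = κ y'
  · apply KerOut.swapx
    apply KerOut.swapy
    exact Or.inl (h.swapx.swapy.five_b h4 hxx (fun e => h3 e.symm) h1)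
  exfalso
  obtain ⟨z, hz, z', hz', e1, e2, hadj⟩ := h.ex (κ x) (κ x') hxx
  have hzx : z = x := by
    rcases h.mem_T hz h.mx (by simp) e1 with rfl | rfl | rfl | rfl
    · rfl
    · exact absurd e1.symm hxx
    · exact absurd e1.symm h1
    · exact absurd e1.symm h2
  have hzx' : z' = x' := by
    rcases h.mem_T hz' h.mx' (by simp) e2 with rfl | rfl | rfl | rfl
    · exact absurd e2 hxx
    · rfl
    · exact absurd e2.symm h3
    · exact absurd e2.symm h4
  rw [hzx, hzx'] at hadj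
  exact h.nxx hadj

end Pool.Agent.H53.Sey
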