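import Pool.Agent.H53.Sey.Ker5

/-!
# S1, part H3: the kernel structure for `K33` (job SEYS-H3)

`W = U \ {x, x', y, y'}`, classes as in part H2, `|W| = 6 - #classes`. The side of a vertex is `(κ z).1`.
Two vertices of `W` are adjacent iff they are on different sides; `w ∈ W` is adjacent to exactly one
element of every class on the other side and to no element of a class on its side. Each side
consists of three values of `κ`. Every `t ∈ T` has a neighbour in `W` (`Ker.nbW`). Up to the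
symmetries `swapx`, `swapy`, `swapxy`:
 * four classes: `x, x'` are not adjacent so on the same side `A` (`ex`); `y, y'` the same; `T` is not
   contained in one side, so `A = {x, x', c}`, `B = {y, y', d}`: `S0 = {x, d, x'}`,
   `S1 = {y, c, y'}`.
 * `{x, y}, {x'}, {y'}`, `|W| = 3`: the class `t = {x, y}` has at least two neighbours in `W` (one of
   `x`, one of `y`). So not both of `x', y'` are on the side opposite to `t`.
   `x'` opposite, `y'` on the side of `t`: sides `{t, y', w₃}`, `{x', w₁, w₂}`, `N(x) = {w₁}`,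
   `N(y) = {w₂}`: `S0 = {x, w₁, w₃, x'}`, `S1 = {y, w₂, y'}`. `y'` opposite: symmetric
   (`swapxy`). Both on the side of `t`: `N(x) ⊔ N(y) = W = N(x') = N(y')`: `S0 = {x, w, x'}`,
   `w ∈ N(x)`, `S1 = {y, w', y'}`, `w' ∈ N(y)`.
 * `{x, y, x'}, {y'}`, `|W| = 4`: the class has three neighbours in `W`, so `y'` is on its side,
   together with `w₀`; opposite `w₁, w₂, w₃`, `N(x) = {w₁}`, `N(y) = {w₂}`, `N(x') = {w₃}`:
   `S0 = {x, w₁, w₀, w₃, x'}`, `S1 = {y, w₂, y'}`.
 * `{x, y}, {x', y'}`, `|W| = 4`, on different sides: sides `{t, w₃, w₄}`, `{t', w₁, w₂}`, `N(x) =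
   {w₁}`, `N(y) = {w₂}`, `N(x') = {w₃}` or `{w₄}`, `N(y')` the other: `S0 = {x, x'} ∪ N(x) ∪ N(x')`,
   `S1` the same for `y, y'`.
 * the same on one side: `{t, t', w₀}`, `{w₁, w₂, w₃} =: W'`, `N(x) ⊔ N(y) = W' = N(x') ⊔ N(y')`: if
   `w ∈ N(x) ∩ N(x')`: `S0 = {x, w, x'}`, `S1 = {y, y', w₀} ∪ (W' \ {w})`; `w ∈ N(y) ∩ N(y')`
   symmetric; otherwise `N(x) = N(y')`, `N(y) = N(x')`, one of them a single vertex: `KerSmall`
   (`Ker.nb_eq`).
 * one class: four neighbours in `W`, but the opposite side has only three vertices: impossible.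
-/

set_option autoImplicit false

namespace Pool.Agent.H53.Sey

open Pool.Agent.H63.Sey

universe u v w

variable {α : Type u} [DecidableEq α] {V : Type v} [DecidableEq V]


namespace Ker

section general

variable {K : Type} {r : K → K → Prop} {G : Gr α V} {E : Finset α} {x x' y y' : V} {κ : V → K}

/-- linkages from two disjoint sets of vertices outside `T` -/
lemma lkSets (h : Ker r G E x x' y y' κ) {A B : Finset V} (hA : ∀ z ∈ A, IsW G x x' y y' z)
    (hB : ∀ z ∈ B, IsW G x x' y y' z) (hAB : Disjoint A B)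
    (cA : G.Cn E (insert x' (insert x A))) (cB : G.Cn E (insert y' (insert y B))) :
    Lk G E x x' y y' := by
  obtain ⟨d1, d2, d3, d4, d5, d6⟩ := h.dist
  refine ⟨_, _, ?_, ?_, ?_, cA, cB, by simp, by simp, by simp, by simp⟩
  · intro z hz
    simp only [Finset.mem_insert] at hz
    rcases hz with rfl | rfl | hz
    · exact h.mx'
    · exact h.mx
    · exact (hA z hz).1
  · intro z hz
    simp only [Finset.mem_insert] at hz
    rcases hz with rfl | rfl | hz
    · exact h.my'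
    · exact h.my
    · exact (hB z hz).1
  · rw [Finset.disjoint_left]
    intro z hz hz'
    simp only [Finset.mem_insert] at hz hz'
    rcases hz with rfl | rfl | hz <;> rcases hz' with hz' | hz' | hz'
    · exact d5 hz'
    · exact d4 hz'
    · exact (hB _ hz').ne.2.1 rfl
    · exact d3 hz'
    · exact d2 hz'
    · exact (hB _ hz').ne.1 rfl
    · subst hz'; exact (hA _ hz).ne.2.2.2 rfl
    · subst hz'; exact (hA _ hz).ne.2.2.1 rfl
    · exact Finset.disjoint_left.1 hAB hz hz'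

end general

section paths

variable {G : Gr α V} {E : Finset α}

lemma pth1 {x x' a : V} (h1 : G.Adj E x a) (h2 : G.Adj E x' a) :
    G.Cn E (insert x' (insert x {a})) := by
  have e1 : G.Cn E {a} := Gr.Cn.single E a
  have e2 : G.Cn E (insert x {a}) := e1.insert (Finset.mem_singleton_self a) h1
  exact e2.insert (by simp) h2

lemma pth2 {x x' a a' : V} (h1 : G.Adj E x a) (h2 : G.Adj E a' a) (h3 : G.Adj E x' a') :
    G.Cn E (insert x' (insert x {a', a})) := by
  have e1 : G.Cn E {a} := Gr.Cn.single E a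
  have e2 : G.Cn E {a', a} := e1.insert (Finset.mem_singleton_self a) h2
  have e3 : G.Cn E (insert x {a', a}) := e2.insert (by simp) h1
  exact e3.insert (by simp) h3

lemma pth3 {x x' a c a' : V} (h1 : G.Adj E x a) (h2 : G.Adj E c a) (h3 : G.Adj E a' c)
    (h4 : G.Adj E x' a') : G.Cn E (insert x' (insert x {a', c, a})) := by
  have e1 : G.Cn E {a} := Gr.Cn.single E a
  have e2 : G.Cn E {c, a} := e1.insert (Finset.mem_singleton_self a) h2
  have e3 : G.Cn E {a', c, a} := e2.insert (by simp) h3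
  have e4 : G.Cn E (insert x {a', c, a}) := e3.insert (by simp) h1
  exact e4.insert (by simp) h4

end paths

end Ker

/-! ## Small facts on `Fin 2 × Fin 3` -/

lemma third (c1 c2 : Fin 2 × Fin 3) : ∃ c3, c3.1 = c1.1 ∧ c3 ≠ c1 ∧ c3 ≠ c2 := by
  revert c1 c2; decide

lemma side_eq (a b c : Fin 2) (h1 : a ≠ b) (h2 : c ≠ b) : a = c := by
  revert a b c; decide

lemma four_fin3 (a b c d : Fin 3) (h1 : a ≠ b) (h2 : a ≠ c) (h3 : a ≠ d) (h4 : b ≠ c) (h5 : b ≠ d)
    (h6 : c ≠ d) : False := by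
  rw [Ne, Fin.ext_iff] at *
  omega

/-- four different values are not on one side -/
lemma four_side (a b c d : Fin 2 × Fin 3) (e1 : a.1 = b.1) (e2 : a.1 = c.1) (e3 : a.1 = d.1)
    (h1 : a ≠ b) (h2 : a ≠ c) (h3 : a ≠ d) (h4 : b ≠ c) (h5 : b ≠ d)
    (h6 : c ≠ d) : False := by
  have key : ∀ u v : Fin 2 × Fin 3, u.1 = v.1 → u ≠ v → u.2 ≠ v.2 :=
    fun u v h h' h'' => h' (Prod.ext h h'')
  exact four_fin3 a.2 b.2 c.2 d.2 (key _ _ e1 h1) (key _ _ e2 h2) (key _ _ e3 h3)
    (key _ _ (e1.symm.trans e2) h4) (key _ _ (e1.symm.trans e3) h5) (key _ _ (e2.symm.trans e3) h6)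

/-! ## The case `K33` -/

section six

variable {G : Gr α V} {E : Finset α} {x x' y y' : V} {κ : V → Fin 2 × Fin 3}

open Ker

/-- a vertex outside `T` on the side of `c1`, different from `c1`, `c2` -/
lemma Ker.third' (h : Ker (fun c c' => c.1 ≠ c'.1) G E x x' y y' κ) (c1 c2 : Fin 2 × Fin 3)
    (hT : ∀ t, (t = x ∨ t = x' ∨ t = y ∨ t = y') → (κ t).1 = c1.1 → κ t = c1 ∨ κ t = c2) :
    ∃ w, IsW G x x' y y' w ∧ (κ w).1 = c1.1 := by
  obtain ⟨c3, h1, h2, h3⟩ := third c1 c2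
  obtain ⟨w, hw, hwc⟩ := h.surj c3
  have key : ∀ t, (t = x ∨ t = x' ∨ t = y ∨ t = y') → w ≠ t := by
    rintro t ht rfl
    rcases hT w ht (by rw [hwc, h1]) with h4 | h4
    · exact h2 (hwc.symm.trans h4)
    · exact h3 (hwc.symm.trans h4)
  exact ⟨w, IsW.mk' hw (key x (by simp)) (key x' (by simp)) (key y (by simp)) (key y' (by simp)),
    by rw [hwc, h1]⟩

/-- neighbours outside `T` are on the opposite side -/
lemma Ker.opp (h : Ker (fun c c' => c.1 ≠ c'.1) G E x x' y y' κ) {w t : V}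
    (hw : IsW G x x' y y' w) (ht : t ∈ G.U) (hadj : G.Adj E t w) : (κ w).1 ≠ (κ t).1 :=
  h.adjW w hw.1 hw.2 t ht hadj.symm

/-- a vertex `t` of `T` alone in its class is adjacent to all vertices outside `T` on the other
side -/
lemma Ker.alone (h : Ker (fun c c' => c.1 ≠ c'.1) G E x x' y y' κ) {w t : V}
    (hw : IsW G x x' y y' w) (ht : t ∈ G.U) (htT : t = x ∨ t = x' ∨ t = y ∨ t = y')
    (hal : ∀ t', (t' = x ∨ t' = x' ∨ t' = y ∨ t' = y') → κ t' = κ t → t' = t)
    (hs : (κ w).1 ≠ (κ t).1) : G.Adj E t w := by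
  obtain ⟨z, hz, e, hadj⟩ := h.adjWT hw ht htT hs
  rw [hal z hz e] at hadj
  exact hadj.symm

/-- four classes -/
lemma Ker.six_d (h : Ker (fun c c' => c.1 ≠ c'.1) G E x x' y y' κ) (h1 : κ x ≠ κ x')
    (h2 : κ y ≠ κ y') (h3 : κ x ≠ κ y) (h4 : κ x ≠ κ y') (h5 : κ x' ≠ κ y) (h6 : κ x' ≠ κ y') :
    Lk G E x x' y y' := by
  have ax : ∀ t', (t' = x ∨ t' = x' ∨ t' = y ∨ t' = y') → κ t' = κ x → t' = x := by
    rintro t (rfl | rfl | rfl | rfl) e
    · rfl
    · exact absurd e.symm h1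
    · exact absurd e.symm h3
    · exact absurd e.symm h4
  have ax' : ∀ t', (t' = x ∨ t' = x' ∨ t' = y ∨ t' = y') → κ t' = κ x' → t' = x' := by
    rintro t (rfl | rfl | rfl | rfl) e
    · exact absurd e h1
    · rfl
    · exact absurd e.symm h5
    · exact absurd e.symm h6
  have ay : ∀ t', (t' = x ∨ t' = x' ∨ t' = y ∨ t' = y') → κ t' = κ y → t' = y := by
    rintro t (rfl | rfl | rfl | rfl) e
    · exact absurd e h3
    · exact absurd e h5
    · rfl
    · exact absurd e.symm h2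
  have ay' : ∀ t', (t' = x ∨ t' = x' ∨ t' = y ∨ t' = y') → κ t' = κ y' → t' = y' := by
    rintro t (rfl | rfl | rfl | rfl) e
    · exact absurd e h4
    · exact absurd e h6
    · exact absurd e h2
    · rfl
  have sx : (κ x).1 = (κ x').1 := by
    by_contra hne
    obtain ⟨z, hz, z', hz', e1, e2, hadj⟩ := h.ex (κ x) (κ x') hne
    have hzx : z = x := ax z (h.mem_T hz h.mx (by simp) e1) e1
    have hzx' : z' = x' := ax' z' (h.mem_T hz' h.mx' (by simp) e2) e2
    rw [hzx, hzx'] at hadj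
    exact h.nxx hadj
  have sy : (κ y).1 = (κ y').1 := by
    by_contra hne
    obtain ⟨z, hz, z', hz', e1, e2, hadj⟩ := h.ex (κ y) (κ y') hne
    have hzx : z = y := ay z (h.mem_T hz h.my (by simp) e1) e1
    have hzx' : z' = y' := ay' z' (h.mem_T hz' h.my' (by simp) e2) e2
    rw [hzx, hzx'] at hadj
    exact h.nyy hadj
  have sxy : (κ x).1 ≠ (κ y).1 := by
    intro e
    exact four_side (κ x) (κ x') (κ y) (κ y') sx e (e.trans sy) h1 h3 h4 h5 h6 h2
  obtain ⟨c, hc, hcs⟩ := h.third' (κ x) (κ x') (by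
    rintro t (rfl | rfl | rfl | rfl) e
    · exact Or.inl rfl
    · exact Or.inr rfl
    · exact absurd e.symm sxy
    · exact absurd (sy.trans e).symm sxy)
  obtain ⟨d, hd, hds⟩ := h.third' (κ y) (κ y') (by
    rintro t (rfl | rfl | rfl | rfl) e
    · exact absurd e sxy
    · exact absurd (sx.trans e) sxy
    · exact Or.inl rfl
    · exact Or.inr rfl)
  have hcd : c ≠ d := by
    rintro rfl
    exact sxy (hcs.symm.trans hds)
  have b1 : G.Adj E x d := h.alone hd h.mx (by simp) ax (by rw [hds]; exact sxy.symm)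
  have b2 : G.Adj E x' d := h.alone hd h.mx' (by simp) ax' (by rw [hds, ← sx]; exact sxy.symm)
  have b3 : G.Adj E y c := h.alone hc h.my (by simp) ay (by rw [hcs]; exact sxy)
  have b4 : G.Adj E y' c := h.alone hc h.my' (by simp) ay' (by rw [hcs, ← sy]; exact sxy)
  refine h.lkSets (A := {d}) (B := {c}) (by simpa using hd) (by simpa using hc) ?_ (pth1 b1 b2)
    (pth1 b3 b4)
  simpa using hcd.symm

/-- classes `{x, y}`, `{x'}`, `{y'}`, with `x'` on the side opposite to `x` -/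
lemma Ker.six_b1 (h : Ker (fun c c' => c.1 ≠ c'.1) G E x x' y y' κ) (hxy : κ x = κ y)
    (h1 : κ x' ≠ κ x) (h2 : κ y' ≠ κ x) (h3 : κ x' ≠ κ y') (hs : (κ x').1 ≠ (κ x).1) :
    Lk G E x x' y y' := by
  obtain ⟨a, ha, hxa⟩ := h.nb_x
  obtain ⟨b, hb, hyb⟩ := h.nb_y
  obtain ⟨d1, d2, d3, d4, d5, d6⟩ := h.dist
  have hab : a ≠ b := h.uni' ha h.mx h.my hxy d2 hxa hyb
  have sa : (κ a).1 ≠ (κ x).1 := h.opp ha h.mx hxa
  have sb : (κ b).1 ≠ (κ x).1 := by rw [hxy]; exact h.opp hb h.my hyb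
  have ax' : ∀ t', (t' = x ∨ t' = x' ∨ t' = y ∨ t' = y') → κ t' = κ x' → t' = x' := by
    rintro t (rfl | rfl | rfl | rfl) e
    · exact absurd e.symm h1
    · rfl
    · exact absurd (hxy.trans e).symm h1
    · exact absurd e.symm h3
  have ay' : ∀ t', (t' = x ∨ t' = x' ∨ t' = y ∨ t' = y') → κ t' = κ y' → t' = y' := by
    rintro t (rfl | rfl | rfl | rfl) e
    · exact absurd e.symm h2
    · exact absurd e h3
    · exact absurd (hxy.trans e).symm h2
    · rfl
  -- `y'` is on the side of `x`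
  have sy' : (κ y').1 = (κ x).1 := by
    by_contra hne
    refine four_side (κ x') (κ y') (κ a) (κ b) (side_eq _ _ _ hs hne) (side_eq _ _ _ hs sa)
      (side_eq _ _ _ hs sb) h3 (h.ne_T ha).2.1.symm (h.ne_T hb).2.1.symm (h.ne_T ha).2.2.2.symm
      (h.ne_T hb).2.2.2.symm (h.inj' ha hb.1 hab)
  obtain ⟨c, hc, hcs⟩ := h.third' (κ x) (κ y') (by
    rintro t (rfl | rfl | rfl | rfl) e
    · exact Or.inl rfl
    · exact absurd e hs
    · exact Or.inl hxy.symm
    · exact Or.inr rfl)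
  have b1 : G.Adj E y' b := h.alone hb h.my' (by simp) ay' (by rw [sy']; exact sb)
  have b2 : G.Adj E x' c := h.alone hc h.mx' (by simp) ax' (by rw [hcs]; exact hs.symm)
  have b3 : G.Adj E c a := h.adjWW hc ha (by rw [hcs]; exact sa.symm)
  refine h.lkSets (A := {c, a}) (B := {b}) ?_ (by simpa using hb) ?_ (pth2 hxa b3 b2)
    (pth1 hyb b1)
  · intro z hz
    simp only [Finset.mem_insert, Finset.mem_singleton] at hz
    rcases hz with rfl | rfl
    · exact hc
    · exact ha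
  · have hcb : c ≠ b := by
      rintro rfl
      exact sb hcs
    simp only [Finset.disjoint_singleton_right, Finset.mem_insert, Finset.mem_singleton, not_or]
    exact ⟨hcb.symm, hab.symm⟩

/-- classes `{x, y}`, `{x'}`, `{y'}` -/
lemma Ker.six_b (h : Ker (fun c c' => c.1 ≠ c'.1) G E x x' y y' κ) (hxy : κ x = κ y)
    (h1 : κ x' ≠ κ x) (h2 : κ y' ≠ κ x) (h3 : κ x' ≠ κ y') : Lk G E x x' y y' := by
  by_cases hs : (κ x').1 = (κ x).1
  swap
  · exact h.six_b1 hxy h1 h2 h3 hs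
  by_cases hs' : (κ y').1 = (κ x).1
  swap
  · exact (h.swapxy.six_b1 hxy.symm (by rw [← hxy]; exact h2) (by rw [← hxy]; exact h1)
      h3.symm (by rw [← hxy]; exact hs')).symm
  obtain ⟨a, ha, hxa⟩ := h.nb_x
  obtain ⟨b, hb, hyb⟩ := h.nb_y
  obtain ⟨d1, d2, d3, d4, d5, d6⟩ := h.dist
  have hab : a ≠ b := h.uni' ha h.mx h.my hxy d2 hxa hyb
  have sa : (κ a).1 ≠ (κ x).1 := h.opp ha h.mx hxa
  have sb : (κ b).1 ≠ (κ x).1 := by rw [hxy]; exact h.opp hb h.my hyb
  have ax' : ∀ t', (t' = x ∨ t' = x' ∨ t' = y ∨ t' = y') → κ t' = κ x' → t' = x' := by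
    rintro t (rfl | rfl | rfl | rfl) e
    · exact absurd e.symm h1
    · rfl
    · exact absurd (hxy.trans e).symm h1
    · exact absurd e.symm h3
  have ay' : ∀ t', (t' = x ∨ t' = x' ∨ t' = y ∨ t' = y') → κ t' = κ y' → t' = y' := by
    rintro t (rfl | rfl | rfl | rfl) e
    · exact absurd e.symm h2
    · exact absurd e h3
    · exact absurd (hxy.trans e).symm h2
    · rfl
  have b1 : G.Adj E y' b := h.alone hb h.my' (by simp) ay' (by rw [hs']; exact sb)
  have b2 : G.Adj E x' a := h.alone ha h.mx' (by simp) ax' (by rw [hs]; exact sa)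
  refine h.lkSets (A := {a}) (B := {b}) (by simpa using ha) (by simpa using hb) ?_ (pth1 hxa b2)
    (pth1 hyb b1)
  simpa using hab

/-- a class with `x, x', y` -/
lemma Ker.six_a (h : Ker (fun c c' => c.1 ≠ c'.1) G E x x' y y' κ) (hxy : κ x = κ y)
    (hxx : κ x = κ x') : Lk G E x x' y y' := by
  obtain ⟨a, ha, hxa⟩ := h.nb_x
  obtain ⟨a', ha', hxa'⟩ := h.nb_x'
  obtain ⟨b, hb, hyb⟩ := h.nb_y
  obtain ⟨d1, d2, d3, d4, d5, d6⟩ := h.dist
  have hab : a ≠ b := h.uni' ha h.mx h.my hxy d2 hxa hyb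
  have hab' : a' ≠ b := h.uni' ha' h.mx' h.my (hxx.symm.trans hxy) d4 hxa' hyb
  have haa' : a ≠ a' := h.uni' ha h.mx h.mx' hxx d1 hxa hxa'
  have sa : (κ a).1 ≠ (κ x).1 := h.opp ha h.mx hxa
  have sa' : (κ a').1 ≠ (κ x).1 := by rw [hxx]; exact h.opp ha' h.mx' hxa'
  have sb : (κ b).1 ≠ (κ x).1 := by rw [hxy]; exact h.opp hb h.my hyb
  by_cases hxy' : κ x = κ y'
  · exfalso
    obtain ⟨b', hb', hyb'⟩ := h.nb_y'
    have sb' : (κ b').1 ≠ (κ x).1 := by rw [hxy']; exact h.opp hb' h.my' hyb'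
    have e1 : a ≠ b' := h.uni' ha h.mx h.my' hxy' d3 hxa hyb'
    have e2 : a' ≠ b' := h.uni' ha' h.mx' h.my' (hxx.symm.trans hxy') d5 hxa' hyb'
    have e3 : b ≠ b' := h.uni' hb h.my h.my' (hxy.symm.trans hxy') d6 hyb hyb'
    exact four_side (κ a) (κ a') (κ b) (κ b') (side_eq _ _ _ sa sa') (side_eq _ _ _ sa sb)
      (side_eq _ _ _ sa sb') (h.inj' ha ha'.1 haa') (h.inj' ha hb.1 hab) (h.inj' ha hb'.1 e1)
      (h.inj' ha' hb.1 hab') (h.inj' ha' hb'.1 e2) (h.inj' hb hb'.1 e3)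
  · have sy' : (κ y').1 = (κ x).1 := by
      by_contra hne
      exact four_side (κ a) (κ a') (κ b) (κ y') (side_eq _ _ _ sa sa') (side_eq _ _ _ sa sb)
        (side_eq _ _ _ sa hne) (h.inj' ha ha'.1 haa') (h.inj' ha hb.1 hab) (h.ne_T ha).2.2.2
        (h.inj' ha' hb.1 hab') (h.ne_T ha').2.2.2 (h.ne_T hb).2.2.2
    have ay' : ∀ t', (t' = x ∨ t' = x' ∨ t' = y ∨ t' = y') → κ t' = κ y' → t' = y' := by
      rintro t (rfl | rfl | rfl | rfl) e
      · exact absurd e hxy'
      · exact absurd (hxx.trans e) hxy'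
      · exact absurd (hxy.trans e) hxy'
      · rfl
    obtain ⟨c, hc, hcs⟩ := h.third' (κ x) (κ y') (by
      rintro t (rfl | rfl | rfl | rfl) e
      · exact Or.inl rfl
      · exact Or.inl hxx.symm
      · exact Or.inl hxy.symm
      · exact Or.inr rfl)
    have b1 : G.Adj E y' b := h.alone hb h.my' (by simp) ay' (by rw [sy']; exact sb)
    have b2 : G.Adj E c a := h.adjWW hc ha (by rw [hcs]; exact sa.symm)
    have b3 : G.Adj E a' c := h.adjWW ha' hc (by rw [hcs]; exact sa')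
    refine h.lkSets (A := {a', c, a}) (B := {b}) ?_ (by simpa using hb) ?_
      (pth3 hxa b2 b3 hxa') (pth1 hyb b1)
    · intro z hz
      simp only [Finset.mem_insert, Finset.mem_singleton] at hz
      rcases hz with rfl | rfl | rfl
      · exact ha'
      · exact hc
      · exact ha
    · have hcb : c ≠ b := by
        rintro rfl
        exact sb hcs
      simp only [Finset.disjoint_singleton_right, Finset.mem_insert, Finset.mem_singleton, not_or]
      exact ⟨hab'.symm, hcb.symm, hab.symm⟩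

/-- classes `{x, y}`, `{x', y'}` on one side and a common neighbour of `x` and `x'` -/
lemma Ker.six_c1 (h : Ker (fun c c' => c.1 ≠ c'.1) G E x x' y y' κ) (hxy : κ x = κ y)
    (hxy' : κ x' = κ y') (hs : (κ x').1 = (κ x).1) {w : V}
    (hw : IsW G x x' y y' w) (h1 : G.Adj E x w) (h2 : G.Adj E x' w) : Lk G E x x' y y' := by
  obtain ⟨d1, d2, d3, d4, d5, d6⟩ := h.dist
  obtain ⟨b, hb, hyb⟩ := h.nb_y
  obtain ⟨b', hb', hyb'⟩ := h.nb_y'
  have e1 : w ≠ b := h.uni' hw h.mx h.my hxy d2 h1 hyb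
  have e2 : w ≠ b' := h.uni' hw h.mx' h.my' hxy' d5 h2 hyb'
  have sw : (κ w).1 ≠ (κ x).1 := h.opp hw h.mx h1
  have sb : (κ b).1 ≠ (κ x).1 := by rw [hxy]; exact h.opp hb h.my hyb
  have sb' : (κ b').1 ≠ (κ x).1 := by rw [← hs, hxy']; exact h.opp hb' h.my' hyb'
  obtain ⟨c, hc, hcs⟩ := h.third' (κ x) (κ x') (by
    rintro t (rfl | rfl | rfl | rfl) e
    · exact Or.inl rfl
    · exact Or.inr rfl
    · exact Or.inl hxy.symm
    · exact Or.inr hxy'.symm)
  have b2 : G.Adj E c b := h.adjWW hc hb (by rw [hcs]; exact sb.symm)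
  have b3 : G.Adj E b' c := h.adjWW hb' hc (by rw [hcs]; exact sb')
  refine h.lkSets (A := {w}) (B := {b', c, b}) (by simpa using hw) ?_ ?_ (pth1 h1 h2)
    (pth3 hyb b2 b3 hyb')
  · intro z hz
    simp only [Finset.mem_insert, Finset.mem_singleton] at hz
    rcases hz with rfl | rfl | rfl
    · exact hb'
    · exact hc
    · exact hb
  · have hcw : w ≠ c := by
      rintro rfl
      exact sw hcs
    simp only [Finset.disjoint_singleton_left, Finset.mem_insert, Finset.mem_singleton, not_or]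
    exact ⟨e2, hcw, e1⟩

/-- classes `{x, y}`, `{x', y'}` -/
lemma Ker.six_c (h : Ker (fun c c' => c.1 ≠ c'.1) G E x x' y y' κ) (hxy : κ x = κ y)
    (hxy' : κ x' = κ y') (hxx : κ x ≠ κ x') : KerOut G E x x' y y' := by
  obtain ⟨d1, d2, d3, d4, d5, d6⟩ := h.dist
  obtain ⟨a, ha, hxa⟩ := h.nb_x
  obtain ⟨b, hb, hyb⟩ := h.nb_y
  have hab : a ≠ b := h.uni' ha h.mx h.my hxy d2 hxa hyb
  have sa : (κ a).1 ≠ (κ x).1 := h.opp ha h.mx hxa
  have sb : (κ b).1 ≠ (κ x).1 := by rw [hxy]; exact h.opp hb h.my hyb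
  by_cases hs : (κ x').1 = (κ x).1
  swap
  · -- different sides
    left
    obtain ⟨a', ha', hxa'⟩ := h.nb_x'
    obtain ⟨b', hb', hyb'⟩ := h.nb_y'
    have hab' : a' ≠ b' := h.uni' ha' h.mx' h.my' hxy' d5 hxa' hyb'
    have sa' : (κ a').1 ≠ (κ x').1 := h.opp ha' h.mx' hxa'
    have sb' : (κ b').1 ≠ (κ x').1 := by rw [hxy']; exact h.opp hb' h.my' hyb'
    have ta' : (κ a').1 = (κ x).1 := side_eq _ _ _ sa' (Ne.symm hs)
    have tb' : (κ b').1 = (κ x).1 := side_eq _ _ _ sb' (Ne.symm hs)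
    have b2 : G.Adj E a' a := h.adjWW ha' ha (by rw [ta']; exact sa.symm)
    have b3 : G.Adj E b' b := h.adjWW hb' hb (by rw [tb']; exact sb.symm)
    refine h.lkSets (A := {a', a}) (B := {b', b}) ?_ ?_ ?_ (pth2 hxa b2 hxa')
      (pth2 hyb b3 hyb')
    · intro z hz
      simp only [Finset.mem_insert, Finset.mem_singleton] at hz
      rcases hz with rfl | rfl
      · exact ha'
      · exact ha
    · intro z hz
      simp only [Finset.mem_insert, Finset.mem_singleton] at hz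
      rcases hz with rfl | rfl
      · exact hb'
      · exact hb
    · have e1 : a' ≠ b := by
        rintro rfl
        exact sb ta'
      have e2 : a ≠ b' := by
        rintro rfl
        exact sa tb'
      rw [Finset.disjoint_left]
      intro z hz hz'
      simp only [Finset.mem_insert, Finset.mem_singleton] at hz hz'
      rcases hz with rfl | rfl <;> rcases hz' with hz' | hz'
      · exact hab' hz'
      · exact e1 hz'
      · exact e2 hz'
      · exact hab hz'
  -- neighbours in the two classes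
  have hcl : ∀ w, IsW G x x' y y' w → (κ w).1 ≠ (κ x).1 → G.Adj E x w ∨ G.Adj E y w := by
    intro w hw hsw
    obtain ⟨z, hz, e, hadj⟩ := h.adjWT hw h.mx (by simp) hsw
    rcases hz with rfl | rfl | rfl | rfl
    · exact Or.inl hadj.symm
    · exact absurd e.symm hxx
    · exact Or.inr hadj.symm
    · exact absurd (e.symm.trans hxy'.symm) hxx
  have hcl' : ∀ w, IsW G x x' y y' w → (κ w).1 ≠ (κ x).1 → G.Adj E x' w ∨ G.Adj E y' w := by
    intro w hw hsw
    obtain ⟨z, hz, e, hadj⟩ := h.adjWT hw h.mx' (by simp) (by rw [hs]; exact hsw)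
    rcases hz with rfl | rfl | rfl | rfl
    · exact absurd e hxx
    · exact Or.inl hadj.symm
    · exact absurd (hxy.trans e) hxx
    · exact Or.inr hadj.symm
  by_cases hc1 : ∃ w, IsW G x x' y y' w ∧ G.Adj E x w ∧ G.Adj E x' w
  · obtain ⟨w, hw, h1, h2⟩ := hc1
    exact Or.inl (h.six_c1 hxy hxy' hs hw h1 h2)
  by_cases hc2 : ∃ w, IsW G x x' y y' w ∧ G.Adj E y w ∧ G.Adj E y' w
  · obtain ⟨w, hw, h1, h2⟩ := hc2
    have hw2 : IsW G y y' x x' w := by
      obtain ⟨g1, g2, g3, g4⟩ := hw.ne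
      exact IsW.mk' hw.1 g3 g4 g1 g2
    exact Or.inl (h.swapxy.six_c1 hxy.symm hxy'.symm (by rw [← hxy, ← hxy']; exact hs) hw2
      h1 h2).symm
  right
  have hxy2 : ∀ w, IsW G x x' y y' w → (G.Adj E x w ↔ G.Adj E y' w) := by
    intro w hw
    constructor
    · intro hx
      rcases hcl' w hw (h.opp hw h.mx hx) with h1 | h1
      · exact absurd ⟨w, hw, hx, h1⟩ hc1
      · exact h1
    · intro hx
      have hsw : (κ w).1 ≠ (κ x).1 := by rw [← hs, hxy']; exact h.opp hw h.my' hx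
      rcases hcl w hw hsw with h1 | h1
      · exact h1
      · exact absurd ⟨w, hw, h1, hx⟩ hc2
  have hyx2 : ∀ w, IsW G x x' y y' w → (G.Adj E y w ↔ G.Adj E x' w) := by
    intro w hw
    constructor
    · intro hx
      have hsw : (κ w).1 ≠ (κ x).1 := by rw [hxy]; exact h.opp hw h.my hx
      rcases hcl' w hw hsw with h1 | h1
      · exact h1
      · exact absurd ⟨w, hw, hx, h1⟩ hc2
    · intro hx
      have hsw : (κ w).1 ≠ (κ x).1 := by rw [← hs]; exact h.opp hw h.mx' hx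
      rcases hcl w hw hsw with h1 | h1
      · exact absurd ⟨w, hw, h1, hx⟩ hc1
      · exact h1
  by_cases hs1 : ∀ z, IsW G x x' y y' z → G.Adj E x z → z = a
  · -- `s = x`, `t = y'`
    have e1 := (h.nb_eq (w := a) (fun z hz hz' hadj => hs1 z ⟨hz, hz'⟩ hadj)).2.2.2
    have e2 := (h.swapxy.swapx.nb_eq (w := a) (fun z hz hz' hadj => by
      have hz2 : IsW G x x' y y' z := by
        have : IsW G y' y x x' z := ⟨hz, hz'⟩
        obtain ⟨g1, g2, g3, g4⟩ := this.ne
        exact IsW.mk' hz g3 g4 g2 g1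
      exact hs1 z hz2 ((hxy2 z hz2).2 hadj))).2.2.2
    exact ⟨x, by simp, y', by simp, a, ha.1, e1, e2⟩
  by_cases hs2 : ∀ z, IsW G x x' y y' z → G.Adj E y z → z = b
  · -- `s = x'`, `t = y`
    have e1 := (h.swapx.nb_eq (w := b) (fun z hz hz' hadj => by
      have hz2 : IsW G x x' y y' z := by
        have : IsW G x' x y y' z := ⟨hz, hz'⟩
        obtain ⟨g1, g2, g3, g4⟩ := this.ne
        exact IsW.mk' hz g2 g1 g3 g4
      exact hs2 z hz2 ((hyx2 z hz2).2 hadj))).2.2.2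
    have e2 := (h.swapxy.nb_eq (w := b) (fun z hz hz' hadj => by
      have hz2 : IsW G x x' y y' z := by
        have : IsW G y y' x x' z := ⟨hz, hz'⟩
        obtain ⟨g1, g2, g3, g4⟩ := this.ne
        exact IsW.mk' hz g3 g4 g1 g2
      exact hs2 z hz2 hadj)).2.2.2
    exact ⟨x', by simp, y, by simp, b, hb.1, e1, e2⟩
  exfalso
  push Not at hs1 hs2
  obtain ⟨a2, ha2, hxa2, hne⟩ := hs1
  obtain ⟨b2, hb2, hyb2, hne'⟩ := hs2
  have f1 : a ≠ b2 := h.uni' ha h.mx h.my hxy d2 hxa hyb2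
  have f2 : a2 ≠ b := h.uni' ha2 h.mx h.my hxy d2 hxa2 hyb
  have f3 : a2 ≠ b2 := h.uni' ha2 h.mx h.my hxy d2 hxa2 hyb2
  have sa2 : (κ a2).1 ≠ (κ x).1 := h.opp ha2 h.mx hxa2
  have sb2 : (κ b2).1 ≠ (κ x).1 := by rw [hxy]; exact h.opp hb2 h.my hyb2
  exact four_side (κ a) (κ a2) (κ b) (κ b2) (side_eq _ _ _ sa sa2) (side_eq _ _ _ sa sb)
    (side_eq _ _ _ sa sb2) (h.inj' ha ha2.1 (Ne.symm hne)) (h.inj' ha hb.1 hab)
    (h.inj' ha hb2.1 f1) (h.inj' ha2 hb.1 f2) (h.inj' ha2 hb2.1 f3)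
    (h.inj' hb hb2.1 (Ne.symm hne'))

end six

theorem ker_six {G : Gr α V} {E : Finset α} {x x' y y' : V} {κ : V → Fin 2 × Fin 3}
    (h : Ker (fun c c' => c.1 ≠ c'.1) G E x x' y y' κ) :
    Lk G E x x' y y' ∨ KerSmall G E x x' y y' := by
  change KerOut G E x x' y y'
  by_cases hxx : κ x = κ x'
  · rcases h.clx hxx with h1 | h1
    · exact Or.inl (h.six_a h1 hxx)
    · exact KerOut.swapy (Or.inl (h.swapy.six_a h1 hxx))
  by_cases hyy : κ y = κ y'
  · rcases h.cly hyy with h1 | h1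
    · exact KerOut.swapxy (Or.inl (h.swapxy.six_a h1 hyy))
    · exact KerOut.swapxy (KerOut.swapy (Or.inl (h.swapxy.swapy.six_a h1 hyy)))
  by_cases h1 : κ x = κ y
  · by_cases h2 : κ x' = κ y'
    · exact h.six_c h1 h2 hxx
    · exact Or.inl (h.six_b h1 (Ne.symm hxx) (fun e => hyy (h1.symm.trans e.symm)) h2)
  by_cases h2 : κ x = κ y'
  · apply KerOut.swapy
    by_cases h3 : κ x' = κ y
    · exact h.swapy.six_c h2 h3 hxx
    · exact Or.inl (h.swapy.six_b h2 (Ne.symm hxx) (fun e => h1 e.symm) h3)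
  by_cases h3 : κ x' = κ y
  · apply KerOut.swapx
    exact Or.inl (h.swapx.six_b h3 hxx (fun e => hyy (h3.symm.trans e.symm)) h2)
  by_cases h4 : κ x' = κ y'
  · apply KerOut.swapx
    apply KerOut.swapy
    exact Or.inl (h.swapx.swapy.six_b h4 hxx (fun e => h3 e.symm) h1)
  exact Or.inl (h.six_d hxx hyy h1 h2 h3 h4)

end Pool.Agent.H53.Sey
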