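import Pool.Agent.H53.Sey.S1d

/-!
# S1, part H: the kernel structure (definitions; job SEYS-H1: `exists_ker`)

Situation: `Std M e G T`, `T = {x, x', y, y'}`, the pairing `x x' | y y'` is not linked, and all
elements of `C ∪ D` for a Kuratowski minor `(C, D)` of `N = M.del {e}` join one of `x, x'` to one of
`y, y'`. `κ : V → K` maps the vertices to the vertices of the Kuratowski graph `K` (`Fin 5` with
`r = (≠)`, or `Fin 2 × Fin 3` with `r c c' ↔ c.1 ≠ c'.1`).

`exists_ker`. Let `π` be the quotient map for `C` (`exists_quot`). The graph `G'` =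
(`U.image π`, `π ∘ f`, `π ∘ g`) with the edges `M.E \ {e} \ (C ∪ D)` represents the Kuratowski
minor (`Rp.conQ`: an element that becomes a loop would be a loop of the minor, but the minor has no loops,
`Rp.del`) and has no isolated vertices: `w ∉ T` has its (nonempty) star outside `C ∪ D`, and `t ∈ T`
has at most two neighbours in `T`, so a neighbour outside `T`. So `G'` is `K33` or `K5`
(`kur_transfer`). Number its vertices: `κ z` = the number of `π z`.
* `inj`: `π w = w` for `w ∉ T` (last clause of `exists_quot`), and `π t` is in `T` for `t ∈ T`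
  (take `φ = 1_T`).
* `adjW`: an edge at a vertex outside `T` is not in `C ∪ D`, so it is an edge of `G'`.
* `uni`: two edges from `z` to `t ≠ t'` with `κ t = κ t'` would be parallel in `G'`.
* `clx`: if `π x = π x'` but `π x ≠ π y, π y'` then `φ = 1_{x}` is constant on all edges of `C`
  (`x` is in no edge of `C`: such an edge goes to `y` or `y'`), so `φ (π x) = φ x = 1`, `π x = x`,
  and `φ (π x') = φ x' = 0`: contradiction.
-/

set_option autoImplicit false

namespace Pool.Agent.H53.Sey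

open Pool.Agent.H63.Sey

universe u v w

variable {α : Type u} [DecidableEq α] {V : Type v} [DecidableEq V]

/-- the kernel structure; vertices outside `{x, x', y, y'}` are the vertices of `W` -/
structure Ker {K : Type} (r : K → K → Prop) (G : Gr α V) (E : Finset α) (x x' y y' : V)
    (κ : V → K) : Prop where
  on : G.On E
  simple : G.Simple E
  vc : G.VC E ∅
  deg : ∀ z ∈ G.U, 3 ≤ (G.star E z).card
  mx : x ∈ G.U
  mx' : x' ∈ G.U
  my : y ∈ G.U
  my' : y' ∈ G.U
  dist : x ≠ x' ∧ x ≠ y ∧ x ≠ y' ∧ x' ≠ y ∧ x' ≠ y' ∧ y ≠ y'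
  nxx : ¬ G.Adj E x x'
  nyy : ¬ G.Adj E y y'
  /-- every vertex of the Kuratowski graph is attained -/
  surj : ∀ c : K, ∃ z ∈ G.U, κ z = c
  /-- vertices outside `T` are alone in their class -/
  inj : ∀ z ∈ G.U, z ∉ ({x, x', y, y'} : Finset V) → ∀ z' ∈ G.U, κ z = κ z' → z = z'
  /-- edges at vertices outside `T` -/
  adjW : ∀ z ∈ G.U, z ∉ ({x, x', y, y'} : Finset V) → ∀ z' ∈ G.U, G.Adj E z z' → r (κ z) (κ z')
  /-- edges of the Kuratowski graph come from edges of `G` -/
  ex : ∀ c c' : K, r c c' → ∃ z ∈ G.U, ∃ z' ∈ G.U, κ z = c ∧ κ z' = c' ∧ G.Adj E z z'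
  /-- a vertex outside `T` is adjacent to at most one vertex of a class -/
  uni : ∀ z ∈ G.U, z ∉ ({x, x', y, y'} : Finset V) → ∀ t ∈ G.U, ∀ t' ∈ G.U, κ t = κ t' →
    G.Adj E z t → G.Adj E z t' → t = t'
  clx : κ x = κ x' → κ x = κ y ∨ κ x = κ y'
  cly : κ y = κ y' → κ y = κ x ∨ κ y = κ x'

namespace Ker

variable {K : Type} {r : K → K → Prop} {G : Gr α V} {E : Finset α} {x x' y y' : V} {κ : V → K}

private lemma ker_set1 (x x' y y' : V) : ({x', x, y, y'} : Finset V) = {x, x', y, y'} := by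
  ext z
  simp only [Finset.mem_insert, Finset.mem_singleton]
  tauto

private lemma ker_set2 (x x' y y' : V) : ({x, x', y', y} : Finset V) = {x, x', y, y'} := by
  ext z
  simp only [Finset.mem_insert, Finset.mem_singleton]
  tauto

private lemma ker_set3 (x x' y y' : V) : ({y, y', x, x'} : Finset V) = {x, x', y, y'} := by
  ext z
  simp only [Finset.mem_insert, Finset.mem_singleton]
  tauto

/-- symmetries -/
lemma swapx (h : Ker r G E x x' y y' κ) : Ker r G E x' x y y' κ := by
  obtain ⟨d1, d2, d3, d4, d5, d6⟩ := h.dist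
  exact
    { on := h.on
      simple := h.simple
      vc := h.vc
      deg := h.deg
      mx := h.mx'
      mx' := h.mx
      my := h.my
      my' := h.my'
      dist := ⟨d1.symm, d4, d5, d2, d3, d6⟩
      nxx := fun h1 => h.nxx h1.symm
      nyy := h.nyy
      surj := h.surj
      inj := by rw [ker_set1]; exact h.inj
      adjW := by rw [ker_set1]; exact h.adjW
      ex := h.ex
      uni := by rw [ker_set1]; exact h.uni
      clx := fun h1 => by
        rw [h1]
        exact h.clx h1.symm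
      cly := fun h1 => (h.cly h1).symm }

lemma swapy (h : Ker r G E x x' y y' κ) : Ker r G E x x' y' y κ := by
  obtain ⟨d1, d2, d3, d4, d5, d6⟩ := h.dist
  exact
    { on := h.on
      simple := h.simple
      vc := h.vc
      deg := h.deg
      mx := h.mx
      mx' := h.mx'
      my := h.my'
      my' := h.my
      dist := ⟨d1, d3, d2, d5, d4, d6.symm⟩
      nxx := h.nxx
      nyy := fun h1 => h.nyy h1.symm
      surj := h.surj
      inj := by rw [ker_set2]; exact h.inj
      adjW := by rw [ker_set2]; exact h.adjW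
      ex := h.ex
      uni := by rw [ker_set2]; exact h.uni
      clx := fun h1 => (h.clx h1).symm
      cly := fun h1 => by
        rw [h1]
        exact h.cly h1.symm }

lemma swapxy (h : Ker r G E x x' y y' κ) : Ker r G E y y' x x' κ := by
  obtain ⟨d1, d2, d3, d4, d5, d6⟩ := h.dist
  exact
    { on := h.on
      simple := h.simple
      vc := h.vc
      deg := h.deg
      mx := h.my
      mx' := h.my'
      my := h.mx
      my' := h.mx'
      dist := ⟨d6, d2.symm, d4.symm, d3.symm, d5.symm, d1⟩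
      nxx := h.nyy
      nyy := h.nxx
      surj := h.surj
      inj := by rw [ker_set3]; exact h.inj
      adjW := by rw [ker_set3]; exact h.adjW
      ex := h.ex
      uni := by rw [ker_set3]; exact h.uni
      clx := h.cly
      cly := h.clx }

/-- the neighbourhood has at least three elements -/
private lemma ker_nb {G : Gr α V} {E : Finset α} (on : G.On E) (simple : G.Simple E)
    (deg : ∀ z ∈ G.U, 3 ≤ (G.star E z).card) {x : V} (hx : x ∈ G.U) :
    ∃ S : Finset V, 3 ≤ S.card ∧ ∀ z ∈ S, z ∈ G.U ∧ G.Adj E x z := by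
  refine ⟨G.U.filter fun y => ∃ a ∈ E, (G.f a = x ∧ G.g a = y) ∨ (G.f a = y ∧ G.g a = x), ?_, ?_⟩
  · rw [← star_card_eq on simple]
    exact deg x hx
  · intro z hz
    rw [Finset.mem_filter] at hz
    exact hz

/-- a vertex of `T` has a neighbour outside of `T` -/
private lemma ker_nbW {G : Gr α V} {E : Finset α} (on : G.On E) (simple : G.Simple E)
    (deg : ∀ z ∈ G.U, 3 ≤ (G.star E z).card) {x x' y y' : V} (hx : x ∈ G.U)
    (nxx : ¬ G.Adj E x x') :
    ∃ w ∈ G.U, w ∉ ({x, x', y, y'} : Finset V) ∧ G.Adj E x w := by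
  obtain ⟨S, hS, hS'⟩ := ker_nb on simple deg hx
  by_contra hcon
  push Not at hcon
  have h1 : S ⊆ {y, y'} := by
    intro z hz
    obtain ⟨hzU, hadj⟩ := hS' z hz
    by_contra hn
    refine hcon z hzU ?_ hadj
    simp only [Finset.mem_insert, Finset.mem_singleton, not_or] at hn ⊢
    refine ⟨?_, ?_, hn.1, hn.2⟩
    · rintro rfl
      exact (on.adj_mem hadj).2.2 rfl
    · rintro rfl
      exact nxx hadj
  have h2 := Finset.card_le_card h1
  have h3 : ({y, y'} : Finset V).card ≤ 2 := Finset.card_le_two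
  omega

/-- `x` has a neighbour outside `T` (it has at most two neighbours in `T`) -/
lemma nbW (h : Ker r G E x x' y y' κ) :
    ∃ w ∈ G.U, w ∉ ({x, x', y, y'} : Finset V) ∧ G.Adj E x w :=
  ker_nbW h.on h.simple h.deg h.mx h.nxx

/-- if `x` has only one neighbour `w` outside `T` then its neighbours are `y, y', w` -/
lemma nb_eq (h : Ker r G E x x' y y' κ) {w : V}
    (hw : ∀ z ∈ G.U, z ∉ ({x, x', y, y'} : Finset V) → G.Adj E x z → z = w) :
    G.Adj E x y ∧ G.Adj E x y' ∧ G.Adj E x w ∧ ∀ z, G.Adj E x z → z = y ∨ z = y' ∨ z = w := by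
  have hall : ∀ z, G.Adj E x z → z = y ∨ z = y' ∨ z = w := by
    intro z hadj
    obtain ⟨-, hzU, hne⟩ := h.on.adj_mem hadj
    by_cases h1 : z ∈ ({x, x', y, y'} : Finset V)
    · simp only [Finset.mem_insert, Finset.mem_singleton] at h1
      rcases h1 with h1 | h1 | h1 | h1
      · exact absurd h1.symm hne
      · exact absurd (h1 ▸ hadj) h.nxx
      · exact Or.inl h1
      · exact Or.inr (Or.inl h1)
    · exact Or.inr (Or.inr (hw z hzU h1 hadj))
  obtain ⟨S, hS, hS'⟩ := ker_nb h.on h.simple h.deg h.mx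
  have h1 : S ⊆ {y, y', w} := by
    intro z hz
    simp only [Finset.mem_insert, Finset.mem_singleton]
    exact hall z (hS' z hz).2
  have h2 : S = {y, y', w} := by
    apply Finset.eq_of_subset_of_card_le h1
    have : ({y, y', w} : Finset V).card ≤ 3 := Finset.card_le_three
    omega
  refine ⟨(hS' y ?_).2, (hS' y' ?_).2, (hS' w ?_).2, hall⟩ <;> rw [h2] <;> simp

end Ker

/-- the second outcome: two of the vertices of `T`, in different pairs, have all their other
neighbours in `T` together with one further vertex -/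
def KerSmall (G : Gr α V) (E : Finset α) (x x' y y' : V) : Prop :=
  ∃ s ∈ ({x, x'} : Finset V), ∃ t ∈ ({y, y'} : Finset V), ∃ w ∈ G.U,
    (∀ z, G.Adj E s z → z = y ∨ z = y' ∨ z = w) ∧ (∀ z, G.Adj E t z → z = x ∨ z = x' ∨ z = w)

/-- the structure, for an abstract numbering `ν` of the vertices of the contracted graph -/
private lemma ker_aux {M : BM α} {e : α} {G : Gr α V} {T : Finset V} (h : G3 M e G T)
    {x x' y y' : V} (hT : T = {x, x', y, y'}) (hT4 : T.card = 4)
    (hxx : ¬ G.Adj (M.E \ {e}) x x') (hyy : ¬ G.Adj (M.E \ {e}) y y')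
    {C D : Finset α}
    (hCD : ∀ c ∈ C ∪ D, (∃ s ∈ ({x, x'} : Finset V), ∃ t ∈ ({y, y'} : Finset V), G.Jn c s t))
    {π : V → V} (hπC : ∀ a ∈ C, π (G.f a) = π (G.g a))
    (hπφ : ∀ φ : V → ZMod 2, (∀ a ∈ C, φ (G.f a) = φ (G.g a)) → ∀ x, φ (π x) = φ x)
    (hπx : ∀ x, (∀ a ∈ C, G.f a ≠ x ∧ G.g a ≠ x) → π x = x)
    (hs : Gr.Simple ⟨G.U.image π, fun a => π (G.f a), fun a => π (G.g a)⟩
      (((M.E \ {e}) \ C) \ D))
    {K : Type} {r : K → K → Prop} {ν : V → K}
    (hν : ∀ z ∈ G.U.image π, ∀ z' ∈ G.U.image π, ν z = ν z' → z = z')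
    (hνs : ∀ c, ∃ z ∈ G.U.image π, ν z = c)
    (hνa : ∀ z ∈ G.U.image π, ∀ z' ∈ G.U.image π,
      Gr.Adj ⟨G.U.image π, fun a => π (G.f a), fun a => π (G.g a)⟩ (((M.E \ {e}) \ C) \ D) z z' ↔
        r (ν z) (ν z')) :
    Ker r G (M.E \ {e}) x x' y y' fun z => ν (π z) := by
  have hon := h.rep.on
  have hTU : ∀ z ∈ ({x, x', y, y'} : Finset V), z ∈ G.U := by
    rw [← hT]
    exact fun z hz => h.rep.TU hz
  have h4 := hT4
  rw [hT] at h4
  obtain ⟨d1, d2, d3, d4, d5, d6⟩ := patA_card4 h4.ge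
  -- the edges of C ∪ D join vertices of T
  have hCDT : ∀ c ∈ C ∪ D, G.f c ∈ ({x, x', y, y'} : Finset V) ∧
      G.g c ∈ ({x, x', y, y'} : Finset V) := by
    intro c hc
    obtain ⟨s, hs, t, ht, hj⟩ := hCD c hc
    have hs' : s ∈ ({x, x', y, y'} : Finset V) := by
      simp only [Finset.mem_insert, Finset.mem_singleton] at hs ⊢
      rcases hs with rfl | rfl
      · exact Or.inl rfl
      · exact Or.inr (Or.inl rfl)
    have ht' : t ∈ ({x, x', y, y'} : Finset V) := by
      simp only [Finset.mem_insert, Finset.mem_singleton] at ht ⊢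
      rcases ht with rfl | rfl
      · exact Or.inr (Or.inr (Or.inl rfl))
      · exact Or.inr (Or.inr (Or.inr rfl))
    rcases hj with ⟨h1, h2⟩ | ⟨h1, h2⟩
    · rw [h1, h2]
      exact ⟨hs', ht'⟩
    · rw [h1, h2]
      exact ⟨ht', hs'⟩
  have hπW : ∀ z, z ∉ ({x, x', y, y'} : Finset V) → π z = z := by
    intro z hz
    apply hπx
    intro a ha
    have h1 := hCDT a (Finset.mem_union_left _ ha)
    exact ⟨fun h2 => hz (h2 ▸ h1.1), fun h2 => hz (h2 ▸ h1.2)⟩
  have hπT : ∀ z ∈ ({x, x', y, y'} : Finset V), π z ∈ ({x, x', y, y'} : Finset V) := by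
    intro z hz
    have h1 := hπφ (fun z => if z ∈ ({x, x', y, y'} : Finset V) then 1 else 0) (by
      intro a ha
      have h1 := hCDT a (Finset.mem_union_left _ ha)
      simp only [if_pos h1.1, if_pos h1.2]) z
    simp only [if_pos hz] at h1
    by_contra hn
    rw [if_neg hn] at h1
    exact absurd h1 (by decide)
  have himg : ∀ z ∈ G.U, π z ∈ G.U.image π := fun z hz => Finset.mem_image_of_mem _ hz
  have hE' : ∀ {a : α} {z z' : V}, a ∈ M.E \ {e} → z ∉ ({x, x', y, y'} : Finset V) →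
      G.Jn a z z' → a ∈ ((M.E \ {e}) \ C) \ D := by
    intro a z z' ha hz hj
    have h1 : a ∉ C ∪ D := by
      intro h1
      have h2 := hCDT a h1
      rcases hj with ⟨h3, -⟩ | ⟨-, h3⟩
      · exact hz (h3 ▸ h2.1)
      · exact hz (h3 ▸ h2.2)
    rw [Finset.mem_union, not_or] at h1
    exact Finset.mem_sdiff.2 ⟨Finset.mem_sdiff.2 ⟨ha, h1.1⟩, h1.2⟩
  have hJn : ∀ {a : α} {z z' : V}, G.Jn a z z' →
      Gr.Jn ⟨G.U.image π, fun a => π (G.f a), fun a => π (G.g a)⟩ a (π z) (π z') := by
    intro a z z' hj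
    rcases hj with ⟨h1, h2⟩ | ⟨h1, h2⟩
    · exact Or.inl ⟨by rw [← h1], by rw [← h2]⟩
    · exact Or.inr ⟨by rw [← h1], by rw [← h2]⟩
  have hcl : ∀ {a b : V}, a ∈ G.U → b ∈ G.U → a ≠ b → (∀ c ∈ C, ∀ z, G.Jn c a z → π a = π z →
      False) → π a = π b → False := by
    intro a b haU hbU hab hC hπ
    have h1 : ∀ c ∈ C, G.f c ≠ a ∧ G.g c ≠ a := by
      intro c hc
      refine ⟨fun h2 => hC c hc _ (Or.inl ⟨h2, rfl⟩) ?_, fun h2 =>
        hC c hc _ (Or.inr ⟨rfl, h2⟩) ?_⟩
      · rw [← h2]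
        exact hπC c hc
      · rw [← h2]
        exact (hπC c hc).symm
    have h2 := hπx a h1
    have h3 := hπφ (fun z => if z = a then 1 else 0) (by
      intro c hc
      simp only [if_neg (h1 c hc).1, if_neg (h1 c hc).2]) b
    simp only [if_neg hab.symm] at h3
    rw [← hπ, h2, if_pos rfl] at h3
    exact absurd h3 (by decide)
  refine
    { on := hon
      simple := h.simple
      vc := h.vc
      deg := h.deg
      mx := hTU x (by simp)
      mx' := hTU x' (by simp)
      my := hTU y (by simp)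
      my' := hTU y' (by simp)
      dist := ⟨d1, d2, d3, d4, d5, d6⟩
      nxx := hxx
      nyy := hyy
      surj := ?_
      inj := ?_
      adjW := ?_
      ex := ?_
      uni := ?_
      clx := ?_
      cly := ?_ }
  · intro c
    obtain ⟨z, hz, hzc⟩ := hνs c
    obtain ⟨z', hz', rfl⟩ := Finset.mem_image.1 hz
    exact ⟨z', hz', hzc⟩
  · intro z hz hzT z' hz' hκ
    have h1 := hν _ (himg z hz) _ (himg z' hz') hκ
    rw [hπW z hzT] at h1
    by_cases h2 : z' ∈ ({x, x', y, y'} : Finset V)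
    · exact absurd (h1 ▸ hπT z' h2) hzT
    · rw [hπW z' h2] at h1
      exact h1
  · intro z hz hzT z' hz' hadj
    obtain ⟨a, ha, hj⟩ := hadj
    exact (hνa _ (himg z hz) _ (himg z' hz')).1 ⟨a, hE' ha hzT hj, hJn hj⟩
  · intro c c' hr
    obtain ⟨z, hz, rfl⟩ := hνs c
    obtain ⟨z', hz', rfl⟩ := hνs c'
    obtain ⟨a, ha, hj⟩ := (hνa z hz z' hz').2 hr
    have ha' : a ∈ M.E \ {e} := (Finset.mem_sdiff.1 (Finset.mem_sdiff.1 ha).1).1
    obtain ⟨hfU, hgU, -⟩ := hon a ha'
    rcases hj with ⟨h1, h2⟩ | ⟨h1, h2⟩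
    · have h1' : π (G.f a) = z := h1
      have h2' : π (G.g a) = z' := h2
      exact ⟨G.f a, hfU, G.g a, hgU, by simp only [h1'], by simp only [h2'], a, ha', Gr.jn_self a⟩
    · have h1' : π (G.f a) = z' := h1
      have h2' : π (G.g a) = z := h2
      exact ⟨G.g a, hgU, G.f a, hfU, by simp only [h2'], by simp only [h1'], a, ha',
        (Gr.jn_self a).symm⟩
  · intro z hz hzT t ht t' ht' hκ hadj hadj'
    have h1 := hν _ (himg t ht) _ (himg t' ht') hκ
    obtain ⟨a, ha, hj⟩ := hadj
    obtain ⟨a', ha', hj'⟩ := hadj'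
    have h2 := hJn hj'
    rw [← h1] at h2
    have h3 := hs a (hE' ha hzT hj) a' (hE' ha' hzT hj') _ _ (hJn hj) h2
    subst h3
    rcases hj.ends hj' with ⟨-, h4⟩ | ⟨h4, h5⟩
    · exact h4
    · exact h5.trans h4
  · intro hκ
    have h1 := hν _ (himg x (hTU x (by simp))) _ (himg x' (hTU x' (by simp))) hκ
    by_contra hcon
    rw [not_or] at hcon
    refine hcl (hTU x (by simp)) (hTU x' (by simp)) d1 ?_ h1
    intro c hc z hj hπ
    obtain ⟨s, hs, t, ht, hj'⟩ := hCD c (Finset.mem_union_left _ hc)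
    simp only [Finset.mem_insert, Finset.mem_singleton] at hs ht
    have hzt : z = t := by
      rcases hj.ends hj' with ⟨-, h2⟩ | ⟨h2, -⟩
      · exact h2
      · exfalso
        rcases ht with rfl | rfl
        · exact d2 h2
        · exact d3 h2
    rcases ht with rfl | rfl
    · exact hcon.1 (by rw [hπ, hzt])
    · exact hcon.2 (by rw [hπ, hzt])
  · intro hκ
    have h1 := hν _ (himg y (hTU y (by simp))) _ (himg y' (hTU y' (by simp))) hκ
    by_contra hcon
    rw [not_or] at hcon
    refine hcl (hTU y (by simp)) (hTU y' (by simp)) d6 ?_ h1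
    intro c hc z hj hπ
    obtain ⟨s, hs, t, ht, hj'⟩ := hCD c (Finset.mem_union_left _ hc)
    simp only [Finset.mem_insert, Finset.mem_singleton] at hs ht
    have hzs : z = s := by
      rcases hj.ends hj' with ⟨h2, -⟩ | ⟨-, h2⟩
      · exfalso
        rcases hs with rfl | rfl
        · exact d2 h2.symm
        · exact d4 h2.symm
      · exact h2
    rcases hs with rfl | rfl
    · exact hcon.1 (by rw [hπ, hzs])
    · exact hcon.2 (by rw [hπ, hzs])

/-- the structure exists (job SEYS-H1) -/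
theorem exists_ker {M : BM α} {e : α} {G : Gr α V} {T : Finset V} (h : Std M e G T)
    {x x' y y' : V} (hT : T = {x, x', y, y'}) (hT4 : T.card = 4)
    (hxx : ¬ G.Adj (M.E \ {e}) x x') (hyy : ¬ G.Adj (M.E \ {e}) y y')
    {C D : Finset α} (hk : KurMinor (M.del {e}) C D)
    (hCD : ∀ c ∈ C ∪ D, (∃ s ∈ ({x, x'} : Finset V), ∃ t ∈ ({y, y'} : Finset V), G.Jn c s t)) :
    (∃ κ : V → Fin 5, Ker (fun c c' => c ≠ c') G (M.E \ {e}) x x' y y' κ) ∨
      ∃ κ : V → Fin 2 × Fin 3, Ker (fun c c' => c.1 ≠ c'.1) G (M.E \ {e}) x x' y y' κ := by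
  have hg3 := h.g3
  have hon := hg3.rep.on
  obtain ⟨hdCD, hCE, hDE, n, G₀, hG₀, hkur⟩ := hk
  have hCE' : C ⊆ M.E \ {e} := hCE
  have hTU : ∀ z ∈ ({x, x', y, y'} : Finset V), z ∈ G.U := by
    rw [← hT]
    exact fun z hz => hg3.rep.TU hz
  have hCDT : ∀ c ∈ C ∪ D, G.f c ∈ ({x, x', y, y'} : Finset V) ∧
      G.g c ∈ ({x, x', y, y'} : Finset V) := by
    intro c hc
    obtain ⟨s, hs, t, ht, hj⟩ := hCD c hc
    have hs' : s ∈ ({x, x', y, y'} : Finset V) := by
      simp only [Finset.mem_insert, Finset.mem_singleton] at hs ⊢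
      rcases hs with rfl | rfl
      · exact Or.inl rfl
      · exact Or.inr (Or.inl rfl)
    have ht' : t ∈ ({x, x', y, y'} : Finset V) := by
      simp only [Finset.mem_insert, Finset.mem_singleton] at ht ⊢
      rcases ht with rfl | rfl
      · exact Or.inr (Or.inr (Or.inl rfl))
      · exact Or.inr (Or.inr (Or.inr rfl))
    rcases hj with ⟨h1, h2⟩ | ⟨h1, h2⟩
    · rw [h1, h2]
      exact ⟨hs', ht'⟩
    · rw [h1, h2]
      exact ⟨ht', hs'⟩
  obtain ⟨π, hπU, hππ, hπC, hπφ, hπx⟩ := exists_quot (hon.mono hCE')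
  -- the contracted graph represents the minor
  have hEq : ((M.del {e}).con C).del D = ((M.del {e}).del D).con C := LM.con_del _ hdCD
  have hE : (((M.del {e}).con C).del D).E = ((M.E \ {e}) \ C) \ D := rfl
  have hRp : Rp (((M.del {e}).con C).del D)
      ⟨G.U.image π, fun a => π (G.f a), fun a => π (G.g a)⟩ := by
    have hRD : Rp ((M.del {e}).del D) G := hg3.rep.del_rp.del D
    have hCED : ∀ a ∈ C, a ∈ ((M.del {e}).del D).E := fun a ha =>
      Finset.mem_sdiff.2 ⟨hCE ha, fun h1 => Finset.disjoint_left.1 hdCD ha h1⟩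
    rw [hEq]
    refine hRD.conQ π hπU (fun z _ => hππ z) (fun a ha _ => hπC a ha) ?_ ?_
    · intro φ hφ z _
      exact hπφ φ (fun a ha => hφ a ha (hCED a ha)) z
    · intro a ha hπa
      -- `a` would be a loop of the minor
      have haE : a ∈ (((M.del {e}).con C).del D).E := by
        rw [hEq]
        exact ha
      obtain ⟨h1, h2, h3⟩ := hG₀.on a haE
      have hmem := hG₀.star_mem (G₀.f a)
      have hval : (ind (G₀.star (((M.del {e}).con C).del D).E (G₀.f a)) : α → ZMod 2) a = 1 := by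
        rw [ind_apply, if_pos]
        exact Gr.mem_star.2 ⟨haE, Or.inl rfl⟩
      rw [hEq, LM.mem_con] at hmem
      obtain ⟨hm1, hm2⟩ := hmem
      obtain ⟨φ, hφ⟩ := hRD.mem.1 hm1
      have hconst : ∀ b ∈ C, φ (G.f b) = φ (G.g b) := by
        intro b hb
        have h4 := hφ b
        rw [if_pos (hCED b hb), hm2 b hb] at h4
        have h5 : ∀ u v : ZMod 2, 0 = u + v → u = v := by decide
        exact h5 _ _ h4
      have h6 := hπφ φ hconst
      have h7 : φ (G.f a) = φ (G.g a) := by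
        rw [← h6 (G.f a), ← h6 (G.g a), hπa]
      have h8 := hφ a
      rw [← hEq, hval, if_pos (Finset.mem_sdiff.1 ha).1, h7] at h8
      have h9 : ∀ u : ZMod 2, ¬ (1 = u + u) := by decide
      exact h9 _ h8
  -- no isolated vertices
  have hnb : ∀ z ∈ G.U, ∃ a ∈ ((M.E \ {e}) \ C) \ D, G.f a = z ∨ G.g a = z := by
    have hE' : ∀ {a : α} {z z' : V}, a ∈ M.E \ {e} → z ∉ ({x, x', y, y'} : Finset V) →
        G.Jn a z z' → a ∈ ((M.E \ {e}) \ C) \ D := by
      intro a z z' ha hz hj
      have h1 : a ∉ C ∪ D := by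
        intro h1
        have h2 := hCDT a h1
        rcases hj with ⟨h3, -⟩ | ⟨-, h3⟩
        · exact hz (h3 ▸ h2.1)
        · exact hz (h3 ▸ h2.2)
      rw [Finset.mem_union, not_or] at h1
      exact Finset.mem_sdiff.2 ⟨Finset.mem_sdiff.2 ⟨ha, h1.1⟩, h1.2⟩
    have hfin : ∀ {z w : V}, w ∉ ({x, x', y, y'} : Finset V) → G.Adj (M.E \ {e}) z w →
        ∃ a ∈ ((M.E \ {e}) \ C) \ D, G.f a = z ∨ G.g a = z := by
      rintro z w hw ⟨a, ha, hj⟩
      refine ⟨a, hE' ha hw hj.symm, ?_⟩
      rcases hj with ⟨h1, -⟩ | ⟨-, h1⟩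
      · exact Or.inl h1
      · exact Or.inr h1
    have hnb' : ∀ a b c d : V, ({a, b, c, d} : Finset V) = {x, x', y, y'} →
        ¬ G.Adj (M.E \ {e}) a b → ∃ k ∈ ((M.E \ {e}) \ C) \ D, G.f k = a ∨ G.g k = a := by
      intro a b c d hset hadj
      have haU : a ∈ G.U := hTU a (by rw [← hset]; simp)
      obtain ⟨w, -, hw, hadjw⟩ := Ker.ker_nbW (y := c) (y' := d) hon hg3.simple hg3.deg haU hadj
      rw [hset] at hw
      exact hfin hw hadjw
    intro z hz
    by_cases hzT : z ∈ ({x, x', y, y'} : Finset V)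
    · have hzT' := hzT
      simp only [Finset.mem_insert, Finset.mem_singleton] at hzT'
      rcases hzT' with rfl | rfl | rfl | rfl
      · exact hnb' z x' y y' rfl hxx
      · exact hnb' z x y y' (Ker.ker_set1 _ _ _ _) fun h1 => hxx h1.symm
      · exact hnb' z y' x x' (Ker.ker_set3 _ _ _ _) hyy
      · exact hnb' z y x x' (by
          ext w
          simp only [Finset.mem_insert, Finset.mem_singleton]
          tauto) fun h1 => hyy h1.symm
    · have h1 := hg3.deg z hz
      obtain ⟨a, ha⟩ := Finset.card_pos.1 (lt_of_lt_of_le (by norm_num) h1)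
      obtain ⟨haE, w, hj⟩ := Gr.mem_star_iff_jn.1 ha
      exact ⟨a, hE' haE hzT hj, (Gr.mem_star.1 ha).2⟩
  have hne : ∀ z ∈ G.U.image π, (Gr.star ⟨G.U.image π, fun a => π (G.f a), fun a => π (G.g a)⟩
      (((M.del {e}).con C).del D).E z).Nonempty := by
    intro z hz
    obtain ⟨z', hz', rfl⟩ := Finset.mem_image.1 hz
    obtain ⟨a, ha, h1⟩ := hnb z' hz'
    refine ⟨a, Gr.mem_star.2 ⟨ha, ?_⟩⟩
    show π (G.f a) = π z' ∨ π (G.g a) = π z'
    rcases h1 with h1 | h1
    · exact Or.inl (by rw [h1])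
    · exact Or.inr (by rw [h1])
  rcases kur_transfer hG₀ hRp hne hkur with hK | hK
  · right
    obtain ⟨-, hs, A, B, hAB, hdisj, hA3, hB3, hadj⟩ := hK
    have eA : A ≃ Fin 3 := Finset.equivFinOfCardEq hA3
    have eB : B ≃ Fin 3 := Finset.equivFinOfCardEq hB3
    let ν : V → Fin 2 × Fin 3 := fun z =>
      if hz : z ∈ A then (0, eA ⟨z, hz⟩) else if hz' : z ∈ B then (1, eB ⟨z, hz'⟩) else (0, 0)
    have hνA : ∀ (z : V) (hz : z ∈ A), ν z = (0, eA ⟨z, hz⟩) := fun z hz => dif_pos hz
    have hνB : ∀ (z : V) (hz : z ∈ B), ν z = (1, eB ⟨z, hz⟩) := fun z hz => by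
      have h1 : z ∉ A := fun h1 => Finset.disjoint_left.1 hdisj h1 hz
      show (if hz : z ∈ A then ((0 : Fin 2), eA ⟨z, hz⟩) else if hz' : z ∈ B then
        (1, eB ⟨z, hz'⟩) else (0, 0)) = _
      rw [dif_neg h1, dif_pos hz]
    have hU : ∀ z, z ∈ G.U.image π ↔ z ∈ A ∨ z ∈ B := by
      intro z
      rw [← Finset.mem_union, hAB]
    refine ⟨fun z => ν (π z), ker_aux hg3 hT hT4 hxx hyy hCD hπC hπφ hπx hs ?_ ?_ ?_⟩
    · intro z hz z' hz' hνz
      rw [hU] at hz hz'
      rcases hz with hz | hz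
      · rcases hz' with hz' | hz'
        · rw [hνA z hz, hνA z' hz'] at hνz
          have h1 := eA.injective (Prod.mk.inj hνz).2
          exact congrArg Subtype.val h1
        · rw [hνA z hz, hνB z' hz'] at hνz
          exact absurd (Prod.mk.inj hνz).1 (by decide)
      · rcases hz' with hz' | hz'
        · rw [hνB z hz, hνA z' hz'] at hνz
          exact absurd (Prod.mk.inj hνz).1 (by decide)
        · rw [hνB z hz, hνB z' hz'] at hνz
          have h1 := eB.injective (Prod.mk.inj hνz).2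
          exact congrArg Subtype.val h1
    · rintro ⟨i, j⟩
      have hi : i = 0 ∨ i = 1 := by
        revert i
        decide
      rcases hi with rfl | rfl
      · refine ⟨(eA.symm j : A).1, (hU _).2 (Or.inl (eA.symm j).2), ?_⟩
        rw [hνA _ (eA.symm j).2]
        simp
      · refine ⟨(eB.symm j : B).1, (hU _).2 (Or.inr (eB.symm j).2), ?_⟩
        rw [hνB _ (eB.symm j).2]
        simp
    · intro z hz z' hz'
      have h1 := hadj z hz z' hz'
      rw [hE] at h1
      rw [h1]
      have hz2 := (hU z).1 hz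
      have hz2' := (hU z').1 hz'
      rcases hz2 with hz2 | hz2
      · have h3 : z ∉ B := Finset.disjoint_left.1 hdisj hz2
        rcases hz2' with hz2' | hz2'
        · have h4 : z' ∉ B := Finset.disjoint_left.1 hdisj hz2'
          rw [hνA z hz2, hνA z' hz2']
          simp [h3, h4]
        · rw [hνA z hz2, hνB z' hz2']
          simp [hz2, hz2']
      · have h3 : z ∉ A := fun h5 => Finset.disjoint_left.1 hdisj h5 hz2
        rcases hz2' with hz2' | hz2'
        · rw [hνB z hz2, hνA z' hz2']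
          simp [hz2, hz2']
        · have h4 : z' ∉ A := fun h5 => Finset.disjoint_left.1 hdisj h5 hz2'
          rw [hνB z hz2, hνB z' hz2']
          simp [h3, h4]
  · left
    obtain ⟨honK, hs, hcard, hadj⟩ := hK
    have eU : (G.U.image π : Finset V) ≃ Fin 5 := Finset.equivFinOfCardEq hcard
    let ν : V → Fin 5 := fun z => if hz : z ∈ G.U.image π then eU ⟨z, hz⟩ else 0
    have hνU : ∀ (z : V) (hz : z ∈ G.U.image π), ν z = eU ⟨z, hz⟩ := fun z hz => dif_pos hz
    refine ⟨fun z => ν (π z), ker_aux hg3 hT hT4 hxx hyy hCD hπC hπφ hπx hs ?_ ?_ ?_⟩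
    · intro z hz z' hz' hνz
      rw [hνU z hz, hνU z' hz'] at hνz
      exact congrArg Subtype.val (eU.injective hνz)
    · intro j
      refine ⟨(eU.symm j : (G.U.image π : Finset V)).1, (eU.symm j).2, ?_⟩
      rw [hνU _ (eU.symm j).2]
      simp
    · intro z hz z' hz'
      have h1 := hadj z hz z' hz'
      rw [hE] at h1
      constructor
      · intro h2 h3
        rw [hνU z hz, hνU z' hz'] at h3
        have h4 : z = z' := congrArg Subtype.val (eU.injective h3)
        rw [hE] at honK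
        exact (honK.adj_mem h2).2.2 h4
      · intro h2
        apply h1
        rintro rfl
        exact h2 rfl

end Pool.Agent.H53.Sey
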