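import Pool.Agent.H53.Sey.KurA

/-!
# Graph toolkit G2: transfer of Kuratowski graphs, contraction as a quotient (job SEYG-G2)

* `kur_transfer`: two representations of the same matroid `N` without isolated vertices, one of them
  `K33` (or `K5`): by `whitney` there is an injection `ι` of the vertices preserving edges; every
  vertex of the other graph has an edge, so `ι` is onto its vertex set; adjacency is preserved.
* `exists_quot`: contraction of an arbitrary set `F` of edges as a quotient: induction on `F`; for a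
  new edge `a` with ends `x = π (f a)`, `y = π (g a)` (`π` from the induction hypothesis) send
  everything mapped to `y` to `x` (the last condition: `z` is not an end of an edge of `F`). Another way: choose
  a representative in every class of the equivalence relation generated by the edges in `F`.
-/

set_option autoImplicit false

namespace Pool.Agent.H53.Sey

open Pool.Agent.H63.Sey

universe u v w

variable {α : Type u} [DecidableEq α] {V : Type v} [DecidableEq V] {V' : Type w} [DecidableEq V']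

private lemma kb_iso {N : BM α} {G : Gr α V} {G' : Gr α V'} (h : Rp N G) (h' : Rp N G')
    (hne : ∀ x ∈ G.U, (G.star N.E x).Nonempty)
    (hne' : ∀ x ∈ G'.U, (G'.star N.E x).Nonempty) {ι : V → V'}
    (hι : Set.InjOn ι (G.U : Set V))
    (hE : ∀ a ∈ N.E, (G'.f a = ι (G.f a) ∧ G'.g a = ι (G.g a)) ∨
      (G'.f a = ι (G.g a) ∧ G'.g a = ι (G.f a))) :
    G'.U = G.U.image ι ∧ ∀ a ∈ N.E, ∀ x ∈ G.U, ∀ y ∈ G.U,
      (G'.Jn a (ι x) (ι y) ↔ G.Jn a x y) := by
  constructor
  · ext x'
    rw [Finset.mem_image]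
    constructor
    · intro hx'
      obtain ⟨a, ha⟩ := hne' x' hx'
      rw [Gr.mem_star] at ha
      obtain ⟨haE, hax⟩ := ha
      obtain ⟨h1, h2, _⟩ := h.on a haE
      rcases hE a haE with ⟨h3, h4⟩ | ⟨h3, h4⟩ <;> rcases hax with h5 | h5
      · exact ⟨_, h1, by rw [← h3, h5]⟩
      · exact ⟨_, h2, by rw [← h4, h5]⟩
      · exact ⟨_, h2, by rw [← h3, h5]⟩
      · exact ⟨_, h1, by rw [← h4, h5]⟩
    · rintro ⟨x, hx, rfl⟩
      obtain ⟨a, ha⟩ := hne x hx
      rw [Gr.mem_star] at ha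
      obtain ⟨haE, hax⟩ := ha
      obtain ⟨h1, h2, _⟩ := h'.on a haE
      rcases hE a haE with ⟨h3, h4⟩ | ⟨h3, h4⟩ <;> rcases hax with h5 | h5
      · rw [← h5, ← h3]; exact h1
      · rw [← h5, ← h4]; exact h2
      · rw [← h5, ← h4]; exact h2
      · rw [← h5, ← h3]; exact h1
  · intro a haE x hx y hy
    obtain ⟨h1, h2, _⟩ := h.on a haE
    have e1 : ∀ {u : V}, u ∈ G.U → ∀ {v : V}, v ∈ G.U → (ι u = ι v ↔ u = v) :=
      fun hu _ hv => ⟨fun h => hι hu hv h, fun h => by rw [h]⟩
    unfold Gr.Jn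
    rcases hE a haE with ⟨h3, h4⟩ | ⟨h3, h4⟩
    · rw [h3, h4, e1 h1 hx, e1 h2 hy, e1 h1 hy, e1 h2 hx]
    · rw [h3, h4, e1 h2 hx, e1 h1 hy, e1 h2 hy, e1 h1 hx]
      tauto

/-- a Kuratowski matroid is represented only by the Kuratowski graph -/
theorem kur_transfer {N : BM α} {G : Gr α V} {G' : Gr α V'} (h : Rp N G) (h' : Rp N G')
    (hne' : ∀ x ∈ G'.U, (G'.star N.E x).Nonempty) (hk : IsK33 G N.E ∨ IsK5 G N.E) :
    IsK33 G' N.E ∨ IsK5 G' N.E := by
  have hvc : G.VC N.E ∅ := by
    rcases hk with hk | hk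
    · exact hk.vc
    · exact hk.vc
  have hne : ∀ x ∈ G.U, (G.star N.E x).Nonempty := by
    intro x hx
    apply Finset.card_pos.1
    rcases hk with hk | hk
    · rw [hk.deg hx]; omega
    · rw [hk.deg hx]; omega
  have hU : 3 ≤ G.U.card := by
    rcases hk with hk | hk
    · obtain ⟨_, _, A, B, hU, hd, hA, hB, _⟩ := hk
      rw [← hU, Finset.card_union_of_disjoint hd, hA, hB]; omega
    · rw [hk.2.2.1]; omega
  have hEne : N.E.Nonempty := by
    obtain ⟨x, hx⟩ := Finset.card_pos.1 (by omega : 0 < G.U.card)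
    obtain ⟨a, ha⟩ := hne x hx
    exact ⟨a, (Gr.mem_star.1 ha).1⟩
  obtain ⟨a₀, ha₀⟩ := hEne
  have : Nonempty V' := ⟨G'.f a₀⟩
  obtain ⟨ι, hι, hE⟩ := whitney h hvc hne hU h'.eq
  obtain ⟨hU', hJ⟩ := kb_iso h h' hne hne' hι hE
  have hadj : ∀ x ∈ G.U, ∀ y ∈ G.U, (G'.Adj N.E (ι x) (ι y) ↔ G.Adj N.E x y) := by
    intro x hx y hy
    constructor
    · rintro ⟨a, ha, hj⟩
      exact ⟨a, ha, (hJ a ha x hx y hy).1 hj⟩
    · rintro ⟨a, ha, hj⟩
      exact ⟨a, ha, (hJ a ha x hx y hy).2 hj⟩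
  have hsimple : G.Simple N.E → G'.Simple N.E := by
    intro hs a ha b hb x' y' hja hjb
    obtain ⟨hx', hy', _⟩ := h'.on.jn_mem ha hja
    rw [hU', Finset.mem_image] at hx' hy'
    obtain ⟨x, hx, rfl⟩ := hx'
    obtain ⟨y, hy, rfl⟩ := hy'
    exact hs a ha b hb x y ((hJ a ha x hx y hy).1 hja) ((hJ b hb x hx y hy).1 hjb)
  have hinj : ∀ A : Finset V, A ⊆ G.U → ∀ x ∈ G.U, (ι x ∈ A.image ι ↔ x ∈ A) := by
    intro A hA x hx
    rw [Finset.mem_image]
    constructor
    · rintro ⟨y, hy, hxy⟩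
      have : y = x := hι (hA hy) hx hxy
      exact this ▸ hy
    · intro hx'
      exact ⟨x, hx', rfl⟩
  have hcard : ∀ A : Finset V, A ⊆ G.U → (A.image ι).card = A.card := by
    intro A hA
    apply Finset.card_image_of_injOn
    exact hι.mono (by exact_mod_cast hA)
  rcases hk with hk | hk
  · left
    obtain ⟨hon, hs, A, B, hUAB, hd, hA, hB, hab⟩ := hk
    have hAU : A ⊆ G.U := hUAB ▸ Finset.subset_union_left
    have hBU : B ⊆ G.U := hUAB ▸ Finset.subset_union_right
    refine ⟨h'.on, hsimple hs, A.image ι, B.image ι, ?_, ?_, ?_, ?_, ?_⟩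
    · rw [hU', ← hUAB, Finset.image_union]
    · rw [Finset.disjoint_left]
      intro x' h1 h2
      obtain ⟨x, hx, rfl⟩ := Finset.mem_image.1 h1
      exact Finset.disjoint_left.1 hd hx ((hinj B hBU x (hAU hx)).1 h2)
    · rw [hcard A hAU, hA]
    · rw [hcard B hBU, hB]
    · intro x' hx' y' hy'
      rw [hU', Finset.mem_image] at hx' hy'
      obtain ⟨x, hx, rfl⟩ := hx'
      obtain ⟨y, hy, rfl⟩ := hy'
      rw [hadj x hx y hy, hab x hx y hy, hinj A hAU x hx, hinj B hBU x hx, hinj A hAU y hy,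
        hinj B hBU y hy]
  · right
    obtain ⟨hon, hs, hc, hab⟩ := hk
    refine ⟨h'.on, hsimple hs, ?_, ?_⟩
    · rw [hU', hcard _ (Finset.Subset.refl _), hc]
    · intro x' hx' y' hy' hxy
      rw [hU', Finset.mem_image] at hx' hy'
      obtain ⟨x, hx, rfl⟩ := hx'
      obtain ⟨y, hy, rfl⟩ := hy'
      rw [hadj x hx y hy]
      exact hab x hx y hy (fun h => hxy (by rw [h]))

/-- contraction of a set of edges as a quotient of the vertex set -/
theorem exists_quot {G : Gr α V} {F : Finset α} (hF : G.On F) :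
    ∃ π : V → V, (∀ x ∈ G.U, π x ∈ G.U) ∧ (∀ x, π (π x) = π x) ∧
      (∀ a ∈ F, π (G.f a) = π (G.g a)) ∧
      (∀ φ : V → ZMod 2, (∀ a ∈ F, φ (G.f a) = φ (G.g a)) → ∀ x, φ (π x) = φ x) ∧
      (∀ x, (∀ a ∈ F, G.f a ≠ x ∧ G.g a ≠ x) → π x = x) := by
  induction F using Finset.induction_on with
  | empty =>
    exact ⟨id, fun x hx => hx, fun x => rfl, fun a ha => by simp at ha, fun φ _ x => rfl,
      fun x _ => rfl⟩
  | insert a F haF ih =>
    obtain ⟨π, h1, h2, h3, h4, h5⟩ := ih (hF.mono (Finset.subset_insert a F))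
    obtain ⟨hfa, hga, hfg⟩ := hF a (Finset.mem_insert_self a F)
    refine ⟨fun x => if π x = π (G.g a) then π (G.f a) else π x, ?_, ?_, ?_, ?_, ?_⟩
    · intro x hx
      dsimp only
      split_ifs
      · exact h1 _ hfa
      · exact h1 _ hx
    · intro x
      dsimp only
      by_cases h : π x = π (G.g a)
      · rw [if_pos h, h2]
        split_ifs <;> rfl
      · rw [if_neg h, h2, if_neg h]
    · intro b hb
      dsimp only
      rcases Finset.mem_insert.1 hb with rfl | hb
      · rw [if_pos rfl]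
        split_ifs <;> rfl
      · rw [h3 b hb]
    · intro φ hφ x
      dsimp only
      have h6 := h4 φ (fun b hb => hφ b (Finset.mem_insert_of_mem hb))
      split_ifs with h
      · rw [h6, hφ a (Finset.mem_insert_self a F), ← h6, ← h, h6]
      · exact h6 x
    · intro x hx
      dsimp only
      have hx' : ∀ b ∈ F, G.f b ≠ x ∧ G.g b ≠ x := fun b hb => hx b (Finset.mem_insert_of_mem hb)
      have h6 := h5 x hx'
      have h7 : π (G.g a) ≠ x := by
        intro h7
        have h8 := h4 (fun y => if y = x then 1 else 0) (by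
          intro b hb
          rw [if_neg (hx' b hb).1, if_neg (hx' b hb).2]) (G.g a)
        rw [if_pos h7, if_neg (hx a (Finset.mem_insert_self a F)).2] at h8
        exact one_ne_zero h8
      rw [h6, if_neg h7.symm]

end Pool.Agent.H53.Sey
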