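import Pool.Agent.H53.Sey.RegA

/-!
# Graph toolkit E2: linkages (job SEYG-E2)

`nr`: with `T = {x, y, p, q}` a linkage of the pairs `x, y | p, q` gives `z x + z y = 0`. If all
three pairings are linked then `z x = - z y`, `z x = - z p`, `z x = - z q`; the sum of all four is
`z x + z y + z p + z q = -2 z x = z x = 0`: contradiction.
-/

set_option autoImplicit false

namespace Pool.Agent.H53.Sey

open Pool.Agent.H63.Sey

universe u v w

variable {α : Type u} [DecidableEq α] {V : Type v} [DecidableEq V]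

/-- the pairs `x, y` and `p, q` are joined by disjoint connected sets -/
def Lk (G : Gr α V) (E : Finset α) (x y p q : V) : Prop :=
  ∃ S0 S1 : Finset V, S0 ⊆ G.U ∧ S1 ⊆ G.U ∧ Disjoint S0 S1 ∧ G.Cn E S0 ∧ G.Cn E S1 ∧
    x ∈ S0 ∧ y ∈ S0 ∧ p ∈ S1 ∧ q ∈ S1

omit [DecidableEq α] in
lemma Lk.symm {G : Gr α V} {E : Finset α} {x y p q : V} (h : Lk G E x y p q) : Lk G E p q x y := by
  obtain ⟨S0, S1, h0, h1, hd, hc0, hc1, hx, hy, hp, hq⟩ := h
  exact ⟨S1, S0, h1, h0, hd.symm, hc1, hc0, hp, hq, hx, hy⟩

omit [DecidableEq α] in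
lemma Lk.swap {G : Gr α V} {E : Finset α} {x y p q : V} (h : Lk G E x y p q) : Lk G E y x p q := by
  obtain ⟨S0, S1, h0, h1, hd, hc0, hc1, hx, hy, hp, hq⟩ := h
  exact ⟨S0, S1, h0, h1, hd, hc0, hc1, hy, hx, hp, hq⟩

/-- an edge `xy` gives the linkage `x, y | p, q` -/
lemma Lk.of_adj {G : Gr α V} {E : Finset α} (hvc : G.VC E ∅) (hon : G.On E) {x y p q : V}
    (hxy : G.Adj E x y) (hp : p ∈ G.U) (hq : q ∈ G.U) (hpx : p ≠ x) (hpy : p ≠ y) (hqx : q ≠ x)
    (hqy : q ≠ y) : Lk G E x y p q := by
  obtain ⟨hx, hy, hne⟩ := hon.adj_mem hxy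
  have hZ : ({x, y} : Finset V) ⊆ G.U := by
    intro z hz
    rcases Finset.mem_insert.1 hz with h | h
    · exact h ▸ hx
    · exact (Finset.mem_singleton.1 h) ▸ hy
  have hp' : p ∈ G.U \ {x, y} := by
    simp [hp, hpx, hpy]
  have hq' : q ∈ G.U \ {x, y} := by
    simp [hq, hqx, hqy]
  refine ⟨{x, y}, G.U \ {x, y}, hZ, Finset.sdiff_subset, Finset.disjoint_sdiff, ?_,
    hvc.cn_sdiff hon hZ Finset.card_le_two ⟨p, hp'⟩, by simp, by simp, hp', hq'⟩
  exact (Gr.Cn.single E y).insert (Finset.mem_singleton_self y) hxy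

/-- nonregularity: `|T| = 4` and all three pairings of `T` are linked -/
theorem nr {M : BM α} (hreg : Regular M) {e : α} {G : Gr α V} {T : Finset V}
    (h : GRep M e G T) (hvc : G.VC (M.E \ {e}) ∅)
    (hne : ∀ x ∈ G.U, (G.star (M.E \ {e}) x).Nonempty) {x y p q : V} (hT : T = {x, y, p, q})
    (hcard : T.card = 4) (h1 : Lk G (M.E \ {e}) x y p q) (h2 : Lk G (M.E \ {e}) x p y q)
    (h3 : Lk G (M.E \ {e}) x q y p) : False := by
  obtain ⟨z, hz0, hz1, hz2⟩ := reg_sign hreg h hvc hne
  have key : ∀ a b c d : V, T = {a, b, c, d} → T.card = 4 → Lk G (M.E \ {e}) a b c d →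
      z a + z b = 0 := by
    intro a b c d hT hcard hL
    obtain ⟨S0, S1, h0, h1, hd, hc0, hc1, ha, hb, hc, hd'⟩ := hL
    have hab : a ≠ b := by
      intro hab
      subst hab
      have : T.card ≤ 3 := by
        rw [hT]
        simp only [Finset.insert_idem]
        exact Finset.card_le_three
      omega
    have hcS : c ∉ S0 := fun hh => (Finset.disjoint_left.1 hd hh) hc
    have hdS : d ∉ S0 := fun hh => (Finset.disjoint_left.1 hd hh) hd'
    have hTS : T ⊆ S0 ∪ S1 := by
      intro w hw
      rw [hT] at hw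
      simp only [Finset.mem_insert, Finset.mem_singleton] at hw
      rw [Finset.mem_union]
      rcases hw with rfl | rfl | rfl | rfl
      · exact Or.inl ha
      · exact Or.inl hb
      · exact Or.inr hc
      · exact Or.inr hd'
    have hI : T ∩ S0 = {a, b} := by
      ext w
      rw [hT]
      simp only [Finset.mem_inter, Finset.mem_insert, Finset.mem_singleton]
      constructor
      · rintro ⟨rfl | rfl | rfl | rfl, hw⟩
        · exact Or.inl rfl
        · exact Or.inr rfl
        · exact absurd hw hcS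
        · exact absurd hw hdS
      · rintro (rfl | rfl)
        · exact ⟨Or.inl rfl, ha⟩
        · exact ⟨Or.inr (Or.inl rfl), hb⟩
    have h2 := hz2 S0 S1 h0 h1 hd hc0 hc1 hTS
    rw [hI, Finset.sum_pair hab, Finset.card_pair hab] at h2
    exact h2.2 even_two
  have e1 := key x y p q hT hcard h1
  have e2 := key x p y q (by rw [hT]; ext w; simp only [Finset.mem_insert, Finset.mem_singleton]; tauto)
    hcard h2
  have e3 := key x q y p (by rw [hT]; ext w; simp only [Finset.mem_insert, Finset.mem_singleton]; tauto)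
    hcard h3
  have hsum : z x + z y + z p + z q = 0 := by
    rw [hT] at hcard hz1
    have hx' : x ∉ ({y, p, q} : Finset V) := by
      intro hx'
      rw [Finset.insert_eq_of_mem hx'] at hcard
      have := Finset.card_le_three (a := y) (b := p) (c := q)
      omega
    have hc3 : ({y, p, q} : Finset V).card = 3 := by
      rw [Finset.card_insert_of_notMem hx'] at hcard
      omega
    have hy' : y ∉ ({p, q} : Finset V) := by
      intro hy'
      rw [Finset.insert_eq_of_mem hy'] at hc3
      have := Finset.card_le_two (a := p) (b := q)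
      omega
    have hc2 : ({p, q} : Finset V).card = 2 := by
      rw [Finset.card_insert_of_notMem hy'] at hc3
      omega
    have hp' : p ≠ q := by
      intro hp'
      subst hp'
      simp at hc2
    rw [Finset.sum_insert hx', Finset.sum_insert hy', Finset.sum_pair hp'] at hz1
    rw [← hz1]
    ring
  have hx0 : z x = 0 := by
    have h3' : (3 : ZMod 3) = 0 := by decide
    linear_combination z x * h3' - (e1 + e2 + e3 - hsum)
  have hxT : x ∈ T := by rw [hT]; simp
  exact hz0 x hxT hx0

end Pool.Agent.H53.Sey
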