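import Pool.Agent.H53.Sey.Coset
import Pool.Agent.H53.Sey.RegB
import Pool.Agent.H53.Sey.FinCoset

/-!
# Graph toolkit F1: patterns at an edge of a graft, consequences (job SEYG-F1)

Standing assumption `G3 M e G T` (3-connected simple graph, `e` = `T`-join element), `|T| ≥ 4`.

`C2.not_graphic_con`: `C2` with disjoint `{u, v}`, `{s, t}` (so `|T| = 6`). Contract the edge `c`
joining `p` and `s` (`π p = s`): the set `T` becomes `{w, u, v, t}`, the vertex `w` is adjacent to
`u, v, s`. The contracted graph (with the edge `f` joining `w` and `s`) satisfies `VC _ ∅`: a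
separation `(P, Q)` of it is one of `G \ f` after putting `p` into `P` if `s, t ∈ P` and into `Q`
otherwise, so by `VC _ {w, p}` for `G \ f`, `P \ Q ⊆ {w}` or `Q \ P ⊆ {w}`; but `w ∈ P \ Q` implies
`u, v, s ∈ P ∩ Q`. By `U3` it is not graphic.

`C2.cographic`: if moreover `M.con {c}` is cographic then so is `(M.del {e}).del {f}`: it is a series
extension of its contraction by `c` (`p` has degree 2 in `G \ f`), which is a minor of `M.con {c}`
(delete `e` and `f`).

`C2.lam_le`: `C2` with `{u, v}` and `{s, t}` sharing one vertex `z`: `A = {f, a, b, c, d, e}`,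
`P = {w, p} ∪ {u, v} ∪ {s, t}` (5 vertices), `Q = U \ {w, p}`, `P ∩ Q` has 3 elements.
-/

set_option autoImplicit false

namespace Pool.Agent.H53.Sey

open Pool.Agent.H63.Sey
open scoped symmDiff

universe u v w

variable {α : Type u} [DecidableEq α] {V : Type v} [DecidableEq V]

/-- pattern 1 at the edge `f` (joining `w` and `p`): `w ∈ T` is cubic with neighbours `p, u, v` and
`T = {w, u, v, q}` -/
structure C1 (M : BM α) (e : α) (G : Gr α V) (T : Finset V) (f a b : α) (w p u v q : V) : Prop where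
  jf : G.Jn f w p
  ja : G.Jn a w u
  jb : G.Jn b w v
  star : G.star (M.E \ {e}) w = {f, a, b}
  star_card : (G.star (M.E \ {e}) w).card = 3
  T_eq : T = {w, u, v, q}
  T_card : T.card = 4

/-- pattern 2 at the edge `f` (joining `w` and `p`): `w, p ∈ T` are cubic with neighbours `p, u, v`
and `w, s, t` and `T = {w, p} ∪ ({u, v} ∆ {s, t})` -/
structure C2 (M : BM α) (e : α) (G : Gr α V) (T : Finset V) (f a b c d : α) (w p u v s t : V) :
    Prop where
  jf : G.Jn f w p
  ja : G.Jn a w u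
  jb : G.Jn b w v
  jc : G.Jn c p s
  jd : G.Jn d p t
  star : G.star (M.E \ {e}) w = {f, a, b}
  star_card : (G.star (M.E \ {e}) w).card = 3
  star' : G.star (M.E \ {e}) p = {f, c, d}
  star_card' : (G.star (M.E \ {e}) p).card = 3
  T_eq : T = {w, p} ∪ (({u, v} : Finset V) ∆ {s, t})
  ne : ({u, v} : Finset V) ≠ {s, t}

variable {M : BM α} {e : α} {G : Gr α V} {T : Finset V}

/-! ### auxiliary lemmas -/

lemma patA_card3 {β : Type*} [DecidableEq β] {a b c : β} (h : 3 ≤ ({a, b, c} : Finset β).card) :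
    a ≠ b ∧ a ≠ c ∧ b ≠ c := by
  have h2 : ∀ x y : β, ({x, y} : Finset β).card ≤ 2 := fun x y => Finset.card_le_two
  refine ⟨?_, ?_, ?_⟩
  · rintro rfl
    have e : ({a, a, c} : Finset β) = {a, c} := by ext z; simp
    rw [e] at h
    have := h2 a c
    omega
  · rintro rfl
    have e : ({a, b, a} : Finset β) = {a, b} := by
      ext z
      simp only [Finset.mem_insert, Finset.mem_singleton]
      tauto
    rw [e] at h
    have := h2 a b
    omega
  · rintro rfl
    have e : ({a, b, b} : Finset β) = {a, b} := by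
      ext z
      simp only [Finset.mem_insert, Finset.mem_singleton]
      tauto
    rw [e] at h
    have := h2 a b
    omega

lemma patA_card4 {β : Type*} [DecidableEq β] {a b c d : β}
    (h : 4 ≤ ({a, b, c, d} : Finset β).card) :
    a ≠ b ∧ a ≠ c ∧ a ≠ d ∧ b ≠ c ∧ b ≠ d ∧ c ≠ d := by
  have h3 : ({b, c, d} : Finset β).card ≤ 3 := Finset.card_le_three
  have h1 : a ∉ ({b, c, d} : Finset β) := by
    intro ha
    rw [Finset.insert_eq_self.2 ha] at h
    omega
  rw [Finset.card_insert_of_notMem h1] at h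
  obtain ⟨h4, h5, h6⟩ := patA_card3 (a := b) (b := c) (c := d) (by omega)
  simp only [Finset.mem_insert, Finset.mem_singleton, not_or] at h1
  exact ⟨h1.1, h1.2.1, h1.2.2, h4, h5, h6⟩

lemma patA_sdiff {β : Type*} [DecidableEq β] (A : Finset β) (c e : β) :
    (A \ {c}) \ {e} = (A \ {e}) \ {c} := by
  ext z
  simp only [Finset.mem_sdiff, Finset.mem_singleton]
  tauto

lemma patA_on (h : G3 M e G T) : G.On (M.E \ {e}) := h.rep.on

/-- a vertex different from the ends -/
lemma patA_jn_star {E : Finset α} {a : α} {x y : V} (ha : a ∈ E) (hj : G.Jn a x y) :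
    a ∈ G.star E x := Gr.mem_star_iff_jn.2 ⟨ha, y, hj⟩

/-- parallel edges are equal -/
lemma patA_par (h : G3 M e G T) {a b : α} (ha : a ∈ M.E \ {e}) (hb : b ∈ M.E \ {e}) {x y : V}
    (hja : G.Jn a x y) (hjb : G.Jn b x y) : a = b := h.simple a ha b hb x y hja hjb

/-- some consequences of `C1`: everything is distinct -/
lemma C1.basic (h : G3 M e G T) {f a b : α} {w p u v q : V} (hc : C1 M e G T f a b w p u v q) :
    f ∈ M.E \ {e} ∧ a ∈ M.E \ {e} ∧ b ∈ M.E \ {e} ∧ f ≠ a ∧ f ≠ b ∧ a ≠ b ∧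
      w ∈ G.U ∧ p ∈ G.U ∧ u ∈ G.U ∧ v ∈ G.U ∧ q ∈ G.U ∧ w ≠ p ∧ w ≠ u ∧ w ≠ v ∧ w ≠ q ∧ p ≠ u ∧
      p ≠ v ∧ u ≠ v ∧ u ≠ q ∧ v ≠ q := by
  have hon := h.rep.on
  have hf : f ∈ M.E \ {e} := (Gr.mem_star.1 (by rw [hc.star]; simp : f ∈ G.star (M.E \ {e}) w)).1
  have ha : a ∈ M.E \ {e} := (Gr.mem_star.1 (by rw [hc.star]; simp : a ∈ G.star (M.E \ {e}) w)).1
  have hb : b ∈ M.E \ {e} := (Gr.mem_star.1 (by rw [hc.star]; simp : b ∈ G.star (M.E \ {e}) w)).1
  have h3 := hc.star_card
  rw [hc.star] at h3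
  obtain ⟨hfa, hfb, hab⟩ := patA_card3 h3.ge
  have h4 := hc.T_card
  rw [hc.T_eq] at h4
  obtain ⟨hwu, hwv, hwq, huv, huq, hvq⟩ := patA_card4 h4.ge
  obtain ⟨hwU, hpU, hwp⟩ := hon.jn_mem hf hc.jf
  obtain ⟨-, huU, -⟩ := hon.jn_mem ha hc.ja
  obtain ⟨-, hvU, -⟩ := hon.jn_mem hb hc.jb
  have hqU : q ∈ G.U := h.rep.TU (by rw [hc.T_eq]; simp)
  refine ⟨hf, ha, hb, hfa, hfb, hab, hwU, hpU, huU, hvU, hqU, hwp, hwu, hwv, hwq, ?_, ?_, huv,
    huq, hvq⟩
  · rintro rfl
    exact hfa (patA_par h hf ha hc.jf hc.ja)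
  · rintro rfl
    exact hfb (patA_par h hf hb hc.jf hc.jb)

lemma C2.basic (h : G3 M e G T) {f a b c d : α} {w p u v s t : V}
    (hc : C2 M e G T f a b c d w p u v s t) :
    (f ∈ M.E \ {e} ∧ a ∈ M.E \ {e} ∧ b ∈ M.E \ {e} ∧ c ∈ M.E \ {e} ∧ d ∈ M.E \ {e}) ∧
      (f ≠ a ∧ f ≠ b ∧ f ≠ c ∧ f ≠ d ∧ a ≠ b ∧ a ≠ c ∧ a ≠ d ∧ b ≠ c ∧ b ≠ d ∧ c ≠ d) ∧
      (w ∈ G.U ∧ p ∈ G.U ∧ u ∈ G.U ∧ v ∈ G.U ∧ s ∈ G.U ∧ t ∈ G.U) ∧
      (w ≠ p ∧ w ≠ u ∧ w ≠ v ∧ w ≠ s ∧ w ≠ t ∧ p ≠ u ∧ p ≠ v ∧ p ≠ s ∧ p ≠ t ∧ u ≠ v ∧ s ≠ t) := by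
  have hon := h.rep.on
  have hf : f ∈ M.E \ {e} := (Gr.mem_star.1 (by rw [hc.star]; simp : f ∈ G.star (M.E \ {e}) w)).1
  have ha : a ∈ M.E \ {e} := (Gr.mem_star.1 (by rw [hc.star]; simp : a ∈ G.star (M.E \ {e}) w)).1
  have hb : b ∈ M.E \ {e} := (Gr.mem_star.1 (by rw [hc.star]; simp : b ∈ G.star (M.E \ {e}) w)).1
  have hc' : c ∈ M.E \ {e} :=
    (Gr.mem_star.1 (by rw [hc.star']; simp : c ∈ G.star (M.E \ {e}) p)).1
  have hd : d ∈ M.E \ {e} := (Gr.mem_star.1 (by rw [hc.star']; simp : d ∈ G.star (M.E \ {e}) p)).1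
  have h3 := hc.star_card
  rw [hc.star] at h3
  obtain ⟨hfa, hfb, hab⟩ := patA_card3 h3.ge
  have h3' := hc.star_card'
  rw [hc.star'] at h3'
  obtain ⟨hfc, hfd, hcd⟩ := patA_card3 h3'.ge
  obtain ⟨hwU, hpU, hwp⟩ := hon.jn_mem hf hc.jf
  obtain ⟨-, huU, hwu⟩ := hon.jn_mem ha hc.ja
  obtain ⟨-, hvU, hwv⟩ := hon.jn_mem hb hc.jb
  obtain ⟨-, hsU, hps⟩ := hon.jn_mem hc' hc.jc
  obtain ⟨-, htU, hpt⟩ := hon.jn_mem hd hc.jd
  have hpu : p ≠ u := by
    rintro rfl
    exact hfa (patA_par h hf ha hc.jf hc.ja)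
  have hpv : p ≠ v := by
    rintro rfl
    exact hfb (patA_par h hf hb hc.jf hc.jb)
  have hws : w ≠ s := by
    rintro rfl
    exact hfc (patA_par h hf hc' hc.jf hc.jc.symm)
  have hwt : w ≠ t := by
    rintro rfl
    exact hfd (patA_par h hf hd hc.jf hc.jd.symm)
  have key : ∀ {x : α} {y z : V}, G.Jn x w y → G.Jn x p z → p ≠ y → False := by
    intro x y z h5 h6 h7
    rcases h5.ends h6 with ⟨h8, -⟩ | ⟨-, h8⟩
    · exact hwp h8
    · exact h7 h8.symm
  refine ⟨⟨hf, ha, hb, hc', hd⟩, ⟨hfa, hfb, hfc, hfd, hab, ?_, ?_, ?_, ?_, hcd⟩,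
    ⟨hwU, hpU, huU, hvU, hsU, htU⟩, ⟨hwp, hwu, hwv, hws, hwt, hpu, hpv, hps, hpt, ?_, ?_⟩⟩
  · rintro rfl
    exact key hc.ja hc.jc hpu
  · rintro rfl
    exact key hc.ja hc.jd hpu
  · rintro rfl
    exact key hc.jb hc.jc hpv
  · rintro rfl
    exact key hc.jb hc.jd hpv
  · rintro rfl
    exact hab (patA_par h ha hb hc.ja hc.jb)
  · rintro rfl
    exact hcd (patA_par h hc' hd hc.jc hc.jd)

lemma patA_ne (h : G3 M e G T) : ∀ x ∈ G.U, (G.star (M.E \ {e}) x).Nonempty := by
  intro x hx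
  have := h.deg x hx
  exact Finset.card_pos.1 (by omega)

/-- in a regular matroid `q ≠ p` and `p ∉ T` in pattern 1, `u, v` are nonadjacent, `w, q` are
nonadjacent, and the pairing `w q | u v` is not linked -/
lemma C1.regular (hreg : Regular M) (h : G3 M e G T) {f a b : α} {w p u v q : V}
    (hc : C1 M e G T f a b w p u v q) :
    p ∉ T ∧ ¬ G.Adj (M.E \ {e}) u v ∧ ¬ G.Adj (M.E \ {e}) w q ∧ ¬ Lk G (M.E \ {e}) w q u v := by
  obtain ⟨hf, ha, hb, hfa, hfb, hab, hwU, hpU, huU, hvU, hqU, hwp, hwu, hwv, hwq, hpu, hpv, huv,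
    huq, hvq⟩ := hc.basic h
  have hon := h.rep.on
  have h4 : ¬ Lk G (M.E \ {e}) w q u v := by
    intro hl
    have hT : T = {w, q, u, v} := by
      rw [hc.T_eq]
      ext z
      simp only [Finset.mem_insert, Finset.mem_singleton]
      tauto
    refine nr hreg h.rep h.vc (patA_ne h) hT hc.T_card hl ?_ ?_
    · -- w u | q v
      exact Lk.of_adj h.vc hon ⟨a, ha, hc.ja⟩ hqU hvU hwq.symm huq.symm hwv.symm huv.symm
    · -- w v | u q
      exact Lk.of_adj h.vc hon ⟨b, hb, hc.jb⟩ hqU huU hwq.symm hvq.symm hwu.symm huv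
  have h3 : ¬ G.Adj (M.E \ {e}) w q := fun hadj =>
    h4 (Lk.of_adj h.vc hon hadj huU hvU hwu.symm huq hwv.symm hvq)
  have h2 : ¬ G.Adj (M.E \ {e}) u v := fun hadj =>
    h4 (Lk.of_adj h.vc hon hadj hwU hqU hwu hwv huq.symm hvq.symm).symm
  refine ⟨?_, h2, h3, h4⟩
  intro hpT
  rw [hc.T_eq] at hpT
  simp only [Finset.mem_insert, Finset.mem_singleton] at hpT
  rcases hpT with h5 | h5 | h5 | h5
  · exact hwp h5.symm
  · exact hpu h5
  · exact hpv h5
  · subst h5
    exact h3 ⟨f, hf, hc.jf⟩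

lemma C2.not_graphic_con (h : G3 M e G T) {f a b c d : α} {w p u v s t : V}
    (hc : C2 M e G T f a b c d w p u v s t) (hd : Disjoint ({u, v} : Finset V) {s, t})
    (hgood : Good ((M.del {e}).del {f})) : ¬ Graphic (M.con {c}) := by
  obtain ⟨⟨hf, ha, hb, hcE, hdE⟩, ⟨hfa, hfb, hfc, hfd, hab, hac, had, hbc, hbd, hcd⟩,
    ⟨hwU, hpU, huU, hvU, hsU, htU⟩, ⟨hwp, hwu, hwv, hws, hwt, hpu, hpv, hps, hpt, huv, hst⟩⟩ :=
    hc.basic h
  intro hgr
  have hon := h.rep.on
  have hce : c ≠ e := by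
    have := (Finset.mem_sdiff.1 hcE).2
    simpa using this
  have hus : u ≠ s := fun h1 => Finset.disjoint_left.1 hd (by simp : u ∈ ({u, v} : Finset V))
    (by rw [h1]; simp)
  have hut : u ≠ t := fun h1 => Finset.disjoint_left.1 hd (by simp : u ∈ ({u, v} : Finset V))
    (by rw [h1]; simp)
  have hvs : v ≠ s := fun h1 => Finset.disjoint_left.1 hd (by simp : v ∈ ({u, v} : Finset V))
    (by rw [h1]; simp)
  have hvt : v ≠ t := fun h1 => Finset.disjoint_left.1 hd (by simp : v ∈ ({u, v} : Finset V))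
    (by rw [h1]; simp)
  -- the quotient
  let π : V → V := fun z => if z = p then s else z
  have hπp : π p = s := if_pos rfl
  have hπ : ∀ {z : V}, z ≠ p → π z = z := fun hz => if_neg hz
  have hrep : GRep (M.con {c}) e ⟨G.U.image π, fun a => π (G.f a), fun a => π (G.g a)⟩
      ((G.U.image π).filter fun x => Odd (T.filter fun t => π t = x).card) := by
    refine h.rep.conQ (F := {c}) (by simpa using hce.symm) π ?_ ?_ ?_ ?_ ?_
    · intro x hx
      by_cases h1 : x = p
      · rw [h1, hπp]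
        exact hsU
      · rw [hπ h1]
        exact hx
    · intro x _
      by_cases h1 : x = p
      · rw [h1, hπp, hπ hps.symm]
      · rw [hπ h1, hπ h1]
    · intro x hx _
      rw [Finset.mem_singleton] at hx
      subst hx
      rcases hc.jc with ⟨h1, h2⟩ | ⟨h1, h2⟩
      · rw [h1, h2, hπp, hπ hps.symm]
      · rw [h1, h2, hπp, hπ hps.symm]
    · intro φ hφ x _
      by_cases h1 : x = p
      · have h2 := hφ c (Finset.mem_singleton_self c) (Finset.mem_sdiff.1 hcE).1
        rw [h1, hπp]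
        rcases hc.jc with ⟨h3, h4⟩ | ⟨h3, h4⟩
        · rw [h3, h4] at h2
          exact h2.symm
        · rw [h3, h4] at h2
          exact h2
      · rw [hπ h1]
    · intro x hx h1
      rw [Finset.mem_sdiff, Finset.mem_singleton] at hx
      obtain ⟨-, -, h2⟩ := hon x hx.1
      by_cases h3 : G.f x = p
      · rw [h3, hπp] at h1
        have h4 : G.g x ≠ p := fun h4 => h2 (h3.trans h4.symm)
        rw [hπ h4] at h1
        exact hx.2 (patA_par h hx.1 hcE (Or.inl ⟨h3, h1.symm⟩) hc.jc)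
      · rw [hπ h3] at h1
        by_cases h4 : G.g x = p
        · rw [h4, hπp] at h1
          exact hx.2 (patA_par h hx.1 hcE (Or.inr ⟨h1, h4⟩) hc.jc)
        · rw [hπ h4] at h1
          exact h2 h1
  -- edges at p
  have hstarp : ∀ z ∈ M.E \ {e}, G.f z = p ∨ G.g z = p → z = f ∨ z = c ∨ z = d := by
    intro z hz h1
    have h2 : z ∈ G.star (M.E \ {e}) p := Gr.mem_star.2 ⟨hz, h1⟩
    rw [hc.star'] at h2
    simpa using h2
  have hUim : ∀ x, x ∈ G.U.image π ↔ x ∈ G.U ∧ x ≠ p := by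
    intro x
    rw [Finset.mem_image]
    constructor
    · rintro ⟨y, hy, rfl⟩
      by_cases h1 : y = p
      · rw [h1, hπp]
        exact ⟨hsU, hps.symm⟩
      · rw [hπ h1]
        exact ⟨hy, h1⟩
    · rintro ⟨h1, h2⟩
      exact ⟨x, h1, hπ h2⟩
  have hE : (M.con {c}).E \ {e} = (M.E \ {e}) \ {c} := patA_sdiff _ _ _
  -- the graph G \ f
  have hvcf : G.VC ((M.E \ {e}) \ {f}) {w, p} := by
    have hrp : Rp ((M.del {e}).del {f}) G := (h.rep.del_rp).del {f}
    have h1 := vc_of_good hrp hgood {w, p} (by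
      intro x hx hxw
      simp only [Finset.mem_insert, Finset.mem_singleton, not_or] at hxw
      have h2 : G.star ((M.del {e}).del {f}).E x = G.star (M.E \ {e}) x := by
        ext z
        rw [Gr.mem_star, Gr.mem_star, LM.del_E, LM.del_E, Finset.mem_sdiff (a := z) (t := {f}),
          Finset.mem_singleton]
        constructor
        · rintro ⟨⟨h3, -⟩, h4⟩
          exact ⟨h3, h4⟩
        · rintro ⟨h3, h4⟩
          refine ⟨⟨h3, ?_⟩, h4⟩
          rintro rfl
          rcases hc.jf with ⟨h5, h6⟩ | ⟨h5, h6⟩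
          · rw [h5, h6] at h4
            rcases h4 with h4 | h4
            · exact hxw.1 h4.symm
            · exact hxw.2 h4.symm
          · rw [h5, h6] at h4
            rcases h4 with h4 | h4
            · exact hxw.2 h4.symm
            · exact hxw.1 h4.symm
      rw [h2]
      exact h.deg x hx)
    exact h1
  have hvc : Gr.VC ⟨G.U.image π, fun a => π (G.f a), fun a => π (G.g a)⟩
      ((M.con {c}).E \ {e}) ∅ := by
    rw [hE]
    intro P Q hPQ hcard hedge
    have hPU : ∀ x, (x ∈ P ∨ x ∈ Q) ↔ x ∈ G.U ∧ x ≠ p := by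
      intro x
      rw [← Finset.mem_union, hPQ]
      exact hUim x
    have hpP : p ∉ P := fun h1 => ((hPU p).1 (Or.inl h1)).2 rfl
    have hpQ : p ∉ Q := fun h1 => ((hPU p).1 (Or.inr h1)).2 rfl
    have hed : ∀ {x y z : V} {k : α}, k ∈ M.E \ {e} → k ≠ c → G.Jn k x y → π x = z →
        (z ∈ P ∧ π y ∈ P) ∨ (z ∈ Q ∧ π y ∈ Q) := by
      intro x y z k hk hkc hj hz
      have h1 := hedge k (Finset.mem_sdiff.2 ⟨hk, by simpa using hkc⟩)
      change (π (G.f k) ∈ P ∧ π (G.g k) ∈ P) ∨ (π (G.f k) ∈ Q ∧ π (G.g k) ∈ Q) at h1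
      rcases hj with ⟨h2, h3⟩ | ⟨h2, h3⟩
      · rw [h2, h3, hz] at h1
        exact h1
      · rw [h2, h3, hz] at h1
        exact h1.imp And.symm And.symm
    have hwu' := hed ha hac hc.ja (hπ hwp)
    rw [hπ hpu.symm] at hwu'
    have hwv' := hed hb hbc hc.jb (hπ hwp)
    rw [hπ hpv.symm] at hwv'
    have hws' := hed hf hfc hc.jf (hπ hwp)
    rw [hπp] at hws'
    have hst' := hed hdE hcd.symm hc.jd hπp
    rw [hπ hpt.symm] at hst'
    -- lift of the separation
    have hlift : P \ Q ⊆ {w} ∨ Q \ P ⊆ {w} := by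
      have hstep : ∀ P' Q' : Finset V, (∀ x, x ≠ p → (x ∈ P' ↔ x ∈ P)) →
          (∀ x, x ≠ p → (x ∈ Q' ↔ x ∈ Q)) → (p ∈ P' ∨ p ∈ Q') → ¬ (p ∈ P' ∧ p ∈ Q') →
          (p ∈ P' → s ∈ P ∧ t ∈ P) → (p ∈ Q' → s ∈ Q ∧ t ∈ Q) →
          P \ Q ⊆ {w} ∨ Q \ P ⊆ {w} := by
        intro P' Q' hP' hQ' h1 h2 h3 h4
        have h5 := hvcf P' Q' (by
          ext x
          rw [Finset.mem_union]
          by_cases hx : x = p
          · subst hx
            exact ⟨fun _ => hpU, fun _ => h1⟩
          · rw [hP' x hx, hQ' x hx, hPU]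
            exact ⟨fun h6 => h6.1, fun h6 => ⟨h6, hx⟩⟩) (by
          have h6 : P' ∩ Q' = P ∩ Q := by
            ext x
            rw [Finset.mem_inter, Finset.mem_inter]
            by_cases hx : x = p
            · subst hx
              exact ⟨fun h7 => absurd h7 h2, fun h7 => absurd h7.1 hpP⟩
            · rw [hP' x hx, hQ' x hx]
          rw [h6]
          exact hcard) (by
          intro k hk
          rw [Finset.mem_sdiff, Finset.mem_singleton] at hk
          by_cases hkp : G.f k = p ∨ G.g k = p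
          · have hkcd : k = c ∨ k = d := (hstarp k hk.1 hkp).resolve_left hk.2
            have hj : G.Jn k p s ∨ G.Jn k p t := by
              rcases hkcd with rfl | rfl
              · exact Or.inl hc.jc
              · exact Or.inr hc.jd
            have h6 : ∀ y, y = s ∨ y = t → G.Jn k p y →
                (G.f k ∈ P' ∧ G.g k ∈ P') ∨ (G.f k ∈ Q' ∧ G.g k ∈ Q') := by
              intro y hy hj
              have hyp : y ≠ p := by
                rcases hy with rfl | rfl
                · exact hps.symm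
                · exact hpt.symm
              have h7 : (p ∈ P' ∧ y ∈ P') ∨ (p ∈ Q' ∧ y ∈ Q') := by
                rcases h1 with h1 | h1
                · left
                  refine ⟨h1, (hP' y hyp).2 ?_⟩
                  rcases hy with rfl | rfl
                  · exact (h3 h1).1
                  · exact (h3 h1).2
                · right
                  refine ⟨h1, (hQ' y hyp).2 ?_⟩
                  rcases hy with rfl | rfl
                  · exact (h4 h1).1
                  · exact (h4 h1).2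
              rcases hj with ⟨h8, h9⟩ | ⟨h8, h9⟩
              · rw [h8, h9]
                exact h7
              · rw [h8, h9]
                exact h7.imp And.symm And.symm
            rcases hj with hj | hj
            · exact h6 s (Or.inl rfl) hj
            · exact h6 t (Or.inr rfl) hj
          · rw [not_or] at hkp
            have hkc : k ≠ c := by
              rintro rfl
              rcases hc.jc with ⟨h6, -⟩ | ⟨-, h6⟩
              · exact hkp.1 h6
              · exact hkp.2 h6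
            have h6 := hed hk.1 hkc (Gr.jn_self k) (hπ hkp.1)
            rw [hπ hkp.2] at h6
            rw [hP' _ hkp.1, hP' _ hkp.2, hQ' _ hkp.1, hQ' _ hkp.2]
            exact h6)
        have h6 : ∀ {X Y X' Y' : Finset V}, (∀ x, x ≠ p → (x ∈ X' ↔ x ∈ X)) →
            (∀ x, x ≠ p → (x ∈ Y' ↔ x ∈ Y)) → p ∉ X → X' \ Y' ⊆ {w, p} → X \ Y ⊆ {w} := by
          intro X Y X' Y' hX hY hpX h7 x hx
          rw [Finset.mem_sdiff] at hx
          have hxp : x ≠ p := fun h8 => hpX (h8 ▸ hx.1)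
          have h8 := h7 (Finset.mem_sdiff.2 ⟨(hX x hxp).2 hx.1, fun h9 => hx.2 ((hY x hxp).1 h9)⟩)
          simp only [Finset.mem_insert, Finset.mem_singleton] at h8 ⊢
          exact h8.resolve_right hxp
        rcases h5 with h5 | h5
        · exact Or.inl (h6 hP' hQ' hpP h5)
        · exact Or.inr (h6 hQ' hP' hpQ h5)
      by_cases hsP : s ∈ P ∧ t ∈ P
      · refine hstep (insert p P) Q ?_ (fun _ _ => Iff.rfl) (Or.inl (Finset.mem_insert_self _ _))
          (fun h1 => hpQ h1.2) (fun _ => hsP) (fun h1 => absurd h1 hpQ)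
        intro x hx
        rw [Finset.mem_insert]
        exact ⟨fun h1 => h1.resolve_left hx, Or.inr⟩
      · have hsQ : s ∈ Q ∧ t ∈ Q := hst'.resolve_left hsP
        refine hstep P (insert p Q) (fun _ _ => Iff.rfl) ?_ (Or.inr (Finset.mem_insert_self _ _))
          (fun h1 => hpP h1.1) (fun h1 => absurd h1 hpP) (fun _ => hsQ)
        intro x hx
        rw [Finset.mem_insert]
        exact ⟨fun h1 => h1.resolve_left hx, Or.inr⟩
    -- conclusion
    have hfin : ∀ {X Y : Finset V}, X \ Y ⊆ {w} → (X ∩ Y).card ≤ 2 →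
        ((w ∈ X ∧ u ∈ X) ∨ (w ∈ Y ∧ u ∈ Y)) → ((w ∈ X ∧ v ∈ X) ∨ (w ∈ Y ∧ v ∈ Y)) →
        ((w ∈ X ∧ s ∈ X) ∨ (w ∈ Y ∧ s ∈ Y)) → X \ Y ⊆ ∅ := by
      intro X Y h1 h2 h3 h4 h5 x hx
      exfalso
      have hxw : x = w := by simpa using h1 hx
      subst hxw
      rw [Finset.mem_sdiff] at hx
      have hmem : ∀ z, z ∈ X → z ≠ x → z ∈ X ∩ Y := by
        intro z hz hzx
        rw [Finset.mem_inter]
        refine ⟨hz, ?_⟩
        by_contra hn
        exact hzx (by simpa using h1 (Finset.mem_sdiff.2 ⟨hz, hn⟩))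
      have hu : u ∈ X ∩ Y := hmem u (h3.resolve_right fun h9 => hx.2 h9.1).2 hwu.symm
      have hv : v ∈ X ∩ Y := hmem v (h4.resolve_right fun h9 => hx.2 h9.1).2 hwv.symm
      have hs : s ∈ X ∩ Y := hmem s (h5.resolve_right fun h9 => hx.2 h9.1).2 hws.symm
      have h6 : ({u, v, s} : Finset V) ⊆ X ∩ Y := by
        intro z hz
        simp only [Finset.mem_insert, Finset.mem_singleton] at hz
        rcases hz with rfl | rfl | rfl <;> assumption
      have h7 := Finset.card_le_card h6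
      have h8 : ({u, v, s} : Finset V).card = 3 := by
        rw [Finset.card_eq_three]
        exact ⟨u, v, s, huv, hus, hvs, rfl⟩
      omega
    rcases hlift with h1 | h1
    · exact Or.inl (hfin h1 hcard hwu' hwv' hws')
    · right
      exact hfin h1 (by rw [Finset.inter_comm]; exact hcard) hwu'.symm hwv'.symm hws'.symm
  have hne : ∀ x ∈ G.U.image π, (Gr.star ⟨G.U.image π, fun a => π (G.f a), fun a => π (G.g a)⟩
      ((M.con {c}).E \ {e}) x).Nonempty := by
    intro x hx
    obtain ⟨hxU, hxp⟩ := (hUim x).1 hx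
    have h1 := h.deg x hxU
    obtain ⟨k, hk, hkc⟩ := Finset.exists_mem_ne (s := G.star (M.E \ {e}) x) (by omega) c
    rw [Gr.mem_star] at hk
    refine ⟨k, Gr.mem_star.2 ⟨?_, ?_⟩⟩
    · rw [hE]
      exact Finset.mem_sdiff.2 ⟨hk.1, by simpa using hkc⟩
    · show π (G.f k) = x ∨ π (G.g k) = x
      rcases hk.2 with h2 | h2
      · left
        rw [h2, hπ hxp]
      · right
        rw [h2, hπ hxp]
  have hcard := U3 hrep hvc hne hgr
  have hTw : ∀ x, x ≠ p → x ≠ s → x ∈ G.U → x ∈ T →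
      x ∈ (G.U.image π).filter fun x => Odd (T.filter fun t => π t = x).card := by
    intro x hxp hxs hxU hxT
    rw [Finset.mem_filter]
    refine ⟨(hUim x).2 ⟨hxU, hxp⟩, ?_⟩
    have h1 : (T.filter fun t => π t = x) = {x} := by
      ext z
      rw [Finset.mem_filter, Finset.mem_singleton]
      constructor
      · rintro ⟨h2, h3⟩
        by_cases h4 : z = p
        · rw [h4, hπp] at h3
          exact absurd h3.symm hxs
        · rwa [hπ h4] at h3
      · rintro rfl
        exact ⟨hxT, hπ hxp⟩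
    rw [h1, Finset.card_singleton]
    exact odd_one
  have hsub : ({w, u, v} : Finset V) ⊆
      (G.U.image π).filter fun x => Odd (T.filter fun t => π t = x).card := by
    have huT : u ∈ T := by
      rw [hc.T_eq, Finset.mem_union, Finset.mem_symmDiff]
      exact Or.inr (Or.inl ⟨by simp, by simp [hus, hut]⟩)
    have hvT : v ∈ T := by
      rw [hc.T_eq, Finset.mem_union, Finset.mem_symmDiff]
      exact Or.inr (Or.inl ⟨by simp, by simp [hvs, hvt]⟩)
    have hwT : w ∈ T := by
      rw [hc.T_eq, Finset.mem_union]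
      simp
    intro z hz
    simp only [Finset.mem_insert, Finset.mem_singleton] at hz
    rcases hz with rfl | rfl | rfl
    · exact hTw z hwp hws hwU hwT
    · exact hTw z hpu.symm hus huU huT
    · exact hTw z hpv.symm hvs hvU hvT
  have h8 : ({w, u, v} : Finset V).card = 3 := by
    rw [Finset.card_eq_three]
    exact ⟨w, u, v, hwu, hwv, huv, rfl⟩
  have h9 := Finset.card_le_card hsub
  omega

lemma C2.cographic (h : G3 M e G T) {f a b c d : α} {w p u v s t : V}
    (hc : C2 M e G T f a b c d w p u v s t) (hcog : Cographic (M.con {c})) :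
    Cographic ((M.del {e}).del {f}) := by
  obtain ⟨⟨hf, ha, hb, hcE, hdE⟩, ⟨hfa, hfb, hfc, hfd, hab, hac, had, hbc, hbd, hcd⟩,
    ⟨hwU, hpU, huU, hvU, hsU, htU⟩, ⟨hwp, hwu, hwv, hws, hwt, hpu, hpv, hps, hpt, huv, hst⟩⟩ :=
    hc.basic h
  rw [Finset.mem_sdiff, Finset.mem_singleton] at hcE hdE
  have hrp : Rp ((M.del {e}).del {f}) G := (h.rep.del_rp).del {f}
  have hstar : G.star ((M.del {e}).del {f}).E p = {c, d} := by
    have h1 : G.star ((M.del {e}).del {f}).E p = (G.star (M.E \ {e}) p) \ {f} := by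
      ext z
      rw [Finset.mem_sdiff, Gr.mem_star, Gr.mem_star, LM.del_E, LM.del_E, Finset.mem_sdiff]
      tauto
    rw [h1, hc.star']
    ext z
    simp only [Finset.mem_sdiff, Finset.mem_insert, Finset.mem_singleton]
    constructor
    · rintro ⟨h2 | h2 | h2, h3⟩
      · exact absurd h2 h3
      · exact Or.inl h2
      · exact Or.inr h2
    · rintro (rfl | rfl)
      · exact ⟨Or.inr (Or.inl rfl), fun h2 => hfc h2.symm⟩
      · exact ⟨Or.inr (Or.inr rfl), fun h2 => hfd h2.symm⟩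
  have hs : ind {c, d} ∈ ((M.del {e}).del {f}).D := by
    have := hrp.star_mem p
    rwa [hstar] at this
  refine cographic_of_con_series hcd ?_ hs ?_
  · rw [LM.del_E, LM.del_E, Finset.mem_sdiff, Finset.mem_sdiff, Finset.mem_singleton,
      Finset.mem_singleton]
    exact ⟨hdE, fun h2 => hfd h2.symm⟩
  · have h1 : ((M.del {e}).del {f}).con {c} = (M.con {c}).del ({e} ∪ {f}) := by
      rw [LM.del_del, LM.con_del]
      rw [Finset.disjoint_singleton_left, Finset.mem_union, Finset.mem_singleton,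
        Finset.mem_singleton]
      rintro (h2 | h2)
      · exact hcE.2 h2
      · exact hfc h2.symm
    rw [h1]
    exact Pool.Agent.H87.Sey.cographic_minor hcog (LM.isMinor_del _ _)

lemma C2.lam_le (h : G3 M e G T) {f a b c d : α} {w p u v s t : V}
    (hc : C2 M e G T f a b c d w p u v s t) (hd : ¬ Disjoint ({u, v} : Finset V) {s, t}) :
    M.lam {f, a, b, c, d, e} ≤ 2 := by
  obtain ⟨⟨hf, ha, hb, hcE, hdE⟩, ⟨hfa, hfb, hfc, hfd, hab, hac, had, hbc, hbd, hcd⟩,
    ⟨hwU, hpU, huU, hvU, hsU, htU⟩, ⟨hwp, hwu, hwv, hws, hwt, hpu, hpv, hps, hpt, huv, hst⟩⟩ :=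
    hc.basic h
  have hon := h.rep.on
  have hsub : ({f, a, b, c, d} : Finset α) ⊆ M.E \ {e} := by
    intro z hz
    simp only [Finset.mem_insert, Finset.mem_singleton] at hz
    rcases hz with rfl | rfl | rfl | rfl | rfl <;> assumption
  have hA : ({f, a, b, c, d, e} : Finset α) ⊆ M.E := by
    intro z hz
    simp only [Finset.mem_insert, Finset.mem_singleton] at hz
    by_cases hze : z = e
    · rw [hze]
      exact h.rep.he
    · have : z ∈ ({f, a, b, c, d} : Finset α) := by
        simp only [Finset.mem_insert, Finset.mem_singleton]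
        tauto
      exact (Finset.mem_sdiff.1 (hsub this)).1
  have hPU : ({w, p, u, v, s, t} : Finset V) ⊆ G.U := by
    intro z hz
    simp only [Finset.mem_insert, Finset.mem_singleton] at hz
    rcases hz with rfl | rfl | rfl | rfl | rfl | rfl <;> assumption
  have h1 : M.lam {f, a, b, c, d, e} ≤
      (({w, p, u, v, s, t} : Finset V) ∩ (G.U \ {w, p})).card - 1 := by
    refine h.rep.lam_le hA (by simp) ?_ ?_ ?_ ?_
    · ext z
      rw [Finset.mem_union, Finset.mem_sdiff]
      constructor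
      · rintro (h2 | h2)
        · exact hPU h2
        · exact h2.1
      · intro h2
        by_cases h3 : z ∈ ({w, p} : Finset V)
        · left
          simp only [Finset.mem_insert, Finset.mem_singleton] at h3 ⊢
          tauto
        · exact Or.inr ⟨h2, h3⟩
    · rw [hc.T_eq]
      intro z hz
      rw [Finset.mem_union, Finset.mem_symmDiff] at hz
      simp only [Finset.mem_insert, Finset.mem_singleton] at hz ⊢
      tauto
    · intro z hz hze
      simp only [Finset.mem_insert, Finset.mem_singleton] at hz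
      have hj : ∀ {x y : V}, G.Jn z x y → x ∈ ({w, p, u, v, s, t} : Finset V) →
          y ∈ ({w, p, u, v, s, t} : Finset V) →
          G.f z ∈ ({w, p, u, v, s, t} : Finset V) ∧ G.g z ∈ ({w, p, u, v, s, t} : Finset V) := by
        intro x y hj hx hy
        rcases hj with ⟨h2, h3⟩ | ⟨h2, h3⟩
        · rw [h2, h3]
          exact ⟨hx, hy⟩
        · rw [h2, h3]
          exact ⟨hy, hx⟩
      rcases hz with rfl | rfl | rfl | rfl | rfl | rfl
      · exact hj hc.jf (by simp) (by simp)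
      · exact hj hc.ja (by simp) (by simp)
      · exact hj hc.jb (by simp) (by simp)
      · exact hj hc.jc (by simp) (by simp)
      · exact hj hc.jd (by simp) (by simp)
      · exact absurd rfl hze
    · intro z hz
      rw [Finset.mem_sdiff] at hz
      simp only [Finset.mem_insert, Finset.mem_singleton, not_or] at hz
      obtain ⟨hzE, hzf, hza, hzb, hzc, hzd, hze⟩ := hz
      have hzE' : z ∈ M.E \ {e} := Finset.mem_sdiff.2 ⟨hzE, by simpa using hze⟩
      have hw : z ∉ G.star (M.E \ {e}) w := by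
        rw [hc.star]
        simp only [Finset.mem_insert, Finset.mem_singleton, not_or]
        exact ⟨hzf, hza, hzb⟩
      have hp : z ∉ G.star (M.E \ {e}) p := by
        rw [hc.star']
        simp only [Finset.mem_insert, Finset.mem_singleton, not_or]
        exact ⟨hzf, hzc, hzd⟩
      rw [Gr.mem_star] at hw hp
      obtain ⟨h2, h3, -⟩ := hon z hzE'
      rw [Finset.mem_sdiff, Finset.mem_sdiff]
      simp only [Finset.mem_insert, Finset.mem_singleton, not_or]
      refine ⟨⟨h2, fun h4 => hw ⟨hzE', Or.inl h4⟩, fun h4 => hp ⟨hzE', Or.inl h4⟩⟩,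
        ⟨h3, fun h4 => hw ⟨hzE', Or.inr h4⟩, fun h4 => hp ⟨hzE', Or.inr h4⟩⟩⟩
  have h2 : (({w, p, u, v, s, t} : Finset V) ∩ (G.U \ {w, p})).card ≤ 3 := by
    have h3 : (({w, p, u, v, s, t} : Finset V) ∩ (G.U \ {w, p})) ⊆ {u, v} ∪ {s, t} := by
      intro z hz
      rw [Finset.mem_inter, Finset.mem_sdiff] at hz
      simp only [Finset.mem_insert, Finset.mem_singleton, not_or, Finset.mem_union] at hz ⊢
      tauto
    have h4 := Finset.card_le_card h3
    have h5 := Finset.card_union_add_card_inter ({u, v} : Finset V) {s, t}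
    have h6 : ({u, v} : Finset V).card ≤ 2 := Finset.card_le_two
    have h7 : ({s, t} : Finset V).card ≤ 2 := Finset.card_le_two
    have h8 : 1 ≤ (({u, v} : Finset V) ∩ {s, t}).card := by
      rw [Nat.one_le_iff_ne_zero]
      intro h9
      rw [Finset.card_eq_zero] at h9
      exact hd (Finset.disjoint_iff_inter_eq_empty.2 h9)
    omega
  omega

end Pool.Agent.H53.Sey
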