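import Pool.Agent.H53.Sey.KurB

/-!
# The graft `(K33, all vertices)` is `R10`

With classes `{a_0, a_1, a_2}`, `{b_0, b_1, b_2}` the elements are the vectors `a_i + b_j` and
`∑ a_i + ∑ b_j`; explicit correspondence with the ten vectors of length five with three ones.
-/

set_option autoImplicit false

namespace Pool.Agent.H53.Sey

open Pool.Agent.H63.Sey

universe u v w

variable {α : Type u} [DecidableEq α] {V : Type v} [DecidableEq V]

/-- an enumeration of the vertices and edges of `K33` -/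
lemma IsK33.exists_enum {G : Gr α V} {E : Finset α} (h : IsK33 G E) :
    ∃ (a b : Fin 3 → V) (k : Fin 3 → Fin 3 → α), Function.Injective a ∧ Function.Injective b ∧
      (∀ i j, a i ≠ b j) ∧ G.U = Finset.univ.image a ∪ Finset.univ.image b ∧
      (∀ i j, k i j ∈ E ∧ G.Jn (k i j) (a i) (b j)) ∧ (∀ c ∈ E, ∃ i j, c = k i j) := by
  obtain ⟨hon, hs, A, B, hAB, hd, hA, hB, hadj⟩ := h
  obtain ⟨x0, x1, x2, h01, h02, h12, hAe⟩ := Finset.card_eq_three.1 hA
  obtain ⟨y0, y1, y2, g01, g02, g12, hBe⟩ := Finset.card_eq_three.1 hB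
  set a : Fin 3 → V := ![x0, x1, x2] with ha
  set b : Fin 3 → V := ![y0, y1, y2] with hb
  have haA : A = Finset.univ.image a := by
    rw [hAe]
    ext z
    simp only [Finset.mem_insert, Finset.mem_singleton, Finset.mem_image, Finset.mem_univ,
      true_and, ha]
    constructor
    · rintro (h1 | h1 | h1)
      · exact ⟨0, h1.symm⟩
      · exact ⟨1, h1.symm⟩
      · exact ⟨2, h1.symm⟩
    · rintro ⟨i, hi⟩
      fin_cases i
      · exact Or.inl hi.symm
      · exact Or.inr (Or.inl hi.symm)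
      · exact Or.inr (Or.inr hi.symm)
  have hbB : B = Finset.univ.image b := by
    rw [hBe]
    ext z
    simp only [Finset.mem_insert, Finset.mem_singleton, Finset.mem_image, Finset.mem_univ,
      true_and, hb]
    constructor
    · rintro (h1 | h1 | h1)
      · exact ⟨0, h1.symm⟩
      · exact ⟨1, h1.symm⟩
      · exact ⟨2, h1.symm⟩
    · rintro ⟨i, hi⟩
      fin_cases i
      · exact Or.inl hi.symm
      · exact Or.inr (Or.inl hi.symm)
      · exact Or.inr (Or.inr hi.symm)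
  have hainj : Function.Injective a := by
    intro i j hij
    fin_cases i <;> fin_cases j <;> simp_all [ha, Matrix.cons_val_two, Matrix.vecHead,
      Matrix.vecTail]
  have hbinj : Function.Injective b := by
    intro i j hij
    fin_cases i <;> fin_cases j <;> simp_all [hb, Matrix.cons_val_two, Matrix.vecHead,
      Matrix.vecTail]
  have hmA : ∀ i, a i ∈ A := fun i => by rw [haA]; exact Finset.mem_image_of_mem _ (Finset.mem_univ _)
  have hmB : ∀ i, b i ∈ B := fun i => by rw [hbB]; exact Finset.mem_image_of_mem _ (Finset.mem_univ _)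
  have hmAU : ∀ i, a i ∈ G.U := fun i => by rw [← hAB]; exact Finset.mem_union_left _ (hmA i)
  have hmBU : ∀ i, b i ∈ G.U := fun i => by rw [← hAB]; exact Finset.mem_union_right _ (hmB i)
  have hex : ∀ i j, ∃ c ∈ E, G.Jn c (a i) (b j) := fun i j =>
    (hadj _ (hmAU i) _ (hmBU j)).2 (Or.inl ⟨hmA i, hmB j⟩)
  choose k hk using hex
  refine ⟨a, b, k, hainj, hbinj, ?_, ?_, hk, ?_⟩
  · intro i j hij
    exact (Finset.disjoint_left.1 hd (hmA i)) (hij ▸ hmB j)
  · rw [← hAB, haA, hbB]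
  · intro c hc
    obtain ⟨h1, h2, h3⟩ := hon c hc
    have h4 : G.Adj E (G.f c) (G.g c) := ⟨c, hc, Gr.jn_self c⟩
    rcases (hadj _ h1 _ h2).1 h4 with ⟨h5, h6⟩ | ⟨h5, h6⟩
    · rw [haA] at h5
      rw [hbB] at h6
      obtain ⟨i, -, hi⟩ := Finset.mem_image.1 h5
      obtain ⟨j, -, hj⟩ := Finset.mem_image.1 h6
      refine ⟨i, j, hs c hc _ (hk i j).1 (a i) (b j) (Or.inl ⟨hi.symm, hj.symm⟩) (hk i j).2⟩
    · rw [hbB] at h5
      rw [haA] at h6
      obtain ⟨j, -, hj⟩ := Finset.mem_image.1 h5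
      obtain ⟨i, -, hi⟩ := Finset.mem_image.1 h6
      refine ⟨i, j, hs c hc _ (hk i j).1 (a i) (b j) (Or.inr ⟨hj.symm, hi.symm⟩) (hk i j).2⟩

lemma zmod2_add_self (x : ZMod 2) : x + x = 0 := by
  revert x; decide

theorem isR10_of_k33 {M : BM α} {e : α} {G : Gr α V} {T : Finset V} (h : GRep M e G T)
    (hk : IsK33 G (M.E \ {e})) (hT : T = G.U) : IsR10 M := by
  obtain ⟨a, b, k, ha, hb, hab, hU, hkE, hsurj⟩ := hk.exists_enum
  have hke : ∀ i j, k i j ≠ e := by
    intro i j h1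
    have := (hkE i j).1
    simp [h1] at this
  have hinj : ∀ i j i' j', k i j = k i' j' → i = i' ∧ j = j' := by
    intro i j i' j' h1
    have h2 := (hkE i j).2
    rw [h1] at h2
    rcases h2.ends (hkE i' j').2 with ⟨h3, h4⟩ | ⟨h3, h4⟩
    · exact ⟨ha h3, hb h4⟩
    · exact absurd h3 (hab _ _)
  set ι : Fin 10 → α := ![k 0 0, k 0 1, k 0 2, k 1 2, k 1 1, k 1 0, k 2 2, k 2 1, k 2 0, e]
    with hι
  have hιinj : Function.Injective ι := by
    have key : ∀ i j i' j', (i, j) ≠ (i', j') → k i j ≠ k i' j' := by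
      intro i j i' j' h1 h2
      obtain ⟨h3, h4⟩ := hinj _ _ _ _ h2
      exact h1 (by rw [h3, h4])
    intro x y hxy
    by_contra hne
    fin_cases x <;> fin_cases y <;>
      first
      | exact hne rfl
      | exact hke _ _ hxy
      | exact hke _ _ hxy.symm
      | exact key _ _ _ _ (by decide) hxy
  have hE : M.E = Finset.univ.image ι := by
    ext c
    constructor
    · intro hc
      by_cases hce : c = e
      · rw [hce]
        exact Finset.mem_image.2 ⟨9, Finset.mem_univ _, rfl⟩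
      · obtain ⟨i, j, rfl⟩ := hsurj c (by simp [hc, hce])
        fin_cases i <;> fin_cases j
        · exact Finset.mem_image.2 ⟨0, Finset.mem_univ _, rfl⟩
        · exact Finset.mem_image.2 ⟨1, Finset.mem_univ _, rfl⟩
        · exact Finset.mem_image.2 ⟨2, Finset.mem_univ _, rfl⟩
        · exact Finset.mem_image.2 ⟨5, Finset.mem_univ _, rfl⟩
        · exact Finset.mem_image.2 ⟨4, Finset.mem_univ _, rfl⟩
        · exact Finset.mem_image.2 ⟨3, Finset.mem_univ _, rfl⟩
        · exact Finset.mem_image.2 ⟨8, Finset.mem_univ _, rfl⟩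
        · exact Finset.mem_image.2 ⟨7, Finset.mem_univ _, rfl⟩
        · exact Finset.mem_image.2 ⟨6, Finset.mem_univ _, rfl⟩
    · intro hc
      obtain ⟨i, -, rfl⟩ := Finset.mem_image.1 hc
      have hk' : ∀ i j, k i j ∈ M.E := fun i j => (Finset.mem_sdiff.1 (hkE i j).1).1
      fin_cases i
      · exact hk' _ _
      · exact hk' _ _
      · exact hk' _ _
      · exact hk' _ _
      · exact hk' _ _
      · exact hk' _ _
      · exact hk' _ _
      · exact hk' _ _
      · exact hk' _ _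
      · exact h.he
  have hval : ∀ (φ : V → ZMod 2) i j, G.vec M.E e T φ (k i j) = φ (a i) + φ (b j) := by
    intro φ i j
    have h1 : k i j ∈ M.E := (Finset.mem_sdiff.1 (hkE i j).1).1
    simp only [Gr.vec, if_neg (hke i j), if_pos h1]
    rcases (hkE i j).2 with ⟨h2, h3⟩ | ⟨h2, h3⟩
    · rw [h2, h3]
    · rw [h2, h3, add_comm]
  have hvale : ∀ (φ : V → ZMod 2), G.vec M.E e T φ e = ∑ i, φ (a i) + ∑ j, φ (b j) := by
    intro φ
    simp only [Gr.vec, if_true]
    rw [hT, hU, Finset.sum_union, Finset.sum_image fun x _ y _ h => ha h,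
      Finset.sum_image fun x _ y _ h => hb h]
    rw [Finset.disjoint_left]
    intro z h1 h2
    obtain ⟨i, -, rfl⟩ := Finset.mem_image.1 h1
    obtain ⟨j, -, hj⟩ := Finset.mem_image.1 h2
    exact hab i j hj.symm
  refine ⟨ι, hιinj, ?_⟩
  refine LM.D_ext _ (by rw [hE]; rfl) fun x => ?_
  rw [h.mem, mem_conc hιinj]
  constructor
  · rintro ⟨φ, rfl⟩
    refine ⟨?_, ?_⟩
    · intro c hc
      rw [← hE] at hc
      have hce : c ≠ e := fun h1 => hc (h1 ▸ h.he)
      simp [Gr.vec, hce, hc]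
    · -- the functional
      set t := φ (a 0) + φ (a 1) + φ (a 2) with ht
      refine ⟨![φ (b 0) + φ (b 1) + φ (b 2) + φ (a 1), φ (b 0) + φ (b 1) + φ (b 2) + φ (a 2),
        φ (b 0) + t, φ (b 1) + t, φ (b 2) + t], ?_⟩
      intro i
      have key : ∀ x0 x1 x2 y0 y1 y2 : ZMod 2, ∀ i : Fin 10,
          (![x0 + y0, x0 + y1, x0 + y2, x1 + y2, x1 + y1, x1 + y0, x2 + y2, x2 + y1, x2 + y0,
            x0 + x1 + x2 + (y0 + y1 + y2)] : Fin 10 → ZMod 2) i =
          ∑ j, (![y0 + y1 + y2 + x1, y0 + y1 + y2 + x2, y0 + (x0 + x1 + x2),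
            y1 + (x0 + x1 + x2), y2 + (x0 + x1 + x2)] : Fin 5 → ZMod 2) j * r10 i j := by
        decide
      have h1 := key (φ (a 0)) (φ (a 1)) (φ (a 2)) (φ (b 0)) (φ (b 1)) (φ (b 2)) i
      rw [← ht] at h1
      rw [← h1]
      fin_cases i
      · exact hval φ 0 0
      · exact hval φ 0 1
      · exact hval φ 0 2
      · exact hval φ 1 2
      · exact hval φ 1 1
      · exact hval φ 1 0
      · exact hval φ 2 2
      · exact hval φ 2 1
      · exact hval φ 2 0
      · show G.vec M.E e T φ e = _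
        rw [hvale, Fin.sum_univ_three, Fin.sum_univ_three]
        simp [ht]
  · rintro ⟨h1, ψ, hψ⟩
    -- the labelling
    have hlab : ∃ φ : V → ZMod 2, φ (a 0) = 0 ∧ φ (a 1) = ψ 1 + ψ 2 + ψ 3 + ψ 4 ∧
        φ (a 2) = ψ 0 + ψ 2 + ψ 3 + ψ 4 ∧ φ (b 0) = ψ 0 + ψ 1 + ψ 2 ∧
        φ (b 1) = ψ 0 + ψ 1 + ψ 3 ∧ φ (b 2) = ψ 0 + ψ 1 + ψ 4 := by
      refine ⟨fun z => if z = a 1 then ψ 1 + ψ 2 + ψ 3 + ψ 4 else
        if z = a 2 then ψ 0 + ψ 2 + ψ 3 + ψ 4 else if z = b 0 then ψ 0 + ψ 1 + ψ 2 else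
        if z = b 1 then ψ 0 + ψ 1 + ψ 3 else if z = b 2 then ψ 0 + ψ 1 + ψ 4 else 0,
        ?_, ?_, ?_, ?_, ?_, ?_⟩
      · simp [ha.eq_iff, hab]
      · simp
      · simp [ha.eq_iff]
      · simp [fun i j => (hab i j).symm]
      · simp [fun i j => (hab i j).symm, hb.eq_iff]
      · simp [fun i j => (hab i j).symm, hb.eq_iff]
    obtain ⟨φ, p0, p1, p2, q0, q1, q2⟩ := hlab
    refine ⟨φ, ?_⟩
    funext c
    by_cases hc : c ∈ M.E
    · rw [hE] at hc
      obtain ⟨i, -, rfl⟩ := Finset.mem_image.1 hc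
      rw [hψ i]
      have key : ∀ (s0 s1 s2 s3 s4 : ZMod 2) (i : Fin 10),
          ∑ j, (![s0, s1, s2, s3, s4] : Fin 5 → ZMod 2) j * r10 i j =
          (![0 + (s0 + s1 + s2), 0 + (s0 + s1 + s3), 0 + (s0 + s1 + s4),
            s1 + s2 + s3 + s4 + (s0 + s1 + s4), s1 + s2 + s3 + s4 + (s0 + s1 + s3),
            s1 + s2 + s3 + s4 + (s0 + s1 + s2), s0 + s2 + s3 + s4 + (s0 + s1 + s4),
            s0 + s2 + s3 + s4 + (s0 + s1 + s3), s0 + s2 + s3 + s4 + (s0 + s1 + s2),
            0 + (s1 + s2 + s3 + s4) + (s0 + s2 + s3 + s4) +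
              ((s0 + s1 + s2) + (s0 + s1 + s3) + (s0 + s1 + s4))] : Fin 10 → ZMod 2) i := by
        decide
      have h2 := key (ψ 0) (ψ 1) (ψ 2) (ψ 3) (ψ 4) i
      have h3 : (![ψ 0, ψ 1, ψ 2, ψ 3, ψ 4] : Fin 5 → ZMod 2) = ψ := by
        funext j
        fin_cases j <;> rfl
      rw [h3] at h2
      rw [h2]
      fin_cases i
      · exact ((hval φ 0 0).trans (by rw [p0, q0]; rfl)).symm
      · exact ((hval φ 0 1).trans (by rw [p0, q1]; rfl)).symm
      · exact ((hval φ 0 2).trans (by rw [p0, q2]; rfl)).symm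
      · exact ((hval φ 1 2).trans (by rw [p1, q2]; rfl)).symm
      · exact ((hval φ 1 1).trans (by rw [p1, q1]; rfl)).symm
      · exact ((hval φ 1 0).trans (by rw [p1, q0]; rfl)).symm
      · exact ((hval φ 2 2).trans (by rw [p2, q2]; rfl)).symm
      · exact ((hval φ 2 1).trans (by rw [p2, q1]; rfl)).symm
      · exact ((hval φ 2 0).trans (by rw [p2, q0]; rfl)).symm
      · refine ((hvale φ).trans ?_).symm
        rw [Fin.sum_univ_three, Fin.sum_univ_three, p0, p1, p2, q0, q1, q2]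
        rfl
    · have hce : c ≠ e := fun h2 => hc (h2 ▸ h.he)
      rw [h1 c (by rw [← hE]; exact hc)]
      simp [Gr.vec, hce, hc]

end Pool.Agent.H53.Sey
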