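import Pool.Agent.H53.Sey.Star

/-!
# Graph toolkit E1: regular grafts (job SEYG-E1)

`reg_sign`. Let `M3` be a ternary matroid with the rank function of `M` and `E' = M.E \ {e}`.
(0) `dim M.D = |U| - 1`: the labellings `φ : V → ZMod 2` with `G.vec φ = 0` are those constant on
`U` (`VC` implies that `G` is connected, `VC.cn_sdiff` with `Z = ∅`).
(1) For `x ∈ U` let `C_x = star x ∪ (if x ∈ T then {e})`, `H = M.E \ C_x`. The members of `M.D`
vanishing on `H` are `0` and `ind C_x` (a labelling constant along all edges not at `x` is constant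
on `U \ {x}`, `VC.cn_sdiff`), so `rk H = rk E - 1` in `M` and in `M3`; let `s_x ≠ 0` span
`{y ∈ M3.D : y = 0 on H}`. For `c ∈ C_x` the rank of `H ∪ {c}` is `rk E` (in `M`, hence in `M3`), so
`s_x c ≠ 0`. So `s_x` has support exactly `C_x`.
(2) The `|U|` vectors `s_x` lie in the space `M3.D` of dimension `|U| - 1`, so `∑ c_x s_x = 0` with
some `c_x ≠ 0`. At an edge joining `x` and `y` only `s_x` and `s_y` are nonzero, so `c_x ≠ 0` iff
`c_y ≠ 0`; `G` is connected, so all `c_x ≠ 0`. Put `σ_x = c_x s_x`; `∑ σ_x = 0`,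
`σ_x(a) + σ_y(a) = 0` for an edge `a` joining `x, y`. `z x := σ_x(e)`.
(3) Given `S0, S1` let `S1'` be the component of `U \ S0` containing `S1` and `S = U \ S1'`. Then `S`
(`S0` together with the other components of `U \ S0`, each of which is adjacent to `S0`) and `U \ S
= S1'` are connected and `T ∩ S = T ∩ S0`. Let `H` be the set of the edges in `E'` not in the cut
of `S`. The members of `M.D` vanishing on `H` are `0` and `G.vec 1_S` (dimension 1); the same
dimension for `M3`, where `σ_S = ∑_{x ∈ S} σ_x ≠ 0` spans. The dimension of the members vanishing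
on `H ∪ {e}` is 1 iff `|T ∩ S|` is even (`M`), iff `σ_S(e) = ∑_{x ∈ S} z x = 0` (`M3`).
-/

set_option autoImplicit false

namespace Pool.Agent.H53.Sey

open Pool.Agent.H63.Sey

universe u v w

variable {α : Type u} [DecidableEq α] {V : Type v} [DecidableEq V]

/-- the members of the row space vanishing on `H` -/
def zer_ra {K : Type} [Field K] (M : LM K α) (H : Finset α) : Submodule K (α → K) :=
  M.D ⊓ LinearMap.ker (res K H)

lemma mem_zer_ra {K : Type} [Field K] {M : LM K α} {H : Finset α} {x : α → K} :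
    x ∈ zer_ra M H ↔ x ∈ M.D ∧ ∀ a ∈ H, x a = 0 := by
  rw [zer_ra, Submodule.mem_inf, LinearMap.mem_ker]
  refine and_congr_right fun _ => ⟨fun h a ha => ?_, fun h => ?_⟩
  · have := congrFun h a
    simpa [ha] using this
  · funext a
    by_cases ha : a ∈ H
    · simp [ha, h a ha]
    · simp [ha]

instance finDim_zer_ra {K : Type} [Field K] (M : LM K α) (H : Finset α) :
    FiniteDimensional K (zer_ra M H) := Submodule.finiteDimensional_inf_left _ _

lemma finrank_zer_ra {M : BM α} {M3 : LM (ZMod 3) α} (hE : M3.E = M.E)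
    (hrk : ∀ X ⊆ M.E, M3.rk X = M.rk X) {H : Finset α} (hH : H ⊆ M.E) :
    Module.finrank (ZMod 3) (zer_ra M3 H) = Module.finrank (ZMod 2) (zer_ra M H) := by
  have h1 := M3.rk_add_finrank H
  have h2 := M.rk_add_finrank H
  have h3 := hrk H hH
  have h4 := hrk M.E (Finset.Subset.refl _)
  have h5 := M3.rk_E
  have h6 := M.rk_E
  rw [hE] at h5
  unfold zer_ra
  omega

/-- transfer of a one-dimensional space of vectors to a ternary representation -/
lemma tern_vec_ra {M : BM α} {M3 : LM (ZMod 3) α} (hE : M3.E = M.E)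
    (hrk : ∀ X ⊆ M.E, M3.rk X = M.rk X) {H : Finset α} (hH : H ⊆ M.E) {v : α → ZMod 2}
    (hv : v ∈ M.D) (hvH : ∀ a ∈ H, v a = 0) (hv0 : v ≠ 0)
    (huniq : ∀ x ∈ M.D, (∀ a ∈ H, x a = 0) → x = 0 ∨ x = v) :
    ∃ s ∈ M3.D, (∀ a ∈ H, s a = 0) ∧ (∀ a, s a ≠ 0 ↔ v a ≠ 0) ∧
      ∀ y ∈ M3.D, (∀ a ∈ H, y a = 0) → ∃ c : ZMod 3, y = c • s := by
  have h1 : Module.finrank (ZMod 2) (zer_ra M H) = 1 := by
    rw [finrank_eq_one_iff']
    refine ⟨⟨v, mem_zer_ra.2 ⟨hv, hvH⟩⟩, fun h => hv0 (congrArg Subtype.val h), fun w => ?_⟩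
    obtain ⟨hw1, hw2⟩ := mem_zer_ra.1 w.2
    rcases huniq w.1 hw1 hw2 with h | h
    · exact ⟨0, by rw [zero_smul]; exact (Subtype.ext h).symm⟩
    · exact ⟨1, by rw [one_smul]; exact (Subtype.ext h).symm⟩
  have h3 : Module.finrank (ZMod 3) (zer_ra M3 H) = 1 := by rw [finrank_zer_ra hE hrk hH, h1]
  obtain ⟨⟨s, hs⟩, hs0, hsp⟩ := finrank_eq_one_iff'.1 h3
  have hs0' : s ≠ 0 := fun h => hs0 (Subtype.ext h)
  obtain ⟨hs1, hs2⟩ := mem_zer_ra.1 hs
  have hmul : ∀ y ∈ M3.D, (∀ a ∈ H, y a = 0) → ∃ c : ZMod 3, y = c • s := by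
    intro y hy hyH
    obtain ⟨c, hc⟩ := hsp ⟨y, mem_zer_ra.2 ⟨hy, hyH⟩⟩
    exact ⟨c, (congrArg Subtype.val hc).symm⟩
  refine ⟨s, hs1, hs2, fun a => ?_, hmul⟩
  by_cases ha : a ∈ M.E
  · have hH' : insert a H ⊆ M.E := Finset.insert_subset ha hH
    have hfr := finrank_zer_ra hE hrk hH'
    by_cases hva : v a = 0
    · -- the dimension does not drop
      have e1 : zer_ra M (insert a H) = zer_ra M H := by
        ext x
        rw [mem_zer_ra, mem_zer_ra]
        refine and_congr_right fun hx => ⟨fun h b hb => h b (Finset.mem_insert_of_mem hb),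
          fun h b hb => ?_⟩
        rcases Finset.mem_insert.1 hb with rfl | hb
        · rcases huniq x hx h with rfl | rfl
          · rfl
          · exact hva
        · exact h b hb
      rw [e1, h1] at hfr
      obtain ⟨⟨t, ht⟩, ht0, _⟩ := finrank_eq_one_iff'.1 hfr
      have ht0' : t ≠ 0 := fun h => ht0 (Subtype.ext h)
      obtain ⟨ht1, ht2⟩ := mem_zer_ra.1 ht
      obtain ⟨c, rfl⟩ := hmul t ht1 fun b hb => ht2 b (Finset.mem_insert_of_mem hb)
      have hc : c ≠ 0 := by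
        rintro rfl
        exact ht0' (zero_smul _ _)
      have := ht2 a (Finset.mem_insert_self _ _)
      rw [Pi.smul_apply, smul_eq_mul] at this
      have hsa : s a = 0 := (mul_eq_zero.1 this).resolve_left hc
      simp [hsa, hva]
    · have e1 : zer_ra M (insert a H) = ⊥ := by
        rw [eq_bot_iff]
        intro x hx
        rw [mem_zer_ra] at hx
        rcases huniq x hx.1 fun b hb => hx.2 b (Finset.mem_insert_of_mem hb) with rfl | rfl
        · exact Submodule.zero_mem _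
        · exact absurd (hx.2 a (Finset.mem_insert_self _ _)) hva
      rw [e1, finrank_bot, Submodule.finrank_eq_zero] at hfr
      refine ⟨fun _ => hva, fun _ hsa => hs0' ?_⟩
      have : s ∈ zer_ra M3 (insert a H) := by
        rw [mem_zer_ra]
        refine ⟨hs1, fun b hb => ?_⟩
        rcases Finset.mem_insert.1 hb with rfl | hb
        · exact hsa
        · exact hs2 b hb
      rw [hfr] at this
      exact (Submodule.mem_bot _).1 this
  · have e1 : s a = 0 := M3.supp s hs1 a (by rw [hE]; exact ha)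
    have e2 : v a = 0 := M.supp v hv a ha
    simp [e1, e2]

/-- a labelling of a connected set that is constant along the edges is constant -/
lemma Gr.Cn.const_ra {G : Gr α V} {E : Finset α} {S : Finset V} (h : G.Cn E S) {φ : V → ZMod 2}
    (hφ : ∀ a ∈ E, G.f a ∈ S → G.g a ∈ S → φ (G.f a) = φ (G.g a)) :
    ∀ x ∈ S, ∀ y ∈ S, φ x = φ y := by
  intro x hx y hy
  by_contra hne
  obtain ⟨p, hp, q, hq, a, ha, hj⟩ := h.2 (S.filter fun z => φ z = φ x) (Finset.filter_subset _ _)
    ⟨x, Finset.mem_filter.2 ⟨hx, rfl⟩⟩ (by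
      intro h0
      have : y ∈ S.filter fun z => φ z = φ x := by rw [h0]; exact hy
      exact hne (Finset.mem_filter.1 this).2.symm)
  rw [Finset.mem_filter] at hp
  rw [Finset.mem_sdiff, Finset.mem_filter, not_and] at hq
  have hq2 := hq.2 hq.1
  rcases hj with ⟨rfl, rfl⟩ | ⟨rfl, rfl⟩
  · exact hq2 ((hφ a ha hp.1 hq.1).symm.trans hp.2)
  · exact hq2 ((hφ a ha hq.1 hp.1).trans hp.2)

section GRep

variable {M : BM α} {e : α} {G : Gr α V} {T : Finset V}

lemma GRep.vec_congr_ra (h : GRep M e G T) {φ ψ : V → ZMod 2} (hφ : ∀ x ∈ G.U, φ x = ψ x) :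
    G.vec M.E e T φ = G.vec M.E e T ψ := by
  funext a
  unfold Gr.vec
  by_cases hae : a = e
  · rw [if_pos hae, if_pos hae]
    exact Finset.sum_congr rfl fun t ht => hφ t (h.TU ht)
  · rw [if_neg hae, if_neg hae]
    by_cases ha : a ∈ M.E
    · rw [if_pos ha, if_pos ha]
      obtain ⟨h1, h2, _⟩ := h.on a (Finset.mem_sdiff.2 ⟨ha, by simpa using hae⟩)
      rw [hφ _ h1, hφ _ h2]
    · rw [if_neg ha, if_neg ha]

lemma GRep.vec_add_const_ra (h : GRep M e G T) (φ : V → ZMod 2) (c : ZMod 2) :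
    G.vec M.E e T (fun x => φ x + c) = G.vec M.E e T φ := by
  funext a
  unfold Gr.vec
  by_cases hae : a = e
  · rw [if_pos hae, if_pos hae, Finset.sum_add_distrib, Finset.sum_const, nsmul_eq_mul,
      (ZMod.natCast_eq_zero_iff_even).2 h.even, zero_mul, add_zero]
  · rw [if_neg hae, if_neg hae]
    by_cases ha : a ∈ M.E
    · rw [if_pos ha, if_pos ha]
      have : c + c = 0 := CharTwo.add_self_eq_zero c
      linear_combination this
    · rw [if_neg ha, if_neg ha]

lemma Gr.vec_zero_ra (G : Gr α V) (E : Finset α) (e : α) (T : Finset V) :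
    G.vec E e T (fun _ => 0) = 0 := by
  funext a
  simp [Gr.vec]

/-- the vectors vanishing at all edges not in the cut of `S` -/
lemma GRep.cut_uniq_ra (h : GRep M e G T) {S : Finset V} (hS1 : G.Cn (M.E \ {e}) S)
    (hS2 : G.Cn (M.E \ {e}) (G.U \ S)) (x : α → ZMod 2) (hx : x ∈ M.D)
    (hz : ∀ a ∈ (M.E \ {e}).filter fun a => (G.f a ∈ S ↔ G.g a ∈ S), x a = 0) :
    x = 0 ∨ x = G.vec M.E e T (ind S) := by
  obtain ⟨φ, rfl⟩ := (h.mem x).1 hx
  have key : ∀ a ∈ M.E \ {e}, (G.f a ∈ S ↔ G.g a ∈ S) → φ (G.f a) = φ (G.g a) := by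
    intro a ha hiff
    have h0 := hz a (Finset.mem_filter.2 ⟨ha, hiff⟩)
    rw [Finset.mem_sdiff, Finset.mem_singleton] at ha
    simp only [Gr.vec, if_neg ha.2, if_pos ha.1] at h0
    exact CharTwo.add_eq_zero.1 h0
  obtain ⟨x0, hx0⟩ := hS1.1
  obtain ⟨y0, hy0⟩ := hS2.1
  have c1 := hS1.const_ra (φ := φ) fun a ha h1 h2 => key a ha (iff_of_true h1 h2)
  have c2 := hS2.const_ra (φ := φ) fun a ha h1 h2 => key a ha
    (iff_of_false (Finset.mem_sdiff.1 h1).2 (Finset.mem_sdiff.1 h2).2)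
  rw [← h.vec_add_const_ra φ (φ y0)]
  have hout : ∀ y ∈ G.U, y ∉ S → φ y + φ y0 = 0 := by
    intro y hy hyS
    rw [c2 y (Finset.mem_sdiff.2 ⟨hy, hyS⟩) y0 hy0]
    exact CharTwo.add_self_eq_zero _
  rcases zmod2_cases (φ x0 + φ y0) with h0 | h1
  · left
    rw [← G.vec_zero_ra M.E e T]
    refine h.vec_congr_ra fun y hy => ?_
    by_cases hyS : y ∈ S
    · rw [c1 y hyS x0 hx0]; exact h0
    · exact hout y hy hyS
  · right
    refine h.vec_congr_ra fun y hy => ?_
    by_cases hyS : y ∈ S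
    · rw [c1 y hyS x0 hx0, h1]; simp [hyS]
    · rw [hout y hy hyS]; simp [hyS]

lemma GRep.vec_ind_edge_ra (h : GRep M e G T) {S : Finset V} {a : α} (ha : a ∈ M.E \ {e}) :
    G.vec M.E e T (ind S) a ≠ 0 ↔ ¬ (G.f a ∈ S ↔ G.g a ∈ S) := by
  rw [Finset.mem_sdiff, Finset.mem_singleton] at ha
  simp only [Gr.vec, if_neg ha.2, if_pos ha.1, ind_apply]
  by_cases h1 : G.f a ∈ S <;> by_cases h2 : G.g a ∈ S <;> simp [h1, h2]
  decide

lemma Gr.vec_ind_e_ra (G : Gr α V) (E : Finset α) (e : α) (T S : Finset V) :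
    G.vec E e T (ind S) e = ((T ∩ S).card : ZMod 2) := by
  simp only [Gr.vec, if_true, ind_apply]
  rw [Finset.sum_ite_mem, Finset.sum_const, nsmul_eq_mul, mul_one]

/-- `dim M.D < |U|` -/
lemma GRep.finrank_lt_ra (h : GRep M e G T) (hU : G.U.Nonempty) :
    Module.finrank (ZMod 2) M.D < G.U.card := by
  let L : (G.U → ZMod 2) →ₗ[ZMod 2] (α → ZMod 2) :=
    { toFun := fun ψ => G.vec M.E e T fun x => if hx : x ∈ G.U then ψ ⟨x, hx⟩ else 0
      map_add' := by
        intro ψ χ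
        funext a
        simp only [Gr.vec, Pi.add_apply]
        have hadd : ∀ x, (if hx : x ∈ G.U then ψ ⟨x, hx⟩ + χ ⟨x, hx⟩ else 0) =
            (if hx : x ∈ G.U then ψ ⟨x, hx⟩ else 0) + (if hx : x ∈ G.U then χ ⟨x, hx⟩ else 0) := by
          intro x
          by_cases hx : x ∈ G.U <;> simp [hx]
        simp only [hadd]
        by_cases hae : a = e
        · simp only [hae, if_true, Finset.sum_add_distrib]
        · by_cases ha : a ∈ M.E
          · simp only [hae, ha, if_true, if_false]; ring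
          · simp [hae, ha]
      map_smul' := by
        intro c ψ
        funext a
        simp only [Gr.vec, Pi.smul_apply, smul_eq_mul, RingHom.id_apply]
        have hmul : ∀ x, (if hx : x ∈ G.U then c * ψ ⟨x, hx⟩ else 0) =
            c * (if hx : x ∈ G.U then ψ ⟨x, hx⟩ else 0) := by
          intro x
          by_cases hx : x ∈ G.U <;> simp [hx]
        simp only [hmul]
        by_cases hae : a = e
        · simp only [hae, if_true, Finset.mul_sum]
        · by_cases ha : a ∈ M.E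
          · simp only [hae, ha, if_true, if_false]; ring
          · simp [hae, ha] }
  have hL : ∀ ψ, L ψ = G.vec M.E e T fun x => if hx : x ∈ G.U then ψ ⟨x, hx⟩ else 0 := fun _ => rfl
  have hr : LinearMap.range L = M.D := by
    ext x
    rw [LinearMap.mem_range, h.mem]
    constructor
    · rintro ⟨ψ, rfl⟩
      exact ⟨_, hL ψ⟩
    · rintro ⟨φ, rfl⟩
      refine ⟨fun x => φ x.1, ?_⟩
      rw [hL]
      refine h.vec_congr_ra fun x hx => ?_
      simp [hx]
  have hk : LinearMap.ker L ≠ ⊥ := by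
    intro hbot
    have h1 : (fun _ : G.U => (1 : ZMod 2)) ∈ LinearMap.ker L := by
      rw [LinearMap.mem_ker, hL, ← G.vec_zero_ra M.E e T, ← h.vec_add_const_ra (fun _ => 0) 1]
      refine h.vec_congr_ra fun x hx => ?_
      simp [hx]
    rw [hbot, Submodule.mem_bot] at h1
    obtain ⟨x, hx⟩ := hU
    have := congrFun h1 ⟨x, hx⟩
    simp at this
  have h2 := LinearMap.finrank_range_add_finrank_ker L
  rw [hr, Module.finrank_fintype_fun_eq_card, Fintype.card_coe] at h2
  have h3 : Module.finrank (ZMod 2) (LinearMap.ker L) ≠ 0 := by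
    intro h0
    exact hk (Submodule.finrank_eq_zero.1 h0)
  omega

end GRep

/-- the set `S0` together with the components of `U \ S0` not containing `S1` -/
lemma exists_ext_ra {G : Gr α V} {E : Finset α} (hU : G.Cn E G.U) {S0 S1 : Finset V}
    (h1U : S1 ⊆ G.U) (hd : Disjoint S0 S1) (hc0 : G.Cn E S0) (h0U : S0 ⊆ G.U)
    (hc1 : G.Cn E S1) : ∃ S : Finset V, S0 ⊆ S ∧ S ⊆ G.U ∧ Disjoint S S1 ∧ G.Cn E S ∧
      G.Cn E (G.U \ S) := by
  obtain ⟨p, hp⟩ := hc1.1
  obtain ⟨S', hS'X, hpS', hS'c, hS'⟩ := Gr.exists_component (G := G) (E := E) (G.U \ S0)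
    (x := p) (Finset.mem_sdiff.2 ⟨h1U hp, fun h => Finset.disjoint_left.1 hd h hp⟩)
  have hS1X : S1 ⊆ G.U \ S0 := fun y hy =>
    Finset.mem_sdiff.2 ⟨h1U hy, fun h => Finset.disjoint_left.1 hd h hy⟩
  have hS1 : S1 ⊆ S' := by
    by_contra hn
    obtain ⟨x, hx, y, hy, hxy⟩ := hc1.2 (S1 ∩ S') Finset.inter_subset_left
      ⟨p, Finset.mem_inter.2 ⟨hp, hpS'⟩⟩ (fun h => hn (Finset.inter_eq_left.1 h))
    rw [Finset.mem_inter] at hx
    rw [Finset.mem_sdiff, Finset.mem_inter, not_and] at hy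
    exact hS' x hx.2 y (Finset.mem_sdiff.2 ⟨hS1X hy.1, hy.2 hy.1⟩) hxy
  have hS'U : S' ⊆ G.U := hS'X.trans Finset.sdiff_subset
  refine ⟨G.U \ S', ?_, Finset.sdiff_subset, ?_, ?_, ?_⟩
  · intro x hx
    exact Finset.mem_sdiff.2 ⟨h0U hx, fun h => (Finset.mem_sdiff.1 (hS'X h)).2 hx⟩
  · rw [Finset.disjoint_left]
    intro x hx hx1
    exact (Finset.mem_sdiff.1 hx).2 (hS1 hx1)
  · have h0S : S0 ⊆ G.U \ S' := fun x hx =>
      Finset.mem_sdiff.2 ⟨h0U hx, fun h => (Finset.mem_sdiff.1 (hS'X h)).2 hx⟩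
    refine ⟨hc0.1.mono h0S, fun R hR hRne hRS => ?_⟩
    by_contra hcon
    push Not at hcon
    -- no edges between `R` and the rest of `U \ S'`
    have main : ∀ Q : Finset V, Q ⊆ G.U \ S' → Q.Nonempty → Disjoint Q S0 →
        (∀ x ∈ Q, ∀ y ∈ (G.U \ S') \ Q, ¬ G.Adj E x y) → False := by
      intro Q hQ hQne hQ0 hQadj
      obtain ⟨x, hx, y, hy, hxy⟩ := hU.2 Q (hQ.trans Finset.sdiff_subset) hQne (by
        intro h
        obtain ⟨q, hq⟩ := hc0.1
        exact Finset.disjoint_left.1 hQ0 (by rw [h]; exact h0U hq) hq)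
      rw [Finset.mem_sdiff] at hy
      by_cases hyS : y ∈ S'
      · refine hS' y hyS x ?_ hxy.symm
        have := Finset.mem_sdiff.1 (hQ hx)
        exact Finset.mem_sdiff.2 ⟨Finset.mem_sdiff.2 ⟨this.1,
          fun h => Finset.disjoint_left.1 hQ0 hx h⟩, this.2⟩
      · exact hQadj x hx y (Finset.mem_sdiff.2 ⟨Finset.mem_sdiff.2 ⟨hy.1, hyS⟩, hy.2⟩) hxy
    by_cases h0R : (S0 ∩ R).Nonempty
    · -- `S0 ⊆ R`
      have hsub : S0 ⊆ R := by
        by_contra hn
        obtain ⟨x, hx, y, hy, hxy⟩ := hc0.2 (S0 ∩ R) Finset.inter_subset_left h0R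
          (fun h => hn (Finset.inter_eq_left.1 h))
        rw [Finset.mem_inter] at hx
        rw [Finset.mem_sdiff, Finset.mem_inter, not_and] at hy
        exact hcon x hx.2 y (Finset.mem_sdiff.2 ⟨h0S hy.1, hy.2 hy.1⟩) hxy
      refine main ((G.U \ S') \ R) Finset.sdiff_subset ?_ ?_ ?_
      · rw [Finset.sdiff_nonempty]
        exact fun h => hRS (Finset.Subset.antisymm hR h)
      · rw [Finset.disjoint_left]
        intro x hx hx0
        exact (Finset.mem_sdiff.1 hx).2 (hsub hx0)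
      · intro x hx y hy hxy
        rw [Finset.sdiff_sdiff_eq_self hR] at hy
        exact hcon y hy x hx hxy.symm
    · refine main R hR hRne ?_ hcon
      rw [Finset.not_nonempty_iff_eq_empty] at h0R
      rw [Finset.disjoint_iff_inter_eq_empty, Finset.inter_comm]
      exact h0R
  · rw [Finset.sdiff_sdiff_eq_self hS'U]
    exact hS'c

/-- the sign vector of a regular graft -/
theorem reg_sign {M : BM α} (hreg : Regular M) {e : α} {G : Gr α V} {T : Finset V}
    (h : GRep M e G T) (hvc : G.VC (M.E \ {e}) ∅)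
    (hne : ∀ x ∈ G.U, (G.star (M.E \ {e}) x).Nonempty) :
    ∃ z : V → ZMod 3, (∀ x ∈ T, z x ≠ 0) ∧ ∑ x ∈ T, z x = 0 ∧
      ∀ S0 S1 : Finset V, S0 ⊆ G.U → S1 ⊆ G.U → Disjoint S0 S1 → G.Cn (M.E \ {e}) S0 →
        G.Cn (M.E \ {e}) S1 → T ⊆ S0 ∪ S1 → (∑ x ∈ T ∩ S0, z x = 0 ↔ Even (T ∩ S0).card) := by
  classical
  by_cases hU : G.U.Nonempty
  swap
  · rw [Finset.not_nonempty_iff_eq_empty] at hU
    have hT : T = ∅ := Finset.subset_empty.1 (by rw [← hU]; exact h.TU)
    subst hT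
    exact ⟨fun _ => 0, by simp, by simp, by simp⟩
  obtain ⟨M3, hE, hrk⟩ := hreg
  set E' := M.E \ {e} with hE'
  -- connectivity
  have hUc : G.Cn E' G.U := by
    have := hvc.cn_sdiff h.on (Z := ∅) (by simp) (by simp) (by simpa using hU)
    simpa using this
  have hUx : ∀ x ∈ G.U, G.Cn E' (G.U \ {x}) := by
    intro x hx
    refine hvc.cn_sdiff h.on (Z := {x}) (by simpa using hx) (by simp) ?_
    obtain ⟨a, ha⟩ := hne x hx
    rw [Gr.mem_star] at ha
    obtain ⟨h1, h2, h3⟩ := h.on a ha.1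
    rcases ha.2 with hf | hg
    · exact ⟨G.g a, Finset.mem_sdiff.2 ⟨h2, by
        rw [Finset.mem_singleton]; rw [hf] at h3; exact fun h => h3 h.symm⟩⟩
    · exact ⟨G.f a, Finset.mem_sdiff.2 ⟨h1, by
        rw [Finset.mem_singleton]; rw [hg] at h3; exact h3⟩⟩
  -- an edge leaving `S`
  have hleave : ∀ S ⊆ G.U, S.Nonempty → (G.U \ S).Nonempty →
      ∃ x ∈ S, ∃ y ∈ G.U \ S, G.Adj E' x y := by
    intro S hS h1 h2
    refine hUc.2 S hS h1 ?_
    rintro rfl
    simp at h2
  have hvne : ∀ S ⊆ G.U, S.Nonempty → (G.U \ S).Nonempty → G.vec M.E e T (ind S) ≠ 0 := by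
    intro S hS h1 h2 h0
    obtain ⟨x, hx, y, hy, a, ha, hj⟩ := hleave S hS h1 h2
    have := (h.vec_ind_edge_ra (S := S) ha).2 (by
      rw [Finset.mem_sdiff] at hy
      rcases hj with ⟨rfl, rfl⟩ | ⟨rfl, rfl⟩
      · simp [hx, hy.2]
      · simp [hx, hy.2])
    exact this (congrFun h0 a)
  -- the ternary vectors of the cuts
  have htern : ∀ S ⊆ G.U, G.Cn E' S → G.Cn E' (G.U \ S) →
      ∃ s ∈ M3.D, (∀ a ∈ E'.filter fun a => (G.f a ∈ S ↔ G.g a ∈ S), s a = 0) ∧
        (∀ a, s a ≠ 0 ↔ G.vec M.E e T (ind S) a ≠ 0) ∧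
        ∀ y ∈ M3.D, (∀ a ∈ E'.filter fun a => (G.f a ∈ S ↔ G.g a ∈ S), y a = 0) →
          ∃ c : ZMod 3, y = c • s := by
    intro S hS h1 h2
    refine tern_vec_ra hE hrk ((Finset.filter_subset _ _).trans Finset.sdiff_subset)
      ((h.mem _).2 ⟨_, rfl⟩) ?_ (hvne S hS h1.1 h2.1) (h.cut_uniq_ra h1 h2)
    intro a ha
    rw [Finset.mem_filter] at ha
    by_contra h0
    exact (h.vec_ind_edge_ra ha.1).1 h0 ha.2
  have hstar : ∀ x ∈ G.U, ∃ s ∈ M3.D, ∀ a, s a ≠ 0 ↔ G.vec M.E e T (ind {x}) a ≠ 0 := by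
    intro x hx
    obtain ⟨s, h1, _, h2, _⟩ := htern {x} (by simpa using hx) (Gr.Cn.single _ _) (hUx x hx)
    exact ⟨s, h1, h2⟩
  choose! s hsD hss using hstar
  -- values of `s x`
  have hsE : ∀ x ∈ G.U, ∀ a ∈ E', s x a ≠ 0 ↔ (G.f a = x ∨ G.g a = x) := by
    intro x hx a ha
    rw [hss x hx a, h.vec_ind_edge_ra ha, Finset.mem_singleton, Finset.mem_singleton]
    have := (h.on a ha).2.2
    constructor
    · intro h0
      by_contra h1
      rw [not_or] at h1
      exact h0 (iff_of_false h1.1 h1.2)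
    · rintro (h1 | h1) h0
      · exact this (h1.trans (h0.1 h1).symm)
      · exact this ((h0.2 h1).trans h1.symm)
  have hse : ∀ x ∈ G.U, s x e ≠ 0 ↔ x ∈ T := by
    intro x hx
    rw [hss x hx e, G.vec_ind_e_ra]
    by_cases hxT : x ∈ T
    · rw [Finset.inter_singleton_of_mem hxT]; simp [hxT]
    · rw [Finset.inter_singleton_of_notMem hxT]; simp [hxT]
  -- linear dependence
  have hdim : Module.finrank (ZMod 3) M3.D < G.U.card := by
    have h4 := hrk M.E (Finset.Subset.refl _)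
    have h5 := M3.rk_E
    have h6 := M.rk_E
    rw [hE] at h5
    have := h.finrank_lt_ra hU
    omega
  have hdep : ∃ c : V → ZMod 3, (∑ x ∈ G.U, c x • s x = 0) ∧ ∃ x ∈ G.U, c x ≠ 0 := by
    have hnl : ¬ LinearIndependent (ZMod 3) (fun x : G.U => (⟨s x, hsD x x.2⟩ : M3.D)) := by
      intro hl
      have := hl.fintype_card_le_finrank
      rw [Fintype.card_coe] at this
      omega
    rw [Fintype.not_linearIndependent_iff] at hnl
    obtain ⟨c, hc, ⟨x, hx⟩, hcx⟩ := hnl
    refine ⟨fun x => if hx : x ∈ G.U then c ⟨x, hx⟩ else 0, ?_, x, hx, by simpa [hx] using hcx⟩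
    have h1 := congrArg Subtype.val hc
    rw [← Finset.sum_coe_sort]
    simp only [Submodule.coe_sum, Submodule.coe_smul, Submodule.coe_zero] at h1
    rw [← h1]
    refine Finset.sum_congr rfl fun y _ => ?_
    simp
  obtain ⟨c, hc, x1, hx1, hcx1⟩ := hdep
  have hcE : ∀ a ∈ E', c (G.f a) * s (G.f a) a + c (G.g a) * s (G.g a) a = 0 := by
    intro a ha
    obtain ⟨h1, h2, h3⟩ := h.on a ha
    have := congrFun hc a
    rw [Finset.sum_apply] at this
    rw [← Finset.sum_eq_add_of_mem (s := G.U) (f := fun x => c x * s x a) (G.f a) (G.g a) h1 h2 h3]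
    · simpa using this
    · intro x hx hxn
      by_contra h0
      rcases (hsE x hx a ha).1 (fun h00 => h0 (by rw [h00, mul_zero])) with h4 | h4
      · exact hxn.1 h4.symm
      · exact hxn.2 h4.symm
  have hc0 : ∀ x ∈ G.U, c x ≠ 0 := by
    intro x hx hcx
    obtain ⟨p, hp, q, hq, a, ha, hj⟩ := hUc.2 (G.U.filter fun z => c z ≠ 0)
      (Finset.filter_subset _ _) ⟨x1, Finset.mem_filter.2 ⟨hx1, hcx1⟩⟩ (by
        intro h0
        have : x ∈ G.U.filter fun z => c z ≠ 0 := by rw [h0]; exact hx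
        exact (Finset.mem_filter.1 this).2 hcx)
    rw [Finset.mem_filter] at hp
    rw [Finset.mem_sdiff, Finset.mem_filter, not_and, not_not] at hq
    have hq2 := hq.2 hq.1
    have h5 := hcE a ha
    have h6 := hsE p hp.1 a ha
    rcases hj with ⟨rfl, rfl⟩ | ⟨rfl, rfl⟩
    · rw [hq2, zero_mul, add_zero] at h5
      rcases mul_eq_zero.1 h5 with h7 | h7
      · exact hp.2 h7
      · exact h6.2 (Or.inl rfl) h7
    · rw [hq2, zero_mul, zero_add] at h5
      rcases mul_eq_zero.1 h5 with h7 | h7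
      · exact hp.2 h7
      · exact h6.2 (Or.inr rfl) h7
  have hz0 : ∀ x ∈ G.U, x ∉ T → c x * s x e = 0 := by
    intro x hx hxT
    have : s x e = 0 := by
      by_contra h0
      exact hxT ((hse x hx).1 h0)
    rw [this, mul_zero]
  refine ⟨fun x => c x * s x e, ?_, ?_, ?_⟩
  · intro x hx
    exact mul_ne_zero (hc0 x (h.TU hx)) ((hse x (h.TU hx)).2 hx)
  · rw [Finset.sum_subset h.TU fun x hx hxT => hz0 x hx hxT]
    have := congrFun hc e
    rw [Finset.sum_apply] at this
    simpa using this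
  · intro S0 S1 h0U h1U hd hc0' hc1' hTS
    obtain ⟨S, h0S, hSU, hS1, hScn, hScn'⟩ := exists_ext_ra hUc h1U hd hc0' h0U hc1'
    have hTS' : T ∩ S0 = T ∩ S := by
      ext x
      rw [Finset.mem_inter, Finset.mem_inter]
      refine and_congr_right fun hx => ⟨fun h => h0S h, fun hxS => ?_⟩
      rcases Finset.mem_union.1 (hTS hx) with h1 | h1
      · exact h1
      · exact absurd h1 (Finset.disjoint_left.1 hS1 hxS)
    rw [hTS']
    obtain ⟨w, hwD, hwH, hws, hwm⟩ := htern S hSU hScn hScn'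
    have hσD : ∑ x ∈ S, c x • s x ∈ M3.D :=
      Submodule.sum_mem _ fun x hx => Submodule.smul_mem _ _ (hsD x (hSU hx))
    have hσ : ∀ a, (∑ x ∈ S, c x • s x) a = ∑ x ∈ S, c x * s x a := by
      intro a
      rw [Finset.sum_apply]
      rfl
    have hσH : ∀ a ∈ E'.filter fun a => (G.f a ∈ S ↔ G.g a ∈ S), (∑ x ∈ S, c x • s x) a = 0 := by
      intro a ha
      rw [Finset.mem_filter] at ha
      rw [hσ]
      by_cases hf : G.f a ∈ S
      · have hg := ha.2.1 hf
        rw [Finset.sum_eq_add_of_mem (G.f a) (G.g a) hf hg (h.on a ha.1).2.2]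
        · exact hcE a ha.1
        · intro x hx hxn
          by_contra h0
          rcases (hsE x (hSU hx) a ha.1).1 (fun h00 => h0 (by rw [h00, mul_zero])) with h4 | h4
          · exact hxn.1 h4.symm
          · exact hxn.2 h4.symm
      · have hg : G.g a ∉ S := fun h => hf (ha.2.2 h)
        refine Finset.sum_eq_zero fun x hx => ?_
        by_contra h0
        rcases (hsE x (hSU hx) a ha.1).1 (fun h00 => h0 (by rw [h00, mul_zero])) with h4 | h4
        · exact hf (by rw [h4]; exact hx)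
        · exact hg (by rw [h4]; exact hx)
    obtain ⟨k, hk⟩ := hwm _ hσD hσH
    have hk0 : k ≠ 0 := by
      rintro rfl
      rw [zero_smul] at hk
      obtain ⟨x, hx, y, hy, a, ha, hj⟩ := hleave S hSU hScn.1 hScn'.1
      have h1 := congrFun hk a
      rw [hσ, Pi.zero_apply] at h1
      rw [Finset.sum_eq_single_of_mem x hx] at h1
      · rcases mul_eq_zero.1 h1 with h2 | h2
        · exact hc0 x (hSU hx) h2
        · refine (hsE x (hSU hx) a ha).2 ?_ h2
          rcases hj with ⟨h3, h4⟩ | ⟨h3, h4⟩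
          · exact Or.inl h3
          · exact Or.inr h4
      · intro b hb hbx
        by_contra h0
        have h5 := (hsE b (hSU hb) a ha).1 (fun h00 => h0 (by rw [h00, mul_zero]))
        have hyS := (Finset.mem_sdiff.1 hy).2
        rcases hj with ⟨h3, h4⟩ | ⟨h3, h4⟩ <;> rcases h5 with h6 | h6
        · exact hbx (h6.symm.trans h3)
        · exact hyS (by rw [← h4, h6]; exact hb)
        · exact hyS (by rw [← h3, h6]; exact hb)
        · exact hbx (h6.symm.trans h4)
    have hsum : ∑ x ∈ T ∩ S, c x * s x e = ∑ x ∈ S, c x * s x e := by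
      refine Finset.sum_subset Finset.inter_subset_right fun x hx hxn => hz0 x (hSU hx) ?_
      intro hxT
      exact hxn (Finset.mem_inter.2 ⟨hxT, hx⟩)
    have h9 := congrFun hk e
    rw [hσ, Pi.smul_apply, smul_eq_mul] at h9
    show ∑ x ∈ T ∩ S, c x * s x e = 0 ↔ _
    rw [hsum, h9, mul_eq_zero, or_iff_right hk0, ← ZMod.natCast_eq_zero_iff_even,
      ← G.vec_ind_e_ra M.E e T S]
    have := hws e
    tauto

end Pool.Agent.H53.Sey
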