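import Pool.Agent.H53.Sey.S1f

/-!
# S1, part G2: pattern 1, case (ii) (job SEYS-G2)

Situation as in part F. `K = ((M.del {e}).del {f}).con {a}` is not cographic (series extension,
`cographic_of_con_series` with the cocycle `{a, b}`), so it has a `KurMinor K C D`
(`exists_kurMinor`; `K` is regular) and `C ∪ D ⊆ {b}` by `C1.rigid` and `KurMinor.not_rigid`. `K` has
the graph with vertex set `U \ {w}` in which `b` joins `u` and `v` and the edges in `R = M.E \ {e, f,
a, b}` are those of `G` (`Rp.conQ` with `π w = u`).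
(ii) `D = {b}`: `K.del {b} = (M.del {e, f, a, b})` is represented by `G` restricted to `R`, vertex set
  `U \ {w}`. It is `K33` or `K5`; `u, v` are not adjacent, so it is `K33` with `u, v ∈ A` (or `B`),
  `A = {u, v, c}`. If `p, q ∈ B`: `S0 = {w, p, c, q}`, `S1 = {u, b', v}` with the third `b' ∈ B`.
  If one of `p, q` is `c` and the other in `B`: `S0 = {w, p, q}`, `S1 = {u, b', v}`, `b' ∈ B` not in
  `{p, q}`.
-/

set_option autoImplicit false

namespace Pool.Agent.H53.Sey

open Pool.Agent.H63.Sey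

universe u v w

variable {α : Type u} [DecidableEq α] {V : Type v} [DecidableEq V]

section

variable {M : BM α} {e : α} {G : Gr α V} {T : Finset V} {f a b : α} {w p u v q : V}

private lemma g2_aux {G : Gr α V} {E : Finset α} {w p u v q : V} {A B : Finset V}
    (hAB : A ∪ B = G.U.erase w) (hd : Disjoint A B) (hA : A.card = 3) (hB : B.card = 3)
    (hadj : ∀ x ∈ A, ∀ y ∈ B, G.Adj E x y) (hw : w ∈ G.U)
    (hu : u ∈ A) (hv : v ∈ A) (hp : p ∈ A ∪ B) (hq : q ∈ A ∪ B) (hwp : G.Adj E w p)
    (hpu : p ≠ u) (hpv : p ≠ v) (huv : u ≠ v) (huq : u ≠ q) (hvq : v ≠ q) (hpq : p ≠ q) :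
    Lk G E w q u v := by
  have hU : ∀ x ∈ A ∪ B, x ∈ G.U ∧ x ≠ w := by
    intro x hx
    rw [hAB, Finset.mem_erase] at hx
    exact ⟨hx.2, hx.1⟩
  have hdis : ∀ x, x ∈ A → x ∈ B → False := fun x h1 h2 => Finset.disjoint_left.1 hd h1 h2
  obtain ⟨b', hb', hb'pq⟩ : ∃ b' ∈ B, b' ∉ ({p, q} : Finset V) := by
    by_contra hcon
    push Not at hcon
    have h1 : B ⊆ {p, q} := hcon
    have h2 := Finset.card_le_card h1
    have h3 := Finset.card_le_two (a := p) (b := q)
    omega
  simp only [Finset.mem_insert, Finset.mem_singleton, not_or] at hb'pq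
  obtain ⟨c, hc, hcuv⟩ : ∃ c ∈ A, c ∉ ({u, v} : Finset V) := by
    by_contra hcon
    push Not at hcon
    have h1 : A ⊆ {u, v} := hcon
    have h2 := Finset.card_le_card h1
    have h3 := Finset.card_le_two (a := u) (b := v)
    omega
  simp only [Finset.mem_insert, Finset.mem_singleton, not_or] at hcuv
  have hAeq : ∀ x ∈ A, x = u ∨ x = v ∨ x = c := by
    intro x hx
    by_contra hcon
    push Not at hcon
    have h1 : ({x, u, v, c} : Finset V) ⊆ A := by
      intro y hy
      simp only [Finset.mem_insert, Finset.mem_singleton] at hy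
      rcases hy with rfl | rfl | rfl | rfl <;> assumption
    have h2 := Finset.card_le_card h1
    have h3 : ({x, u, v, c} : Finset V).card = 4 := by
      rw [Finset.card_insert_of_notMem, Finset.card_insert_of_notMem,
        Finset.card_pair (Ne.symm hcuv.2)]
      · simp only [Finset.mem_insert, Finset.mem_singleton, not_or]
        exact ⟨huv, Ne.symm hcuv.1⟩
      · simp only [Finset.mem_insert, Finset.mem_singleton, not_or]
        exact ⟨hcon.1, hcon.2.1, hcon.2.2⟩
    omega
  have hb'A : b' ∈ A ∪ B := Finset.mem_union_right _ hb'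
  have hcA : c ∈ A ∪ B := Finset.mem_union_left _ hc
  have huA : u ∈ A ∪ B := Finset.mem_union_left _ hu
  have hvA : v ∈ A ∪ B := Finset.mem_union_left _ hv
  have hb'u : b' ≠ u := by rintro rfl; exact hdis _ hu hb'
  have hb'v : b' ≠ v := by rintro rfl; exact hdis _ hv hb'
  have hb'c : b' ≠ c := by rintro rfl; exact hdis _ hc hb'
  have hS1 : G.Cn E (insert u (insert b' {v})) := by
    refine ((Gr.Cn.single E v).insert (Finset.mem_singleton_self v)
      (hadj v hv b' hb').symm).insert (Finset.mem_insert_self _ _) (hadj u hu b' hb')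
  have hS1U : (insert u (insert b' ({v} : Finset V))) ⊆ G.U := by
    intro x hx
    simp only [Finset.mem_insert, Finset.mem_singleton] at hx
    rcases hx with rfl | rfl | rfl
    · exact (hU _ huA).1
    · exact (hU _ hb'A).1
    · exact (hU _ hvA).1
  -- the set `S0`
  have key : ∀ S0 : Finset V, G.Cn E (insert w (insert p S0)) → q ∈ S0 →
      (∀ x ∈ S0, x = q ∨ x = c) → Lk G E w q u v := by
    intro S0 hC hqS hS0
    refine ⟨insert w (insert p S0), insert u (insert b' {v}), ?_, hS1U, ?_, hC, hS1, by simp,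
      by simp [hqS], by simp, by simp⟩
    · intro x hx
      simp only [Finset.mem_insert] at hx
      rcases hx with rfl | rfl | hx
      · exact hw
      · exact (hU _ hp).1
      · rcases hS0 x hx with rfl | rfl
        · exact (hU _ hq).1
        · exact (hU _ hcA).1
    · rw [Finset.disjoint_left]
      intro x hx hx'
      simp only [Finset.mem_insert, Finset.mem_singleton] at hx hx'
      rcases hx with rfl | rfl | hx
      · rcases hx' with h | h | h
        · exact (hU _ huA).2 h.symm
        · exact (hU _ hb'A).2 h.symm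
        · exact (hU _ hvA).2 h.symm
      · rcases hx' with h | h | h
        · exact hpu h
        · exact hb'pq.1 h.symm
        · exact hpv h
      · rcases hS0 x hx with rfl | rfl
        · rcases hx' with h | h | h
          · exact huq h.symm
          · exact hb'pq.2 h.symm
          · exact hvq h.symm
        · rcases hx' with h | h | h
          · exact hcuv.1 h
          · exact hb'c h.symm
          · exact hcuv.2 h
  have key2 : G.Adj E p q → Lk G E w q u v := by
    intro h
    refine key {q} ?_ (by simp) (by simp)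
    exact ((Gr.Cn.single E q).insert (Finset.mem_singleton_self q) h).insert
      (Finset.mem_insert_self _ _) hwp
  rcases Finset.mem_union.1 hp with hp' | hp' <;> rcases Finset.mem_union.1 hq with hq' | hq'
  · exfalso
    have h1 := hAeq p hp'
    have h2 := hAeq q hq'
    rcases h1 with h1 | h1 | h1
    · exact hpu h1
    · exact hpv h1
    · rcases h2 with h2 | h2 | h2
      · exact huq h2.symm
      · exact hvq h2.symm
      · exact hpq (h1.trans h2.symm)
  · exact key2 (hadj p hp' q hq')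
  · exact key2 (hadj q hq' p hp').symm
  · refine key {c, q} ?_ (by simp) (by simp)
    exact (((Gr.Cn.single E q).insert (Finset.mem_singleton_self q) (hadj c hc q hq')).insert
      (Finset.mem_insert_self _ _) (hadj c hc p hp').symm).insert
      (Finset.mem_insert_self _ _) hwp

lemma C1.case_ii (h : Std M e G T) (hc : C1 M e G T f a b w p u v q)
    (hk : IsK33 (⟨G.U.erase w, G.f, G.g⟩ : Gr α V) (M.E \ {e, f, a, b}) ∨
      IsK5 (⟨G.U.erase w, G.f, G.g⟩ : Gr α V) (M.E \ {e, f, a, b})) : False := by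
  obtain ⟨hfE, haE, hbE, hfa, hfb, hab, hwU, hpU, huU, hvU, hqU, hwp, hwu, hwv, hwq, hpu, hpv,
    huv, huq, hvq⟩ := hc.basic h.g3
  obtain ⟨hpT, hnuv, hnwq, hnL⟩ := hc.regular h.min.reg h.g3
  have hqT : q ∈ T := by rw [hc.T_eq]; simp
  have hpq : p ≠ q := by
    rintro rfl
    exact hpT hqT
  have hup : ∀ x y, (⟨G.U.erase w, G.f, G.g⟩ : Gr α V).Adj (M.E \ {e, f, a, b}) x y →
      G.Adj (M.E \ {e}) x y := by
    rintro x y ⟨c, hcE, hj⟩
    refine ⟨c, ?_, hj⟩
    simp only [Finset.mem_sdiff, Finset.mem_insert, Finset.mem_singleton, not_or] at hcE ⊢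
    exact ⟨hcE.1, hcE.2.1⟩
  have huU' : u ∈ G.U.erase w := Finset.mem_erase.2 ⟨hwu.symm, huU⟩
  have hvU' : v ∈ G.U.erase w := Finset.mem_erase.2 ⟨hwv.symm, hvU⟩
  have hpU' : p ∈ G.U.erase w := Finset.mem_erase.2 ⟨hwp.symm, hpU⟩
  have hqU' : q ∈ G.U.erase w := Finset.mem_erase.2 ⟨hwq.symm, hqU⟩
  have hwpA : G.Adj (M.E \ {e}) w p := ⟨f, hfE, hc.jf⟩
  rcases hk with hk | hk
  · obtain ⟨hon, hs, A, B, hAB, hd, hA, hB, hadj⟩ := hk
    have hAB' : A ∪ B = G.U.erase w := hAB
    have hAU : A ⊆ G.U.erase w := hAB' ▸ Finset.subset_union_left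
    have hBU : B ⊆ G.U.erase w := hAB' ▸ Finset.subset_union_right
    have hadj1 : ∀ x ∈ A, ∀ y ∈ B, G.Adj (M.E \ {e}) x y := fun x hx y hy =>
      hup x y ((hadj x (hAU hx) y (hBU hy)).2 (Or.inl ⟨hx, hy⟩))
    have hu' : u ∈ A ∪ B := hAB' ▸ huU'
    have hv' : v ∈ A ∪ B := hAB' ▸ hvU'
    have hp' : p ∈ A ∪ B := hAB' ▸ hpU'
    have hq' : q ∈ A ∪ B := hAB' ▸ hqU'
    rcases Finset.mem_union.1 hu' with hu1 | hu1 <;> rcases Finset.mem_union.1 hv' with hv1 | hv1
    · exact hnL (g2_aux hAB' hd hA hB hadj1 hwU hu1 hv1 hp' hq' hwpA hpu hpv huv huq hvq hpq)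
    · exact hnuv (hadj1 u hu1 v hv1)
    · exact hnuv (hadj1 v hv1 u hu1).symm
    · rw [Finset.union_comm] at hp' hq' hAB'
      exact hnL (g2_aux hAB' hd.symm hB hA (fun x hx y hy => (hadj1 y hy x hx).symm) hwU hu1 hv1
        hp' hq' hwpA hpu hpv huv huq hvq hpq)
  · exact hnuv (hup u v (hk.2.2.2 u huU' v hvU' huv))

end

end Pool.Agent.H53.Sey
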