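import Pool.Agent.H53.Sey.S1f

/-!
# S1, part G3: pattern 1, case (iii) (job SEYS-G3)

Situation as in part F. `K = ((M.del {e}).del {f}).con {a}` is not cographic (series extension,
`cographic_of_con_series` with the cocycle `{a, b}`), so it has a `KurMinor K C D`
(`exists_kurMinor`; `K` is regular) and `C ∪ D ⊆ {b}` by `C1.rigid` and `KurMinor.not_rigid`. `K` has
the graph with vertex set `U \ {w}` in which `b` joins `u` and `v` and the edges in `R = M.E \ {e, f,
a, b}` are those of `G` (`Rp.conQ` with `π w = u`).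
(iii) `C = {b}`: `K.con {b}` is represented by the graph on `U \ {w, v}` with `v` identified with `u`
  (`π v = u`, `π w = u`), edges `R`. The degree of `u` in it is `deg_R u + deg_R v ≥ 4`
  (`deg_G u, deg_G v ≥ 3`), so it is `K5`, of degree 4, and `deg_R u = deg_R v = 2`. Let `X` be the
  other four vertices, `X = {x₁, x₂, x₃, x₄}` with `N_R(u) = {x₁, x₂}`, `N_R(v) = {x₃, x₄}` (every
  element of `X` is adjacent to exactly one of `u, v`), any two elements of `X` are adjacent. `p, q ∈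
  X`. `{p, q} = {x₁, x₂}` or `{x₃, x₄}` contradicts `C1.nb_u`; otherwise let `S1 = {u, v} ∪ (X \ {p,
  q})`, `S0 = {w, p, q}`.
-/

set_option autoImplicit false

namespace Pool.Agent.H53.Sey

open Pool.Agent.H63.Sey

universe u v w

variable {α : Type u} [DecidableEq α] {V : Type v} [DecidableEq V]

section

variable {M : BM α} {e : α} {G : Gr α V} {T : Finset V} {f a b : α} {w p u v q : V}

/-- a vertex with two edges in a simple graph has a neighbour different from `t` -/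
private lemma g3_other {G : Gr α V} {R : Finset α} (hs : G.Simple R) {x : V}
    (hc : (G.star R x).card = 2) (t : V) : ∃ y, y ≠ t ∧ ∃ c ∈ R, G.Jn c x y := by
  obtain ⟨c₁, c₂, hne, h12⟩ := Finset.card_eq_two.1 hc
  have m1 : c₁ ∈ G.star R x := by rw [h12]; simp
  have m2 : c₂ ∈ G.star R x := by rw [h12]; simp
  obtain ⟨h1, y₁, j1⟩ := Gr.mem_star_iff_jn.1 m1
  obtain ⟨h2, y₂, j2⟩ := Gr.mem_star_iff_jn.1 m2
  by_cases e1 : y₁ = t
  · by_cases e2 : y₂ = t
    · exfalso
      rw [e1] at j1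
      rw [e2] at j2
      exact hne (hs c₁ h1 c₂ h2 x t j1 j2)
    · exact ⟨y₂, e2, c₂, h2, j2⟩
  · exact ⟨y₁, e1, c₁, h1, j1⟩

lemma C1.case_iii (h : Std M e G T) (hc : C1 M e G T f a b w p u v q)
    (hk : IsK33 (⟨(G.U.erase w).erase v, fun c => if G.f c = v then u else G.f c,
        fun c => if G.g c = v then u else G.g c⟩ : Gr α V) (M.E \ {e, f, a, b}) ∨
      IsK5 (⟨(G.U.erase w).erase v, fun c => if G.f c = v then u else G.f c,
        fun c => if G.g c = v then u else G.g c⟩ : Gr α V) (M.E \ {e, f, a, b})) : False := by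
  obtain ⟨hfE, haE, hbE, hfa, hfb, hab, hwU, hpU, huU, hvU, hqU, hwp, hwu, hwv, hwq, hpu, hpv,
    huv, huq, hvq⟩ := hc.basic h.g3
  obtain ⟨hpT, hnuv, hnwq, hnlk⟩ := hc.regular h.min.reg h.g3
  have hon := h.g3.rep.on
  have hsim := h.g3.simple
  have hdeg := h.g3.deg
  have hpq : p ≠ q := by
    rintro rfl
    exact hpT (by rw [hc.T_eq]; simp)
  obtain ⟨R, hR⟩ : ∃ R, M.E \ {e, f, a, b} = R := ⟨_, rfl⟩
  have memR : ∀ c, c ∈ R ↔ c ∈ M.E \ {e} ∧ c ≠ f ∧ c ≠ a ∧ c ≠ b := by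
    intro c
    rw [← hR]
    simp only [Finset.mem_sdiff, Finset.mem_insert, Finset.mem_singleton, not_or]
    tauto
  have hRE : R ⊆ M.E \ {e} := fun c hc' => ((memR c).1 hc').1
  have hsimR : G.Simple R := fun c hc' d hd x y => hsim c (hRE hc') d (hRE hd) x y
  obtain ⟨Q, hQ⟩ : ∃ Q : Gr α V, (⟨(G.U.erase w).erase v, fun c => if G.f c = v then u else G.f c,
    fun c => if G.g c = v then u else G.g c⟩ : Gr α V) = Q := ⟨_, rfl⟩
  have hQU : Q.U = (G.U.erase w).erase v := by rw [← hQ]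
  have hQf : ∀ c, Q.f c = if G.f c = v then u else G.f c := fun c => by rw [← hQ]
  have hQg : ∀ c, Q.g c = if G.g c = v then u else G.g c := fun c => by rw [← hQ]
  rw [hR, hQ] at hk
  -- edges in `R` avoid `w`
  have hRw : ∀ c ∈ R, G.f c ≠ w ∧ G.g c ≠ w := by
    intro c hcR
    obtain ⟨h1, h2, h3, h4⟩ := (memR c).1 hcR
    have h5 : c ∉ G.star (M.E \ {e}) w := by
      rw [hc.star]
      simp only [Finset.mem_insert, Finset.mem_singleton, not_or]
      exact ⟨h2, h3, h4⟩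
    rw [Gr.mem_star] at h5
    push Not at h5
    exact h5 h1
  have π_u : ∀ z, (if z = v then u else z) = u ↔ z = u ∨ z = v := by
    intro z
    by_cases hz : z = v
    · simp [hz]
    · simp [hz]
  have π_ne : ∀ z y, y ≠ u → (if z = v then u else z) = y → z = y := by
    intro z y hy hz
    by_cases hzv : z = v
    · rw [if_pos hzv] at hz
      exact absurd hz.symm hy
    · rwa [if_neg hzv] at hz
  -- a `G`-edge at `u` or `v`, seen in `Q`
  have toQ : ∀ c x y, (x = u ∨ x = v) → y ≠ v → G.Jn c x y → Q.Jn c u y := by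
    intro c x y hx hy hj
    unfold Gr.Jn at hj ⊢
    rw [hQf, hQg]
    rcases hj with ⟨h1, h2⟩ | ⟨h1, h2⟩
    · left
      rw [h1, h2, if_neg hy]
      exact ⟨(π_u x).2 hx, rfl⟩
    · right
      rw [h1, h2, if_neg hy]
      exact ⟨rfl, (π_u x).2 hx⟩
  have fromQ : ∀ c y, y ≠ u → Q.Jn c u y → G.Jn c u y ∨ G.Jn c v y := by
    intro c y hy hj
    unfold Gr.Jn at hj ⊢
    rw [hQf, hQg] at hj
    rcases hj with ⟨h1, h2⟩ | ⟨h1, h2⟩
    · have h3 := π_ne _ _ hy h2
      rcases (π_u _).1 h1 with h4 | h4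
      · exact Or.inl (Or.inl ⟨h4, h3⟩)
      · exact Or.inr (Or.inl ⟨h4, h3⟩)
    · have h3 := π_ne _ _ hy h1
      rcases (π_u _).1 h2 with h4 | h4
      · exact Or.inl (Or.inr ⟨h3, h4⟩)
      · exact Or.inr (Or.inr ⟨h3, h4⟩)
  have fromQ' : ∀ c x y, x ≠ u → y ≠ u → Q.Jn c x y → G.Jn c x y := by
    intro c x y hx hy hj
    unfold Gr.Jn at hj ⊢
    rw [hQf, hQg] at hj
    rcases hj with ⟨h1, h2⟩ | ⟨h1, h2⟩
    · exact Or.inl ⟨π_ne _ _ hx h1, π_ne _ _ hy h2⟩
    · exact Or.inr ⟨π_ne _ _ hy h1, π_ne _ _ hx h2⟩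
  -- stars
  have su : G.star (M.E \ {e}) u = insert a (G.star R u) := by
    ext c
    rw [Finset.mem_insert]
    constructor
    · intro hcs
      obtain ⟨h1, z, hz⟩ := Gr.mem_star_iff_jn.1 hcs
      by_cases hca : c = a
      · exact Or.inl hca
      · right
        refine Gr.mem_star_iff_jn.2 ⟨(memR c).2 ⟨h1, ?_, hca, ?_⟩, z, hz⟩
        · rintro rfl
          rcases hc.jf.ends hz with ⟨h5, _⟩ | ⟨_, h5⟩
          · exact hwu h5
          · exact hpu h5
        · rintro rfl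
          rcases hc.jb.ends hz with ⟨h5, _⟩ | ⟨_, h5⟩
          · exact hwu h5
          · exact huv h5.symm
    · rintro (rfl | hcs)
      · exact Gr.mem_star_iff_jn.2 ⟨haE, w, hc.ja.symm⟩
      · obtain ⟨h1, h2⟩ := Gr.mem_star.1 hcs
        exact Gr.mem_star.2 ⟨hRE h1, h2⟩
  have sv : G.star (M.E \ {e}) v = insert b (G.star R v) := by
    ext c
    rw [Finset.mem_insert]
    constructor
    · intro hcs
      obtain ⟨h1, z, hz⟩ := Gr.mem_star_iff_jn.1 hcs
      by_cases hcb : c = b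
      · exact Or.inl hcb
      · right
        refine Gr.mem_star_iff_jn.2 ⟨(memR c).2 ⟨h1, ?_, ?_, hcb⟩, z, hz⟩
        · rintro rfl
          rcases hc.jf.ends hz with ⟨h5, _⟩ | ⟨_, h5⟩
          · exact hwv h5
          · exact hpv h5
        · rintro rfl
          rcases hc.ja.ends hz with ⟨h5, _⟩ | ⟨_, h5⟩
          · exact hwv h5
          · exact huv h5
    · rintro (rfl | hcs)
      · exact Gr.mem_star_iff_jn.2 ⟨hbE, w, hc.jb.symm⟩
      · obtain ⟨h1, h2⟩ := Gr.mem_star.1 hcs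
        exact Gr.mem_star.2 ⟨hRE h1, h2⟩
  have cu : 2 ≤ (G.star R u).card := by
    have h1 := hdeg u huU
    rw [su] at h1
    have h2 := Finset.card_insert_le a (G.star R u)
    omega
  have cv : 2 ≤ (G.star R v).card := by
    have h1 := hdeg v hvU
    rw [sv] at h1
    have h2 := Finset.card_insert_le b (G.star R v)
    omega
  have hdis : Disjoint (G.star R u) (G.star R v) := by
    rw [Finset.disjoint_left]
    intro c h1 h2
    obtain ⟨h3, h4⟩ := Gr.mem_star.1 h1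
    obtain ⟨-, h5⟩ := Gr.mem_star.1 h2
    apply hnuv
    refine ⟨c, hRE h3, ?_⟩
    rcases h4 with h4 | h4 <;> rcases h5 with h5 | h5
    · exact absurd (h4.symm.trans h5) huv
    · exact Or.inl ⟨h4, h5⟩
    · exact Or.inr ⟨h5, h4⟩
    · exact absurd (h4.symm.trans h5) huv
  have sQ : Q.star R u = G.star R u ∪ G.star R v := by
    ext c
    rw [Finset.mem_union, Gr.mem_star, Gr.mem_star, Gr.mem_star, hQf, hQg, π_u, π_u]
    tauto
  have cQ : (Q.star R u).card = (G.star R u).card + (G.star R v).card := by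
    rw [sQ, Finset.card_union_of_disjoint hdis]
  have huQ : u ∈ Q.U := by
    rw [hQU]
    exact Finset.mem_erase.2 ⟨huv, Finset.mem_erase.2 ⟨hwu.symm, huU⟩⟩
  have hk5 : IsK5 Q R := by
    rcases hk with hk | hk
    · have := hk.deg huQ
      omega
    · exact hk
  have c4 := hk5.deg huQ
  have cu2 : (G.star R u).card = 2 := by omega
  have cv2 : (G.star R v).card = 2 := by omega
  obtain ⟨-, hsQ, -, hadj⟩ := hk5
  have memQ : ∀ y, y ∈ Q.U ↔ y ∈ G.U ∧ y ≠ w ∧ y ≠ v := by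
    intro y
    rw [hQU]
    simp only [Finset.mem_erase]
    tauto
  have hpQ : p ∈ Q.U := (memQ p).2 ⟨hpU, hwp.symm, hpv⟩
  have hqQ : q ∈ Q.U := (memQ q).2 ⟨hqU, hwq.symm, hvq.symm⟩
  -- every vertex different from `w, u, v` is adjacent to exactly one of `u, v`
  have one : ∀ y ∈ Q.U, y ≠ u → (∃ c ∈ R, G.Jn c u y) ∨ ∃ c ∈ R, G.Jn c v y := by
    intro y hy hyu
    obtain ⟨c, hcR, hcj⟩ := hadj u huQ y hy hyu.symm
    rcases fromQ c y hyu hcj with h1 | h1
    · exact Or.inl ⟨c, hcR, h1⟩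
    · exact Or.inr ⟨c, hcR, h1⟩
  have notboth : ∀ y, y ≠ v → (∃ c ∈ R, G.Jn c u y) → (∃ c ∈ R, G.Jn c v y) → False := by
    rintro y hy ⟨c, hcR, hcj⟩ ⟨d, hdR, hdj⟩
    have h1 := hsQ c hcR d hdR u y (toQ c u y (Or.inl rfl) hy hcj) (toQ d v y (Or.inr rfl) hy hdj)
    subst h1
    exact Finset.disjoint_left.1 hdis (Gr.mem_star_iff_jn.2 ⟨hcR, y, hcj⟩)
      (Gr.mem_star_iff_jn.2 ⟨hdR, y, hdj⟩)
  have adjG : ∀ x ∈ Q.U, ∀ y ∈ Q.U, x ≠ u → y ≠ u → x ≠ y → G.Adj (M.E \ {e}) x y := by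
    intro x hx y hy hxu hyu hxy
    obtain ⟨c, hcR, hcj⟩ := hadj x hx y hy hxy
    exact ⟨c, hRE hcR, fromQ' c x y hxu hyu hcj⟩
  have endQ : ∀ c ∈ R, ∀ x y, (x = u ∨ x = v) → G.Jn c x y → y ∈ Q.U ∧ y ≠ u := by
    intro c hcR x y hx hj
    obtain ⟨h1, h2, h3⟩ := hon.jn_mem (hRE hcR) hj
    obtain ⟨h4, h5⟩ := hRw c hcR
    have hyw : y ≠ w := by
      rintro rfl
      rcases hj with ⟨_, h6⟩ | ⟨h6, _⟩
      · exact h5 h6
      · exact h4 h6
    have hadjxy : G.Adj (M.E \ {e}) x y := ⟨c, hRE hcR, hj⟩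
    have hyv : y ≠ v := by
      rintro rfl
      rcases hx with rfl | rfl
      · exact hnuv hadjxy
      · exact h3 rfl
    have hyu : y ≠ u := by
      rintro rfl
      rcases hx with rfl | rfl
      · exact h3 rfl
      · exact hnuv hadjxy.symm
    exact ⟨(memQ y).2 ⟨h2, hyw, hyv⟩, hyu⟩
  -- the linkage
  have link : ∀ x y, (∃ c ∈ R, G.Jn c u x) → (∃ c ∈ R, G.Jn c v y) → x ≠ p → x ≠ q →
      y ≠ p → y ≠ q → False := by
    rintro x y ⟨c, hcR, hcj⟩ ⟨d, hdR, hdj⟩ hxp hxq hyp hyq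
    obtain ⟨hxQ, hxu⟩ := endQ c hcR u x (Or.inl rfl) hcj
    obtain ⟨hyQ, hyu⟩ := endQ d hdR v y (Or.inr rfl) hdj
    obtain ⟨hxU, hxw, hxv⟩ := (memQ x).1 hxQ
    obtain ⟨hyU, hyw, hyv⟩ := (memQ y).1 hyQ
    have hxy : x ≠ y := by
      rintro rfl
      exact notboth x hxv ⟨c, hcR, hcj⟩ ⟨d, hdR, hdj⟩
    apply hnlk
    refine ⟨{w, p, q}, {u, x, y, v}, ?_, ?_, ?_, ?_, ?_, ?_, ?_, ?_, ?_⟩
    · intro z hz
      simp only [Finset.mem_insert, Finset.mem_singleton] at hz
      rcases hz with rfl | rfl | rfl <;> assumption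
    · intro z hz
      simp only [Finset.mem_insert, Finset.mem_singleton] at hz
      rcases hz with rfl | rfl | rfl | rfl <;> assumption
    · rw [Finset.disjoint_left]
      intro z hz hz'
      simp only [Finset.mem_insert, Finset.mem_singleton] at hz hz'
      rcases hz with rfl | rfl | rfl
      · rcases hz' with h1 | h1 | h1 | h1
        · exact hwu h1
        · exact hxw h1.symm
        · exact hyw h1.symm
        · exact hwv h1
      · rcases hz' with h1 | h1 | h1 | h1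
        · exact hpu h1
        · exact hxp h1.symm
        · exact hyp h1.symm
        · exact hpv h1
      · rcases hz' with h1 | h1 | h1 | h1
        · exact huq h1.symm
        · exact hxq h1.symm
        · exact hyq h1.symm
        · exact hvq h1.symm
    · refine Gr.Cn.insert (Gr.Cn.insert (Gr.Cn.single _ q) (Finset.mem_singleton_self q)
        (adjG p hpQ q hqQ hpu huq.symm hpq)) (Finset.mem_insert_self p _) ⟨f, hfE, hc.jf⟩
    · refine Gr.Cn.insert (Gr.Cn.insert (Gr.Cn.insert (Gr.Cn.single _ v)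
        (Finset.mem_singleton_self v) ⟨d, hRE hdR, hdj.symm⟩) (Finset.mem_insert_self y _)
        (adjG x hxQ y hyQ hxu hyu hxy)) (Finset.mem_insert_self x _) ⟨c, hRE hcR, hcj⟩
    · simp
    · simp
    · simp
    · simp
  rcases one p hpQ hpu with hp | hp <;> rcases one q hqQ huq.symm with hq | hq
  · obtain ⟨g, hgR, hgj⟩ := hp
    obtain ⟨k, hkR, hkj⟩ := hq
    refine hc.nb_u h hgj hkj ?_
    rw [su]
    congr 1
    symm
    refine Finset.eq_of_subset_of_card_le ?_ ?_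
    · intro c hc'
      rw [Finset.mem_insert, Finset.mem_singleton] at hc'
      rcases hc' with rfl | rfl
      · exact Gr.mem_star_iff_jn.2 ⟨hgR, p, hgj⟩
      · exact Gr.mem_star_iff_jn.2 ⟨hkR, q, hkj⟩
    · rw [cu2, Finset.card_pair]
      rintro rfl
      rcases hgj.ends hkj with ⟨_, h1⟩ | ⟨h1, _⟩
      · exact hpq h1
      · exact huq h1
  · obtain ⟨x, hxp, hx⟩ := g3_other hsimR cu2 p
    obtain ⟨y, hyq, hy⟩ := g3_other hsimR cv2 q
    refine link x y hx hy hxp ?_ ?_ hyq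
    · rintro rfl
      exact notboth x hvq.symm hx hq
    · rintro rfl
      exact notboth y hpv hp hy
  · obtain ⟨x, hxq, hx⟩ := g3_other hsimR cu2 q
    obtain ⟨y, hyp, hy⟩ := g3_other hsimR cv2 p
    refine link x y hx hy ?_ hxq hyp ?_
    · rintro rfl
      exact notboth x hpv hx hp
    · rintro rfl
      exact notboth y hvq.symm hq hy
  · obtain ⟨g, hgR, hgj⟩ := hp
    obtain ⟨k, hkR, hkj⟩ := hq
    refine hc.swap.nb_u h hgj hkj ?_
    rw [sv]
    congr 1
    symm
    refine Finset.eq_of_subset_of_card_le ?_ ?_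
    · intro c hc'
      rw [Finset.mem_insert, Finset.mem_singleton] at hc'
      rcases hc' with rfl | rfl
      · exact Gr.mem_star_iff_jn.2 ⟨hgR, p, hgj⟩
      · exact Gr.mem_star_iff_jn.2 ⟨hkR, q, hkj⟩
    · rw [cv2, Finset.card_pair]
      rintro rfl
      rcases hgj.ends hkj with ⟨_, h1⟩ | ⟨h1, _⟩
      · exact hpq h1
      · exact hvq h1

end

end Pool.Agent.H53.Sey
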