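import Pool.Agent.H53.Sey.S1g1
import Pool.Agent.H53.Sey.S1g2
import Pool.Agent.H53.Sey.S1g3

/-!
# S1, part G: pattern 1 does not occur (job SEYS-G)

Situation as in part F. `K = ((M.del {e}).del {f}).con {a}` is not cographic (series extension,
`cographic_of_con_series` with the cocycle `{a, b}`), so it has a `KurMinor K C D`
(`exists_kurMinor`; `K` is regular) and `C ∪ D ⊆ {b}` by `C1.rigid` and `KurMinor.not_rigid`. `K` has
the graph with vertex set `U \ {w}` in which `b` joins `u` and `v` and the edges in `R = M.E \ {e, f,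
a, b}` are those of `G` (`Rp.conQ` with `π w = u`).
`C1.false`: `exists_kurMinor` for `K` (regular: a minor of `M`), `C ∪ D ⊆ {b}`, so `(C, D)` is `(∅, ∅)`,
`(∅, {b})` or `({b}, ∅)`; get the representations without isolated vertices (`C1.rp_K`, `Rp.del`,
`Rp.conQ` with `π v = u`; degrees in `G` are `≥ 3`) and apply `kur_transfer` and `C1.case_i`,
`C1.case_ii`, `C1.case_iii`.
-/

set_option autoImplicit false

namespace Pool.Agent.H53.Sey

open Pool.Agent.H63.Sey

universe u v w

variable {α : Type u} [DecidableEq α] {V : Type v} [DecidableEq V]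

/-- the representation does not depend on the vertex set and on labels outside `E` -/
private lemma rp_congr {N : BM α} {G G' : Gr α V} (h : Rp N G) (hon : G'.On N.E)
    (hf : ∀ a ∈ N.E, G'.f a = G.f a) (hg : ∀ a ∈ N.E, G'.g a = G.g a) : Rp N G' := by
  refine Rp.of_mem hon fun x => ?_
  rw [h.mem]
  constructor
  · rintro ⟨φ, hφ⟩
    refine ⟨φ, fun a => ?_⟩
    rw [hφ a]
    split_ifs with ha
    · rw [hf a ha, hg a ha]
    · rfl
  · rintro ⟨φ, hφ⟩
    refine ⟨φ, fun a => ?_⟩
    rw [hφ a]
    split_ifs with ha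
    · rw [hf a ha, hg a ha]
    · rfl

/-- pattern 1 does not occur -/
theorem C1.false {M : BM α} {e : α} {G : Gr α V} {T : Finset V} (h : Std M e G T)
    {f a b : α} {w p u v q : V} (hc : C1 M e G T f a b w p u v q)
    (hnc : ¬ Cographic ((M.del {e}).del {f})) : False := by
  classical
  obtain ⟨hfE, haE, hbE, hfa, hfb, hab, hwU, hpU, huU, hvU, hqU, hwp, hwu, hwv, hwq, hpu, hpv,
    huv, huq, hvq⟩ := hc.basic h.g3
  obtain ⟨hpT, hnuv, hnwq, -⟩ := hc.regular h.min.reg h.g3
  have hae : a ≠ e := by rintro rfl; simp at haE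
  have hbe : b ≠ e := by rintro rfl; simp at hbE
  have hfe : f ≠ e := by rintro rfl; simp at hfE
  have haM : a ∈ M.E := (Finset.mem_sdiff.1 haE).1
  have hbM : b ∈ M.E := (Finset.mem_sdiff.1 hbE).1
  have hfM : f ∈ M.E := (Finset.mem_sdiff.1 hfE).1
  have hgr := h.g3.rep
  have hon := hgr.on
  set K := ((M.del {e}).del {f}).con {a} with hK
  have hKE : K.E = M.E \ {e, f, a} := by
    ext c
    simp only [hK, LM.con_E, LM.del_E, Finset.mem_sdiff, Finset.mem_singleton,
      Finset.mem_insert, not_or]
    tauto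
  -- the series pair
  have hser : ind {a, b} ∈ ((M.del {e}).del {f}).D := by
    have h1 := (hgr.del_rp.del {f}).star_mem w
    have h2 : G.star ((M.del {e}).del {f}).E w = {a, b} := by
      ext c
      rw [Gr.mem_star, LM.del_E, LM.del_E, Finset.mem_sdiff, Finset.mem_singleton]
      have h3 : c ∈ G.star (M.E \ {e}) w ↔ c ∈ ({f, a, b} : Finset α) := by rw [hc.star]
      rw [Gr.mem_star] at h3
      simp only [Finset.mem_insert, Finset.mem_singleton] at h3 ⊢
      constructor
      · rintro ⟨⟨h4, h5⟩, h6⟩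
        rcases h3.1 ⟨h4, h6⟩ with h7 | h7 | h7
        · exact absurd h7 h5
        · exact Or.inl h7
        · exact Or.inr h7
      · rintro (h4 | h4)
        · have := h3.2 (Or.inr (Or.inl h4))
          exact ⟨⟨this.1, by rw [h4]; exact hfa.symm⟩, this.2⟩
        · have := h3.2 (Or.inr (Or.inr h4))
          exact ⟨⟨this.1, by rw [h4]; exact hfb.symm⟩, this.2⟩
    rw [h2] at h1
    exact h1
  have hKnc : ¬ Cographic K := by
    intro h1
    apply hnc
    refine cographic_of_con_series hab ?_ hser h1
    rw [LM.del_E, LM.del_E]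
    simp only [Finset.mem_sdiff, Finset.mem_singleton]
    exact ⟨⟨hbM, hbe⟩, hfb.symm⟩
  have hKreg : Regular K := by
    refine Regular.minor h.min.reg ⟨{a}, {e} ∪ {f}, ?_, ?_⟩
    · rw [Finset.disjoint_union_right]
      exact ⟨Finset.disjoint_singleton.2 hae, Finset.disjoint_singleton.2 hfa.symm⟩
    · rw [hK, LM.del_del, LM.con_del]
      rw [Finset.disjoint_union_right]
      exact ⟨Finset.disjoint_singleton.2 hae, Finset.disjoint_singleton.2 hfa.symm⟩
  obtain ⟨C, D, hk⟩ := exists_kurMinor hKreg hKnc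
  have hCDb : ∀ g ∈ C ∪ D, g = b := by
    intro g hg
    by_contra hgb
    have hgK : g ∈ K.E := by
      rcases Finset.mem_union.1 hg with h1 | h1
      · exact hk.2.1 h1
      · exact hk.2.2.1 h1
    have hgE : g ∈ M.E \ {e, f, a, b} := by
      rw [hKE] at hgK
      simp only [Finset.mem_sdiff, Finset.mem_singleton, Finset.mem_insert, not_or] at hgK ⊢
      exact ⟨hgK.1, hgK.2.1, hgK.2.2.1, hgK.2.2.2, hgb⟩
    exact hk.not_rigid hg (hc.rigid h hnc hgE)
  -- every vertex different from `w` has an edge in `R`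
  have hdeg : ∀ x ∈ G.U, x ≠ w → ∃ c ∈ M.E \ {e, f, a, b}, G.f c = x ∨ G.g c = x := by
    intro x hx hxw
    by_contra hcon
    push Not at hcon
    have h3 := h.g3.deg x hx
    have hend : ∀ (c : α) (y : V), G.Jn c w y → (G.f c = x ∨ G.g c = x) → x = y := by
      rintro c y (⟨h1, h2⟩ | ⟨h1, h2⟩) (h4 | h4)
      · exact absurd (h4.symm.trans h1) hxw
      · exact h4.symm.trans h2
      · exact h4.symm.trans h1
      · exact absurd (h4.symm.trans h2) hxw
    have hsub : G.star (M.E \ {e}) x ⊆ {f, a, b} := by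
      intro c hcs
      obtain ⟨h1, h2⟩ := Gr.mem_star.1 hcs
      by_contra h4
      have h5 : c ∈ M.E \ {e, f, a, b} := by
        simp only [Finset.mem_sdiff, Finset.mem_singleton, Finset.mem_insert, not_or] at h1 h4 ⊢
        exact ⟨h1.1, h1.2, h4.1, h4.2.1, h4.2.2⟩
      obtain ⟨h6, h7⟩ := hcon c h5
      rcases h2 with h2 | h2
      · exact h6 h2
      · exact h7 h2
    have heq : G.star (M.E \ {e}) x = {f, a, b} :=
      Finset.eq_of_subset_of_card_le hsub (Finset.card_le_three.trans h3)
    have h4 : f ∈ G.star (M.E \ {e}) x := by rw [heq]; simp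
    have h5 : a ∈ G.star (M.E \ {e}) x := by rw [heq]; simp
    have h6 := hend f p hc.jf (Gr.mem_star.1 h4).2
    have h7 := hend a u hc.ja (Gr.mem_star.1 h5).2
    exact hpu (h6.symm.trans h7)
  -- edges in `R` avoid `w`
  have hRw : ∀ c ∈ M.E \ {e, f, a, b}, G.f c ≠ w ∧ G.g c ≠ w := by
    intro c hcR
    simp only [Finset.mem_sdiff, Finset.mem_singleton, Finset.mem_insert, not_or] at hcR
    have h1 : c ∉ G.star (M.E \ {e}) w := by
      rw [hc.star]
      simp only [Finset.mem_singleton, Finset.mem_insert, not_or]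
      exact ⟨hcR.2.2.1, hcR.2.2.2.1, hcR.2.2.2.2⟩
    rw [Gr.mem_star] at h1
    have h2 : c ∈ M.E \ {e} := by
      rw [Finset.mem_sdiff, Finset.mem_singleton]
      exact ⟨hcR.1, hcR.2.1⟩
    exact ⟨fun h3 => h1 ⟨h2, Or.inl h3⟩, fun h3 => h1 ⟨h2, Or.inr h3⟩⟩
  have hRE : ∀ c ∈ M.E \ {e, f, a, b}, c ∈ M.E \ {e} ∧ c ≠ b := by
    intro c hcR
    simp only [Finset.mem_sdiff, Finset.mem_singleton, Finset.mem_insert, not_or] at hcR ⊢
    exact ⟨⟨hcR.1, hcR.2.1⟩, hcR.2.2.2.2⟩
  have hrpK := C1.rp_K h hc
  rw [← hK] at hrpK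
  obtain ⟨hdisj, hCE, hDE, n, G0, hG0, hcase⟩ := hk
  have hbK : b ∈ K.E := by
    rw [hKE]
    simp only [Finset.mem_sdiff, Finset.mem_singleton, Finset.mem_insert, not_or]
    exact ⟨hbM, hbe, hfb.symm, hab.symm⟩
  have hKbE : K.E \ {b} = M.E \ {e, f, a, b} := by
    rw [hKE]
    ext c
    simp only [Finset.mem_sdiff, Finset.mem_singleton, Finset.mem_insert, not_or]
    tauto
  by_cases hbC : b ∈ C
  · -- case (iii)
    have hC : C = {b} := by
      ext c
      rw [Finset.mem_singleton]
      exact ⟨fun h1 => hCDb c (Finset.mem_union_left _ h1), fun h1 => h1 ▸ hbC⟩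
    have hD : D = ∅ := by
      rw [Finset.eq_empty_iff_forall_notMem]
      intro c h1
      have h2 := hCDb c (Finset.mem_union_right _ h1)
      subst h2
      exact Finset.disjoint_left.1 hdisj hbC h1
    subst hC hD
    rw [LM.del_empty] at hG0 hcase
    let π : V → V := fun x => if x = v then u else x
    have hπv : π v = u := if_pos rfl
    have hπn : ∀ x, x ≠ v → π x = x := fun x hx => if_neg hx
    have hπU : ∀ x ∈ G.U.erase w, π x ∈ G.U.erase w := by
      intro x hx
      by_cases hxv : x = v
      · rw [hxv, hπv]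
        exact Finset.mem_erase.2 ⟨hwu.symm, huU⟩
      · rw [hπn x hxv]
        exact hx
    have hπ2 : ∀ x, π (π x) = π x := by
      intro x
      by_cases hxv : x = v
      · rw [hxv, hπv, hπn u huv]
      · rw [hπn x hxv, hπn x hxv]
    have hloop : ∀ c ∈ M.E \ {e, f, a, b}, π (G.f c) ≠ π (G.g c) := by
      intro c hcR hpi
      obtain ⟨h1, h2⟩ := hRE c hcR
      obtain ⟨h3, h4, h5⟩ := hon c h1
      by_cases h6 : G.f c = v
      · have h7 : G.g c ≠ v := fun h7 => h5 (h6.trans h7.symm)
        rw [h6, hπv, hπn _ h7] at hpi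
        exact hnuv ⟨c, h1, Or.inr ⟨h6, hpi.symm⟩⟩
      · by_cases h7 : G.g c = v
        · rw [h7, hπv, hπn _ h6] at hpi
          exact hnuv ⟨c, h1, Or.inl ⟨hpi, h7⟩⟩
        · rw [hπn _ h6, hπn _ h7] at hpi
          exact h5 hpi
    have hrp := hrpK.conQ (F := {b}) π hπU (fun x _ => hπ2 x)
      (by
        intro c hcb _
        rw [Finset.mem_singleton] at hcb
        subst hcb
        show π (if c = c then u else G.f c) = π (if c = c then v else G.g c)
        rw [if_pos rfl, if_pos rfl, hπv, hπn u huv])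
      (by
        intro φ hφ x _
        have h1 := hφ b (Finset.mem_singleton_self b) hbK
        have h2 : φ u = φ v := by
          have h3 : φ (if b = b then u else G.f b) = φ (if b = b then v else G.g b) := h1
          rwa [if_pos rfl, if_pos rfl] at h3
        by_cases hxv : x = v
        · rw [hxv, hπv]
          exact h2
        · rw [hπn x hxv])
      (by
        intro c hcK
        rw [hKbE] at hcK
        have h1 := (hRE c hcK).2
        show π (if c = b then u else G.f c) ≠ π (if c = b then v else G.g c)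
        rw [if_neg h1, if_neg h1]
        exact hloop c hcK)
    have hE : (K.con {b}).E = M.E \ {e, f, a, b} := hKbE
    have hrp2 : Rp (K.con {b}) ⟨(G.U.erase w).erase v, fun c => if G.f c = v then u else G.f c,
        fun c => if G.g c = v then u else G.g c⟩ := by
      refine rp_congr hrp ?_ ?_ ?_
      · rw [hE]
        intro c hcR
        obtain ⟨h1, h2⟩ := hRE c hcR
        obtain ⟨h3, h4, h5⟩ := hon c h1
        obtain ⟨h6, h7⟩ := hRw c hcR
        have hmem : ∀ x ∈ G.U, x ≠ w → π x ∈ (G.U.erase w).erase v := by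
          intro x hx hxw
          by_cases hxv : x = v
          · rw [hxv, hπv]
            exact Finset.mem_erase.2 ⟨huv, Finset.mem_erase.2 ⟨hwu.symm, huU⟩⟩
          · rw [hπn x hxv]
            exact Finset.mem_erase.2 ⟨hxv, Finset.mem_erase.2 ⟨hxw, hx⟩⟩
        exact ⟨hmem _ h3 h6, hmem _ h4 h7, hloop c hcR⟩
      · rw [hE]
        intro c hcR
        have h1 := (hRE c hcR).2
        show (if G.f c = v then u else G.f c) = π (if c = b then u else G.f c)
        rw [if_neg h1]
      · rw [hE]
        intro c hcR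
        have h1 := (hRE c hcR).2
        show (if G.g c = v then u else G.g c) = π (if c = b then v else G.g c)
        rw [if_neg h1]
    have hkur := kur_transfer hG0 hrp2 (by
      intro x hx
      obtain ⟨hxv, hx2⟩ := Finset.mem_erase.1 hx
      obtain ⟨hxw, hxU⟩ := Finset.mem_erase.1 hx2
      obtain ⟨c, hcR, hcx⟩ := hdeg x hxU hxw
      refine ⟨c, Gr.mem_star.2 ⟨by rw [hE]; exact hcR, ?_⟩⟩
      rcases hcx with hcx | hcx
      · left
        show (if G.f c = v then u else G.f c) = x
        rw [hcx, if_neg hxv]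
      · right
        show (if G.g c = v then u else G.g c) = x
        rw [hcx, if_neg hxv]) hcase
    rw [hE] at hkur
    exact C1.case_iii h hc hkur
  · have hC : C = ∅ := by
      rw [Finset.eq_empty_iff_forall_notMem]
      intro c h1
      have h2 := hCDb c (Finset.mem_union_left _ h1)
      subst h2
      exact hbC h1
    subst hC
    rw [LM.con_empty] at hG0 hcase
    by_cases hbD : b ∈ D
    · -- case (ii)
      have hD : D = {b} := by
        ext c
        rw [Finset.mem_singleton]
        exact ⟨fun h1 => hCDb c (Finset.mem_union_right _ h1), fun h1 => h1 ▸ hbD⟩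
      subst hD
      have hE : (K.del {b}).E = M.E \ {e, f, a, b} := hKbE
      have hrp2 : Rp (K.del {b}) ⟨G.U.erase w, G.f, G.g⟩ := by
        refine rp_congr (hrpK.del {b}) ?_ ?_ ?_
        · rw [hE]
          intro c hcR
          obtain ⟨h1, h2⟩ := hRE c hcR
          obtain ⟨h3, h4, h5⟩ := hon c h1
          obtain ⟨h6, h7⟩ := hRw c hcR
          exact ⟨Finset.mem_erase.2 ⟨h6, h3⟩, Finset.mem_erase.2 ⟨h7, h4⟩, h5⟩
        · rw [hE]
          intro c hcR
          show G.f c = (if c = b then u else G.f c)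
          rw [if_neg (hRE c hcR).2]
        · rw [hE]
          intro c hcR
          show G.g c = (if c = b then v else G.g c)
          rw [if_neg (hRE c hcR).2]
      have hkur := kur_transfer hG0 hrp2 (by
        intro x hx
        obtain ⟨hxw, hxU⟩ := Finset.mem_erase.1 hx
        obtain ⟨c, hcR, hcx⟩ := hdeg x hxU hxw
        exact ⟨c, Gr.mem_star.2 ⟨by rw [hE]; exact hcR, hcx⟩⟩) hcase
      rw [hE] at hkur
      exact C1.case_ii h hc hkur
    · -- case (i)
      have hD : D = ∅ := by
        rw [Finset.eq_empty_iff_forall_notMem]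
        intro c h1
        have h2 := hCDb c (Finset.mem_union_right _ h1)
        subst h2
        exact hbD h1
      subst hD
      rw [LM.del_empty] at hG0 hcase
      have hkur := kur_transfer hG0 hrpK (by
        intro x hx
        obtain ⟨hxw, hxU⟩ := Finset.mem_erase.1 hx
        obtain ⟨c, hcR, hcx⟩ := hdeg x hxU hxw
        have h1 := (hRE c hcR).2
        refine ⟨c, Gr.mem_star.2 ⟨?_, ?_⟩⟩
        · rw [← hKbE] at hcR
          exact (Finset.mem_sdiff.1 hcR).1
        · show (if c = b then u else G.f c) = x ∨ (if c = b then v else G.g c) = x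
          rw [if_neg h1, if_neg h1]
          exact hcx) hcase
      rw [hKE] at hkur
      exact C1.case_i h hc hkur

end Pool.Agent.H53.Sey
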