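import Pool.Agent.H53.Sey.Ker5
import Pool.Agent.H53.Sey.Ker6

/-!
# S1, part H: all nonrigid edges inside `T` (job SEYS-H)

`KerSmall.false`: let `s, t, w` be as in `KerSmall`; `s` and `t` have degree at least 3 and `G` is
simple, so `s` is adjacent to `y, y', w` (to `t` in particular) and `t` to `x, x', w`; let `A` be the
set of the five edges at `s`, `t` together with `e`: `|A| = 6`, `|M.E \ A| ≥ 4` (`Min1.card`) and
`lam_M A ≤ 2` by `GRep.lam_le` with `P = {x, x', y, y', w}`, `Q = U \ {s, t}`: contradiction to `I4c`.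

`Std.final`. Situation: every nonrigid edge of `N = M.del {e}` has both ends in `T`, and then
`|T| = 4`. `KurMinor N C D` (`exists_kurMinor`, minors of regular matroids are regular), all elements
of `C ∪ D` are nonrigid (`KurMinor.not_rigid`), so have both ends in `T`.
If `|T| = 4`: by `nr` some pairing of `T` is not linked; name the elements of `T` such that
`x, x' | y, y'` is not linked. So `x, x'` are not adjacent and `y, y'` are not adjacent
(`Lk.of_adj`), the edges in `C ∪ D` join one of `x, x'` to one of `y, y'`; `exists_ker`, `ker_five`,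
`ker_six`, `KerSmall.false` give a contradiction.
If `|T| ≠ 4`: `C ∪ D = ∅`, `G` is `K33` or `K5` (`kur_transfer`); `|T|` is even and `≥ 6`, so it is
`K33` with `T = U`.
-/

set_option autoImplicit false

namespace Pool.Agent.H53.Sey

open Pool.Agent.H63.Sey

universe u v w

variable {α : Type u} [DecidableEq α] {V : Type v} [DecidableEq V]

/-- a vertex of degree at least 3 with at most three neighbours -/
lemma star_three {G : Gr α V} {E : Finset α} (hon : G.On E) (hs : G.Simple E) {s a b c : V}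
    (hd : 3 ≤ (G.star E s).card) (hn : ∀ z, G.Adj E s z → z = a ∨ z = b ∨ z = c) :
    (G.star E s).card = 3 ∧ G.Adj E s a ∧ G.Adj E s b ∧ G.Adj E s c := by
  have h1 := star_card_eq (x := s) hon hs
  set F := G.U.filter fun y => ∃ a ∈ E, (G.f a = s ∧ G.g a = y) ∨ (G.f a = y ∧ G.g a = s) with hF
  have h2 : F ⊆ {a, b, c} := by
    intro z hz
    rw [hF, Finset.mem_filter] at hz
    have := hn z hz.2
    simpa using this
  have h3 : ({a, b, c} : Finset V).card ≤ 3 := Finset.card_le_three
  have h4 : F = {a, b, c} := Finset.eq_of_subset_of_card_le h2 (by omega)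
  have h5 : F.card ≤ 3 := by rw [h4]; exact h3
  have h6 : ∀ z ∈ ({a, b, c} : Finset V), G.Adj E s z := by
    intro z hz
    rw [← h4, hF, Finset.mem_filter] at hz
    exact hz.2
  exact ⟨by omega, h6 a (by simp), h6 b (by simp), h6 c (by simp)⟩

/-- `G.Adj` in terms of the ends -/
lemma adj_other {G : Gr α V} {E : Finset α} {a : α} {s : V} (ha : a ∈ G.star E s) :
    ∃ z, G.Jn a s z := (Gr.mem_star_iff_jn.1 ha).2

lemma KerSmall.false {M : BM α} {e : α} {G : Gr α V} {T : Finset V} (h : Std M e G T)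
    {x x' y y' : V} (hT : T = {x, x', y, y'}) (hT4 : T.card = 4)
    (hxx : ¬ G.Adj (M.E \ {e}) x x') (hyy : ¬ G.Adj (M.E \ {e}) y y')
    (hs : KerSmall G (M.E \ {e}) x x' y y') : False := by
  obtain ⟨s, hsx, t, hty, w, hw, h1, h2⟩ := hs
  have hon := h.g3.rep.on
  have hsim := h.g3.simple
  have hTU := h.g3.rep.TU
  have hsT : s ∈ T := by
    rw [hT]; simp only [Finset.mem_insert, Finset.mem_singleton] at hsx ⊢; tauto
  have htT : t ∈ T := by
    rw [hT]; simp only [Finset.mem_insert, Finset.mem_singleton] at hty ⊢; tauto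
  obtain ⟨c1, a1, a2, a3⟩ := star_three hon hsim (h.g3.deg s (hTU hsT)) h1
  obtain ⟨c2, b1, b2, b3⟩ := star_three hon hsim (h.g3.deg t (hTU htT)) h2
  have hst : G.Adj (M.E \ {e}) s t := by
    simp only [Finset.mem_insert, Finset.mem_singleton] at hty
    rcases hty with rfl | rfl
    · exact a1
    · exact a2
  set A0 := G.star (M.E \ {e}) s ∪ G.star (M.E \ {e}) t with hA0
  have hA0E : A0 ⊆ M.E \ {e} := by
    rw [hA0]
    exact Finset.union_subset (Finset.filter_subset _ _) (Finset.filter_subset _ _)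
  have heA0 : e ∉ A0 := fun he => by simpa using hA0E he
  have hA0c : A0.card ≤ 5 := by
    obtain ⟨a, ha, hj⟩ := hst
    have i1 : a ∈ G.star (M.E \ {e}) s := Gr.mem_star_iff_jn.2 ⟨ha, t, hj⟩
    have i2 : a ∈ G.star (M.E \ {e}) t := Gr.mem_star_iff_jn.2 ⟨ha, s, hj.symm⟩
    have i3 : 0 < (G.star (M.E \ {e}) s ∩ G.star (M.E \ {e}) t).card :=
      Finset.card_pos.2 ⟨a, Finset.mem_inter.2 ⟨i1, i2⟩⟩
    have i4 := Finset.card_union_add_card_inter (G.star (M.E \ {e}) s) (G.star (M.E \ {e}) t)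
    rw [← hA0] at i4
    omega
  have hA0c' : 3 ≤ A0.card := by
    have := Finset.card_le_card (Finset.subset_union_left (s₁ := G.star (M.E \ {e}) s)
      (s₂ := G.star (M.E \ {e}) t))
    rw [← hA0] at this
    omega
  set A := insert e A0 with hA
  have hAE : A ⊆ M.E := by
    rw [hA]
    exact Finset.insert_subset h.g3.rep.he (hA0E.trans Finset.sdiff_subset)
  have hAc : A.card = A0.card + 1 := Finset.card_insert_of_notMem heA0
  have hcard := h.min.card
  have hAc' : 4 ≤ (M.E \ A).card := by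
    rw [Finset.card_sdiff_of_subset hAE]
    omega
  have hl := h.min.i4c.2 A hAE (by omega) hAc'
  -- the vertex separation
  set P : Finset V := {x, x', y, y', w} with hP
  set Q : Finset V := G.U \ {s, t} with hQ
  have hTP : T ⊆ P := by
    intro z hz
    rw [hT] at hz
    rw [hP]
    simp only [Finset.mem_insert, Finset.mem_singleton] at hz ⊢
    tauto
  have hPU : P ⊆ G.U := by
    intro z hz
    rw [hP] at hz
    simp only [Finset.mem_insert, Finset.mem_singleton] at hz
    rcases hz with rfl | rfl | rfl | rfl | rfl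
    · exact hTU (by rw [hT]; simp)
    · exact hTU (by rw [hT]; simp)
    · exact hTU (by rw [hT]; simp)
    · exact hTU (by rw [hT]; simp)
    · exact hw
  have hPQ : P ∪ Q = G.U := by
    apply Finset.Subset.antisymm
    · exact Finset.union_subset hPU Finset.sdiff_subset
    · intro z hz
      rw [Finset.mem_union, hQ, Finset.mem_sdiff]
      by_cases hzz : z ∈ ({s, t} : Finset V)
      · left
        simp only [Finset.mem_insert, Finset.mem_singleton] at hzz
        rcases hzz with rfl | rfl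
        · exact hTP hsT
        · exact hTP htT
      · exact Or.inr ⟨hz, hzz⟩
  have hPe : ∀ a ∈ A, a ≠ e → G.f a ∈ P ∧ G.g a ∈ P := by
    intro a ha hae
    have ha0 : a ∈ A0 := by
      rw [hA, Finset.mem_insert] at ha
      exact ha.resolve_left hae
    have key : ∃ r ∈ P, ∃ z ∈ P, G.Jn a r z := by
      rw [hA0, Finset.mem_union] at ha0
      rcases ha0 with ha0 | ha0
      · obtain ⟨haE, z, hz⟩ := Gr.mem_star_iff_jn.1 ha0
        refine ⟨s, hTP hsT, z, ?_, hz⟩
        rw [hP]
        rcases h1 z ⟨a, haE, hz⟩ with rfl | rfl | rfl <;> simp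
      · obtain ⟨haE, z, hz⟩ := Gr.mem_star_iff_jn.1 ha0
        refine ⟨t, hTP htT, z, ?_, hz⟩
        rw [hP]
        rcases h2 z ⟨a, haE, hz⟩ with rfl | rfl | rfl <;> simp
    obtain ⟨r, hr, z, hz, hj⟩ := key
    rcases hj with ⟨e1, e2⟩ | ⟨e1, e2⟩
    · rw [e1, e2]; exact ⟨hr, hz⟩
    · rw [e1, e2]; exact ⟨hz, hr⟩
  have hQe : ∀ a ∈ M.E \ A, G.f a ∈ Q ∧ G.g a ∈ Q := by
    intro a ha
    rw [Finset.mem_sdiff, hA, Finset.mem_insert, not_or, hA0, Finset.mem_union, not_or] at ha
    obtain ⟨haE, hae, hs', ht'⟩ := ha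
    have haE' : a ∈ M.E \ {e} := by simp [haE, hae]
    have o := hon a haE'
    have hs2 : ¬ (G.f a = s ∨ G.g a = s) := fun hc => hs' (Gr.mem_star.2 ⟨haE', hc⟩)
    have ht2 : ¬ (G.f a = t ∨ G.g a = t) := fun hc => ht' (Gr.mem_star.2 ⟨haE', hc⟩)
    rw [hQ]
    simp only [Finset.mem_sdiff, Finset.mem_insert, Finset.mem_singleton]
    tauto
  have hlam := h.g3.rep.lam_le hAE (by rw [hA]; exact Finset.mem_insert_self _ _) hPQ hTP hPe hQe
  -- `P ∩ Q` has at most three elements
  have hPQc : (P ∩ Q).card ≤ 3 := by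
    have hPc : P.card ≤ 5 := by rw [hP]; exact Finset.card_le_five
    have hst2 : s ≠ t := by
      rintro rfl
      obtain ⟨a, ha, hj⟩ := hst
      exact (hon.jn_mem ha hj).2.2 rfl
    have hsub : ({s, t} : Finset V) ⊆ P := by
      intro z hz
      simp only [Finset.mem_insert, Finset.mem_singleton] at hz
      rcases hz with rfl | rfl
      · exact hTP hsT
      · exact hTP htT
    have hle : P ∩ Q ⊆ P \ {s, t} := by
      intro z hz
      rw [Finset.mem_inter, hQ, Finset.mem_sdiff] at hz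
      exact Finset.mem_sdiff.2 ⟨hz.1, hz.2.2⟩
    have i1 := Finset.card_le_card hle
    rw [Finset.card_sdiff_of_subset hsub, Finset.card_pair hst2] at i1
    omega
  omega

/-- `T = {x, x', y, y'}` with an unlinked pairing gives a contradiction -/
lemma Std.final_aux {M : BM α} {e : α} {G : Gr α V} {T : Finset V} (h : Std M e G T)
    {C D : Finset α} (hk : KurMinor (M.del {e}) C D)
    (hCD : ∀ c ∈ C ∪ D, G.f c ∈ T ∧ G.g c ∈ T) {x x' y y' : V} (hT : T = {x, x', y, y'})
    (hT4 : T.card = 4) (hn : ¬ Lk G (M.E \ {e}) x x' y y') : False := by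
  have hon := h.g3.rep.on
  have hTU := h.g3.rep.TU
  have hd : x ≠ x' ∧ x ≠ y ∧ x ≠ y' ∧ x' ≠ y ∧ x' ≠ y' ∧ y ≠ y' := by
    rw [hT] at hT4
    refine ⟨?_, ?_, ?_, ?_, ?_, ?_⟩ <;> rintro rfl
    · rw [Finset.insert_eq_of_mem (by simp)] at hT4
      have := Finset.card_le_three (a := x) (b := y) (c := y')
      omega
    · rw [Finset.insert_eq_of_mem (by simp)] at hT4
      have := Finset.card_le_three (a := x') (b := x) (c := y')
      omega
    · rw [Finset.insert_eq_of_mem (by simp)] at hT4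
      have := Finset.card_le_three (a := x') (b := y) (c := x)
      omega
    · rw [Finset.insert_eq_of_mem (a := x') (by simp)] at hT4
      have := Finset.card_le_three (a := x) (b := x') (c := y')
      omega
    · rw [Finset.insert_eq_of_mem (a := x') (by simp)] at hT4
      have := Finset.card_le_three (a := x) (b := y) (c := x')
      omega
    · rw [Finset.insert_eq_of_mem (a := y) (by simp)] at hT4
      have := Finset.card_le_three (a := x) (b := x') (c := y)
      omega
  obtain ⟨d1, d2, d3, d4, d5, d6⟩ := hd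
  have mx : x ∈ G.U := hTU (by rw [hT]; simp)
  have mx' : x' ∈ G.U := hTU (by rw [hT]; simp)
  have my : y ∈ G.U := hTU (by rw [hT]; simp)
  have my' : y' ∈ G.U := hTU (by rw [hT]; simp)
  have nxx : ¬ G.Adj (M.E \ {e}) x x' := fun ha =>
    hn (Lk.of_adj h.g3.vc hon ha my my' d2.symm d4.symm d3.symm d5.symm)
  have nyy : ¬ G.Adj (M.E \ {e}) y y' := fun ha =>
    hn (Lk.of_adj h.g3.vc hon ha mx mx' d2 d3 d4 d5).symm
  have hCD2 : ∀ c ∈ C ∪ D, (∃ s ∈ ({x, x'} : Finset V), ∃ t ∈ ({y, y'} : Finset V),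
      G.Jn c s t) := by
    intro c hc
    have hcE : c ∈ M.E \ {e} := by
      rcases Finset.mem_union.1 hc with h1 | h1
      · exact hk.2.1 h1
      · exact hk.2.2.1 h1
    obtain ⟨o1, o2, o3⟩ := hon c hcE
    obtain ⟨f1, f2⟩ := hCD c hc
    rw [hT] at f1 f2
    simp only [Finset.mem_insert, Finset.mem_singleton] at f1 f2
    have q1 : ¬ (G.f c = x ∧ G.g c = x') := fun hq => nxx ⟨c, hcE, Or.inl hq⟩
    have q2 : ¬ (G.f c = x' ∧ G.g c = x) := fun hq => nxx ⟨c, hcE, Or.inr hq⟩
    have q3 : ¬ (G.f c = y ∧ G.g c = y') := fun hq => nyy ⟨c, hcE, Or.inl hq⟩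
    have q4 : ¬ (G.f c = y' ∧ G.g c = y) := fun hq => nyy ⟨c, hcE, Or.inr hq⟩
    rcases f1 with f1 | f1 | f1 | f1 <;> rcases f2 with f2 | f2 | f2 | f2
    · exact absurd (f1.trans f2.symm) o3
    · exact absurd ⟨f1, f2⟩ q1
    · exact ⟨x, by simp, y, by simp, Or.inl ⟨f1, f2⟩⟩
    · exact ⟨x, by simp, y', by simp, Or.inl ⟨f1, f2⟩⟩
    · exact absurd ⟨f1, f2⟩ q2
    · exact absurd (f1.trans f2.symm) o3
    · exact ⟨x', by simp, y, by simp, Or.inl ⟨f1, f2⟩⟩
    · exact ⟨x', by simp, y', by simp, Or.inl ⟨f1, f2⟩⟩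
    · exact ⟨x, by simp, y, by simp, Or.inr ⟨f1, f2⟩⟩
    · exact ⟨x', by simp, y, by simp, Or.inr ⟨f1, f2⟩⟩
    · exact absurd (f1.trans f2.symm) o3
    · exact absurd ⟨f1, f2⟩ q3
    · exact ⟨x, by simp, y', by simp, Or.inr ⟨f1, f2⟩⟩
    · exact ⟨x', by simp, y', by simp, Or.inr ⟨f1, f2⟩⟩
    · exact absurd ⟨f1, f2⟩ q4
    · exact absurd (f1.trans f2.symm) o3
  have hout : Lk G (M.E \ {e}) x x' y y' ∨ KerSmall G (M.E \ {e}) x x' y y' := by
    rcases exists_ker h hT hT4 nxx nyy hk hCD2 with ⟨κ, hκ⟩ | ⟨κ, hκ⟩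
    · exact ker_five hκ
    · exact ker_six hκ
  rcases hout with h1 | h1
  · exact hn h1
  · exact h1.false h hT hT4 nxx nyy

theorem Std.final {M : BM α} {e : α} {G : Gr α V} {T : Finset V} (h : Std M e G T)
    (hall : ∀ f ∈ M.E \ {e}, ∀ x y, G.Jn f x y → ¬ Rigid (M.del {e}) f →
      T.card = 4 ∧ x ∈ T ∧ y ∈ T) : IsK33 G (M.E \ {e}) ∧ T = G.U := by
  have hnc := h.nc
  have hreg : Regular (M.del {e}) := h.min.reg.minor (LM.isMinor_del M {e})
  obtain ⟨C, D, hk⟩ := exists_kurMinor hreg hnc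
  have hon := h.g3.rep.on
  have hTU := h.g3.rep.TU
  have hCD : ∀ c ∈ C ∪ D, T.card = 4 ∧ G.f c ∈ T ∧ G.g c ∈ T := by
    intro c hc
    have hcE : c ∈ M.E \ {e} := by
      rcases Finset.mem_union.1 hc with h1 | h1
      · exact hk.2.1 h1
      · exact hk.2.2.1 h1
    exact hall c hcE _ _ (Gr.jn_self c) (hk.not_rigid hc)
  by_cases hT4 : T.card = 4
  · exfalso
    have hne : ∀ x ∈ G.U, (G.star (M.E \ {e}) x).Nonempty := by
      intro x hx
      have := h.g3.deg x hx
      exact Finset.card_pos.1 (by omega)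
    obtain ⟨x, y, p, q, h1, h2, h3, h4, h5, h6, hT⟩ := Finset.card_eq_four.1 hT4
    have hCD' : ∀ c ∈ C ∪ D, G.f c ∈ T ∧ G.g c ∈ T := fun c hc => (hCD c hc).2
    have l1 : Lk G (M.E \ {e}) x y p q := by
      by_contra hcon
      exact h.final_aux hk hCD' hT hT4 hcon
    have l2 : Lk G (M.E \ {e}) x p y q := by
      by_contra hcon
      refine h.final_aux hk hCD' (x := x) (x' := p) (y := y) (y' := q) ?_ hT4 hcon
      rw [hT]
      ext z
      simp only [Finset.mem_insert, Finset.mem_singleton]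
      tauto
    have l3 : Lk G (M.E \ {e}) x q y p := by
      by_contra hcon
      refine h.final_aux hk hCD' (x := x) (x' := q) (y := y) (y' := p) ?_ hT4 hcon
      rw [hT]
      ext z
      simp only [Finset.mem_insert, Finset.mem_singleton]
      tauto
    exact nr h.min.reg h.g3.rep h.g3.vc hne hT hT4 l1 l2 l3
  · have hC : C = ∅ := by
      rw [Finset.eq_empty_iff_forall_notMem]
      intro c hc
      exact hT4 (hCD c (Finset.mem_union_left _ hc)).1
    have hD : D = ∅ := by
      rw [Finset.eq_empty_iff_forall_notMem]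
      intro c hc
      exact hT4 (hCD c (Finset.mem_union_right _ hc)).1
    rw [hC, hD] at hk
    obtain ⟨-, -, -, n, G', hr, hkk⟩ := hk
    rw [LM.con_empty, LM.del_empty] at hr hkk
    have hrG : Rp (M.del {e}) G := h.g3.rep.del_rp
    have hne : ∀ x ∈ G.U, (G.star (M.del {e}).E x).Nonempty := by
      intro x hx
      have := h.g3.deg x hx
      exact Finset.card_pos.1 (by
        have e1 : (M.del {e}).E = M.E \ {e} := rfl
        rw [e1]; omega)
    have hTc := Finset.card_le_card hTU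
    have heven := h.g3.rep.even
    have h4 := h.T4
    rcases kur_transfer hr hrG hne hkk with hG | hG
    · refine ⟨hG, ?_⟩
      obtain ⟨-, -, A, B, hAB, hdis, hA, hB, -⟩ := hG
      have hU : G.U.card = 6 := by
        rw [← hAB, Finset.card_union_of_disjoint hdis, hA, hB]
      apply Finset.eq_of_subset_of_card_le hTU
      obtain ⟨k, hk⟩ := heven
      omega
    · exfalso
      have hU := hG.2.2.1
      obtain ⟨k, hk⟩ := heven
      omega

end Pool.Agent.H53.Sey
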