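import Pool.Agent.H53.Sey.S1c
import Pool.Agent.H53.Sey.S1g
import Pool.Agent.H53.Sey.S1h
import Pool.Agent.H53.Sey.R10

/-!
# S1: assembly
-/

set_option autoImplicit false

namespace Pool.Agent.H53.Sey

open Pool.Agent.H63.Sey

universe u v w

variable {α : Type u} [DecidableEq α] {V : Type v} [DecidableEq V]

theorem Min1.isR10_of_edge {M : BM α} (h : Min1 M) {e : α} (he : e ∈ M.E)
    (hnc : ¬ Cographic (M.del {e})) : IsR10 M := by
  obtain ⟨n, G, T, hs⟩ := exists_std h he hnc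
  have hall : ∀ f ∈ M.E \ {e}, ∀ x y, G.Jn f x y → ¬ Rigid (M.del {e}) f →
      T.card = 4 ∧ x ∈ T ∧ y ∈ T := by
    intro f hf x y hj hr
    rcases hs.nonrigid hf hr hj with h1 | ⟨h1, a, b, w, p, u, v, q, hc⟩
    · exact h1
    · exact (hc.false hs h1).elim
  obtain ⟨h1, h2⟩ := hs.final hall
  exact isR10_of_k33 hs.g3.rep h1 h2

/-- S1: minimal internally 4-connected regular matroids -/
theorem S1 (M : BM α) (hM : M.I4c) (hreg : Regular M)
    (hmin : ∀ e ∈ M.E, (Graphic (M.del {e}) ∨ Cographic (M.del {e})) ∧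
      (Graphic (M.con {e}) ∨ Cographic (M.con {e}))) :
    Graphic M ∨ Cographic M ∨ IsR10 M := by
  by_contra hcon
  push Not at hcon
  obtain ⟨h1, h2, h3⟩ := hcon
  have hm : Min1 M := ⟨hM, hreg, h1, h2, fun x hx => (hmin x hx).1, fun x hx => (hmin x hx).2⟩
  rcases hm.exists_edge with ⟨e, he, hnc⟩ | ⟨e, he, hng⟩
  · exact h3 (hm.isR10_of_edge he hnc)
  · refine h3 (r10_dual (hm.dual.isR10_of_edge (e := e) he ?_))
    intro hc
    apply hng
    have h4 : (M.dual.del {e}) = (M.con {e}).dual := by rw [LM.dual_con]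
    rw [h4] at hc
    unfold Cographic at hc
    rwa [LM.dual_dual] at hc

end Pool.Agent.H53.Sey
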