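import Pool.Agent.H53.Sey.Ext

/-!
# S1, part A: minimal matroids, existence of Kuratowski minors (job SEYS-A)

`Min1 M`: `M` is internally 4-connected, regular, neither graphic nor cographic, and all single
element deletions and contractions are graphic or cographic.

* `exists_kurMinor`: `tutte_dual`; `conc k33 ι` is `Rp` with the graph on `Fin 6` with `U = univ`,
  the edge `ι (3 i + j)` joining `i` and `3 + j` (a functional `φ` on `(ZMod 2)^5` is the labelling
  with value `0` at the last vertex); `conc k5 ι` is `Rp` with the complete graph on `Fin 5`.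
  `IsMinor` gives `C, D`; intersect with `N.E`.
* `Min1.minor`: a minor on a proper subset of `M.E` is a minor of `M.del {x}` or `M.con {x}` for
  some `x ∈ M.E`.
* `Min1.card`: `M` has a minor `K33` or `K5` (`exists_kurMinor`), so `|M.E| ≥ 9`, and `|M.E| = 9`
  would mean that `M` is equal to it and graphic.
-/

set_option autoImplicit false

namespace Pool.Agent.H53.Sey

open Pool.Agent.H63.Sey

universe u v w

variable {α : Type u} [DecidableEq α]

structure Min1 (M : BM α) : Prop where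
  i4c : M.I4c
  reg : Regular M
  ng : ¬ Graphic M
  nc : ¬ Cographic M
  del : ∀ x ∈ M.E, Graphic (M.del {x}) ∨ Cographic (M.del {x})
  con : ∀ x ∈ M.E, Graphic (M.con {x}) ∨ Cographic (M.con {x})

/-- the labelling with value `0` at the last vertex -/
private lemma s1a_sum {r : ℕ} (φ : Fin r → ZMod 2) (p : Fin (r + 1)) :
    ∑ j, φ j * (if p = j.castSucc then 1 else 0) =
      (Fin.snoc φ 0 : Fin (r + 1) → ZMod 2) p := by
  refine Fin.lastCases ?_ (fun k => ?_) p
  · rw [Fin.snoc_last]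
    refine Finset.sum_eq_zero fun j _ => ?_
    rw [if_neg (Fin.castSucc_lt_last j).ne', mul_zero]
  · rw [Fin.snoc_castSucc, Finset.sum_eq_single k]
    · rw [if_pos rfl, mul_one]
    · intro j _ hj
      rw [if_neg (fun h => hj (Fin.castSucc_injective _ h).symm), mul_zero]
    · intro h
      exact absurd (Finset.mem_univ _) h

private lemma s1a_conc {n r : ℕ} [Nonempty (Fin n)] {v : Fin n → Fin r → ZMod 2} {ι : Fin n → α}
    (hι : Function.Injective ι) (f g : Fin n → Fin (r + 1))
    (hv : ∀ i j, v i j = (if f i = j.castSucc then 1 else 0) +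
      (if g i = j.castSucc then 1 else 0)) :
    conc v ι = cyc (conc v ι).E (fun a => f (Function.invFun ι a))
      (fun a => g (Function.invFun ι a)) := by
  have hs : ∀ (φ : Fin r → ZMod 2) (i : Fin n), ∑ j, φ j * v i j =
      (Fin.snoc φ 0 : Fin (r + 1) → ZMod 2) (f i) + (Fin.snoc φ 0 : Fin (r + 1) → ZMod 2) (g i) := by
    intro φ i
    rw [← s1a_sum, ← s1a_sum, ← Finset.sum_add_distrib]
    refine Finset.sum_congr rfl fun j _ => ?_
    rw [hv, mul_add]
  refine LM.D_ext _ rfl fun x => ?_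
  rw [mem_conc hι, Pool.Agent.H87.Sey.mem_cyc]
  constructor
  · rintro ⟨h0, φ, hφ⟩
    refine ⟨Fin.snoc φ 0, fun a => ?_⟩
    by_cases ha : a ∈ (conc v ι).E
    · rw [if_pos ha]
      rw [conc_E, Finset.mem_image] at ha
      obtain ⟨i, _, rfl⟩ := ha
      rw [Function.leftInverse_invFun hι i, hφ, hs]
    · rw [if_neg ha]
      exact h0 a ha
  · rintro ⟨ψ, hψ⟩
    refine ⟨fun a ha => ?_, fun j => ψ j.castSucc + ψ (Fin.last r), fun i => ?_⟩
    · rw [hψ]
      exact if_neg ha
    · rw [hψ, if_pos (by rw [conc_E]; exact Finset.mem_image_of_mem _ (Finset.mem_univ _)),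
        Function.leftInverse_invFun hι i, hs]
      have key : ∀ p : Fin (r + 1), (Fin.snoc (fun j : Fin r => ψ j.castSucc + ψ (Fin.last r)) 0 :
          Fin (r + 1) → ZMod 2) p = ψ p + ψ (Fin.last r) := by
        intro p
        refine Fin.lastCases ?_ (fun k => ?_) p
        · rw [Fin.snoc_last]
          exact (CharTwo.add_self_eq_zero _).symm
        · rw [Fin.snoc_castSucc]
      rw [key, key]
      have h2 : ∀ a b c : ZMod 2, a + b = a + c + (b + c) := by decide
      exact h2 _ _ _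

private def k33f : Fin 9 → Fin 6 := ![0, 0, 0, 1, 1, 1, 2, 2, 2]
private def k33g : Fin 9 → Fin 6 := ![3, 4, 5, 3, 4, 5, 3, 4, 5]
private def k5f : Fin 10 → Fin 5 := ![0, 0, 0, 0, 1, 1, 1, 2, 2, 3]
private def k5g : Fin 10 → Fin 5 := ![1, 2, 3, 4, 2, 3, 4, 3, 4, 4]

/-- the graph on `Fin m` with edges `ι i` -/
private noncomputable def s1aG {n m : ℕ} [Nonempty (Fin n)] (ι : Fin n → α)
    (f g : Fin n → Fin m) : Gr α (Fin m) :=
  ⟨Finset.univ, fun a => f (Function.invFun ι a), fun a => g (Function.invFun ι a)⟩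

private lemma s1a_on {n m r : ℕ} [Nonempty (Fin n)] {v : Fin n → Fin r → ZMod 2} {ι : Fin n → α}
    (hι : Function.Injective ι) {f g : Fin n → Fin m} (hfg : ∀ i, f i ≠ g i) :
    (s1aG ι f g).On (conc v ι).E := by
  intro a ha
  rw [conc_E, Finset.mem_image] at ha
  obtain ⟨i, _, rfl⟩ := ha
  refine ⟨Finset.mem_univ _, Finset.mem_univ _, ?_⟩
  unfold s1aG
  simp only
  rw [Function.leftInverse_invFun hι i]
  exact hfg i

private lemma s1a_simple {n m r : ℕ} [Nonempty (Fin n)] {v : Fin n → Fin r → ZMod 2}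
    {ι : Fin n → α} (hι : Function.Injective ι) {f g : Fin n → Fin m}
    (hfg : ∀ i j, ((f i = f j ∧ g i = g j) ∨ (f i = g j ∧ g i = f j)) → i = j) :
    (s1aG ι f g).Simple (conc v ι).E := by
  intro a ha b hb x y hax hbx
  rw [conc_E, Finset.mem_image] at ha hb
  obtain ⟨i, _, rfl⟩ := ha
  obtain ⟨j, _, rfl⟩ := hb
  unfold Gr.Jn s1aG at hax hbx
  simp only at hax hbx
  rw [Function.leftInverse_invFun hι i] at hax
  rw [Function.leftInverse_invFun hι j] at hbx
  congr 1
  apply hfg
  rcases hax with ⟨h1, h2⟩ | ⟨h1, h2⟩ <;> rcases hbx with ⟨h3, h4⟩ | ⟨h3, h4⟩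
  · exact Or.inl ⟨h1.trans h3.symm, h2.trans h4.symm⟩
  · exact Or.inr ⟨h1.trans h4.symm, h2.trans h3.symm⟩
  · exact Or.inr ⟨h1.trans h4.symm, h2.trans h3.symm⟩
  · exact Or.inl ⟨h1.trans h3.symm, h2.trans h4.symm⟩

private lemma s1a_adj {n m r : ℕ} [Nonempty (Fin n)] {v : Fin n → Fin r → ZMod 2}
    {ι : Fin n → α} (hι : Function.Injective ι) {f g : Fin n → Fin m} (x y : Fin m) :
    (s1aG ι f g).Adj (conc v ι).E x y ↔ ∃ i, (f i = x ∧ g i = y) ∨ (f i = y ∧ g i = x) := by
  constructor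
  · rintro ⟨a, ha, h⟩
    rw [conc_E, Finset.mem_image] at ha
    obtain ⟨i, _, rfl⟩ := ha
    unfold Gr.Jn s1aG at h
    simp only at h
    rw [Function.leftInverse_invFun hι i] at h
    exact ⟨i, h⟩
  · rintro ⟨i, h⟩
    refine ⟨ι i, by rw [conc_E]; exact Finset.mem_image_of_mem _ (Finset.mem_univ _), ?_⟩
    unfold Gr.Jn s1aG
    simp only
    rw [Function.leftInverse_invFun hι i]
    exact h

private lemma s1a_k33 {ι : Fin 9 → α} (hι : Function.Injective ι) :
    Rp (conc k33 ι) (s1aG ι k33f k33g) ∧ IsK33 (s1aG ι k33f k33g) (conc k33 ι).E := by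
  have hon : (s1aG ι k33f k33g).On (conc k33 ι).E := s1a_on hι (by decide)
  refine ⟨⟨hon, s1a_conc hι k33f k33g (by decide)⟩, hon, s1a_simple hι (by decide),
    {0, 1, 2}, {3, 4, 5}, ?_, ?_, by decide, by decide, ?_⟩
  · show ({0, 1, 2} : Finset (Fin 6)) ∪ {3, 4, 5} = Finset.univ
    decide
  · decide
  · intro x hx y hy
    rw [s1a_adj hι]
    clear hx hy
    revert x y
    decide

private lemma s1a_k5 {ι : Fin 10 → α} (hι : Function.Injective ι) :
    Rp (conc k5 ι) (s1aG ι k5f k5g) ∧ IsK5 (s1aG ι k5f k5g) (conc k5 ι).E := by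
  have hon : (s1aG ι k5f k5g).On (conc k5 ι).E := s1a_on hι (by decide)
  refine ⟨⟨hon, s1a_conc hι k5f k5g (by decide)⟩, hon, s1a_simple hι (by decide), ?_, ?_⟩
  · show (Finset.univ : Finset (Fin 5)).card = 5
    decide
  · intro x hx y hy hxy
    rw [s1a_adj hι]
    clear hx hy
    revert x y
    decide

private lemma s1a_minor {N K : BM α} (h : K.IsMinor N) :
    ∃ C D : Finset α, Disjoint C D ∧ C ⊆ N.E ∧ D ⊆ N.E ∧ (N.con C).del D = K := by
  obtain ⟨C, D, hCD, rfl⟩ := h
  refine ⟨C ∩ N.E, D ∩ N.E, ?_, Finset.inter_subset_right, Finset.inter_subset_right, ?_⟩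
  · exact Disjoint.mono Finset.inter_subset_left Finset.inter_subset_left hCD
  · rw [LM.con_inter]
    apply LM.del_congr
    ext a
    simp only [Finset.mem_inter, LM.con_E, Finset.mem_sdiff]
    tauto

theorem exists_kurMinor {N : BM α} (hN : Regular N) (h : ¬ Cographic N) :
    ∃ C D : Finset α, KurMinor N C D := by
  rcases tutte_dual hN h with ⟨ι, hι, hm⟩ | ⟨ι, hι, hm⟩
  · obtain ⟨C, D, h1, h2, h3, h4⟩ := s1a_minor hm
    obtain ⟨h5, h6⟩ := s1a_k33 hι
    refine ⟨C, D, h1, h2, h3, 6, s1aG ι k33f k33g, ?_, Or.inl ?_⟩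
    · rw [h4]
      exact h5
    · rw [h4]
      exact h6
  · obtain ⟨C, D, h1, h2, h3, h4⟩ := s1a_minor hm
    obtain ⟨h5, h6⟩ := s1a_k5 hι
    refine ⟨C, D, h1, h2, h3, 5, s1aG ι k5f k5g, ?_, Or.inr ?_⟩
    · rw [h4]
      exact h5
    · rw [h4]
      exact h6

lemma Min1.dual {M : BM α} (h : Min1 M) : Min1 M.dual := by
  refine ⟨h.i4c.dual, h.reg.dual, h.nc, ?_, fun x hx => ?_, fun x hx => ?_⟩
  · rw [Pool.Agent.H87.Sey.cographic_dual_iff]
    exact h.ng
  · rw [← LM.dual_con, Pool.Agent.H87.Sey.cographic_dual_iff]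
    exact (h.con x hx).symm
  · rw [← LM.dual_del, Pool.Agent.H87.Sey.cographic_dual_iff]
    exact (h.del x hx).symm

lemma Min1.minor {M : BM α} (h : Min1 M) {N : BM α} (hN : N.IsMinor M) (hE : N.E ≠ M.E) :
    Graphic N ∨ Cographic N := by
  obtain ⟨C, D, hCD, hC, hD, rfl⟩ := s1a_minor hN
  have hne : ∃ x, x ∈ C ∨ x ∈ D := by
    by_contra hcon
    push Not at hcon
    apply hE
    rw [LM.del_E, LM.con_E, Finset.eq_empty_of_forall_notMem fun x => (hcon x).1,
      Finset.eq_empty_of_forall_notMem fun x => (hcon x).2, Finset.sdiff_empty, Finset.sdiff_empty]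
  obtain ⟨x, hx | hx⟩ := hne
  · have h1 : ((M.con C).del D).IsMinor (M.con {x}) := by
      refine ⟨C.erase x, D, Disjoint.mono_left (Finset.erase_subset _ _) hCD, ?_⟩
      rw [LM.con_con]
      congr 2
      rw [← Finset.insert_eq, Finset.insert_erase hx]
    exact (h.con x (hC hx)).imp (fun h2 => Pool.Agent.H87.Sey.graphic_minor h2 h1)
      (fun h2 => Pool.Agent.H87.Sey.cographic_minor h2 h1)
  · have hxC : x ∉ C := fun h' => Finset.disjoint_left.1 hCD h' hx
    have h1 : ((M.con C).del D).IsMinor (M.del {x}) := by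
      refine ⟨C, D.erase x, Disjoint.mono_right (Finset.erase_subset _ _) hCD, ?_⟩
      rw [← LM.con_del M (Finset.disjoint_singleton_right.2 hxC), LM.del_del, ← Finset.insert_eq,
        Finset.insert_erase hx]
    exact (h.del x (hD hx)).imp (fun h2 => Pool.Agent.H87.Sey.graphic_minor h2 h1)
      (fun h2 => Pool.Agent.H87.Sey.cographic_minor h2 h1)

lemma Min1.card {M : BM α} (h : Min1 M) : 10 ≤ M.E.card := by
  obtain ⟨C, D, hCD, hC, hD, n, G, hR, hk⟩ := exists_kurMinor h.reg h.nc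
  have hsub : ((M.con C).del D).E ⊆ M.E := by
    rw [LM.del_E, LM.con_E]
    exact Finset.sdiff_subset.trans Finset.sdiff_subset
  have hle := Finset.card_le_card hsub
  rcases hk with hk | hk
  · have h9 := hk.card
    by_contra hcon
    have hEq : ((M.con C).del D).E = M.E := Finset.eq_of_subset_of_card_le hsub (by omega)
    have hCe : C = ∅ := by
      apply Finset.eq_empty_of_forall_notMem
      intro x hx
      have h1 := hC hx
      rw [← hEq, LM.del_E, LM.con_E, Finset.mem_sdiff, Finset.mem_sdiff] at h1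
      exact h1.1.2 hx
    have hDe : D = ∅ := by
      apply Finset.eq_empty_of_forall_notMem
      intro x hx
      have h1 := hD hx
      rw [← hEq, LM.del_E, LM.con_E, Finset.mem_sdiff, Finset.mem_sdiff] at h1
      exact h1.2 hx
    rw [hCe, hDe, LM.con_empty, LM.del_empty] at hR
    exact h.ng ⟨n, G.f, G.g, hR.eq⟩
  · have := hk.card
    omega

end Pool.Agent.H53.Sey
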