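import Pool.Agent.H53.Sey.S1b2

/-!
# S1, part B: deletions that are not cographic are 3-connected (job SEYS-B)

`Min1.conn3_del`: `N = M.del {e}` is graphic and good (`good_del_of_i4c`), it has a representation
(`exists_gRep`), of minimum degree 3 (`Min1.deg_ge_three`), so no cocycles of size `≤ 2`
(`cocycle_two_of_deg`), and no cycles of size `≤ 2` (they would be cycles of the 3-connected `M`);
`conn3_of_good`.
-/

set_option autoImplicit false

namespace Pool.Agent.H53.Sey

open Pool.Agent.H63.Sey

universe u v w

variable {α : Type u} [DecidableEq α] {V : Type v} [DecidableEq V]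

theorem Min1.conn3_del {M : BM α} (h : Min1 M) {e : α} (he : e ∈ M.E)
    (hnc : ¬ Cographic (M.del {e})) : (M.del {e}).Conn3 := by
  classical
  have hcard := h.card
  have hgr : Graphic (M.del {e}) := (h.del e he).resolve_right hnc
  have hcoc : ∀ A ⊆ M.E, A.Nonempty → ind A ∈ M.D → 3 ≤ A.card := fun A hA hne hx =>
    cocycle_card_of_conn3 h.i4c.1 (by omega) hA hne hx
  have hcyc : ∀ A ⊆ M.E, A.Nonempty → ind A ∈ M.dual.D → 3 ≤ A.card := fun A hA hne hx =>
    cycle_card_of_conn3 h.i4c.1 (by omega) hA hne hx
  have hc : ind {e} ∉ M.D := by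
    intro h1
    have h2 := hcoc {e} (Finset.singleton_subset_iff.2 he) (Finset.singleton_nonempty e) h1
    rw [Finset.card_singleton] at h2
    omega
  have hl : ∀ a ∈ M.E \ {e}, ∃ x ∈ M.D, x a ≠ 0 := by
    intro a ha
    by_contra hcon
    push Not at hcon
    have haE : a ∈ M.E := (Finset.mem_sdiff.1 ha).1
    have h1 : ind {a} ∈ M.dual.D := by
      refine (LM.mem_dual M).2 ⟨fun b hb => ?_, fun x hx => ?_⟩
      · rw [ind_apply, if_neg]
        rw [Finset.mem_singleton]
        rintro rfl
        exact hb haE
      · apply Finset.sum_eq_zero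
        intro b _
        rw [ind_apply]
        split_ifs with h2
        · rw [Finset.mem_singleton.1 h2, hcon x hx, zero_mul]
        · rw [mul_zero]
    have h2 := hcyc {a} (Finset.singleton_subset_iff.2 haE) (Finset.singleton_nonempty a) h1
    rw [Finset.card_singleton] at h2
    omega
  obtain ⟨n, G, T, hG, hne⟩ := exists_gRep hgr he hc hl
  have hdeg := h.deg_ge_three he hnc hG hne
  have hs : G.Simple (M.E \ {e}) := by
    intro a ha b hb x y hja hjb
    by_contra hab
    have haE : a ∈ M.E := (Finset.mem_sdiff.1 ha).1
    have hbE : b ∈ M.E := (Finset.mem_sdiff.1 hb).1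
    have hae : a ≠ e := by
      have := (Finset.mem_sdiff.1 ha).2
      simpa using this
    have hbe : b ≠ e := by
      have := (Finset.mem_sdiff.1 hb).2
      simpa using this
    have h1 : ind {a, b} ∈ M.dual.D := by
      refine (LM.mem_dual M).2 ⟨fun c hc => ?_, fun z hz => ?_⟩
      · rw [ind_apply, if_neg]
        rw [Finset.mem_insert, Finset.mem_singleton]
        rintro (rfl | rfl)
        · exact hc haE
        · exact hc hbE
      · obtain ⟨φ, rfl⟩ := (hG.mem z).1 hz
        have hv : ∀ c, c ∈ M.E → c ≠ e → G.Jn c x y → G.vec M.E e T φ c = φ x + φ y := by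
          intro c hcE hce hj
          unfold Gr.vec
          rw [if_neg hce, if_pos hcE]
          rcases hj with ⟨h1, h2⟩ | ⟨h1, h2⟩
          · rw [h1, h2]
          · rw [h1, h2, add_comm]
        rw [← Finset.sum_subset (s₁ := {a, b}) (s₂ := M.E)]
        · rw [Finset.sum_pair hab, hv a haE hae hja, hv b hbE hbe hjb, ind_apply, ind_apply,
            if_pos (by simp), if_pos (by simp), mul_one, CharTwo.add_self_eq_zero]
        · intro c hc
          rw [Finset.mem_insert, Finset.mem_singleton] at hc
          rcases hc with rfl | rfl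
          · exact haE
          · exact hbE
        · intro c _ hc
          rw [ind_apply, if_neg hc, mul_zero]
    have h2 := hcyc {a, b} (by
      intro c hc
      rw [Finset.mem_insert, Finset.mem_singleton] at hc
      rcases hc with rfl | rfl
      · exact haE
      · exact hbE) ⟨a, by simp⟩ h1
    rw [Finset.card_pair hab] at h2
    omega
  have hgood : Good (M.del {e}) := good_del_of_i4c h.i4c hcard he
  refine conn3_of_good hgood ?_ ?_
  · intro A hA hne' hx
    exact cocycle_two_of_deg hG.del_rp hgood hdeg hs hA hne' hx
  · intro A hA hne' hx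
    refine hcyc A (hA.trans Finset.sdiff_subset) hne' ?_
    rw [LM.dual_del] at hx
    exact ((LM.mem_con _).1 hx).1

end Pool.Agent.H53.Sey
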