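import Pool.Agent.H53.Sey.PatB

/-!
# S1, part B1: two lemmas for vertices of degree two (job SEYS-B1)

* `GRep.swap_two`: `GRep.swap` with `q = w`, `Z = {x, y}`: `φ' w = φ w + φ x + φ y`, so
  `φ' w + φ x = φ w + φ y` at `a`, and `φ' w + φ y = φ w + φ x` at `b`.
* `cocycle_two_of_deg`: let `A` be a cocycle of `N` of size 1 or 2, the cut of `S ⊆ U`
  (`Rp.mem_iff_cut`), `S` and `U \ S` nonempty. `|S| = 1` is impossible (star of size `≥ 3`), the
  same for the complement. Let `X` be the set of the edges inside `S` together with one edge of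
  `A`; `lam_N X ≤ 1` (`Rp.lam_le`: `P = S ∪ {outer end of that edge}`, `Q = (U \ S) ∪ {inner end of the other
  edge}`); the two ends of the edges in `A` inside `S`; number of edges: the sum of the degrees in
  `S` is `≥ 3 |S|`, so there are at least two edges inside `S`, and `|X| ≥ 3`; the same for the
  complement (for `|A| = 1` the degree sum gives three edges inside). Contradiction to `Good`.
-/

set_option autoImplicit false

namespace Pool.Agent.H53.Sey

open Pool.Agent.H63.Sey

universe u v w

variable {α : Type u} [DecidableEq α] {V : Type v} [DecidableEq V]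

private lemma sum_symmDiff_two (A B : Finset V) (φ : V → ZMod 2) :
    ∑ t ∈ symmDiff A B, φ t = ∑ t ∈ A, φ t + ∑ t ∈ B, φ t := by
  have hd : Disjoint (A \ B) (B \ A) := by
    rw [Finset.disjoint_left]
    intro z hz hz'
    exact (Finset.mem_sdiff.1 hz').2 (Finset.mem_sdiff.1 hz).1
  have h1 := Finset.sum_inter_add_sum_sdiff A B φ
  have h2 := Finset.sum_inter_add_sum_sdiff B A φ
  have h3 : symmDiff A B = (A \ B) ∪ (B \ A) := rfl
  rw [h3, Finset.sum_union hd, ← h1, ← h2, Finset.inter_comm B A]
  have h4 := CharTwo.add_self_eq_zero (∑ t ∈ A ∩ B, φ t)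
  linear_combination -h4

/-- exchange of the two edges at a vertex `w ∈ T` of degree two: `T` changes to `T ∆ N(w)` -/
lemma GRep.swap_two {M : BM α} {e : α} {G : Gr α V} {T : Finset V} (h : GRep M e G T) {w x y : V}
    {a b : α} (hab : a ≠ b) (hst : G.star (M.E \ {e}) w = {a, b}) (ha : G.Jn a w x)
    (hb : G.Jn b w y) (hxy : x ≠ y) (hw : w ∈ T) :
    ∃ G' : Gr α V, GRep M e G' (symmDiff T {x, y}) ∧ G'.U = G.U ∧ G'.Jn a w y ∧ G'.Jn b w x ∧
      ∀ c, c ≠ a → c ≠ b → G'.f c = G.f c ∧ G'.g c = G.g c := by
  have haE : a ∈ M.E \ {e} := by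
    have : a ∈ G.star (M.E \ {e}) w := by rw [hst]; simp
    exact (Finset.mem_filter.1 this).1
  have hbE : b ∈ M.E \ {e} := by
    have : b ∈ G.star (M.E \ {e}) w := by rw [hst]; simp
    exact (Finset.mem_filter.1 this).1
  obtain ⟨hwU, hxU, hwx⟩ := h.on.jn_mem haE ha
  obtain ⟨-, hyU, hwy⟩ := h.on.jn_mem hbE hb
  have hae : a ≠ e := by simpa using (Finset.mem_sdiff.1 haE).2
  have hbe : b ≠ e := by simpa using (Finset.mem_sdiff.1 hbE).2
  have haM : a ∈ M.E := (Finset.mem_sdiff.1 haE).1
  have hbM : b ∈ M.E := (Finset.mem_sdiff.1 hbE).1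
  have hsum : ∀ φ : V → ZMod 2, ∑ t ∈ symmDiff T {x, y}, φ t = ∑ t ∈ T, φ t + (φ x + φ y) := by
    intro φ
    rw [sum_symmDiff_two, Finset.sum_pair hxy]
  refine ⟨⟨G.U, fun c => if c = a then w else if c = b then w else G.f c,
    fun c => if c = a then y else if c = b then x else G.g c⟩, ?_, rfl, ?_, ?_, ?_⟩
  · refine h.swap w {x, y} ?_ h.he ?_ ?_ ?_ ?_
    · simp [hwx, hwy]
    · intro c hc
      by_cases hca : c = a
      · simp only [hca, if_true]
        exact ⟨hwU, hyU, hwy⟩
      · by_cases hcb : c = b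
        · simp only [hcb, hab.symm, if_true, if_false]
          exact ⟨hwU, hxU, hwx⟩
        · simp only [hca, hcb, if_false]
          exact h.on c hc
    · intro t ht
      rw [Finset.mem_symmDiff] at ht
      rcases ht with ht | ht
      · exact h.TU ht.1
      · rcases Finset.mem_insert.1 ht.1 with h1 | h1
        · rw [h1]; exact hxU
        · rw [Finset.mem_singleton.1 h1]; exact hyU
    · have h1 := hsum fun _ => 1
      simp only [Finset.sum_const, nsmul_eq_mul, mul_one] at h1
      rw [ZMod.natCast_eq_zero_iff_even.2 h.even, CharTwo.add_self_eq_zero, add_zero] at h1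
      exact ZMod.natCast_eq_zero_iff_even.1 h1
    · intro φ
      rw [Finset.sum_pair hxy]
      ext c
      unfold Gr.vec
      by_cases hce : c = e
      · rw [if_pos hce, if_pos hce, hsum]
        have h2 : ∀ t ∈ T \ {w}, (if t = w then φ w + (φ x + φ y) else φ t) = φ t := by
          intro t ht
          rw [if_neg]
          simpa using (Finset.mem_sdiff.1 ht).2
        rw [← Finset.sum_sdiff (Finset.singleton_subset_iff.2 hw),
          ← Finset.sum_sdiff (Finset.singleton_subset_iff.2 hw), Finset.sum_congr rfl h2,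
          Finset.sum_singleton, Finset.sum_singleton, if_pos rfl]
        ring
      · rw [if_neg hce, if_neg hce]
        by_cases hcM : c ∈ M.E
        · rw [if_pos hcM, if_pos hcM]
          by_cases hca : c = a
          · subst hca
            simp only [if_true]
            have h3 : ∀ ψ : V → ZMod 2, ψ (G.f c) + ψ (G.g c) = ψ w + ψ x := by
              intro ψ
              rcases ha with ⟨h4, h5⟩ | ⟨h4, h5⟩
              · rw [h4, h5]
              · rw [h4, h5, add_comm]
            rw [h3 (fun x_1 => if x_1 = w then φ w + (φ x + φ y) else φ x_1)]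
            simp only [if_true, if_neg hwx.symm]
            have h6 := CharTwo.add_self_eq_zero (φ x)
            linear_combination -h6
          · by_cases hcb : c = b
            · subst hcb
              simp only [hca, if_false, if_true]
              have h3 : ∀ ψ : V → ZMod 2, ψ (G.f c) + ψ (G.g c) = ψ w + ψ y := by
                intro ψ
                rcases hb with ⟨h4, h5⟩ | ⟨h4, h5⟩
                · rw [h4, h5]
                · rw [h4, h5, add_comm]
              rw [h3 (fun x_1 => if x_1 = w then φ w + (φ x + φ y) else φ x_1)]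
              simp only [if_true, if_neg hwy.symm]
              have h6 := CharTwo.add_self_eq_zero (φ y)
              linear_combination -h6
            · simp only [hca, hcb, if_false]
              have h7 : c ∉ G.star (M.E \ {e}) w := by
                rw [hst]
                simp [hca, hcb]
              have h8 : ¬ (G.f c = w ∨ G.g c = w) := by
                intro h9
                apply h7
                rw [Gr.mem_star]
                exact ⟨Finset.mem_sdiff.2 ⟨hcM, by simpa using hce⟩, h9⟩
              rw [not_or] at h8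
              rw [if_neg h8.1, if_neg h8.2]
        · rw [if_neg hcM, if_neg hcM]
  · left
    simp
  · left
    simp [hab.symm]
  · intro c hca hcb
    simp [hca, hcb]

/-- in a good graph of minimum degree 3 there is no cocycle of size 2 -/
lemma cocycle_two_of_deg {N : BM α} {G : Gr α V} (h : Rp N G) (hN : Good N)
    (hdeg : ∀ x ∈ G.U, 3 ≤ (G.star N.E x).card) (hs : G.Simple N.E) {A : Finset α}
    (hA : A ⊆ N.E) (hne : A.Nonempty) (hx : ind A ∈ N.D) : 3 ≤ A.card := by
  by_contra hcon
  have hvc : G.VC N.E ∅ := vc_of_good h hN ∅ fun x hx _ => hdeg x hx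
  obtain ⟨S, hSU, hS⟩ := h.mem_iff_cut.1 hx
  have mA : ∀ a, a ∈ A ↔ a ∈ N.E ∧ ¬ (G.f a ∈ S ↔ G.g a ∈ S) := by
    intro a
    have h1 := congrFun hS a
    simp only [ind_apply, Finset.mem_filter] at h1
    by_cases h2 : a ∈ A
    · by_cases h3 : a ∈ N.E ∧ ¬ (G.f a ∈ S ↔ G.g a ∈ S)
      · exact ⟨fun _ => h3, fun _ => h2⟩
      · simp [h2, h3] at h1
    · by_cases h3 : a ∈ N.E ∧ ¬ (G.f a ∈ S ↔ G.g a ∈ S)
      · rw [if_neg h2, if_pos h3] at h1
        exact absurd h1 (by decide)
      · exact ⟨fun h4 => absurd h4 h2, fun h4 => absurd h4 h3⟩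
  -- ends of the members of `A`
  have ends : ∀ a ∈ A, ∃ u v, G.Jn a u v ∧ u ∈ S ∧ v ∉ S ∧ v ∈ G.U := by
    intro a ha
    obtain ⟨haE, h1⟩ := (mA a).1 ha
    obtain ⟨h2, h3, h4⟩ := h.on a haE
    by_cases h5 : G.f a ∈ S
    · exact ⟨G.f a, G.g a, Or.inl ⟨rfl, rfl⟩, h5, fun h6 => h1 ⟨fun _ => h6, fun _ => h5⟩, h3⟩
    · refine ⟨G.g a, G.f a, Or.inr ⟨rfl, rfl⟩, ?_, h5, h2⟩
      by_contra h6
      exact h1 ⟨fun h7 => absurd h7 h5, fun h7 => absurd h7 h6⟩
  obtain ⟨a1, a2, ha1, ha2, hA12⟩ : ∃ a1 a2, a1 ∈ A ∧ a2 ∈ A ∧ A ⊆ {a1, a2} := by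
    obtain ⟨a1, ha1⟩ := hne
    by_cases h1 : ∃ a2 ∈ A, a2 ≠ a1
    · obtain ⟨a2, ha2, h2⟩ := h1
      refine ⟨a1, a2, ha1, ha2, fun c hc => ?_⟩
      by_contra h3
      have h3' : c ≠ a1 ∧ c ≠ a2 := by simpa using h3
      have h4 : ({a1, a2, c} : Finset α) ⊆ A := by
        intro d hd
        simp only [Finset.mem_insert, Finset.mem_singleton] at hd
        rcases hd with rfl | rfl | rfl <;> assumption
      have h5 := Finset.card_le_card h4
      rw [Finset.card_eq_three.2 ⟨a1, a2, c, h2.symm, h3'.1.symm, h3'.2.symm, rfl⟩] at h5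
      exact hcon h5
    · push Not at h1
      exact ⟨a1, a1, ha1, ha1, fun c hc => by simp [h1 c hc]⟩
  obtain ⟨u1, v1, hj1, hu1, hv1, hv1U⟩ := ends a1 ha1
  obtain ⟨u2, v2, hj2, hu2, hv2, hv2U⟩ := ends a2 ha2
  have h1 := hvc (insert v1 S) (insert u2 (G.U \ S)) ?_ ?_ ?_
  · rcases h1 with h1 | h1
    · -- `S = {u2}`
      have hS1 : S = {u2} := by
        apply Finset.Subset.antisymm _ (Finset.singleton_subset_iff.2 hu2)
        intro z hz
        by_contra hz2
        have hz2' : z ≠ u2 := by simpa using hz2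
        have : z ∈ insert v1 S \ insert u2 (G.U \ S) := by
          simp [hz, hz2']
        simpa using h1 this
      have h2 : G.star N.E u2 = A := by
        rw [star_eq_cut h.on]
        ext c
        rw [mA c, Finset.mem_filter, hS1]
      have h3 := hdeg u2 (hSU hu2)
      rw [h2] at h3
      exact hcon h3
    · have hS1 : ∀ z ∈ G.U, (z ∈ S ↔ z ∉ ({v1} : Finset V)) := by
        intro z hz
        rw [Finset.mem_singleton]
        constructor
        · intro h2 h3
          exact hv1 (h3 ▸ h2)
        · intro h2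
          by_contra h3
          have : z ∈ insert u2 (G.U \ S) \ insert v1 S := by
            simp [h2, h3, hz]
          simpa using h1 this
      have h2 : G.star N.E v1 = A := by
        rw [star_eq_cut h.on]
        ext c
        rw [mA c, Finset.mem_filter]
        refine and_congr_right fun hc => ?_
        obtain ⟨h3, h4, -⟩ := h.on c hc
        rw [hS1 _ h3, hS1 _ h4]
        tauto
      have h3 := hdeg v1 hv1U
      rw [h2] at h3
      exact hcon h3
  · ext z
    simp only [Finset.mem_union, Finset.mem_insert, Finset.mem_sdiff]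
    constructor
    · rintro ((rfl | h2) | (rfl | h2))
      · exact hv1U
      · exact hSU h2
      · exact hSU hu2
      · exact h2.1
    · intro h2
      by_cases h3 : z ∈ S
      · exact Or.inl (Or.inr h3)
      · exact Or.inr (Or.inr ⟨h2, h3⟩)
  · refine le_trans (Finset.card_le_card ?_) (Finset.card_le_two (a := v1) (b := u2))
    intro z hz
    simp only [Finset.mem_inter, Finset.mem_insert, Finset.mem_sdiff, Finset.mem_singleton] at hz ⊢
    tauto
  · intro c hc
    obtain ⟨h3, h4, -⟩ := h.on c hc
    by_cases hcA : c ∈ A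
    · have := hA12 hcA
      simp only [Finset.mem_insert, Finset.mem_singleton] at this
      rcases this with rfl | rfl
      · left
        rcases hj1 with ⟨h5, h6⟩ | ⟨h5, h6⟩ <;> simp [h5, h6, hu1]
      · right
        rcases hj2 with ⟨h5, h6⟩ | ⟨h5, h6⟩ <;> simp [h5, h6, hv2, hv2U]
    · have h5 : (G.f c ∈ S ↔ G.g c ∈ S) := by
        by_contra h6
        exact hcA ((mA c).2 ⟨hc, h6⟩)
      by_cases h6 : G.f c ∈ S
      · left
        simp [h6, h5.1 h6]
      · right
        have h7 : G.g c ∉ S := fun h8 => h6 (h5.2 h8)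
        simp [h3, h4, h6, h7]

end Pool.Agent.H53.Sey
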