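import Pool.Agent.H53.Sey.S1a
import Pool.Agent.H53.Sey.S1b1

/-!
# S1, part B2: no vertices of degree two (job SEYS-B2)

`Min1.conn3_del`. Let `e ∈ M.E`, `M \ e` not cographic, so graphic; `N := M.del {e}` is good
(`good_del_of_i4c`). `N` has no cycles of size `≤ 2` (they would be cycles of `M`) and no coloop (a
cocycle `{a}` of `N` gives a cocycle `{a}` or `{a, e}` of `M`). Take a representation
`GRep M e G T` (`exists_gRep`; `ind {e} ∉ M.D` and no loops by 3-connectivity) and let `W` be the
set of vertices of degree 2 in `G`. Suppose `W ≠ ∅`.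
* `w ∈ W` implies `w ∈ T` (`GRep.star_mem` gives otherwise a cocycle of `M` of size 2).
* Two vertices of `W` are not adjacent: the union of their stars would be a set of three elements
  `X` with `lam_N X ≤ 1` (`Rp.lam_le` with `P` = the two vertices and their two other neighbours):
  contradiction to `Good` (the complement has more than two elements).
* `VC _ W` by `vc_of_good`; for every choice `c` the contraction `M.con (cset ..)` is a proper minor
  of `M`, and it is not cographic (`Deg2.cographic_of_con` for the representation of `N`), so it is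
  graphic, and `coset` applies: `|T_c| ≤ 2` for all `c`.
* `|W| = 1`: `finset_coset_one`: `T = {w, z}` has two elements: `M` graphic; or `T = {w, n₀, n₁, z}`
  and `M` is graphic: exchange the two edges at `w` (`GRep.swap` with `q = w`, `Z = {n₀, n₁}`: the
  new set is `{w, z}`).
* Different vertices `w, w' ∈ W` have different neighbourhoods: otherwise the four edges at `w, w'`
  form a set `X` with `lam_N X ≤ 1`, and `|N.E \ X| ≥ 5`: contradiction to `Good`.
* `|W| = 2`: `finset_coset_two`: `T \ W` is a sum of some of the two neighbourhoods; swap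
  at the corresponding vertices (`GRep.swap` once or twice) to get `T = W`: graphic.
* `|W| ≥ 3`: fix three vertices `w, w', w''` of `W` and the choices at the other vertices:
  `finset_coset_three` says that their neighbourhoods form a triangle `{p, q, r}`. For `|W| ≥ 4`
  this is impossible (the fourth neighbourhood would equal one of the three). For `|W| = 3`:
  `T ⊆ W ∪ {p, q, r}` and `A = {e} ∪ star w ∪ star w' ∪ star w''` (7 elements) has
  `lam_M A ≤ |{p, q, r}| - 1 = 2` by `GRep.lam_le` (`P = W ∪ {p, q, r}`, `Q = U \ W`): contradiction to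
  `I4c`: the complement of `A` has at least 4 elements, since `N / ... ` is not cographic (it has a
  `K33` or `K5` minor, and contracting one edge at each vertex of `W` leaves
  `|E \ A| + 3 ≥ 9` elements).
So `W = ∅`: there are no vertices of degree 2, and no vertices of degree 1 (coloops).
-/

set_option autoImplicit false

namespace Pool.Agent.H53.Sey

open Pool.Agent.H63.Sey

universe u v w

variable {α : Type u} [DecidableEq α] {V : Type v} [DecidableEq V]

namespace S1b2Aux

open scoped symmDiff

/-! ### odd images -/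

/-- the set of points with an odd number of preimages in `S` -/
def oi (S : Finset V) (ν : V → V) : Finset V :=
  (S.image ν).filter fun x => Odd (S.filter fun t => ν t = x).card

lemma mem_oi {S : Finset V} {ν : V → V} {x : V} :
    x ∈ oi S ν ↔ Odd (S.filter fun t => ν t = x).card := by
  unfold oi
  rw [Finset.mem_filter]
  refine ⟨fun h => h.2, fun h => ⟨?_, h⟩⟩
  have h1 : (S.filter fun t => ν t = x).Nonempty := by
    rw [← Finset.card_pos]
    exact h.pos
  obtain ⟨t, ht⟩ := h1
  rw [Finset.mem_filter] at ht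
  exact Finset.mem_image.2 ⟨t, ht.1, ht.2⟩

lemma oi_erase {S : Finset V} {ν : V → V} {a : V} (ha : a ∈ S) :
    oi S ν = oi (S.erase a) ν ∆ {ν a} := by
  ext x
  rw [Finset.mem_symmDiff, mem_oi, mem_oi, Finset.mem_singleton]
  by_cases hx : ν a = x
  · have e : (S.filter fun t => ν t = x) = insert a ((S.erase a).filter fun t => ν t = x) := by
      ext t
      simp only [Finset.mem_filter, Finset.mem_insert, Finset.mem_erase]
      constructor
      · rintro ⟨h1, h2⟩
        by_cases h3 : t = a
        · exact Or.inl h3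
        · exact Or.inr ⟨⟨h3, h1⟩, h2⟩
      · rintro (h1 | ⟨⟨_, h2⟩, h3⟩)
        · rw [h1]
          exact ⟨ha, hx⟩
        · exact ⟨h2, h3⟩
    have hn : a ∉ (S.erase a).filter fun t => ν t = x := by
      intro h
      exact (Finset.mem_erase.1 (Finset.mem_filter.1 h).1).1 rfl
    rw [e, Finset.card_insert_of_notMem hn, Nat.odd_add_one]
    constructor
    · intro h
      exact Or.inr ⟨hx.symm, h⟩
    · rintro (⟨_, h⟩ | ⟨_, h⟩)
      · exact absurd hx.symm h
      · exact h
  · have e : (S.filter fun t => ν t = x) = (S.erase a).filter fun t => ν t = x := by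
      ext t
      simp only [Finset.mem_filter, Finset.mem_erase]
      constructor
      · rintro ⟨h1, h2⟩
        refine ⟨⟨?_, h1⟩, h2⟩
        rintro rfl
        exact hx h2
      · rintro ⟨⟨_, h1⟩, h2⟩
        exact ⟨h1, h2⟩
    rw [e]
    constructor
    · intro h
      exact Or.inl ⟨h, fun h' => hx h'.symm⟩
    · rintro (⟨h, _⟩ | ⟨h, _⟩)
      · exact h
      · exact absurd h.symm hx

lemma oi_congr {S : Finset V} {ν ν' : V → V} (h : ∀ t ∈ S, ν t = ν' t) : oi S ν = oi S ν' := by
  ext x
  rw [mem_oi, mem_oi]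
  have e : (S.filter fun t => ν t = x) = S.filter fun t => ν' t = x := by
    apply Finset.filter_congr
    intro t ht
    rw [h t ht]
  rw [e]

lemma oi_id {S : Finset V} {ν : V → V} (h : ∀ t ∈ S, ν t = t) : oi S ν = S := by
  ext x
  rw [mem_oi]
  by_cases hx : x ∈ S
  · have e : (S.filter fun t => ν t = x) = {x} := by
      ext t
      simp only [Finset.mem_filter, Finset.mem_singleton]
      constructor
      · rintro ⟨h1, h2⟩
        rw [← h2, h t h1]
      · rintro rfl
        exact ⟨hx, h t hx⟩
    rw [e, Finset.card_singleton]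
    exact ⟨fun _ => hx, fun _ => odd_one⟩
  · have e : (S.filter fun t => ν t = x) = ∅ := by
      rw [Finset.filter_eq_empty_iff]
      intro t ht h2
      apply hx
      rw [← h2, h t ht]
      exact ht
    rw [e, Finset.card_empty]
    exact ⟨fun h' => absurd h' (by decide), fun h' => absurd h' hx⟩

lemma odd_card_symmDiff_singleton (X : Finset V) (a : V) :
    Odd (X ∆ {a}).card ↔ ¬ Odd X.card := by
  by_cases ha : a ∈ X
  · have e : X ∆ {a} = X.erase a := by
      ext t
      rw [Finset.mem_symmDiff, Finset.mem_erase, Finset.mem_singleton]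
      constructor
      · rintro (⟨h1, h2⟩ | ⟨h1, h2⟩)
        · exact ⟨h2, h1⟩
        · exact absurd ha (h1 ▸ h2)
      · rintro ⟨h1, h2⟩
        exact Or.inl ⟨h2, h1⟩
    have h1 := Finset.card_erase_add_one ha
    rw [e, ← h1, Nat.odd_add_one, not_not]
  · have e : X ∆ {a} = insert a X := by
      ext t
      rw [Finset.mem_symmDiff, Finset.mem_insert, Finset.mem_singleton]
      constructor
      · rintro (⟨h1, h2⟩ | ⟨h1, h2⟩)
        · exact Or.inr h1
        · exact Or.inl h1
      · rintro (h1 | h1)
        · exact Or.inr ⟨h1, h1 ▸ ha⟩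
        · refine Or.inl ⟨h1, ?_⟩
          rintro rfl
          exact ha h1
    rw [e, Finset.card_insert_of_notMem ha, Nat.odd_add_one]

lemma odd_card_oi (S : Finset V) (ν : V → V) : Odd (oi S ν).card ↔ Odd S.card := by
  induction S using Finset.induction_on with
  | empty => simp [oi]
  | insert a S ha ih =>
    rw [oi_erase (Finset.mem_insert_self a S), Finset.erase_insert ha,
      odd_card_symmDiff_singleton, Finset.card_insert_of_notMem ha, Nat.odd_add_one, ih]

/-! ### vertices of degree two -/

section deg2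

variable {G : Gr α V} {E : Finset α} {W : Finset V} {k₀ k₁ : V → α} {n₀ n₁ : V → V}

lemma k_mem (hd : Deg2 G E W k₀ k₁ n₀ n₁) {w : V} (hw : w ∈ W) : k₀ w ∈ E ∧ k₁ w ∈ E := by
  have h := hd.star w hw
  constructor
  · have h1 : k₀ w ∈ G.star E w := by
      rw [h]
      exact Finset.mem_insert_self _ _
    exact (Gr.mem_star.1 h1).1
  · have h1 : k₁ w ∈ G.star E w := by
      rw [h]
      exact Finset.mem_insert_of_mem (Finset.mem_singleton_self _)
    exact (Gr.mem_star.1 h1).1

lemma n_U (hon : G.On E) (hd : Deg2 G E W k₀ k₁ n₀ n₁) {w : V} (hw : w ∈ W) :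
    n₀ w ∈ G.U ∧ n₁ w ∈ G.U := by
  have h := k_mem hd hw
  exact ⟨(hon.jn_mem h.1 (hd.jn₀ w hw)).2.1, (hon.jn_mem h.2 (hd.jn₁ w hw)).2.1⟩

/-- ends of an edge at `w` -/
lemma ends (hd : Deg2 G E W k₀ k₁ n₀ n₁) {w : V} (hw : w ∈ W) {c : α} (hc : c ∈ G.star E w) :
    ∃ n, n ∉ W ∧ G.Jn c w n ∧ (n = n₀ w ∨ n = n₁ w) := by
  rw [hd.star w hw, Finset.mem_insert, Finset.mem_singleton] at hc
  rcases hc with rfl | rfl
  · exact ⟨n₀ w, hd.nW₀ w hw, hd.jn₀ w hw, Or.inl rfl⟩
  · exact ⟨n₁ w, hd.nW₁ w hw, hd.jn₁ w hw, Or.inr rfl⟩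

lemma star_notMem (hd : Deg2 G E W k₀ k₁ n₀ n₁) {w w' : V} (hw : w ∈ W) (hw' : w' ∈ W)
    (hne : w ≠ w') {c : α} (hc : c ∈ G.star E w) : c ∉ G.star E w' := by
  intro hc'
  obtain ⟨n, hn, hj, -⟩ := ends hd hw hc
  have h1 := (Gr.mem_star.1 hc').2
  rcases hj with ⟨h2, h3⟩ | ⟨h2, h3⟩
  · rcases h1 with h1 | h1
    · exact hne (h2.symm.trans h1)
    · exact hn (h3.symm.trans h1 ▸ hw')
  · rcases h1 with h1 | h1
    · exact hn (h2.symm.trans h1 ▸ hw')
    · exact hne (h3.symm.trans h1)

lemma retT_eq (hon : G.On E) (hd : Deg2 G E W k₀ k₁ n₀ n₁) (c : V → Bool) {T : Finset V}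
    (hT : T ⊆ G.U) : retT G.U W n₀ n₁ c T = oi T (ret W n₀ n₁ c) := by
  ext x
  unfold retT
  rw [Finset.mem_filter, mem_oi]
  refine ⟨fun h => h.2, fun h => ⟨?_, h⟩⟩
  have h1 : (T.filter fun t => ret W n₀ n₁ c t = x).Nonempty := by
    rw [← Finset.card_pos]
    exact h.pos
  obtain ⟨t, ht⟩ := h1
  rw [Finset.mem_filter] at ht
  obtain ⟨ht, rfl⟩ := ht
  rw [Finset.mem_sdiff]
  unfold ret
  by_cases htW : t ∈ W
  · rw [if_pos htW]
    by_cases hc : c t
    · rw [if_pos hc]
      exact ⟨(n_U hon hd htW).2, hd.nW₁ t htW⟩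
    · rw [if_neg hc]
      exact ⟨(n_U hon hd htW).1, hd.nW₀ t htW⟩
  · rw [if_neg htW]
    exact ⟨hT ht, htW⟩

end deg2

/-! ### graft representations of minimal matroids -/

section rep

variable {M : BM α} {e : α} {G : Gr α V} {T : Finset V}

lemma simple_aux (h3 : M.Conn3) (hcard : 4 ≤ M.E.card) (hG : GRep M e G T) :
    G.Simple (M.E \ {e}) := by
  intro a ha b hb x y hax hbx
  by_contra hab
  have haE := (Finset.mem_sdiff.1 ha).1
  have hbE := (Finset.mem_sdiff.1 hb).1
  have hae : a ≠ e := fun h => (Finset.mem_sdiff.1 ha).2 (Finset.mem_singleton.2 h)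
  have hbe : b ≠ e := fun h => (Finset.mem_sdiff.1 hb).2 (Finset.mem_singleton.2 h)
  have hsub : ({a, b} : Finset α) ⊆ M.E := by
    intro c hc
    rw [Finset.mem_insert, Finset.mem_singleton] at hc
    rcases hc with rfl | rfl
    · exact haE
    · exact hbE
  have hmem : ind ({a, b} : Finset α) ∈ M.dual.D := by
    rw [LM.mem_dual]
    constructor
    · intro c hc
      rw [ind_apply, if_neg fun h => hc (hsub h)]
    · intro z hz
      obtain ⟨φ, rfl⟩ := (hG.mem z).1 hz
      have e1 : ∑ c ∈ M.E, G.vec M.E e T φ c * ind ({a, b} : Finset α) c =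
          ∑ c ∈ ({a, b} : Finset α), G.vec M.E e T φ c := by
        rw [← Finset.sum_subset hsub]
        · apply Finset.sum_congr rfl
          intro c hc
          rw [ind_apply, if_pos hc, mul_one]
        · intro c _ hc
          rw [ind_apply, if_neg hc, mul_zero]
      rw [e1, Finset.sum_pair hab]
      unfold Gr.vec
      simp only [hae, hbe, haE, hbE, if_false, if_true]
      have key : ∀ c, G.Jn c x y → φ (G.f c) + φ (G.g c) = φ x + φ y := by
        rintro c (⟨h1, h2⟩ | ⟨h1, h2⟩)
        · rw [h1, h2]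
        · rw [h1, h2, add_comm]
      rw [key a hax, key b hbx]
      exact CharTwo.add_self_eq_zero _
  have h1 := cycle_card_of_conn3 h3 hcard hsub ⟨a, Finset.mem_insert_self _ _⟩ hmem
  rw [Finset.card_pair hab] at h1
  omega

lemma star_sub (x : V) : G.star (M.E \ {e}) x ⊆ M.E \ {e} := by
  intro c hc
  exact (Gr.mem_star.1 hc).1

lemma deg_aux (h3 : M.Conn3) (hcard : 4 ≤ M.E.card) (hG : GRep M e G T) {x : V}
    (hne : (G.star (M.E \ {e}) x).Nonempty) :
    2 ≤ (G.star (M.E \ {e}) x).card ∧ ((G.star (M.E \ {e}) x).card = 2 → x ∈ T) := by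
  have hmem := hG.star_mem x
  have hsub : (G.star (M.E \ {e}) x ∪ if x ∈ T then {e} else ∅) ⊆ M.E := by
    intro c hc
    rcases Finset.mem_union.1 hc with hc | hc
    · exact (Finset.mem_sdiff.1 (star_sub x hc)).1
    · by_cases hx : x ∈ T
      · rw [if_pos hx, Finset.mem_singleton] at hc
        rw [hc]
        exact hG.he
      · rw [if_neg hx] at hc
        exact absurd hc (Finset.notMem_empty _)
  have h1 := cocycle_card_of_conn3 h3 hcard hsub
    (hne.mono Finset.subset_union_left) hmem
  by_cases hx : x ∈ T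
  · rw [if_pos hx] at h1
    have h2 := Finset.card_union_le (G.star (M.E \ {e}) x) {e}
    rw [Finset.card_singleton] at h2
    exact ⟨by omega, fun _ => hx⟩
  · rw [if_neg hx, Finset.union_empty] at h1
    exact ⟨by omega, fun h => by omega⟩

/-- another edge at a vertex of degree 2 -/
lemma other_edge {E : Finset α} {w : V} (hw : (G.star E w).card = 2) {a : α}
    (ha : a ∈ G.star E w) : ∃ b n, b ≠ a ∧ G.star E w = {a, b} ∧ G.Jn b w n ∧ b ∈ E := by
  obtain ⟨p, q, hpq, hst⟩ := Finset.card_eq_two.1 hw
  have hp : p ∈ G.star E w := by rw [hst]; exact Finset.mem_insert_self _ _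
  have hq : q ∈ G.star E w := by
    rw [hst]; exact Finset.mem_insert_of_mem (Finset.mem_singleton_self _)
  rw [hst, Finset.mem_insert, Finset.mem_singleton] at ha
  rcases ha with rfl | rfl
  · obtain ⟨h1, n, h2⟩ := Gr.mem_star_iff_jn.1 hq
    exact ⟨q, n, hpq.symm, hst, h2, h1⟩
  · obtain ⟨h1, n, h2⟩ := Gr.mem_star_iff_jn.1 hp
    exact ⟨p, n, hpq, hst.trans (Finset.pair_comm _ _), h2, h1⟩

lemma nonadj {N : BM α} (hR : Rp N G) (hgood : Good N) (hs : G.Simple N.E)
    (hcard : 9 ≤ N.E.card) {w w' : V} (hw : (G.star N.E w).card = 2)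
    (hw' : (G.star N.E w').card = 2) : ¬ G.Adj N.E w w' := by
  rintro ⟨a, ha, hj⟩
  have hon := hR.on
  obtain ⟨hwU, hwU', hne⟩ := hon.jn_mem ha hj
  have haw : a ∈ G.star N.E w := Gr.mem_star_iff_jn.2 ⟨ha, w', hj⟩
  have haw' : a ∈ G.star N.E w' := Gr.mem_star_iff_jn.2 ⟨ha, w, hj.symm⟩
  obtain ⟨b, n, hba, hst, hjb, hb⟩ := other_edge hw haw
  obtain ⟨b', n', hba', hst', hjb', hb'⟩ := other_edge hw' haw'
  obtain ⟨-, hnU, -⟩ := hon.jn_mem hb hjb
  obtain ⟨-, hnU', -⟩ := hon.jn_mem hb' hjb'
  have hbb : b ≠ b' := by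
    rintro rfl
    rcases hjb.ends hjb' with ⟨h1, h2⟩ | ⟨h1, h2⟩
    · exact hne h1
    · rw [h2] at hjb
      exact hba (hs b hb a ha w w' hjb hj)
  have h3 : ({a, b, b'} : Finset α).card = 3 := Finset.card_eq_three.2
    ⟨a, b, b', hba.symm, hba'.symm, hbb, rfl⟩
  have hsub : ({a, b, b'} : Finset α) ⊆ N.E := by
    intro c hc
    simp only [Finset.mem_insert, Finset.mem_singleton] at hc
    rcases hc with rfl | rfl | rfl
    · exact ha
    · exact hb
    · exact hb'
  have hlam : N.lam {a, b, b'} ≤ 1 := by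
    have h4 := Rp.lam_le hR hsub (P := {w, w', n, n'}) (Q := G.U \ {w, w'}) (by
      ext x
      simp only [Finset.mem_union, Finset.mem_insert, Finset.mem_singleton, Finset.mem_sdiff,
        not_or]
      constructor
      · rintro ((rfl | rfl | rfl | rfl) | h)
        · exact hwU
        · exact hwU'
        · exact hnU
        · exact hnU'
        · exact h.1
      · intro hx
        by_cases h1 : x = w
        · exact Or.inl (Or.inl h1)
        · by_cases h2 : x = w'
          · exact Or.inl (Or.inr (Or.inl h2))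
          · exact Or.inr ⟨hx, h1, h2⟩) (by
      intro c hc
      simp only [Finset.mem_insert, Finset.mem_singleton] at hc
      rcases hc with rfl | rfl | rfl
      · rcases hj with ⟨h1, h2⟩ | ⟨h1, h2⟩ <;> rw [h1, h2] <;> simp
      · rcases hjb with ⟨h1, h2⟩ | ⟨h1, h2⟩ <;> rw [h1, h2] <;> simp
      · rcases hjb' with ⟨h1, h2⟩ | ⟨h1, h2⟩ <;> rw [h1, h2] <;> simp) (by
      intro c hc
      obtain ⟨hcE, hc'⟩ := Finset.mem_sdiff.1 hc
      obtain ⟨hf, hg, -⟩ := hon c hcE
      simp only [Finset.mem_insert, Finset.mem_singleton, not_or] at hc'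
      have n1 : c ∉ G.star N.E w := by
        rw [hst]
        simp only [Finset.mem_insert, Finset.mem_singleton, not_or]
        exact ⟨hc'.1, hc'.2.1⟩
      have n2 : c ∉ G.star N.E w' := by
        rw [hst']
        simp only [Finset.mem_insert, Finset.mem_singleton, not_or]
        exact ⟨hc'.1, hc'.2.2⟩
      rw [Gr.mem_star] at n1 n2
      push Not at n1 n2
      simp only [Finset.mem_sdiff, Finset.mem_insert, Finset.mem_singleton, not_or]
      exact ⟨⟨hf, (n1 hcE).1, (n2 hcE).1⟩, hg, (n1 hcE).2, (n2 hcE).2⟩)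
    have h5 : (({w, w', n, n'} : Finset V) ∩ (G.U \ {w, w'})).card ≤ 2 := by
      refine (Finset.card_le_card (t := {n, n'}) ?_).trans Finset.card_le_two
      intro x hx
      simp only [Finset.mem_inter, Finset.mem_insert, Finset.mem_singleton, Finset.mem_sdiff,
        not_or] at hx ⊢
      tauto
    omega
  have h6 := hgood _ hsub hlam
  have h7 := Finset.le_card_sdiff {a, b, b'} N.E
  omega

lemma nbh_ne {N : BM α} (hR : Rp N G) (hgood : Good N) (hcard : 9 ≤ N.E.card) {W : Finset V}
    {k₀ k₁ : V → α} {n₀ n₁ : V → V} (hd : Deg2 G N.E W k₀ k₁ n₀ n₁) {w w' : V} (hw : w ∈ W)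
    (hw' : w' ∈ W) (hne : w ≠ w') : ({n₀ w, n₁ w} : Finset V) ≠ {n₀ w', n₁ w'} := by
  intro heq
  have hon := hR.on
  have km := k_mem hd hw
  have km' := k_mem hd hw'
  have nU := n_U hon hd hw
  have nU' := n_U hon hd hw'
  have hs := hd.star w hw
  have hs' := hd.star w' hw'
  have hsub : ({k₀ w, k₁ w, k₀ w', k₁ w'} : Finset α) ⊆ N.E := by
    intro c hc
    simp only [Finset.mem_insert, Finset.mem_singleton] at hc
    rcases hc with rfl | rfl | rfl | rfl
    · exact km.1
    · exact km.2
    · exact km'.1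
    · exact km'.2
  have hm0 : n₀ w' ∈ ({n₀ w, n₁ w} : Finset V) := by
    rw [heq]; exact Finset.mem_insert_self _ _
  have hm1 : n₁ w' ∈ ({n₀ w, n₁ w} : Finset V) := by
    rw [heq]; exact Finset.mem_insert_of_mem (Finset.mem_singleton_self _)
  rw [Finset.mem_insert, Finset.mem_singleton] at hm0 hm1
  have hlam : N.lam {k₀ w, k₁ w, k₀ w', k₁ w'} ≤ 1 := by
    have h4 := Rp.lam_le hR hsub (P := {w, w', n₀ w, n₁ w}) (Q := G.U \ {w, w'}) (by
      ext x
      simp only [Finset.mem_union, Finset.mem_insert, Finset.mem_singleton, Finset.mem_sdiff,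
        not_or]
      constructor
      · rintro ((rfl | rfl | rfl | rfl) | h)
        · exact hd.WU hw
        · exact hd.WU hw'
        · exact nU.1
        · exact nU.2
        · exact h.1
      · intro hx
        by_cases h1 : x = w
        · exact Or.inl (Or.inl h1)
        · by_cases h2 : x = w'
          · exact Or.inl (Or.inr (Or.inl h2))
          · exact Or.inr ⟨hx, h1, h2⟩) (by
      intro c hc
      simp only [Finset.mem_insert, Finset.mem_singleton] at hc
      rcases hc with rfl | rfl | rfl | rfl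
      · rcases hd.jn₀ w hw with ⟨h1, h2⟩ | ⟨h1, h2⟩ <;> rw [h1, h2] <;> simp
      · rcases hd.jn₁ w hw with ⟨h1, h2⟩ | ⟨h1, h2⟩ <;> rw [h1, h2] <;> simp
      · rcases hd.jn₀ w' hw' with ⟨h1, h2⟩ | ⟨h1, h2⟩ <;> rw [h1, h2] <;>
          rcases hm0 with h3 | h3 <;> rw [h3] <;> simp
      · rcases hd.jn₁ w' hw' with ⟨h1, h2⟩ | ⟨h1, h2⟩ <;> rw [h1, h2] <;>
          rcases hm1 with h3 | h3 <;> rw [h3] <;> simp) (by
      intro c hc
      obtain ⟨hcE, hc'⟩ := Finset.mem_sdiff.1 hc
      obtain ⟨hf, hg, -⟩ := hon c hcE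
      simp only [Finset.mem_insert, Finset.mem_singleton, not_or] at hc'
      have n1 : c ∉ G.star N.E w := by
        rw [hs]
        simp only [Finset.mem_insert, Finset.mem_singleton, not_or]
        exact ⟨hc'.1, hc'.2.1⟩
      have n2 : c ∉ G.star N.E w' := by
        rw [hs']
        simp only [Finset.mem_insert, Finset.mem_singleton, not_or]
        exact ⟨hc'.2.2.1, hc'.2.2.2⟩
      rw [Gr.mem_star] at n1 n2
      push Not at n1 n2
      simp only [Finset.mem_sdiff, Finset.mem_insert, Finset.mem_singleton, not_or]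
      exact ⟨⟨hf, (n1 hcE).1, (n2 hcE).1⟩, hg, (n1 hcE).2, (n2 hcE).2⟩)
    have h5 : (({w, w', n₀ w, n₁ w} : Finset V) ∩ (G.U \ {w, w'})).card ≤ 2 := by
      refine (Finset.card_le_card (t := {n₀ w, n₁ w}) ?_).trans Finset.card_le_two
      intro x hx
      simp only [Finset.mem_inter, Finset.mem_insert, Finset.mem_singleton, Finset.mem_sdiff,
        not_or] at hx ⊢
      tauto
    omega
  have h6 := hgood _ hsub hlam
  have h7 := Finset.le_card_sdiff {k₀ w, k₁ w, k₀ w', k₁ w'} N.E
  have h8 : ({k₀ w, k₁ w, k₀ w', k₁ w'} : Finset α).card ≤ 4 := Finset.card_le_four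
  have h9 : 3 ≤ ({k₀ w, k₁ w, k₀ w', k₁ w'} : Finset α).card := by
    have hk : k₀ w' ∉ G.star N.E w := by
      apply star_notMem hd hw' hw hne.symm
      rw [hs']
      exact Finset.mem_insert_self _ _
    rw [hs] at hk
    simp only [Finset.mem_insert, Finset.mem_singleton, not_or] at hk
    have h10 : ({k₀ w, k₁ w, k₀ w'} : Finset α).card = 3 := Finset.card_eq_three.2
      ⟨k₀ w, k₁ w, k₀ w', hd.ne w hw, fun h => hk.1 h.symm, fun h => hk.2 h.symm, rfl⟩
    rw [← h10]
    apply Finset.card_le_card
    intro c hc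
    simp only [Finset.mem_insert, Finset.mem_singleton] at hc ⊢
    tauto
  omega

/-- exchange at one vertex -/
lemma swap_once (hG : GRep M e G T) {W : Finset V} {k₀ k₁ : V → α} {n₀ n₁ : V → V}
    (hd : Deg2 G (M.E \ {e}) W k₀ k₁ n₀ n₁) {w : V} (hw : w ∈ W) (hwT : w ∈ T) :
    ∃ G' : Gr α V, GRep M e G' (T ∆ {n₀ w, n₁ w}) := by
  obtain ⟨G', h1, -⟩ := hG.swap_two (hd.ne w hw) (hd.star w hw) (hd.jn₀ w hw) (hd.jn₁ w hw)
    (hd.nn w hw) hwT
  exact ⟨G', h1⟩

/-- exchange at two vertices -/
lemma swap_twice (hG : GRep M e G T) {W : Finset V} {k₀ k₁ : V → α} {n₀ n₁ : V → V}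
    (hd : Deg2 G (M.E \ {e}) W k₀ k₁ n₀ n₁) {w w' : V} (hw : w ∈ W) (hw' : w' ∈ W)
    (hne : w ≠ w') (hwT : w ∈ T) (hwT' : w' ∈ T) :
    ∃ G' : Gr α V, GRep M e G' (T ∆ {n₀ w, n₁ w} ∆ {n₀ w', n₁ w'}) := by
  obtain ⟨G', h1, hU, ha, hb, hoth⟩ := hG.swap_two (hd.ne w hw) (hd.star w hw) (hd.jn₀ w hw)
    (hd.jn₁ w hw) (hd.nn w hw) hwT
  have hw0 : k₀ w ∈ G.star (M.E \ {e}) w := by
    rw [hd.star w hw]; exact Finset.mem_insert_self _ _
  have hw1 : k₁ w ∈ G.star (M.E \ {e}) w := by
    rw [hd.star w hw]; exact Finset.mem_insert_of_mem (Finset.mem_singleton_self _)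
  have hw0' : k₀ w' ∈ G.star (M.E \ {e}) w' := by
    rw [hd.star w' hw']; exact Finset.mem_insert_self _ _
  have hw1' : k₁ w' ∈ G.star (M.E \ {e}) w' := by
    rw [hd.star w' hw']; exact Finset.mem_insert_of_mem (Finset.mem_singleton_self _)
  have key : ∀ c ∈ G.star (M.E \ {e}) w', c ≠ k₀ w ∧ c ≠ k₁ w := by
    intro c hc
    have h2 := star_notMem hd hw' hw hne.symm hc
    rw [hd.star w hw] at h2
    simp only [Finset.mem_insert, Finset.mem_singleton, not_or] at h2
    exact h2
  have hjn : ∀ c ∈ G.star (M.E \ {e}) w', ∀ n, G.Jn c w' n → G'.Jn c w' n := by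
    intro c hc n hj
    obtain ⟨h2, h3⟩ := hoth c (key c hc).1 (key c hc).2
    unfold Gr.Jn
    rw [h2, h3]
    exact hj
  have hst : G'.star (M.E \ {e}) w' = {k₀ w', k₁ w'} := by
    rw [← hd.star w' hw']
    ext c
    rw [Gr.mem_star, Gr.mem_star]
    refine and_congr_right fun hcE => ?_
    by_cases hc0 : c = k₀ w
    · rw [hc0]
      constructor
      · intro h2
        exfalso
        rcases ha with ⟨h3, h4⟩ | ⟨h3, h4⟩
        · rcases h2 with h2 | h2
          · exact hne (h3.symm.trans h2)
          · exact hd.nW₁ w hw (h4.symm.trans h2 ▸ hw')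
        · rcases h2 with h2 | h2
          · exact hd.nW₁ w hw (h3.symm.trans h2 ▸ hw')
          · exact hne (h4.symm.trans h2)
      · intro h2
        exact absurd (Gr.mem_star.2 ⟨(Gr.mem_star.1 hw0).1, h2⟩) (star_notMem hd hw hw' hne hw0)
    · by_cases hc1 : c = k₁ w
      · rw [hc1]
        constructor
        · intro h2
          exfalso
          rcases hb with ⟨h3, h4⟩ | ⟨h3, h4⟩
          · rcases h2 with h2 | h2
            · exact hne (h3.symm.trans h2)
            · exact hd.nW₀ w hw (h4.symm.trans h2 ▸ hw')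
          · rcases h2 with h2 | h2
            · exact hd.nW₀ w hw (h3.symm.trans h2 ▸ hw')
            · exact hne (h4.symm.trans h2)
        · intro h2
          exact absurd (Gr.mem_star.2 ⟨(Gr.mem_star.1 hw1).1, h2⟩)
            (star_notMem hd hw hw' hne hw1)
      · rw [(hoth c hc0 hc1).1, (hoth c hc0 hc1).2]
  have hwT'' : w' ∈ T ∆ {n₀ w, n₁ w} := by
    rw [Finset.mem_symmDiff]
    left
    refine ⟨hwT', ?_⟩
    rw [Finset.mem_insert, Finset.mem_singleton, not_or]
    exact ⟨fun h => hd.nW₀ w hw (h ▸ hw'), fun h => hd.nW₁ w hw (h ▸ hw')⟩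
  obtain ⟨G'', h2, -⟩ := h1.swap_two (hd.ne w' hw') hst (hjn _ hw0' _ (hd.jn₀ w' hw'))
    (hjn _ hw1' _ (hd.jn₁ w' hw')) (hd.nn w' hw') hwT''
  exact ⟨G'', h2⟩

end rep

/-! ### choices at some vertices -/

section choice

variable {W : Finset V} {n₀ n₁ : V → V} {T : Finset V}

/-- the choice `false` everywhere -/
abbrev c0 : V → Bool := fun _ => false

lemma exists_bool {x y c : V} (h : c ∈ ({x, y} : Finset V)) :
    ∃ b : Bool, (if b then y else x) = c := by
  rw [Finset.mem_insert, Finset.mem_singleton] at h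
  rcases h with rfl | rfl
  · exact ⟨false, rfl⟩
  · exact ⟨true, rfl⟩

lemma ret_of_mem {w : V} (hw : w ∈ W) (c : V → Bool) :
    ret W n₀ n₁ c w = if c w then n₁ w else n₀ w := by
  unfold ret
  rw [if_pos hw]

lemma ret_congr {c c' : V → Bool} {w : V} (h : c w = c' w) :
    ret W n₀ n₁ c w = ret W n₀ n₁ c' w := by
  unfold ret
  rw [h]

lemma oi_one {w : V} (hw : w ∈ W) (hwT : w ∈ T) (b : Bool) :
    oi T (ret W n₀ n₁ fun v => if v = w then b else false) =
      oi (T.erase w) (ret W n₀ n₁ c0) ∆ {if b then n₁ w else n₀ w} := by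
  rw [oi_erase hwT, ret_of_mem hw, if_pos rfl]
  congr 1
  apply oi_congr
  intro t ht
  apply ret_congr
  exact if_neg (Finset.mem_erase.1 ht).1

lemma oi_two {w w' : V} (hw : w ∈ W) (hw' : w' ∈ W) (hne : w ≠ w') (hwT : w ∈ T)
    (hwT' : w' ∈ T) (b b' : Bool) :
    oi T (ret W n₀ n₁ fun v => if v = w then b else if v = w' then b' else false) =
      oi ((T.erase w').erase w) (ret W n₀ n₁ c0) ∆ {if b then n₁ w else n₀ w} ∆
        {if b' then n₁ w' else n₀ w'} := by
  rw [oi_erase hwT', ret_of_mem hw', if_neg hne.symm, if_pos rfl,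
    oi_erase (Finset.mem_erase.2 ⟨hne, hwT⟩), ret_of_mem hw, if_pos rfl]
  congr 2
  apply oi_congr
  intro t ht
  have h1 := Finset.mem_erase.1 ht
  have h2 := Finset.mem_erase.1 h1.2
  apply ret_congr
  show (if t = w then b else if t = w' then b' else false) = false
  rw [if_neg h1.1, if_neg h2.1]

lemma oi_three {w w' w'' : V} (hw : w ∈ W) (hw' : w' ∈ W) (hw'' : w'' ∈ W) (hne : w ≠ w')
    (hne' : w ≠ w'') (hne'' : w' ≠ w'') (hwT : w ∈ T) (hwT' : w' ∈ T) (hwT'' : w'' ∈ T)
    (b b' b'' : Bool) :
    oi T (ret W n₀ n₁ fun v => if v = w then b else if v = w' then b' else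
        if v = w'' then b'' else false) =
      oi (((T.erase w'').erase w').erase w) (ret W n₀ n₁ c0) ∆ {if b then n₁ w else n₀ w} ∆
        {if b' then n₁ w' else n₀ w'} ∆ {if b'' then n₁ w'' else n₀ w''} := by
  rw [oi_erase hwT'', ret_of_mem hw'', if_neg hne'.symm, if_neg hne''.symm, if_pos rfl,
    oi_erase (Finset.mem_erase.2 ⟨hne'', hwT'⟩), ret_of_mem hw', if_neg hne.symm, if_pos rfl,
    oi_erase (Finset.mem_erase.2 ⟨hne, Finset.mem_erase.2 ⟨hne', hwT⟩⟩), ret_of_mem hw,
    if_pos rfl]
  congr 3
  apply oi_congr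
  intro t ht
  have h1 := Finset.mem_erase.1 ht
  have h2 := Finset.mem_erase.1 h1.2
  have h3 := Finset.mem_erase.1 h2.2
  apply ret_congr
  show (if t = w then b else if t = w' then b' else if t = w'' then b'' else false) = false
  rw [if_neg h1.1, if_neg h2.1, if_neg h3.1]

end choice

/-- two different pairs in a set of three elements fill it -/
lemma pair_union {p q r x y x' y' : V} (hpq : p ≠ q) (hpr : p ≠ r) (hqr : q ≠ r) (hxy : x ≠ y)
    (hxy' : x' ≠ y') (hN : ({x, y} : Finset V) ≠ {x', y'})
    (h : ({x, y} : Finset V) ⊆ {p, q, r}) (h' : ({x', y'} : Finset V) ⊆ {p, q, r}) :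
    ({x, y} : Finset V) ∪ {x', y'} = {p, q, r} := by
  apply Finset.eq_of_subset_of_card_le (Finset.union_subset h h')
  rw [Finset.card_eq_three.2 ⟨p, q, r, hpq, hpr, hqr, rfl⟩]
  by_contra hcon
  push Not at hcon
  have h1 : ({x, y} : Finset V).card = 2 := Finset.card_pair hxy
  have h2 : ({x', y'} : Finset V).card = 2 := Finset.card_pair hxy'
  have h3 : ({x, y} : Finset V) = {x, y} ∪ {x', y'} :=
    Finset.eq_of_subset_of_card_le Finset.subset_union_left (by omega)
  have h4 : ({x', y'} : Finset V) = {x, y} ∪ {x', y'} :=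
    Finset.eq_of_subset_of_card_le Finset.subset_union_right (by omega)
  exact hN (h3.trans h4.symm)

/-- at most three different pairs in a set of three elements -/
lemma pair_four {p q r : V} (hpq : p ≠ q) (hpr : p ≠ r) (hqr : q ≠ r) {x : Fin 4 → V}
    {y : Fin 4 → V} (hxy : ∀ i, x i ≠ y i) (h : ∀ i, ({x i, y i} : Finset V) ⊆ {p, q, r})
    (hN : ∀ i j, i ≠ j → ({x i, y i} : Finset V) ≠ {x j, y j}) : False := by
  have hc : ({p, q, r} : Finset V).card = 3 := Finset.card_eq_three.2 ⟨p, q, r, hpq, hpr, hqr, rfl⟩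
  have h1 : (Finset.univ.image fun i => ({x i, y i} : Finset V)) ⊆
      ({p, q, r} : Finset V).powersetCard 2 := by
    intro S hS
    obtain ⟨i, -, rfl⟩ := Finset.mem_image.1 hS
    exact Finset.mem_powersetCard.2 ⟨h i, Finset.card_pair (hxy i)⟩
  have h2 := Finset.card_le_card h1
  rw [Finset.card_powersetCard, hc, Finset.card_image_of_injective] at h2
  · simp [Nat.choose] at h2
  · intro i j hij
    by_contra hne
    exact hN i j hne hij

end S1b2Aux

open S1b2Aux
open scoped symmDiff

/-- the main step: no vertices of degree two -/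
theorem Min1.deg_ge_three {M : BM α} (h : Min1 M) {e : α} (he : e ∈ M.E)
    (hnc : ¬ Cographic (M.del {e})) {G : Gr α V} {T : Finset V} (hG : GRep M e G T)
    (hne : ∀ x ∈ G.U, (G.star (M.E \ {e}) x).Nonempty) :
    ∀ x ∈ G.U, 3 ≤ (G.star (M.E \ {e}) x).card := by
  have hcard := h.card
  have h3 : M.Conn3 := h.i4c.1
  have hgood : Good (M.del {e}) := good_del_of_i4c h.i4c hcard he
  have hR : Rp (M.del {e}) G := hG.del_rp
  have hNE : (M.del {e}).E = M.E \ {e} := rfl
  have hcardN : 9 ≤ (M.E \ {e}).card := by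
    rw [Finset.card_sdiff_of_subset (Finset.singleton_subset_iff.2 he), Finset.card_singleton]
    omega
  have hon := hG.on
  have hs : G.Simple (M.E \ {e}) := simple_aux h3 (by omega) hG
  have hdeg : ∀ x ∈ G.U, 2 ≤ (G.star (M.E \ {e}) x).card ∧
      ((G.star (M.E \ {e}) x).card = 2 → x ∈ T) :=
    fun x hx => deg_aux h3 (by omega) hG (hne x hx)
  have hadj : ∀ w w', (G.star (M.E \ {e}) w).card = 2 → (G.star (M.E \ {e}) w').card = 2 →
      ¬ G.Adj (M.E \ {e}) w w' := fun w w' hw hw' => nonadj hR hgood hs hcardN hw hw'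
  haveI : Nonempty α := ⟨e⟩
  set W : Finset V := G.U.filter fun x => (G.star (M.E \ {e}) x).card = 2 with hW
  have hWm : ∀ w ∈ W, w ∈ G.U ∧ (G.star (M.E \ {e}) w).card = 2 := fun w hw => by
    rw [hW] at hw
    exact Finset.mem_filter.1 hw
  obtain ⟨k₀, k₁, n₀, n₁, hd⟩ := exists_deg2 hon hs (W := W) (fun w hw => (hWm w hw).1)
    (fun w hw => (hWm w hw).2) (fun w hw w' hw' => hadj w w' (hWm w hw).2 (hWm w' hw').2)
  have hWT : ∀ w ∈ W, w ∈ T := fun w hw => (hdeg w (hWm w hw).1).2 (hWm w hw).2
  have hvc : G.VC (M.E \ {e}) W := vc_of_good hR hgood W (fun x hx hxW => by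
    have h1 := (hdeg x hx).1
    have h2 : (G.star (M.E \ {e}) x).card ≠ 2 := fun h2 => hxW (by
      rw [hW]
      exact Finset.mem_filter.2 ⟨hx, h2⟩)
    rw [hNE]
    omega)
  -- it suffices to show that `W` is empty
  by_contra hcon
  push Not at hcon
  obtain ⟨w₀, hw₀U, hw₀⟩ := hcon
  have hw₀W : w₀ ∈ W := by
    rw [hW]
    refine Finset.mem_filter.2 ⟨hw₀U, ?_⟩
    have := (hdeg w₀ hw₀U).1
    omega
  have hng := h.ng
  -- the contractions
  have hcs : ∀ c : V → Bool, cset W k₀ k₁ c ⊆ M.E \ {e} := by
    intro c a ha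
    obtain ⟨w, hw, rfl⟩ := Finset.mem_image.1 ha
    by_cases hc : c w
    · rw [if_pos hc]
      exact (k_mem hd hw).2
    · rw [if_neg hc]
      exact (k_mem hd hw).1
  have hncon : ∀ c : V → Bool, ¬ Cographic ((M.del {e}).con (cset W k₀ k₁ c)) :=
    fun c hc => hnc (Deg2.cographic_of_con hR hd c hc)
  have hcd : ∀ c : V → Bool, (M.con (cset W k₀ k₁ c)).del {e} =
      (M.del {e}).con (cset W k₀ k₁ c) := by
    intro c
    apply M.con_del
    rw [Finset.disjoint_singleton_right]
    intro h1
    exact (Finset.mem_sdiff.1 (hcs c h1)).2 (Finset.mem_singleton_self e)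
  have hgr : ∀ c : V → Bool, Graphic (M.con (cset W k₀ k₁ c)) := by
    intro c
    have h1 : (M.con (cset W k₀ k₁ c)).E ≠ M.E := by
      rw [LM.con_E]
      intro h2
      have h3 : (if c w₀ then k₁ w₀ else k₀ w₀) ∈ cset W k₀ k₁ c :=
        Finset.mem_image.2 ⟨w₀, hw₀W, rfl⟩
      have h4 := (Finset.mem_sdiff.1 (hcs c h3)).1
      rw [← h2] at h4
      exact (Finset.mem_sdiff.1 h4).2 h3
    rcases h.minor (M.isMinor_con _) h1 with h2 | h2
    · exact h2
    · exfalso
      apply hncon c
      rw [← hcd c]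
      exact Pool.Agent.H87.Sey.cographic_minor h2 (LM.isMinor_del _ _)
  have hT2 : ∀ c : V → Bool, (oi T (ret W n₀ n₁ c)).card ≤ 2 := by
    intro c
    rw [← retT_eq hon hd c hG.TU]
    exact coset hG hd hvc (fun x hx => hne x (Finset.mem_sdiff.1 hx).1) c (hgr c)
  have hev : ¬ Odd T.card := Nat.not_odd_iff_even.2 hG.even
  have hid : ∀ S : Finset V, (∀ t ∈ S, t ∉ W) → oi S (ret W n₀ n₁ c0) = S := by
    intro S hS
    apply oi_id
    intro t ht
    unfold ret
    rw [if_neg (hS t ht)]
  have hnbh : ∀ w ∈ W, ∀ w' ∈ W, w ≠ w' → ({n₀ w, n₁ w} : Finset V) ≠ {n₀ w', n₁ w'} :=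
    fun w hw w' hw' hww => nbh_ne hR hgood hcardN hd hw hw' hww
  -- three vertices
  have three : ∀ w ∈ W, ∀ w' ∈ W, ∀ w'' ∈ W, w ≠ w' → w ≠ w'' → w' ≠ w'' →
      ∃ p q r, p ≠ q ∧ p ≠ r ∧ q ≠ r ∧
        ({n₀ w, n₁ w} : Finset V) ∪ {n₀ w', n₁ w'} ∪ {n₀ w'', n₁ w''} = {p, q, r} ∧
        oi (((T.erase w'').erase w').erase w) (ret W n₀ n₁ c0) ⊆ {p, q, r} := by
    intro w hw w' hw' w'' hw'' h1 h2 h4
    have hm'' := hWT w'' hw''
    have hm' : w' ∈ T.erase w'' := Finset.mem_erase.2 ⟨h4, hWT w' hw'⟩
    have hm : w ∈ (T.erase w'').erase w' :=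
      Finset.mem_erase.2 ⟨h1, Finset.mem_erase.2 ⟨h2, hWT w hw⟩⟩
    apply finset_coset_three (hd.nn w hw) (hd.nn w' hw') (hd.nn w'' hw'') (hnbh w hw w' hw' h1)
      (hnbh w hw w'' hw'' h2) (hnbh w' hw' w'' hw'' h4)
    · rw [odd_card_oi]
      have c1 := Finset.card_erase_add_one hm''
      have c2 := Finset.card_erase_add_one hm'
      have c3 := Finset.card_erase_add_one hm
      rw [← c1, ← c2, ← c3] at hev
      rw [Nat.odd_add_one, Nat.odd_add_one, Nat.odd_add_one, not_not, not_not] at hev
      exact hev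
    · intro c hc c' hc' c'' hc''
      obtain ⟨b, rfl⟩ := exists_bool hc
      obtain ⟨b', rfl⟩ := exists_bool hc'
      obtain ⟨b'', rfl⟩ := exists_bool hc''
      rw [← oi_three hw hw' hw'' h1 h2 h4 (hWT w hw) (hWT w' hw') hm'' b b' b'']
      exact hT2 _
  by_cases hWc : 3 ≤ W.card
  · -- at least three vertices of degree two
    by_cases hW4 : 4 ≤ W.card
    · -- four vertices
      obtain ⟨S, hSW, hS4⟩ := Finset.exists_subset_card_eq hW4
      let i4 := (Finset.equivFinOfCardEq hS4).symm
      have hi : Function.Injective fun i => (i4 i).1 := fun i j hij =>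
        i4.injective (Subtype.ext hij)
      have hiW : ∀ i, (i4 i).1 ∈ W := fun i => hSW (i4 i).2
      obtain ⟨p, q, r, hpq, hpr, hqr, hu, -⟩ := three _ (hiW 0) _ (hiW 1) _ (hiW 2)
        (fun h1 => absurd (hi h1) (by decide)) (fun h1 => absurd (hi h1) (by decide))
        (fun h1 => absurd (hi h1) (by decide))
      obtain ⟨p', q', r', hpq', hpr', hqr', hu', -⟩ := three _ (hiW 0) _ (hiW 1) _ (hiW 3)
        (fun h1 => absurd (hi h1) (by decide)) (fun h1 => absurd (hi h1) (by decide))
        (fun h1 => absurd (hi h1) (by decide))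
      have hne01 := hnbh _ (hiW 0) _ (hiW 1) (fun h1 => absurd (hi h1) (by decide))
      have s0 : ({n₀ (i4 0).1, n₁ (i4 0).1} : Finset V) ⊆ {p, q, r} := by
        rw [← hu]
        exact Finset.subset_union_left.trans Finset.subset_union_left
      have s1 : ({n₀ (i4 1).1, n₁ (i4 1).1} : Finset V) ⊆ {p, q, r} := by
        rw [← hu]
        exact Finset.subset_union_right.trans Finset.subset_union_left
      have s2 : ({n₀ (i4 2).1, n₁ (i4 2).1} : Finset V) ⊆ {p, q, r} := by
        rw [← hu]
        exact Finset.subset_union_right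
      have s0' : ({n₀ (i4 0).1, n₁ (i4 0).1} : Finset V) ⊆ {p', q', r'} := by
        rw [← hu']
        exact Finset.subset_union_left.trans Finset.subset_union_left
      have s1' : ({n₀ (i4 1).1, n₁ (i4 1).1} : Finset V) ⊆ {p', q', r'} := by
        rw [← hu']
        exact Finset.subset_union_right.trans Finset.subset_union_left
      have s3' : ({n₀ (i4 3).1, n₁ (i4 3).1} : Finset V) ⊆ {p', q', r'} := by
        rw [← hu']
        exact Finset.subset_union_right
      have e1 := pair_union hpq hpr hqr (hd.nn _ (hiW 0)) (hd.nn _ (hiW 1)) hne01 s0 s1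
      have e2 := pair_union hpq' hpr' hqr' (hd.nn _ (hiW 0)) (hd.nn _ (hiW 1)) hne01 s0' s1'
      rw [← e2, e1] at s3'
      refine pair_four hpq hpr hqr (x := fun i => n₀ (i4 i).1) (y := fun i => n₁ (i4 i).1)
        (fun i => hd.nn _ (hiW i)) ?_ ?_
      · intro i
        fin_cases i
        · exact s0
        · exact s1
        · exact s2
        · exact s3'
      · intro i j hij
        exact hnbh _ (hiW i) _ (hiW j) fun h1 => hij (hi h1)
    · -- exactly three vertices
      have hW3 : W.card = 3 := by omega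
      obtain ⟨w, w', w'', h1, h2, h4, hWe⟩ := Finset.card_eq_three.1 hW3
      have hw : w ∈ W := by rw [hWe]; simp
      have hw' : w' ∈ W := by rw [hWe]; simp
      have hw'' : w'' ∈ W := by rw [hWe]; simp
      obtain ⟨p, q, r, hpq, hpr, hqr, hu, hsub⟩ := three w hw w' hw' w'' hw'' h1 h2 h4
      rw [hid _ (by
        intro t ht htW
        simp only [Finset.mem_erase] at ht
        rw [hWe] at htW
        simp only [Finset.mem_insert, Finset.mem_singleton] at htW
        tauto)] at hsub
      have hnb : ∀ x ∈ W, n₀ x ∈ ({p, q, r} : Finset V) ∧ n₁ x ∈ ({p, q, r} : Finset V) := by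
        intro x hx
        rw [hWe] at hx
        simp only [Finset.mem_insert, Finset.mem_singleton] at hx
        rw [← hu]
        rcases hx with rfl | rfl | rfl <;> simp
      have hpqrU : ({p, q, r} : Finset V) ⊆ G.U := by
        rw [← hu]
        intro x hx
        simp only [Finset.mem_union, Finset.mem_insert, Finset.mem_singleton] at hx
        have u1 := n_U hon hd hw
        have u2 := n_U hon hd hw'
        have u3 := n_U hon hd hw''
        rcases hx with ((rfl | rfl) | (rfl | rfl)) | (rfl | rfl)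
        · exact u1.1
        · exact u1.2
        · exact u2.1
        · exact u2.2
        · exact u3.1
        · exact u3.2
      -- the seven elements
      let A : Finset α := insert e (W.biUnion fun x => G.star (M.E \ {e}) x)
      have hAE : A ⊆ M.E := by
        intro a ha
        rcases Finset.mem_insert.1 ha with rfl | ha
        · exact he
        · obtain ⟨x, -, hx⟩ := Finset.mem_biUnion.1 ha
          exact (Finset.mem_sdiff.1 (star_sub x hx)).1
      have hlam : M.lam A ≤ 2 := by
        have h5 := GRep.lam_le hG hAE (Finset.mem_insert_self _ _) (P := W ∪ {p, q, r})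
          (Q := G.U \ W) (by
            ext x
            simp only [Finset.mem_union, Finset.mem_sdiff]
            constructor
            · rintro ((h6 | h6) | h6)
              · exact (hWm x h6).1
              · exact hpqrU h6
              · exact h6.1
            · intro h6
              by_cases h7 : x ∈ W
              · exact Or.inl (Or.inl h7)
              · exact Or.inr ⟨h6, h7⟩) (by
            intro t ht
            by_cases htW : t ∈ W
            · exact Finset.mem_union_left _ htW
            · apply Finset.mem_union_right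
              apply hsub
              simp only [Finset.mem_erase]
              refine ⟨?_, ?_, ?_, ht⟩
              · rintro rfl; exact htW hw
              · rintro rfl; exact htW hw'
              · rintro rfl; exact htW hw'') (by
            intro a ha hae
            rcases Finset.mem_insert.1 ha with h6 | ha
            · exact absurd h6 hae
            · obtain ⟨x, hx, hxa⟩ := Finset.mem_biUnion.1 ha
              obtain ⟨n, -, hj, hn⟩ := ends hd hx hxa
              have hn' : n ∈ ({p, q, r} : Finset V) := by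
                rcases hn with rfl | rfl
                · exact (hnb x hx).1
                · exact (hnb x hx).2
              rcases hj with ⟨h6, h7⟩ | ⟨h6, h7⟩
              · rw [h6, h7]
                exact ⟨Finset.mem_union_left _ hx, Finset.mem_union_right _ hn'⟩
              · rw [h6, h7]
                exact ⟨Finset.mem_union_right _ hn', Finset.mem_union_left _ hx⟩) (by
            intro a ha
            obtain ⟨haE, haA⟩ := Finset.mem_sdiff.1 ha
            have hae : a ≠ e := by
              rintro rfl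
              exact haA (Finset.mem_insert_self _ _)
            have haE' : a ∈ M.E \ {e} :=
              Finset.mem_sdiff.2 ⟨haE, fun h6 => hae (Finset.mem_singleton.1 h6)⟩
            obtain ⟨hf, hg, -⟩ := hon a haE'
            constructor
            · refine Finset.mem_sdiff.2 ⟨hf, fun h6 => haA ?_⟩
              exact Finset.mem_insert_of_mem (Finset.mem_biUnion.2
                ⟨_, h6, Gr.mem_star.2 ⟨haE', Or.inl rfl⟩⟩)
            · refine Finset.mem_sdiff.2 ⟨hg, fun h6 => haA ?_⟩
              exact Finset.mem_insert_of_mem (Finset.mem_biUnion.2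
                ⟨_, h6, Gr.mem_star.2 ⟨haE', Or.inr rfl⟩⟩))
        have h6 : ((W ∪ {p, q, r}) ∩ (G.U \ W)).card ≤ 3 := by
          refine (Finset.card_le_card (t := {p, q, r}) ?_).trans Finset.card_le_three
          intro x hx
          simp only [Finset.mem_inter, Finset.mem_union, Finset.mem_sdiff] at hx
          tauto
        omega
      have hA4 : 4 ≤ A.card := by
        have h5 : (W.biUnion fun x => G.star (M.E \ {e}) x).card =
            ∑ x ∈ W, (G.star (M.E \ {e}) x).card := by
          apply Finset.card_biUnion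
          intro x hx y hy hxy
          show Disjoint (G.star (M.E \ {e}) x) (G.star (M.E \ {e}) y)
          rw [Finset.disjoint_left]
          intro a ha
          exact star_notMem hd hx hy hxy ha
        have h6 : ∑ x ∈ W, (G.star (M.E \ {e}) x).card = ∑ x ∈ W, 2 :=
          Finset.sum_congr rfl fun x hx => (hWm x hx).2
        rw [h6, Finset.sum_const, hW3] at h5
        have h7 : (W.biUnion fun x => G.star (M.E \ {e}) x).card ≤ A.card :=
          Finset.card_le_card (Finset.subset_insert _ _)
        rw [h5] at h7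
        simp at h7
        omega
      have hAc : (M.E \ A).card ≤ 3 := by
        by_contra h5
        push Not at h5
        have := h.i4c.2 A hAE hA4 h5
        omega
      -- the contraction has too few elements
      have hreg : Regular ((M.del {e}).con (cset W k₀ k₁ c0)) := by
        rw [← hcd c0]
        exact h.reg.minor ((LM.isMinor_del _ _).trans (LM.isMinor_con _ _))
      obtain ⟨C, D, -, -, -, n, G', hR', hK⟩ := exists_kurMinor hreg (hncon c0)
      have h9 : 9 ≤ ((M.del {e}).con (cset W k₀ k₁ c0)).E.card := by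
        have h5 : 9 ≤ ((((M.del {e}).con (cset W k₀ k₁ c0)).con C).del D).E.card := by
          rcases hK with hK | hK
          · rw [hK.card]
          · rw [hK.card]
            norm_num
        refine h5.trans (Finset.card_le_card ?_)
        rw [LM.del_E, LM.con_E]
        exact Finset.sdiff_subset.trans Finset.sdiff_subset
      have h10 : ((M.del {e}).con (cset W k₀ k₁ c0)).E ⊆ (W.image k₁) ∪ (M.E \ A) := by
        intro a ha
        rw [LM.con_E, LM.del_E] at ha
        obtain ⟨ha1, ha2⟩ := Finset.mem_sdiff.1 ha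
        by_cases haA : a ∈ A
        · rcases Finset.mem_insert.1 haA with rfl | haA
          · exact absurd (Finset.mem_singleton_self _) (Finset.mem_sdiff.1 ha1).2
          · obtain ⟨x, hx, hxa⟩ := Finset.mem_biUnion.1 haA
            rw [hd.star x hx, Finset.mem_insert, Finset.mem_singleton] at hxa
            rcases hxa with rfl | rfl
            · exfalso
              apply ha2
              refine Finset.mem_image.2 ⟨x, hx, ?_⟩
              show (if false = true then k₁ x else k₀ x) = k₀ x
              rw [if_neg (by decide)]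
            · exact Finset.mem_union_left _ (Finset.mem_image_of_mem _ hx)
        · exact Finset.mem_union_right _ (Finset.mem_sdiff.2 ⟨(Finset.mem_sdiff.1 ha1).1, haA⟩)
      have h11 := (Finset.card_le_card h10).trans (Finset.card_union_le _ _)
      have h12 : (W.image k₁).card ≤ W.card := Finset.card_image_le
      omega
  · by_cases hWc2 : 2 ≤ W.card
    · -- two vertices
      have hW2 : W.card = 2 := by omega
      obtain ⟨w, w', h1, hWe⟩ := Finset.card_eq_two.1 hW2
      have hw : w ∈ W := by rw [hWe]; simp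
      have hw' : w' ∈ W := by rw [hWe]; simp
      have hm' := hWT w' hw'
      have hm : w ∈ T.erase w' := Finset.mem_erase.2 ⟨h1, hWT w hw⟩
      have hT0 : oi ((T.erase w').erase w) (ret W n₀ n₁ c0) = (T.erase w').erase w := hid _ (by
        intro t ht htW
        simp only [Finset.mem_erase] at ht
        rw [hWe] at htW
        simp only [Finset.mem_insert, Finset.mem_singleton] at htW
        tauto)
      have hodd : Even ((T.erase w').erase w).card := by
        have c1 := Finset.card_erase_add_one hm'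
        have c2 := Finset.card_erase_add_one hm
        rw [← c1, ← c2, Nat.odd_add_one, Nat.odd_add_one, not_not] at hev
        exact Nat.not_odd_iff_even.1 hev
      have hTe : T = {w, w'} ∆ ((T.erase w').erase w) := by
        have hwT := hWT w hw
        ext x
        rw [Finset.mem_symmDiff]
        simp only [Finset.mem_insert, Finset.mem_singleton, Finset.mem_erase]
        by_cases hx : x = w
        · rw [hx]; simp [hwT]
        · by_cases hx' : x = w'
          · rw [hx']; simp [hm']
          · simp [hx, hx']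
      have hch : ∀ b b' : Bool, ((T.erase w').erase w ∆ {if b then n₁ w else n₀ w} ∆
          {if b' then n₁ w' else n₀ w'}).card ≤ 2 := by
        intro b b'
        rw [← hT0, ← oi_two hw hw' h1 (hWT w hw) hm' b b']
        exact hT2 _
      have key := finset_coset_two (hd.nn w hw) (hd.nn w' hw') (hnbh w hw w' hw' h1) hodd
        (hch false false) (hch false true) (hch true false) (hch true true)
      have fin2 : ∀ G' : Gr α V, GRep M e G' {w, w'} → False := by
        intro G' hG'
        exact hng (hG'.graphic_of_card_le_two Finset.card_le_two)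
      rcases key with h5 | h5 | h5 | h5
      · rw [h5] at hTe
        rw [hTe] at hG
        apply fin2 G
        rw [← Finset.bot_eq_empty, symmDiff_bot] at hG
        exact hG
      · obtain ⟨G', hG'⟩ := swap_once hG hd hw (hWT w hw)
        apply fin2 G'
        rw [hTe, h5, symmDiff_symmDiff_cancel_right] at hG'
        exact hG'
      · obtain ⟨G', hG'⟩ := swap_once hG hd hw' hm'
        apply fin2 G'
        rw [hTe, h5, symmDiff_symmDiff_cancel_right] at hG'
        exact hG'
      · obtain ⟨G', hG'⟩ := swap_twice hG hd hw hw' h1 (hWT w hw) hm'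
        apply fin2 G'
        rw [hTe, h5, symmDiff_assoc, symmDiff_symmDiff_cancel_right] at hG'
        exact hG'
    · -- one vertex
      have hW1 : W.card = 1 := by
        have := Finset.card_pos.2 ⟨w₀, hw₀W⟩
        omega
      obtain ⟨w, hWe⟩ := Finset.card_eq_one.1 hW1
      have hw : w ∈ W := by rw [hWe]; simp
      have hm := hWT w hw
      have hT0 : oi (T.erase w) (ret W n₀ n₁ c0) = T.erase w := hid _ (by
        intro t ht htW
        rw [hWe, Finset.mem_singleton] at htW
        exact (Finset.mem_erase.1 ht).1 htW)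
      have hc1 := Finset.card_erase_add_one hm
      have hodd : Odd (T.erase w).card := by
        rw [← hc1, Nat.odd_add_one, not_not] at hev
        exact hev
      have hch : ∀ b : Bool, (T.erase w ∆ {if b then n₁ w else n₀ w}).card ≤ 2 := by
        intro b
        rw [← hT0, ← oi_one hw hm b]
        exact hT2 _
      rcases finset_coset_one (hd.nn w hw) hodd (hch false) (hch true) with h5 | ⟨z, hz0, hz1, h5⟩
      · exact hng (hG.graphic_of_card_le_two (by omega))
      · obtain ⟨G', hG'⟩ := swap_once hG hd hw hm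
        apply hng (hG'.graphic_of_card_le_two _)
        have hTe : T ∆ {n₀ w, n₁ w} = {w, z} := by
          have h6 : T = insert w (T.erase w) := (Finset.insert_erase hm).symm
          have hn0 : n₀ w ≠ w := fun h7 => hd.nW₀ w hw (h7.symm ▸ hw)
          have hn1 : n₁ w ≠ w := fun h7 => hd.nW₁ w hw (h7.symm ▸ hw)
          rw [h6, h5]
          ext x
          rw [Finset.mem_symmDiff]
          simp only [Finset.mem_insert, Finset.mem_singleton]
          constructor
          · rintro (⟨h7, h8⟩ | ⟨h7, h8⟩)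
            · tauto
            · tauto
          · rintro (rfl | rfl)
            · left
              exact ⟨Or.inl rfl, fun h7 => by
                rcases h7 with h7 | h7
                · exact hn0 h7.symm
                · exact hn1 h7.symm⟩
            · left
              exact ⟨by tauto, fun h7 => by
                rcases h7 with h7 | h7
                · exact hz0 h7
                · exact hz1 h7⟩
        rw [hTe]
        exact Finset.card_le_two

end Pool.Agent.H53.Sey
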