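import Pool.Agent.H53.Sey.S1a

/-!
# S1, part C: there is a deletion that is not cographic, or dually (job SEYS-C)

Suppose all `M \ x` are cographic and all `M / x` are graphic. `M` is not cographic, so it has a
minor `N = (M / C) \ D` equal to `K33` or `K5` (`exists_kurMinor`); `D = ∅` since a deletion `M \ d`,
`d ∈ D`, would be not cographic (`cographic_minor`); if `M.rk C < |C|` some `c ∈ C` is in the closure of `C \ {c}`,
is a loop of `M / (C \ c)`, and `N = (M / (C \ c)) \ c`: as before a contradiction. So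
`rk M = rk N + |C|`, `|E| = |E(N)| + |C|`. Dually (`M.dual`) `M` has a minor `N' = M \ D'` with
`N'.dual` equal to `K33` or `K5`, `rk M = rk N' = |E(N')| - rk N'.dual`, which is
`9 - 5 = 4` or `10 - 4 = 6`, and `|E| - rk M = |E(N)| - rk N` is `9 - 5 = 4` (`K33`) or
`10 - 4 = 6` (`K5`). `|E| ≥ 10` by `Min1.card`. So `|E| ∈ {10, 12}`.
* `|E| = 10`: either `rk M = 4`, `|E| - rk M = 6`: `N` is `K5` with 10 elements, `C = ∅`, `M = N`
  graphic; or `rk M = 6`, `|E| - rk M = 4`: `N'.dual = K5`, `M = N'` cographic. Contradictions.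
* `|E| = 12`, `rk M = 6`, `N = M / C` is `K5`, `|C| = 2`, `C = {c, c'}`. `M / c` is graphic of rank 5
  on 11 elements; it has no cocycles of size `≤ 2` (they would be cocycles of `M`) and no loops. Take a
  representation `Rp (M.con {c}) G` without isolated vertices: 6 vertices (rank 5; connected), all
  degrees `≥ 3`, and `c'` joins `x` and `y`, `G / c'` is a representation of `K5` without isolated
  vertices (`Rp.conQ`), so it is `K5` (`kur_transfer`; it is not `K33` since it has 10 edges): so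
  every vertex `z ≠ x, y` is adjacent to exactly one of `x, y` and the four vertices other than
  `x, y` are pairwise adjacent; the degrees of `x, y` are at least 3 and their sum is `4 + 2`, so
  both have degree 3: `N(x) = {y, z₁, z₂}`, `N(y) = {x, z₃, z₄}`. Delete the edges `z₁z₂` and `z₃z₄`:
  `K33` with classes `{x, z₃, z₄}` and `{y, z₁, z₂}`. So `(M / c) \ z₁z₂` is not cographic
  (`KurMinor.not_cographic`), so neither is `M \ z₁z₂`. Contradiction.
-/

set_option autoImplicit false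

namespace Pool.Agent.H53.Sey

open Pool.Agent.H63.Sey

universe u v w

variable {α : Type u} [DecidableEq α]

/-- the Kuratowski minors of `M` if all single element deletions are cographic -/
lemma kurMinor_indep {M : BM α} (hdel : ∀ x ∈ M.E, Cographic (M.del {x})) {C D : Finset α}
    (h : KurMinor M C D) : D = ∅ ∧ M.rk C = C.card := by
  have key : ∀ C D : Finset α, KurMinor M C D → D = ∅ := by
    intro C D h
    obtain ⟨hCD, hC, hD, n, G, hG, hk⟩ := h
    by_contra hne
    obtain ⟨d, hd⟩ := Finset.nonempty_iff_ne_empty.2 hne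
    have h1 : Cographic (M.del {d}) := hdel d (hD hd)
    have h2 : ((M.con C).del D).IsMinor (M.del {d}) := by
      refine ⟨C, D, hCD, ?_⟩
      rw [← LM.con_del M (Finset.disjoint_singleton_right.2 fun h =>
        (Finset.disjoint_left.1 hCD h hd)), LM.del_del]
      congr 1
      rw [← Finset.insert_eq, Finset.insert_eq_of_mem hd]
    have h3 : Cographic ((M.con C).del D) := Pool.Agent.H87.Sey.cographic_minor h1 h2
    rcases hk with hk | hk
    · exact IsK33.not_cographic hG hk h3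
    · exact IsK5.not_cographic hG hk h3
  refine ⟨key C D h, ?_⟩
  obtain ⟨hCD, hC, hD, n, G, hG, hk⟩ := h
  obtain ⟨B, hBC, hB, hrk⟩ := M.exists_basis C
  have h1 := M.con_eq_of_basis hBC hrk
  have h2 : KurMinor M B ((C \ B) ∪ D) := by
    refine ⟨?_, hBC.trans hC, ?_, n, G, ?_⟩
    · rw [Finset.disjoint_union_right]
      exact ⟨Finset.disjoint_sdiff, Finset.disjoint_of_subset_left hBC hCD⟩
    · exact Finset.union_subset (Finset.sdiff_subset.trans hC) hD
    · rw [← LM.del_del, ← h1]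
      exact ⟨hG, hk⟩
  have h3 := key _ _ h2
  rw [Finset.union_eq_empty, Finset.sdiff_eq_empty_iff_subset] at h3
  have h4 : B = C := Finset.Subset.antisymm hBC h3.1
  rw [← hB, h4]

/-- the numbers of a Kuratowski minor -/
lemma kurMinor_nums {M : BM α} (hdel : ∀ x ∈ M.E, Cographic (M.del {x})) {C D : Finset α}
    (h : KurMinor M C D) : D = ∅ ∧ M.rk C = C.card ∧
      ∃ (n : ℕ) (G : Gr α (Fin n)), Rp (M.con C) G ∧
      ((IsK33 G (M.con C).E ∧ M.rk M.E = 5 + C.card ∧ M.E.card = 9 + C.card) ∨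
        (IsK5 G (M.con C).E ∧ M.rk M.E = 4 + C.card ∧ M.E.card = 10 + C.card)) := by
  obtain ⟨hD, hrk⟩ := kurMinor_indep hdel h
  subst hD
  obtain ⟨-, hC, -, n, G, hG, hk⟩ := h
  rw [LM.del_empty] at hG hk
  refine ⟨rfl, hrk, n, G, hG, ?_⟩
  have h1 := M.rk_con C (M.con C).E
  have h2 : (M.con C).E ∪ C = M.E := by
    rw [LM.con_E]
    exact Finset.sdiff_union_of_subset hC
  have h3 : (M.con C).E.card + C.card = M.E.card := by
    rw [LM.con_E]
    exact Finset.card_sdiff_add_card_eq_card hC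
  rw [h2] at h1
  rcases hk with hk | hk
  · left
    have h4 := hk.rk hG
    have h5 := hk.card
    exact ⟨hk, by omega, by omega⟩
  · right
    have h4 := hk.rk hG
    have h5 := hk.card
    exact ⟨hk, by omega, by omega⟩

lemma zmod2_eq_one {x : ZMod 2} (h : x ≠ 0) : x = 1 := by
  revert x; decide

/-- no loops after contracting one element of a 3-connected matroid -/
lemma con_no_loop {M : BM α} (h : M.Conn3) (hcard : 4 ≤ M.E.card) {c : α} (hc : c ∈ M.E) {a : α}
    (ha : a ∈ (M.con {c}).E) : ∃ x ∈ (M.con {c}).D, x a ≠ 0 := by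
  by_contra hcon
  push Not at hcon
  rw [LM.con_E, Finset.mem_sdiff, Finset.mem_singleton] at ha
  obtain ⟨ha, hac⟩ := ha
  have h0 : ∀ x ∈ M.D, x c = 0 → x a = 0 := by
    intro x hx hxc
    refine hcon x (M.mem_con.2 ⟨hx, ?_⟩)
    intro b hb
    rw [Finset.mem_singleton] at hb
    rw [hb, hxc]
  have hdual : ∀ A ⊆ M.E, A.Nonempty → A.card ≤ 2 → (∀ x ∈ M.D, ∑ b ∈ A, x b = 0) → False := by
    intro A hA hne hA2 hx
    have h1 := cycle_card_of_conn3 h hcard hA hne (M.mem_dual.2 ⟨?_, ?_⟩)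
    · omega
    · intro b hb
      rw [ind_apply, if_neg fun h => hb (hA h)]
    · intro x hx'
      rw [← hx x hx', ← Finset.sum_subset hA]
      · refine Finset.sum_congr rfl fun b hb => ?_
        rw [ind_apply, if_pos hb, mul_one]
      · intro b _ hb
        rw [ind_apply, if_neg hb, mul_zero]
  by_cases hall : ∀ x ∈ M.D, x a = 0
  · refine hdual {a} (Finset.singleton_subset_iff.2 ha) ⟨a, by simp⟩ (by simp) fun x hx => ?_
    rw [Finset.sum_singleton]
    exact hall x hx
  · push Not at hall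
    obtain ⟨y, hy, hya⟩ := hall
    have hyc : y c ≠ 0 := fun h' => hya (h0 y hy h')
    refine hdual {a, c} ?_ ⟨a, by simp⟩ (Finset.card_le_two) fun x hx => ?_
    · intro b hb
      rw [Finset.mem_insert, Finset.mem_singleton] at hb
      rcases hb with rfl | rfl
      · exact ha
      · exact hc
    · rw [Finset.sum_pair hac]
      by_cases hxc : x c = 0
      · rw [hxc, h0 x hx hxc, add_zero]
      · have h1 : (x + y) c = 0 := by
          rw [Pi.add_apply, zmod2_eq_one hxc, zmod2_eq_one hyc]; decide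
        have h2 := h0 (x + y) (M.D.add_mem hx hy) h1
        rw [Pi.add_apply, zmod2_eq_one hya] at h2
        rw [zmod2_eq_one hxc]
        exact h2

/-- the case `|E| = 12` -/
lemma Min1.step_zero_k5 {M : BM α} (h : Min1 M) (hdel : ∀ x ∈ M.E, Cographic (M.del {x}))
    (hcon : ∀ x ∈ M.E, Graphic (M.con {x})) {c c' : α} (hcc : c ≠ c') (hc : c ∈ M.E)
    (hc' : c' ∈ M.E) (hind : M.rk {c, c'} = 2) {n : ℕ} {G : Gr α (Fin n)}
    (hG : Rp (M.con {c, c'}) G) (hk : IsK5 G (M.con {c, c'}).E) : False := by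
  classical
  have h3 : M.Conn3 := h.i4c.1
  have h10 := h.card
  have h4 : 4 ≤ M.E.card := by omega
  obtain ⟨m, H, hH, hne⟩ := exists_rp (hcon c hc) (fun a ha => con_no_loop h3 h4 hc ha)
  have hN : (M.con {c}).con {c'} = M.con {c, c'} := by
    rw [LM.con_con, ← Finset.insert_eq]
  have hNE : (M.con {c, c'}).E = (M.con {c}).E \ {c'} := by
    rw [← hN]; rfl
  have hc'N : c' ∈ (M.con {c}).E := by
    rw [LM.con_E, Finset.mem_sdiff, Finset.mem_singleton]
    exact ⟨hc', fun h => hcc h.symm⟩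
  have hdeg : ∀ x ∈ H.U, 3 ≤ (H.star (M.con {c}).E x).card := by
    intro x hx
    refine cocycle_card_of_conn3 h3 h4 ?_ (hne x hx) (M.mem_con.1 (hH.star_mem x)).1
    intro a ha
    exact (Finset.mem_sdiff.1 (Gr.mem_star.1 ha).1).1
  -- the ends of `c'`
  obtain ⟨x, hx⟩ : ∃ x, H.f c' = x := ⟨_, rfl⟩
  obtain ⟨y, hy⟩ : ∃ y, H.g c' = y := ⟨_, rfl⟩
  have hends := hH.on c' hc'N
  rw [hx, hy] at hends
  obtain ⟨hxU, hyU, hxy⟩ := hends
  -- the quotient map
  obtain ⟨π, hπ⟩ : ∃ π : Fin m → Fin m, ∀ z, π z = if z = y then x else z := ⟨_, fun _ => rfl⟩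
  have πy : π y = x := by rw [hπ, if_pos rfl]
  have πne : ∀ z, z ≠ y → π z = z := fun z hz => by rw [hπ, if_neg hz]
  have πx : π x = x := πne x hxy
  have πinv : ∀ z u, π z = u → u ≠ x → z = u := by
    intro z u hz hu
    by_cases hzy : z = y
    · rw [hzy, πy] at hz
      exact absurd hz.symm hu
    · rw [πne z hzy] at hz
      exact hz
  have hpar : ∀ a ∈ (M.con {c}).E \ {c'}, π (H.f a) ≠ π (H.g a) := by
    intro a ha heq
    have h5 : a ∈ (M.con {c, c'}).E := by rw [hNE]; exact ha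
    have h6 : ind (G.star (M.con {c, c'}).E (G.f a)) ∈ ((M.con {c}).con {c'}).D := by
      rw [hN]
      exact hG.star_mem (G.f a)
    obtain ⟨h6, h7⟩ := (LM.mem_con _).1 h6
    obtain ⟨φ, hφ⟩ := hH.mem.1 h6
    have h8 := h7 c' (Finset.mem_singleton_self _)
    rw [hφ c', if_pos hc'N, hx, hy] at h8
    have h9 := hφ a
    rw [ind_apply, if_pos (Gr.mem_star.2 ⟨h5, Or.inl rfl⟩), if_pos (Finset.mem_sdiff.1 ha).1] at h9
    have h10 : ∀ z, φ (π z) = φ z := by
      intro z
      by_cases hz : z = y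
      · rw [hz, πy]
        exact CharTwo.add_eq_zero.1 h8
      · rw [πne z hz]
    have h11 : φ (H.f a) = φ (H.g a) := by rw [← h10 (H.f a), ← h10 (H.g a), heq]
    rw [h11, CharTwo.add_self_eq_zero] at h9
    exact one_ne_zero h9
  obtain ⟨Q, hQdef⟩ : ∃ Q : Gr α (Fin m),
      Q = ⟨H.U.image π, fun a => π (H.f a), fun a => π (H.g a)⟩ := ⟨_, rfl⟩
  have hQf : ∀ a, Q.f a = π (H.f a) := fun a => by rw [hQdef]
  have hQg : ∀ a, Q.g a = π (H.g a) := fun a => by rw [hQdef]
  have hQU : Q.U = H.U.image π := by rw [hQdef]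
  have hQ : Rp (M.con {c, c'}) Q := by
    rw [← hN, hQdef]
    refine hH.conQ (F := {c'}) π ?_ ?_ ?_ ?_ hpar
    · intro z hz
      by_cases h : z = y
      · rw [h, πy]; exact hxU
      · rw [πne z h]; exact hz
    · intro z hz
      by_cases h : z = y
      · rw [h, πy, πx]
      · rw [πne z h, πne z h]
    · intro a ha _
      rw [Finset.mem_singleton] at ha
      rw [ha, hx, hy]
      exact πx.trans πy.symm
    · intro φ hφ z hz
      by_cases h : z = y
      · have h5 := hφ c' (Finset.mem_singleton_self _) hc'N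
        rw [hx, hy] at h5
        rw [h, πy, h5]
      · rw [πne z h]
  have hQmem : ∀ z, z ∈ Q.U ↔ z ∈ H.U ∧ z ≠ y := by
    intro z
    rw [hQU, Finset.mem_image]
    constructor
    · rintro ⟨w, hw, rfl⟩
      by_cases h : w = y
      · rw [h, πy]; exact ⟨hxU, hxy⟩
      · rw [πne w h]; exact ⟨hw, h⟩
    · rintro ⟨h5, h6⟩
      exact ⟨z, h5, πne z h6⟩
  have hneQ : ∀ z ∈ Q.U, (Q.star (M.con {c, c'}).E z).Nonempty := by
    intro z hz
    rw [hQmem] at hz
    have h5 := hdeg z hz.1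
    obtain ⟨a, ha, hac⟩ := Finset.exists_mem_ne (s := H.star (M.con {c}).E z) (by omega) c'
    obtain ⟨ha1, ha2⟩ := Gr.mem_star.1 ha
    refine ⟨a, Gr.mem_star.2 ⟨?_, ?_⟩⟩
    · rw [hNE]
      exact Finset.mem_sdiff.2 ⟨ha1, fun h => hac (Finset.mem_singleton.1 h)⟩
    · rw [hQf, hQg]
      rcases ha2 with ha2 | ha2
      · left; rw [ha2, πne z hz.2]
      · right; rw [ha2, πne z hz.2]
  have hK : IsK5 Q (M.con {c, c'}).E := by
    rcases kur_transfer hG hQ hneQ (Or.inr hk) with h5 | h5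
    · have h6 := h5.card
      have h7 := hk.card
      omega
    · exact h5
  obtain ⟨-, hsQ, hcQ, hadjQ⟩ := hK
  have hQerase : Q.U = H.U.erase y := by
    ext z
    rw [hQmem, Finset.mem_erase, and_comm]
  have hU6 : H.U.card = 6 := by
    have h5 := Finset.card_erase_add_one hyU
    rw [← hQerase, hcQ] at h5
    exact h5.symm
  rw [hNE] at hsQ hadjQ
  obtain ⟨E1, hE1⟩ : ∃ E1, (M.con {c}).E = E1 := ⟨_, rfl⟩
  have hon : H.On E1 := hE1 ▸ hH.on
  rw [hE1] at hsQ hadjQ hdeg hpar hc'N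
  have jnπ : ∀ a u v, H.Jn a u v → Q.Jn a (π u) (π v) := by
    intro a u v h5
    unfold Gr.Jn at h5 ⊢
    rw [hQf, hQg]
    rcases h5 with ⟨h5, h6⟩ | ⟨h5, h6⟩
    · left; rw [h5, h6]; exact ⟨rfl, rfl⟩
    · right; rw [h5, h6]; exact ⟨rfl, rfl⟩
  have hpar' : ∀ a ∈ E1, a ≠ c' → ¬ H.Jn a x y := by
    intro a ha hac hj
    have h5 := jnπ a x y hj
    rw [πx, πy] at h5
    unfold Gr.Jn at h5
    rw [hQf, hQg] at h5
    have h6 : π (H.f a) = π (H.g a) := by
      rcases h5 with ⟨h5, h6⟩ | ⟨h5, h6⟩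
      · rw [h5, h6]
      · rw [h5, h6]
    exact hpar a (Finset.mem_sdiff.2 ⟨ha, fun h => hac (Finset.mem_singleton.1 h)⟩) h6
  have hjc' : H.Jn c' x y := Or.inl ⟨hx, hy⟩
  have hsame : ∀ a b u v, H.Jn a u v → H.Jn b u v → H.Jn a x y → H.Jn b x y := by
    intro a b u v h5 h6 h7
    rcases Gr.Jn.ends h7 h5 with ⟨rfl, rfl⟩ | ⟨rfl, rfl⟩
    · exact h6
    · exact h6.symm
  have hsim : H.Simple E1 := by
    intro a ha b hb u v hau hbv
    by_cases hac : a = c'
    · by_cases hbc : b = c'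
      · rw [hac, hbc]
      · rw [hac] at hau
        exact absurd (hsame c' b u v hau hbv hjc') (hpar' b hb hbc)
    · by_cases hbc : b = c'
      · rw [hbc] at hbv
        exact absurd (hsame c' a u v hbv hau hjc') (hpar' a ha hac)
      · exact hsQ a (Finset.mem_sdiff.2 ⟨ha, fun h => hac (Finset.mem_singleton.1 h)⟩) b
          (Finset.mem_sdiff.2 ⟨hb, fun h => hbc (Finset.mem_singleton.1 h)⟩) _ _
          (jnπ a u v hau) (jnπ b u v hbv)
  -- neighbours of `x` and `y`
  obtain ⟨A, hA⟩ : ∃ A : Finset (Fin m), ∀ z, z ∈ A ↔ z ∈ H.U ∧ z ≠ y ∧ H.Adj E1 x z :=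
    ⟨H.U.filter fun z => z ≠ y ∧ H.Adj E1 x z, fun z => by rw [Finset.mem_filter]⟩
  obtain ⟨B, hB⟩ : ∃ B : Finset (Fin m), ∀ z, z ∈ B ↔ z ∈ H.U ∧ z ≠ x ∧ H.Adj E1 y z :=
    ⟨H.U.filter fun z => z ≠ x ∧ H.Adj E1 y z, fun z => by rw [Finset.mem_filter]⟩
  have hxA : x ∉ A := fun h5 => (hon.adj_mem ((hA x).1 h5).2.2).2.2 rfl
  have hyA : y ∉ A := fun h5 => ((hA y).1 h5).2.1 rfl
  have hyB : y ∉ B := fun h5 => (hon.adj_mem ((hB y).1 h5).2.2).2.2 rfl
  have hxB : x ∉ B := fun h5 => ((hB x).1 h5).2.1 rfl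
  have hA2 : 2 ≤ A.card := by
    have h5 := hdeg x hxU
    rw [star_card_eq hon hsim] at h5
    have h6 : 3 ≤ (insert y A).card := by
      refine h5.trans (Finset.card_le_card fun z hz => ?_)
      rw [Finset.mem_filter] at hz
      rw [Finset.mem_insert]
      by_cases hzy : z = y
      · exact Or.inl hzy
      · exact Or.inr ((hA z).2 ⟨hz.1, hzy, hz.2⟩)
    rw [Finset.card_insert_of_notMem hyA] at h6
    omega
  have hB2 : 2 ≤ B.card := by
    have h5 := hdeg y hyU
    rw [star_card_eq hon hsim] at h5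
    have h6 : 3 ≤ (insert x B).card := by
      refine h5.trans (Finset.card_le_card fun z hz => ?_)
      rw [Finset.mem_filter] at hz
      rw [Finset.mem_insert]
      by_cases hzy : z = x
      · exact Or.inl hzy
      · exact Or.inr ((hB z).2 ⟨hz.1, hzy, hz.2⟩)
    rw [Finset.card_insert_of_notMem hxB] at h6
    omega
  have hAB : ∀ z, z ∈ A → z ∉ B := by
    intro z hzA hzB
    obtain ⟨-, hzy, a, ha, haj⟩ := (hA z).1 hzA
    obtain ⟨-, hzx, b, hb, hbj⟩ := (hB z).1 hzB
    have hac : a ≠ c' := by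
      rintro rfl
      rcases Gr.Jn.ends haj hjc' with ⟨-, h5⟩ | ⟨h5, -⟩
      · exact hzy h5
      · exact hxy h5
    have hbc : b ≠ c' := by
      rintro rfl
      rcases Gr.Jn.ends hbj hjc' with ⟨h5, -⟩ | ⟨-, h5⟩
      · exact hxy h5.symm
      · exact hzx h5
    have h5 := jnπ a x z haj
    have h6 := jnπ b y z hbj
    rw [πx] at h5
    rw [πy] at h6
    have h7 := hsQ a (Finset.mem_sdiff.2 ⟨ha, fun h => hac (Finset.mem_singleton.1 h)⟩) b
      (Finset.mem_sdiff.2 ⟨hb, fun h => hbc (Finset.mem_singleton.1 h)⟩) _ _ h5 h6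
    rw [h7] at haj
    rcases Gr.Jn.ends haj hbj with ⟨h8, -⟩ | ⟨h8, -⟩
    · exact hxy h8
    · exact hzx h8.symm
  have hdisj : Disjoint (insert x B) (insert y A) := by
    rw [Finset.disjoint_left]
    intro z hz hz'
    rw [Finset.mem_insert] at hz hz'
    rcases hz with rfl | hz
    · rcases hz' with h5 | h5
      · exact hxy h5
      · exact hxA h5
    · rcases hz' with rfl | h5
      · exact hyB hz
      · exact hAB z h5 hz
  have hsub : insert x B ∪ insert y A ⊆ H.U := by
    intro z hz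
    rw [Finset.mem_union, Finset.mem_insert, Finset.mem_insert] at hz
    rcases hz with (rfl | hz) | (rfl | hz)
    · exact hxU
    · exact ((hB z).1 hz).1
    · exact hyU
    · exact ((hA z).1 hz).1
  have hc1 : (insert x B).card = B.card + 1 := Finset.card_insert_of_notMem hxB
  have hc2 : (insert y A).card = A.card + 1 := Finset.card_insert_of_notMem hyA
  have hc3 : (insert x B ∪ insert y A).card = (B.card + 1) + (A.card + 1) := by
    rw [Finset.card_union_of_disjoint hdisj, hc1, hc2]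
  have hc4 := Finset.card_le_card hsub
  have hunion : insert x B ∪ insert y A = H.U :=
    Finset.eq_of_subset_of_card_le hsub (by omega)
  have hadj : ∀ u v, u ∈ H.U → v ∈ H.U → u ≠ x → u ≠ y → v ≠ x → v ≠ y → u ≠ v →
      ∃ a ∈ E1, H.Jn a u v := by
    intro u v hu hv hux huy hvx hvy huv
    obtain ⟨a, ha, haj⟩ := hadjQ u ((hQmem u).2 ⟨hu, huy⟩) v ((hQmem v).2 ⟨hv, hvy⟩) huv
    refine ⟨a, (Finset.mem_sdiff.1 ha).1, ?_⟩
    unfold Gr.Jn at haj
    rw [hQf, hQg] at haj
    rcases haj with ⟨h5, h6⟩ | ⟨h5, h6⟩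
    · exact Or.inl ⟨πinv _ _ h5 hux, πinv _ _ h6 hvx⟩
    · exact Or.inr ⟨πinv _ _ h5 hvx, πinv _ _ h6 hux⟩
  -- the deleted edges
  obtain ⟨D, hD⟩ : ∃ D : Finset α, ∀ a, a ∈ D ↔ a ∈ E1 ∧
      ((H.f a ∈ A ∧ H.g a ∈ A) ∨ (H.f a ∈ B ∧ H.g a ∈ B)) :=
    ⟨E1.filter fun a => (H.f a ∈ A ∧ H.g a ∈ A) ∨ (H.f a ∈ B ∧ H.g a ∈ B),
      fun a => by rw [Finset.mem_filter]⟩
  have hDj : ∀ a u v, H.Jn a u v → (a ∈ D ↔ a ∈ E1 ∧ ((u ∈ A ∧ v ∈ A) ∨ (u ∈ B ∧ v ∈ B))) := by
    intro a u v hj
    rw [hD]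
    rcases hj with ⟨rfl, rfl⟩ | ⟨rfl, rfl⟩
    · exact Iff.rfl
    · rw [and_comm (a := H.f a ∈ A), and_comm (a := H.f a ∈ B)]
  have hk33 : IsK33 H (E1 \ D) := by
    refine ⟨hon.mono Finset.sdiff_subset, ?_, insert x B, insert y A, hunion, hdisj, by omega,
      by omega, ?_⟩
    · intro a ha b hb u v
      exact hsim a (Finset.mem_sdiff.1 ha).1 b (Finset.mem_sdiff.1 hb).1 u v
    · have half : ∀ u ∈ insert x B, ∀ v ∈ insert y A, H.Adj (E1 \ D) u v := by
        intro u hu v hv
        have hmk : ∀ a ∈ E1, H.Jn a u v → H.Adj (E1 \ D) u v := by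
          intro a ha haj
          refine ⟨a, Finset.mem_sdiff.2 ⟨ha, fun h5 => ?_⟩, haj⟩
          rcases ((hDj a u v haj).1 h5).2 with ⟨h6, h7⟩ | ⟨h6, h7⟩
          · rw [Finset.mem_insert] at hu
            rcases hu with rfl | hu
            · exact hxA h6
            · exact hAB u h6 hu
          · rw [Finset.mem_insert] at hv
            rcases hv with rfl | hv
            · exact hyB h7
            · exact hAB v hv h7
        rw [Finset.mem_insert] at hu hv
        rcases hu with rfl | hu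
        · rcases hv with rfl | hv
          · exact hmk c' hc'N hjc'
          · obtain ⟨-, -, a, ha, haj⟩ := (hA v).1 hv
            exact hmk a ha haj
        · rcases hv with rfl | hv
          · obtain ⟨-, -, a, ha, haj⟩ := (hB u).1 hu
            exact hmk a ha haj.symm
          · have huv : u ≠ v := by
              rintro rfl
              exact hAB u hv hu
            obtain ⟨a, ha, haj⟩ := hadj u v ((hB u).1 hu).1 ((hA v).1 hv).1
              ((hB u).1 hu).2.1 (fun h => hyB (h ▸ hu)) (fun h => hxA (h ▸ hv)) ((hA v).1 hv).2.1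
              huv
            exact hmk a ha haj
      intro u hu v hv
      constructor
      · rintro ⟨a, ha, haj⟩
        obtain ⟨haE, haD⟩ := Finset.mem_sdiff.1 ha
        rw [hDj a u v haj] at haD
        have huv := (hon.jn_mem haE haj).2.2
        have hadjuv : H.Adj E1 u v := ⟨a, haE, haj⟩
        rw [← hunion, Finset.mem_union] at hu hv
        rcases hu with hu | hu
        · rcases hv with hv | hv
          · exfalso
            rw [Finset.mem_insert] at hu hv
            rcases hu with rfl | hu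
            · rcases hv with rfl | hv
              · exact huv rfl
              · exact hAB v ((hA v).2 ⟨((hB v).1 hv).1, fun h => hyB (h ▸ hv), hadjuv⟩) hv
            · rcases hv with rfl | hv
              · exact hAB u ((hA u).2 ⟨((hB u).1 hu).1, fun h => hyB (h ▸ hu), hadjuv.symm⟩) hu
              · exact haD ⟨haE, Or.inr ⟨hu, hv⟩⟩
          · exact Or.inl ⟨hu, hv⟩
        · rcases hv with hv | hv
          · exact Or.inr ⟨hu, hv⟩
          · exfalso
            rw [Finset.mem_insert] at hu hv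
            rcases hu with rfl | hu
            · rcases hv with rfl | hv
              · exact huv rfl
              · exact hAB v hv ((hB v).2 ⟨((hA v).1 hv).1, fun h => hxA (h ▸ hv), hadjuv⟩)
            · rcases hv with rfl | hv
              · exact hAB u hu ((hB u).2 ⟨((hA u).1 hu).1, fun h => hxA (h ▸ hu), hadjuv.symm⟩)
              · exact haD ⟨haE, Or.inl ⟨hu, hv⟩⟩
      · rintro (⟨hu', hv'⟩ | ⟨hu', hv'⟩)
        · exact half u hu' v hv'
        · exact (half v hv' u hu').symm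
  have hkur : KurMinor M {c} D := by
    refine ⟨?_, Finset.singleton_subset_iff.2 hc, ?_, m, H, hH.del D, Or.inl ?_⟩
    · rw [Finset.disjoint_singleton_left]
      intro h5
      have h6 := ((hD c).1 h5).1
      rw [← hE1, LM.con_E, Finset.mem_sdiff, Finset.mem_singleton] at h6
      exact h6.2 rfl
    · intro a ha
      have h6 := ((hD a).1 ha).1
      rw [← hE1, LM.con_E, Finset.mem_sdiff] at h6
      exact h6.1
    · rw [LM.del_E, hE1]
      exact hk33
  have hD0 := (kurMinor_indep hdel hkur).1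
  obtain ⟨u, hu, v, hv, huv⟩ := Finset.one_lt_card.1 (show 1 < A.card by omega)
  obtain ⟨a, ha, haj⟩ := hadj u v ((hA u).1 hu).1 ((hA v).1 hv).1 (fun h => hxA (h ▸ hu))
    ((hA u).1 hu).2.1 (fun h => hxA (h ▸ hv)) ((hA v).1 hv).2.1 huv
  have h5 : a ∈ D := (hDj a u v haj).2 ⟨ha, Or.inl ⟨hu, hv⟩⟩
  rw [hD0] at h5
  exact Finset.notMem_empty a h5

theorem Min1.exists_edge {M : BM α} (h : Min1 M) :
    (∃ e ∈ M.E, ¬ Cographic (M.del {e})) ∨ ∃ e ∈ M.E, ¬ Graphic (M.con {e}) := by
  by_contra hcon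
  push Not at hcon
  obtain ⟨hdel, hcon⟩ := hcon
  obtain ⟨C, D, hk⟩ := exists_kurMinor h.reg h.nc
  have hdel' : ∀ x ∈ M.dual.E, Cographic (M.dual.del {x}) := by
    intro x hx
    have h1 := hcon x hx
    unfold Cographic
    rw [LM.dual_del, LM.dual_dual]
    exact h1
  have hC : C ⊆ M.E := hk.2.1
  obtain ⟨C', D', hk'⟩ := exists_kurMinor h.dual.reg h.dual.nc
  obtain ⟨rfl, hrk, n, G, hG, hcase⟩ := kurMinor_nums hdel hk
  obtain ⟨rfl, hrk', n', G', hG', hcase'⟩ := kurMinor_nums hdel' hk'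
  have h1 := M.rk_dual M.E (Finset.Subset.refl _)
  rw [Finset.sdiff_self, M.rk_empty] at h1
  rw [LM.dual_E] at hcase'
  have h10 := h.card
  rcases hcase with ⟨hk1, a1, a2⟩ | ⟨hk1, a1, a2⟩
  · rcases hcase' with ⟨hk2, b1, b2⟩ | ⟨hk2, b1, b2⟩
    · omega
    · have h2 : C'.card = 0 := by omega
      rw [Finset.card_eq_zero] at h2
      subst h2
      rw [LM.con_empty] at hG'
      exact h.nc hG'.graphic
  · rcases hcase' with ⟨hk2, b1, b2⟩ | ⟨hk2, b1, b2⟩
    · have h2 : C.card = 0 := by omega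
      rw [Finset.card_eq_zero] at h2
      subst h2
      rw [LM.con_empty] at hG
      exact h.ng hG.graphic
    · have h2 : C.card = 2 := by omega
      obtain ⟨c, c', hcc, rfl⟩ := Finset.card_eq_two.1 h2
      exact h.step_zero_k5 hdel hcon hcc (hC (by simp)) (hC (by simp)) (by rw [hrk, h2]) hG hk1

end Pool.Agent.H53.Sey
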