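import Pool.Agent.H53.Sey.S1b

/-!
# S1, part D: nonrigid edges (job SEYS-D)

`Std M e G T`: the standing situation.

`g3_of_conn3`: `deg_of_conn3`, `simple_of_conn3`, `good_of_conn3`, `vc_of_good` for
`Rp (M.del {e}) G`.

`exists_std`: `Min1.conn3_del`, `exists_g3` (`ind {e} ∉ M.D` by 3-connectivity of `M`); `|T| ≥ 4`:
`|T|` is even and `|T| ≤ 2` makes `M` graphic (`GRep.graphic_of_card_le_two`).

`Std.nonrigid`: let `N = M.del {e}` (3-connected, `Min1.conn3_del`), `f` not rigid in `N`.
* If `N.del {f}` is not cographic and `N.del {f}` is good: `M.del {f}` is not cographic, so graphic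
  (`Min1.del`); `pat_del` gives `C1` (second alternative) or `C2`. `C2` with `{u, v}`, `{s, t}`
  disjoint: `M.con {c}` is neither graphic (`C2.not_graphic_con`) nor cographic (`C2.cographic`):
  contradiction. `C2` with a common element: `C2.lam_le` contradicts `I4c` (6 elements against
  at least 4).
* If `N.con {f}` is not cographic and `N.con {f}` is good: `M.con {f}` is graphic; `pat_con`.
* One of the two cases holds: if both `N.del {f}`, `N.con {f}` are not cographic by `bixby`, if only
  `N.del {f}` is not cographic by `pl_del`, if only `N.con {f}` is not cographic by `pl_con`.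
-/

set_option autoImplicit false

namespace Pool.Agent.H53.Sey

open Pool.Agent.H63.Sey

universe u v w

variable {α : Type u} [DecidableEq α] {V : Type v} [DecidableEq V]

/-- the standing situation -/
structure Std (M : BM α) (e : α) (G : Gr α V) (T : Finset V) : Prop where
  min : Min1 M
  nc : ¬ Cographic (M.del {e})
  g3 : G3 M e G T
  T4 : 4 ≤ T.card

lemma g3_of_conn3 {M : BM α} {e : α} {G : Gr α V} {T : Finset V} (h : GRep M e G T)
    (h3 : (M.del {e}).Conn3) (hcard : 5 ≤ M.E.card)
    (hne : ∀ x ∈ G.U, (G.star (M.E \ {e}) x).Nonempty) : G3 M e G T := by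
  have hE : (M.del {e}).E = M.E \ {e} := rfl
  have hcard' : 4 ≤ (M.del {e}).E.card := by
    rw [hE, Finset.card_sdiff_of_subset (Finset.singleton_subset_iff.2 h.he),
      Finset.card_singleton]
    omega
  have hrp : Rp (M.del {e}) G := h.del_rp
  have hdeg : ∀ x ∈ G.U, 3 ≤ (G.star (M.E \ {e}) x).card := deg_of_conn3 hrp h3 hcard' hne
  exact ⟨h, vc_of_good hrp (good_of_conn3 h3) ∅ (fun x hx _ => hdeg x hx), hdeg,
    simple_of_conn3 hrp h3 hcard'⟩

private lemma s1d_T4 {M : BM α} (h : Min1 M) {e : α} {G : Gr α V} {T : Finset V}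
    (hG : GRep M e G T) : 4 ≤ T.card := by
  by_contra hcon
  have h1 := hG.even
  have h2 : T.card ≤ 2 := by
    rcases h1 with ⟨k, hk⟩
    omega
  exact h.ng (hG.graphic_of_card_le_two h2)

theorem exists_std {M : BM α} (h : Min1 M) {e : α} (he : e ∈ M.E)
    (hnc : ¬ Cographic (M.del {e})) :
    ∃ (n : ℕ) (G : Gr α (Fin n)) (T : Finset (Fin n)), Std M e G T := by
  have hcard := h.card
  have h3 : (M.del {e}).Conn3 := h.conn3_del he hnc
  have hgr : Graphic (M.del {e}) := (h.del e he).resolve_right hnc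
  have hc : ind {e} ∉ M.D := by
    intro hmem
    have h1 := cocycle_card_of_conn3 h.i4c.1 (by omega) (Finset.singleton_subset_iff.2 he)
      (Finset.singleton_nonempty e) hmem
    rw [Finset.card_singleton] at h1
    omega
  obtain ⟨n, G, T, hG⟩ := exists_g3 hgr he h3 hc (by omega)
  exact ⟨n, G, T, h, hnc, hG, s1d_T4 h hG.rep⟩

theorem Std.of_gRep {M : BM α} (h : Min1 M) {e : α} {G : Gr α V} {T : Finset V}
    (hG : GRep M e G T) (hnc : ¬ Cographic (M.del {e}))
    (hne : ∀ x ∈ G.U, (G.star (M.E \ {e}) x).Nonempty) : Std M e G T := by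
  have hcard := h.card
  exact ⟨h, hnc, g3_of_conn3 hG (h.conn3_del hG.he hnc) (by omega) hne, s1d_T4 h hG⟩

/-- a good deletion which is not cographic gives pattern 1 -/
private lemma s1d_del {M : BM α} {e : α} {G : Gr α V} {T : Finset V} (h : Std M e G T) {f : α}
    (hf : f ∈ M.E \ {e}) (hnc : ¬ Cographic ((M.del {e}).del {f}))
    (hgood : Good ((M.del {e}).del {f})) : ∃ a b w p u v q, C1 M e G T f a b w p u v q := by
  have hfE : f ∈ M.E := (Finset.mem_sdiff.1 hf).1
  have hnc' : ¬ Cographic (M.del {f}) := by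
    intro h1
    apply hnc
    rw [LM.del_del, Finset.union_comm, ← LM.del_del]
    exact Pool.Agent.H87.Sey.cographic_minor h1 (LM.isMinor_del _ _)
  have hgr : Graphic (M.del {f}) := (h.min.del f hfE).resolve_right hnc'
  rcases pat_del h.g3 hf hgood hgr h.T4 with h1 | ⟨a, b, c, d, w, p, u, v, s, t, h1⟩
  · exact h1
  · exfalso
    obtain ⟨⟨-, ha, hb, hc, hd⟩, ⟨fa, fb, fc, fd, ab, ac, ad, bc, bd, cd⟩, -, -⟩ := h1.basic h.g3
    by_cases hdis : Disjoint ({u, v} : Finset V) {s, t}
    · rcases h.min.con c (Finset.mem_sdiff.1 hc).1 with h2 | h2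
      · exact h1.not_graphic_con h.g3 hdis hgood h2
      · exact hnc (h1.cographic h.g3 h2)
    · have h2 := h1.lam_le h.g3 hdis
      have hcard := h.min.card
      have ne : ∀ {x : α}, x ∈ M.E \ {e} → x ∈ M.E ∧ x ≠ e := fun hx => by
        rw [Finset.mem_sdiff, Finset.mem_singleton] at hx
        exact hx
      have hsub : ({f, a, b, c, d, e} : Finset α) ⊆ M.E := by
        intro x hx
        simp only [Finset.mem_insert, Finset.mem_singleton] at hx
        rcases hx with rfl | rfl | rfl | rfl | rfl | rfl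
        · exact hfE
        · exact (ne ha).1
        · exact (ne hb).1
        · exact (ne hc).1
        · exact (ne hd).1
        · exact h.g3.rep.he
      have hc6 : ({f, a, b, c, d, e} : Finset α).card = 6 := by
        rw [Finset.card_insert_of_notMem, Finset.card_insert_of_notMem,
          Finset.card_insert_of_notMem, Finset.card_insert_of_notMem,
          Finset.card_insert_of_notMem, Finset.card_singleton]
        · simp [(ne hd).2]
        · simp [(ne hc).2, cd]
        · simp [(ne hb).2, bc, bd]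
        · simp [(ne ha).2, ab, ac, ad]
        · simp [(ne hf).2, fa, fb, fc, fd]
      have h3 : (M.E \ {f, a, b, c, d, e}).card + ({f, a, b, c, d, e} : Finset α).card =
          M.E.card := Finset.card_sdiff_add_card_eq_card hsub
      have h4 := h.min.i4c.2 _ hsub (by omega) (by omega)
      omega

/-- a good contraction which is not cographic gives `|T| = 4` and both ends in `T` -/
private lemma s1d_con {M : BM α} {e : α} {G : Gr α V} {T : Finset V} (h : Std M e G T) {f : α}
    (hf : f ∈ M.E \ {e}) (hnc : ¬ Cographic ((M.del {e}).con {f}))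
    (hgood : Good ((M.del {e}).con {f})) {x y : V} (hj : G.Jn f x y) :
    T.card = 4 ∧ x ∈ T ∧ y ∈ T := by
  have hf' := Finset.mem_sdiff.1 hf
  have hfe : f ≠ e := fun h1 => hf'.2 (Finset.mem_singleton.2 h1)
  have hnc' : ¬ Cographic (M.con {f}) := by
    intro h1
    apply hnc
    rw [← LM.con_del M (Finset.disjoint_singleton.2 hfe)]
    exact Pool.Agent.H87.Sey.cographic_minor h1 (LM.isMinor_del _ _)
  have hgr : Graphic (M.con {f}) := (h.min.con f hf'.1).resolve_right hnc'
  exact pat_con h.g3 hf hj hgood hgr h.T4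

/-- pattern of a nonrigid edge -/
theorem Std.nonrigid {M : BM α} {e : α} {G : Gr α V} {T : Finset V} (h : Std M e G T) {f : α}
    (hf : f ∈ M.E \ {e}) (hr : ¬ Rigid (M.del {e}) f) {x y : V} (hj : G.Jn f x y) :
    (T.card = 4 ∧ x ∈ T ∧ y ∈ T) ∨
      (¬ Cographic ((M.del {e}).del {f}) ∧ ∃ a b w p u v q, C1 M e G T f a b w p u v q) := by
  have h3 : (M.del {e}).Conn3 := h.min.conn3_del h.g3.rep.he h.nc
  have hfN : f ∈ (M.del {e}).E := hf
  by_cases hd : Cographic ((M.del {e}).del {f})
  · have hc : ¬ Cographic ((M.del {e}).con {f}) := fun hc => hr ⟨hd, hc⟩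
    exact Or.inl (s1d_con h hf hc (pl_con h3 hfN hd hc) hj)
  · by_cases hc : Cographic ((M.del {e}).con {f})
    · exact Or.inr ⟨hd, s1d_del h hf hd (pl_del h3 hfN hc hd)⟩
    · rcases bixby h3 hfN with hg | hg
      · exact Or.inr ⟨hd, s1d_del h hf hd hg⟩
      · exact Or.inl (s1d_con h hf hc hg hj)

end Pool.Agent.H53.Sey
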