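import Pool.Agent.H53.Sey.S1d

/-!
# S1, part E: the mirror graft (job SEYS-E)

`C1.mirror`: the graft of `M` with respect to the element `f`: `e` becomes an edge joining `w` and
`q`, `a` joins `w` and `v`, `b` joins `w` and `u`, and the new set is `{w, u, v, p}`. Use `GRep.swap`
with `q := w`, `Z = {u, v}`: `φ' w = φ w + φ u + φ v`:
`a`: `φ' w + φ u = φ w + φ v`; `b`: `φ' w + φ v = φ w + φ u`; `e`: `φ' w + φ u + φ v + φ q = φ w +
φ q`; `f`: `φ' w + φ p = φ w + φ u + φ v + φ p`. All stars are nonempty (degrees at `u, v` do not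
change, the one at `q` increases, the one at `p` drops by one from at least 3); `M.del {f}` is
3-connected (`Min1.conn3_del`), so `deg_of_conn3`, `simple_of_conn3`, `vc_of_good` give `G3`.
-/

set_option autoImplicit false

namespace Pool.Agent.H53.Sey

open Pool.Agent.H63.Sey

universe u v w

variable {α : Type u} [DecidableEq α] {V : Type v} [DecidableEq V]

/-- the mirror graph -/
def mir (G : Gr α V) (e a b : α) (w u v q : V) : Gr α V where
  U := G.U
  f := fun c => if c = e then w else if c = a then w else if c = b then w else G.f c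
  g := fun c => if c = e then q else if c = a then v else if c = b then u else G.g c

private lemma mir_z1 : ∀ a b c d : ZMod 2, a + (b + (c + d)) = (a + (b + c)) + d := by decide
private lemma mir_z2 : ∀ a b c d : ZMod 2, a + (b + (c + d)) = d + (a + (b + c)) := by decide
private lemma mir_z3 : ∀ a b c d : ZMod 2, a + d = (a + (b + c)) + (b + (c + d)) := by decide
private lemma mir_z4 : ∀ a b c : ZMod 2, a + c = (a + (b + c)) + b := by decide
private lemma mir_z5 : ∀ a b c : ZMod 2, a + c = b + (a + (b + c)) := by decide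
private lemma mir_z6 : ∀ a b c : ZMod 2, a + b = (a + (b + c)) + c := by decide
private lemma mir_z7 : ∀ a b c : ZMod 2, a + b = c + (a + (b + c)) := by decide

private lemma sum_four {x y z t : V} (h1 : x ≠ y) (h2 : x ≠ z) (h3 : x ≠ t) (h4 : y ≠ z)
    (h5 : y ≠ t) (h6 : z ≠ t) (φ : V → ZMod 2) :
    ∑ s ∈ ({x, y, z, t} : Finset V), φ s = φ x + (φ y + (φ z + φ t)) := by
  rw [Finset.sum_insert (by simp [h1, h2, h3]), Finset.sum_insert (by simp [h4, h5]),
    Finset.sum_insert (by simp [h6]), Finset.sum_singleton]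

/-- the mirror graft -/
theorem C1.mirror {M : BM α} {e : α} {G : Gr α V} {T : Finset V} (h : Std M e G T)
    {f a b : α} {w p u v q : V} (hc : C1 M e G T f a b w p u v q)
    (hnc : ¬ Cographic ((M.del {e}).del {f})) :
    Std M f (mir G e a b w u v q) {w, u, v, p} ∧
      C1 M f (mir G e a b w u v q) {w, u, v, p} e b a w q u v p := by
  obtain ⟨hf, ha, hb, hfa, hfb, hab, hwU, hpU, huU, hvU, hqU, hwp, hwu, hwv, hwq, hpu, hpv, huv,
    huq, hvq⟩ := hc.basic h.g3
  have hfE := (Finset.mem_sdiff.1 hf).1
  have haE := (Finset.mem_sdiff.1 ha).1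
  have hbE := (Finset.mem_sdiff.1 hb).1
  have heE := h.g3.rep.he
  have hfe : f ≠ e := fun h' => (Finset.mem_sdiff.1 hf).2 (Finset.mem_singleton.2 h')
  have hae : a ≠ e := fun h' => (Finset.mem_sdiff.1 ha).2 (Finset.mem_singleton.2 h')
  have hbe : b ≠ e := fun h' => (Finset.mem_sdiff.1 hb).2 (Finset.mem_singleton.2 h')
  have hon := h.g3.rep.on
  obtain ⟨G', hG'⟩ : ∃ G', G' = mir G e a b w u v q := ⟨_, rfl⟩
  have gU : G'.U = G.U := by rw [hG']; rfl
  have fe : G'.f e = w := by rw [hG']; simp [mir]
  have ge : G'.g e = q := by rw [hG']; simp [mir]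
  have fa : G'.f a = w := by rw [hG']; simp [mir]
  have ga : G'.g a = v := by rw [hG']; simp [mir, hae]
  have fb : G'.f b = w := by rw [hG']; simp [mir]
  have gb : G'.g b = u := by rw [hG']; simp [mir, hbe, hab.symm]
  have fo : ∀ c, c ≠ e → c ≠ a → c ≠ b → G'.f c = G.f c := by
    intro c h1 h2 h3; rw [hG']; simp [mir, h1, h2, h3]
  have go : ∀ c, c ≠ e → c ≠ a → c ≠ b → G'.g c = G.g c := by
    intro c h1 h2 h3; rw [hG']; simp [mir, h1, h2, h3]
  -- other edges do not meet `w`
  have hw : ∀ c ∈ M.E, c ≠ e → c ≠ a → c ≠ b → c ≠ f → G.f c ≠ w ∧ G.g c ≠ w := by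
    intro c hcE h1 h2 h3 h4
    have h5 : c ∉ G.star (M.E \ {e}) w := by
      rw [hc.star]
      simp [h2, h3, h4]
    rw [Gr.mem_star, not_and, not_or] at h5
    exact h5 (Finset.mem_sdiff.2 ⟨hcE, fun h' => h1 (Finset.mem_singleton.1 h')⟩)
  have hrep : GRep M f G' {w, u, v, p} := by
    refine h.g3.rep.swap w {u, v} ?_ hfE ?_ ?_ ?_ ?_
    · simp [hwu, hwv]
    · intro c hcf
      obtain ⟨hcE, hcf⟩ := Finset.mem_sdiff.1 hcf
      rw [Finset.mem_singleton] at hcf
      rw [gU]
      by_cases h1 : c = e
      · rw [h1, fe, ge]; exact ⟨hwU, hqU, hwq⟩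
      by_cases h2 : c = a
      · rw [h2, fa, ga]; exact ⟨hwU, hvU, hwv⟩
      by_cases h3 : c = b
      · rw [h3, fb, gb]; exact ⟨hwU, huU, hwu⟩
      rw [fo c h1 h2 h3, go c h1 h2 h3]
      exact hon c (Finset.mem_sdiff.2 ⟨hcE, fun h' => h1 (Finset.mem_singleton.1 h')⟩)
    · rw [gU]
      intro x hx
      simp only [Finset.mem_insert, Finset.mem_singleton] at hx
      rcases hx with rfl | rfl | rfl | rfl <;> assumption
    · have h1 : ({w, u, v, p} : Finset V).card = 4 := by
        rw [Finset.card_insert_of_notMem (by simp [hwu, hwv, hwp]),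
          Finset.card_insert_of_notMem (by simp [huv, hpu.symm]),
          Finset.card_insert_of_notMem (by simp [hpv.symm]), Finset.card_singleton]
      rw [h1]
      decide
    · intro φ
      funext c
      unfold Gr.vec
      by_cases h1 : c = f
      · rw [if_pos h1, h1, if_neg hfe, if_pos hfE, sum_four hwu hwv hwp huv hpu.symm hpv.symm,
          Finset.sum_pair huv]
        rcases hc.jf with ⟨h2, h3⟩ | ⟨h2, h3⟩
        · rw [h2, h3]
          simp only [if_true, hwp.symm, if_false]
          exact mir_z1 _ _ _ _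
        · rw [h2, h3]
          simp only [if_true, hwp.symm, if_false]
          exact mir_z2 _ _ _ _
      rw [if_neg h1]
      by_cases h2 : c = e
      · rw [if_pos h2, h2, if_pos heE, fe, ge, hc.T_eq, sum_four hwu hwv hwq huv huq hvq,
          Finset.sum_pair huv]
        simp only [if_true, hwu.symm, hwv.symm, hwq.symm, if_false]
        exact mir_z3 _ _ _ _
      rw [if_neg h2]
      by_cases h3 : c = a
      · rw [h3, if_pos haE, if_pos haE, fa, ga, Finset.sum_pair huv]
        rcases hc.ja with ⟨h4, h5⟩ | ⟨h4, h5⟩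
        · rw [h4, h5]
          simp only [if_true, hwu.symm, if_false]
          exact mir_z4 _ _ _
        · rw [h4, h5]
          simp only [if_true, hwu.symm, if_false]
          exact mir_z5 _ _ _
      by_cases h4 : c = b
      · rw [h4, if_pos hbE, if_pos hbE, fb, gb, Finset.sum_pair huv]
        rcases hc.jb with ⟨h5, h6⟩ | ⟨h5, h6⟩
        · rw [h5, h6]
          simp only [if_true, hwv.symm, if_false]
          exact mir_z6 _ _ _
        · rw [h5, h6]
          simp only [if_true, hwv.symm, if_false]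
          exact mir_z7 _ _ _
      by_cases h5 : c ∈ M.E
      · obtain ⟨h6, h7⟩ := hw c h5 h2 h3 h4 h1
        rw [if_pos h5, if_pos h5, fo c h2 h3 h4, go c h2 h3 h4]
        simp only [h6, h7, if_false]
      · rw [if_neg h5, if_neg h5]
  have hncf : ¬ Cographic (M.del {f}) := by
    intro h1
    apply hnc
    have h2 : ((M.del {e}).del {f}).IsMinor (M.del {f}) := by
      refine ⟨∅, {e}, Finset.disjoint_empty_left _, ?_⟩
      rw [LM.con_empty, LM.del_del, LM.del_del, Finset.union_comm]
    exact Pool.Agent.H87.Sey.cographic_minor h1 h2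
  have hne : ∀ x ∈ G'.U, (G'.star (M.E \ {f}) x).Nonempty := by
    intro x hx
    rw [gU] at hx
    by_cases hxw : x = w
    · refine ⟨e, Gr.mem_star.2 ⟨Finset.mem_sdiff.2 ⟨heE, ?_⟩, ?_⟩⟩
      · rw [Finset.mem_singleton]
        exact hfe.symm
      · left; rw [fe, hxw]
    · have h1 := h.g3.deg x hx
      by_contra hcon
      rw [Finset.not_nonempty_iff_eq_empty] at hcon
      have h2 : G.star (M.E \ {e}) x ⊆ {f, a, b} := by
        intro c hcs
        by_contra h3
        simp only [Finset.mem_insert, Finset.mem_singleton, not_or] at h3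
        obtain ⟨h4, h5⟩ := Gr.mem_star.1 hcs
        obtain ⟨h6, h7⟩ := Finset.mem_sdiff.1 h4
        rw [Finset.mem_singleton] at h7
        have h8 : c ∈ G'.star (M.E \ {f}) x := by
          refine Gr.mem_star.2 ⟨Finset.mem_sdiff.2 ⟨h6, ?_⟩, ?_⟩
          · rw [Finset.mem_singleton]; exact h3.1
          · rw [fo c h7 h3.2.1 h3.2.2, go c h7 h3.2.1 h3.2.2]
            exact h5
        rw [hcon] at h8
        exact Finset.notMem_empty _ h8
      have h3 : G.star (M.E \ {e}) x = {f, a, b} := by
        refine Finset.eq_of_subset_of_card_le h2 ?_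
        exact (Finset.card_le_three).trans h1
      have h4 : f ∈ G.star (M.E \ {e}) x := by rw [h3]; simp
      have h5 : a ∈ G.star (M.E \ {e}) x := by rw [h3]; simp
      obtain ⟨-, h6⟩ := Gr.mem_star.1 h4
      obtain ⟨-, h7⟩ := Gr.mem_star.1 h5
      have h8 : x = p := by
        rcases hc.jf with ⟨h9, h10⟩ | ⟨h9, h10⟩
        · rw [h9, h10] at h6
          rcases h6 with h6 | h6
          · exact absurd h6.symm hxw
          · exact h6.symm
        · rw [h9, h10] at h6
          rcases h6 with h6 | h6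
          · exact h6.symm
          · exact absurd h6.symm hxw
      have h9 : x = u := by
        rcases hc.ja with ⟨h9, h10⟩ | ⟨h9, h10⟩
        · rw [h9, h10] at h7
          rcases h7 with h7 | h7
          · exact absurd h7.symm hxw
          · exact h7.symm
        · rw [h9, h10] at h7
          rcases h7 with h7 | h7
          · exact h7.symm
          · exact absurd h7.symm hxw
      exact hpu (h8.symm.trans h9)
  rw [← hG']
  refine ⟨Std.of_gRep h.min hrep hncf hne, ?_⟩
  have hst : G'.star (M.E \ {f}) w = {e, b, a} := by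
    ext c
    rw [Gr.mem_star, Finset.mem_sdiff]
    simp only [Finset.mem_insert, Finset.mem_singleton]
    constructor
    · rintro ⟨⟨h1, h2⟩, h3⟩
      by_contra h4
      push Not at h4
      obtain ⟨h4, h5, h6⟩ := h4
      rw [fo c h4 h6 h5, go c h4 h6 h5] at h3
      obtain ⟨h7, h8⟩ := hw c h1 h4 h6 h5 h2
      rcases h3 with h3 | h3
      · exact h7 h3
      · exact h8 h3
    · rintro (rfl | rfl | rfl)
      · exact ⟨⟨heE, hfe.symm⟩, Or.inl fe⟩
      · exact ⟨⟨hbE, hfb.symm⟩, Or.inl fb⟩
      · exact ⟨⟨haE, hfa.symm⟩, Or.inl fa⟩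
  refine ⟨Or.inl ⟨fe, ge⟩, Or.inl ⟨fb, gb⟩, Or.inl ⟨fa, ga⟩, hst, ?_, rfl, ?_⟩
  · rw [hst, Finset.card_insert_of_notMem (by simp [hbe.symm, hae.symm]),
      Finset.card_insert_of_notMem (by simp [hab.symm]), Finset.card_singleton]
  · rw [Finset.card_insert_of_notMem (by simp [hwu, hwv, hwp]),
      Finset.card_insert_of_notMem (by simp [huv, hpu.symm]),
      Finset.card_insert_of_notMem (by simp [hpv.symm]), Finset.card_singleton]

end Pool.Agent.H53.Sey
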