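import Pool.Agent.H53.Sey.S1e

/-!
# S1, part F: pattern 1, first half (job SEYS-F)

Situation: `Std M e G T`, `C1 M e G T f a b w p u v q`, `(M \ e) \ f` not cographic. So `w` is cubic
with neighbours `p, u, v` (edges `f, a, b`), `T = {w, u, v, q}`, `p ∉ T`, `u, v` not adjacent, `w, q`
not adjacent (`C1.regular`). `R` = edges of `M.E \ {e, f, a, b}` (the graph `G - w`). The mirror graft
`G'` (`C1.mirror`) has `T' = {w, u, v, p}` and the same edges in `R`.

`C1.nb_u`: `u` does not have exactly the two neighbours `p, q` in `R`: otherwise, if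
`star u = {a, g, h}` with `g` joining `u, p` and `h` joining `u, q`, the set
`A = {a, b, f, g, h, e}` has `lam_M A ≤ 2` (`GRep.lam_le`, `P = {w, u, v, p, q}`, `Q = U \ {w, u}`),
contradiction to `I4c`. The same with `u, v` exchanged.

`C1.rigid`: every `g ∈ R` is rigid in `K = ((M.del {e}).del {f}).con {a}`. Suppose not. Then `g` is not
rigid in `M.del {e}` and not in `M.del {f}` (minors; `K` is also `((M.del {f}).del {e}).con {a}`). Apply
`Std.nonrigid` to `g` (joining `x` and `y`, both `≠ w`) in both grafts. Call (I) the alternative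
that both ends are in the set, (II) the alternative `C1` at `g`: one end `x` of `g` is cubic and in the set, the other
end `y` is not in the set (`C1.regular`), and the two other neighbours of `x` are in the set.
* (I) for `T`, (I) for `T'`: `x, y ∈ {u, v, q} ∩ {u, v, p} = {u, v}`: but `u, v` are not adjacent.
* (I) for `T`, (II) for `T'`: `{x, y} = {u, q}` or `{v, q}`; `q ∉ T'`, so `u` (or `v`) is the cubic
  end in `G'`, with neighbours `q`, `w` and one more in `T'`, which is `p` (not `v`): `C1.nb_u`.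
* (II) for `T`, (I) for `T'`: symmetric.
* (II), (II) with the same cubic end `x`: `x ∈ {u, v}`, say `u`. In `G` its neighbours are `w`, `y` and
  an element of `T` different from `w, v`, so `q`; in `G'` they are `w, y` and `p`. So `p = q`:
  contradiction.
* (II), (II) with different cubic ends: `x ∈ T \ T' = {q}`, `y ∈ T' \ T = {p}`: `N_G(q) = {p, u, v}`
  (not `w`) and `N_{G'}(p) = {q, u, v}`, so in `G` the neighbours of `p` are `q, u, v, w`. So `{u, v}`
  separates `{w, p, q}` from the rest: `VC` gives `U = {w, p, q, u, v}`, so `G` has the 8 edges at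
  `w, p, q` only (`u, v` not adjacent): `|M.E| ≤ 9`. Contradiction to `Min1.card`.
-/

set_option autoImplicit false

namespace Pool.Agent.H53.Sey

open Pool.Agent.H63.Sey

universe u v w

variable {α : Type u} [DecidableEq α] {V : Type v} [DecidableEq V]

lemma C1.swap {M : BM α} {e : α} {G : Gr α V} {T : Finset V} {f a b : α} {w p u v q : V}
    (hc : C1 M e G T f a b w p u v q) : C1 M e G T f b a w p v u q where
  jf := hc.jf
  ja := hc.jb
  jb := hc.ja
  star := by
    rw [hc.star]
    ext c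
    simp only [Finset.mem_insert, Finset.mem_singleton]
    tauto
  star_card := hc.star_card
  T_eq := by
    rw [hc.T_eq]
    ext c
    simp only [Finset.mem_insert, Finset.mem_singleton]
    tauto
  T_card := hc.T_card

/-- `u` does not have exactly the neighbours `w, p, q` -/
lemma C1.nb_u {M : BM α} {e : α} {G : Gr α V} {T : Finset V} (h : Std M e G T)
    {f a b : α} {w p u v q : V} (hc : C1 M e G T f a b w p u v q) {g k : α}
    (hg : G.Jn g u p) (hk : G.Jn k u q) (hs : G.star (M.E \ {e}) u = {a, g, k}) : False := by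
  obtain ⟨hfE, haE, hbE, hfa, hfb, hab, hwU, hpU, huU, hvU, hqU, hwp, hwu, hwv, hwq, hpu, hpv,
    huv, huq, hvq⟩ := hc.basic h.g3
  have hgr := h.g3.rep
  have hon := hgr.on
  have heE : e ∈ M.E := hgr.he
  have hgs : g ∈ G.star (M.E \ {e}) u := by rw [hs]; simp
  have hks : k ∈ G.star (M.E \ {e}) u := by rw [hs]; simp
  have hgE := (Gr.mem_star.1 hgs).1
  have hkE := (Gr.mem_star.1 hks).1
  set A : Finset α := {a, b, f, g, k, e} with hA
  have hAE : A ⊆ M.E := by
    intro c hc'
    simp only [hA, Finset.mem_insert, Finset.mem_singleton] at hc'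
    rcases hc' with rfl | rfl | rfl | rfl | rfl | rfl
    · exact (Finset.mem_sdiff.1 haE).1
    · exact (Finset.mem_sdiff.1 hbE).1
    · exact (Finset.mem_sdiff.1 hfE).1
    · exact (Finset.mem_sdiff.1 hgE).1
    · exact (Finset.mem_sdiff.1 hkE).1
    · exact heE
  have hlam := hgr.lam_le (A := A) hAE (by simp [hA])
    (P := {w, u, v, p, q}) (Q := G.U \ {w, u}) (by
      ext z
      simp only [Finset.mem_union, Finset.mem_insert, Finset.mem_singleton, Finset.mem_sdiff,
        not_or]
      constructor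
      · rintro ((rfl | rfl | rfl | rfl | rfl) | ⟨h1, _⟩) <;> assumption
      · intro hz
        by_cases h1 : z = w
        · exact Or.inl (Or.inl h1)
        · by_cases h2 : z = u
          · exact Or.inl (Or.inr (Or.inl h2))
          · exact Or.inr ⟨hz, h1, h2⟩)
    (by
      rw [hc.T_eq]
      intro z hz
      simp only [Finset.mem_insert, Finset.mem_singleton] at hz ⊢
      rcases hz with rfl | rfl | rfl | rfl <;> simp)
    (by
      intro c hc' hce
      simp only [hA, Finset.mem_insert, Finset.mem_singleton] at hc'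
      have key : ∀ (c : α) (x y : V), G.Jn c x y → x ∈ ({w, u, v, p, q} : Finset V) →
          y ∈ ({w, u, v, p, q} : Finset V) →
          G.f c ∈ ({w, u, v, p, q} : Finset V) ∧ G.g c ∈ ({w, u, v, p, q} : Finset V) := by
        rintro c x y (⟨rfl, rfl⟩ | ⟨rfl, rfl⟩) h1 h2
        · exact ⟨h1, h2⟩
        · exact ⟨h2, h1⟩
      rcases hc' with rfl | rfl | rfl | rfl | rfl | rfl
      · exact key _ _ _ hc.ja (by simp) (by simp)
      · exact key _ _ _ hc.jb (by simp) (by simp)
      · exact key _ _ _ hc.jf (by simp) (by simp)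
      · exact key _ _ _ hg (by simp) (by simp)
      · exact key _ _ _ hk (by simp) (by simp)
      · exact absurd rfl hce)
    (by
      intro c hc'
      obtain ⟨hc1, hc2⟩ := Finset.mem_sdiff.1 hc'
      have hce : c ≠ e := by
        rintro rfl
        exact hc2 (by simp [hA])
      have hcE : c ∈ M.E \ {e} := by simp [hc1, hce]
      obtain ⟨h1, h2, h3⟩ := hon c hcE
      have hcw : c ∉ G.star (M.E \ {e}) w := by
        rw [hc.star]
        intro h4
        apply hc2
        simp only [hA, Finset.mem_insert, Finset.mem_singleton] at h4 ⊢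
        rcases h4 with h4 | h4 | h4 <;> simp [h4]
      have hcu : c ∉ G.star (M.E \ {e}) u := by
        rw [hs]
        intro h4
        apply hc2
        simp only [hA, Finset.mem_insert, Finset.mem_singleton] at h4 ⊢
        rcases h4 with h4 | h4 | h4 <;> simp [h4]
      rw [Gr.mem_star] at hcw hcu
      simp only [Finset.mem_sdiff, Finset.mem_insert, Finset.mem_singleton, not_or]
      refine ⟨⟨h1, ?_, ?_⟩, ⟨h2, ?_, ?_⟩⟩
      · intro h5; exact hcw ⟨hcE, Or.inl h5⟩
      · intro h5; exact hcu ⟨hcE, Or.inl h5⟩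
      · intro h5; exact hcw ⟨hcE, Or.inr h5⟩
      · intro h5; exact hcu ⟨hcE, Or.inr h5⟩)
  have hPQ : (({w, u, v, p, q} : Finset V) ∩ (G.U \ {w, u})).card ≤ 3 := by
    have : (({w, u, v, p, q} : Finset V) ∩ (G.U \ {w, u})) ⊆ {v, p, q} := by
      intro z hz
      simp only [Finset.mem_inter, Finset.mem_insert, Finset.mem_singleton, Finset.mem_sdiff,
        not_or] at hz ⊢
      obtain ⟨h1 | h1 | h1 | h1 | h1, _, h2, h3⟩ := hz
      · exact absurd h1 h2
      · exact absurd h1 h3
      · exact Or.inl h1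
      · exact Or.inr (Or.inl h1)
      · exact Or.inr (Or.inr h1)
    refine (Finset.card_le_card this).trans ?_
    exact Finset.card_le_three
  have hA6 : A.card ≤ 6 := Finset.card_le_six
  have hcard := h.min.card
  have hA4 : 4 ≤ A.card := by
    have h1 : ({a, b, f, e} : Finset α) ⊆ A := by
      intro c hc'
      simp only [hA, Finset.mem_insert, Finset.mem_singleton] at hc' ⊢
      rcases hc' with h4 | h4 | h4 | h4 <;> simp [h4]
    have hae : a ≠ e := by rintro rfl; simp at haE
    have hbe : b ≠ e := by rintro rfl; simp at hbE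
    have hfe : f ≠ e := by rintro rfl; simp at hfE
    have h2 : ({a, b, f, e} : Finset α).card = 4 := by
      rw [Finset.card_insert_of_notMem, Finset.card_insert_of_notMem,
        Finset.card_insert_of_notMem, Finset.card_singleton]
      · simpa using hfe
      · simp only [Finset.mem_insert, Finset.mem_singleton, not_or]
        exact ⟨hfb.symm, hbe⟩
      · simp only [Finset.mem_insert, Finset.mem_singleton, not_or]
        exact ⟨hab, hfa.symm, hae⟩
    rw [← h2]
    exact Finset.card_le_card h1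
  have hcompl : 4 ≤ (M.E \ A).card := by
    have := Finset.le_card_sdiff A M.E
    omega
  have := h.min.i4c.2 A hAE hA4 hcompl
  omega


/-- a pattern whose cubic vertex is `u` -/
lemma C1.at_u {M : BM α} {e : α} {G : Gr α V} {T : Finset V} (h : Std M e G T)
    {f a b : α} {w p u v q : V} (hc : C1 M e G T f a b w p u v q) {g a₁ b₁ : α}
    {p₁ u₁ v₁ q₁ : V} (hg : C1 M e G T g a₁ b₁ u p₁ u₁ v₁ q₁) (hga : g ≠ a) :
    ∃ k, G.star (M.E \ {e}) u = {a, g, k} ∧ G.Jn k u q ∧ k ≠ a ∧ k ≠ g := by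
  obtain ⟨hfE, haE, hbE, hfa, hfb, hab, hwU, hpU, huU, hvU, hqU, hwp, hwu, hwv, hwq, hpu, hpv,
    huv, huq, hvq⟩ := hc.basic h.g3
  obtain ⟨hpT, hnuv, hnwq, -⟩ := hc.regular h.min.reg h.g3
  have has : a ∈ G.star (M.E \ {e}) u := Gr.mem_star_iff_jn.2 ⟨haE, w, hc.ja.symm⟩
  -- the general step
  have key : ∀ (a₁ b₁ : α) (p₁ u₁ v₁ q₁ : V), C1 M e G T g a₁ b₁ u p₁ u₁ v₁ q₁ → a = a₁ →
      ∃ k, G.star (M.E \ {e}) u = {a, g, k} ∧ G.Jn k u q ∧ k ≠ a ∧ k ≠ g := by
    intro a₁ b₁ p₁ u₁ v₁ q₁ hg ha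
    obtain ⟨hgE, ha1E, hb1E, hga1, hgb1, ha1b1, -, -, hu1U, hv1U, -, -, huu1, huv1, -, -, -,
      hu1v1, -, -⟩ := hg.basic h.g3
    have hv1T : v₁ ∈ T := by rw [hg.T_eq]; simp
    rw [hc.T_eq] at hv1T
    simp only [Finset.mem_insert, Finset.mem_singleton] at hv1T
    have hv1 : v₁ = q := by
      rcases hv1T with h1 | h1 | h1 | h1
      · exfalso
        subst h1
        apply ha1b1
        rw [← ha]
        exact h.g3.simple a haE b₁ hb1E u v₁ hc.ja.symm hg.jb
      · exact absurd h1.symm huv1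
      · exfalso
        subst h1
        exact hnuv ⟨b₁, hb1E, hg.jb⟩
      · exact h1
    subst hv1
    refine ⟨b₁, ?_, hg.jb, ?_, hgb1.symm⟩
    · rw [hg.star, ha]
      ext c
      simp only [Finset.mem_insert, Finset.mem_singleton]
      constructor
      · rintro (h1 | h1 | h1) <;> simp [h1]
      · rintro (h1 | h1 | h1) <;> simp [h1]
    · rw [ha]; exact ha1b1.symm
  rw [hg.star] at has
  simp only [Finset.mem_insert, Finset.mem_singleton] at has
  rcases has with h1 | h1 | h1
  · exact absurd h1.symm hga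
  · exact key a₁ b₁ p₁ u₁ v₁ q₁ hg h1
  · exact key b₁ a₁ p₁ v₁ u₁ q₁ hg.swap h1

/-- edges away from `w`, `e`: the mirror graph has the same ends -/
lemma mir_f {G : Gr α V} {e a b : α} {w u v q : V} {c : α} (h1 : c ≠ e) (h2 : c ≠ a)
    (h3 : c ≠ b) : (mir G e a b w u v q).f c = G.f c := by
  simp [mir, h1, h2, h3]

lemma mir_g {G : Gr α V} {e a b : α} {w u v q : V} {c : α} (h1 : c ≠ e) (h2 : c ≠ a)
    (h3 : c ≠ b) : (mir G e a b w u v q).g c = G.g c := by
  simp [mir, h1, h2, h3]

lemma mir_jn {G : Gr α V} {e a b : α} {w u v q : V} {c : α} (h1 : c ≠ e) (h2 : c ≠ a)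
    (h3 : c ≠ b) {x y : V} : (mir G e a b w u v q).Jn c x y ↔ G.Jn c x y := by
  unfold Gr.Jn
  rw [mir_f h1 h2 h3, mir_g h1 h2 h3]

/-- a pattern of the mirror graft whose cubic vertex is `u` -/
lemma C1.at_u_mir {M : BM α} {e : α} {G : Gr α V} {T : Finset V} (h : Std M e G T)
    {f a b : α} {w p u v q : V} (hc : C1 M e G T f a b w p u v q)
    (hnc : ¬ Cographic ((M.del {e}).del {f})) {g a₁ b₁ : α}
    {p₁ u₁ v₁ q₁ : V}
    (hg : C1 M f (mir G e a b w u v q) {w, u, v, p} g a₁ b₁ u p₁ u₁ v₁ q₁) (hgb : g ≠ b)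
    (hge : g ≠ e) :
    ∃ k, G.star (M.E \ {e}) u = {a, g, k} ∧ G.Jn k u p ∧ k ≠ a ∧ k ≠ g := by
  obtain ⟨hfE, haE, hbE, hfa, hfb, hab, hwU, hpU, huU, hvU, hqU, hwp, hwu, hwv, hwq, hpu, hpv,
    huv, huq, hvq⟩ := hc.basic h.g3
  obtain ⟨hM, hcM⟩ := hc.mirror h hnc
  obtain ⟨k, hk1, hk2, hk3, hk4⟩ := hcM.at_u hM hg hgb
  have hae : a ≠ e := by rintro rfl; simp at haE
  have hbe : b ≠ e := by rintro rfl; simp at hbE
  have hfe : f ≠ e := by rintro rfl; simp at hfE
  have hks : k ∈ (mir G e a b w u v q).star (M.E \ {f}) u := by rw [hk1]; simp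
  have hgs : g ∈ (mir G e a b w u v q).star (M.E \ {f}) u := by rw [hk1]; simp
  have hkf : k ≠ f := by
    have := (Gr.mem_star.1 hks).1
    rintro rfl; simp at this
  have hgf : g ≠ f := by
    have := (Gr.mem_star.1 hgs).1
    rintro rfl; simp at this
  -- in the mirror graph `a` joins `w, v` and `e` joins `w, q`
  have nota : ∀ c, c ∈ (mir G e a b w u v q).star (M.E \ {f}) u → c ≠ a := by
    rintro c hc' rfl
    have := (Gr.mem_star.1 hc').2
    simp only [mir, if_neg hae, if_true] at this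
    rcases this with h1 | h1
    · exact hwu h1
    · exact huv h1.symm
  have note : ∀ c, c ∈ (mir G e a b w u v q).star (M.E \ {f}) u → c ≠ e := by
    rintro c hc' rfl
    have := (Gr.mem_star.1 hc').2
    simp only [mir, if_true] at this
    rcases this with h1 | h1
    · exact hwu h1
    · exact huq h1.symm
  have hka := nota k hks
  have hke := note k hks
  have hga := nota g hgs
  refine ⟨k, ?_, (mir_jn hke hka hk3).1 hk2, hka, hk4⟩
  have trans : ∀ c, c ≠ e → c ≠ a → c ≠ b → c ≠ f →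
      (c ∈ (mir G e a b w u v q).star (M.E \ {f}) u ↔ c ∈ G.star (M.E \ {e}) u) := by
    intro c h1 h2 h3 h4
    rw [Gr.mem_star, Gr.mem_star, mir_f h1 h2 h3, mir_g h1 h2 h3]
    simp [h1, h4]
  ext c
  constructor
  · intro hcs
    by_cases h2 : c = a
    · simp [h2]
    by_cases h1 : c = e
    · exfalso
      have := (Gr.mem_star.1 hcs).1
      simp [h1] at this
    by_cases h3 : c = b
    · exfalso
      rw [h3] at hcs
      have h4 := (Gr.mem_star_iff_jn.1 hcs).2
      obtain ⟨z, hz⟩ := h4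
      rcases hc.jb.ends hz with ⟨h5, _⟩ | ⟨_, h5⟩
      · exact hwu h5
      · exact huv h5.symm
    by_cases h4 : c = f
    · exfalso
      rw [h4] at hcs
      obtain ⟨z, hz⟩ := (Gr.mem_star_iff_jn.1 hcs).2
      rcases hc.jf.ends hz with ⟨h5, _⟩ | ⟨_, h5⟩
      · exact hwu h5
      · exact hpu h5
    have h5 := (trans c h1 h2 h3 h4).2 hcs
    rw [hk1] at h5
    simp only [Finset.mem_insert, Finset.mem_singleton] at h5 ⊢
    rcases h5 with h5 | h5 | h5
    · exact absurd h5 h3
    · exact Or.inr (Or.inl h5)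
    · exact Or.inr (Or.inr h5)
  · intro hcs
    simp only [Finset.mem_insert, Finset.mem_singleton] at hcs
    rcases hcs with rfl | rfl | rfl
    · exact Gr.mem_star_iff_jn.2 ⟨haE, w, hc.ja.symm⟩
    · exact (trans c hge hga hgb hgf).1 hgs
    · exact (trans c hke hka hk3 hkf).1 hks


lemma mir_swap {G : Gr α V} {e a b : α} {w u v q : V} (hab : a ≠ b) :
    mir G e b a w v u q = mir G e a b w u v q := by
  unfold mir
  congr 1
  · funext c
    by_cases h1 : c = a
    · by_cases h2 : c = b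
      · exact absurd (h1.symm.trans h2) hab
      · simp [h1]
    · simp [h1]
  · funext c
    by_cases h1 : c = a
    · by_cases h2 : c = b
      · exact absurd (h1.symm.trans h2) hab
      · simp [h1, hab]
    · simp [h1]

/-- the symmetric form of the previous lemma -/
lemma C1.at_v_mir {M : BM α} {e : α} {G : Gr α V} {T : Finset V} (h : Std M e G T)
    {f a b : α} {w p u v q : V} (hc : C1 M e G T f a b w p u v q)
    (hnc : ¬ Cographic ((M.del {e}).del {f})) {g a₁ b₁ : α}
    {p₁ u₁ v₁ q₁ : V}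
    (hg : C1 M f (mir G e a b w u v q) {w, u, v, p} g a₁ b₁ v p₁ u₁ v₁ q₁) (hga : g ≠ a)
    (hge : g ≠ e) :
    ∃ k, G.star (M.E \ {e}) v = {b, g, k} ∧ G.Jn k v p ∧ k ≠ b ∧ k ≠ g := by
  have hab : a ≠ b := (hc.basic h.g3).2.2.2.2.2.1
  have h1 : ({w, u, v, p} : Finset V) = {w, v, u, p} := by
    ext z
    simp only [Finset.mem_insert, Finset.mem_singleton]
    constructor
    · rintro (h1 | h1 | h1 | h1) <;> simp [h1]
    · rintro (h1 | h1 | h1 | h1) <;> simp [h1]
  rw [← mir_swap hab, h1] at hg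
  exact hc.swap.at_u_mir h hnc hg hga hge

/-- the last case: `g` joins `q` and `p` -/
lemma C1.case_pq {M : BM α} {e : α} {G : Gr α V} {T : Finset V} (h : Std M e G T)
    {f a b : α} {w p u v q : V} (hc : C1 M e G T f a b w p u v q)
    (hnc : ¬ Cographic ((M.del {e}).del {f})) {g a₁ b₁ a₂ b₂ : α}
    {u₁ v₁ q₁ u₂ v₂ q₂ : V} (hg : C1 M e G T g a₁ b₁ q p u₁ v₁ q₁)
    (hg' : C1 M f (mir G e a b w u v q) {w, u, v, p} g a₂ b₂ p q u₂ v₂ q₂) : False := by
  obtain ⟨hfE, haE, hbE, hfa, hfb, hab, hwU, hpU, huU, hvU, hqU, hwp, hwu, hwv, hwq, hpu, hpv,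
    huv, huq, hvq⟩ := hc.basic h.g3
  obtain ⟨hpT, hnuv, hnwq, -⟩ := hc.regular h.min.reg h.g3
  obtain ⟨hM, hcM⟩ := hc.mirror h hnc
  obtain ⟨-, -, hnwp', -⟩ := hcM.regular hM.min.reg hM.g3
  obtain ⟨hgE, ha1E, hb1E, hga1, hgb1, ha1b1, -, -, hu1U, hv1U, -, -, hqu1, hqv1, -, -, -,
      hu1v1, -, -⟩ := hg.basic h.g3
  obtain ⟨hgE', ha2E, hb2E, hga2, hgb2, ha2b2, -, -, hu2U, hv2U, -, -, hpu2, hpv2, -, -, -,
      hu2v2, -, -⟩ := hg'.basic hM.g3
  have hae : a ≠ e := by rintro rfl; simp at haE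
  have hbe : b ≠ e := by rintro rfl; simp at hbE
  have hfe : f ≠ e := by rintro rfl; simp at hfE
  -- the neighbours of `q`
  have nq : ∀ z c, c ∈ M.E \ {e} → G.Jn c q z → z ∈ T → z = u ∨ z = v := by
    intro z c hcE hj hz
    rw [hc.T_eq] at hz
    simp only [Finset.mem_insert, Finset.mem_singleton] at hz
    rcases hz with h1 | h1 | h1 | h1
    · exfalso
      subst h1
      exact hnwq ⟨c, hcE, hj.symm⟩
    · exact Or.inl h1
    · exact Or.inr h1
    · exfalso
      subst h1
      have := h.g3.rep.on.jn_mem hcE hj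
      exact this.2.2 rfl
  have hu1 := nq u₁ a₁ ha1E hg.ja (by rw [hg.T_eq]; simp)
  have hv1 := nq v₁ b₁ hb1E hg.jb (by rw [hg.T_eq]; simp)
  have np : ∀ z c, c ∈ M.E \ {f} → (mir G e a b w u v q).Jn c p z →
      z ∈ ({w, u, v, p} : Finset V) → z = u ∨ z = v := by
    intro z c hcE hj hz
    simp only [Finset.mem_insert, Finset.mem_singleton] at hz
    rcases hz with h1 | h1 | h1 | h1
    · exfalso
      subst h1
      exact hnwp' ⟨c, hcE, hj.symm⟩
    · exact Or.inl h1
    · exact Or.inr h1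
    · exfalso
      subst h1
      have := hM.g3.rep.on.jn_mem hcE hj
      exact this.2.2 rfl
  have hu2 := np u₂ a₂ ha2E hg'.ja (by rw [hg'.T_eq]; simp)
  have hv2 := np v₂ b₂ hb2E hg'.jb (by rw [hg'.T_eq]; simp)
  -- the star of `p` in `G`
  have starp : ∀ c ∈ G.star (M.E \ {e}) p, c = f ∨ c = g ∨ c = a₂ ∨ c = b₂ := by
    intro c hcs
    obtain ⟨hcE, hcp⟩ := Gr.mem_star.1 hcs
    obtain ⟨z, hz⟩ := (Gr.mem_star_iff_jn.1 hcs).2
    by_cases h4 : c = f
    · exact Or.inl h4
    have h2 : c ≠ a := by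
      rintro rfl
      rcases hc.ja.ends hz with ⟨h5, _⟩ | ⟨_, h5⟩
      · exact hwp h5
      · exact hpu h5.symm
    have h3 : c ≠ b := by
      rintro rfl
      rcases hc.jb.ends hz with ⟨h5, _⟩ | ⟨_, h5⟩
      · exact hwp h5
      · exact hpv h5.symm
    have h1 : c ≠ e := by
      rintro rfl; simp at hcE
    have h5 : c ∈ (mir G e a b w u v q).star (M.E \ {f}) p := by
      rw [Gr.mem_star, mir_f h1 h2 h3, mir_g h1 h2 h3]
      exact ⟨Finset.mem_sdiff.2 ⟨(Finset.mem_sdiff.1 hcE).1, by simpa using h4⟩, hcp⟩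
    rw [hg'.star] at h5
    simp only [Finset.mem_insert, Finset.mem_singleton] at h5
    exact Or.inr h5
  -- ends of the edges of the star of `p`
  have a2b2 : ∀ c z, c = a₂ ∨ c = b₂ → c ∈ M.E \ {e} → G.Jn c p z → z = u ∨ z = v := by
    intro c z h0 hcE hz
    have h2 : c ≠ a := by
      rintro rfl
      rcases hc.ja.ends hz with ⟨h5, _⟩ | ⟨_, h5⟩
      · exact hwp h5
      · exact hpu h5.symm
    have h3 : c ≠ b := by
      rintro rfl
      rcases hc.jb.ends hz with ⟨h5, _⟩ | ⟨_, h5⟩
      · exact hwp h5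
      · exact hpv h5.symm
    have h1 : c ≠ e := by
      rintro rfl; simp at hcE
    have hz' := (mir_jn (G := G) (q := q) (w := w) (u := u) (v := v) h1 h2 h3).2 hz
    rcases h0 with h0 | h0
    · subst h0
      rcases hg'.ja.ends hz' with ⟨_, h5⟩ | ⟨h5, h6⟩
      · rw [← h5]; exact hu2
      · exact absurd h6.symm hpu2
    · subst h0
      rcases hg'.jb.ends hz' with ⟨_, h5⟩ | ⟨h5, h6⟩
      · rw [← h5]; exact hv2
      · exact absurd h6.symm hpv2
  -- neighbours
  have nbw : ∀ c z, c ∈ M.E \ {e} → G.Jn c w z → z = p ∨ z = u ∨ z = v := by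
    intro c z hcE hz
    have h0 : c ∈ G.star (M.E \ {e}) w := Gr.mem_star_iff_jn.2 ⟨hcE, z, hz⟩
    rw [hc.star] at h0
    simp only [Finset.mem_insert, Finset.mem_singleton] at h0
    rcases h0 with rfl | rfl | rfl
    · rcases hc.jf.ends hz with ⟨_, h5⟩ | ⟨h5, h6⟩
      · exact Or.inl h5.symm
      · exact absurd h6.symm hwp
    · rcases hc.ja.ends hz with ⟨_, h5⟩ | ⟨h5, h6⟩
      · exact Or.inr (Or.inl h5.symm)
      · exact absurd h6.symm hwu
    · rcases hc.jb.ends hz with ⟨_, h5⟩ | ⟨h5, h6⟩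
      · exact Or.inr (Or.inr h5.symm)
      · exact absurd h6.symm hwv
  have nbq : ∀ c z, c ∈ M.E \ {e} → G.Jn c q z → z = p ∨ z = u ∨ z = v := by
    intro c z hcE hz
    have h0 : c ∈ G.star (M.E \ {e}) q := Gr.mem_star_iff_jn.2 ⟨hcE, z, hz⟩
    rw [hg.star] at h0
    simp only [Finset.mem_insert, Finset.mem_singleton] at h0
    rcases h0 with rfl | rfl | rfl
    · rcases hg.jf.ends hz with ⟨_, h5⟩ | ⟨h5, h6⟩
      · exact Or.inl h5.symm
      · exact Or.inl (h5 ▸ h6 ▸ rfl)
    · rcases hg.ja.ends hz with ⟨_, h5⟩ | ⟨h5, h6⟩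
      · exact Or.inr (h5 ▸ hu1)
      · exact absurd h6.symm hqu1
    · rcases hg.jb.ends hz with ⟨_, h5⟩ | ⟨h5, h6⟩
      · exact Or.inr (h5 ▸ hv1)
      · exact absurd h6.symm hqv1
  have nbp : ∀ c z, c ∈ M.E \ {e} → G.Jn c p z → z = w ∨ z = q ∨ z = u ∨ z = v := by
    intro c z hcE hz
    rcases starp c (Gr.mem_star_iff_jn.2 ⟨hcE, z, hz⟩) with rfl | rfl | h0
    · rcases hc.jf.ends hz with ⟨h5, _⟩ | ⟨h5, h6⟩
      · exact absurd h5 hwp
      · exact Or.inl h5.symm
    · rcases hg.jf.ends hz with ⟨h5, h6⟩ | ⟨h5, h6⟩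
      · exact Or.inr (Or.inl (h6 ▸ h5 ▸ rfl))
      · exact Or.inr (Or.inl h5.symm)
    · exact Or.inr (Or.inr (a2b2 c z h0 hcE hz))
  -- the cut `{u, v}`
  have hvc := h.g3.vc {w, p, q, u, v} (G.U \ {w, p, q})
    (by
      ext z
      simp only [Finset.mem_union, Finset.mem_insert, Finset.mem_singleton, Finset.mem_sdiff,
        not_or]
      constructor
      · rintro ((rfl | rfl | rfl | rfl | rfl) | ⟨h1, _⟩) <;> assumption
      · intro hz
        by_cases h1 : z = w
        · exact Or.inl (Or.inl h1)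
        by_cases h2 : z = p
        · exact Or.inl (Or.inr (Or.inl h2))
        by_cases h3 : z = q
        · exact Or.inl (Or.inr (Or.inr (Or.inl h3)))
        exact Or.inr ⟨hz, h1, h2, h3⟩)
    (by
      have : (({w, p, q, u, v} : Finset V) ∩ (G.U \ {w, p, q})) ⊆ {u, v} := by
        intro z hz
        simp only [Finset.mem_inter, Finset.mem_insert, Finset.mem_singleton, Finset.mem_sdiff,
          not_or] at hz ⊢
        obtain ⟨h1 | h1 | h1 | h1 | h1, _, h2, h3, h4⟩ := hz
        · exact absurd h1 h2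
        · exact absurd h1 h3
        · exact absurd h1 h4
        · exact Or.inl h1
        · exact Or.inr h1
      exact (Finset.card_le_card this).trans Finset.card_le_two)
    (by
      intro c hcE
      obtain ⟨h1, h2, h3⟩ := h.g3.rep.on c hcE
      -- an edge with one end among `w, p, q` has both ends in `P`
      have key : ∀ x y, G.Jn c x y → x = w ∨ x = p ∨ x = q →
          x ∈ ({w, p, q, u, v} : Finset V) ∧ y ∈ ({w, p, q, u, v} : Finset V) := by
        intro x y hj hx
        rcases hx with rfl | rfl | rfl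
        · refine ⟨by simp, ?_⟩
          rcases nbw c y hcE hj with h4 | h4 | h4 <;> simp [h4]
        · refine ⟨by simp, ?_⟩
          rcases nbp c y hcE hj with h4 | h4 | h4 | h4 <;> simp [h4]
        · refine ⟨by simp, ?_⟩
          rcases nbq c y hcE hj with h4 | h4 | h4 <;> simp [h4]
      by_cases hx : G.f c = w ∨ G.f c = p ∨ G.f c = q
      · exact Or.inl (key _ _ (Gr.jn_self c) hx)
      by_cases hy : G.g c = w ∨ G.g c = p ∨ G.g c = q
      · exact Or.inl (key _ _ (Gr.jn_self c).symm hy).symm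
      · right
        simp only [Finset.mem_sdiff, Finset.mem_insert, Finset.mem_singleton]
        exact ⟨⟨h1, hx⟩, ⟨h2, hy⟩⟩)
  rcases hvc with hvc | hvc
  · have : w ∈ (({w, p, q, u, v} : Finset V) \ (G.U \ {w, p, q})) := by simp
    exact absurd (hvc this) (Finset.notMem_empty _)
  · have hsub : ∀ z ∈ G.U, z = w ∨ z = p ∨ z = q ∨ z = u ∨ z = v := by
      intro z hz
      by_contra hcon
      push Not at hcon
      obtain ⟨h1, h2, h3, h4, h5⟩ := hcon
      have : z ∈ ((G.U \ {w, p, q}) \ ({w, p, q, u, v} : Finset V)) := by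
        simp [hz, h1, h2, h3, h4, h5]
      exact absurd (hvc this) (Finset.notMem_empty _)
    have hE : M.E ⊆ {e, f, a, b, g, a₁, b₁, a₂, b₂} := by
      intro c hcM'
      by_cases hce : c = e
      · simp [hce]
      have hcE : c ∈ M.E \ {e} := by simp [hcM', hce]
      obtain ⟨h1, h2, h3⟩ := h.g3.rep.on c hcE
      by_cases hw : c ∈ G.star (M.E \ {e}) w
      · rw [hc.star] at hw
        simp only [Finset.mem_insert, Finset.mem_singleton] at hw ⊢
        rcases hw with h4 | h4 | h4 <;> simp [h4]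
      by_cases hq : c ∈ G.star (M.E \ {e}) q
      · rw [hg.star] at hq
        simp only [Finset.mem_insert, Finset.mem_singleton] at hq ⊢
        rcases hq with h4 | h4 | h4 <;> simp [h4]
      by_cases hp : c ∈ G.star (M.E \ {e}) p
      · simp only [Finset.mem_insert, Finset.mem_singleton]
        rcases starp c hp with h4 | h4 | h4 | h4 <;> simp [h4]
      exfalso
      rw [Gr.mem_star] at hw hq hp
      have hx : G.f c = u ∨ G.f c = v := by
        rcases hsub _ h1 with h4 | h4 | h4 | h4 | h4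
        · exact absurd ⟨hcE, Or.inl h4⟩ hw
        · exact absurd ⟨hcE, Or.inl h4⟩ hp
        · exact absurd ⟨hcE, Or.inl h4⟩ hq
        · exact Or.inl h4
        · exact Or.inr h4
      have hy : G.g c = u ∨ G.g c = v := by
        rcases hsub _ h2 with h4 | h4 | h4 | h4 | h4
        · exact absurd ⟨hcE, Or.inr h4⟩ hw
        · exact absurd ⟨hcE, Or.inr h4⟩ hp
        · exact absurd ⟨hcE, Or.inr h4⟩ hq
        · exact Or.inl h4
        · exact Or.inr h4
      rcases hx with hx | hx <;> rcases hy with hy | hy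
      · exact h3 (hx.trans hy.symm)
      · exact hnuv ⟨c, hcE, Or.inl ⟨hx, hy⟩⟩
      · exact hnuv ⟨c, hcE, Or.inr ⟨hx, hy⟩⟩
      · exact h3 (hx.trans hy.symm)
    have h1 := Finset.card_le_card hE
    have h2 : ({e, f, a, b, g, a₁, b₁, a₂, b₂} : Finset α).card ≤ 9 := by
      have key : ∀ (c : α) (S : Finset α) (n : ℕ), S.card ≤ n → (insert c S).card ≤ n + 1 :=
        fun c S n h => (Finset.card_insert_le c S).trans (by omega)
      exact key _ _ _ (key _ _ _ (key _ _ _ (key _ _ _ (key _ _ _ (key _ _ _ (key _ _ _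
        (key _ _ _ (Finset.card_singleton _).le)))))))
    have h3 := h.min.card
    omega

lemma C1.nonrigid_false {M : BM α} {e : α} {G : Gr α V} {T : Finset V} (h : Std M e G T)
    {f a b : α} {w p u v q : V} (hc : C1 M e G T f a b w p u v q)
    (hnc : ¬ Cographic ((M.del {e}).del {f})) {g : α} (hg : g ∈ M.E \ {e, f, a, b})
    (hr1 : ¬ Rigid (M.del {e}) g) (hr2 : ¬ Rigid (M.del {f}) g) : False := by
  obtain ⟨hfE, haE, hbE, hfa, hfb, hab, hwU, hpU, huU, hvU, hqU, hwp, hwu, hwv, hwq, hpu, hpv,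
    huv, huq, hvq⟩ := hc.basic h.g3
  obtain ⟨hpT, hnuv, hnwq, -⟩ := hc.regular h.min.reg h.g3
  obtain ⟨hM, hcM⟩ := hc.mirror h hnc
  simp only [Finset.mem_sdiff, Finset.mem_insert, Finset.mem_singleton, not_or] at hg
  obtain ⟨hgM, hge, hgf, hga, hgb⟩ := hg
  have hgE : g ∈ M.E \ {e} := by simp [hgM, hge]
  have hgE' : g ∈ M.E \ {f} := by simp [hgM, hgf]
  have hqT : q ∈ T := by rw [hc.T_eq]; simp
  have hqT' : q ∉ ({w, u, v, p} : Finset V) := by
    simp only [Finset.mem_insert, Finset.mem_singleton, not_or]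
    refine ⟨hwq.symm, huq.symm, hvq.symm, ?_⟩
    rintro rfl
    exact hpT hqT
  have hpq : p ≠ q := by
    rintro rfl
    exact hpT hqT
  -- `g` is not at `w`
  have hgw : ∀ x y, G.Jn g x y → x ≠ w := by
    rintro x y hj rfl
    have : g ∈ G.star (M.E \ {e}) x := Gr.mem_star_iff_jn.2 ⟨hgE, y, hj⟩
    rw [hc.star] at this
    simp only [Finset.mem_insert, Finset.mem_singleton] at this
    rcases this with h1 | h1 | h1
    · exact hgf h1
    · exact hga h1
    · exact hgb h1
  -- membership in both sets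
  have inT : ∀ z ∈ T, z ≠ w → z = u ∨ z = v ∨ z = q := by
    intro z hz hzw
    rw [hc.T_eq] at hz
    simp only [Finset.mem_insert, Finset.mem_singleton] at hz
    rcases hz with h1 | h1
    · exact absurd h1 hzw
    · exact h1
  have inT' : ∀ z ∈ ({w, u, v, p} : Finset V), z ≠ w → z = u ∨ z = v ∨ z = p := by
    intro z hz hzw
    simp only [Finset.mem_insert, Finset.mem_singleton] at hz
    rcases hz with h1 | h1
    · exact absurd h1 hzw
    · exact h1
  have inTT' : ∀ z ∈ T, z ∈ ({w, u, v, p} : Finset V) → z ≠ w → z = u ∨ z = v := by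
    intro z h1 h2 h3
    rcases inT z h1 h3 with h4 | h4 | h4
    · exact Or.inl h4
    · exact Or.inr h4
    · exact absurd (h4 ▸ h2) hqT'
  have jg := Gr.jn_self (G := G) g
  obtain ⟨-, -, hxy⟩ := h.g3.rep.on.jn_mem hgE jg
  have jg' : (mir G e a b w u v q).Jn g (G.f g) (G.g g) := (mir_jn hge hga hgb).2 jg
  have hx := hgw _ _ jg
  have hy := hgw _ _ jg.symm
  rcases h.nonrigid hgE hr1 jg with ⟨-, hxT, hyT⟩ | ⟨-, a₁, b₁, w₁, p₁, u₁, v₁, q₁, h1⟩
  · rcases hM.nonrigid hgE' hr2 jg' with ⟨-, hxT', hyT'⟩ | ⟨-, a₂, b₂, w₂, p₂, u₂, v₂, q₂, h2⟩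
    · -- (I), (I)
      have e1 := inTT' _ hxT hxT' hx
      have e2 := inTT' _ hyT hyT' hy
      rcases e1 with e1 | e1 <;> rcases e2 with e2 | e2
      · exact hxy (e1.trans e2.symm)
      · exact hnuv ⟨g, hgE, Or.inl ⟨e1, e2⟩⟩
      · exact hnuv ⟨g, hgE, Or.inr ⟨e1, e2⟩⟩
      · exact hxy (e1.trans e2.symm)
    · -- (I), (II)
      have hp2 := (h2.regular hM.min.reg hM.g3).1
      have hj2 := (mir_jn hge hga hgb).1 h2.jf
      have hw2T' : w₂ ∈ ({w, u, v, p} : Finset V) := by rw [h2.T_eq]; simp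
      have hT2 : w₂ ∈ T ∧ p₂ ∈ T := by
        rcases jg.ends hj2 with ⟨e1, e2⟩ | ⟨e1, e2⟩
        · exact ⟨e1 ▸ hxT, e2 ▸ hyT⟩
        · exact ⟨e2 ▸ hyT, e1 ▸ hxT⟩
      have hp2q : p₂ = q := by
        rcases inT _ hT2.2 (hgw _ _ hj2.symm) with e1 | e1 | e1
        · exact absurd (by rw [e1]; simp) hp2
        · exact absurd (by rw [e1]; simp) hp2
        · exact e1
      subst hp2q
      rcases inTT' _ hT2.1 hw2T' (hgw _ _ hj2) with e1 | e1
      · subst e1
        obtain ⟨k, k1, k2, k3, k4⟩ := hc.at_u_mir h hnc h2 hgb hge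
        refine hc.nb_u h k2 hj2 ?_
        rw [k1]
        ext c
        simp only [Finset.mem_insert, Finset.mem_singleton]
        constructor
        · rintro (h5 | h5 | h5) <;> simp [h5]
        · rintro (h5 | h5 | h5) <;> simp [h5]
      · subst e1
        obtain ⟨k, k1, k2, k3, k4⟩ := hc.at_v_mir h hnc h2 hga hge
        refine hc.swap.nb_u h k2 hj2 ?_
        rw [k1]
        ext c
        simp only [Finset.mem_insert, Finset.mem_singleton]
        constructor
        · rintro (h5 | h5 | h5) <;> simp [h5]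
        · rintro (h5 | h5 | h5) <;> simp [h5]
  · have hp1 := (h1.regular h.min.reg h.g3).1
    have hw1T : w₁ ∈ T := by rw [h1.T_eq]; simp
    have hj1 := h1.jf
    rcases hM.nonrigid hgE' hr2 jg' with ⟨-, hxT', hyT'⟩ | ⟨-, a₂, b₂, w₂, p₂, u₂, v₂, q₂, h2⟩
    · -- (II), (I)
      have hT1 : w₁ ∈ ({w, u, v, p} : Finset V) ∧ p₁ ∈ ({w, u, v, p} : Finset V) := by
        rcases jg.ends hj1 with ⟨e1, e2⟩ | ⟨e1, e2⟩
        · exact ⟨e1 ▸ hxT', e2 ▸ hyT'⟩
        · exact ⟨e2 ▸ hyT', e1 ▸ hxT'⟩
      have hp1p : p₁ = p := by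
        rcases inT' _ hT1.2 (hgw _ _ hj1.symm) with e1 | e1 | e1
        · exact absurd (by rw [e1, hc.T_eq]; simp) hp1
        · exact absurd (by rw [e1, hc.T_eq]; simp) hp1
        · exact e1
      subst hp1p
      rcases inTT' _ hw1T hT1.1 (hgw _ _ hj1) with e1 | e1
      · subst e1
        obtain ⟨k, k1, k2, k3, k4⟩ := hc.at_u h h1 hga
        exact hc.nb_u h hj1 k2 k1
      · subst e1
        obtain ⟨k, k1, k2, k3, k4⟩ := hc.swap.at_u h h1 hgb
        exact hc.swap.nb_u h hj1 k2 k1
    · -- (II), (II)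
      have hp2 := (h2.regular hM.min.reg hM.g3).1
      have hj2 := (mir_jn hge hga hgb).1 h2.jf
      have hw2T' : w₂ ∈ ({w, u, v, p} : Finset V) := by rw [h2.T_eq]; simp
      rcases hj1.ends hj2 with ⟨e1, e2⟩ | ⟨e1, e2⟩
      · subst e1 e2
        rcases inTT' _ hw1T hw2T' (hgw _ _ hj1) with e1 | e1
        · subst e1
          obtain ⟨k, k1, k2, k3, k4⟩ := hc.at_u h h1 hga
          obtain ⟨k', k1', k2', k3', k4'⟩ := hc.at_u_mir h hnc h2 hgb hge
          have hk : k' = k := by
            have : k' ∈ G.star (M.E \ {e}) w₁ := by rw [k1']; simp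
            rw [k1] at this
            simp only [Finset.mem_insert, Finset.mem_singleton] at this
            rcases this with h5 | h5 | h5
            · exact absurd h5 k3'
            · exact absurd h5 k4'
            · exact h5
          subst hk
          rcases k2.ends k2' with ⟨_, h5⟩ | ⟨_, h5⟩
          · exact hpq h5.symm
          · exact huq h5.symm
        · subst e1
          obtain ⟨k, k1, k2, k3, k4⟩ := hc.swap.at_u h h1 hgb
          obtain ⟨k', k1', k2', k3', k4'⟩ := hc.at_v_mir h hnc h2 hga hge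
          have hk : k' = k := by
            have : k' ∈ G.star (M.E \ {e}) w₁ := by rw [k1']; simp
            rw [k1] at this
            simp only [Finset.mem_insert, Finset.mem_singleton] at this
            rcases this with h5 | h5 | h5
            · exact absurd h5 k3'
            · exact absurd h5 k4'
            · exact h5
          subst hk
          rcases k2.ends k2' with ⟨_, h5⟩ | ⟨_, h5⟩
          · exact hpq h5.symm
          · exact hvq h5.symm
      · subst e1 e2
        have ew : w₁ = q := by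
          rcases inT _ hw1T (hgw _ _ hj1) with h5 | h5 | h5
          · exact absurd (by rw [h5]; simp) hp2
          · exact absurd (by rw [h5]; simp) hp2
          · exact h5
        have ep : p₁ = p := by
          rcases inT' _ hw2T' (hgw _ _ hj1.symm) with h5 | h5 | h5
          · exact absurd (by rw [h5, hc.T_eq]; simp) hp1
          · exact absurd (by rw [h5, hc.T_eq]; simp) hp1
          · exact h5
        subst ew ep
        exact hc.case_pq h hnc h1 h2

theorem C1.rigid {M : BM α} {e : α} {G : Gr α V} {T : Finset V} (h : Std M e G T)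
    {f a b : α} {w p u v q : V} (hc : C1 M e G T f a b w p u v q)
    (hnc : ¬ Cographic ((M.del {e}).del {f})) {g : α} (hg : g ∈ M.E \ {e, f, a, b}) :
    Rigid (((M.del {e}).del {f}).con {a}) g := by
  obtain ⟨hfE, haE, hbE, hfa, hfb, hab, -⟩ := hc.basic h.g3
  have hae : a ≠ e := by rintro rfl; simp at haE
  have hfe : f ≠ e := by rintro rfl; simp at hfE
  have hg' := hg
  simp only [Finset.mem_sdiff, Finset.mem_insert, Finset.mem_singleton, not_or] at hg'
  obtain ⟨hgM, hge, hgf, hga, hgb⟩ := hg'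
  set K := ((M.del {e}).del {f}).con {a} with hK
  -- `K` is a minor of `M.del {e}` and of `M.del {f}`
  have hK2 : K = ((M.del {f}).del {e}).con {a} := by
    rw [hK, LM.del_del, LM.del_del, Finset.union_comm]
  have d1 : ∀ (N : BM α) (x : α), ((N.del {x}).con {a}).del {g} =
      ((N.del {g}).del {x}).con {a} := by
    intro N x
    rw [LM.con_del _ (Finset.disjoint_singleton.2 (Ne.symm hga)), LM.del_del, LM.del_del,
      Finset.union_comm]
  have d2 : ∀ (N : BM α) (x : α), g ≠ x → ((N.del {x}).con {a}).con {g} =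
      ((N.con {g}).del {x}).con {a} := by
    intro N x hgx
    rw [LM.con_con, Finset.union_comm, ← LM.con_con, LM.con_del _ (Finset.disjoint_singleton.2 hgx)]
  have minor : ∀ (N : BM α) (x : α), ((N.del {x}).con {a}).IsMinor N := by
    intro N x
    exact (LM.isMinor_con _ _).trans (LM.isMinor_del _ _)
  have step : ∀ (N : BM α) (x : α), g ≠ x → Rigid N g → Rigid ((N.del {x}).con {a}) g := by
    intro N x hgx hr
    refine ⟨?_, ?_⟩
    · rw [d1]
      exact Pool.Agent.H87.Sey.cographic_minor hr.1 (minor _ _)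
    · rw [d2 N x hgx]
      exact Pool.Agent.H87.Sey.cographic_minor hr.2 (minor _ _)
  by_contra hcon
  refine hc.nonrigid_false h hnc hg ?_ ?_
  · intro hr
    exact hcon (step _ f hgf hr)
  · intro hr
    rw [hK2] at hcon
    exact hcon (step _ e hge hr)

end Pool.Agent.H53.Sey
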