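import Pool.Agent.H53.Sey.S1f

/-!
# S1, part G1: pattern 1, case (i) (job SEYS-G1)

Situation as in part F. `K = ((M.del {e}).del {f}).con {a}` is not cographic (series extension,
`cographic_of_con_series` with the cocycle `{a, b}`), so it has a `KurMinor K C D`
(`exists_kurMinor`; `K` is regular) and `C ∪ D ⊆ {b}` by `C1.rigid` and `KurMinor.not_rigid`. `K` has
the graph with vertex set `U \ {w}` in which `b` joins `u` and `v` and the edges in `R = M.E \ {e, f,
a, b}` are those of `G` (`Rp.conQ` with `π w = u`).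
(i) `C = D = ∅`: this graph is `K33` or `K5` (`kur_transfer`), `b` being the edge `uv`. `K5`: the
  vertices are `u, v, p, q, s`; `S1 = {u, s, v}`, `S0 = {w, p, q}` link `w, q | u, v`: contradiction to
  `C1.regular`. `K33`, `u ∈ A`, `v ∈ B`: if `p ∈ A`, `q ∈ B` (or conversely): `S0 = {w, p, q}`,
  `S1 = {u, b', a', v}` with the third elements `a' ∈ A`, `b' ∈ B`. If `p, q ∈ A`: the neighbours of
  `v` in `R` are exactly `p, q` (`A \ {u}`): `C1.nb_u` (with `u, v` exchanged). If `p, q ∈ B`: `C1.nb_u`.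
-/

set_option autoImplicit false

namespace Pool.Agent.H53.Sey

open Pool.Agent.H63.Sey

universe u v w

variable {α : Type u} [DecidableEq α] {V : Type v} [DecidableEq V]

section

/-- another graph with the same labellings -/
private lemma rp_congr {N : BM α} {G G' : Gr α V} (h : Rp N G) (hon : G'.On N.E)
    (hs : ∀ c ∈ N.E, ∀ φ : V → ZMod 2, φ (G'.f c) + φ (G'.g c) = φ (G.f c) + φ (G.g c)) :
    Rp N G' := by
  refine ⟨hon, LM.D_ext _ rfl fun x => ?_⟩
  rw [h.mem, Pool.Agent.H87.Sey.mem_cyc]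
  have key : ∀ (φ : V → ZMod 2) (c : α), (if c ∈ N.E then φ (G'.f c) + φ (G'.g c) else 0) =
      if c ∈ N.E then φ (G.f c) + φ (G.g c) else 0 := by
    intro φ c
    by_cases hc : c ∈ N.E
    · rw [if_pos hc, if_pos hc, hs c hc]
    · rw [if_neg hc, if_neg hc]
  constructor
  · rintro ⟨φ, hφ⟩
    exact ⟨φ, fun c => by rw [hφ c, key]⟩
  · rintro ⟨φ, hφ⟩
    exact ⟨φ, fun c => by rw [hφ c, key]⟩

variable {M : BM α} {e : α} {G : Gr α V} {T : Finset V} {f a b : α} {w p u v q : V}

/-- edges not at `w` -/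
private lemma C1.off_w (hc : C1 M e G T f a b w p u v q) {c : α} (hcE : c ∈ M.E \ {e})
    (h1 : c ≠ f) (h2 : c ≠ a) (h3 : c ≠ b) : G.f c ≠ w ∧ G.g c ≠ w := by
  have h : c ∉ G.star (M.E \ {e}) w := by
    rw [hc.star, Finset.mem_insert, Finset.mem_insert, Finset.mem_singleton]
    rintro (h | h | h)
    · exact h1 h
    · exact h2 h
    · exact h3 h
  constructor
  · exact fun h' => h (Gr.mem_star.2 ⟨hcE, Or.inl h'⟩)
  · exact fun h' => h (Gr.mem_star.2 ⟨hcE, Or.inr h'⟩)

/-- `K` is represented by `G - w` with the additional edge `b` joining `u` and `v` -/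
lemma C1.rp_K (h : Std M e G T) (hc : C1 M e G T f a b w p u v q) :
    Rp (((M.del {e}).del {f}).con {a})
      ⟨G.U.erase w, fun c => if c = b then u else G.f c, fun c => if c = b then v else G.g c⟩ := by
  obtain ⟨hf, ha, hb, hfa, hfb, hab, hw, hp, hu, hv, hq, hwp, hwu, hwv, hwq, hpu, hpv, huv, huq,
    hvq⟩ := hc.basic h.g3
  have hr : Rp ((M.del {e}).del {f}) G := h.g3.rep.del_rp.del {f}
  have hE : ((M.del {e}).del {f}).E = (M.E \ {e}) \ {f} := rfl
  set π : V → V := fun x => if x = w then u else x with hπ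
  have πw : π w = u := if_pos rfl
  have πn : ∀ x, x ≠ w → π x = x := fun x hx => if_neg hx
  have hend : ∀ c, c ∈ ((M.del {e}).del {f}).E \ {a} → c ≠ b → G.f c ≠ w ∧ G.g c ≠ w := by
    intro c hcE hcb
    rw [hE, Finset.mem_sdiff, Finset.mem_sdiff, Finset.mem_singleton, Finset.mem_singleton] at hcE
    exact hc.off_w hcE.1.1 hcE.1.2 hcE.2 hcb
  have hbj : ∀ φ : V → ZMod 2, φ (π (G.f b)) + φ (π (G.g b)) = φ u + φ v := by
    intro φ
    rcases hc.jb with ⟨h1, h2⟩ | ⟨h1, h2⟩
    · rw [h1, h2, πw, πn v hwv.symm]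
    · rw [h1, h2, πw, πn v hwv.symm, add_comm]
  have hq' := hr.conQ (F := {a}) π ?_ ?_ ?_ ?_ ?_
  · refine rp_congr hq' ?_ ?_
    · intro c hcE
      have hcE' : c ∈ ((M.del {e}).del {f}).E \ {a} := hcE
      show (if c = b then u else G.f c) ∈ G.U.erase w ∧ (if c = b then v else G.g c) ∈ G.U.erase w ∧
        (if c = b then u else G.f c) ≠ (if c = b then v else G.g c)
      by_cases hcb : c = b
      · rw [if_pos hcb, if_pos hcb]
        exact ⟨Finset.mem_erase.2 ⟨hwu.symm, hu⟩, Finset.mem_erase.2 ⟨hwv.symm, hv⟩, huv⟩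
      · rw [if_neg hcb, if_neg hcb]
        obtain ⟨h1, h2⟩ := hend c hcE' hcb
        obtain ⟨h3, h4, h5⟩ := hr.on c (Finset.mem_sdiff.1 hcE').1
        exact ⟨Finset.mem_erase.2 ⟨h1, h3⟩, Finset.mem_erase.2 ⟨h2, h4⟩, h5⟩
    · intro c hcE φ
      have hcE' : c ∈ ((M.del {e}).del {f}).E \ {a} := hcE
      show φ (if c = b then u else G.f c) + φ (if c = b then v else G.g c) =
        φ (π (G.f c)) + φ (π (G.g c))
      by_cases hcb : c = b
      · rw [if_pos hcb, if_pos hcb, hcb, hbj φ]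
      · rw [if_neg hcb, if_neg hcb]
        obtain ⟨h1, h2⟩ := hend c hcE' hcb
        rw [πn _ h1, πn _ h2]
  · intro x hx
    by_cases hxw : x = w
    · rw [hxw, πw]
      exact hu
    · rw [πn x hxw]
      exact hx
  · intro x _
    by_cases hxw : x = w
    · rw [hxw, πw, πn u hwu.symm]
    · rw [πn x hxw, πn x hxw]
  · intro c hcF _
    rw [Finset.mem_singleton] at hcF
    subst hcF
    rcases hc.ja with ⟨h1, h2⟩ | ⟨h1, h2⟩
    · rw [h1, h2, πw, πn u hwu.symm]
    · rw [h1, h2, πw, πn u hwu.symm]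
  · intro φ hφ x _
    by_cases hxw : x = w
    · rw [hxw, πw]
      have haE : a ∈ ((M.del {e}).del {f}).E := by
        rw [hE, Finset.mem_sdiff, Finset.mem_singleton]
        exact ⟨ha, hfa.symm⟩
      have h1 := hφ a (Finset.mem_singleton_self _) haE
      rcases hc.ja with ⟨h2, h3⟩ | ⟨h2, h3⟩
      · rw [h2, h3] at h1
        exact h1.symm
      · rw [h2, h3] at h1
        exact h1
    · rw [πn x hxw]
  · intro c hcE
    by_cases hcb : c = b
    · subst hcb
      rcases hc.jb with ⟨h1, h2⟩ | ⟨h1, h2⟩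
      · rw [h1, h2, πw, πn v hwv.symm]
        exact huv
      · rw [h1, h2, πw, πn v hwv.symm]
        exact huv.symm
    · obtain ⟨h1, h2⟩ := hend c hcE hcb
      rw [πn _ h1, πn _ h2]
      exact (hr.on c (Finset.mem_sdiff.1 hcE).1).2.2

/-- adjacency in the graph of `K` -/
private lemma C1.adj_K (h : Std M e G T) (hc : C1 M e G T f a b w p u v q) {x y : V}
    (hx : x ≠ w) (hy : y ≠ w) :
    (⟨G.U.erase w, fun c => if c = b then u else G.f c,
        fun c => if c = b then v else G.g c⟩ : Gr α V).Adj (M.E \ {e, f, a}) x y ↔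
      ((x = u ∧ y = v) ∨ (x = v ∧ y = u) ∨ G.Adj (M.E \ {e}) x y) := by
  obtain ⟨hf, ha, hb, hfa, hfb, hab, -⟩ := hc.basic h.g3
  have hbE : b ∈ M.E \ {e, f, a} := by
    rw [Finset.mem_sdiff] at hb ⊢
    refine ⟨hb.1, ?_⟩
    rw [Finset.mem_insert, Finset.mem_insert, Finset.mem_singleton]
    rintro (h1 | h1 | h1)
    · exact hb.2 (Finset.mem_singleton.2 h1)
    · exact hfb h1.symm
    · exact hab h1.symm
  constructor
  · rintro ⟨c, hcE, hj⟩
    by_cases hcb : c = b
    · subst hcb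
      unfold Gr.Jn at hj
      simp only [if_true] at hj
      rcases hj with ⟨h1, h2⟩ | ⟨h1, h2⟩
      · exact Or.inl ⟨h1.symm, h2.symm⟩
      · exact Or.inr (Or.inl ⟨h2.symm, h1.symm⟩)
    · unfold Gr.Jn at hj
      simp only [if_neg hcb] at hj
      refine Or.inr (Or.inr ⟨c, ?_, hj⟩)
      rw [Finset.mem_sdiff, Finset.mem_insert] at hcE
      rw [Finset.mem_sdiff, Finset.mem_singleton]
      exact ⟨hcE.1, fun h1 => hcE.2 (Or.inl h1)⟩
  · rintro (⟨rfl, rfl⟩ | ⟨rfl, rfl⟩ | ⟨c, hcE, hj⟩)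
    · exact ⟨b, hbE, Or.inl ⟨if_pos rfl, if_pos rfl⟩⟩
    · exact ⟨b, hbE, Or.inr ⟨if_pos rfl, if_pos rfl⟩⟩
    · have hends : ∀ d, G.Jn d x y → (G.f d = w ∨ G.g d = w) → False := by
        intro d hd hw
        rcases hd with ⟨h1, h2⟩ | ⟨h1, h2⟩
        · rcases hw with h3 | h3
          · exact hx (h1.symm.trans h3)
          · exact hy (h2.symm.trans h3)
        · rcases hw with h3 | h3
          · exact hy (h1.symm.trans h3)
          · exact hx (h2.symm.trans h3)
      have hst : ∀ d ∈ ({f, a, b} : Finset α), G.f d = w ∨ G.g d = w := by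
        intro d hd
        rw [← hc.star] at hd
        exact (Gr.mem_star.1 hd).2
      have hne : ∀ d ∈ ({f, a, b} : Finset α), c ≠ d := by
        intro d hd hcd
        exact hends c hj (hcd ▸ hst d hd)
      have hcf : c ≠ f := hne f (by simp)
      have hca : c ≠ a := hne a (by simp)
      have hcb : c ≠ b := hne b (by simp)
      refine ⟨c, ?_, ?_⟩
      · rw [Finset.mem_sdiff, Finset.mem_singleton] at hcE
        rw [Finset.mem_sdiff, Finset.mem_insert, Finset.mem_insert, Finset.mem_singleton]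
        refine ⟨hcE.1, ?_⟩
        rintro (h1 | h1 | h1)
        · exact hcE.2 h1
        · exact hcf h1
        · exact hca h1
      · unfold Gr.Jn
        simp only [if_neg hcb]
        exact hj

private lemma C1.link_false (h : Std M e G T) (hc : C1 M e G T f a b w p u v q)
    (hpq : G.Adj (M.E \ {e}) p q) {S1 : Finset V} (hS1 : S1 ⊆ G.U) (hcn : G.Cn (M.E \ {e}) S1)
    (hu1 : u ∈ S1) (hv1 : v ∈ S1) (hw1 : w ∉ S1) (hp1 : p ∉ S1) (hq1 : q ∉ S1) : False := by
  obtain ⟨hf, ha, hb, hfa, hfb, hab, hw, hp, hu, hv, hq, -⟩ := hc.basic h.g3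
  obtain ⟨-, -, -, hlk⟩ := hc.regular h.min.reg h.g3
  apply hlk
  refine ⟨{w, p, q}, S1, ?_, hS1, ?_, ?_, hcn, ?_, ?_, hu1, hv1⟩
  · intro x hx
    rw [Finset.mem_insert, Finset.mem_insert, Finset.mem_singleton] at hx
    rcases hx with rfl | rfl | rfl
    · exact hw
    · exact hp
    · exact hq
  · rw [Finset.disjoint_left]
    intro x hx
    rw [Finset.mem_insert, Finset.mem_insert, Finset.mem_singleton] at hx
    rcases hx with rfl | rfl | rfl
    · exact hw1
    · exact hp1
    · exact hq1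
  · have h1 : G.Cn (M.E \ {e}) (insert p {q}) :=
      (Gr.Cn.single _ q).insert (Finset.mem_singleton_self _) hpq
    exact h1.insert (Finset.mem_insert_self _ _) ⟨f, hf, hc.jf⟩
  · simp
  · simp

private lemma C1.nb_false (h : Std M e G T) (hc : C1 M e G T f a b w p u v q)
    (hp' : G.Adj (M.E \ {e}) u p) (hq' : G.Adj (M.E \ {e}) u q)
    (hy : ∀ y, y ≠ w → G.Adj (M.E \ {e}) u y → y = p ∨ y = q) : False := by
  obtain ⟨hf, ha, hb, hfa, hfb, hab, hw, hp, hu, hv, hq, hwp, hwu, hwv, hwq, hpu, hpv, huv, huq,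
    hvq⟩ := hc.basic h.g3
  obtain ⟨g, hg, hgj⟩ := hp'
  obtain ⟨k, hk, hkj⟩ := hq'
  refine hc.nb_u h hgj hkj ?_
  ext c
  rw [Finset.mem_insert, Finset.mem_insert, Finset.mem_singleton, Gr.mem_star_iff_jn]
  constructor
  · rintro ⟨hcE, y, hcy⟩
    by_cases hyw : y = w
    · subst hyw
      have h1 : c ∈ G.star (M.E \ {e}) y := Gr.mem_star_iff_jn.2 ⟨hcE, u, hcy.symm⟩
      rw [hc.star, Finset.mem_insert, Finset.mem_insert, Finset.mem_singleton] at h1
      rcases h1 with rfl | rfl | rfl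
      · rcases hc.jf.ends hcy with ⟨h2, -⟩ | ⟨-, h2⟩
        · exact absurd h2 hwu
        · exact absurd h2 hpu
      · exact Or.inl rfl
      · rcases hc.jb.ends hcy with ⟨h2, -⟩ | ⟨-, h2⟩
        · exact absurd h2 hwu
        · exact absurd h2.symm huv
    · rcases hy y hyw ⟨c, hcE, hcy⟩ with rfl | rfl
      · exact Or.inr (Or.inl (h.g3.simple c hcE g hg _ _ hcy hgj))
      · exact Or.inr (Or.inr (h.g3.simple c hcE k hk _ _ hcy hkj))
  · rintro (rfl | rfl | rfl)
    · exact ⟨ha, w, hc.ja.symm⟩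
    · exact ⟨hg, p, hgj⟩
    · exact ⟨hk, q, hkj⟩

private lemma C1.case_k33 (h : Std M e G T) (hc : C1 M e G T f a b w p u v q) {A B : Finset V}
    (hAB : A ∪ B = G.U.erase w) (hd : Disjoint A B) (hA : A.card = 3) (hB : B.card = 3)
    (hadj : ∀ x ∈ G.U.erase w, ∀ y ∈ G.U.erase w,
      ((x = u ∧ y = v) ∨ (x = v ∧ y = u) ∨ G.Adj (M.E \ {e}) x y) ↔
        ((x ∈ A ∧ y ∈ B) ∨ (x ∈ B ∧ y ∈ A)))
    (huA : u ∈ A) (hvB : v ∈ B) : False := by
  obtain ⟨hf, ha, hb, hfa, hfb, hab, hw, hp, hu, hv, hq, hwp, hwu, hwv, hwq, hpu, hpv, huv, huq,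
    hvq⟩ := hc.basic h.g3
  obtain ⟨hpT, huv', -, -⟩ := hc.regular h.min.reg h.g3
  have hpq : p ≠ q := by
    intro h1
    apply hpT
    rw [hc.T_eq, h1]
    simp
  have hAU : ∀ x ∈ A, x ∈ G.U.erase w := fun x hx => hAB ▸ Finset.mem_union_left _ hx
  have hBU : ∀ x ∈ B, x ∈ G.U.erase w := fun x hx => hAB ▸ Finset.mem_union_right _ hx
  have hnAB : ∀ x ∈ A, x ∉ B := fun x hx => Finset.disjoint_left.1 hd hx
  have hnw : ∀ x, x ∈ G.U.erase w → x ≠ w := fun x hx => (Finset.mem_erase.1 hx).1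
  have hUU : ∀ x, x ∈ G.U.erase w → x ∈ G.U := fun x hx => (Finset.mem_erase.1 hx).2
  -- adjacency across the classes
  have hacross : ∀ x ∈ A, ∀ y ∈ B, ¬ (x = u ∧ y = v) → G.Adj (M.E \ {e}) x y := by
    intro x hx y hy hno
    rcases (hadj x (hAU x hx) y (hBU y hy)).2 (Or.inl ⟨hx, hy⟩) with h1 | h1 | h1
    · exact absurd h1 hno
    · exact absurd (h1.2 ▸ hy) (hnAB u huA)
    · exact h1
  have hpU : p ∈ A ∪ B := hAB ▸ Finset.mem_erase.2 ⟨hwp.symm, hp⟩
  have hqU : q ∈ A ∪ B := hAB ▸ Finset.mem_erase.2 ⟨hwq.symm, hq⟩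
  -- the third elements
  have third : ∀ (C : Finset V) (x y : V), C.card = 3 → ∃ z ∈ C, z ≠ x ∧ z ≠ y := by
    intro C x y hC
    by_contra hno
    push Not at hno
    have h1 : C ⊆ {x, y} := by
      intro z hz
      rw [Finset.mem_insert, Finset.mem_singleton]
      by_cases hzx : z = x
      · exact Or.inl hzx
      · exact Or.inr (hno z hz hzx)
    have h2 := Finset.card_le_card h1
    have h3 := Finset.card_le_two (a := x) (b := y)
    omega
  have eq3 : ∀ (C : Finset V) (x y z : V), C.card = 3 → x ∈ C → y ∈ C → z ∈ C → x ≠ y →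
      x ≠ z → y ≠ z → ∀ t ∈ C, t = x ∨ t = y ∨ t = z := by
    intro C x y z hC hx hy hz hxy hxz hyz t ht
    have h1 : ({x, y, z} : Finset V) = C := by
      apply Finset.eq_of_subset_of_card_le
      · intro s hs
        rw [Finset.mem_insert, Finset.mem_insert, Finset.mem_singleton] at hs
        rcases hs with rfl | rfl | rfl
        · exact hx
        · exact hy
        · exact hz
      · rw [hC, Finset.card_eq_three.2 ⟨x, y, z, hxy, hxz, hyz, rfl⟩]
    rw [← h1, Finset.mem_insert, Finset.mem_insert, Finset.mem_singleton] at ht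
    exact ht
  -- the crossing case
  have hcross : ∀ pa pb : V, pa ∈ A → pb ∈ B → pa ≠ u → pb ≠ v →
      ({pa, pb} : Finset V) = {p, q} → G.Adj (M.E \ {e}) p q → False := by
    intro pa pb hpa hpb hpau hpbv hset hadjpq
    obtain ⟨a', ha', ha'1, ha'2⟩ := third A u pa hA
    obtain ⟨b', hb', hb'1, hb'2⟩ := third B v pb hB
    have hmem : ∀ x, x = p ∨ x = q → x = pa ∨ x = pb := by
      intro x hx
      have h1 : x ∈ ({p, q} : Finset V) := by
        rw [Finset.mem_insert, Finset.mem_singleton]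
        exact hx
      rw [← hset, Finset.mem_insert, Finset.mem_singleton] at h1
      exact h1
    have hout : ∀ x, x = p ∨ x = q → x ∉ ({u, b', a', v} : Finset V) := by
      intro x hx hx'
      rw [Finset.mem_insert, Finset.mem_insert, Finset.mem_insert, Finset.mem_singleton] at hx'
      rcases hmem x hx with h1 | h1
      · rcases hx' with h2 | h2 | h2 | h2
        · exact hpau (h1.symm.trans h2)
        · exact hnAB x (h1 ▸ hpa) (h2 ▸ hb')
        · exact ha'2 (h2.symm.trans h1)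
        · exact hnAB x (h1 ▸ hpa) (h2 ▸ hvB)
      · rcases hx' with h2 | h2 | h2 | h2
        · exact hnAB x (h2 ▸ huA) (h1 ▸ hpb)
        · exact hb'2 (h2.symm.trans h1)
        · exact hnAB x (h2 ▸ ha') (h1 ▸ hpb)
        · exact hpbv (h1.symm.trans h2)
    have hsub : ({u, b', a', v} : Finset V) ⊆ G.U.erase w := by
      intro x hx
      rw [Finset.mem_insert, Finset.mem_insert, Finset.mem_insert, Finset.mem_singleton] at hx
      rcases hx with rfl | rfl | rfl | rfl
      · exact hAU _ huA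
      · exact hBU _ hb'
      · exact hAU _ ha'
      · exact hBU _ hvB
    refine hc.link_false h hadjpq (S1 := {u, b', a', v}) (fun x hx => hUU x (hsub hx)) ?_
      (by simp) (by simp) (fun hx => hnw w (hsub hx) rfl) (hout p (Or.inl rfl))
      (hout q (Or.inr rfl))
    have h1 : G.Cn (M.E \ {e}) (insert a' {v}) :=
      (Gr.Cn.single _ v).insert (Finset.mem_singleton_self _)
        (hacross a' ha' v hvB fun h' => ha'1 h'.1)
    have h2 : G.Cn (M.E \ {e}) (insert b' (insert a' {v})) :=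
      h1.insert (Finset.mem_insert_self _ _) (hacross a' ha' b' hb' fun h' => ha'1 h'.1).symm
    exact h2.insert (Finset.mem_insert_self _ _) (hacross u huA b' hb' fun h' => hb'1 h'.2)
  rcases Finset.mem_union.1 hpU with hpA | hpB
  · rcases Finset.mem_union.1 hqU with hqA | hqB
    · -- `A = {u, p, q}`
      have hsw := hc.swap
      refine hsw.nb_false h (hacross p hpA v hvB fun h' => hpu h'.1).symm
        (hacross q hqA v hvB fun h' => huq h'.1.symm).symm fun y hyw hvy => ?_
      have hyU := h.g3.rep.on.adj_mem hvy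
      rcases (hadj v (hBU v hvB) y (Finset.mem_erase.2 ⟨hyw, hyU.2.1⟩)).1
        (Or.inr (Or.inr hvy)) with h1 | h1
      · exact absurd hvB (hnAB v h1.1)
      · rcases eq3 A u p q hA huA hpA hqA hpu.symm huq hpq y h1.2 with h2 | h2 | h2
        · exact absurd (h2 ▸ hvy).symm huv'
        · exact Or.inl h2
        · exact Or.inr h2
    · exact hcross p q hpA hqB hpu hvq.symm rfl
        (hacross p hpA q hqB fun h' => hpu h'.1)
  · rcases Finset.mem_union.1 hqU with hqA | hqB
    · exact hcross q p hqA hpB huq.symm hpv (Finset.pair_comm _ _)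
        (hacross q hqA p hpB fun h' => huq h'.1.symm).symm
    · -- `B = {v, p, q}`
      refine hc.nb_false h (hacross u huA p hpB fun h' => hpv h'.2)
        (hacross u huA q hqB fun h' => hvq h'.2.symm) fun y hyw huy => ?_
      have hyU := h.g3.rep.on.adj_mem huy
      rcases (hadj u (hAU u huA) y (Finset.mem_erase.2 ⟨hyw, hyU.2.1⟩)).1
        (Or.inr (Or.inr huy)) with h1 | h1
      · rcases eq3 B v p q hB hvB hpB hqB hpv.symm hvq hpq y h1.2 with h2 | h2 | h2
        · exact absurd (h2 ▸ huy) huv'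
        · exact Or.inl h2
        · exact Or.inr h2
      · exact absurd h1.1 (hnAB u huA)

lemma C1.case_i (h : Std M e G T) (hc : C1 M e G T f a b w p u v q)
    (hk : IsK33 (⟨G.U.erase w, fun c => if c = b then u else G.f c,
        fun c => if c = b then v else G.g c⟩ : Gr α V) (M.E \ {e, f, a}) ∨
      IsK5 (⟨G.U.erase w, fun c => if c = b then u else G.f c,
        fun c => if c = b then v else G.g c⟩ : Gr α V) (M.E \ {e, f, a})) : False := by
  obtain ⟨hf, ha, hb, hfa, hfb, hab, hw, hp, hu, hv, hq, hwp, hwu, hwv, hwq, hpu, hpv, huv, huq,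
    hvq⟩ := hc.basic h.g3
  obtain ⟨hpT, huv', -, -⟩ := hc.regular h.min.reg h.g3
  have hpq : p ≠ q := by
    intro h1
    apply hpT
    rw [hc.T_eq, h1]
    simp
  rcases hk with ⟨-, -, A, B, hAB, hd, hA, hB, hadj⟩ | ⟨-, -, h5, hadj⟩
  · replace hAB : A ∪ B = G.U.erase w := hAB
    have hadj' : ∀ x ∈ G.U.erase w, ∀ y ∈ G.U.erase w,
        ((x = u ∧ y = v) ∨ (x = v ∧ y = u) ∨ G.Adj (M.E \ {e}) x y) ↔
          ((x ∈ A ∧ y ∈ B) ∨ (x ∈ B ∧ y ∈ A)) := by
      intro x hx y hy
      rw [← hadj x hx y hy, hc.adj_K h (Finset.mem_erase.1 hx).1 (Finset.mem_erase.1 hy).1]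
    rcases (hadj' u (Finset.mem_erase.2 ⟨hwu.symm, hu⟩) v (Finset.mem_erase.2 ⟨hwv.symm, hv⟩)).1
      (Or.inl ⟨rfl, rfl⟩) with h1 | h1
    · exact hc.case_k33 h hAB hd hA hB hadj' h1.1 h1.2
    · refine hc.case_k33 h (A := B) (B := A) ((Finset.union_comm _ _).trans hAB) hd.symm hB hA
        (fun x hx y hy => ?_) h1.1 h1.2
      rw [hadj' x hx y hy, or_comm]
  · replace h5 : (G.U.erase w).card = 5 := h5
    have hadj' : ∀ x ∈ G.U.erase w, ∀ y ∈ G.U.erase w, x ≠ y →
        ((x = u ∧ y = v) ∨ (x = v ∧ y = u) ∨ G.Adj (M.E \ {e}) x y) := by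
      intro x hx y hy hxy
      exact (hc.adj_K h (Finset.mem_erase.1 hx).1 (Finset.mem_erase.1 hy).1).1 (hadj x hx y hy hxy)
    obtain ⟨s, hs, hs'⟩ : ∃ s ∈ G.U.erase w, s ∉ ({u, v, p, q} : Finset V) := by
      by_contra hno
      push Not at hno
      have h1 := Finset.card_le_card hno
      have h2 := Finset.card_le_four (a := u) (b := v) (c := p) (d := q)
      omega
    simp only [Finset.mem_insert, Finset.mem_singleton, not_or] at hs'
    obtain ⟨hsu, hsv, hsp, hsq⟩ := hs'
    have huU := Finset.mem_erase.2 ⟨hwu.symm, hu⟩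
    have hvU := Finset.mem_erase.2 ⟨hwv.symm, hv⟩
    have hpU := Finset.mem_erase.2 ⟨hwp.symm, hp⟩
    have hqU := Finset.mem_erase.2 ⟨hwq.symm, hq⟩
    have hpq' : G.Adj (M.E \ {e}) p q := by
      rcases hadj' p hpU q hqU hpq with h1 | h1 | h1
      · exact absurd h1.1 hpu
      · exact absurd h1.1 hpv
      · exact h1
    have hus : G.Adj (M.E \ {e}) u s := by
      rcases hadj' u huU s hs (Ne.symm hsu) with h1 | h1 | h1
      · exact absurd h1.2 hsv
      · exact absurd h1.2 hsu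
      · exact h1
    have hsv' : G.Adj (M.E \ {e}) s v := by
      rcases hadj' s hs v hvU hsv with h1 | h1 | h1
      · exact absurd h1.1 hsu
      · exact absurd h1.1 hsv
      · exact h1
    refine hc.link_false h hpq' (S1 := {u, s, v}) ?_ ?_ (by simp) (by simp) ?_ ?_ ?_
    · intro x hx
      rw [Finset.mem_insert, Finset.mem_insert, Finset.mem_singleton] at hx
      rcases hx with rfl | rfl | rfl
      · exact hu
      · exact (Finset.mem_erase.1 hs).2
      · exact hv
    · have h1 : G.Cn (M.E \ {e}) (insert s {v}) :=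
        (Gr.Cn.single _ v).insert (Finset.mem_singleton_self _) hsv'
      exact h1.insert (Finset.mem_insert_self _ _) hus
    · simp only [Finset.mem_insert, Finset.mem_singleton, not_or]
      exact ⟨hwu, (Finset.mem_erase.1 hs).1.symm, hwv⟩
    · simp only [Finset.mem_insert, Finset.mem_singleton, not_or]
      exact ⟨hpu, fun h1 => hsp h1.symm, hpv⟩
    · simp only [Finset.mem_insert, Finset.mem_singleton, not_or]
      exact ⟨huq.symm, fun h1 => hsq h1.symm, hvq.symm⟩

end

end Pool.Agent.H53.Sey
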