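import Pool.Agent.H53.Sey.GrB

/-!
# Graph toolkit B1: connectivity function, good matroids, Bixby's lemma (job SEYG-B1)

(see also part B2)

* `lam_add_card_le_of_mem`: if a nonzero cocycle lives on `A` then
  `dim {x ∈ D : x = 0 off A} ≥ 1`, so `rk (E \ A) ≤ rk E - 1` and `lam A ≤ rk A - 1 ≤ |A| - 1`.
  The dual statement follows with `lam_dual`.
* `Rp.lam_le` (vertex separations): with `E_A`, `E_B` the two sides, `rk X + dim {x ∈ D, x = 0 on
  X} = dim D` (`rk_add_finrank`), so `lam A = dim D - dim D_A - dim D_B`, `D_A = {x ∈ D : x = 0 off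
  A}` etc., and `D_A ⊓ D_B = ⊥`. The cuts of labellings supported off `Q` are in `D_A`, those of
  labellings supported off `P` are in `D_B`, so `D / (D_A + D_B)` is spanned by the cuts of the
  vertices `v ∈ P ∩ Q`; their sum is in `D_A + D_B` (the constant labelling has the zero cut), so
  `|P ∩ Q| - 1` of them suffice. If `P ∩ Q = ∅` the quotient is zero.
* `GRep.lam_le`: the same, with `e ∈ A` and `T ⊆ P`: labellings supported off `P` have
  `e`-coordinate `0`.
* `vc_of_good`: for a separation `(P, Q)` let `A` = edges inside `P`, `B` = the other edges (inside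
  `Q`). `lam A ≤ 1`, so `|A| ≤ 2` or `|B| ≤ 2`. A vertex `v ∈ (P \ Q) \ W` has its star (at least
  three edges) inside `A`; a vertex of `(Q \ P) \ W` has its star inside `B`.
* `deg_of_conn3`: a star with one or two edges is a nonzero cocycle (`Rp.star_mem`), so `lam ≤ 0`
  or `lam ≤ 1`: contradiction to 3-connectivity. `simple_of_conn3`: two parallel edges form a
  circuit: `ind {a, b} ∈ N.dual.D`.
* `exists_g3`: put together (`exists_gRep`).
* `bixby`: for `X` with `lam_{M\f} X ≤ 1`, `|X|, |Y| ≥ 3` (`Y` the complement in `E \ f`) and `X'`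
  with `lam_{M/f} X' ≤ 1`, `|X'|, |Y'| ≥ 3`: `lam_M (X ∩ X') + lam_M (Y ∩ Y') ≤
  lam_{M\f} X + lam_{M/f} X' + 1` (submodularity of `rk`, `rk_del`, `rk_con`), hence
  `lam_M (X ∩ X') ≤ 1` or `lam_M (Y ∩ Y') ≤ 1`, so `|X ∩ X'| ≤ 1` or `|Y ∩ Y'| ≤ 1`; the same with
  `Y'` and `X'` exchanged. In each of the four combinations one of `X, Y, X', Y'` has at most two
  elements.
-/

set_option autoImplicit false

namespace Pool.Agent.H53.Sey

open Pool.Agent.H63.Sey

universe u v w

variable {K : Type} [Field K] {α : Type u} [DecidableEq α] {V : Type v} [DecidableEq V]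

lemma lam_lt_card_of_mem {N : LM K α} {A : Finset α} (hA : A ⊆ N.E) {x : α → K} (hx : x ∈ N.D)
    (h0 : x ≠ 0) (hs : ∀ a, a ∉ A → x a = 0) : N.lam A < A.card := by
  have h1 := N.lam_add A
  have h2 := N.rk_le_card A
  have h3 := N.finrank_con (N.E \ A)
  have h4 := N.rk_E
  have h5 : 0 < Module.finrank K (N.con (N.E \ A)).D := by
    have hmem : x ∈ (N.con (N.E \ A)).D := by
      rw [LM.mem_con]
      refine ⟨hx, fun a ha => hs a ?_⟩
      rw [Finset.mem_sdiff] at ha
      exact ha.2
    have : Nontrivial (N.con (N.E \ A)).D := by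
      refine ⟨⟨⟨x, hmem⟩, 0, fun h => h0 ?_⟩⟩
      exact congrArg Subtype.val h
    exact Module.finrank_pos
  omega

lemma lam_lt_card_of_mem_dual {N : LM K α} {A : Finset α} (hA : A ⊆ N.E) {x : α → K}
    (hx : x ∈ N.dual.D) (h0 : x ≠ 0) (hs : ∀ a, a ∉ A → x a = 0) : N.lam A < A.card := by
  rw [← N.lam_dual A hA]
  exact lam_lt_card_of_mem (N := N.dual) hA hx h0 hs

lemma Good.dual {N : LM K α} (h : Good N) : Good N.dual := by
  intro X hX hl
  rw [N.lam_dual X hX] at hl
  exact h X hX hl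

lemma good_of_conn3 {N : LM K α} (h : N.Conn3) : Good N := by
  intro X hX hl
  by_contra hcon
  push Not at hcon
  have := h.2 X hX (by omega) (by omega)
  omega

/-- in an internally 4-connected matroid with at least 10 elements deletions are good -/
lemma good_del_of_i4c {M : LM K α} (h : M.I4c) (hcard : 10 ≤ M.E.card) {e : α} (he : e ∈ M.E) :
    Good (M.del {e}) := by
  intro X hX hl
  rw [LM.del_E] at hX ⊢
  by_contra hcon
  push Not at hcon
  obtain ⟨c1, c2⟩ := hcon
  have hXE : X ⊆ M.E := hX.trans Finset.sdiff_subset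
  have heX : e ∉ X := by
    intro h'
    have := hX h'
    simp at this
  have hcE : (M.E \ {e}).card + 1 = M.E.card := by
    have := Finset.card_sdiff_add_card_eq_card (Finset.singleton_subset_iff.2 he)
    rw [Finset.card_singleton] at this
    exact this
  have hcX : ((M.E \ {e}) \ X).card + X.card = (M.E \ {e}).card :=
    Finset.card_sdiff_add_card_eq_card hX
  have hcX' : (M.E \ X).card + X.card = M.E.card := Finset.card_sdiff_add_card_eq_card hXE
  by_cases h4 : 4 ≤ X.card
  · have h1 := LM.lam_del_single M hXE heX he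
    have h2 := h.2 X hXE h4 (by omega)
    omega
  · set Y := (M.E \ {e}) \ X with hY
    have hYE : Y ⊆ M.E := Finset.sdiff_subset.trans Finset.sdiff_subset
    have heY : e ∉ Y := by
      intro h'
      rw [hY] at h'
      simp at h'
    have h1 := LM.lam_del_single M hYE heY he
    have h2 : (M.del {e}).lam Y = (M.del {e}).lam X := (M.del {e}).lam_compl X hX
    have hcY' : (M.E \ Y).card + Y.card = M.E.card := Finset.card_sdiff_add_card_eq_card hYE
    have h3 := h.2 Y hYE (by omega) (by omega)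
    omega

lemma good_con_of_i4c {M : LM K α} (h : M.I4c) (hcard : 10 ≤ M.E.card) {e : α} (he : e ∈ M.E) :
    Good (M.con {e}) := by
  have h1 := (good_del_of_i4c h.dual hcard (e := e) he).dual
  rw [LM.dual_del, LM.dual_dual] at h1
  exact h1

private lemma bixby_aux {M : LM K α} (h : M.Conn3) {f : α} (hf : f ∈ M.E) {X Y X' Y' : Finset α}
    (hX : X ⊆ M.E \ {f}) (hY : Y = (M.E \ {f}) \ X) (hX' : X' ⊆ M.E \ {f})
    (hY' : Y' = (M.E \ {f}) \ X') (hl : (M.del {f}).lam X ≤ 1) (hl' : (M.con {f}).lam X' ≤ 1)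
    (c1 : 3 ≤ X.card) (c2 : 3 ≤ Y.card) : (X ∩ X').card ≤ 1 ∨ (Y ∩ Y').card ≤ 1 := by
  have fX : f ∉ X := fun h' => by have := hX h'; simp at this
  have fX' : f ∉ X' := fun h' => by have := hX' h'; simp at this
  have hXE : X ⊆ M.E := hX.trans Finset.sdiff_subset
  have hXE' : X' ⊆ M.E := hX'.trans Finset.sdiff_subset
  have mY : ∀ a, a ∈ Y ↔ a ∈ M.E ∧ a ≠ f ∧ a ∉ X := by
    intro a
    rw [hY]
    simp only [Finset.mem_sdiff, Finset.mem_singleton]
    tauto
  have mY' : ∀ a, a ∈ Y' ↔ a ∈ M.E ∧ a ≠ f ∧ a ∉ X' := by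
    intro a
    rw [hY']
    simp only [Finset.mem_sdiff, Finset.mem_singleton]
    tauto
  have hYE : Y ⊆ M.E := fun a ha => ((mY a).1 ha).1
  have hYE' : Y' ⊆ M.E := fun a ha => ((mY' a).1 ha).1
  -- the two connectivities
  have d1 := (M.del {f}).lam_add X
  rw [M.rk_del, M.rk_del, M.rk_del, M.del_E] at d1
  have e1 : X \ {f} = X := by
    rw [Finset.sdiff_singleton_eq_erase, Finset.erase_eq_of_notMem fX]
  have e2 : ((M.E \ {f}) \ X) \ {f} = Y := by
    ext a
    rw [mY]
    simp only [Finset.mem_sdiff, Finset.mem_singleton]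
    tauto
  rw [e1, e2] at d1
  have k1 := (M.con {f}).lam_add X'
  rw [M.con_E] at k1
  have k2 := M.rk_con {f} X'
  have k3 := M.rk_con {f} ((M.E \ {f}) \ X')
  have k4 := M.rk_con {f} (M.E \ {f})
  have e3 : (M.E \ {f}) ∪ {f} = M.E := by
    ext a
    simp only [Finset.mem_union, Finset.mem_sdiff, Finset.mem_singleton]
    constructor
    · rintro (h' | h')
      · exact h'.1
      · rw [h']; exact hf
    · intro h'
      by_cases ha : a = f
      · exact Or.inr ha
      · exact Or.inl ⟨h', ha⟩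
  rw [e3] at k4
  rw [← hY'] at k3 k1
  -- submodularity
  have s1 := M.rk_submod X (X' ∪ {f})
  have s2 := M.rk_submod Y (Y' ∪ {f})
  have e4 : X ∩ (X' ∪ {f}) = X ∩ X' := by
    ext a
    simp only [Finset.mem_inter, Finset.mem_union, Finset.mem_singleton]
    constructor
    · rintro ⟨h1, h2 | h2⟩
      · exact ⟨h1, h2⟩
      · exact absurd (h2 ▸ h1) fX
    · rintro ⟨h1, h2⟩
      exact ⟨h1, Or.inl h2⟩
  have e5 : Y ∩ (Y' ∪ {f}) = Y ∩ Y' := by
    ext a
    simp only [Finset.mem_inter, Finset.mem_union, Finset.mem_singleton]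
    constructor
    · rintro ⟨h1, h2 | h2⟩
      · exact ⟨h1, h2⟩
      · exact absurd h2 ((mY a).1 h1).2.1
    · rintro ⟨h1, h2⟩
      exact ⟨h1, Or.inl h2⟩
  rw [e4] at s1
  rw [e5] at s2
  have l1 := M.lam_add (X ∩ X')
  have l2 := M.lam_add (Y ∩ Y')
  have e6 : M.E \ (X ∩ X') = Y ∪ (Y' ∪ {f}) := by
    ext a
    simp only [Finset.mem_sdiff, Finset.mem_inter, Finset.mem_union, Finset.mem_singleton, mY, mY']
    constructor
    · rintro ⟨h1, h2⟩
      by_cases ha : a = f
      · exact Or.inr (Or.inr ha)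
      · by_cases hx : a ∈ X
        · exact Or.inr (Or.inl ⟨h1, ha, fun h3 => h2 ⟨hx, h3⟩⟩)
        · exact Or.inl ⟨h1, ha, hx⟩
    · rintro (⟨h1, h2, h3⟩ | ⟨h1, h2, h3⟩ | h1)
      · exact ⟨h1, fun h' => h3 h'.1⟩
      · exact ⟨h1, fun h' => h3 h'.2⟩
      · rw [h1]; exact ⟨hf, fun h' => fX h'.1⟩
  have e7 : M.E \ (Y ∩ Y') = X ∪ (X' ∪ {f}) := by
    ext a
    simp only [Finset.mem_sdiff, Finset.mem_inter, Finset.mem_union, Finset.mem_singleton, mY, mY']
    constructor
    · rintro ⟨h1, h2⟩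
      by_cases ha : a = f
      · exact Or.inr (Or.inr ha)
      · by_cases hx : a ∈ X
        · exact Or.inl hx
        · by_cases hx' : a ∈ X'
          · exact Or.inr (Or.inl hx')
          · exact absurd ⟨⟨h1, ha, hx⟩, ⟨h1, ha, hx'⟩⟩ h2
    · rintro (h1 | h1 | h1)
      · exact ⟨hXE h1, fun h' => h'.1.2.2 h1⟩
      · exact ⟨hXE' h1, fun h' => h'.2.2.2 h1⟩
      · rw [h1]; exact ⟨hf, fun h' => h'.1.2.1 rfl⟩
  rw [e6] at l1
  rw [e7] at l2
  have r1 : M.rk ((M.E \ {f}) \ {f}) ≤ M.rk M.E := M.rk_le_E _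
  have r2 : M.rk {f} ≤ 1 := by
    have := M.rk_le_card {f}
    rwa [Finset.card_singleton] at this
  have hsum : M.lam (X ∩ X') + M.lam (Y ∩ Y') ≤ 3 := by omega
  have hor : M.lam (X ∩ X') ≤ 1 ∨ M.lam (Y ∩ Y') ≤ 1 := by omega
  rcases hor with h' | h'
  · left
    by_contra hcon
    have hsub : X ∩ X' ⊆ M.E := Finset.inter_subset_left.trans hXE
    have hge : Y.card ≤ (M.E \ (X ∩ X')).card := by
      apply Finset.card_le_card
      rw [e6]
      exact Finset.subset_union_left
    have := h.2 _ hsub (by omega) (by omega)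
    omega
  · right
    by_contra hcon
    have hsub : Y ∩ Y' ⊆ M.E := Finset.inter_subset_left.trans hYE
    have hge : X.card ≤ (M.E \ (Y ∩ Y')).card := by
      apply Finset.card_le_card
      rw [e7]
      exact Finset.subset_union_left
    have := h.2 _ hsub (by omega) (by omega)
    omega

/-- Bixby's lemma -/
theorem bixby {M : LM K α} (h : M.Conn3) {f : α} (hf : f ∈ M.E) :
    Good (M.del {f}) ∨ Good (M.con {f}) := by
  by_contra hcon
  push Not at hcon
  obtain ⟨h1, h2⟩ := hcon
  unfold Good at h1 h2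
  push Not at h1 h2
  obtain ⟨X, hX, hl, c1, c2⟩ := h1
  obtain ⟨X', hX', hl', c1', c2'⟩ := h2
  rw [LM.del_E] at hX c2
  rw [LM.con_E] at hX' c2'
  set Y := (M.E \ {f}) \ X with hY
  set Y' := (M.E \ {f}) \ X' with hY'
  have hYs : Y' ⊆ M.E \ {f} := Finset.sdiff_subset
  have hYY : X' = (M.E \ {f}) \ Y' := (Finset.sdiff_sdiff_eq_self hX').symm
  have hl'' : (M.con {f}).lam Y' ≤ 1 := by
    have := (M.con {f}).lam_compl X' hX'
    rw [LM.con_E, ← hY'] at this
    rw [this]
    exact hl'
  have a1 := bixby_aux h hf hX hY hX' hY' hl hl' (by omega) (by omega)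
  have a2 := bixby_aux h hf hX hY hYs hYY hl hl'' (by omega) (by omega)
  -- cardinalities
  have splitc : ∀ (A B B' : Finset α), A ⊆ M.E \ {f} → B' = (M.E \ {f}) \ B →
      A.card ≤ (A ∩ B).card + (A ∩ B').card := by
    intro A B B' hA hB
    refine le_trans (Finset.card_le_card ?_) (Finset.card_union_le _ _)
    intro a ha
    rw [hB]
    have := hA ha
    simp only [Finset.mem_union, Finset.mem_inter, Finset.mem_sdiff] at this ⊢
    tauto
  have t1 := splitc X X' Y' hX hY'
  have t2 := splitc Y X' Y' (by rw [hY]; exact Finset.sdiff_subset) hY'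
  have t3 := splitc X' X Y hX' hY
  have t4 := splitc Y' X Y hYs hY
  rw [Finset.inter_comm X' X, Finset.inter_comm X' Y] at t3
  rw [Finset.inter_comm Y' X, Finset.inter_comm Y' Y] at t4
  rcases a1 with a1 | a1 <;> rcases a2 with a2 | a2 <;> omega

private lemma rk_compl_eq {N : LM K α} {A : Finset α}
    (h : ∀ x ∈ N.D, (∀ a, a ∉ A → x a = 0) → x = 0) : N.rk (N.E \ A) = N.rk N.E := by
  have h3 := N.finrank_con (N.E \ A)
  have h4 := N.rk_E
  have h5 : Module.finrank K (N.con (N.E \ A)).D = 0 := by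
    have hb : (N.con (N.E \ A)).D = ⊥ := by
      rw [Submodule.eq_bot_iff]
      intro x hx
      rw [LM.mem_con] at hx
      apply h x hx.1
      intro a ha
      by_cases haE : a ∈ N.E
      · exact hx.2 a (Finset.mem_sdiff.2 ⟨haE, ha⟩)
      · exact N.supp x hx.1 a haE
    rw [hb]
    exact finrank_bot K _
  omega

private lemma lam_eq_card {N : LM K α} {A : Finset α} (hA : A ⊆ N.E)
    (h : ∀ x ∈ N.D, (∀ a, a ∉ A → x a = 0) → x = 0)
    (h' : ∀ x ∈ N.dual.D, (∀ a, a ∉ A → x a = 0) → x = 0) : N.lam A = A.card := by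
  have h1 := rk_compl_eq h
  have h2 := rk_compl_eq (N := N.dual) h'
  rw [LM.dual_E] at h2
  have h3 := N.rk_dual (N.E \ A) Finset.sdiff_subset
  have h4 := N.rk_dual N.E (Finset.Subset.refl _)
  rw [Finset.sdiff_sdiff_eq_self hA] at h3
  rw [Finset.sdiff_self, N.rk_empty] at h4
  have h5 : (N.E \ A).card + A.card = N.E.card := Finset.card_sdiff_add_card_eq_card hA
  have h6 := N.lam_add A
  omega

private lemma eq_zero_of_small {D : Submodule (ZMod 2) (α → ZMod 2)} {E A : Finset α} (hA : A ⊆ E)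
    (hc : A.card ≤ 2) (hd : ∀ S ⊆ E, S.Nonempty → ind S ∈ D → 3 ≤ S.card) :
    ∀ x ∈ D, (∀ a, a ∉ A → x a = 0) → x = 0 := by
  intro x hx hs
  by_contra hne
  have hx2 : ∀ a, x a = 0 ∨ x a = 1 := by
    intro a
    generalize x a = z
    revert z
    decide
  have hxi : ind (A.filter fun a => x a ≠ 0) = x := by
    funext a
    by_cases ha : a ∈ A
    · rcases hx2 a with h0 | h1
      · simp [h0]
      · simp [ha, h1]
    · simp [ha, hs a ha]
  have hne' : (A.filter fun a => x a ≠ 0).Nonempty := by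
    by_contra hcon
    rw [Finset.not_nonempty_iff_eq_empty] at hcon
    apply hne
    rw [← hxi, hcon]
    funext a
    simp
  have h1 := hd (A.filter fun a => x a ≠ 0) ((Finset.filter_subset _ _).trans hA) hne'
    (by rw [hxi]; exact hx)
  have h2 := Finset.card_le_card (Finset.filter_subset (fun a => x a ≠ 0) A)
  omega

/-- a good binary matroid without cocycles and cycles of size at most 2 is 3-connected
(`lam X = r X + r* X - |X|`: a set of size 1 with `lam = 0` or of size 2 with `lam ≤ 1` contains a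
nonempty cycle or cocycle) -/
lemma conn3_of_good {N : BM α} (h : Good N)
    (hd : ∀ A ⊆ N.E, A.Nonempty → ind A ∈ N.D → 3 ≤ A.card)
    (hd' : ∀ A ⊆ N.E, A.Nonempty → ind A ∈ N.dual.D → 3 ≤ A.card) : N.Conn3 := by
  have key : ∀ A ⊆ N.E, A.card ≤ 2 → N.lam A = A.card := by
    intro A hA hc
    exact lam_eq_card hA (eq_zero_of_small hA hc hd) (eq_zero_of_small hA hc hd')
  have key' : ∀ A ⊆ N.E, (N.E \ A).card ≤ 2 → N.lam A = (N.E \ A).card := by
    intro A hA hc
    rw [← N.lam_compl A hA]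
    exact key _ Finset.sdiff_subset hc
  refine ⟨fun X hX h1 h2 => ?_, fun X hX h1 h2 => ?_⟩
  · by_contra hcon
    have h3 : 0 < X.card := Finset.card_pos.2 h1
    have h4 : 0 < (N.E \ X).card := Finset.card_pos.2 h2
    rcases h X hX (by omega) with h' | h'
    · have := key X hX h'
      omega
    · have := key' X hX h'
      omega
  · by_contra hcon
    rcases h X hX (by omega) with h' | h'
    · have := key X hX h'
      omega
    · have := key' X hX h'
      omega

/-- conversely -/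
lemma cocycle_card_of_conn3 {N : BM α} (h : N.Conn3) (hcard : 4 ≤ N.E.card) {A : Finset α}
    (hA : A ⊆ N.E) (hne : A.Nonempty) (hx : ind A ∈ N.D) : 3 ≤ A.card := by
  by_contra hcon
  have h0 : ind A ≠ 0 := by
    intro h'
    obtain ⟨a, ha⟩ := hne
    have := congrFun h' a
    simp [ha] at this
  have h1 : N.lam A < A.card := lam_lt_card_of_mem hA hx h0 (fun a ha => by simp [ha])
  have h2 : (N.E \ A).card + A.card = N.E.card := Finset.card_sdiff_add_card_eq_card hA
  have h3 : 0 < A.card := Finset.card_pos.2 hne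
  have h4 : (N.E \ A).Nonempty := Finset.card_pos.1 (by omega)
  have h5 := h.1 A hA hne h4
  by_cases h6 : 2 ≤ A.card
  · have := h.2 A hA h6 (by omega)
    omega
  · omega

lemma cycle_card_of_conn3 {N : BM α} (h : N.Conn3) (hcard : 4 ≤ N.E.card) {A : Finset α}
    (hA : A ⊆ N.E) (hne : A.Nonempty) (hx : ind A ∈ N.dual.D) : 3 ≤ A.card :=
  cocycle_card_of_conn3 (N := N.dual) h.dual hcard hA hne hx

end Pool.Agent.H53.Sey
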