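import Pool.Agent.H53.Sey.SepA

/-!
# Graph toolkit B2: the connectivity function of graphic matroids and grafts (job SEYG-B2)

(see also part B1)

* `lam_add_card_le_of_mem`: if a nonzero cocycle lives on `A` then
  `dim {x ∈ D : x = 0 off A} ≥ 1`, so `rk (E \ A) ≤ rk E - 1` and `lam A ≤ rk A - 1 ≤ |A| - 1`.
  The dual statement follows with `lam_dual`.
* `Rp.lam_le` (vertex separations): with `E_A`, `E_B` the two sides, `rk X + dim {x ∈ D, x = 0 on
  X} = dim D` (`rk_add_finrank`), so `lam A = dim D - dim D_A - dim D_B`, `D_A = {x ∈ D : x = 0 off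
  A}` etc., and `D_A ⊓ D_B = ⊥`. The cuts of labellings supported off `Q` are in `D_A`, those of
  labellings supported off `P` are in `D_B`, so `D / (D_A + D_B)` is spanned by the cuts of the
  vertices `v ∈ P ∩ Q`; their sum is in `D_A + D_B` (the constant labelling has the zero cut), so
  `|P ∩ Q| - 1` of them suffice. If `P ∩ Q = ∅` the quotient is zero.
* `GRep.lam_le`: the same, with `e ∈ A` and `T ⊆ P`: labellings supported off `P` have
  `e`-coordinate `0`.
* `vc_of_good`: for a separation `(P, Q)` let `A` = edges inside `P`, `B` = the other edges (inside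
  `Q`). `lam A ≤ 1`, so `|A| ≤ 2` or `|B| ≤ 2`. A vertex `v ∈ (P \ Q) \ W` has its star (at least
  three edges) inside `A`; a vertex of `(Q \ P) \ W` has its star inside `B`.
* `deg_of_conn3`: a star with one or two edges is a nonzero cocycle (`Rp.star_mem`), so `lam ≤ 0`
  or `lam ≤ 1`: contradiction to 3-connectivity. `simple_of_conn3`: two parallel edges form a
  circuit: `ind {a, b} ∈ N.dual.D`.
* `exists_g3`: put together (`exists_gRep`).
* `bixby`: for `X` with `lam_{M\f} X ≤ 1`, `|X|, |Y| ≥ 3` (`Y` the complement in `E \ f`) and `X'`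
  with `lam_{M/f} X' ≤ 1`, `|X'|, |Y'| ≥ 3`: `lam_M (X ∩ X') + lam_M (Y ∩ Y') ≤
  lam_{M\f} X + lam_{M/f} X' + 1` (submodularity of `rk`, `rk_del`, `rk_con`), hence
  `lam_M (X ∩ X') ≤ 1` or `lam_M (Y ∩ Y') ≤ 1`, so `|X ∩ X'| ≤ 1` or `|Y ∩ Y'| ≤ 1`; the same with
  `Y'` and `X'` exchanged. In each of the four combinations one of `X, Y, X', Y'` has at most two
  elements.
-/

set_option autoImplicit false

namespace Pool.Agent.H53.Sey

open Pool.Agent.H63.Sey

universe u v w

variable {α : Type u} [DecidableEq α] {V : Type v} [DecidableEq V]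

/-- vertex separation, abstract form -/
private lemma sepB_lam_le {N : BM α} {A : Finset α} (c : (V → ZMod 2) →ₗ[ZMod 2] (α → ZMod 2))
    (hD : ∀ x, x ∈ N.D ↔ ∃ φ, c φ = x) (P Q : Finset V) (hc1 : c (fun _ => 1) = 0)
    (hA' : ∀ φ : V → ZMod 2, (∀ x ∈ Q, φ x = 0) → ∀ a ∈ N.E \ A, c φ a = 0)
    (hB' : ∀ φ : V → ZMod 2, (∀ x ∈ P, φ x = 0) → ∀ a ∈ A, c φ a = 0) :
    N.lam A ≤ (P ∩ Q).card - 1 := by
  classical
  have h1 := N.lam_add A
  have h2 := N.rk_add_finrank A
  have h3 := N.rk_add_finrank (N.E \ A)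
  have h4 := N.rk_E
  set DB : Submodule (ZMod 2) (α → ZMod 2) := N.D ⊓ LinearMap.ker (res (ZMod 2) A) with hDB
  set DA : Submodule (ZMod 2) (α → ZMod 2) := N.D ⊓ LinearMap.ker (res (ZMod 2) (N.E \ A))
    with hDA
  have memDB : ∀ x : α → ZMod 2, x ∈ DB ↔ x ∈ N.D ∧ ∀ a ∈ A, x a = 0 := fun x =>
    N.mem_con (X := A)
  have memDA : ∀ x : α → ZMod 2, x ∈ DA ↔ x ∈ N.D ∧ ∀ a ∈ N.E \ A, x a = 0 := fun x =>
    N.mem_con (X := N.E \ A)
  obtain ⟨W, hW, hWs⟩ : ∃ W : Finset V, W.card ≤ (P ∩ Q).card - 1 ∧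
      ∀ φ : V → ZMod 2, ∃ φ' : V → ZMod 2, c φ' = c φ ∧ ∀ x ∈ P ∩ Q, x ∉ W → φ' x = 0 := by
    rcases (P ∩ Q).eq_empty_or_nonempty with h | ⟨v0, hv0⟩
    · refine ⟨∅, by simp, fun φ => ⟨φ, rfl, ?_⟩⟩
      rw [h]
      intro x hx
      exact absurd hx (Finset.notMem_empty _)
    · refine ⟨(P ∩ Q).erase v0, by rw [Finset.card_erase_of_mem hv0], fun φ =>
        ⟨φ + φ v0 • (fun _ => 1), ?_, ?_⟩⟩
      · rw [map_add, map_smul, hc1, smul_zero, add_zero]
      · intro x hx hx'
        have hxv : x = v0 := by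
          by_contra hne
          exact hx' (Finset.mem_erase.2 ⟨hne, hx⟩)
        rw [hxv]
        simp only [Pi.add_apply, Pi.smul_apply, smul_eq_mul, mul_one]
        exact CharTwo.add_self_eq_zero _
  set S : Submodule (ZMod 2) (α → ZMod 2) :=
    Submodule.span (ZMod 2) ((W.image fun v => c (Pi.single v 1) : Finset (α → ZMod 2)) :
      Set (α → ZMod 2)) with hS
  have hle : N.D ≤ (DA ⊔ DB) ⊔ S := by
    intro x hx
    obtain ⟨φ0, rfl⟩ := (hD x).1 hx
    obtain ⟨φ, hφ, hφ0⟩ := hWs φ0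
    rw [← hφ]
    have hsplit : φ = (fun x => if x ∈ Q then 0 else φ x) +
        (fun x => if x ∈ Q ∧ x ∉ P then φ x else 0) +
        ∑ v ∈ W, (if v ∈ P ∩ Q then φ v else 0) • (Pi.single v 1 : V → ZMod 2) := by
      funext x
      rw [Pi.add_apply, Pi.add_apply, Finset.sum_apply]
      have hs : ∑ v ∈ W, ((if v ∈ P ∩ Q then φ v else 0) • (Pi.single v 1 : V → ZMod 2)) x =
          if x ∈ W then (if x ∈ P ∩ Q then φ x else 0) else 0 := by
        rw [← Finset.sum_ite_eq W x (fun v => if v ∈ P ∩ Q then φ v else 0)]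
        refine Finset.sum_congr rfl fun v _ => ?_
        rw [Pi.smul_apply, smul_eq_mul, Pi.single_apply]
        by_cases hxv : x = v
        · rw [if_pos hxv, if_pos hxv, mul_one]
        · rw [if_neg hxv, if_neg hxv, mul_zero]
      rw [hs]
      by_cases hQ : x ∈ Q
      · by_cases hP : x ∈ P
        · have hPQ : x ∈ P ∩ Q := Finset.mem_inter.2 ⟨hP, hQ⟩
          by_cases hxW : x ∈ W
          · simp [hQ, hP, hxW]
          · simp [hQ, hP, hxW, hφ0 x hPQ hxW]
        · simp [hQ, hP]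
      · simp [hQ]
    rw [hsplit, map_add, map_add, map_sum]
    refine Submodule.add_mem _ (Submodule.add_mem _ ?_ ?_) (Submodule.sum_mem _ fun v hv => ?_)
    · refine Submodule.mem_sup_left (Submodule.mem_sup_left ((memDA _).2 ⟨(hD _).2 ⟨_, rfl⟩, ?_⟩))
      exact hA' _ fun x hx => by rw [if_pos hx]
    · refine Submodule.mem_sup_left (Submodule.mem_sup_right ((memDB _).2 ⟨(hD _).2 ⟨_, rfl⟩, ?_⟩))
      exact hB' _ fun x hx => if_neg fun h => h.2 hx
    · rw [map_smul]
      refine Submodule.mem_sup_right (Submodule.smul_mem _ _ (Submodule.subset_span ?_))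
      rw [Finset.mem_coe]
      exact Finset.mem_image_of_mem _ hv
  have hfDA : FiniteDimensional (ZMod 2) DA :=
    Submodule.finiteDimensional_of_le (S₂ := N.D) inf_le_left
  have hfDB : FiniteDimensional (ZMod 2) DB :=
    Submodule.finiteDimensional_of_le (S₂ := N.D) inf_le_left
  have hfS : FiniteDimensional (ZMod 2) S := FiniteDimensional.span_finset _ _
  have h5 : Module.finrank (ZMod 2) N.D ≤ Module.finrank (ZMod 2) ↥((DA ⊔ DB) ⊔ S) :=
    Submodule.finrank_mono hle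
  have h6 : Module.finrank (ZMod 2) ↥((DA ⊔ DB) ⊔ S) ≤
      Module.finrank (ZMod 2) ↥(DA ⊔ DB) + Module.finrank (ZMod 2) S :=
    Submodule.finrank_add_le_finrank_add_finrank _ _
  have h7 : Module.finrank (ZMod 2) ↥(DA ⊔ DB) ≤
      Module.finrank (ZMod 2) DA + Module.finrank (ZMod 2) DB :=
    Submodule.finrank_add_le_finrank_add_finrank _ _
  have h8 : Module.finrank (ZMod 2) S ≤ (P ∩ Q).card - 1 :=
    (finrank_span_finset_le_card _).trans (Finset.card_image_le.trans hW)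
  omega

/-- the cocycles of a graft as a linear map -/
private def sepB_vec (G : Gr α V) (E : Finset α) (e : α) (T : Finset V) :
    (V → ZMod 2) →ₗ[ZMod 2] (α → ZMod 2) where
  toFun φ := G.vec E e T φ
  map_add' φ ψ := by
    ext a
    simp only [Gr.vec, Pi.add_apply]
    split_ifs
    · rw [Finset.sum_add_distrib]
    · ring
    · rw [add_zero]
  map_smul' r φ := by
    ext a
    simp only [Gr.vec, Pi.smul_apply, smul_eq_mul, RingHom.id_apply]
    split_ifs
    · rw [Finset.mul_sum]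
    · ring
    · rw [mul_zero]

section

variable {N : BM α} {G : Gr α V}

lemma Rp.lam_le (h : Rp N G) {A : Finset α} (hA : A ⊆ N.E) {P Q : Finset V} (hPQ : P ∪ Q = G.U)
    (hP : ∀ a ∈ A, G.f a ∈ P ∧ G.g a ∈ P) (hQ : ∀ a ∈ N.E \ A, G.f a ∈ Q ∧ G.g a ∈ Q) :
    N.lam A ≤ (P ∩ Q).card - 1 := by
  refine sepB_lam_le (cob N.E G.f G.g) (fun x => ?_) P Q ?_ ?_ ?_
  · rw [h.mem]
    constructor
    · rintro ⟨φ, hφ⟩
      exact ⟨φ, funext fun a => by rw [cob_apply, hφ a]⟩
    · rintro ⟨φ, rfl⟩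
      exact ⟨φ, fun a => by rw [cob_apply]⟩
  · ext a
    rw [cob_apply]
    split_ifs
    · rfl
    · rfl
  · intro φ hφ a ha
    rw [cob_apply, if_pos (Finset.mem_sdiff.1 ha).1, hφ _ (hQ a ha).1, hφ _ (hQ a ha).2, add_zero]
  · intro φ hφ a ha
    rw [cob_apply, if_pos (hA ha), hφ _ (hP a ha).1, hφ _ (hP a ha).2, add_zero]

lemma GRep.lam_le {M : BM α} {e : α} {T : Finset V} (h : GRep M e G T) {A : Finset α}
    (hA : A ⊆ M.E) (he : e ∈ A) {P Q : Finset V} (hPQ : P ∪ Q = G.U) (hT : T ⊆ P)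
    (hP : ∀ a ∈ A, a ≠ e → G.f a ∈ P ∧ G.g a ∈ P)
    (hQ : ∀ a ∈ M.E \ A, G.f a ∈ Q ∧ G.g a ∈ Q) :
    M.lam A ≤ (P ∩ Q).card - 1 := by
  refine sepB_lam_le (sepB_vec G M.E e T) (fun x => ?_) P Q ?_ ?_ ?_
  · rw [h.mem]
    constructor
    · rintro ⟨φ, hφ⟩
      exact ⟨φ, hφ.symm⟩
    · rintro ⟨φ, rfl⟩
      exact ⟨φ, rfl⟩
  · ext a
    show G.vec M.E e T (fun _ => 1) a = 0
    unfold Gr.vec
    split_ifs
    · rw [Finset.sum_const, nsmul_eq_mul, mul_one]
      exact (ZMod.natCast_eq_zero_iff_even).2 h.even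
    · rfl
    · rfl
  · intro φ hφ a ha
    show G.vec M.E e T φ a = 0
    have hae : a ≠ e := fun h' => (Finset.mem_sdiff.1 ha).2 (h' ▸ he)
    unfold Gr.vec
    rw [if_neg hae, if_pos (Finset.mem_sdiff.1 ha).1, hφ _ (hQ a ha).1, hφ _ (hQ a ha).2, add_zero]
  · intro φ hφ a ha
    show G.vec M.E e T φ a = 0
    unfold Gr.vec
    by_cases hae : a = e
    · rw [if_pos hae]
      exact Finset.sum_eq_zero fun t ht => hφ t (hT ht)
    · rw [if_neg hae, if_pos (hA ha), hφ _ (hP a ha hae).1, hφ _ (hP a ha hae).2, add_zero]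

lemma vc_of_good (h : Rp N G) (hN : Good N) (W : Finset V)
    (hdeg : ∀ x ∈ G.U, x ∉ W → 3 ≤ (G.star N.E x).card) : G.VC N.E W := by
  intro P Q hPQ hcard hside
  set A : Finset α := N.E.filter fun a => G.f a ∈ P ∧ G.g a ∈ P with hA
  have hAE : A ⊆ N.E := Finset.filter_subset _ _
  have hPA : ∀ a ∈ A, G.f a ∈ P ∧ G.g a ∈ P := fun a ha => (Finset.mem_filter.1 ha).2
  have hQA : ∀ a ∈ N.E \ A, G.f a ∈ Q ∧ G.g a ∈ Q := by
    intro a ha
    rw [Finset.mem_sdiff] at ha
    rcases hside a ha.1 with h' | h'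
    · exact absurd (Finset.mem_filter.2 ⟨ha.1, h'⟩) ha.2
    · exact h'
  have hlam := h.lam_le hAE hPQ hPA hQA
  have hsmall : ∀ (B : Finset α) (x : V), x ∈ G.U → x ∉ W → B.card ≤ 2 → ¬ G.star N.E x ⊆ B :=
    fun B x hx hxW hB hsub => by
      have h1 := hdeg x hx hxW
      have h2 := Finset.card_le_card hsub
      omega
  rcases hN A hAE (by omega) with h1 | h1
  · left
    intro x hx
    rw [Finset.mem_sdiff] at hx
    by_contra hxW
    refine hsmall A x (hPQ ▸ Finset.mem_union_left _ hx.1) hxW h1 fun a ha => ?_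
    rw [Gr.mem_star] at ha
    by_contra haA
    have h2 := hQA a (Finset.mem_sdiff.2 ⟨ha.1, haA⟩)
    rcases ha.2 with h3 | h3
    · exact hx.2 (h3 ▸ h2.1)
    · exact hx.2 (h3 ▸ h2.2)
  · right
    intro x hx
    rw [Finset.mem_sdiff] at hx
    by_contra hxW
    refine hsmall (N.E \ A) x (hPQ ▸ Finset.mem_union_right _ hx.1) hxW h1 fun a ha => ?_
    rw [Gr.mem_star] at ha
    rw [Finset.mem_sdiff]
    refine ⟨ha.1, fun haA => ?_⟩
    have h2 := hPA a haA
    rcases ha.2 with h3 | h3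
    · exact hx.2 (h3 ▸ h2.1)
    · exact hx.2 (h3 ▸ h2.2)

lemma deg_of_conn3 (h : Rp N G) (hN : N.Conn3) (hcard : 4 ≤ N.E.card)
    (hne : ∀ x ∈ G.U, (G.star N.E x).Nonempty) : ∀ x ∈ G.U, 3 ≤ (G.star N.E x).card :=
  fun x hx => cocycle_card_of_conn3 hN hcard (Finset.filter_subset _ _) (hne x hx) (h.star_mem x)

lemma simple_of_conn3 (h : Rp N G) (hN : N.Conn3) (hcard : 4 ≤ N.E.card) :
    G.Simple N.E := by
  intro a ha b hb x y hax hbx
  by_contra hab
  have hsub : ({a, b} : Finset α) ⊆ N.E := by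
    intro c hc
    rw [Finset.mem_insert, Finset.mem_singleton] at hc
    rcases hc with rfl | rfl
    · exact ha
    · exact hb
  have hmem : ind {a, b} ∈ N.dual.D := by
    rw [LM.mem_dual]
    constructor
    · intro c hc
      rw [ind_apply, if_neg fun h' => hc (hsub h')]
    · intro z hz
      obtain ⟨φ, hφ⟩ := h.mem.1 hz
      have key : ∀ c, c ∈ N.E → G.Jn c x y → z c = φ x + φ y := by
        intro c hc hj
        rw [hφ c, if_pos hc]
        rcases hj with ⟨h1, h2⟩ | ⟨h1, h2⟩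
        · rw [h1, h2]
        · rw [h1, h2, add_comm]
      have h1 : ∑ c ∈ N.E, z c * ind {a, b} c = ∑ c ∈ ({a, b} : Finset α), z c := by
        simp only [ind_apply, mul_ite, mul_one, mul_zero]
        rw [← Finset.sum_filter]
        congr 1
        ext c
        rw [Finset.mem_filter]
        exact ⟨fun h' => h'.2, fun h' => ⟨hsub h', h'⟩⟩
      rw [h1, Finset.sum_pair hab, key a ha hax, key b hb hbx]
      exact CharTwo.add_self_eq_zero _
  have h2 := cycle_card_of_conn3 hN hcard hsub ⟨a, by simp⟩ hmem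
  rw [Finset.card_pair hab] at h2
  omega

end

/-- existence of a 3-connected graft representation -/
theorem exists_g3 {M : BM α} {e : α} (h : Graphic (M.del {e})) (he : e ∈ M.E)
    (h3 : (M.del {e}).Conn3) (hc : ind {e} ∉ M.D) (hcard : 5 ≤ M.E.card) :
    ∃ (n : ℕ) (G : Gr α (Fin n)) (T : Finset (Fin n)), G3 M e G T := by
  have hE : (M.del {e}).E = M.E \ {e} := rfl
  have hcard' : 4 ≤ (M.del {e}).E.card := by
    rw [hE, Finset.card_sdiff_of_subset (Finset.singleton_subset_iff.2 he), Finset.card_singleton]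
    omega
  have hl : ∀ a ∈ M.E \ {e}, ∃ x ∈ M.D, x a ≠ 0 := by
    intro a ha
    by_contra hno
    push Not at hno
    have hmem : ind {a} ∈ (M.del {e}).dual.D := by
      rw [LM.mem_dual]
      constructor
      · intro c hc
        rw [ind_apply, if_neg fun h' => hc (by
          rw [Finset.mem_singleton] at h'
          rw [h']
          exact ha)]
      · intro z hz
        have hz0 : z a = 0 := by
          obtain ⟨-, y, hy, hzy⟩ := (LM.mem_del M).1 hz
          rw [hzy a (Finset.mem_sdiff.1 ha).2]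
          exact hno y hy
        refine Finset.sum_eq_zero fun c _ => ?_
        rw [ind_apply]
        split_ifs with hc
        · rw [Finset.mem_singleton] at hc
          rw [hc, hz0, zero_mul]
        · rw [mul_zero]
    have h1 := cycle_card_of_conn3 h3 hcard' (Finset.singleton_subset_iff.2 ha)
      (Finset.singleton_nonempty a) hmem
    rw [Finset.card_singleton] at h1
    omega
  obtain ⟨n, G, T, hG, hne⟩ := exists_gRep h he hc hl
  have hrp : Rp (M.del {e}) G := hG.del_rp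
  have hdeg : ∀ x ∈ G.U, 3 ≤ (G.star (M.E \ {e}) x).card := deg_of_conn3 hrp h3 hcard' hne
  exact ⟨n, G, T, hG, vc_of_good hrp (good_of_conn3 h3) ∅ (fun x hx _ => hdeg x hx), hdeg,
    simple_of_conn3 hrp h3 hcard'⟩

end Pool.Agent.H53.Sey
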