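import Pool.Agent.H53.Sey.SepB

/-!
# Graph toolkit C: vertex stars are nonseparating, uniqueness of representations (job SEYG-C)

`star_unique`: let `N = M(G)`, `G` without 2-vertex-cuts, and let `f', g' : α → V'` be another
representation of `N`. For every vertex `v` of `G` there is `v' : V'` with the same star.
Proof. `ind (star v) ∈ N.D`, so there is `S ⊆ V'` (labelling `φ' : V' → ZMod 2`) whose cut is
`star v`. Let `A`, `B` be the edges of `N.E \ star v` with both `'`-ends in `S`, resp. in the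
complement.
(1) `A = ∅` or `B = ∅`. Suppose not. Let `u ≠ v` be in `U`; `star u` is the cut of some `S_u ⊆ V'`
(labelling). The cut of `S_u ∩ S` (labelling `φ_u * φ'`) is a member of `N.D` which agrees with
`star u` on `A` and is zero on `B`; it is the cut of some `R ⊆ U` in `G`; replacing `R` by its
complement `v ∉ R`. If `star u` meets `A` and `B`: let `R' = R` if `u ∉ R`, else `R' = U \ R \ {v}`;
`R'` avoids `u, v`, and all edges between `R'` and `U \ R' \ {v}` are edges of `A` at `u`; it
is nonempty since `star u` meets `A`. `P = R' ∪ {u, v}`, `Q = U \ R'` contradicts `VC`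
(`P \ Q = R' ≠ ∅`; an edge of `B` at `u` has its other end in `Q \ P`). So every `star u`,
`u ≠ v`, avoids `A` or avoids `B`. Let `U_A` be the set of `u ≠ v` whose star meets `A`, `P = U_A ∪
{v}`, `Q = (U \ U_A) ∪ {v}`: all edges are inside `P` or inside `Q`; contradiction to `VC`.
(2) Say `A = ∅` (otherwise complement `S`). Then `star v` is the disjoint union of the `'`-stars of
the elements `s ∈ S` (restricted to `N.E`). Choose `s ∈ S` with nonempty `'`-star `Z ⊆ star v`; `Z`
is the cut of some `R ⊆ U`, `v ∉ R` (complement), so all edges leaving `R` go to `v`; `P = R ∪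
{v}`, `Q = U \ R`: by `VC`, `R = ∅` (impossible) or `R = U \ {v}`, so `Z = star v`.

`whitney`: apply `star_unique` to all vertices of `U`: an edge `a` joining `x` and `y` in `G` is in
the stars of `x` and of `y`. Injectivity: two vertices with the same star contradict `VC` if
`|U| ≥ 3`.

`U3`: if `M` is graphic with ends `f', g'`, apply `star_unique` to `M \ e`. The cocycle
`star v ∪ {e}` (`v ∈ T`) of `M` and the `'`-star of `v'` in `M` agree outside `e`; `ind {e} ∉ M.D`
(labellings constant on every edge are constant on `U` by `VC`, and `|T|` is even), so they are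
equal and `e` has `v'` as one of its two `'`-ends. Hence `|T| ≤ 2`.
-/

set_option autoImplicit false

namespace Pool.Agent.H53.Sey

open Pool.Agent.H63.Sey

universe u v w

variable {α : Type u} [DecidableEq α] {V : Type v} [DecidableEq V]

private lemma z2add (x y : ZMod 2) : x + y = 0 ↔ x = y := by revert x y; decide
private lemma z2add1 (x y : ZMod 2) : x + y = 1 ↔ x ≠ y := by revert x y; decide

/-- members of the row space as cuts avoiding a given vertex -/
private lemma exists_cut {N : BM α} {G : Gr α V} (h : Rp N G) {y : α → ZMod 2} (hy : y ∈ N.D)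
    (x : V) : ∃ R ⊆ G.U, x ∉ R ∧ ∀ a ∈ N.E, (y a = 1 ↔ ¬ (G.f a ∈ R ↔ G.g a ∈ R)) := by
  obtain ⟨S, hS, rfl⟩ := (h.mem_iff_cut).1 hy
  by_cases hx : x ∈ S
  · refine ⟨G.U \ S, Finset.sdiff_subset, fun h => (Finset.mem_sdiff.1 h).2 hx, fun a ha => ?_⟩
    obtain ⟨h1, h2, -⟩ := h.on a ha
    rw [ind_apply]
    simp only [Finset.mem_filter, ha, true_and, Finset.mem_sdiff, h1, h2]
    by_cases p : G.f a ∈ S <;> by_cases q : G.g a ∈ S <;> simp [p, q]
  · refine ⟨S, hS, hx, fun a ha => ?_⟩
    rw [ind_apply]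
    simp only [Finset.mem_filter, ha, true_and]
    by_cases p : G.f a ∈ S <;> by_cases q : G.g a ∈ S <;> simp [p, q]

/-- the labellings of the second representation -/
private lemma exists_lab {N : BM α} {V' : Type w} {f' g' : α → V'} (h' : N = cyc N.E f' g')
    {y : α → ZMod 2} (hy : y ∈ N.D) :
    ∃ φ : V' → ZMod 2, ∀ a ∈ N.E, y a = φ (f' a) + φ (g' a) := by
  rw [h'] at hy
  obtain ⟨φ, rfl⟩ := hy
  exact ⟨φ, fun a ha => by simp [ha]⟩

private lemma lab_mem {N : BM α} {V' : Type w} {f' g' : α → V'} (h' : N = cyc N.E f' g')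
    (φ : V' → ZMod 2) : (fun a => if a ∈ N.E then φ (f' a) + φ (g' a) else 0) ∈ N.D := by
  have : cob N.E f' g' φ ∈ (cyc N.E f' g').D := ⟨φ, rfl⟩
  rw [← h'] at this
  exact this

lemma star_unique {N : BM α} {G : Gr α V} (h : Rp N G) (hvc : G.VC N.E ∅)
    (hne : ∀ x ∈ G.U, (G.star N.E x).Nonempty) {V' : Type w} {f' g' : α → V'}
    (h' : N = cyc N.E f' g') {x : V} (hx : x ∈ G.U) :
    ∃ x' : V', ∀ a ∈ N.E, a ∈ G.star N.E x ↔ (f' a = x' ∨ g' a = x') := by
  classical
  have hst : ∀ u a, a ∈ G.star N.E u ↔ a ∈ N.E ∧ (G.f a = u ∨ G.g a = u) := fun u a =>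
    Gr.mem_star
  -- labellings of the stars
  have hlab : ∀ u : V, ∃ φ : V' → ZMod 2, ∀ a ∈ N.E,
      (a ∈ G.star N.E u ↔ φ (f' a) ≠ φ (g' a)) := by
    intro u
    obtain ⟨φ, hφ⟩ := exists_lab h' (h.star_mem u)
    refine ⟨φ, fun a ha => ?_⟩
    have := hφ a ha
    rw [ind_apply] at this
    rw [← z2add1, ← this]
    by_cases p : a ∈ G.star N.E u <;> simp [p]
  -- no loops in the second representation
  have hloop : ∀ a ∈ N.E, f' a ≠ g' a := by
    intro a ha e
    obtain ⟨φ, hφ⟩ := hlab (G.f a)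
    exact ((hφ a ha).1 ((hst _ _).2 ⟨ha, Or.inl rfl⟩)) (by rw [e])
  obtain ⟨φ₀, hφ₀⟩ := hlab x
  -- step 1: one of the two sides is empty
  have key : ∀ φ' : V' → ZMod 2, (∀ a ∈ N.E, (a ∈ G.star N.E x ↔ φ' (f' a) ≠ φ' (g' a))) →
      ¬ ((∃ a ∈ N.E, a ∉ G.star N.E x ∧ φ' (f' a) = 1) ∧
        (∃ b ∈ N.E, b ∉ G.star N.E x ∧ φ' (f' b) = 0)) := by
    rintro φ' hφ' ⟨⟨a₀, ha₀, ha₀x, ha₀1⟩, ⟨b₀, hb₀, hb₀x, hb₀0⟩⟩
    have hside : ∀ a ∈ N.E, a ∉ G.star N.E x → φ' (f' a) = φ' (g' a) := by
      intro a ha hax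
      by_contra hc
      exact hax ((hφ' a ha).2 hc)
    -- (1a)
    have h1a : ∀ u ∈ G.U, u ≠ x → ∀ a₁ ∈ N.E, a₁ ∈ G.star N.E u → a₁ ∉ G.star N.E x →
        φ' (f' a₁) = 1 → ∀ b₁ ∈ N.E, b₁ ∈ G.star N.E u → b₁ ∉ G.star N.E x →
        φ' (f' b₁) = 0 → False := by
      intro u hu hux a₁ ha₁ ha₁u ha₁x ha₁1 b₁ hb₁ hb₁u hb₁x hb₁0
      obtain ⟨φu, hφu⟩ := hlab u
      obtain ⟨R, hRU, hxR, hR⟩ := exists_cut h (lab_mem h' (fun v => φu v * φ' v)) x
      have hRA : ∀ a ∈ N.E, a ∉ G.star N.E x → φ' (f' a) = 1 →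
          (a ∈ G.star N.E u ↔ ¬ (G.f a ∈ R ↔ G.g a ∈ R)) := by
        intro a ha hax h1
        rw [← hR a ha, hφu a ha]
        simp only [ha, if_true]
        rw [← hside a ha hax, h1, mul_one, mul_one, z2add1]
      have hRB : ∀ a ∈ N.E, a ∉ G.star N.E x → φ' (f' a) = 0 →
          (G.f a ∈ R ↔ G.g a ∈ R) := by
        intro a ha hax h0
        by_contra hc
        have := (hR a ha).2 hc
        simp only [ha, if_true] at this
        rw [← hside a ha hax, h0] at this
        simp at this
      obtain ⟨R', hR'U, huR', hxR', hR'1, hR'2⟩ : ∃ R' ⊆ G.U, u ∉ R' ∧ x ∉ R' ∧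
          (∀ p ∈ G.U, ∀ q ∈ G.U, p ≠ x → q ≠ x → ((p ∈ R' ↔ q ∈ R') ↔ (p ∈ R ↔ q ∈ R))) ∧
          (∀ p ∈ G.U, p ≠ x → (p ∈ R' ↔ ¬ (p ∈ R ↔ u ∈ R))) := by
        by_cases huR : u ∈ R
        · refine ⟨(G.U \ R) \ {x}, ?_, ?_, ?_, ?_, ?_⟩
          · exact fun z hz => (Finset.mem_sdiff.1 (Finset.mem_sdiff.1 hz).1).1
          · simp [huR]
          · simp
          · intro p hp q hq hpx hqx
            simp only [Finset.mem_sdiff, hp, hq, Finset.mem_singleton, hpx, hqx, true_and,
              not_false_eq_true, and_true]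
            tauto
          · intro p hp hpx
            simp only [Finset.mem_sdiff, hp, Finset.mem_singleton, hpx, true_and,
              not_false_eq_true, and_true, huR, iff_true]
        · refine ⟨R, hRU, huR, hxR, fun p _ q _ _ _ => Iff.rfl, ?_⟩
          intro p hp hpx
          simp only [huR, iff_false, not_not]
      -- edges leaving `R'`
      have hleave : ∀ a ∈ N.E, a ∉ G.star N.E x → ¬ (G.f a ∈ R' ↔ G.g a ∈ R') →
          a ∈ G.star N.E u := by
        intro a ha hax hc
        obtain ⟨h1, h2, -⟩ := h.on a ha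
        have hfx : G.f a ≠ x := fun e => hax ((hst _ _).2 ⟨ha, Or.inl e⟩)
        have hgx : G.g a ≠ x := fun e => hax ((hst _ _).2 ⟨ha, Or.inr e⟩)
        have hc' : ¬ (G.f a ∈ R ↔ G.g a ∈ R) := fun hh =>
          hc ((hR'1 _ h1 _ h2 hfx hgx).2 hh)
        rcases zmod2_cases (φ' (f' a)) with h0 | h1'
        · exact absurd (hRB a ha hax h0) hc'
        · exact (hRA a ha hax h1').2 hc'
      have hPQ := hvc (R' ∪ {u, x}) (G.U \ R') ?_ ?_ ?_
      · rcases hPQ with hPQ | hPQ
        · -- `R'` is nonempty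
          obtain ⟨h1, h2, h12⟩ := h.on a₁ ha₁
          have hcut := (hRA a₁ ha₁ ha₁x ha₁1).1 ha₁u
          have hfx : G.f a₁ ≠ x := fun e => ha₁x ((hst _ _).2 ⟨ha₁, Or.inl e⟩)
          have hgx : G.g a₁ ≠ x := fun e => ha₁x ((hst _ _).2 ⟨ha₁, Or.inr e⟩)
          have : ∃ p, p ∈ R' := by
            rcases ((hst _ _).1 ha₁u).2 with e | e
            · refine ⟨G.g a₁, (hR'2 _ h2 hgx).2 fun hh => hcut ?_⟩
              rw [e]; exact hh.symm
            · refine ⟨G.f a₁, (hR'2 _ h1 hfx).2 fun hh => hcut ?_⟩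
              rw [e]; exact hh
          obtain ⟨p, hp⟩ := this
          have : p ∈ (R' ∪ {u, x}) \ (G.U \ R') := by
            simp [hp]
          exact absurd (hPQ this) (Finset.notMem_empty _)
        · obtain ⟨h1, h2, h12⟩ := h.on b₁ hb₁
          have hcut := hRB b₁ hb₁ hb₁x hb₁0
          have hfx : G.f b₁ ≠ x := fun e => hb₁x ((hst _ _).2 ⟨hb₁, Or.inl e⟩)
          have hgx : G.g b₁ ≠ x := fun e => hb₁x ((hst _ _).2 ⟨hb₁, Or.inr e⟩)
          have : ∃ q ∈ G.U, q ∉ R' ∧ q ≠ u ∧ q ≠ x := by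
            rcases ((hst _ _).1 hb₁u).2 with e | e
            · refine ⟨G.g b₁, h2, fun hh => (hR'2 _ h2 hgx).1 hh ?_, ?_, hgx⟩
              · rw [← e]; exact hcut.symm
              · rw [← e]; exact h12.symm
            · refine ⟨G.f b₁, h1, fun hh => (hR'2 _ h1 hfx).1 hh ?_, ?_, hfx⟩
              · rw [← e]; exact hcut
              · rw [← e]; exact h12
          obtain ⟨q, hq, hqR, hqu, hqx⟩ := this
          have : q ∈ (G.U \ R') \ (R' ∪ {u, x}) := by
            simp [hq, hqR, hqu, hqx]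
          exact absurd (hPQ this) (Finset.notMem_empty _)
      · ext z
        simp only [Finset.mem_union, Finset.mem_insert, Finset.mem_singleton, Finset.mem_sdiff]
        constructor
        · rintro ((hz | rfl | rfl) | ⟨hz, -⟩)
          · exact hR'U hz
          · exact hu
          · exact hx
          · exact hz
        · intro hz
          by_cases hzR : z ∈ R'
          · exact Or.inl (Or.inl hzR)
          · exact Or.inr ⟨hz, hzR⟩
      · refine (Finset.card_le_card (t := {u, x}) ?_).trans Finset.card_le_two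
        intro z hz
        simp only [Finset.mem_inter, Finset.mem_union, Finset.mem_sdiff] at hz
        rcases hz.1 with hz1 | hz1
        · exact absurd hz1 hz.2.2
        · exact hz1
      · intro a ha
        obtain ⟨h1, h2, -⟩ := h.on a ha
        by_cases hax : a ∈ G.star N.E x
        · rcases ((hst _ _).1 hax).2 with e | e
          · by_cases hg : G.g a ∈ R'
            · left; simp [e, hg]
            · right; simp [e, hxR', hx, h2, hg]
          · by_cases hg : G.f a ∈ R'
            · left; simp [e, hg]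
            · right; simp [e, hxR', hx, h1, hg]
        · by_cases hc : (G.f a ∈ R' ↔ G.g a ∈ R')
          · by_cases hf : G.f a ∈ R'
            · left; simp [hf, hc.1 hf]
            · have hg' : G.g a ∉ R' := fun hh => hf (hc.2 hh)
              right; simp [h1, h2, hf, hg']
          · have hau := hleave a ha hax hc
            left
            rcases ((hst _ _).1 hau).2 with e | e
            · have : G.g a ∈ R' := by
                by_contra hh
                exact hc ⟨fun hf => absurd (e ▸ hf) huR', fun hg => absurd hg hh⟩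
              simp [e, this]
            · have : G.f a ∈ R' := by
                by_contra hh
                exact hc ⟨fun hf => absurd hf hh, fun hg => absurd (e ▸ hg) huR'⟩
              simp [e, this]
    -- (1b)
    let UA : Finset V := G.U.filter fun u => u ≠ x ∧
      ∃ a ∈ N.E, a ∈ G.star N.E u ∧ a ∉ G.star N.E x ∧ φ' (f' a) = 1
    have hUA : ∀ u, u ∈ UA ↔ u ∈ G.U ∧ u ≠ x ∧
      ∃ a ∈ N.E, a ∈ G.star N.E u ∧ a ∉ G.star N.E x ∧ φ' (f' a) = 1 := fun u => by
        simp only [UA, Finset.mem_filter]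
    have hxUA : x ∉ UA := fun hh => ((hUA x).1 hh).2.1 rfl
    have hend : ∀ a ∈ N.E, a ∉ G.star N.E x → ∀ p, (G.f a = p ∨ G.g a = p) →
        (p ∈ UA ↔ φ' (f' a) = 1) := by
      intro a ha hax p hp
      obtain ⟨h1, h2, -⟩ := h.on a ha
      have hpU : p ∈ G.U := by rcases hp with e | e <;> rw [← e] <;> assumption
      have hpx : p ≠ x := fun e => hax ((hst _ _).2 ⟨ha, e ▸ hp⟩)
      have hps : a ∈ G.star N.E p := (hst _ _).2 ⟨ha, hp⟩
      constructor
      · intro hpA
        obtain ⟨-, -, a₁, ha₁, h3, h4, h5⟩ := (hUA p).1 hpA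
        rcases zmod2_cases (φ' (f' a)) with h0 | h1'
        · exact (h1a p hpU hpx a₁ ha₁ h3 h4 h5 a ha hps hax h0).elim
        · exact h1'
      · intro h1'
        exact (hUA p).2 ⟨hpU, hpx, a, ha, hps, hax, h1'⟩
    have hPQ := hvc (UA ∪ {x}) (G.U \ UA) ?_ ?_ ?_
    · rcases hPQ with hPQ | hPQ
      · have h1 := (hend a₀ ha₀ ha₀x _ (Or.inl rfl)).2 ha₀1
        have : G.f a₀ ∈ (UA ∪ {x}) \ (G.U \ UA) := by simp [h1]
        exact absurd (hPQ this) (Finset.notMem_empty _)
      · obtain ⟨h1, -, -⟩ := h.on b₀ hb₀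
        have h2 : G.f b₀ ∉ UA := fun hh => by
          have := (hend b₀ hb₀ hb₀x _ (Or.inl rfl)).1 hh
          rw [hb₀0] at this
          exact absurd this (by decide)
        have h3 : G.f b₀ ≠ x := fun e => hb₀x ((hst _ _).2 ⟨hb₀, Or.inl e⟩)
        have : G.f b₀ ∈ (G.U \ UA) \ (UA ∪ {x}) := by simp [h1, h2, h3]
        exact absurd (hPQ this) (Finset.notMem_empty _)
    · ext z
      simp only [Finset.mem_union, Finset.mem_singleton, Finset.mem_sdiff]
      constructor
      · rintro ((hz | rfl) | ⟨hz, -⟩)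
        · exact ((hUA z).1 hz).1
        · exact hx
        · exact hz
      · intro hz
        by_cases hzR : z ∈ UA
        · exact Or.inl (Or.inl hzR)
        · exact Or.inr ⟨hz, hzR⟩
    · refine (Finset.card_le_card (t := {x}) ?_).trans (by simp)
      intro z hz
      simp only [Finset.mem_inter, Finset.mem_union, Finset.mem_sdiff] at hz
      rcases hz.1 with hz1 | hz1
      · exact absurd hz1 hz.2.2
      · exact hz1
    · intro a ha
      obtain ⟨h1, h2, -⟩ := h.on a ha
      by_cases hax : a ∈ G.star N.E x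
      · rcases ((hst _ _).1 hax).2 with e | e
        · by_cases hg : G.g a ∈ UA
          · left; simp [e, hg]
          · right; simp [e, hxUA, hx, h2, hg]
        · by_cases hg : G.f a ∈ UA
          · left; simp [e, hg]
          · right; simp [e, hxUA, hx, h1, hg]
      · have hf := hend a ha hax _ (Or.inl rfl)
        have hg := hend a ha hax _ (Or.inr rfl)
        by_cases h3 : φ' (f' a) = 1
        · left; simp [hf.2 h3, hg.2 h3]
        · right
          have h4 : G.f a ∉ UA := fun hh => h3 (hf.1 hh)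
          have h5 : G.g a ∉ UA := fun hh => h3 (hg.1 hh)
          simp [h1, h2, h4, h5]
  -- choose the labelling with `A = ∅`
  obtain ⟨φ', hφ', hφ'0⟩ : ∃ φ' : V' → ZMod 2,
      (∀ a ∈ N.E, (a ∈ G.star N.E x ↔ φ' (f' a) ≠ φ' (g' a))) ∧
      (∀ a ∈ N.E, a ∉ G.star N.E x → φ' (f' a) = 0) := by
    by_cases hA : ∃ a ∈ N.E, a ∉ G.star N.E x ∧ φ₀ (f' a) = 1
    · have hB : ¬ ∃ b ∈ N.E, b ∉ G.star N.E x ∧ φ₀ (f' b) = 0 := fun hB => key φ₀ hφ₀ ⟨hA, hB⟩
      refine ⟨fun v => 1 + φ₀ v, fun a ha => ?_, fun a ha hax => ?_⟩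
      · rw [hφ₀ a ha]
        simp
      · rcases zmod2_cases (φ₀ (f' a)) with h0 | h1
        · exact absurd ⟨a, ha, hax, h0⟩ hB
        · simp only [h1]; decide
    · refine ⟨φ₀, hφ₀, fun a ha hax => ?_⟩
      rcases zmod2_cases (φ₀ (f' a)) with h0 | h1
      · exact h0
      · exact absurd ⟨a, ha, hax, h1⟩ hA
  obtain ⟨a₂, ha₂⟩ := hne x hx
  have ha₂E : a₂ ∈ N.E := ((hst _ _).1 ha₂).1
  have hends : ∀ a ∈ N.E, a ∉ G.star N.E x → φ' (f' a) = 0 ∧ φ' (g' a) = 0 := by
    intro a ha hax
    have h0 := hφ'0 a ha hax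
    refine ⟨h0, ?_⟩
    by_contra hc
    exact hax ((hφ' a ha).2 (by rw [h0]; exact fun e => hc e.symm))
  obtain ⟨s, hs1, hs2⟩ : ∃ s, φ' s = 1 ∧ (f' a₂ = s ∨ g' a₂ = s) := by
    have h1 := (hφ' a₂ ha₂E).1 ha₂
    rcases zmod2_cases (φ' (f' a₂)) with h0 | h0
    · rcases zmod2_cases (φ' (g' a₂)) with h3 | h3
      · exact absurd (h0.trans h3.symm) h1
      · exact ⟨_, h3, Or.inr rfl⟩
    · exact ⟨_, h0, Or.inl rfl⟩
  -- the star of `s`
  obtain ⟨R, hRU, hxR, hR⟩ := exists_cut h (lab_mem h' (fun v => if v = s then 1 else 0)) x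
  have hZ : ∀ a ∈ N.E, ((f' a = s ∨ g' a = s) ↔ ¬ (G.f a ∈ R ↔ G.g a ∈ R)) := by
    intro a ha
    rw [← hR a ha]
    simp only [ha, if_true]
    have hl := hloop a ha
    by_cases p : f' a = s <;> by_cases q : g' a = s
    · exact absurd (p.trans q.symm) hl
    · simp [p, q]
    · simp [p, q]
    · simp [p, q]
  have hZx : ∀ a ∈ N.E, (f' a = s ∨ g' a = s) → a ∈ G.star N.E x := by
    intro a ha hs
    by_contra hc
    obtain ⟨h1, h2⟩ := hends a ha hc
    rcases hs with e | e
    · rw [e, hs1] at h1; exact absurd h1 (by decide)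
    · rw [e, hs1] at h2; exact absurd h2 (by decide)
  have hPQ := hvc (R ∪ {x}) (G.U \ R) ?_ ?_ ?_
  · rcases hPQ with hPQ | hPQ
    · exfalso
      have hcut := (hZ a₂ ha₂E).1 hs2
      have : ∃ p, p ∈ R := by
        by_contra hc
        push Not at hc
        exact hcut ⟨fun hh => absurd hh (hc _), fun hh => absurd hh (hc _)⟩
      obtain ⟨p, hp⟩ := this
      have : p ∈ (R ∪ {x}) \ (G.U \ R) := by simp [hp]
      exact absurd (hPQ this) (Finset.notMem_empty _)
    · refine ⟨s, fun a ha => ⟨fun hax => ?_, hZx a ha⟩⟩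
      have hall : ∀ p ∈ G.U, p ≠ x → p ∈ R := by
        intro p hp hpx
        by_contra hc
        have : p ∈ (G.U \ R) \ (R ∪ {x}) := by simp [hp, hc, hpx]
        exact absurd (hPQ this) (Finset.notMem_empty _)
      obtain ⟨h1, h2, h12⟩ := h.on a ha
      rw [hZ a ha]
      rcases ((hst _ _).1 hax).2 with e | e
      · have : G.g a ∈ R := hall _ h2 (by rw [← e]; exact h12.symm)
        intro hh
        exact hxR (e ▸ hh.2 this)
      · have : G.f a ∈ R := hall _ h1 (by rw [← e]; exact h12)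
        intro hh
        exact hxR (e ▸ hh.1 this)
  · ext z
    simp only [Finset.mem_union, Finset.mem_singleton, Finset.mem_sdiff]
    constructor
    · rintro ((hz | rfl) | ⟨hz, -⟩)
      · exact hRU hz
      · exact hx
      · exact hz
    · intro hz
      by_cases hzR : z ∈ R
      · exact Or.inl (Or.inl hzR)
      · exact Or.inr ⟨hz, hzR⟩
  · refine (Finset.card_le_card (t := {x}) ?_).trans (by simp)
    intro z hz
    simp only [Finset.mem_inter, Finset.mem_union, Finset.mem_sdiff] at hz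
    rcases hz.1 with hz1 | hz1
    · exact absurd hz1 hz.2.2
    · exact hz1
  · intro a ha
    obtain ⟨h1, h2, -⟩ := h.on a ha
    by_cases hc : (G.f a ∈ R ↔ G.g a ∈ R)
    · by_cases hf : G.f a ∈ R
      · left; simp [hf, hc.1 hf]
      · have hg' : G.g a ∉ R := fun hh => hf (hc.2 hh)
        right; simp [h1, h2, hf, hg']
    · have hax := hZx a ha ((hZ a ha).2 hc)
      left
      rcases ((hst _ _).1 hax).2 with e | e
      · have : G.g a ∈ R := by
          by_contra hh
          exact hc ⟨fun hf => absurd (e ▸ hf) hxR, fun hg => absurd hg hh⟩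
        simp [e, this]
      · have : G.f a ∈ R := by
          by_contra hh
          exact hc ⟨fun hf => absurd hf hh, fun hg => absurd (e ▸ hg) hxR⟩
        simp [e, this]

private lemma star_inj {N : BM α} {G : Gr α V} (h : Rp N G) (hvc : G.VC N.E ∅)
    (hU : 3 ≤ G.U.card) {p q : V} (hp : p ∈ G.U) (hq : q ∈ G.U)
    (hpq : ∀ a ∈ N.E, a ∈ G.star N.E p → a ∈ G.star N.E q) : p = q := by
  classical
  by_contra hne
  have hPQ := hvc {p, q} (G.U \ {p}) ?_ ?_ ?_
  · rcases hPQ with hPQ | hPQ
    · have : p ∈ ({p, q} : Finset V) \ (G.U \ {p}) := by simp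
      exact absurd (hPQ this) (Finset.notMem_empty _)
    · have h1 : G.U ⊆ {p, q} := by
        intro z hz
        by_contra hc
        simp only [Finset.mem_insert, Finset.mem_singleton, not_or] at hc
        have : z ∈ (G.U \ {p}) \ ({p, q} : Finset V) := by simp [hz, hc.1, hc.2]
        exact absurd (hPQ this) (Finset.notMem_empty _)
      have := (Finset.card_le_card h1).trans Finset.card_le_two
      omega
  · ext z
    simp only [Finset.mem_union, Finset.mem_insert, Finset.mem_singleton, Finset.mem_sdiff]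
    constructor
    · rintro ((rfl | rfl) | ⟨hz, -⟩) <;> assumption
    · intro hz
      by_cases hzp : z = p
      · exact Or.inl (Or.inl hzp)
      · exact Or.inr ⟨hz, hzp⟩
  · exact (Finset.card_le_card Finset.inter_subset_left).trans Finset.card_le_two
  · intro a ha
    obtain ⟨h1, h2, h12⟩ := h.on a ha
    by_cases hap : a ∈ G.star N.E p
    · have haq := hpq a ha hap
      left
      rcases (Gr.mem_star.1 hap).2 with e | e <;> rcases (Gr.mem_star.1 haq).2 with e' | e'
      · exact absurd (e.symm.trans e') hne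
      · simp [e, e']
      · simp [e, e']
      · exact absurd (e.symm.trans e') hne
    · right
      have hf : G.f a ≠ p := fun e => hap (Gr.mem_star.2 ⟨ha, Or.inl e⟩)
      have hg : G.g a ≠ p := fun e => hap (Gr.mem_star.2 ⟨ha, Or.inr e⟩)
      simp [h1, h2, hf, hg]

/-- uniqueness of the representation (Whitney) -/
theorem whitney {N : BM α} {G : Gr α V} (h : Rp N G) (hvc : G.VC N.E ∅)
    (hne : ∀ x ∈ G.U, (G.star N.E x).Nonempty) (hU : 3 ≤ G.U.card)
    {V' : Type w} [Nonempty V'] {f' g' : α → V'}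
    (h' : N = cyc N.E f' g') :
    ∃ ι : V → V', Set.InjOn ι (G.U : Set V) ∧
      ∀ a ∈ N.E, (f' a = ι (G.f a) ∧ g' a = ι (G.g a)) ∨ (f' a = ι (G.g a) ∧ g' a = ι (G.f a)) := by
  classical
  have hs : ∀ x ∈ G.U, ∃ x' : V', ∀ a ∈ N.E, a ∈ G.star N.E x ↔ (f' a = x' ∨ g' a = x') :=
    fun x hx => star_unique h hvc hne h' hx
  choose! ι hι using hs
  have hinj : Set.InjOn ι (G.U : Set V) := by
    intro p hp q hq hpq
    refine star_inj h hvc hU hp hq fun a ha hap => ?_
    rw [hι q hq a ha, ← hpq]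
    exact (hι p hp a ha).1 hap
  refine ⟨ι, hinj, fun a ha => ?_⟩
  obtain ⟨h1, h2, h12⟩ := h.on a ha
  have hf := (hι _ h1 a ha).1 (Gr.mem_star.2 ⟨ha, Or.inl rfl⟩)
  have hg := (hι _ h2 a ha).1 (Gr.mem_star.2 ⟨ha, Or.inr rfl⟩)
  have hne' : ι (G.f a) ≠ ι (G.g a) := fun e => h12 (hinj h1 h2 e)
  rcases hf with e | e <;> rcases hg with e' | e'
  · exact absurd (e.symm.trans e') hne'
  · exact Or.inl ⟨e, e'⟩
  · exact Or.inr ⟨e', e⟩
  · exact absurd (e.symm.trans e') hne'

lemma ind_notMem_of_vc {M : BM α} {e : α} {G : Gr α V} {T : Finset V} (h : GRep M e G T)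
    (hvc : G.VC (M.E \ {e}) ∅) : ind {e} ∉ M.D := by
  classical
  intro hmem
  obtain ⟨φ, hφ⟩ := (h.mem _).1 hmem
  have hedge : ∀ a ∈ M.E \ {e}, φ (G.f a) = φ (G.g a) := by
    intro a ha
    obtain ⟨ha1, ha2⟩ := Finset.mem_sdiff.1 ha
    rw [Finset.mem_singleton] at ha2
    have := congrFun hφ a
    simp only [ind_apply, Finset.mem_singleton, ha2, if_false, Gr.vec, ha1, if_true] at this
    exact (z2add _ _).1 this.symm
  have he : ∑ t ∈ T, φ t = 1 := by
    have := congrFun hφ e
    simp only [ind_apply, Finset.mem_singleton, if_true, Gr.vec] at this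
    exact this.symm
  have hconst : ∃ c, ∀ x ∈ G.U, φ x = c := by
    have hPQ := hvc (G.U.filter fun x => φ x = 0) (G.U.filter fun x => φ x = 1) ?_ ?_ ?_
    · rcases hPQ with hPQ | hPQ
      · refine ⟨1, fun x hx => ?_⟩
        rcases zmod2_cases (φ x) with h0 | h0
        · have : x ∈ (G.U.filter fun x => φ x = 0) \ (G.U.filter fun x => φ x = 1) := by
            simp [hx, h0]
          exact absurd (hPQ this) (Finset.notMem_empty _)
        · exact h0
      · refine ⟨0, fun x hx => ?_⟩
        rcases zmod2_cases (φ x) with h0 | h0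
        · exact h0
        · have : x ∈ (G.U.filter fun x => φ x = 1) \ (G.U.filter fun x => φ x = 0) := by
            simp [hx, h0]
          exact absurd (hPQ this) (Finset.notMem_empty _)
    · ext z
      simp only [Finset.mem_union, Finset.mem_filter]
      rcases zmod2_cases (φ z) with h0 | h0 <;> simp [h0]
    · have : (G.U.filter fun x => φ x = 0) ∩ (G.U.filter fun x => φ x = 1) = ∅ := by
        ext z
        simp only [Finset.mem_inter, Finset.mem_filter, Finset.notMem_empty, iff_false]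
        rintro ⟨⟨-, h0⟩, -, h1⟩
        rw [h0] at h1
        exact absurd h1 (by decide)
      rw [this]; simp
    · intro a ha
      obtain ⟨h1, h2, -⟩ := h.on a ha
      have := hedge a ha
      rcases zmod2_cases (φ (G.f a)) with h0 | h0
      · left; simp [h1, h2, h0, ← this]
      · right; simp [h1, h2, h0, ← this]
  obtain ⟨c, hc⟩ := hconst
  rw [Finset.sum_congr rfl (fun t ht => hc t (h.TU ht)), Finset.sum_const] at he
  obtain ⟨k, hk⟩ := h.even
  rw [hk] at he
  have h2 : (k + k) • c = 0 := by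
    rw [add_smul, ← two_smul ℕ (k • c), ← Nat.cast_smul_eq_nsmul (ZMod 2)]
    have : ((2 : ℕ) : ZMod 2) = 0 := by decide
    rw [this, zero_smul]
  rw [h2] at he
  exact absurd he (by decide)

/-- the main criterion: a graphic graft over a graph without 2-vertex-cuts has `|T| ≤ 2` -/
theorem U3 {M : BM α} {e : α} {G : Gr α V} {T : Finset V} (h : GRep M e G T)
    (hvc : G.VC (M.E \ {e}) ∅) (hne : ∀ x ∈ G.U, (G.star (M.E \ {e}) x).Nonempty)
    (hg : Graphic M) : T.card ≤ 2 := by
  classical
  by_contra hT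
  push Not at hT
  obtain ⟨n, f', g', hM⟩ := hg
  have hN : Rp (M.del {e}) G := h.del_rp
  have hNE : (M.del {e}).E = M.E \ {e} := rfl
  have hU : 3 ≤ G.U.card := by
    have := Finset.card_le_card h.TU
    omega
  have hN' : M.del {e} = cyc (M.del {e}).E f' g' := by
    apply LM.ext
    · rfl
    · ext y
      constructor
      · rintro ⟨x, hx, rfl⟩
        rw [hM] at hx
        obtain ⟨φ, rfl⟩ := hx
        refine ⟨φ, ?_⟩
        ext a
        simp only [cob_apply, res_apply, hNE]
        by_cases ha : a ∈ M.E \ {e}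
        · simp [ha, (Finset.mem_sdiff.1 ha).1]
        · simp [ha]
      · rintro ⟨φ, rfl⟩
        refine ⟨fun a => if a ∈ M.E then φ (f' a) + φ (g' a) else 0, lab_mem hM φ, ?_⟩
        ext a
        simp only [cob_apply, res_apply, hNE]
        by_cases ha : a ∈ M.E \ {e}
        · simp [ha, (Finset.mem_sdiff.1 ha).1]
        · simp [ha]
  haveI : Nonempty (Fin n) := ⟨f' e⟩
  obtain ⟨ι, hinj, hι⟩ := whitney hN (by rw [hNE]; exact hvc) (by rw [hNE]; exact hne) hU hN'
  have hend : ∀ t ∈ T, f' e = ι t ∨ g' e = ι t := by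
    intro t ht
    have htU := h.TU ht
    have h1 : ind (G.star (M.E \ {e}) t ∪ {e}) ∈ M.D := by
      have := h.star_mem t
      rwa [if_pos ht] at this
    have h2 := lab_mem hM (fun v => if v = ι t then 1 else 0)
    have h3 := M.D.add_mem h1 h2
    have h4 : ∀ a, a ≠ e → (ind (G.star (M.E \ {e}) t ∪ {e}) +
        (fun a => if a ∈ M.E then (if f' a = ι t then 1 else 0) + (if g' a = ι t then 1 else 0)
          else 0 : α → ZMod 2)) a = (0 : ZMod 2) := by
      intro a hae
      rw [Pi.add_apply, ind_apply]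
      by_cases haE : a ∈ M.E
      · have haN : a ∈ (M.del {e}).E := by
          rw [hNE]; simp [haE, hae]
        obtain ⟨h5, h6, h7⟩ := hN.on a haN
        have h8 : ι (G.f a) ≠ ι (G.g a) := fun ee => h7 (hinj h5 h6 ee)
        have h9 : ∀ z ∈ G.U, (ι z = ι t ↔ z = t) := fun z hz =>
          ⟨fun ee => hinj hz htU ee, fun ee => by rw [ee]⟩
        have h10 : a ∈ G.star (M.E \ {e}) t ∪ {e} ↔ (G.f a = t ∨ G.g a = t) := by
          rw [Finset.mem_union, Gr.mem_star]
          simp [haE, hae]
        simp only [h10, haE, if_true]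
        rcases hι a haN with ⟨e1, e2⟩ | ⟨e1, e2⟩
        · rw [e1, e2]
          simp only [h9 _ h5, h9 _ h6]
          by_cases p : G.f a = t <;> by_cases q : G.g a = t
          · exact absurd (p.trans q.symm) h7
          · simp [p, q]; decide
          · simp [p, q]; decide
          · simp [p, q]
        · rw [e1, e2]
          simp only [h9 _ h5, h9 _ h6]
          by_cases p : G.f a = t <;> by_cases q : G.g a = t
          · exact absurd (p.trans q.symm) h7
          · simp [p, q]; decide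
          · simp [p, q]; decide
          · simp [p, q]
      · have : a ∉ G.star (M.E \ {e}) t ∪ {e} := by
          rw [Finset.mem_union, Gr.mem_star]
          simp [haE, hae]
        rw [if_neg this, if_neg haE, add_zero]
    by_contra hc
    push Not at hc
    refine ind_notMem_of_vc h hvc ?_
    convert h3 using 1
    ext a
    by_cases hae : a = e
    · subst hae
      simp [h.he, hc.1, hc.2]
    · rw [ind_apply, if_neg (by simpa using hae)]
      exact (h4 a hae).symm
  have hsub : T.image ι ⊆ {f' e, g' e} := by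
    intro z hz
    obtain ⟨t, ht, rfl⟩ := Finset.mem_image.1 hz
    rcases hend t ht with e1 | e1
    · simp [e1]
    · simp [e1]
  have h1 : (T.image ι).card = T.card :=
    Finset.card_image_of_injOn fun a ha b hb hab => hinj (h.TU ha) (h.TU hb) hab
  have h2 := (Finset.card_le_card hsub).trans Finset.card_le_two
  omega

end Pool.Agent.H53.Sey
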